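import Pool.Agent.GD.AL.AVb

/-!
# General d, ALPHA: random replacement, unconditional form (helper60, note 4258)

`avs`: for all `ν`, `β`, all configurations
`c HI_D(S + (e, A)) ≤ (c - 1) HI_D(S + (e, A')) + HI_D(S + (e - 1, A')) + gz D' c + ∑_{t=1..c} ∑_{s<D'} gz s t`,
`A' = insert i A`, `D' = D + 1 - e`, `gz` on the level `I ∩ A'`.
`avb'`: for the differences `dl`, only upper bounds for the lower degrees are needed.
-/

set_option autoImplicit false
set_option linter.unusedSectionVars false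

namespace Pool.Agent.GD.AL

open Finset MvPolynomial Pool.Agent.H51.TB Pool.Agent.V7.ST

section

variable {M : Type} [AddCommGroup M] [Module ℂ M]

/-- `⨅_{b < n} U b ⊓ E`. -/
def CapU (E : Submodule ℂ M) (U : ℕ → Submodule ℂ M) : ℕ → Submodule ℂ M
  | 0 => E
  | a + 1 => CapU E U a ⊓ U a

theorem mem_CapU {E : Submodule ℂ M} {U : ℕ → Submodule ℂ M} {n : ℕ} {x : M} :
    x ∈ CapU E U n ↔ x ∈ E ∧ ∀ b < n, x ∈ U b := by
  induction n with
  | zero => exact ⟨fun h => ⟨h, fun b hb => absurd hb (Nat.not_lt_zero b)⟩, fun h => h.1⟩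
  | succ n ih =>
    constructor
    · rintro ⟨h1, h2⟩
      obtain ⟨h3, h4⟩ := ih.1 h1
      refine ⟨h3, fun b hb => ?_⟩
      rcases Nat.lt_succ_iff_lt_or_eq.1 hb with h5 | rfl
      · exact h4 b h5
      · exact h2
    · rintro ⟨h1, h2⟩
      exact ⟨ih.2 ⟨h1, fun b hb => h2 b (by omega)⟩, h2 n (by omega)⟩

/-- The codimension of an intersection is at most the sum of the codimensions. -/
theorem sum_inf_le (E : Submodule ℂ M) [Module.Finite ℂ E] (U : ℕ → Submodule ℂ M) (n : ℕ) :
    ∑ b ∈ range n, (Module.finrank ℂ (E ⊓ U b : Submodule ℂ M) : ℤ) ≤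
      ((n : ℤ) - 1) * Module.finrank ℂ E + Module.finrank ℂ (CapU E U n) := by
  induction n with
  | zero =>
    rw [sum_range_zero]
    show (0 : ℤ) ≤ ((0 : ℕ) - 1) * Module.finrank ℂ E + Module.finrank ℂ E
    push_cast
    linarith
  | succ n ih =>
    rw [sum_range_succ]
    have hC : CapU E U n ≤ E := fun x hx => (mem_CapU.1 hx).1
    have f1 : Module.Finite ℂ (CapU E U n) := Submodule.finiteDimensional_of_le hC
    have f2 : Module.Finite ℂ (E ⊓ U n : Submodule ℂ M) :=
      Submodule.finiteDimensional_of_le inf_le_left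
    have h1 := Submodule.finrank_sup_add_finrank_inf_eq (CapU E U n) (E ⊓ U n)
    have h2 : Module.finrank ℂ (CapU E U n ⊔ (E ⊓ U n) : Submodule ℂ M) ≤ Module.finrank ℂ E :=
      Submodule.finrank_mono (sup_le hC inf_le_left)
    have h3 : CapU E U n ⊓ (E ⊓ U n) = CapU E U (n + 1) := by
      ext x
      rw [Submodule.mem_inf, Submodule.mem_inf]
      constructor
      · rintro ⟨h4, -, h5⟩
        exact ⟨h4, h5⟩
      · rintro ⟨h4, h5⟩
        exact ⟨h4, hC h4, h5⟩
    rw [h3] at h1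
    push_cast
    have h4 : (Module.finrank ℂ (CapU E U n) : ℤ) + Module.finrank ℂ (E ⊓ U n : Submodule ℂ M) ≤
      Module.finrank ℂ E + Module.finrank ℂ (CapU E U (n + 1)) := by
      have h5 : Module.finrank ℂ (CapU E U n) + Module.finrank ℂ (E ⊓ U n : Submodule ℂ M) ≤
        Module.finrank ℂ E + Module.finrank ℂ (CapU E U (n + 1)) := by omega
      exact_mod_cast h5
    linarith

/-- The dimension of `Btw` is at most the sum of the dimensions of the kernels. -/
theorem Btw_sum (P2 : ℕ → Submodule ℂ M) (T : M →ₗ[ℂ] M) (h2 : ∀ j, Module.Finite ℂ (P2 j)) (j : ℕ) :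
    Module.finrank ℂ (Btw P2 T j) ≤ Module.finrank ℂ (P2 0) +
      ∑ s ∈ range j, Module.finrank ℂ (P2 (s + 1) ⊓ LinearMap.ker T : Submodule ℂ M) := by
  induction j with
  | zero => rw [sum_range_zero, add_zero]; exact le_rfl
  | succ j ih =>
    rw [sum_range_succ]
    have f1 : Module.Finite ℂ (Btw P2 T (j + 1)) :=
      have := h2 (j + 1)
      Submodule.finiteDimensional_of_le (Btw_le P2 T (j + 1))
    have f2 : Module.Finite ℂ (Btw P2 T j) :=
      have := h2 j
      Submodule.finiteDimensional_of_le (Btw_le P2 T j)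
    have f3 : Module.Finite ℂ (P2 (j + 1) ⊓ LinearMap.ker T : Submodule ℂ M) :=
      have := h2 (j + 1)
      Submodule.finiteDimensional_of_le inf_le_left
    have h3 := rk (Btw P2 T (j + 1)) T
    have h4 : (Btw P2 T (j + 1)).map T ≤ Btw P2 T j := by
      rintro x ⟨y, hy, rfl⟩
      exact hy.2
    have h5 := Submodule.finrank_mono h4
    have h6 : Btw P2 T (j + 1) ⊓ LinearMap.ker T ≤ P2 (j + 1) ⊓ LinearMap.ker T :=
      inf_le_inf_right _ (Btw_le P2 T (j + 1))
    have h7 := Submodule.finrank_mono h6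
    omega

end

section

variable {ν : Type} [Fintype ν] [DecidableEq ν] {d : ℕ}

/-- **Random replacement, unconditional.** -/
theorem avs {D e c' : ℕ} (hD : D ≤ d) (he : 2 ≤ e) (heD : e ≤ D) (β : ν → ℕ) {I A Az : Finset ℕ}
    {i : ℕ} (hAz : A ⊆ Az) (ms : Multiset Kd) :
    (c' : ℤ) * HI d D β I (Kd.ord e A ::ₘ ms) ≤
      ((c' : ℤ) - 1) * HI d D β I (Kd.ord e (insert i A) ::ₘ ms) +
        HI d D β I (Kd.ord (e - 1) (insert i A) ::ₘ ms) +
        gz d β ms (insert i A) Az (D + 1 - e) (I ∩ insert i A) c' +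
        ∑ t ∈ range c', ∑ s ∈ range (D + 1 - e),
          (gz d β ms (insert i A) Az s (I ∩ insert i A) (t + 1) : ℤ) := by
  classical
  set A' := insert i A with hA'
  set D' := D + 1 - e with hD'
  set I2 := I ∩ A' with hI2
  obtain ⟨κ, _, m, hm⟩ : ∃ (κ : Type) (_ : Fintype κ) (m : κ → Kd),
      (univ : Finset κ).val.map m = ms := by
    obtain ⟨m, hm, -⟩ := exists_conf (LS d 0 β I) ms
    exact ⟨_, inferInstance, m, hm⟩
  obtain ⟨p, q₀, z₀, hg1, hg2⟩ := exists_pos (D := D) (D' := D') (e := e) (c' := c') hD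
    (by omega) β I I2 I2 A' Az m ms hm
  set q := opt β A' q₀ with hq
  let zv : ℕ → ν → ℂ := fun b => if h : b < c' then opt β Az (z₀ ⟨b, h⟩) else 0
  have hqA' : ∀ s, β s ∈ A' → q s = 0 := fun s hs => opt_zero hs
  have hzA : ∀ b, ∀ s, β s ∈ Az → zv b s = 0 := by
    intro b s hs
    show (if h : b < c' then opt β Az (z₀ ⟨b, h⟩) else 0) s = 0
    split_ifs
    · exact opt_zero hs
    · rfl
  set Q := lf q with hQ
  let Z : ℕ → MvPolynomial ν ℂ := fun b => lf (zv b)
  set X : Finset ℕ → ℕ → Submodule ℂ (Dl ν) := fun I' j => XX β j I' m p with hX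
  -- the dimensions
  have hdim : ∀ a ≤ c', ∀ j ≤ D',
      Module.finrank ℂ (KX Q Z a (X I2 j)) = gz d β ms A' Az j I2 a := by
    intro a ha j hj
    rw [← hg2 I2 (Or.inl rfl) a ha j hj]
    have h1 : KX Q Z a (X I2 j) = XX β j I2 m p ⊓ (LinearMap.ker (ct (lf (opt β A' q₀))) ⊓
        ⨅ b : Fin a, LinearMap.ker (ct (lf (opt β Az (z₀ (Fin.castLE ha b)))))) := by
      ext Φ
      rw [mem_KX]
      simp only [Submodule.mem_inf, Submodule.mem_iInf, LinearMap.mem_ker]
      have h2 : ∀ (b : ℕ) (hb : b < a), Z b = lf (opt β Az (z₀ (Fin.castLE ha ⟨b, hb⟩))) := by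
        intro b hb
        show lf (if h : b < c' then opt β Az (z₀ ⟨b, h⟩) else 0) = _
        rw [dif_pos (lt_of_lt_of_le hb ha)]
        rfl
      constructor
      · rintro ⟨h3, h4, h5⟩
        refine ⟨h3, h4, fun b => ?_⟩
        rw [← h2 b.1 b.2]
        exact h5 b.1 b.2
      · rintro ⟨h3, h4, h5⟩
        refine ⟨h3, h4, fun b hb => ?_⟩
        rw [h2 b hb]
        exact h5 ⟨b, hb⟩
    rw [h1]
  have hfin : ∀ I' j, Module.Finite ℂ (X I' j) := fun I' j => finite_XX β j I' m p
  have hfinK : ∀ a I' j, Module.Finite ℂ (KX Q Z a (X I' j)) := fun a I' j =>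
    have := hfin I' j
    Submodule.finiteDimensional_of_le KX_le
  have hpow : ∀ b κ' (g : Dl ν), ((ct (Z b)) ^ κ') g = ct (Z b ^ κ') g := by
    intro b κ' g
    induction κ' with
    | zero => rw [pow_zero, pow_zero, ct_one]; rfl
    | succ κ' ih => rw [pow_succ', pow_succ', Module.End.mul_apply, ih, ct_mul]
  set G := KX Q Z 0 (X I2 D') with hG
  let B : ℕ → Submodule ℂ (Dl ν) := fun b => Btw (fun j => KX Q Z 0 (X I2 j)) (ct (Z b)) D'
  have hBG : ∀ b, B b ≤ G := fun b => Btw_le _ _ _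
  have f0 : Module.Finite ℂ G := hfinK 0 I2 D'
  -- the spaces of the points of kind `A'`
  let Ax : ℕ → Submodule ℂ (Dl ν) := fun x => X I D ⊓ LinearMap.ker (ct (Q ^ x))
  let E : Submodule ℂ (Dl ν) := (Ax e).map (ct (Q ^ (e - 1)))
  have hXpow : ∀ κ' ≤ D', ∀ g ∈ X I D, ct (Q ^ (e - 1 + κ')) g ∈ X I2 (D' - κ') := by
    intro κ' hκ' g hg
    refine XX_ct_pow hqA' (k := e - 1 + κ') (by omega) ?_
    have h1 : D' - κ' + (e - 1 + κ') = D := by omega
    rw [h1]
    exact hg
  have hEG : E ≤ G := by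
    rintro x ⟨g, ⟨hg, hg'⟩, rfl⟩
    refine mem_KX.2 ⟨hXpow 0 (Nat.zero_le _) g hg, ?_, fun b hb => absurd hb (Nat.not_lt_zero b)⟩
    rw [← ct_mul, ← pow_succ']
    have h1 : e - 1 + 1 = e := by omega
    rw [h1]
    exact hg'
  have fE : Module.Finite ℂ E := Submodule.finiteDimensional_of_le hEG
  have hAxf : ∀ x, Module.Finite ℂ (Ax x) := fun x =>
    have := hfin I D
    Submodule.finiteDimensional_of_le inf_le_left
  have hAxk : Ax e ⊓ LinearMap.ker (ct (Q ^ (e - 1))) = Ax (e - 1) := by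
    ext g
    constructor
    · rintro ⟨⟨h1, -⟩, h2⟩
      exact ⟨h1, h2⟩
    · rintro ⟨h1, h2⟩
      refine ⟨⟨h1, ?_⟩, h2⟩
      have h3 : e = (e - 1) + 1 := by omega
      show ct (Q ^ e) g = 0
      have h4 : ct (Q ^ (e - 1)) g = 0 := h2
      rw [h3, pow_succ', ct_mul, h4, map_zero]
  have hdE : Module.finrank ℂ (Ax e) = Module.finrank ℂ E + Module.finrank ℂ (Ax (e - 1)) := by
    have := hAxf e
    rw [← hAxk]
    exact rk (Ax e) (ct (Q ^ (e - 1)))
  have hAe : Module.finrank ℂ (Ax e) = HI d D β I (Kd.ord e A' ::ₘ ms) := hg1 e (Or.inl rfl)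
  have hAe1 : Module.finrank ℂ (Ax (e - 1)) = HI d D β I (Kd.ord (e - 1) A' ::ₘ ms) :=
    hg1 (e - 1) (Or.inr rfl)
  -- the limit
  have hlim : ∀ b, (HI d D β I (Kd.ord e A ::ₘ ms) : ℤ) ≤ Module.finrank ℂ (Ax (e - 1)) +
      Module.finrank ℂ (E ⊓ B b : Submodule ℂ (Dl ν)) := by
    intro b
    let R : Submodule ℂ (Dl ν) := Ax e ⊓ (B b).comap (ct (Q ^ (e - 1)))
    have f1 := hAxf e
    have f2 : Module.Finite ℂ R := Submodule.finiteDimensional_of_le inf_le_left
    have h1 := rk R (ct (Q ^ (e - 1)))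
    have h2 : R.map (ct (Q ^ (e - 1))) = E ⊓ B b := by
      ext x
      constructor
      · rintro ⟨g, ⟨hg, hg'⟩, rfl⟩
        exact ⟨⟨g, hg, rfl⟩, hg'⟩
      · rintro ⟨⟨g, hg, rfl⟩, hg'⟩
        exact ⟨g, ⟨hg, hg'⟩, rfl⟩
    have h3 : R ⊓ LinearMap.ker (ct (Q ^ (e - 1))) = Ax (e - 1) := by
      rw [← hAxk]
      ext g
      constructor
      · rintro ⟨⟨h4, -⟩, h5⟩
        exact ⟨h4, h5⟩
      · rintro ⟨h4, h5⟩
        refine ⟨⟨h4, ?_⟩, h5⟩
        have h6 : ct (Q ^ (e - 1)) g = 0 := h5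
        show ct (Q ^ (e - 1)) g ∈ B b
        rw [h6]
        exact Submodule.zero_mem _
    rw [h2, h3] at h1
    have h4 := lim_le (D := D) (e := e) hD (by omega) β I A m ms hm p q (zv b)
      (fun s hs => hqA' s (mem_insert_of_mem hs)) (fun s hs => hzA b s (hAz hs)) R
      (inf_le_left.trans inf_le_left) (by
        intro F hF hF0 hF1
        refine ⟨⟨hF 0, hF0⟩, ?_⟩
        show ct (Q ^ (e - 1)) (F 0) ∈ Btw (fun j => KX Q Z 0 (X I2 j)) (ct (Z b)) D'
        refine mem_Btw.2 fun κ' hκ' => ?_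
        obtain ⟨c, hc⟩ := hF1 κ'
        have h5 : ((ct (Z b)) ^ κ') (ct (Q ^ (e - 1)) (F 0)) =
            c • ct (Q ^ (e - 1 + κ')) (F κ') := by
          rw [hpow, ← ct_mul]
          exact hc
        refine mem_KX.2 ⟨?_, ?_, fun b' hb' => absurd hb' (Nat.not_lt_zero b')⟩
        · rw [h5]
          exact Submodule.smul_mem _ _ (hXpow κ' hκ' _ (hF κ'))
        · have h6 : e - 1 + 1 = e := by omega
          have h7 : ct Q (ct (Q ^ (e - 1)) (F 0)) = 0 := by
            rw [← ct_mul, ← pow_succ', h6]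
            exact hF0
          rw [hpow, ct_comm Q (Z b ^ κ'), h7, map_zero])
    have h5 : (Module.finrank ℂ R : ℤ) = Module.finrank ℂ (E ⊓ B b : Submodule ℂ (Dl ν)) +
      Module.finrank ℂ (Ax (e - 1)) := by exact_mod_cast h1
    have h6 : (HI d D β I (Kd.ord e A ::ₘ ms) : ℤ) ≤ Module.finrank ℂ R := by exact_mod_cast h4
    omega
  -- the intersection of all `B b`
  have hcap : ∀ t ≤ c', (Module.finrank ℂ (CapU G B c') : ℤ) ≤
      Module.finrank ℂ (CapU G B c' ⊓ KX Q Z t (X I2 D') : Submodule ℂ (Dl ν)) +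
        ∑ u ∈ range t, ∑ s ∈ range D', (gz d β ms A' Az s I2 (u + 1) : ℤ) := by
    intro t ht
    induction t with
    | zero =>
      rw [sum_range_zero, add_zero]
      have h1 : CapU G B c' ⊓ KX Q Z 0 (X I2 D') = CapU G B c' :=
        inf_eq_left.2 fun x hx => (mem_CapU.1 hx).1
      rw [h1]
    | succ t ih =>
      rw [sum_range_succ]
      refine (ih (by omega)).trans ?_
      set Y := CapU G B c' ⊓ KX Q Z t (X I2 D') with hY
      have fY : Module.Finite ℂ Y :=
        have := hfinK t I2 D'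
        Submodule.finiteDimensional_of_le inf_le_right
      have h1 := rk Y (ct (Z t))
      have h2 : Y ⊓ LinearMap.ker (ct (Z t)) = CapU G B c' ⊓ KX Q Z (t + 1) (X I2 D') := by
        rw [KX_succ, hY, inf_assoc]
      rw [h2] at h1
      -- the image
      have h3 : Module.finrank ℂ (Y.map (ct (Z t))) ≤
          ∑ s ∈ range D', gz d β ms A' Az s I2 (t + 1) := by
        cases hD0 : D' with
        | zero => omega
        | succ D0 =>
          have h4 : Y.map (ct (Z t)) ≤ Btw (fun j => KX Q Z t (X I2 j)) (ct (Z t)) D0 := by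
            rintro x ⟨y, hy, rfl⟩
            have hy1 := mem_CapU.1 hy.1
            have hy2 := mem_KX.1 hy.2
            have hy3 := mem_Btw.1 (show y ∈ Btw (fun j => KX Q Z 0 (X I2 j)) (ct (Z t)) D' from
              hy1.2 t (by omega))
            refine mem_Btw.2 fun κ' hκ' => ?_
            have h5 := mem_KX.1 (hy3 (κ' + 1) (by omega))
            rw [pow_succ, Module.End.mul_apply] at h5
            have h6 : D' - (κ' + 1) = D0 - κ' := by omega
            rw [h6] at h5
            refine mem_KX.2 ⟨h5.1, h5.2.1, fun b hb => ?_⟩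
            rw [hpow, ct_comm, ct_comm (Z b) (Z t), hy2.2.2 b hb, map_zero, map_zero]
          have f4 : Module.Finite ℂ (Btw (fun j => KX Q Z t (X I2 j)) (ct (Z t)) D0) :=
            have := hfinK t I2 D0
            Submodule.finiteDimensional_of_le (Btw_le _ _ _)
          have h5 := Submodule.finrank_mono h4
          have h6 := Btw_sum (fun j => KX Q Z t (X I2 j)) (ct (Z t)) (fun j => hfinK t I2 j) D0
          refine h5.trans (h6.trans (le_of_eq ?_))
          rw [sum_range_succ']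
          have h7 : ∀ s ∈ range D0, Module.finrank ℂ (KX Q Z t (X I2 (s + 1)) ⊓
              LinearMap.ker (ct (Z t)) : Submodule ℂ (Dl ν)) =
                gz d β ms A' Az (s + 1) I2 (t + 1) := by
            intro s hs
            rw [mem_range] at hs
            rw [← KX_succ]
            exact hdim (t + 1) (by omega) (s + 1) (by omega)
          -- degree `0`
          have h8 : KX Q Z t (X I2 0) = KX Q Z (t + 1) (X I2 0) := by
            rw [KX_succ]
            refine (inf_eq_left.2 ?_).symm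
            intro g hg
            exact Lv_zero_ct _ (mem_XX.1 (mem_KX.1 hg).1).1
          have h9 : Module.finrank ℂ (KX Q Z t (X I2 0)) = gz d β ms A' Az 0 I2 (t + 1) := by
            rw [← hdim (t + 1) (by omega) 0 (by omega)]
            exact congrArg (fun U : Submodule ℂ (Dl ν) => Module.finrank ℂ U) h8
          rw [sum_congr rfl h7, h9, add_comm]
      have h4 : (Module.finrank ℂ Y : ℤ) = Module.finrank ℂ (Y.map (ct (Z t))) +
          Module.finrank ℂ (CapU G B c' ⊓ KX Q Z (t + 1) (X I2 D') : Submodule ℂ (Dl ν)) := by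
        exact_mod_cast h1
      have h5 : (Module.finrank ℂ (Y.map (ct (Z t))) : ℤ) ≤
          ∑ s ∈ range D', (gz d β ms A' Az s I2 (t + 1) : ℤ) := by exact_mod_cast h3
      linarith
  have hcap1 : (Module.finrank ℂ (CapU E B c') : ℤ) ≤ gz d β ms A' Az D' I2 c' +
      ∑ u ∈ range c', ∑ s ∈ range D', (gz d β ms A' Az s I2 (u + 1) : ℤ) := by
    have f1 : Module.Finite ℂ (CapU G B c') :=
      Submodule.finiteDimensional_of_le fun x hx => (mem_CapU.1 hx).1
    have h1 : CapU E B c' ≤ CapU G B c' := fun x hx =>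
      mem_CapU.2 ⟨hEG (mem_CapU.1 hx).1, (mem_CapU.1 hx).2⟩
    have h2 := Submodule.finrank_mono h1
    have h3 := hcap c' le_rfl
    have f2 := hfinK c' I2 D'
    have h4 : Module.finrank ℂ (CapU G B c' ⊓ KX Q Z c' (X I2 D') : Submodule ℂ (Dl ν)) ≤
        Module.finrank ℂ (KX Q Z c' (X I2 D')) := Submodule.finrank_mono inf_le_right
    rw [hdim c' le_rfl D' le_rfl] at h4
    have h5 : (Module.finrank ℂ (CapU E B c') : ℤ) ≤ Module.finrank ℂ (CapU G B c') := by
      exact_mod_cast h2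
    have h6 : (Module.finrank ℂ (CapU G B c' ⊓ KX Q Z c' (X I2 D') : Submodule ℂ (Dl ν)) : ℤ) ≤
      gz d β ms A' Az D' I2 c' := by exact_mod_cast h4
    linarith
  have hsum := sum_inf_le E B c'
  have hs1 : ∑ b ∈ range c', ((HI d D β I (Kd.ord e A ::ₘ ms) : ℤ) -
      Module.finrank ℂ (Ax (e - 1))) ≤
        ∑ b ∈ range c', (Module.finrank ℂ (E ⊓ B b : Submodule ℂ (Dl ν)) : ℤ) :=
    sum_le_sum fun b _ => by have := hlim b; linarith
  rw [sum_const, card_range, nsmul_eq_mul] at hs1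
  have h3 : (Module.finrank ℂ (Ax e) : ℤ) = Module.finrank ℂ E +
      Module.finrank ℂ (Ax (e - 1)) := by exact_mod_cast hdE
  have h4 : (Module.finrank ℂ (Ax e) : ℤ) = HI d D β I (Kd.ord e A' ::ₘ ms) := by
    exact_mod_cast hAe
  have h5 : (Module.finrank ℂ (Ax (e - 1)) : ℤ) = HI d D β I (Kd.ord (e - 1) A' ::ₘ ms) := by
    exact_mod_cast hAe1
  have h6 : (Module.finrank ℂ E : ℤ) = HI d D β I (Kd.ord e A' ::ₘ ms) -
      HI d D β I (Kd.ord (e - 1) A' ::ₘ ms) := by linarith
  rw [h6] at hsum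
  rw [h5] at hs1
  have h7 := hs1.trans (hsum.trans (add_le_add le_rfl hcap1))
  linarith

end

/-- The identity of the virtual dimensions. -/
theorem vd_tel {J : ℕ} {I : Finset ℕ} {c : ℕ → ℕ} {n : ℕ} (hI : I ⊆ range J)
    (hn : ∑ i ∈ range J, c i < n) (ms : Multiset Kd) (D : ℕ) :
    ∑ s ∈ range (D + 1), vd s I c (n - 1) ms = vd D I c n ms := by
  induction D with
  | zero => rw [sum_range_one]; exact vd_deg_zero _ _ _ _ _ _
  | succ D ih =>
    rw [sum_range_succ, ih]
    have h1 := vd_succ (c := c) (n := n - 1) D (I := I) ((sum_le_range hI _).trans (by omega)) ms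
    have h2 : n - 1 + 1 = n := by omega
    rw [h2] at h1
    linarith

theorem vd_av {J : ℕ} {I1 : Finset ℕ} {c : ℕ → ℕ} {n a : ℕ} (ha : a < J) (haI : a ∉ I1)
    (hI : I1 ⊆ range J) (hn : ∑ i ∈ range J, c i < n) (ms : Multiset Kd) (D : ℕ) (c' : ℕ)
    (hc' : c' ≤ c a) :
    vd (D + 1) (insert a I1) (cm c a c') (n - c' - 1) ms +
      ∑ t ∈ range c', ∑ s ∈ range (D + 1), vd s (insert a I1) (cm c a (t + 1)) (n - (t + 1) - 1) ms =
      vd (D + 1) (insert a I1) c n ms - vd D (insert a I1) c n ms -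
        c' * (vd D I1 c n ms - vd D (insert a I1) c n ms) := by
  have hca : c a ≤ ∑ i ∈ range J, c i :=
    single_le_sum (f := c) (fun _ _ => Nat.zero_le _) (mem_range.2 ha)
  have hI2 : insert a I1 ⊆ range J := insert_subset (mem_range.2 ha) hI
  induction c' with
  | zero =>
    rw [sum_range_zero, cm_zero, Nat.sub_zero]
    have h1 := vd_succ (c := c) (n := n - 1) D (I := insert a I1)
      ((sum_le_range hI2 _).trans (by omega)) ms
    have h2 : n - 1 + 1 = n := by omega
    rw [h2] at h1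
    push_cast
    linarith
  | succ c' ih =>
    have ih' := ih (by omega)
    rw [sum_range_succ]
    have hs := sum_cm (c := c) (t := c' + 1) ha hc'
    have h1 := vd_tel (c := cm c a (c' + 1)) (n := n - (c' + 1)) hI2 (by omega) ms D
    rw [h1]
    -- `X := vd (D + 1) (c', n - c' - 1)`
    have h2 := vd_upd (c := cm c a (c' + 1)) (n := n - (c' + 1) - 1) D (mem_insert_self a I1)
      ((sum_le_range hI2 _).trans (by omega)) ms
    have h3 : n - (c' + 1) - 1 + 1 = n - c' - 1 := by omega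
    rw [cm_succ (by omega), erase_insert haI, h3] at h2
    have h4 := vd_diff (c := c) (n := n - 1) ha haI hI (by omega) ms c' (by omega) D
    have h5 : n - 1 - c' = n - c' - 1 := by omega
    rw [h5] at h4
    -- the differences at `n - 1` and at `n`, and at `(c' + 1, n - c' - 1)`
    have h6 := vd_diff (c := c) (n := n) ha haI hI hn.le ms (c' + 1) hc' D
    have h7 : n - (c' + 1) = n - c' - 1 := by omega
    rw [h7] at h6 h2 ⊢
    have h8 : vd D I1 (cm c a (c' + 1)) (n - c' - 1) ms = vd D I1 (cm c a c') (n - c' - 1) ms := by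
      refine vd_congr_c fun i hi => ?_
      have hia : i ≠ a := fun h => haI (h ▸ hi)
      rw [cm_ne c _ hia, cm_ne c _ hia]
    rw [h8] at h6
    push_cast
    linarith

/-- **Random replacement (AV)** from upper bounds in lower degrees. -/
theorem avb' {d D e c' J a n : ℕ} (hD : D ≤ d) (he : 2 ≤ e) (heD : e ≤ D) {c : ℕ → ℕ}
    (hc : ∀ i < J, 1 ≤ c i) (hc' : c' < c a) (hn : ∑ i ∈ range J, c i < n) {I A : Finset ℕ}
    (hI : I ⊆ range J) (ha : a ∈ I) (haA : a ∉ A) (hA : A ⊆ range J) (ms : Multiset Kd)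
    (hm : ∀ k ∈ ms, k.Ok d J)
    (hX : ∀ t ≤ c', (1 ≤ t ∨ c' = 0) → ∀ j ≤ D + 1 - e,
      dl d (cm c a t) (n - t - 1) j (I ∩ insert a A) ms ≤ 0) :
    (c' : ℤ) * dl d c n D I (.ord e A ::ₘ ms) ≤
      ((c' : ℤ) - 1) * dl d c n D I (.ord e (insert a A) ::ₘ ms) +
        dl d c n D I (.ord (e - 1) (insert a A) ::ₘ ms) := by
  have haJ : a < J := mem_range.1 (hI ha)
  have hA' : insert a A ⊆ range J := insert_subset (mem_range.2 haJ) hA
  have hI12 : I ∩ insert a A = insert a (I ∩ A) := by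
    rw [inter_insert_of_mem ha]
  have haI1 : a ∉ I ∩ A := fun h => haA (Finset.mem_inter.1 h).2
  have hI1 : I ∩ A ⊆ range J := inter_subset_right.trans hA
  have hAz : A ⊆ (range J).erase a := fun x hx =>
    mem_erase.2 ⟨fun h => haA (h ▸ hx), hA hx⟩
  have hca : c a ≤ ∑ i ∈ range J, c i :=
    single_le_sum (f := c) (fun _ _ => Nat.zero_le _) (mem_range.2 haJ)
  have hct : ∀ t ≤ c', ∀ i < J, 1 ≤ cm c a t i := by
    intro t ht i hi
    by_cases hia : i = a
    · subst hia
      rw [cm_same]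
      omega
    · rw [cm_ne c t hia]
      exact hc i hi
  have hg : ∀ t ≤ c', (1 ≤ t ∨ c' = 0) → ∀ j ≤ D + 1 - e,
      (gz d (blk c n) ms (insert a A) ((range J).erase a) j (I ∩ insert a A) t : ℤ) ≤
        vd j (I ∩ insert a A) (cm c a t) (n - t - 1) ms := by
    intro t ht ht0 j hj
    have hs := sum_cm (c := c) (t := t) haJ (by omega)
    unfold gz
    have h1 : (Kd.ord 1 (insert a A) ::ₘ
        (Multiset.replicate t (Kd.ord 1 ((range J).erase a)) + ms)) =
          Multiset.replicate t (Kd.ord 1 ((range J).erase a)) + (Kd.ord 1 (insert a A) ::ₘ ms) := by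
      rw [Multiset.add_cons]
    rw [h1, HI_kills (by omega) (by omega) haJ (inter_subset_right.trans hA') _ (by
      intro k hk
      rcases Multiset.mem_cons.1 hk with rfl | hk
      · exact ⟨le_rfl, by omega, hA'⟩
      · exact hm k hk) t c n hc (by omega) hn.le]
    have h2 := HI_ord_le (show j ≤ d by omega) (blk (cm c a t) (n - t)) (I ∩ insert a A) 1 hA' ms
    rw [HI_kill_W (by omega) (hct t ht) (by omega) (inter_subset_right.trans hA') ms hm] at h2
    have h3 := hX t ht ht0 j hj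
    unfold dl at h3
    have h4 : (HI d j (blk (cm c a t) (n - t)) (I ∩ insert a A) (.ord 1 (insert a A) ::ₘ ms) : ℤ) ≤
      HI d j (blk (cm c a t) (n - t - 1)) (I ∩ insert a A) ms := by exact_mod_cast h2
    linarith
  have key := avs (c' := c') hD he heD (blk c n) (I := I) (i := a) hAz ms
  have h1 := hg c' le_rfl (by omega) (D + 1 - e) le_rfl
  have h2 : ∑ t ∈ range c', ∑ s ∈ range (D + 1 - e),
      (gz d (blk c n) ms (insert a A) ((range J).erase a) s (I ∩ insert a A) (t + 1) : ℤ) ≤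
        ∑ t ∈ range c', ∑ s ∈ range (D + 1 - e),
          vd s (I ∩ insert a A) (cm c a (t + 1)) (n - (t + 1) - 1) ms := by
    refine sum_le_sum fun t ht => sum_le_sum fun s hs => ?_
    rw [mem_range] at ht hs
    exact hg (t + 1) ht (Or.inl (by omega)) s (by omega)
  have h3 := vd_av (c' := c') haJ haI1 hI1 hn ms (D - e) hc'.le
  have h4 : D - e + 1 = D + 1 - e := by omega
  rw [h4, ← hI12] at h3
  unfold dl
  rw [vd_cons D I c n ms e A heD, vd_cons D I c n ms e (insert a A) heD,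
    vd_cons D I c n ms (e - 1) (insert a A) (by omega)]
  have h5 : D - (e - 1) = D + 1 - e := by omega
  rw [h5]
  nlinarith [key, h1, h2, h3]

end Pool.Agent.GD.AL
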