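import Pool.Agent.GD.AL.Kill

/-!
# General d: killing a vector, in terms of the sizes of the blocks
-/

set_option autoImplicit false
set_option linter.unusedSectionVars false

namespace Pool.Agent.GD

open Finset MvPolynomial Pool.Agent.H51.TB Pool.Agent.V7.ST

section

variable {ν ν' : Type} [Fintype ν] [DecidableEq ν] [Fintype ν'] [DecidableEq ν'] {d D J : ℕ}

/-- `HI_kill` for a partition `β'` with one variable of the block of `s₀` less. -/
theorem HI_kill_size (hD : D ≤ d) {β : ν → ℕ} {β' : ν' → ℕ} (s₀ : ν)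
    (h0 : Fintype.card ν' + 1 = Fintype.card ν)
    (h : ∀ i < J, (univ.filter fun s => β' s = i).card + (if β s₀ = i then 1 else 0) =
      (univ.filter fun s => β s = i).card)
    {I : Finset ℕ} (hI : I ⊆ range J) (ms : Multiset Kd) (hm : ∀ k ∈ ms, k.Ok d J) :
    HI d D β I (.ord 1 ((range J).erase (β s₀)) ::ₘ ms) = HI d D β' I ms := by
  have hblk : ∀ k ∈ ms, k.Blk J := by
    intro k hk
    have h1 := hm k hk
    rcases k with ⟨e, A⟩ | ⟨e, dl, i, As⟩
    · exact h1.2.2
    · exact ⟨h1.2.2.2.1, fun A hA => (h1.2.2.2.2 A hA).trans (erase_subset _ _)⟩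
  rw [HI_kill hD s₀ hI ms hm]
  refine HI_size hD ?_ ?_ hI ms hblk
  · have h1 : Fintype.card {s : ν // s ≠ s₀} = Fintype.card ν - 1 := by
      rw [Fintype.card_subtype_compl, Fintype.card_subtype_eq]
    omega
  · intro i hi
    have h1 := h i hi
    have h2 : (univ.filter fun s : {s : ν // s ≠ s₀} => β s.1 = i).card =
        ((univ.filter fun s => β s = i).erase s₀).card := by
      refine card_bij (fun s _ => s.1) ?_ ?_ ?_
      · intro s hs
        rw [mem_filter] at hs
        exact mem_erase.2 ⟨s.2, mem_filter.2 ⟨mem_univ _, hs.2⟩⟩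
      · intro s _ s' _ hss
        exact Subtype.ext hss
      · intro s hs
        rw [mem_erase, mem_filter] at hs
        exact ⟨⟨s, hs.1⟩, mem_filter.2 ⟨mem_univ _, hs.2.2⟩, rfl⟩
    rw [h2]
    by_cases h3 : β s₀ = i
    · rw [if_pos h3] at h1
      have hmem : s₀ ∈ univ.filter fun s => β s = i := mem_filter.2 ⟨mem_univ _, h3⟩
      rw [card_erase_of_mem hmem]
      omega
    · rw [if_neg h3] at h1
      have hnot : s₀ ∉ univ.filter fun s => β s = i := fun h4 => h3 (mem_filter.1 h4).2
      rw [erase_eq_of_notMem hnot]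
      omega

end

/-- A general point of exponent `1` in the block `a`. -/
theorem HI_kill_blk {d D J n a : ℕ} (hD : D ≤ d) {c : ℕ → ℕ} (ha : a < J) (hc : ∀ i < J, 1 ≤ c i)
    (hca : 2 ≤ c a) (hn : ∑ i ∈ range J, c i ≤ n) {I : Finset ℕ} (hI : I ⊆ range J)
    (ms : Multiset Kd) (hm : ∀ k ∈ ms, k.Ok d J) :
    HI d D (blk c n) I (.ord 1 ((range J).erase a) ::ₘ ms) =
      HI d D (blk (Function.update c a (c a - 1)) (n - 1)) I ms := by
  have hle : ∀ i < J, ∑ k ∈ range (i + 1), c k ≤ n := fun i hi =>
    (sum_le_sum_of_subset (range_subset_range.2 (by omega))).trans hn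
  have hcard : ∀ i < J, (univ.filter fun s : Fin n => blk c n s = i).card = c i := fun i hi =>
    card_blk (fun k hk => hc k (by omega)) (hle i hi)
  have hc' : ∀ i < J, 1 ≤ Function.update c a (c a - 1) i := by
    intro i hi
    by_cases h : i = a
    · subst h
      rw [Function.update_self]
      omega
    · rw [Function.update_of_ne h]
      exact hc i hi
  have hsum : ∑ i ∈ range J, Function.update c a (c a - 1) i + 1 = ∑ i ∈ range J, c i := by
    rw [← add_sum_erase _ _ (mem_range.2 ha), ← add_sum_erase (range J) c (mem_range.2 ha),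
      Function.update_self]
    have h1 : ∑ x ∈ (range J).erase a, Function.update c a (c a - 1) x =
        ∑ x ∈ (range J).erase a, c x :=
      sum_congr rfl fun x hx => Function.update_of_ne (ne_of_mem_erase hx) _ _
    rw [h1]
    omega
  have hn' : ∑ i ∈ range J, Function.update c a (c a - 1) i ≤ n - 1 := by omega
  have hle' : ∀ i < J, ∑ k ∈ range (i + 1), Function.update c a (c a - 1) k ≤ n - 1 := fun i hi =>
    (sum_le_sum_of_subset (range_subset_range.2 (by omega))).trans hn'
  have hcard' : ∀ i < J, (univ.filter fun s : Fin (n - 1) =>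
      blk (Function.update c a (c a - 1)) (n - 1) s = i).card =
      Function.update c a (c a - 1) i := fun i hi =>
    card_blk (fun k hk => hc' k (by omega)) (hle' i hi)
  obtain ⟨s₀, hs₀⟩ : ∃ s₀ : Fin n, blk c n s₀ = a := by
    have h1 : 0 < (univ.filter fun s : Fin n => blk c n s = a).card := by
      rw [hcard a ha]
      omega
    obtain ⟨s, hs⟩ := card_pos.1 h1
    exact ⟨s, (mem_filter.1 hs).2⟩
  have hn1 : 1 ≤ n := by
    have := s₀.2
    omega
  have h := HI_kill_size (β := blk c n) (β' := blk (Function.update c a (c a - 1)) (n - 1)) hD s₀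
    (by rw [Fintype.card_fin, Fintype.card_fin]; omega) (by
      intro i hi
      rw [hcard i hi, hcard' i hi, hs₀]
      by_cases h1 : a = i
      · subst h1
        rw [if_pos rfl, Function.update_self]
        omega
      · rw [if_neg h1, Function.update_of_ne (Ne.symm h1), add_zero]) hI ms hm
  rw [hs₀] at h
  exact h

/-- A general point of exponent `1` in `W`. -/
theorem HI_kill_W {d D J n : ℕ} (hD : D ≤ d) {c : ℕ → ℕ} (hc : ∀ i < J, 1 ≤ c i)
    (hn : ∑ i ∈ range J, c i < n) {I : Finset ℕ} (hI : I ⊆ range J)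
    (ms : Multiset Kd) (hm : ∀ k ∈ ms, k.Ok d J) :
    HI d D (blk c n) I (.ord 1 (range J) ::ₘ ms) = HI d D (blk c (n - 1)) I ms := by
  have hle : ∀ i < J, ∑ k ∈ range (i + 1), c k ≤ n - 1 := fun i hi =>
    (sum_le_sum_of_subset (range_subset_range.2 (show i + 1 ≤ J by omega))).trans
      (Nat.le_sub_one_of_lt hn)
  have hcard : ∀ i < J, (univ.filter fun s : Fin n => blk c n s = i).card = c i := fun i hi =>
    card_blk (fun k (hk : k ≤ i) => hc k (by omega)) ((hle i hi).trans (Nat.sub_le _ _))
  have hcard' : ∀ i < J, (univ.filter fun s : Fin (n - 1) => blk c (n - 1) s = i).card = c i :=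
    fun i hi => card_blk (fun k (hk : k ≤ i) => hc k (by omega)) (hle i hi)
  obtain ⟨s₀, hs₀⟩ : ∃ s₀ : Fin n, J ≤ blk c n s₀ := by
    by_contra hcon
    push Not at hcon
    have h1 : (univ : Finset (Fin n)).card = ∑ i ∈ range J, c i := by
      rw [card_eq_sum_card_fiberwise (f := fun s => blk c n s) (t := range J)
        fun s _ => mem_coe.2 (mem_range.2 (hcon s))]
      exact sum_congr rfl fun i hi => hcard i (mem_range.1 hi)
    rw [card_univ, Fintype.card_fin] at h1
    omega
  have h := HI_kill_size (β := blk c n) (β' := blk c (n - 1)) hD s₀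
    (by rw [Fintype.card_fin, Fintype.card_fin]; omega) (by
      intro i hi
      rw [hcard i hi, hcard' i hi, if_neg (by omega), add_zero]) hI ms hm
  rw [erase_eq_of_notMem fun h1 => absurd (mem_range.1 h1) (by omega)] at h
  exact h

end Pool.Agent.GD
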