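import Pool.Agent.GD.ST.Sat
import Pool.Agent.V7.ST.Ms

/-!
# Project GD, ALPHA, module Mono: specialisation of ordinary points, fewer objects

`HI_ord_le`: the points which vanish on more blocks are special, `HI (ord x A ::ms) ≤ HI (ord x A' ::ms)` for
`A ⊆ A'`; `HI_ex_le`: a smaller exponent gives more conditions; `HI_anti`: more objects give more conditions.
`vd_ord_congr`: the virtual dimension depends only on `A ∩ I`.
-/

set_option autoImplicit false
set_option linter.unusedSectionVars false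

namespace Pool.Agent.GD.AL

open Finset MvPolynomial Pool.Agent.H51.TB Pool.Agent.V7.ST
open Pool.Agent.V7 (msk)

section

variable {ν : Type} [Fintype ν] [DecidableEq ν] {d : ℕ}

theorem HI_cons_le (D : ℕ) (β : ν → ℕ) (I : Finset ℕ) (k : Kd) (ms : Multiset Kd) :
    HI d D β I (k ::ₘ ms) ≤ HI d D β I ms :=
  gM_cons_le _ _ _

theorem HI_add_le (D : ℕ) (β : ν → ℕ) (I : Finset ℕ) (ms ms' : Multiset Kd) :
    HI d D β I (ms + ms') ≤ HI d D β I ms := by
  induction ms' using Multiset.induction_on with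
  | empty => rw [Multiset.add_zero]
  | cons k s ih =>
    rw [Multiset.add_cons]
    exact (HI_cons_le D β I k _).trans ih

theorem HI_anti (D : ℕ) (β : ν → ℕ) (I : Finset ℕ) {ms ms' : Multiset Kd} (h : ms ≤ ms') :
    HI d D β I ms' ≤ HI d D β I ms := by
  obtain ⟨u, rfl⟩ := Multiset.le_iff_exists_add.1 h
  exact HI_add_le D β I ms u

/-- One object `k` at a position `q` is replaced by `k'` at a position `g q`. -/
theorem HI_repl {D : ℕ} (hD : D ≤ d) (β : ν → ℕ) (I : Finset ℕ) (k k' : Kd)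
    (g : (ν × Fin (d + 1) → ℂ) → ν × Fin (d + 1) → ℂ)
    (h : ∀ q Φ, Sat β I k (g q) Φ → Sat β I k' q Φ) (ms : Multiset Kd) :
    HI d D β I (k ::ₘ ms) ≤ HI d D β I (k' ::ₘ ms) := by
  obtain ⟨m, hm, -⟩ := exists_conf (LS d D β I) ms
  obtain ⟨p, hp⟩ := gd_attained (LS d D β I) (ad m k')
  have h1 : HI d D β I (k' ::ₘ ms) = (LS d D β I).gd (ad m k') := by
    unfold HI
    rw [gd_eq_gM, map_ad, hm]
  have h2 : HI d D β I (k ::ₘ ms) = (LS d D β I).gd (ad m k) := by
    unfold HI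
    rw [gd_eq_gM, map_ad, hm]
  rw [h1, h2, ← hp]
  let p' : Fin ms.toList.length ⊕ Unit → ν × Fin (d + 1) → ℂ :=
    Sum.elim (fun i => p (Sum.inl i)) fun u => g (p (Sum.inr u))
  refine (gd_le (LS d D β I) (ad m k) p').trans (Submodule.finrank_mono fun f hf => ?_)
  rw [mem_LS hD] at hf ⊢
  intro i
  rcases i with i | u
  · exact hf (Sum.inl i)
  · exact h _ _ (hf (Sum.inr u))

/-- A point which vanishes on more blocks is special. -/
theorem HI_ord_le {D : ℕ} (hD : D ≤ d) (β : ν → ℕ) (I : Finset ℕ) (e : ℕ) {A A' : Finset ℕ}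
    (h : A ⊆ A') (ms : Multiset Kd) :
    HI d D β I (.ord e A ::ₘ ms) ≤ HI d D β I (.ord e A' ::ₘ ms) := by
  refine HI_repl hD β I (.ord e A) (.ord e A') (fun q s => if β s.1 ∈ A' then 0 else q s)
    (fun q Φ hq => ⟨?_, trivial⟩) ms
  intro x hx y
  have h1 := hq.1 x hx y
  have h2 : pt β (.ord e A) x (fun s : ν × Fin (d + 1) => if β s.1 ∈ A' then 0 else q s) =
      pt β (.ord e A') x q := by
    funext s
    show msk β A (fun s => if β s ∈ A' then 0 else q (s, 0)) s = msk β A' (fun s => q (s, 0)) s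
    unfold msk
    by_cases hA : β s ∈ A
    · rw [if_pos hA, if_pos (h hA)]
    · rw [if_neg hA]
  rw [h2] at h1
  exact h1

/-- A smaller exponent gives more conditions. -/
theorem HI_ex_le {D : ℕ} (hD : D ≤ d) (β : ν → ℕ) (I : Finset ℕ) {e e' : ℕ} (h : e ≤ e')
    (A : Finset ℕ) (ms : Multiset Kd) :
    HI d D β I (.ord e A ::ₘ ms) ≤ HI d D β I (.ord e' A ::ₘ ms) := by
  refine HI_repl hD β I (.ord e A) (.ord e' A) id (fun q Φ hq => ⟨?_, trivial⟩) ms
  intro x hx y
  have h1 := hq.1 x hx (lf (pt β (.ord e A) x q) ^ (e' - e) * y)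
  show Φ (lf (pt β (.ord e' A) x q) ^ e' * y) = 0
  have h2 : lf (pt β (.ord e A) x q) ^ e * (lf (pt β (.ord e A) x q) ^ (e' - e) * y) =
      lf (pt β (.ord e A) x q) ^ e' * y := by
    rw [← mul_assoc, ← pow_add]
    congr 2
    omega
  change Φ (lf (pt β (.ord e A) x q) ^ e * (lf (pt β (.ord e A) x q) ^ (e' - e) * y)) = 0 at h1
  rw [h2] at h1
  exact h1

end

/-- The factor of a point depends only on `A ∩ I`. -/
theorem P_ord_congr {I' I : Finset ℕ} (h : I' ⊆ I) (e : ℕ) {A A' : Finset ℕ} (hA : A ∩ I = A' ∩ I) :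
    Kd.P I' (.ord e A) = Kd.P I' (.ord e A') := by
  have h1 : I' ⊆ A ↔ I' ⊆ A' := by
    constructor
    · intro h2 x hx
      have h3 : x ∈ A ∩ I := mem_inter.2 ⟨h2 hx, h hx⟩
      rw [hA] at h3
      exact (mem_inter.1 h3).1
    · intro h2 x hx
      have h3 : x ∈ A' ∩ I := mem_inter.2 ⟨h2 hx, h hx⟩
      rw [← hA] at h3
      exact (mem_inter.1 h3).1
  show (if I' ⊆ A then (1 - PowerSeries.X ^ e : PowerSeries ℤ) else 1) =
    if I' ⊆ A' then 1 - PowerSeries.X ^ e else 1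
  by_cases h2 : I' ⊆ A
  · rw [if_pos h2, if_pos (h1.1 h2)]
  · rw [if_neg h2, if_neg fun h3 => h2 (h1.2 h3)]

/-- The virtual dimension depends only on `A ∩ I`. -/
theorem vd_ord_congr (D : ℕ) (I : Finset ℕ) (c : ℕ → ℕ) (n e : ℕ) {A A' : Finset ℕ}
    (hA : A ∩ I = A' ∩ I) (ms : Multiset Kd) :
    vd D I c n (.ord e A ::ₘ ms) = vd D I c n (.ord e A' ::ₘ ms) := by
  unfold vd
  refine sum_congr rfl fun I' hI' => ?_
  rw [Multiset.map_cons, Multiset.map_cons, P_ord_congr (mem_powerset.1 hI') e hA]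

end Pool.Agent.GD.AL
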