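import Pool.Agent.GD.Top.Vd

/-!
# General d, ALPHA: calculus of the virtual dimensions

* `vd_congr`, `vd_succ` (Pascal in `n`), `vd_upd` (Pascal in `c a`), `vd_one`, `vd_one_upd` (points of
  exponent `1`), `vd_low` (`0` in the degrees `< #I`), `vd_prod` (product with points of the kinds
  `A ⊇ I`), `vd_clu` (clusters), `vd_empty_nonneg`, `vd_empty_le`.
-/

set_option autoImplicit false

namespace Pool.Agent.GD

open Finset

namespace AL

/-! ### Congruence -/

theorem vd_congr {D : ℕ} {I : Finset ℕ} {c c' : ℕ → ℕ} {n : ℕ} {ms ms' : Multiset Kd}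
    (hc : ∀ i ∈ I, c i = c' i)
    (hP : ∀ I' ⊆ I, (ms.map (Kd.P I')).prod = (ms'.map (Kd.P I')).prod) :
    vd D I c n ms = vd D I c' n ms' := by
  unfold vd
  refine sum_congr rfl fun I' hI' => ?_
  have h1 := mem_powerset.1 hI'
  rw [hP I' h1, sum_congr rfl fun i hi => hc i (h1 hi)]

theorem vd_congr_c {D : ℕ} {I : Finset ℕ} {c c' : ℕ → ℕ} {n : ℕ} {ms : Multiset Kd}
    (hc : ∀ i ∈ I, c i = c' i) : vd D I c n ms = vd D I c' n ms :=
  vd_congr hc fun _ _ => rfl

/-- The same factors object by object. -/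
theorem vd_congr_map {α : Type} {D : ℕ} {I : Finset ℕ} {c : ℕ → ℕ} {n : ℕ} (s : Multiset α)
    {f g : α → Kd} (h : ∀ a ∈ s, ∀ I' ⊆ I, (f a).P I' = (g a).P I') :
    vd D I c n (s.map f) = vd D I c n (s.map g) := by
  refine vd_congr (fun _ _ => rfl) fun I' hI' => ?_
  rw [Multiset.map_map, Multiset.map_map]
  congr 1
  exact Multiset.map_congr rfl fun a ha => h a ha I' hI'

theorem vd_nil (D : ℕ) (c : ℕ → ℕ) (n : ℕ) (ms : Multiset Kd) :
    vd D ∅ c n ms = PowerSeries.coeff D ((ms.map (Kd.P ∅)).prod * hs n) := by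
  unfold vd
  rw [powerset_empty, sum_singleton, card_empty, pow_zero, one_mul, sum_empty, Nat.sub_zero]

/-! ### Pascal -/

theorem coeff_hs_succ (F : PowerSeries ℤ) (D N : ℕ) :
    PowerSeries.coeff (D + 1) (F * hs (N + 1)) =
      PowerSeries.coeff (D + 1) (F * hs N) + PowerSeries.coeff D (F * hs (N + 1)) := by
  have h1 : hs (N + 1) = hs N + PowerSeries.X * hs (N + 1) := by
    linear_combination (hs_succ N)
  have h2 : F * hs (N + 1) = F * hs N + PowerSeries.X * (F * hs (N + 1)) := by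
    conv_lhs => rw [h1]
    ring
  conv_lhs => rw [h2]
  rw [map_add, PowerSeries.coeff_succ_X_mul]

private theorem sum_le_of_sub {I I' : Finset ℕ} {c : ℕ → ℕ} (h : I' ⊆ I) :
    ∑ i ∈ I', c i ≤ ∑ i ∈ I, c i := sum_le_sum_of_subset h

/-- Pascal in the number of the variables. -/
theorem vd_succ (D : ℕ) {I : Finset ℕ} {c : ℕ → ℕ} {n : ℕ} (hn : ∑ i ∈ I, c i ≤ n)
    (ms : Multiset Kd) :
    vd (D + 1) I c (n + 1) ms = vd (D + 1) I c n ms + vd D I c (n + 1) ms := by
  unfold vd
  rw [← sum_add_distrib]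
  refine sum_congr rfl fun I' hI' => ?_
  have h1 := sum_le_of_sub (c := c) (mem_powerset.1 hI')
  have h2 : n + 1 - ∑ i ∈ I', c i = (n - ∑ i ∈ I', c i) + 1 := by omega
  rw [h2, coeff_hs_succ, mul_add]

private theorem sum_upd_notMem {I' : Finset ℕ} {c : ℕ → ℕ} {a x : ℕ} (h : a ∉ I') :
    ∑ i ∈ I', Function.update c a x i = ∑ i ∈ I', c i :=
  sum_congr rfl fun i hi => Function.update_of_ne (fun h' => h (by rw [← h']; exact hi)) _ _

private theorem sum_upd_mem {I' : Finset ℕ} {c : ℕ → ℕ} {a : ℕ} (h : a ∈ I') :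
    ∑ i ∈ I', Function.update c a (c a + 1) i = ∑ i ∈ I', c i + 1 := by
  rw [← add_sum_erase I' _ h, ← add_sum_erase I' c h, sum_upd_notMem (notMem_erase a I'),
    Function.update_self]
  ring

/-- Splitting a sum over the subsets. -/
private theorem sum_pow_split {I : Finset ℕ} {a : ℕ} (ha : a ∈ I) (f : Finset ℕ → ℤ) :
    ∑ I' ∈ I.powerset, f I' = ∑ I' ∈ (I.erase a).powerset, f I' +
      ∑ I' ∈ I.powerset.filter (fun I' => a ∈ I'), f I' := by
  rw [← sum_filter_add_sum_filter_not I.powerset (fun I' => a ∈ I') f, add_comm]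
  congr 1
  refine sum_congr ?_ fun _ _ => rfl
  ext I'
  rw [mem_filter, mem_powerset, mem_powerset, subset_erase]

/-- Pascal in the size of a block. -/
theorem vd_upd (D : ℕ) {I : Finset ℕ} {c : ℕ → ℕ} {n a : ℕ} (ha : a ∈ I) (hn : ∑ i ∈ I, c i ≤ n)
    (ms : Multiset Kd) :
    vd (D + 1) I (Function.update c a (c a + 1)) (n + 1) ms =
      vd (D + 1) I c n ms + vd D (I.erase a) (Function.update c a (c a + 1)) (n + 1) ms := by
  unfold vd
  rw [sum_pow_split ha, sum_pow_split ha (fun I' => (-1) ^ I'.card *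
    PowerSeries.coeff (D + 1) ((ms.map (Kd.P I')).prod * hs (n - ∑ i ∈ I', c i)))]
  have h1 : ∀ I' ∈ (I.erase a).powerset,
      (-1 : ℤ) ^ I'.card * PowerSeries.coeff (D + 1) ((ms.map (Kd.P I')).prod *
        hs (n + 1 - ∑ i ∈ I', Function.update c a (c a + 1) i)) =
      (-1) ^ I'.card * PowerSeries.coeff (D + 1) ((ms.map (Kd.P I')).prod *
        hs (n - ∑ i ∈ I', c i)) +
      (-1) ^ I'.card * PowerSeries.coeff D ((ms.map (Kd.P I')).prod *
        hs (n + 1 - ∑ i ∈ I', Function.update c a (c a + 1) i)) := by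
    intro I' hI'
    have h2 := mem_powerset.1 hI'
    have h3 : a ∉ I' := fun h => notMem_erase a I (h2 h)
    have h4 := sum_le_of_sub (c := c) (h2.trans (erase_subset _ _))
    rw [sum_upd_notMem h3]
    have h5 : n + 1 - ∑ i ∈ I', c i = (n - ∑ i ∈ I', c i) + 1 := by omega
    rw [h5, coeff_hs_succ, mul_add]
  have h2 : ∀ I' ∈ I.powerset.filter (fun I' => a ∈ I'),
      (-1 : ℤ) ^ I'.card * PowerSeries.coeff (D + 1) ((ms.map (Kd.P I')).prod *
        hs (n + 1 - ∑ i ∈ I', Function.update c a (c a + 1) i)) =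
      (-1) ^ I'.card * PowerSeries.coeff (D + 1) ((ms.map (Kd.P I')).prod *
        hs (n - ∑ i ∈ I', c i)) := by
    intro I' hI'
    rw [sum_upd_mem (mem_filter.1 hI').2, Nat.add_sub_add_right]
  rw [sum_congr rfl h1, sum_congr rfl h2, sum_add_distrib]
  ring

/-! ### Points of exponent `1` -/

theorem vd_one (D : ℕ) {I A : Finset ℕ} {c : ℕ → ℕ} {n : ℕ} (hA : I ⊆ A)
    (hn : ∑ i ∈ I, c i ≤ n) (ms : Multiset Kd) :
    vd D I c (n + 1) (.ord 1 A ::ₘ ms) = vd D I c n ms := by
  unfold vd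
  refine sum_congr rfl fun I' hI' => ?_
  have h2 := mem_powerset.1 hI'
  have h4 := sum_le_of_sub (c := c) h2
  have h5 : n + 1 - ∑ i ∈ I', c i = (n - ∑ i ∈ I', c i) + 1 := by omega
  have h6 : Kd.P I' (.ord 1 A) = 1 - PowerSeries.X ^ 1 := if_pos (h2.trans hA)
  rw [Multiset.map_cons, Multiset.prod_cons, h6, pow_one, h5]
  congr 2
  linear_combination (ms.map (Kd.P I')).prod * hs_succ (n - ∑ i ∈ I', c i)

theorem vd_one_upd (D : ℕ) {I A : Finset ℕ} {c : ℕ → ℕ} {n a : ℕ} (ha : a ∈ I) (haA : a ∉ A)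
    (hA : I.erase a ⊆ A) (hn : ∑ i ∈ I, c i ≤ n) (ms : Multiset Kd) :
    vd D I (Function.update c a (c a + 1)) (n + 1) (.ord 1 A ::ₘ ms) = vd D I c n ms := by
  unfold vd
  refine sum_congr rfl fun I' hI' => ?_
  have h2 := mem_powerset.1 hI'
  have h4 := sum_le_of_sub (c := c) h2
  rw [Multiset.map_cons, Multiset.prod_cons]
  by_cases h3 : a ∈ I'
  · have h6 : Kd.P I' (.ord 1 A) = 1 := if_neg fun h => haA (h h3)
    rw [sum_upd_mem h3, Nat.add_sub_add_right, h6, one_mul]
  · have h7 : I' ⊆ A := (subset_erase.2 ⟨h2, h3⟩).trans hA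
    have h6 : Kd.P I' (.ord 1 A) = 1 - PowerSeries.X ^ 1 := if_pos h7
    have h5 : n + 1 - ∑ i ∈ I', c i = (n - ∑ i ∈ I', c i) + 1 := by omega
    rw [sum_upd_notMem h3, h6, pow_one, h5]
    congr 2
    linear_combination (ms.map (Kd.P I')).prod * hs_succ (n - ∑ i ∈ I', c i)

/-! ### Clusters -/

/-- A cluster: its members and the trace (`i ∈ I`). -/
theorem vd_clu (D : ℕ) {I : Finset ℕ} (c : ℕ → ℕ) (n e dl : ℕ) {i : ℕ} {As : List (Finset ℕ)}
    (hi : ∀ A ∈ As, i ∉ A) (hiI : i ∈ I) (ms : Multiset Kd) :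
    vd D I c n (Kd.cl e dl i As ::ₘ ms) =
      vd D I c n (((As.map fun A => Kd.ord e A : List Kd) : Multiset Kd) + ms) +
        if trx e dl As.length ≤ D then
          vd (D - trx e dl As.length) (I.erase i ∩ inter As) c n ms -
            vd (D - trx e dl As.length) (insert i (I.erase i ∩ inter As)) c n ms else 0 := by
  rw [vd_cl D I c n e dl i As hi ms, sub_eq_add_neg]
  congr 1
  by_cases h : trx e dl As.length ≤ D
  · rw [if_pos ⟨hiI, h⟩, if_pos h, neg_sub]
    have hnot : i ∉ I.erase i ∩ inter As := fun h => notMem_erase i I (mem_inter.1 h).1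
    have key : ∀ ms' : Multiset Kd, vd (D - trx e dl As.length) (I.erase i ∩ inter As) c n ms' -
        vd (D - trx e dl As.length) (insert i (I.erase i ∩ inter As)) c n ms' =
        - ∑ I' ∈ (insert i (I.erase i ∩ inter As)).powerset, (if i ∈ I' then (-1) ^ I'.card *
          PowerSeries.coeff (D - trx e dl As.length) ((ms'.map (Kd.P I')).prod *
            hs (n - ∑ i ∈ I', c i)) else 0) := by
      intro ms'
      rw [mob_in (fun I' => (ms'.map (Kd.P I')).prod * hs (n - ∑ i ∈ I', c i)) _ hnot,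
        ← vd_eq_mob, ← vd_eq_mob]
      ring
    rw [key, key]
    congr 1
    refine sum_congr rfl fun I' _ => ?_
    by_cases h3 : i ∈ I'
    · rw [if_pos h3, if_pos h3, Multiset.map_add, Multiset.prod_add]
      have h4 : ((((As.map fun A => Kd.ord e A : List Kd) : Multiset Kd)).map (Kd.P I')).prod = 1 := by
        rw [Multiset.map_coe, Multiset.prod_coe, List.map_map]
        apply List.prod_eq_one
        intro y hy
        obtain ⟨A, hA, rfl⟩ := List.mem_map.1 hy
        exact if_neg fun h5 => hi A hA (h5 h3)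
      rw [h4, one_mul]
    · rw [if_neg h3, if_neg h3]
  · rw [if_neg fun h' => h h'.2, if_neg h, neg_zero]

/-- A cluster off its level is the sum of its members. -/
theorem vd_clu_not (D : ℕ) {I : Finset ℕ} (c : ℕ → ℕ) (n e dl : ℕ) {i : ℕ} {As : List (Finset ℕ)}
    (hiI : i ∉ I) (ms : Multiset Kd) :
    vd D I c n (Kd.cl e dl i As ::ₘ ms) =
      vd D I c n (((As.map fun A => Kd.ord e A : List Kd) : Multiset Kd) + ms) := by
  refine vd_congr (fun _ _ => rfl) fun I' hI' => ?_
  have h3 : i ∉ I' := fun h => hiI (hI' h)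
  have h6 : Kd.P I' (Kd.cl e dl i As) =
      (As.map fun A => if I' ⊆ A then 1 - PowerSeries.X ^ e else (1 : PowerSeries ℤ)).prod := by
    show (if i ∈ I' then _ else _) = _
    rw [if_neg h3]
  rw [Multiset.map_cons, Multiset.prod_cons, h6, Multiset.map_add, Multiset.prod_add,
    Multiset.map_coe, Multiset.prod_coe, List.map_map]
  rfl

/-! ### Low degrees -/

/-- The objects without effect on the vanishing in the degrees `< #I`. -/
def _root_.Pool.Agent.GD.Kd.Low (I : Finset ℕ) : Kd → Prop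
  | .ord x A => (I \ A).card ≤ x
  | .cl e _ i As => 1 ≤ As.length ∧ ∀ A ∈ As, i ∉ A ∧ (I \ A).card ≤ e

theorem low_mono {I I' : Finset ℕ} (h : I' ⊆ I) {k : Kd} (hk : k.Low I) : k.Low I' := by
  have h1 : ∀ A : Finset ℕ, (I' \ A).card ≤ (I \ A).card := fun A =>
    card_le_card (sdiff_subset_sdiff h le_rfl)
  cases k with
  | ord x A => exact (h1 A).trans hk
  | cl e dl i As => exact ⟨hk.1, fun A hA => ⟨(hk.2 A hA).1, (h1 A).trans (hk.2 A hA).2⟩⟩

/-- The union of the supports of the members. -/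
theorem card_inter_le {I : Finset ℕ} {e i : ℕ} (hi : i ∈ I) (As : List (Finset ℕ))
    (h0 : As ≠ []) (hA : ∀ A ∈ As, i ∉ A ∧ (I \ A).card ≤ e) :
    (I.erase i \ inter As).card ≤ As.length * (e - 1) := by
  have h1 : ∀ Bs : List (Finset ℕ), (∀ A ∈ Bs, i ∉ A ∧ (I \ A).card ≤ e) →
      ((I.erase i).filter fun x => ∃ A ∈ Bs, x ∉ A).card ≤ Bs.length * (e - 1) := by
    intro Bs
    induction Bs with
    | nil =>
      intro _
      simp
    | cons B Bs ih =>
      intro hB
      have h2 : ((I.erase i).filter fun x => ∃ A ∈ B :: Bs, x ∉ A) ⊆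
          (I \ B).erase i ∪ ((I.erase i).filter fun x => ∃ A ∈ Bs, x ∉ A) := by
        intro x hx
        rw [mem_filter] at hx
        obtain ⟨hx1, A, hA1, hA2⟩ := hx
        rw [mem_union, mem_erase, mem_sdiff, mem_filter]
        rcases List.mem_cons.1 hA1 with h3 | h3
        · left
          rw [← h3]
          exact ⟨ne_of_mem_erase hx1, mem_of_mem_erase hx1, hA2⟩
        · right
          exact ⟨hx1, A, h3, hA2⟩
      refine (card_le_card h2).trans ((card_union_le _ _).trans ?_)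
      have h3 := ih fun A hA => hB A (List.mem_cons_of_mem _ hA)
      have h4 := hB B List.mem_cons_self
      have h5 : i ∈ I \ B := mem_sdiff.2 ⟨hi, h4.1⟩
      rw [card_erase_of_mem h5, List.length_cons, Nat.succ_mul]
      have h6 := h4.2
      omega
  have h2 : I.erase i \ inter As = (I.erase i).filter fun x => ∃ A ∈ As, x ∉ A := by
    ext x
    rw [mem_sdiff, mem_filter]
    refine and_congr_right fun _ => ?_
    constructor
    · intro h
      by_contra hcon
      push Not at hcon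
      refine h ?_
      unfold inter
      rw [mem_filter]
      refine ⟨?_, hcon⟩
      cases As with
      | nil => exact absurd rfl h0
      | cons B Bs => exact hcon B List.mem_cons_self
    · rintro ⟨A, hA, hx⟩ h
      unfold inter at h
      exact hx ((mem_filter.1 h).2 A hA)
  rw [h2]
  exact h1 As hA

private theorem low_zero {c : ℕ → ℕ} {n : ℕ} {I : Finset ℕ} (hn : ∑ i ∈ I, c i ≤ n) {D : ℕ}
    (hD : D < I.card) : vd D I c n 0 = 0 := by
  have h1 : hs (n - ∑ i ∈ I, c i) * ∏ i ∈ I, (hs (c i) - 1) =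
      PowerSeries.X ^ I.card * (hs (n - ∑ i ∈ I, c i) *
        ∏ i ∈ I, PowerSeries.mk fun k => (Nat.multichoose (c i) (k + 1) : ℤ)) := by
    rw [prod_congr rfl fun i _ => hs_sub_one (c i), prod_mul_distrib, prod_const]
    ring
  rw [vd_zero_ms D c n hn, h1, PowerSeries.coeff_X_pow_mul', if_neg (by omega)]

private theorem low_ord {c : ℕ → ℕ} {n : ℕ} {J : Finset ℕ} {ms : Multiset Kd}
    (h : ∀ I ⊆ J, ∀ D < I.card, vd D I c n ms = 0) {x : ℕ} {A : Finset ℕ} (hA : (J \ A).card ≤ x) :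
    ∀ I ⊆ J, ∀ D < I.card, vd D I c n (.ord x A ::ₘ ms) = 0 := by
  intro I hI D hD
  rw [vd_ord, h I hI D hD]
  split_ifs with h1
  · rw [h (I ∩ A) (inter_subset_left.trans hI) (D - x), sub_zero]
    have h2 := card_sdiff_add_card_inter I A
    have h3 : (I \ A).card ≤ (J \ A).card := card_le_card (sdiff_subset_sdiff hI le_rfl)
    omega
  · rfl

private theorem low_ords {c : ℕ → ℕ} {n : ℕ} {J : Finset ℕ} {ms : Multiset Kd}
    (h : ∀ I ⊆ J, ∀ D < I.card, vd D I c n ms = 0) {x : ℕ} (As : List (Finset ℕ))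
    (hA : ∀ A ∈ As, (J \ A).card ≤ x) :
    ∀ I ⊆ J, ∀ D < I.card,
      vd D I c n (((As.map fun A => Kd.ord x A : List Kd) : Multiset Kd) + ms) = 0 := by
  induction As with
  | nil =>
    rw [List.map_nil, Multiset.coe_nil, zero_add]
    exact h
  | cons A As ih =>
    rw [List.map_cons, ← Multiset.cons_coe, Multiset.cons_add]
    exact low_ord (ih fun B hB => hA B (List.mem_cons_of_mem _ hB)) (hA A List.mem_cons_self)

/-- The virtual dimension vanishes in the degrees `< #I`. -/
theorem vd_low {c : ℕ → ℕ} {n : ℕ} {J : Finset ℕ} (hn : ∑ i ∈ J, c i ≤ n) (ms : Multiset Kd)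
    (hm : ∀ k ∈ ms, k.Low J) : ∀ I ⊆ J, ∀ D < I.card, vd D I c n ms = 0 := by
  induction ms using Multiset.induction_on with
  | empty =>
    intro I hI D hD
    exact low_zero ((sum_le_of_sub hI).trans hn) hD
  | cons k ms ih =>
    have ih' := ih fun k' hk' => hm k' (Multiset.mem_cons_of_mem hk')
    have hk := hm k (Multiset.mem_cons_self k ms)
    cases k with
    | ord x A => exact low_ord ih' hk
    | cl e dl i As =>
      have h0 := low_ords ih' As fun A hA => (hk.2 A hA).2
      intro I hI D hD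
      by_cases hiI : i ∈ I
      · rw [vd_clu D c n e dl (fun A hA => (hk.2 A hA).1) hiI, h0 I hI D hD, zero_add]
        split_ifs with h1
        · have hne : As ≠ [] := by
            rintro rfl
            have := hk.1
            simp at this
          have h2 := card_inter_le hiI As hne fun A hA =>
            ⟨(hk.2 A hA).1, (card_le_card (sdiff_subset_sdiff hI le_rfl)).trans (hk.2 A hA).2⟩
          have h3 := card_sdiff_add_card_inter (I.erase i) (inter As)
          have h4 := card_erase_of_mem hiI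
          have h5 : 1 ≤ I.card := card_pos.2 ⟨i, hiI⟩
          have h6 : trx e dl As.length = As.length * (e - 1) + 1 + dl := rfl
          have hnot : i ∉ I.erase i ∩ inter As := fun h => notMem_erase i I (mem_inter.1 h).1
          have hsub : I.erase i ∩ inter As ⊆ J := inter_subset_left.trans ((erase_subset _ _).trans hI)
          rw [ih' _ hsub _ (by omega), ih' _ (insert_subset (hI hiI) hsub) _ (by
            rw [card_insert_of_notMem hnot]
            omega), sub_zero]
        · rfl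
      · rw [vd_clu_not D c n e dl hiI]
        exact h0 I hI D hD

/-! ### Products -/

/-- Product with points which vanish on all blocks of `I`. -/
theorem vd_prod (D : ℕ) {I : Finset ℕ} {c : ℕ → ℕ} {n₁ : ℕ} (n₂ : ℕ) (hn : ∑ i ∈ I, c i ≤ n₁)
    (S₀ SW : Multiset Kd) (hW : ∀ k ∈ SW, ∃ x A, k = .ord x A ∧ I ⊆ A) :
    vd D I c (n₁ + n₂) (S₀ + SW) =
      ∑ s ∈ range (D + 1), vd s I c n₁ S₀ * vd (D - s) ∅ c n₂ SW := by
  simp only [vd_nil]
  unfold vd
  simp only [sum_mul]
  rw [sum_comm]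
  refine sum_congr rfl fun I' hI' => ?_
  have h2 := mem_powerset.1 hI'
  have h4 := sum_le_of_sub (c := c) h2
  have h5 : n₁ + n₂ - ∑ i ∈ I', c i = (n₁ - ∑ i ∈ I', c i) + n₂ := by omega
  have h6 : (SW.map (Kd.P I')).prod = (SW.map (Kd.P ∅)).prod := by
    congr 1
    refine Multiset.map_congr rfl fun k hk => ?_
    obtain ⟨x, A, rfl, hA⟩ := hW k hk
    have e1 : Kd.P I' (.ord x A) = 1 - PowerSeries.X ^ x := if_pos (h2.trans hA)
    have e2 : Kd.P ∅ (.ord x A) = 1 - PowerSeries.X ^ x := by simp [Kd.P]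
    rw [e1, e2]
  rw [Multiset.map_add, Multiset.prod_add, h5, hs_add, h6]
  have h7 : (S₀.map (Kd.P I')).prod * (SW.map (Kd.P ∅)).prod *
      (hs (n₁ - ∑ i ∈ I', c i) * hs n₂) =
      ((S₀.map (Kd.P I')).prod * hs (n₁ - ∑ i ∈ I', c i)) * ((SW.map (Kd.P ∅)).prod * hs n₂) := by
    ring
  rw [h7, PowerSeries.coeff_mul, Finset.Nat.sum_antidiagonal_eq_sum_range_succ_mk, mul_sum]
  refine sum_congr rfl fun s _ => ?_
  ring

/-! ### The empty configuration -/

/-- Nonnegative coefficients. -/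
def Nn (F : PowerSeries ℤ) : Prop := ∀ k, 0 ≤ PowerSeries.coeff k F

theorem Nn.mul {F G : PowerSeries ℤ} (hF : Nn F) (hG : Nn G) : Nn (F * G) := fun k => by
  rw [PowerSeries.coeff_mul]
  exact sum_nonneg fun x _ => mul_nonneg (hF _) (hG _)

theorem Nn.prod {I : Finset ℕ} {F : ℕ → PowerSeries ℤ} (hF : ∀ i ∈ I, Nn (F i)) :
    Nn (∏ i ∈ I, F i) := by
  induction I using Finset.induction_on with
  | empty =>
    rw [prod_empty]
    intro k
    rw [PowerSeries.coeff_one]
    split_ifs <;> norm_num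
  | insert i I hi ih =>
    rw [prod_insert hi]
    exact (hF i (mem_insert_self i I)).mul (ih fun j hj => hF j (mem_insert_of_mem hj))

theorem Nn.sub_mul {F F' G G' : PowerSeries ℤ} (hF : Nn (F' - F)) (hG0 : Nn G) (hF0 : Nn F')
    (hG : Nn (G' - G)) : Nn (F' * G' - F * G) := by
  have h : F' * G' - F * G = (F' - F) * G + F' * (G' - G) := by ring
  rw [h]
  intro k
  rw [map_add]
  exact add_nonneg (hF.mul hG0 k) (hF0.mul hG k)

theorem Nn.hs (N : ℕ) : Nn (hs N) := fun k => by
  unfold Pool.Agent.GD.hs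
  rw [PowerSeries.coeff_mk]
  exact Nat.cast_nonneg _

theorem Nn.hs_sub (N : ℕ) : Nn (GD.hs N - 1) := fun k => by
  rcases k with _ | k
  · unfold Pool.Agent.GD.hs
    simp
  · rw [map_sub, PowerSeries.coeff_one, if_neg (Nat.succ_ne_zero k), sub_zero]
    exact Nn.hs N _

theorem multichoose_succ_le (N k : ℕ) : N.multichoose (k + 1) ≤ N * N.multichoose k := by
  induction N generalizing k with
  | zero => simp
  | succ N ih =>
    rw [Nat.multichoose_succ_succ]
    have h1 := ih k
    have h2 : N.multichoose k ≤ (N + 1).multichoose k := by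
      cases k with
      | zero => simp
      | succ k =>
        rw [Nat.multichoose_succ_succ]
        exact Nat.le_add_right _ _
    calc N.multichoose (k + 1) + (N + 1).multichoose k
        ≤ N * (N + 1).multichoose k + (N + 1).multichoose k :=
          Nat.add_le_add_right (h1.trans (Nat.mul_le_mul_left _ h2)) _
      _ = (N + 1) * (N + 1).multichoose k := by ring

theorem multichoose_le_pow (N k : ℕ) : N.multichoose k ≤ N ^ k := by
  induction k with
  | zero => simp
  | succ k ih =>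
    refine (multichoose_succ_le N k).trans ?_
    rw [pow_succ, mul_comm]
    exact Nat.mul_le_mul_right _ ih

theorem Nn.hs_le (N : ℕ) :
    Nn (PowerSeries.C ((N : ℕ) : ℤ) * (PowerSeries.X * GD.hs N) - (GD.hs N - 1)) := fun k => by
  rcases k with _ | k
  · unfold Pool.Agent.GD.hs
    simp
  · rw [map_sub, map_sub, PowerSeries.coeff_C_mul, PowerSeries.coeff_succ_X_mul,
      PowerSeries.coeff_one, if_neg (Nat.succ_ne_zero k), sub_zero]
    unfold Pool.Agent.GD.hs
    rw [PowerSeries.coeff_mk, PowerSeries.coeff_mk, sub_nonneg]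
    exact_mod_cast multichoose_succ_le N k

theorem vd_empty_nonneg (D : ℕ) {I : Finset ℕ} {c : ℕ → ℕ} {n : ℕ} (hn : ∑ i ∈ I, c i ≤ n) :
    0 ≤ vd D I c n 0 := by
  rw [vd_zero_ms D c n hn]
  exact (Nn.hs _).mul (Nn.prod fun i _ => Nn.hs_sub (c i)) D

/-- The number of the monomials of degree `D` which meet the blocks of `I`. -/
theorem vd_empty_le (D : ℕ) {I : Finset ℕ} {c : ℕ → ℕ} {n : ℕ} (hn : ∑ i ∈ I, c i ≤ n) :
    vd D I c n 0 ≤ (∏ i ∈ I, (c i : ℤ)) * (n : ℤ) ^ (D - I.card) := by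
  have h1 : ∀ J : Finset ℕ, Nn (∏ i ∈ J, (PowerSeries.C ((c i : ℕ) : ℤ) *
      (PowerSeries.X * GD.hs (c i))) - ∏ i ∈ J, (GD.hs (c i) - 1)) := by
    intro J
    induction J using Finset.induction_on with
    | empty =>
      intro k
      simp
    | insert i J hi ih =>
      rw [prod_insert hi, prod_insert hi]
      refine Nn.sub_mul (Nn.hs_le (c i)) (Nn.prod fun j _ => Nn.hs_sub (c j)) ?_ ih
      intro k
      rw [PowerSeries.coeff_C_mul]
      refine mul_nonneg (Nat.cast_nonneg _) ?_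
      rcases k with _ | k
      · simp
      · rw [PowerSeries.coeff_succ_X_mul]
        exact Nn.hs _ _
  have h2 := (Nn.hs (n - ∑ i ∈ I, c i)).mul (h1 I) D
  rw [mul_sub, map_sub, sub_nonneg, ← vd_zero_ms D c n hn] at h2
  refine h2.trans ?_
  have h3 : hs (n - ∑ i ∈ I, c i) * ∏ i ∈ I, (PowerSeries.C ((c i : ℕ) : ℤ) *
      (PowerSeries.X * GD.hs (c i))) =
      PowerSeries.C (∏ i ∈ I, (c i : ℤ)) * (PowerSeries.X ^ I.card * hs n) := by
    rw [prod_mul_distrib, prod_mul_distrib, prod_const, ← hs_sum, map_prod]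
    have h4 : hs n = hs (n - ∑ i ∈ I, c i) * hs (∑ i ∈ I, c i) := by
      rw [← hs_add, Nat.sub_add_cancel hn]
    rw [h4]
    ring
  rw [h3, PowerSeries.coeff_C_mul, PowerSeries.coeff_X_pow_mul']
  refine mul_le_mul_of_nonneg_left ?_ (prod_nonneg fun i _ => Nat.cast_nonneg _)
  split_ifs with h5
  · unfold Pool.Agent.GD.hs
    rw [PowerSeries.coeff_mk]
    exact_mod_cast multichoose_le_pow n (D - I.card)
  · positivity

end AL

end Pool.Agent.GD
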