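import Pool.Agent.GD.AL.KIt
import Pool.Agent.GD.AL.KillB
import Pool.Agent.GD.AL.Mono
import Pool.Agent.GD.AL.VdP
import Pool.Agent.GD.ST.Ctr
import Pool.Agent.GD.N.Vd

/-!
# General d, ALPHA: the kind inequality from exactness (random replacement)

`Xct d c n D I ms`: the dimension is the virtual one.  `dl d c n D I ms`: the difference.
`avb`: `c' dl (ord e A) ≤ (c' - 1) dl (ord e (insert a A)) + dl (ord (e - 1) (insert a A))` if the lower pairs
are exact for the sizes `c a - t` of the block `a`, `t ≤ c'`, with `n - t` and `n - t - 1` variables.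
-/

set_option autoImplicit false
set_option linter.unusedSectionVars false

namespace Pool.Agent.GD.AL

open Finset MvPolynomial Pool.Agent.H51.TB Pool.Agent.V7.ST

/-- Exactness. -/
def Xct (d : ℕ) (c : ℕ → ℕ) (n D : ℕ) (I : Finset ℕ) (ms : Multiset Kd) : Prop :=
  (HI d D (blk c n) I ms : ℤ) = vd D I c n ms

/-- The difference of the dimension and the virtual dimension. -/
noncomputable def dl (d : ℕ) (c : ℕ → ℕ) (n D : ℕ) (I : Finset ℕ) (ms : Multiset Kd) : ℤ :=
  (HI d D (blk c n) I ms : ℤ) - vd D I c n ms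

/-- The size of the block `a` less `t`. -/
def cm (c : ℕ → ℕ) (a t : ℕ) : ℕ → ℕ := Function.update c a (c a - t)

theorem cm_zero (c : ℕ → ℕ) (a : ℕ) : cm c a 0 = c := by
  unfold cm
  rw [Nat.sub_zero, Function.update_eq_self]

theorem cm_same (c : ℕ → ℕ) (a t : ℕ) : cm c a t a = c a - t := Function.update_self _ _ _

theorem cm_ne (c : ℕ → ℕ) {a i : ℕ} (t : ℕ) (h : i ≠ a) : cm c a t i = c i :=
  Function.update_of_ne h _ _

theorem cm_succ {c : ℕ → ℕ} {a t : ℕ} (h : t < c a) :
    Function.update (cm c a (t + 1)) a (cm c a (t + 1) a + 1) = cm c a t := by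
  funext i
  by_cases hi : i = a
  · subst hi
    rw [Function.update_self, cm_same, cm_same]
    omega
  · rw [Function.update_of_ne hi, cm_ne c _ hi, cm_ne c _ hi]

theorem cm_pred (c : ℕ → ℕ) (a t : ℕ) :
    Function.update (cm c a t) a (cm c a t a - 1) = cm c a (t + 1) := by
  funext i
  by_cases hi : i = a
  · subst hi
    rw [Function.update_self, cm_same, cm_same]
    omega
  · rw [Function.update_of_ne hi, cm_ne c _ hi, cm_ne c _ hi]

theorem sum_cm {J : ℕ} {c : ℕ → ℕ} {a t : ℕ} (ha : a < J) (h : t ≤ c a) :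
    ∑ i ∈ range J, cm c a t i + t = ∑ i ∈ range J, c i := by
  have h1 := (add_sum_erase (range J) (cm c a t) (mem_range.2 ha)).symm
  have h2 := (add_sum_erase (range J) c (mem_range.2 ha)).symm
  have h3 : ∑ i ∈ (range J).erase a, cm c a t i = ∑ i ∈ (range J).erase a, c i :=
    sum_congr rfl fun i hi => cm_ne c t (ne_of_mem_erase hi)
  rw [h1, h2, h3, cm_same]
  omega

theorem sum_le_range {I : Finset ℕ} {J : ℕ} (hI : I ⊆ range J) (c : ℕ → ℕ) :
    ∑ i ∈ I, c i ≤ ∑ i ∈ range J, c i := sum_le_sum_of_subset hI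

/-- Killing `t` vectors. -/
theorem HI_kills {d D J : ℕ} (hd : 1 ≤ d) (hD : D ≤ d) {a : ℕ} (ha : a < J) {I : Finset ℕ}
    (hI : I ⊆ range J) (ms : Multiset Kd) (hm : ∀ k ∈ ms, k.Ok d J) (t : ℕ) (c : ℕ → ℕ) (n : ℕ)
    (hc : ∀ i < J, 1 ≤ c i) (ht : t < c a) (hn : ∑ i ∈ range J, c i ≤ n) :
    HI d D (blk c n) I (Multiset.replicate t (.ord 1 ((range J).erase a)) + ms) =
      HI d D (blk (cm c a t) (n - t)) I ms := by
  induction t generalizing c n with
  | zero => rw [Multiset.replicate_zero, zero_add, cm_zero, Nat.sub_zero]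
  | succ t ih =>
    have hca : c a ≤ ∑ i ∈ range J, c i :=
      single_le_sum (f := c) (fun _ _ => Nat.zero_le _) (mem_range.2 ha)
    rw [Multiset.replicate_succ, Multiset.cons_add, HI_kill_blk hD ha hc (by omega) hn hI _ (by
      intro k hk
      rcases Multiset.mem_add.1 hk with hk | hk
      · rw [Multiset.eq_of_mem_replicate hk]
        exact ⟨le_rfl, hd, erase_subset _ _⟩
      · exact hm k hk)]
    have h0 : Function.update c a (c a - 1) = cm c a 1 := rfl
    have h1 := sum_cm (c := c) (t := 1) ha (by omega)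
    rw [h0, ih (cm c a 1) (n - 1) (by
      intro i hi
      by_cases hia : i = a
      · subst hia
        rw [cm_same]
        omega
      · rw [cm_ne c 1 hia]
        exact hc i hi) (by rw [cm_same]; omega) (by omega)]
    have h2 : cm (cm c a 1) a t = cm c a (t + 1) := by
      funext i
      by_cases hia : i = a
      · subst hia
        rw [cm_same, cm_same, cm_same]
        omega
      · rw [cm_ne _ t hia, cm_ne c 1 hia, cm_ne c _ hia]
    rw [h2, Nat.sub_sub, add_comm 1 t]

theorem vd_deg_zero (I : Finset ℕ) (c c' : ℕ → ℕ) (n n' : ℕ) (ms : Multiset Kd) :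
    vd 0 I c n ms = vd 0 I c' n' ms := by
  unfold vd
  refine sum_congr rfl fun I' _ => ?_
  congr 1
  have h : ∀ N, PowerSeries.coeff 0 (hs N) = 1 := by
    intro N
    unfold hs
    rw [PowerSeries.coeff_mk, Nat.multichoose_zero_right]
    rfl
  simp only [PowerSeries.coeff_zero_eq_constantCoeff] at h ⊢
  rw [map_mul, map_mul, h, h]

/-- The difference of the levels `I` and `insert a I` depends only on `n - c a`. -/
theorem vd_diff {J : ℕ} {I : Finset ℕ} {c : ℕ → ℕ} {n a : ℕ} (ha : a < J) (haI : a ∉ I)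
    (hI : I ⊆ range J) (hn : ∑ i ∈ range J, c i ≤ n) (ms : Multiset Kd) (t : ℕ) (ht : t ≤ c a)
    (j : ℕ) : vd j I (cm c a t) (n - t) ms - vd j (insert a I) (cm c a t) (n - t) ms =
      vd j I c n ms - vd j (insert a I) c n ms := by
  induction t with
  | zero => rw [cm_zero, Nat.sub_zero]
  | succ t ih =>
    rw [← ih (by omega)]
    have hca : c a ≤ ∑ i ∈ range J, c i :=
      single_le_sum (f := c) (fun _ _ => Nat.zero_le _) (mem_range.2 ha)
    have hs := sum_cm (c := c) (t := t + 1) ha ht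
    have hn' : n - t = n - (t + 1) + 1 := by omega
    have hI' : insert a I ⊆ range J := insert_subset (mem_range.2 ha) hI
    cases j with
    | zero =>
      rw [vd_deg_zero I (cm c a (t + 1)) (cm c a t) (n - (t + 1)) (n - t),
        vd_deg_zero (insert a I) (cm c a (t + 1)) (cm c a t) (n - (t + 1)) (n - t)]
    | succ j =>
      have h1 := vd_upd (c := cm c a (t + 1)) (n := n - (t + 1)) j (mem_insert_self a I)
        ((sum_le_range hI' _).trans (by omega)) ms
      rw [cm_succ (by omega), erase_insert haI, ← hn'] at h1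
      have h2 := vd_succ (c := cm c a (t + 1)) (n := n - (t + 1)) j (I := I)
        ((sum_le_range hI _).trans (by omega)) ms
      rw [← hn'] at h2
      have h3 : ∀ D, vd D I (cm c a (t + 1)) (n - t) ms = vd D I (cm c a t) (n - t) ms := by
        intro D
        refine vd_congr_c fun i hi => ?_
        have hia : i ≠ a := fun h => haI (h ▸ hi)
        rw [cm_ne c _ hia, cm_ne c _ hia]
      rw [h3, h3] at h2
      rw [h1, h2]
      ring

/-- The part killed by one more point of exponent `1` which vanishes on the blocks of the level. -/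
theorem HI_one {d J : ℕ} {j : ℕ} (hj : j ≤ d) {c : ℕ → ℕ} {n : ℕ} (hc : ∀ i < J, 1 ≤ c i)
    (hn : ∑ i ∈ range J, c i < n) {I A : Finset ℕ} (hIA : I ⊆ A) (hA : A ⊆ range J)
    (ms : Multiset Kd) (hm : ∀ k ∈ ms, k.Ok d J) (h0 : ∀ j' ≤ j, Xct d c n j' I ms)
    (h1 : Xct d c (n - 1) j I ms) :
    (HI d j (blk c n) I (.ord 1 A ::ₘ ms) : ℤ) = vd j I c (n - 1) ms := by
  have hI : I ⊆ range J := hIA.trans hA
  apply le_antisymm
  · rw [← h1]
    have h2 := HI_ord_le hj (blk c n) I 1 hA ms
    rw [HI_kill_W hj hc hn hI ms hm] at h2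
    exact_mod_cast h2
  · cases j with
    | zero =>
      rw [HI_zero_ord]
      have h2 : (HI d 0 (blk c n) I ms : ℤ) = vd 0 I c n ms := h0 0 le_rfl
      rw [h2, vd_deg_zero I c c n (n - 1)]
    | succ j =>
      have h2 := HI_ctr (e := 1) hj (by omega) (blk c n) I A ms
      rw [inter_eq_left.2 hIA, Nat.add_sub_cancel] at h2
      have h3 : (HI d (j + 1) (blk c n) I ms : ℤ) = vd (j + 1) I c n ms := h0 (j + 1) le_rfl
      have h4 : (HI d j (blk c n) I ms : ℤ) = vd j I c n ms := h0 j (Nat.le_succ j)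
      have h5 := vd_succ (c := c) (n := n - 1) j (I := I)
        ((sum_le_range hI _).trans (by omega)) ms
      have h6 : n - 1 + 1 = n := by omega
      rw [h6] at h5
      have h7 : (HI d (j + 1) (blk c n) I ms : ℤ) ≤
          HI d (j + 1) (blk c n) I (.ord 1 A ::ₘ ms) + HI d j (blk c n) I ms := by
        exact_mod_cast h2
      linarith

/-- The missing conditions are the increase of the difference. -/
theorem kk_eq_dl {d D e : ℕ} (c : ℕ → ℕ) (n : ℕ) (I A : Finset ℕ) (ms : Multiset Kd) (he : e ≤ D)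
    (h : Xct d c n (D - e) (I ∩ A) ms) :
    kk d D (blk c n) I ms e A = dl d c n D I (.ord e A ::ₘ ms) - dl d c n D I ms := by
  unfold kk dl
  have h1 : (HI d (D - e) (blk c n) (I ∩ A) ms : ℤ) = vd (D - e) (I ∩ A) c n ms := h
  rw [h1, vd_cons D I c n ms e A he]
  ring

/-- **Random replacement (AV)**, `a ∈ I`. -/
theorem avb {d D e c' J a n : ℕ} (hD : D ≤ d) (he : 2 ≤ e) (heD : e ≤ D) {c : ℕ → ℕ}
    (hc : ∀ i < J, 1 ≤ c i) (hc' : c' < c a) (hn : ∑ i ∈ range J, c i < n) {I A : Finset ℕ}
    (hI : I ⊆ range J) (ha : a ∈ I) (haA : a ∉ A) (hA : A ⊆ range J) (ms : Multiset Kd)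
    (hm : ∀ k ∈ ms, k.Ok d J)
    (hX : ∀ t ≤ c', ∀ j ≤ D + 1 - e, ∀ I', I' = I ∩ A ∨ I' = I ∩ insert a A →
      Xct d (cm c a t) (n - t) j I' ms ∧ Xct d (cm c a t) (n - t - 1) j I' ms) :
    (c' : ℤ) * (dl d c n D I (.ord e A ::ₘ ms) - dl d c n D I (.ord e (insert a A) ::ₘ ms)) ≤
      dl d c n D I (.ord (e - 1) (insert a A) ::ₘ ms) -
        dl d c n D I (.ord e (insert a A) ::ₘ ms) := by
  have haJ : a < J := mem_range.1 (hI ha)
  have hA' : insert a A ⊆ range J := insert_subset (mem_range.2 haJ) hA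
  have hI1 : I ∩ A ⊆ range J := inter_subset_right.trans hA
  have hI2 : I ∩ insert a A ⊆ range J := inter_subset_right.trans hA'
  have hI12 : I ∩ insert a A = insert a (I ∩ A) := by
    rw [inter_insert_of_mem ha]
  have haI1 : a ∉ I ∩ A := fun h => haA (Finset.mem_inter.1 h).2
  have hAz : A ⊆ (range J).erase a := fun x hx =>
    mem_erase.2 ⟨fun h => haA (h ▸ hx), hA hx⟩
  have hca : c a ≤ ∑ i ∈ range J, c i :=
    single_le_sum (f := c) (fun _ _ => Nat.zero_le _) (mem_range.2 haJ)
  have hct : ∀ t ≤ c', ∀ i < J, 1 ≤ cm c a t i := by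
    intro t ht i hi
    by_cases hia : i = a
    · subst hia
      rw [cm_same]
      omega
    · rw [cm_ne c t hia]
      exact hc i hi
  -- the numbers
  have hg : ∀ t ≤ c', ∀ j ≤ D + 1 - e, ∀ I', I' = I ∩ A ∨ I' = I ∩ insert a A →
      (gz d (blk c n) ms (insert a A) ((range J).erase a) j I' t : ℤ) =
        vd j I' (cm c a t) (n - t - 1) ms := by
    intro t ht j hj I' hI'
    have hI'A : I' ⊆ insert a A := by
      rcases hI' with rfl | rfl
      · exact inter_subset_right.trans (subset_insert _ _)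
      · exact inter_subset_right
    have hs := sum_cm (c := c) (t := t) haJ (by omega)
    unfold gz
    have h1 : (Kd.ord 1 (insert a A) ::ₘ
        (Multiset.replicate t (Kd.ord 1 ((range J).erase a)) + ms)) =
          Multiset.replicate t (Kd.ord 1 ((range J).erase a)) + (Kd.ord 1 (insert a A) ::ₘ ms) := by
      rw [Multiset.add_cons]
    rw [h1, HI_kills (by omega) (by omega) haJ (hI'A.trans hA') _ (by
      intro k hk
      rcases Multiset.mem_cons.1 hk with rfl | hk
      · exact ⟨le_rfl, by omega, hA'⟩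
      · exact hm k hk) t c n hc (by omega) hn.le]
    exact HI_one (by omega) (hct t ht) (by omega) hI'A hA' ms hm
      (fun j' hj' => (hX t ht j' (by omega) I' hI').1) (hX t ht j hj I' hI').2
  have key := KI (c' := c') hD he heD (blk c n) ha haA hAz (notMem_erase a _) ms (by
    intro j hj I' hI'
    have h1 := hg 0 (Nat.zero_le _) (j + 1) (by omega) I' hI'
    rw [cm_zero, Nat.sub_zero] at h1
    have h2 := (hX 0 (Nat.zero_le _) j (by omega) I' hI').1
    have h3 := (hX 0 (Nat.zero_le _) (j + 1) (by omega) I' hI').1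
    unfold Xct at h2 h3
    rw [cm_zero, Nat.sub_zero] at h2 h3
    have hI'J : I' ⊆ range J := by
      rcases hI' with rfl | rfl
      · exact hI1
      · exact hI2
    have h4 := vd_succ (c := c) (n := n - 1) j (I := I') ((sum_le_range hI'J _).trans (by omega)) ms
    have h5 : n - 1 + 1 = n := by omega
    rw [h5] at h4
    have h6 : ((gz d (blk c n) ms (insert a A) ((range J).erase a) (j + 1) I' 0 +
        HI d j (blk c n) I' ms : ℕ) : ℤ) = (HI d (j + 1) (blk c n) I' ms : ℤ) := by
      push_cast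
      rw [h1, h2, h3, h4]
    exact_mod_cast h6) (by
    intro t ht j hj
    have h1 := hg t ht.le (j + 1) (by omega) _ (Or.inr rfl)
    have h2 := hg (t + 1) ht (j + 1) (by omega) _ (Or.inr rfl)
    have h3 := hg t ht.le j (by omega) _ (Or.inl rfl)
    have hs := sum_cm (c := c) (t := t + 1) haJ (by omega)
    have h4 := vd_upd (c := cm c a (t + 1)) (n := n - (t + 1) - 1) j
      (show a ∈ I ∩ insert a A from Finset.mem_inter.2 ⟨ha, mem_insert_self _ _⟩)
        ((sum_le_range hI2 _).trans (by omega)) ms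
    have h5 : n - (t + 1) - 1 + 1 = n - t - 1 := by omega
    have h6 : (I ∩ insert a A).erase a = I ∩ A := by rw [hI12, erase_insert haI1]
    rw [cm_succ (by omega), h5, h6] at h4
    have h7 : (gz d (blk c n) ms (insert a A) ((range J).erase a) (j + 1) (I ∩ insert a A) t : ℤ) =
        ((gz d (blk c n) ms (insert a A) ((range J).erase a) (j + 1) (I ∩ insert a A) (t + 1) +
          gz d (blk c n) ms (insert a A) ((range J).erase a) j (I ∩ A) t : ℕ) : ℤ) := by
      push_cast
      rw [h1, h2, h3, h4]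
    exact_mod_cast h7) (by
    intro t ht j hj
    rw [hg t ht.le j (by omega) _ (Or.inl rfl), hg t ht.le j (by omega) _ (Or.inr rfl),
      hg 0 (Nat.zero_le _) j (by omega) _ (Or.inl rfl),
      hg 0 (Nat.zero_le _) j (by omega) _ (Or.inr rfl), cm_zero, hI12]
    have h1 := vd_diff (c := c) (n := n - 1) haJ haI1 hI1 (by omega) ms t (by omega) j
    have h2 : n - t - 1 = n - 1 - t := by omega
    rw [h2, Nat.sub_zero]
    exact h1)
  have hx : ∀ I', I' = I ∩ A ∨ I' = I ∩ insert a A → ∀ j ≤ D + 1 - e, Xct d c n j I' ms := by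
    intro I' hI' j hj
    have h1 := (hX 0 (Nat.zero_le _) j hj I' hI').1
    rwa [cm_zero, Nat.sub_zero] at h1
  rw [kk_eq_dl c n I A ms heD (hx _ (Or.inl rfl) _ (by omega)),
    kk_eq_dl c n I (insert a A) ms heD (hx _ (Or.inr rfl) _ (by omega)),
    kk_eq_dl c n I (insert a A) ms (show e - 1 ≤ D by omega) (hx _ (Or.inr rfl) _ (by omega))]
    at key
  linarith

/-- `a ∉ I`. -/
theorem avb_out {d D : ℕ} (hD : D ≤ d) (e a : ℕ) (c : ℕ → ℕ) (n : ℕ) {I A : Finset ℕ} (ha : a ∉ I)
    (ms : Multiset Kd) :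
    dl d c n D I (.ord e A ::ₘ ms) ≤ dl d c n D I (.ord e (insert a A) ::ₘ ms) := by
  unfold dl
  have h1 := HI_ord_le hD (blk c n) I e (subset_insert a A) ms
  have h2 : vd D I c n (.ord e A ::ₘ ms) = vd D I c n (.ord e (insert a A) ::ₘ ms) :=
    vd_ord_congr D I c n e (by rw [insert_inter_of_notMem ha]) ms
  rw [h2]
  have h3 : (HI d D (blk c n) I (.ord e A ::ₘ ms) : ℤ) ≤
      HI d D (blk c n) I (.ord e (insert a A) ::ₘ ms) := by exact_mod_cast h1
  linarith

end Pool.Agent.GD.AL
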