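import Pool.Agent.GD.AL.St
import Pool.Agent.GD.AL.AV

/-!
# General d, ALPHA: the replacement of an ordinary object, for states
-/

set_option autoImplicit false

namespace Pool.Agent.GD.AL

open Finset

/-- The replacement of an ordinary object. -/
theorem av_st {d J D : ℕ} {σ : St} {I : Finset ℕ} (hD : D ≤ d) (hI : I ⊆ range J)
    (hm : ∀ k ∈ σ.ms, k.Ok d J) {x : ℕ} {A : Finset ℕ} {a c' : ℕ} (hx : 2 ≤ x) (hxD : x ≤ D)
    (hA : A ⊆ range J) (ha : a ∈ I) (haA : a ∉ A) (hc1 : 1 ≤ c') (hc2 : c' < σ.c a) (hw : 2 ≤ σ.w)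
    (h1 : ∀ t ≤ c', ∀ s ≤ 1, ∀ D' ≤ D - x + 1, ((σ.lo a t).lw s).Ex d J (insert a (I ∩ A)) D')
    (h2 : ∀ t ≤ c', ∀ s ≤ 1, ∀ D' ≤ D - x, ((σ.lo a t).lw s).Ex d J (I ∩ A) D') :
    (c' : ℤ) * (σ.ad (.ord x A)).dl d J I D ≤
      (c' - 1 : ℤ) * (σ.ad (.ord x (insert a A))).dl d J I D +
        (σ.ad (.ord (x - 1) (insert a A))).dl d J I D :=
  av hD hI hm hx hxD hA ha haA hc1 hc2 hw h1 h2

end Pool.Agent.GD.AL
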