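import Pool.Agent.GD.AL.St

/-!
# General d, ALPHA: the finite systems, definitions
-/

set_option autoImplicit false

namespace Pool.Agent.GD.AL

open Finset

/-- The sizes of the blocks `i, …, J - 1`. -/
def rs (i J : ℕ) (c0 : ℕ → ℕ) (x : ℕ) : ℕ := if i ≤ x ∧ x < J then c0 x else 0

/-- The hierarchy of the sizes of the blocks `i, …, J - 1`. -/
def Hr (i J : ℕ) (F : (ℕ → ℕ) → ℕ) (c0 : ℕ → ℕ) : Prop :=
  ∀ l, i ≤ l → l < J → F (rs (l + 1) J c0) ≤ c0 l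

/-- Exactness of the systems with few objects of positive `W`-degree; the others live on the blocks
`i, …, J - 1`.  The bound for `w` is polynomial in `c0 i`. -/
def BT (d J i D : ℕ) : Prop := ∀ η : ℝ, 0 < η → ∃ (K k : ℕ) (F q : (ℕ → ℕ) → ℕ), ∀ c0 : ℕ → ℕ,
  Hr i J F c0 → ∀ (σ : St) (I : Finset ℕ), I ⊆ range J → (∀ l ∈ I, K ≤ c0 l) → (∀ l, σ.c l ≤ c0 l) →
    (∀ k ∈ σ.ms, AdmO d J k) →
    (∀ x A, .ord x A ∈ σ.ms → (I \ A).card = x → I \ A ⊆ Ico i J) →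
    (∀ I' ⊆ I, η * ∏ l ∈ I', (c0 l : ℝ) ≤ (σ.V J I' I'.card : ℝ)) →
    q (rs (i + 1) J c0) * (rs i J c0 i + 1) ^ k + d * σ.ms.card ≤ σ.w → σ.Ex d J I D

end Pool.Agent.GD.AL
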