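import Pool.Agent.GD.AL.Bas
import Pool.Agent.GD.AL.AVb
import Pool.Agent.GD.AL.BTd

/-!
# General d, ALPHA: the finite systems, the pairs `(I', |I'|)`

`BTS`: the states of `BT`.  `V_ord_low`: at the pairs `(I', |I'|)` only the objects with `|I' \ A| = x` have
an effect; `bt_unif`: constants for finitely many degrees.
-/

set_option autoImplicit false

namespace Pool.Agent.GD.AL

open Finset

/-- The states of the finite systems. -/
structure BTS (d J i : ℕ) (c0 : ℕ → ℕ) (η : ℝ) (K W : ℕ) (I : Finset ℕ) (σ : St) : Prop where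
  hI : I ⊆ range J
  hK : ∀ l ∈ I, K ≤ c0 l
  hc : ∀ l, σ.c l ≤ c0 l
  adm : ∀ k ∈ σ.ms, AdmO d J k
  hT : ∀ x A, .ord x A ∈ σ.ms → (I \ A).card = x → I \ A ⊆ Ico i J
  hV : ∀ I' ⊆ I, η * ∏ l ∈ I', (c0 l : ℝ) ≤ (σ.V J I' I'.card : ℝ)
  hw : W + d * σ.ms.card ≤ σ.w

section low

variable {d J : ℕ} {σ : St} {I : Finset ℕ}

/-- The effect of an object at the pairs `(I, |I|)`. -/
theorem V_ord_low (hI : I ⊆ range J) (hm : ∀ k ∈ σ.ms, AdmO d J k) {x : ℕ} {A : Finset ℕ}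
    (hx : 1 ≤ x) (hA : (range J \ A).card ≤ x) :
    (σ.ad (.ord x A)).V J I I.card =
      σ.V J I I.card - if (I \ A).card = x then σ.V J (I ∩ A) (I ∩ A).card else 0 := by
  have h1 := card_inter_add_card_sdiff I A
  have h2 : (I \ A).card ≤ x := (card_le_card (sdiff_subset_sdiff hI subset_rfl)).trans hA
  rcases Nat.lt_or_ge I.card x with h3 | h3
  · rw [St.V_ord_lt A h3, if_neg (by omega), sub_zero]
  · rw [St.V_ord A h3]
    by_cases h4 : (I \ A).card = x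
    · rw [if_pos h4]
      have h5 : I.card - x = (I ∩ A).card := by omega
      rw [h5]
    · rw [if_neg h4, St.V_low (inter_subset_left.trans hI) hm (by omega)]

theorem AdmO.x_pos {k : Kd} {x : ℕ} {A : Finset ℕ} (h : AdmO d J k) (hk : k = .ord x A) :
    1 ≤ x ∧ x ≤ d ∧ A ⊆ range J ∧ (range J \ A).card ≤ x := by
  obtain ⟨y, B, h1, h2, h3, h4, h5⟩ := h
  rw [hk] at h1
  cases h1
  exact ⟨h2, h3, h4, h5⟩

/-- Fewer objects: larger values at the pairs `(I, |I|)`. -/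
theorem V_sub_low (hI : I ⊆ range J) (hm : ∀ k ∈ σ.ms, AdmO d J k)
    (h0 : ∀ I' ⊆ I, 0 ≤ σ.V J I' I'.card) : ∀ (N : ℕ), ∀ I' ⊆ I, I'.card ≤ N → ∀ S ≤ σ.ms,
      σ.V J I' I'.card ≤ (σ.wm S).V J I' I'.card := by
  intro N
  induction N using Nat.strong_induction_on with
  | _ N ih =>
    intro I' hI' hN S hS
    obtain ⟨u, hu⟩ := Multiset.le_iff_exists_add.1 hS
    have key : ∀ u S : Multiset Kd, S + u ≤ σ.ms →
        (σ.wm (S + u)).V J I' I'.card ≤ (σ.wm S).V J I' I'.card := by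
      intro u
      induction u using Multiset.induction_on with
      | empty =>
        intro S _
        rw [Multiset.add_zero]
      | cons k u ihu =>
        intro S hS
        rw [Multiset.add_cons] at hS ⊢
        refine le_trans ?_ (ihu S (le_trans (Multiset.le_cons_self _ _) hS))
        obtain ⟨x, A, rfl, h1, h2, h3, h4⟩ := hm k (Multiset.mem_of_le hS (Multiset.mem_cons_self _ _))
        have h5 := V_ord_low (σ := σ.wm (S + u)) (hI'.trans hI) (fun k hk => hm k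
          (Multiset.mem_of_le (le_trans (Multiset.le_cons_self _ _) hS) hk)) h1 h4
        have h6 : (σ.wm (S + u)).ad (.ord x A) = σ.wm (.ord x A ::ₘ (S + u)) := rfl
        rw [h6] at h5
        rw [h5]
        by_cases h7 : (I' \ A).card = x
        · rw [if_pos h7]
          have h8 := card_inter_add_card_sdiff I' A
          have h9 := ih (I' ∩ A).card (by omega) (I' ∩ A) (inter_subset_left.trans hI') le_rfl
            (S + u) (le_trans (Multiset.le_cons_self _ _) hS)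
          have h10 := h0 (I' ∩ A) (inter_subset_left.trans hI')
          omega
        · rw [if_neg h7]
          omega
    have h1 := key u S (le_of_eq hu.symm)
    rw [← hu] at h1
    exact h1

theorem V_nil_le (c : ℕ → ℕ) (w : ℕ) (hI : I ⊆ range J) :
    (St.mk c w 0).V J I I.card ≤ ∏ l ∈ I, (c l : ℤ) := by
  have h1 : ∑ i ∈ I, c i ≤ (St.mk c w 0).n J := by
    unfold St.n
    exact (sum_le_sum_of_subset hI).trans (Nat.le_add_right _ _)
  have h2 := vd_empty_le I.card h1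
  rw [Nat.sub_self, pow_zero, mul_one] at h2
  exact h2

theorem V_le_prod (hI : I ⊆ range J) (hm : ∀ k ∈ σ.ms, AdmO d J k)
    (h0 : ∀ I' ⊆ I, 0 ≤ σ.V J I' I'.card) {I' : Finset ℕ} (hI' : I' ⊆ I) :
    σ.V J I' I'.card ≤ ∏ l ∈ I', (σ.c l : ℤ) :=
  (V_sub_low hI hm h0 _ I' hI' le_rfl 0 (Multiset.zero_le _)).trans
    (V_nil_le σ.c σ.w (hI'.trans hI))

theorem lw_zero (σ : St) : σ.lw 0 = σ := rfl

theorem lo_zero (σ : St) (a : ℕ) : σ.lo a 0 = σ := by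
  unfold St.lo
  rw [Nat.sub_zero, Function.update_eq_self]

theorem V_lw_low (hI : I ⊆ range J) (hm : ∀ k ∈ σ.ms, AdmO d J k) (hw : 1 ≤ σ.w) :
    (σ.lw 1).V J I I.card = σ.V J I I.card := by
  rcases Nat.eq_zero_or_pos I.card with h | h
  · rw [h]
    exact vd_deg_zero _ _ _ _ _ _
  · obtain ⟨D, hD⟩ : ∃ D, I.card = D + 1 := ⟨I.card - 1, by omega⟩
    rw [hD, St.V_lw hI hw, St.V_low hI hm (D := D) (by omega), sub_zero]

theorem V_lo_low' {a : ℕ} (ha : a ∉ I) (haJ : a < J) (hI : I ⊆ range J)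
    (hm : ∀ k ∈ σ.ms, AdmO d J k) (hc : 1 ≤ σ.c a) :
    (σ.lo a 1).V J I I.card = σ.V J I I.card := by
  rcases Nat.eq_zero_or_pos I.card with h | h
  · rw [h]
    exact vd_deg_zero _ _ _ _ _ _
  · obtain ⟨D, hD⟩ : ∃ D, I.card = D + 1 := ⟨I.card - 1, by omega⟩
    rw [hD, St.V_lo' ha haJ hI hc, St.V_low hI hm (D := D) (by omega), sub_zero]

theorem V_lo_low {a : ℕ} (ha : a ∈ I) (hI : I ⊆ range J) (hc : 1 ≤ σ.c a) :
    (σ.lo a 1).V J I I.card = σ.V J I I.card - σ.V J (I.erase a) (I.erase a).card := by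
  have h1 := card_erase_of_mem ha
  have h2 : 0 < I.card := card_pos.2 ⟨a, ha⟩
  obtain ⟨D, hD⟩ : ∃ D, I.card = D + 1 := ⟨I.card - 1, by omega⟩
  have h3 : (I.erase a).card = D := by omega
  rw [hD, h3, St.V_lo ha hI hc]

end low

namespace BTS

variable {d J i : ℕ} {c0 : ℕ → ℕ} {η : ℝ} {K W : ℕ} {I : Finset ℕ} {σ : St}

theorem prod_nonneg (c0 : ℕ → ℕ) (I' : Finset ℕ) : 0 ≤ ∏ l ∈ I', (c0 l : ℝ) :=
  Finset.prod_nonneg fun _ _ => Nat.cast_nonneg _

theorem V0 (h : BTS d J i c0 η K W I σ) (hη : 0 ≤ η) : ∀ I' ⊆ I, 0 ≤ σ.V J I' I'.card := by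
  intro I' hI'
  have h1 := h.hV I' hI'
  have h2 := mul_nonneg hη (prod_nonneg c0 I')
  exact_mod_cast h2.trans h1

theorem Vle (h : BTS d J i c0 η K W I σ) (hη : 0 ≤ η) {I' : Finset ℕ} (hI' : I' ⊆ I) :
    (σ.V J I' I'.card : ℝ) ≤ ∏ l ∈ I', (σ.c l : ℝ) := by
  have h1 := V_le_prod h.hI h.adm (h.V0 hη) hI'
  exact_mod_cast h1

theorem Vle' (h : BTS d J i c0 η K W I σ) (hη : 0 ≤ η) {I' : Finset ℕ} (hI' : I' ⊆ I) :
    (σ.V J I' I'.card : ℝ) ≤ ∏ l ∈ I', (c0 l : ℝ) :=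
  (h.Vle hη hI').trans (prod_le_prod (fun _ _ => Nat.cast_nonneg _) fun l _ =>
    Nat.cast_le.2 (h.hc l))

theorem c_ge (h : BTS d J i c0 η K W I σ) (hη : 0 ≤ η) {a : ℕ} (ha : a ∈ I) :
    η * c0 a ≤ σ.c a := by
  have h1 := h.hV {a} (singleton_subset_iff.2 ha)
  have h2 := h.Vle hη (singleton_subset_iff.2 ha)
  rw [prod_singleton] at h1 h2
  exact h1.trans h2

theorem T_sub {I' : Finset ℕ} (hI' : I' ⊆ I) (hI : I ⊆ range J)
    (hT : ∀ x A, .ord x A ∈ σ.ms → (I \ A).card = x → I \ A ⊆ Ico i J)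
    (hm : ∀ k ∈ σ.ms, AdmO d J k) :
    ∀ x A, .ord x A ∈ σ.ms → (I' \ A).card = x → I' \ A ⊆ Ico i J := by
  intro x A hk hc
  obtain ⟨-, -, -, h4⟩ := (hm _ hk).x_pos rfl
  have h1 : (I \ A).card ≤ x := (card_le_card (sdiff_subset_sdiff hI subset_rfl)).trans h4
  have h2 : I' \ A ⊆ I \ A := sdiff_subset_sdiff hI' subset_rfl
  have h3 := card_le_card h2
  exact h2.trans (hT x A hk (by omega))

/-- Smaller levels. -/
theorem lev (h : BTS d J i c0 η K W I σ) {I' : Finset ℕ} (hI' : I' ⊆ I) :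
    BTS d J i c0 η K W I' σ :=
  ⟨hI'.trans h.hI, fun l hl => h.hK l (hI' hl), h.hc, h.adm, T_sub hI' h.hI h.hT h.adm,
    fun I'' hI'' => h.hV I'' (hI''.trans hI'), h.hw⟩

/-- Weaker constants. -/
theorem weak (h : BTS d J i c0 η K W I σ) {η' : ℝ} {K' W' : ℕ} (h1 : η' ≤ η) (h2 : K' ≤ K)
    (h3 : W' ≤ W) : BTS d J i c0 η' K' W' I σ :=
  ⟨h.hI, fun l hl => h2.trans (h.hK l hl), h.hc, h.adm, h.hT, fun I' hI' =>
    (mul_le_mul_of_nonneg_right h1 (prod_nonneg c0 I')).trans (h.hV I' hI'),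
    (Nat.add_le_add_right h3 _).trans h.hw⟩

/-- Fewer objects. -/
theorem sub (h : BTS d J i c0 η K W I σ) (hη : 0 ≤ η) {S : Multiset Kd} (hS : S ≤ σ.ms) :
    BTS d J i c0 η K W I (σ.wm S) :=
  ⟨h.hI, h.hK, h.hc, fun k hk => h.adm k (Multiset.mem_of_le hS hk),
    fun x A hk => h.hT x A (Multiset.mem_of_le hS hk), fun I' hI' =>
      (h.hV I' hI').trans (Int.cast_le.2 (V_sub_low h.hI h.adm (h.V0 hη) _ I' hI' le_rfl S hS)),
    (Nat.add_le_add_left (Nat.mul_le_mul_left _ (Multiset.card_le_card hS)) _).trans h.hw⟩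

theorem ex_of (h : BTS d J i c0 η K W I σ) {D k : ℕ} {F q : (ℕ → ℕ) → ℕ} {K' : ℕ}
    (hb : ∀ c0 : ℕ → ℕ,
      Hr i J F c0 → ∀ (σ : St) (I : Finset ℕ), I ⊆ range J → (∀ l ∈ I, K' ≤ c0 l) →
        (∀ l, σ.c l ≤ c0 l) → (∀ k ∈ σ.ms, AdmO d J k) →
        (∀ x A, .ord x A ∈ σ.ms → (I \ A).card = x → I \ A ⊆ Ico i J) →
        (∀ I' ⊆ I, η * ∏ l ∈ I', (c0 l : ℝ) ≤ (σ.V J I' I'.card : ℝ)) →
        q (rs (i + 1) J c0) * (rs i J c0 i + 1) ^ k + d * σ.ms.card ≤ σ.w → σ.Ex d J I D)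
    (hF : Hr i J F c0) (hK : K' ≤ K) (hW : q (rs (i + 1) J c0) * (rs i J c0 i + 1) ^ k ≤ W) :
    σ.Ex d J I D :=
  hb c0 hF σ I h.hI (fun l hl => hK.trans (h.hK l hl)) h.hc h.adm h.hT h.hV
    ((Nat.add_le_add_right hW _).trans h.hw)

end BTS

/-- Constants for finitely many degrees. -/
theorem bt_unif {d J i : ℕ} (P : Finset ℕ) (h : ∀ D ∈ P, BT d J i D) {η : ℝ} (hη : 0 < η) :
    ∃ (K k : ℕ) (F q : (ℕ → ℕ) → ℕ), ∀ c0 : ℕ → ℕ, Hr i J F c0 → ∀ (σ : St) (I : Finset ℕ),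
      BTS d J i c0 η K (q (rs (i + 1) J c0) * (rs i J c0 i + 1) ^ k) I σ →
        ∀ D ∈ P, σ.Ex d J I D := by
  classical
  induction P using Finset.induction_on with
  | empty => exact ⟨0, 0, fun _ => 0, fun _ => 0, fun c0 _ σ I _ D hD => absurd hD (notMem_empty _)⟩
  | insert D P hD ih =>
    obtain ⟨K1, k1, F1, q1, h1⟩ := ih fun D' hD' => h D' (mem_insert_of_mem hD')
    obtain ⟨K2, k2, F2, q2, h2⟩ := h D (mem_insert_self _ _) η hη
    refine ⟨max K1 K2, max k1 k2, fun r => max (F1 r) (F2 r), fun r => max (q1 r) (q2 r),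
      fun c0 hF σ I hs D' hD' => ?_⟩
    have e1 : q1 (rs (i + 1) J c0) * (rs i J c0 i + 1) ^ k1 ≤
        max (q1 (rs (i + 1) J c0)) (q2 (rs (i + 1) J c0)) * (rs i J c0 i + 1) ^ max k1 k2 :=
      Nat.mul_le_mul (le_max_left _ _) (Nat.pow_le_pow_right (Nat.succ_pos _) (le_max_left _ _))
    have e2 : q2 (rs (i + 1) J c0) * (rs i J c0 i + 1) ^ k2 ≤
        max (q1 (rs (i + 1) J c0)) (q2 (rs (i + 1) J c0)) * (rs i J c0 i + 1) ^ max k1 k2 :=
      Nat.mul_le_mul (le_max_right _ _) (Nat.pow_le_pow_right (Nat.succ_pos _) (le_max_right _ _))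
    rcases mem_insert.1 hD' with rfl | hD'
    · exact hs.ex_of h2 (fun l hl hl' => (le_max_right _ _).trans (hF l hl hl'))
        (le_max_right _ _) e2
    · exact h1 c0 (fun l hl hl' => (le_max_left _ _).trans (hF l hl hl')) σ I
        (hs.weak le_rfl (le_max_left _ _) e1) D' hD'

end Pool.Agent.GD.AL
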