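import Pool.Agent.GD.AL.Fl
import Pool.Agent.GD.ST.Eqv
import Pool.Agent.V7.Top.Basic

/-!
# General d, ALPHA: configurations which split

`HI_prod`: the objects of `S₁` at positions on the variables `ν₁`, the objects of `S₂` at positions on the
variables `ν₂`; the blocks of `I₁` do not occur in `ν₂`, the blocks of `I₂` do not occur in `ν₁`.  The
solutions are (slice by slice) in the tensor products of the solutions in both factors, so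
`HI (I₁ ∪ I₂) (S₁ + S₂) ≤ ∑ HI s I₁ S₁ * HI (D - s) I₂ S₂`.
-/

set_option autoImplicit false
set_option linter.unusedSectionVars false

namespace Pool.Agent.GD.AL

open Finset MvPolynomial Pool.Agent.H51.TB Pool.Agent.V7.ST
open Pool.Agent.H21.NX (Sx mem_Sx)
open Pool.Agent.V7 (msk)

section

variable {ν₁ ν₂ : Type} [Fintype ν₁] [DecidableEq ν₁] [Fintype ν₂] [DecidableEq ν₂] {d : ℕ}

theorem rename_inl_lf (p : ν₁ → ℂ) :
    rename (Sum.inl : ν₁ → ν₁ ⊕ ν₂) (lf p) = lf (Sum.elim p (0 : ν₂ → ℂ)) := by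
  unfold lf
  rw [map_sum, Fintype.sum_sum_type]
  simp only [map_mul, rename_C, rename_X, Sum.elim_inl, Sum.elim_inr, Pi.zero_apply, map_zero,
    zero_mul, sum_const_zero, add_zero]

theorem rename_inr_lf (p : ν₂ → ℂ) :
    rename (Sum.inr : ν₂ → ν₁ ⊕ ν₂) (lf p) = lf (Sum.elim (0 : ν₁ → ℂ) p) := by
  unfold lf
  rw [map_sum, Fintype.sum_sum_type]
  simp only [map_mul, rename_C, rename_X, Sum.elim_inl, Sum.elim_inr, Pi.zero_apply, map_zero,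
    zero_mul, sum_const_zero, zero_add]

theorem rename_mon_mul (a : ν₁ → ℕ) (b : ν₂ → ℕ) :
    rename (Sum.inl : ν₁ → ν₁ ⊕ ν₂) (mon ℂ a) * rename (Sum.inr : ν₂ → ν₁ ⊕ ν₂) (mon ℂ b) =
      mon ℂ (Sum.elim a b) := by
  unfold mon
  rw [map_prod, map_prod, Fintype.prod_sum_type]
  simp only [map_pow, rename_X, Sum.elim_inl, Sum.elim_inr]

/-- The slice of a functional at a monomial of the second factor. -/
noncomputable def slL (b : ν₂ → ℕ) : Dl (ν₁ ⊕ ν₂) →ₗ[ℂ] Dl ν₁ :=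
  (LinearMap.lcomp ℂ ℂ (rename (Sum.inl : ν₁ → ν₁ ⊕ ν₂) :
    MvPolynomial ν₁ ℂ →ₐ[ℂ] MvPolynomial (ν₁ ⊕ ν₂) ℂ).toLinearMap) ∘ₗ
      ct (rename (Sum.inr : ν₂ → ν₁ ⊕ ν₂) (mon ℂ b))

theorem slL_apply (b : ν₂ → ℕ) (Φ : Dl (ν₁ ⊕ ν₂)) (y : MvPolynomial ν₁ ℂ) :
    slL b Φ y = Φ (rename Sum.inr (mon ℂ b) * rename Sum.inl y) := rfl

/-- The slice of a functional at a monomial of the first factor. -/
noncomputable def slR (a : ν₁ → ℕ) : Dl (ν₁ ⊕ ν₂) →ₗ[ℂ] Dl ν₂ :=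
  (LinearMap.lcomp ℂ ℂ (rename (Sum.inr : ν₂ → ν₁ ⊕ ν₂) :
    MvPolynomial ν₂ ℂ →ₐ[ℂ] MvPolynomial (ν₁ ⊕ ν₂) ℂ).toLinearMap) ∘ₗ
      ct (rename (Sum.inl : ν₁ → ν₁ ⊕ ν₂) (mon ℂ a))

theorem slR_apply (a : ν₁ → ℕ) (Φ : Dl (ν₁ ⊕ ν₂)) (y : MvPolynomial ν₂ ℂ) :
    slR a Φ y = Φ (rename Sum.inl (mon ℂ a) * rename Sum.inr y) := rfl

theorem slL_mon (b : ν₂ → ℕ) (Φ : Dl (ν₁ ⊕ ν₂)) (a : ν₁ → ℕ) :
    slL b Φ (mon ℂ a) = Φ (mon ℂ (Sum.elim a b)) := by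
  rw [slL_apply, mul_comm, rename_mon_mul]

theorem slR_mon (a : ν₁ → ℕ) (Φ : Dl (ν₁ ⊕ ν₂)) (b : ν₂ → ℕ) :
    slR a Φ (mon ℂ b) = Φ (mon ℂ (Sum.elim a b)) := by
  rw [slR_apply, rename_mon_mul]

/-! ### Positions -/

/-- A position on the first factor. -/
def pL (ν₂ : Type) (q : ν₁ × Fin (d + 1) → ℂ) (z : (ν₁ ⊕ ν₂) × Fin (d + 1)) : ℂ :=
  Sum.elim (fun s => q (s, z.2)) (fun _ => 0) z.1

/-- A position on the second factor. -/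
def pR (ν₁ : Type) (q : ν₂ × Fin (d + 1) → ℂ) (z : (ν₁ ⊕ ν₂) × Fin (d + 1)) : ℂ :=
  Sum.elim (fun _ => 0) (fun s => q (s, z.2)) z.1

theorem pt_pL (β₁ : ν₁ → ℕ) (β₂ : ν₂ → ℕ) (k : Kd) (x : Fin (d + 1)) (q : ν₁ × Fin (d + 1) → ℂ) :
    pt (Sum.elim β₁ β₂) k x (pL ν₂ q) = Sum.elim (pt β₁ k x q) (0 : ν₂ → ℂ) := by
  funext s
  rcases k with ⟨e, A⟩ | ⟨e, dl, i, As⟩ <;> rcases s with s | s
  · rfl
  · show (if β₂ s ∈ A then (0 : ℂ) else 0) = 0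
    rw [ite_self]
  · rfl
  · show (if β₂ s ∈ As.getD x ∅ then (0 : ℂ) else if β₂ s = i ∧ x.1 + 1 = As.length then
      - ∑ y : Fin (d + 1), (if y.1 + 1 < As.length then (0 : ℂ) else 0) else 0) = 0
    simp only [ite_self, sum_const_zero, neg_zero]

theorem pt_pR (β₁ : ν₁ → ℕ) (β₂ : ν₂ → ℕ) (k : Kd) (x : Fin (d + 1)) (q : ν₂ × Fin (d + 1) → ℂ) :
    pt (Sum.elim β₁ β₂) k x (pR ν₁ q) = Sum.elim (0 : ν₁ → ℂ) (pt β₂ k x q) := by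
  funext s
  rcases k with ⟨e, A⟩ | ⟨e, dl, i, As⟩ <;> rcases s with s | s
  · show (if β₁ s ∈ A then (0 : ℂ) else 0) = 0
    rw [ite_self]
  · rfl
  · show (if β₁ s ∈ As.getD x ∅ then (0 : ℂ) else if β₁ s = i ∧ x.1 + 1 = As.length then
      - ∑ y : Fin (d + 1), (if y.1 + 1 < As.length then (0 : ℂ) else 0) else 0) = 0
    simp only [ite_self, sum_const_zero, neg_zero]
  · rfl

theorem uu_pL (β₁ : ν₁ → ℕ) (β₂ : ν₂ → ℕ) (k : Kd) (q : ν₁ × Fin (d + 1) → ℂ) :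
    uu (Sum.elim β₁ β₂) k (pL ν₂ q) = Sum.elim (uu β₁ k q) (0 : ν₂ → ℂ) := by
  funext s
  unfold uu
  simp only [pt_pL]
  rcases s with s | s
  · rfl
  · simp only [Sum.elim_inr, Pi.zero_apply, ite_self, sum_const_zero]

theorem zz_pL (β₁ : ν₁ → ℕ) (β₂ : ν₂ → ℕ) (i : ℕ) (q : ν₁ × Fin (d + 1) → ℂ) :
    zz (Sum.elim β₁ β₂) i (pL ν₂ q) = Sum.elim (zz β₁ i q) (0 : ν₂ → ℂ) := by
  funext s
  rcases s with s | s
  · rfl
  · show (if β₂ s = i then (0 : ℂ) else 0) = 0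
    rw [ite_self]

theorem uu_pR (β₁ : ν₁ → ℕ) (β₂ : ν₂ → ℕ) (k : Kd) (q : ν₂ × Fin (d + 1) → ℂ) :
    uu (Sum.elim β₁ β₂) k (pR ν₁ q) = Sum.elim (0 : ν₁ → ℂ) (uu β₂ k q) := by
  funext s
  unfold uu
  simp only [pt_pR]
  rcases s with s | s
  · simp only [Sum.elim_inl, Pi.zero_apply, ite_self, sum_const_zero]
  · rfl

theorem zz_pR (β₁ : ν₁ → ℕ) (β₂ : ν₂ → ℕ) (i : ℕ) (q : ν₂ × Fin (d + 1) → ℂ) :
    zz (Sum.elim β₁ β₂) i (pR ν₁ q) = Sum.elim (0 : ν₁ → ℂ) (zz β₂ i q) := by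
  funext s
  rcases s with s | s
  · show (if β₁ s = i then (0 : ℂ) else 0) = 0
    rw [ite_self]
  · rfl

/-! ### The slices -/

theorem slL_sat {β₁ : ν₁ → ℕ} {β₂ : ν₂ → ℕ} {I I₁ : Finset ℕ} (hI : I₁ ⊆ I) (h1 : ∀ t, β₂ t ∉ I₁)
    {k : Kd} {q : ν₁ × Fin (d + 1) → ℂ} {Φ : Dl (ν₁ ⊕ ν₂)}
    (h : Sat (Sum.elim β₁ β₂) I k (pL ν₂ q) Φ) (b : ν₂ → ℕ) : Sat β₁ I₁ k q (slL b Φ) := by
  constructor
  · intro x hx y
    have h2 := h.1 x hx (rename Sum.inr (mon ℂ b) * rename Sum.inl y)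
    rw [pt_pL, ← rename_inl_lf, ← map_pow] at h2
    have e : rename (Sum.inr : ν₂ → ν₁ ⊕ ν₂) (mon ℂ b) * rename Sum.inl (lf (pt β₁ k x q) ^ k.ex * y) =
        rename Sum.inl (lf (pt β₁ k x q) ^ k.ex) *
          (rename Sum.inr (mon ℂ b) * rename Sum.inl y) := by
      rw [map_mul (rename _)]
      ring
    rw [slL_apply, e]
    exact h2
  · rcases k with ⟨e, A⟩ | ⟨e, dl, i, As⟩
    · trivial
    · intro hi κ hκ hκ' c hc
      have h2 := h.2 (hI hi) κ hκ hκ' (Sum.elim c b) (by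
        rintro (s | s) hs
        · exact hc s hs
        · exact absurd (show β₂ s ∈ I₁ from (show β₂ s = i from hs) ▸ hi) (h1 s))
      rw [uu_pL, zz_pL, ← rename_inl_lf, ← rename_inl_lf, ← rename_mon_mul] at h2
      have e' : ∀ U Z M : MvPolynomial ν₁ ℂ, ∀ r : ℕ,
          rename (Sum.inr : ν₂ → ν₁ ⊕ ν₂) (mon ℂ b) * rename Sum.inl (U ^ r * (Z ^ κ * M)) =
          rename Sum.inl U ^ r * (rename Sum.inl Z ^ κ *
            (rename Sum.inl M * rename Sum.inr (mon ℂ b))) := by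
        intro U Z M r
        rw [map_mul (rename _), map_mul (rename _), map_pow (rename _), map_pow (rename _)]
        ring
      rw [slL_apply, e']
      exact h2

theorem slR_sat {β₁ : ν₁ → ℕ} {β₂ : ν₂ → ℕ} {I I₂ : Finset ℕ} (hI : I₂ ⊆ I) (h1 : ∀ t, β₁ t ∉ I₂)
    {k : Kd} {q : ν₂ × Fin (d + 1) → ℂ} {Φ : Dl (ν₁ ⊕ ν₂)}
    (h : Sat (Sum.elim β₁ β₂) I k (pR ν₁ q) Φ) (a : ν₁ → ℕ) : Sat β₂ I₂ k q (slR a Φ) := by
  constructor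
  · intro x hx y
    have h2 := h.1 x hx (rename Sum.inl (mon ℂ a) * rename Sum.inr y)
    rw [pt_pR, ← rename_inr_lf, ← map_pow] at h2
    have e : rename (Sum.inl : ν₁ → ν₁ ⊕ ν₂) (mon ℂ a) * rename Sum.inr (lf (pt β₂ k x q) ^ k.ex * y) =
        rename Sum.inr (lf (pt β₂ k x q) ^ k.ex) *
          (rename Sum.inl (mon ℂ a) * rename Sum.inr y) := by
      rw [map_mul (rename _)]
      ring
    rw [slR_apply, e]
    exact h2
  · rcases k with ⟨e, A⟩ | ⟨e, dl, i, As⟩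
    · trivial
    · intro hi κ hκ hκ' c hc
      have h2 := h.2 (hI hi) κ hκ hκ' (Sum.elim a c) (by
        rintro (s | s) hs
        · exact absurd (show β₁ s ∈ I₂ from (show β₁ s = i from hs) ▸ hi) (h1 s)
        · exact hc s hs)
      rw [uu_pR, zz_pR, ← rename_inr_lf, ← rename_inr_lf, ← rename_mon_mul] at h2
      have e' : ∀ U Z M : MvPolynomial ν₂ ℂ, ∀ r : ℕ,
          rename (Sum.inl : ν₁ → ν₁ ⊕ ν₂) (mon ℂ a) * rename Sum.inr (U ^ r * (Z ^ κ * M)) =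
          rename Sum.inr U ^ r * (rename Sum.inr Z ^ κ *
            (rename Sum.inl (mon ℂ a) * rename Sum.inr M)) := by
        intro U Z M r
        rw [map_mul (rename _), map_mul (rename _), map_pow (rename _), map_pow (rename _)]
        ring
      rw [slR_apply, e']
      exact h2

theorem slL_lv {β₁ : ν₁ → ℕ} {β₂ : ν₂ → ℕ} {I I₁ : Finset ℕ} (hI : I₁ ⊆ I) (h1 : ∀ t, β₂ t ∉ I₁)
    {D s : ℕ} {Φ : Dl (ν₁ ⊕ ν₂)} (h : Φ ∈ Lv (Sum.elim β₁ β₂) D I) {b : ν₂ → ℕ}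
    (hb : s + ∑ t, b t = D) : slL b Φ ∈ Lv β₁ s I₁ := by
  intro a ha
  rw [slL_mon]
  refine h _ fun h2 => ha ?_
  rw [mem_Ex] at h2 ⊢
  obtain ⟨h2, h3⟩ := h2
  rw [Fintype.sum_sum_type] at h2
  simp only [Sum.elim_inl, Sum.elim_inr] at h2
  refine ⟨by omega, fun i hi => ?_⟩
  obtain ⟨x, hx, hx'⟩ := h3 i (hI hi)
  rcases x with x | x
  · exact ⟨x, hx, hx'⟩
  · exact absurd (show β₂ x ∈ I₁ from (show β₂ x = i from hx) ▸ hi) (h1 x)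

theorem slR_lv {β₁ : ν₁ → ℕ} {β₂ : ν₂ → ℕ} {I I₂ : Finset ℕ} (hI : I₂ ⊆ I) (h1 : ∀ t, β₁ t ∉ I₂)
    {D s : ℕ} {Φ : Dl (ν₁ ⊕ ν₂)} (h : Φ ∈ Lv (Sum.elim β₁ β₂) D I) {a : ν₁ → ℕ}
    (ha : ∑ t, a t + s = D) : slR a Φ ∈ Lv β₂ s I₂ := by
  intro b hb
  rw [slR_mon]
  refine h _ fun h2 => hb ?_
  rw [mem_Ex] at h2 ⊢
  obtain ⟨h2, h3⟩ := h2
  rw [Fintype.sum_sum_type] at h2
  simp only [Sum.elim_inl, Sum.elim_inr] at h2
  refine ⟨by omega, fun i hi => ?_⟩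
  obtain ⟨x, hx, hx'⟩ := h3 i (hI hi)
  rcases x with x | x
  · exact absurd (show β₁ x ∈ I₂ from (show β₁ x = i from hx) ▸ hi) (h1 x)
  · exact ⟨x, hx, hx'⟩

/-! ### Pivots -/

theorem exists_piv {ν : Type} [Fintype ν] [DecidableEq ν] (β : ν → ℕ) (D : ℕ) (I : Finset ℕ)
    (V : Submodule ℂ (Dl ν)) (hV : V ≤ Lv β D I) :
    ∃ a : Fin (Module.finrank ℂ V) → ν → ℕ, (∀ k, ∑ s, a k s = D) ∧
      ∀ Φ ∈ V, (∀ k, Φ (mon ℂ (a k)) = 0) → Φ = 0 := by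
  let T := toDl (Ex β D I)
  have hT : Function.Injective T := toDl_inj _
  let U : Submodule ℂ ({a // a ∈ Ex β D I} → ℂ) := V.comap T
  have hUV : U.map T = V := by
    refine le_antisymm (Submodule.map_comap_le _ _) fun Φ hΦ => ?_
    obtain ⟨f, hf⟩ := exists_toDl (hV hΦ)
    exact ⟨f, show T f ∈ V from hf.symm ▸ hΦ, hf⟩
  have hr : Module.finrank ℂ U = Module.finrank ℂ V := by
    rw [← hUV]
    exact (Submodule.equivMapOfInjective T hT U).finrank_eq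
  obtain ⟨a, b, -, -, -, hs⟩ := Pool.Agent.V7.Top.exists_pivot U
  rw [← hr]
  refine ⟨fun k => (a k).1, fun k => (mem_Ex.1 (a k).2).1, fun Φ hΦ h0 => ?_⟩
  obtain ⟨f, rfl⟩ := exists_toDl (hV hΦ)
  have h1 := hs f hΦ
  have h2 : ∀ k, f (a k) = 0 := by
    intro k
    have h3 := h0 k
    rw [toDl_apply, Fn_mon, ext0_mem] at h3
    exact (mul_eq_zero.1 h3).resolve_left (Nat.cast_ne_zero.2 (fac_pos _).ne')
  have h3 : f = 0 := by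
    rw [h1]
    refine sum_eq_zero fun k _ => ?_
    rw [h2 k, zero_smul]
  rw [h3, map_zero]

/-! ### The product -/

theorem finrank_le_prod {D : ℕ} (β₁ : ν₁ → ℕ) (β₂ : ν₂ → ℕ) {I I₁ I₂ : Finset ℕ}
    (hI₁ : I₁ ⊆ I) (hI₂ : I₂ ⊆ I) (h12 : ∀ t, β₁ t ∉ I₂) (h21 : ∀ t, β₂ t ∉ I₁)
    {κ₁ κ₂ : Type} (m₁ : κ₁ → Kd) (m₂ : κ₂ → Kd)
    (p₁ : κ₁ → ν₁ × Fin (d + 1) → ℂ) (p₂ : κ₂ → ν₂ × Fin (d + 1) → ℂ) :
    Module.finrank ℂ (XX (Sum.elim β₁ β₂) D I (Sum.elim m₁ m₂)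
      (Sum.elim (fun i => pL ν₂ (p₁ i)) fun i => pR ν₁ (p₂ i))) ≤
      ∑ s ∈ range (D + 1), Module.finrank ℂ (XX β₁ s I₁ m₁ p₁) *
        Module.finrank ℂ (XX β₂ (D - s) I₂ m₂ p₂) := by
  classical
  have hp : ∀ s : ℕ, ∃ a : Fin (Module.finrank ℂ (XX β₁ s I₁ m₁ p₁)) → ν₁ → ℕ,
      (∀ k, ∑ x, a k x = s) ∧ ∀ Φ ∈ XX β₁ s I₁ m₁ p₁, (∀ k, Φ (mon ℂ (a k)) = 0) → Φ = 0 :=
    fun s => exists_piv β₁ s I₁ _ (XX_le_Lv _ _ _ _ _)
  choose a ha hpiv using hp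
  have hmem : ∀ Φ ∈ XX (Sum.elim β₁ β₂) D I (Sum.elim m₁ m₂)
      (Sum.elim (fun i => pL ν₂ (p₁ i)) fun i => pR ν₁ (p₂ i)), ∀ (s : Fin (D + 1))
      (k : Fin (Module.finrank ℂ (XX β₁ s I₁ m₁ p₁))),
      slR (a s k) Φ ∈ XX β₂ (D - s) I₂ m₂ p₂ := by
    intro Φ hΦ s k
    rw [mem_XX] at hΦ
    rw [mem_XX]
    refine ⟨slR_lv hI₂ h12 hΦ.1 (by rw [ha]; have := s.2; omega), fun i => ?_⟩
    exact slR_sat hI₂ h12 (hΦ.2 (Sum.inr i)) _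
  have hfin : ∀ s, Module.Finite ℂ (XX β₂ s I₂ m₂ p₂) := fun s => finite_XX _ _ _ _ _
  let G : XX (Sum.elim β₁ β₂) D I (Sum.elim m₁ m₂)
      (Sum.elim (fun i => pL ν₂ (p₁ i)) fun i => pR ν₁ (p₂ i)) →ₗ[ℂ]
        ((s : Fin (D + 1)) → Fin (Module.finrank ℂ (XX β₁ s I₁ m₁ p₁)) →
          XX β₂ (D - s) I₂ m₂ p₂) :=
    LinearMap.pi fun s => LinearMap.pi fun k =>
      LinearMap.codRestrict _ ((slR (a s k)) ∘ₗ Submodule.subtype _) fun Φ => hmem Φ.1 Φ.2 s k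
  have hG : Function.Injective G := by
    rw [← LinearMap.ker_eq_bot, LinearMap.ker_eq_bot']
    intro Φ hΦ
    apply Subtype.ext
    have h0 : ∀ (s : Fin (D + 1)) (k : Fin (Module.finrank ℂ (XX β₁ s I₁ m₁ p₁))),
        slR (a s k) Φ.1 = 0 := by
      intro s k
      exact congrArg Subtype.val (congrFun (congrFun hΦ s) k)
    have hX := mem_XX.1 Φ.2
    refine mon_ext fun g => ?_
    show Φ.1 (mon ℂ g) = 0
    by_cases hg : ∑ x, g x = D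
    · have hg' : ∑ x, g (Sum.inl x) + ∑ x, g (Sum.inr x) = D := by
        rw [← hg, Fintype.sum_sum_type]
      have e : g = Sum.elim (fun x => g (Sum.inl x)) fun x => g (Sum.inr x) := by
        funext x
        rcases x with x | x <;> rfl
      have h1 : slL (fun x => g (Sum.inr x)) Φ.1 ∈ XX β₁ (∑ x, g (Sum.inl x)) I₁ m₁ p₁ := by
        rw [mem_XX]
        exact ⟨slL_lv hI₁ h21 hX.1 hg', fun i => slL_sat hI₁ h21 (hX.2 (Sum.inl i)) _⟩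
      have h2 := hpiv _ _ h1 fun k => by
        have h4 : slR (a (∑ x, g (Sum.inl x)) k) Φ.1 = 0 :=
          h0 ⟨∑ x, g (Sum.inl x), by omega⟩ k
        rw [slL_mon, ← slR_mon, h4]
        rfl
      rw [e, ← slL_mon, h2]
      rfl
    · exact hX.1 g fun h1 => hg (mem_Ex.1 h1).1
  have h1 := LinearMap.finrank_le_finrank_of_injective hG
  refine h1.trans (le_of_eq ?_)
  rw [Module.finrank_pi_fintype, ← Fin.sum_univ_eq_sum_range (fun s =>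
    Module.finrank ℂ (XX β₁ s I₁ m₁ p₁) * Module.finrank ℂ (XX β₂ (D - s) I₂ m₂ p₂)) (D + 1)]
  refine sum_congr rfl fun s _ => ?_
  rw [Module.finrank_pi_fintype, sum_const, card_univ, Fintype.card_fin, smul_eq_mul]

/-- **Configurations which split.** -/
theorem HI_prod {D : ℕ} (hD : D ≤ d) (β₁ : ν₁ → ℕ) (β₂ : ν₂ → ℕ) {I₁ I₂ : Finset ℕ}
    (h12 : ∀ t, β₁ t ∉ I₂) (h21 : ∀ t, β₂ t ∉ I₁) (S₁ S₂ : Multiset Kd) :
    HI d D (Sum.elim β₁ β₂) (I₁ ∪ I₂) (S₁ + S₂) ≤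
      ∑ s ∈ range (D + 1), HI d s β₁ I₁ S₁ * HI d (D - s) β₂ I₂ S₂ := by
  obtain ⟨m₁, hm₁, -⟩ := exists_conf (LS d D β₁ I₁) S₁
  obtain ⟨m₂, hm₂, -⟩ := exists_conf (LS d D β₂ I₂) S₂
  obtain ⟨p₁, hp₁⟩ := (Gn.all (range (D + 1)) fun s hs =>
    gn_XX (d := d) (show s ≤ d by rw [mem_range] at hs; omega) β₁ I₁ m₁).exists
  obtain ⟨p₂, hp₂⟩ := (Gn.all (range (D + 1)) fun s hs =>
    gn_XX (d := d) (show s ≤ d by rw [mem_range] at hs; omega) β₂ I₂ m₂).exists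
  have h1 := HI_le hD (Sum.elim β₁ β₂) (I₁ ∪ I₂) (Sum.elim m₁ m₂)
    (Sum.elim (fun i => pL ν₂ (p₁ i)) fun i => pR ν₁ (p₂ i))
  rw [map_elim, hm₁, hm₂] at h1
  refine (h1.trans (finrank_le_prod β₁ β₂ subset_union_left subset_union_right h12 h21
    m₁ m₂ p₁ p₂)).trans (le_of_eq ?_)
  refine sum_congr rfl fun s hs => ?_
  rw [hp₁ s hs, hp₂ (D - s) (by rw [mem_range] at hs ⊢; omega), hm₁, hm₂]

/-- The second factor without blocks. -/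
theorem HI_prod_zero {D : ℕ} (hD : D ≤ d) (β₁ : ν₁ → ℕ) (β₂ : ν₂ → ℕ) {I : Finset ℕ}
    (hI : ∀ t, β₂ t ∉ I) (S₁ S₂ : Multiset Kd) :
    HI d D (Sum.elim β₁ β₂) I (S₁ + S₂) ≤
      ∑ s ∈ range (D + 1), HI d s β₁ I S₁ * HI d (D - s) β₂ ∅ S₂ := by
  have h := HI_prod hD β₁ β₂ (I₁ := I) (I₂ := ∅) (fun t => notMem_empty _) hI S₁ S₂
  rwa [union_empty] at h

/-- The standard blocks: `n₂` of the variables off the blocks `0, …, J - 1` are split off. -/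
theorem HI_prod_blk {D J : ℕ} (hD : D ≤ d) {c : ℕ → ℕ} (hc : ∀ i < J, 1 ≤ c i) {n₁ n₂ : ℕ}
    (hn : ∑ i ∈ range J, c i ≤ n₁) {I : Finset ℕ} (hI : I ⊆ range J) (S0 SW : Multiset Kd)
    (h0 : ∀ k ∈ S0, k.Blk J) (hW : ∀ k ∈ SW, k.Blk J) :
    HI d D (blk c (n₁ + n₂)) I (S0 + SW) ≤
      ∑ s ∈ range (D + 1), HI d s (blk c n₁) I S0 * HI d (D - s) (fun _ : Fin n₂ => J) ∅ SW := by
  have h1 : HI d D (blk c (n₁ + n₂)) I (S0 + SW) =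
      HI d D (Sum.elim (blk c n₁) fun _ : Fin n₂ => J) I (S0 + SW) := by
    refine HI_size hD (by simp) (fun i hi => ?_) hI _ fun k hk => ?_
    · have hle : ∑ k ∈ range (i + 1), c k ≤ ∑ k ∈ range J, c k :=
        sum_le_sum_of_subset (range_mono hi)
      rw [card_blk (fun k hk => hc k (by omega)) (by omega)]
      have e : (univ.filter fun s : Fin n₁ ⊕ Fin n₂ =>
          Sum.elim (blk c n₁) (fun _ : Fin n₂ => J) s = i) =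
          (univ.filter fun s : Fin n₁ => blk c n₁ s = i).map Function.Embedding.inl := by
        ext s
        rw [mem_filter, mem_map]
        constructor
        · rintro ⟨-, h⟩
          rcases s with s | s
          · exact ⟨s, mem_filter.2 ⟨mem_univ _, h⟩, rfl⟩
          · exact absurd (show J = i from h) (by omega)
        · rintro ⟨t, ht, rfl⟩
          exact ⟨mem_univ _, (mem_filter.1 ht).2⟩
      rw [e, card_map, card_blk (fun k hk => hc k (by omega)) (by omega)]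
    · rcases Multiset.mem_add.1 hk with h | h
      · exact h0 k h
      · exact hW k h
  rw [h1]
  exact HI_prod_zero hD _ _ (fun _ h => absurd (mem_range.1 (hI h)) (lt_irrefl J)) S0 SW

end

end Pool.Agent.GD.AL
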