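import Pool.Agent.GD.AL.VdP

/-!
# General d, ALPHA: the virtual dimension of a product, two factors with blocks

`vd D (I₁ ∪ I₂) c (n₁ + n₂) (S₁ + S₂) = ∑_s vd s I₁ c n₁ S₁ * vd (D - s) I₂ c n₂ S₂` if the objects of `S₁` do
not see the blocks of `I₂` and conversely.  `vd_abs_le`: a bound for ordinary points.
-/

set_option autoImplicit false

namespace Pool.Agent.GD.AL

open Finset

/-- The factors of the object do not depend on the blocks of `I₂`. -/
def Off (I₁ I₂ : Finset ℕ) (k : Kd) : Prop :=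
  ∀ I₁' ⊆ I₁, ∀ I₂' ⊆ I₂, k.P (I₁' ∪ I₂') = k.P I₁'

theorem off_ord {I₁ I₂ A : Finset ℕ} (x : ℕ) (h : I₂ ⊆ A) : Off I₁ I₂ (.ord x A) := by
  intro I₁' _ I₂' h2
  have h3 : I₁' ∪ I₂' ⊆ A ↔ I₁' ⊆ A :=
    ⟨fun h4 => subset_union_left.trans h4, fun h4 => union_subset h4 (h2.trans h)⟩
  show (if I₁' ∪ I₂' ⊆ A then _ else _) = (if I₁' ⊆ A then _ else _)
  by_cases h4 : I₁' ⊆ A
  · rw [if_pos h4, if_pos (h3.2 h4)]
  · rw [if_neg h4, if_neg fun h5 => h4 (h3.1 h5)]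

theorem off_cl {I₁ I₂ : Finset ℕ} (e dl i : ℕ) {As : List (Finset ℕ)} (hi : i ∉ I₂)
    (h0 : As ≠ []) (h : ∀ A ∈ As, I₂ ⊆ A) : Off I₁ I₂ (.cl e dl i As) := by
  intro I₁' _ I₂' h2
  have h4 : i ∈ I₁' ∪ I₂' ↔ i ∈ I₁' := by
    rw [mem_union]
    exact ⟨fun h5 => h5.resolve_right fun h6 => hi (h2 h6), Or.inl⟩
  have h5 : (I₁' ∪ I₂').erase i ⊆ inter As ↔ I₁'.erase i ⊆ inter As := by
    constructor
    · exact fun h6 => (erase_subset_erase i subset_union_left).trans h6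
    · intro h6 y hy
      obtain ⟨hy1, hy2⟩ := mem_erase.1 hy
      rcases mem_union.1 hy2 with hy3 | hy3
      · exact h6 (mem_erase.2 ⟨hy1, hy3⟩)
      · unfold inter
        obtain ⟨B, Bs, rfl⟩ := List.exists_cons_of_ne_nil h0
        rw [mem_filter]
        exact ⟨h B List.mem_cons_self (h2 hy3), fun A hA => h A hA (h2 hy3)⟩
  have h6 : ∀ A ∈ As, (I₁' ∪ I₂' ⊆ A ↔ I₁' ⊆ A) := fun A hA =>
    ⟨fun h7 => subset_union_left.trans h7, fun h7 => union_subset h7 (h2.trans (h A hA))⟩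
  show (if i ∈ I₁' ∪ I₂' then _ else _) = (if i ∈ I₁' then _ else _)
  by_cases h7 : i ∈ I₁'
  · rw [if_pos h7, if_pos (h4.2 h7)]
    by_cases h8 : I₁'.erase i ⊆ inter As
    · rw [if_pos h8, if_pos (h5.2 h8)]
    · rw [if_neg h8, if_neg fun h9 => h8 (h5.1 h9)]
  · rw [if_neg h7, if_neg fun h8 => h7 (h4.1 h8)]
    congr 1
    refine List.map_congr_left fun A hA => ?_
    by_cases h8 : I₁' ⊆ A
    · rw [if_pos h8, if_pos ((h6 A hA).2 h8)]
    · rw [if_neg h8, if_neg fun h9 => h8 ((h6 A hA).1 h9)]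

/-- The virtual dimension of a product. -/
theorem vd_prod2 (D : ℕ) {I₁ I₂ : Finset ℕ} (hd : Disjoint I₁ I₂) {c : ℕ → ℕ} {n₁ n₂ : ℕ}
    (h1 : ∑ i ∈ I₁, c i ≤ n₁) (h2 : ∑ i ∈ I₂, c i ≤ n₂) (S₁ S₂ : Multiset Kd)
    (hS1 : ∀ k ∈ S₁, Off I₁ I₂ k) (hS2 : ∀ k ∈ S₂, Off I₂ I₁ k) :
    vd D (I₁ ∪ I₂) c (n₁ + n₂) (S₁ + S₂) =
      ∑ s ∈ range (D + 1), vd s I₁ c n₁ S₁ * vd (D - s) I₂ c n₂ S₂ := by
  classical
  have key : ∀ s t : ℕ, vd s I₁ c n₁ S₁ * vd t I₂ c n₂ S₂ =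
      ∑ p ∈ I₁.powerset ×ˢ I₂.powerset, (-1) ^ p.1.card * (-1) ^ p.2.card *
        (PowerSeries.coeff s ((S₁.map (Kd.P p.1)).prod * hs (n₁ - ∑ i ∈ p.1, c i)) *
          PowerSeries.coeff t ((S₂.map (Kd.P p.2)).prod * hs (n₂ - ∑ i ∈ p.2, c i))) := by
    intro s t
    unfold vd
    rw [sum_mul_sum, ← sum_product']
    refine sum_congr rfl fun p _ => ?_
    ring
  simp only [key]
  rw [sum_comm]
  unfold vd
  symm
  refine sum_nbij' (fun p => p.1 ∪ p.2) (fun K => (K ∩ I₁, K ∩ I₂)) ?_ ?_ ?_ ?_ ?_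
  · intro p hp
    obtain ⟨hp1, hp2⟩ := mem_product.1 hp
    exact mem_powerset.2 (union_subset_union (mem_powerset.1 hp1) (mem_powerset.1 hp2))
  · intro K _
    exact mem_product.2 ⟨mem_powerset.2 inter_subset_right, mem_powerset.2 inter_subset_right⟩
  · intro p hp
    obtain ⟨hp1, hp2⟩ := mem_product.1 hp
    have hp1' := mem_powerset.1 hp1
    have hp2' := mem_powerset.1 hp2
    have e1 : (p.1 ∪ p.2) ∩ I₁ = p.1 := by
      ext x
      rw [mem_inter, mem_union]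
      constructor
      · rintro ⟨h3 | h3, h4⟩
        · exact h3
        · exact absurd (hp2' h3) (disjoint_left.1 hd h4)
      · exact fun h3 => ⟨Or.inl h3, hp1' h3⟩
    have e2 : (p.1 ∪ p.2) ∩ I₂ = p.2 := by
      ext x
      rw [mem_inter, mem_union]
      constructor
      · rintro ⟨h3 | h3, h4⟩
        · exact absurd h4 (disjoint_left.1 hd (hp1' h3))
        · exact h3
      · exact fun h3 => ⟨Or.inr h3, hp2' h3⟩
    exact Prod.ext e1 e2
  · intro K hK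
    have hK' := mem_powerset.1 hK
    show K ∩ I₁ ∪ K ∩ I₂ = K
    rw [← inter_union_distrib_left, inter_eq_left.2 hK']
  · intro p hp
    obtain ⟨hp1, hp2⟩ := mem_product.1 hp
    have hp1' := mem_powerset.1 hp1
    have hp2' := mem_powerset.1 hp2
    have hdis : Disjoint p.1 p.2 := disjoint_of_subset_left hp1' (disjoint_of_subset_right hp2' hd)
    have hs1 : ∑ i ∈ p.1, c i ≤ n₁ := (sum_le_sum_of_subset hp1').trans h1
    have hs2 : ∑ i ∈ p.2, c i ≤ n₂ := (sum_le_sum_of_subset hp2').trans h2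
    have e1 : (S₁.map (Kd.P (p.1 ∪ p.2))).prod = (S₁.map (Kd.P p.1)).prod := by
      congr 1
      exact Multiset.map_congr rfl fun k hk => hS1 k hk p.1 hp1' p.2 hp2'
    have e2 : (S₂.map (Kd.P (p.1 ∪ p.2))).prod = (S₂.map (Kd.P p.2)).prod := by
      congr 1
      refine Multiset.map_congr rfl fun k hk => ?_
      rw [union_comm]
      exact hS2 k hk p.2 hp2' p.1 hp1'
    have e3 : n₁ + n₂ - ∑ i ∈ p.1 ∪ p.2, c i =
        (n₁ - ∑ i ∈ p.1, c i) + (n₂ - ∑ i ∈ p.2, c i) := by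
      rw [sum_union hdis]
      omega
    rw [Multiset.map_add, Multiset.prod_add, e1, e2, e3, card_union_of_disjoint hdis, pow_add,
      hs_add]
    have e4 : (S₁.map (Kd.P p.1)).prod * (S₂.map (Kd.P p.2)).prod *
        (hs (n₁ - ∑ i ∈ p.1, c i) * hs (n₂ - ∑ i ∈ p.2, c i)) =
        ((S₁.map (Kd.P p.1)).prod * hs (n₁ - ∑ i ∈ p.1, c i)) *
          ((S₂.map (Kd.P p.2)).prod * hs (n₂ - ∑ i ∈ p.2, c i)) := by ring
    rw [e4, PowerSeries.coeff_mul, Nat.sum_antidiagonal_eq_sum_range_succ_mk, mul_sum]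

/-- The same for configurations of ordinary points. -/
theorem vd_prod2_ord (D : ℕ) {I₁ I₂ : Finset ℕ} (hd : Disjoint I₁ I₂) {c : ℕ → ℕ} {n₁ n₂ : ℕ}
    (h1 : ∑ i ∈ I₁, c i ≤ n₁) (h2 : ∑ i ∈ I₂, c i ≤ n₂) (S₁ S₂ : Multiset Kd)
    (hS1 : ∀ k ∈ S₁, ∃ x A, k = .ord x A ∧ I₂ ⊆ A)
    (hS2 : ∀ k ∈ S₂, ∃ x A, k = .ord x A ∧ I₁ ⊆ A) :
    vd D (I₁ ∪ I₂) c (n₁ + n₂) (S₁ + S₂) =
      ∑ s ∈ range (D + 1), vd s I₁ c n₁ S₁ * vd (D - s) I₂ c n₂ S₂ := by
  refine vd_prod2 D hd h1 h2 S₁ S₂ (fun k hk => ?_) fun k hk => ?_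
  · obtain ⟨x, A, rfl, hA⟩ := hS1 k hk
    exact off_ord x hA
  · obtain ⟨x, A, rfl, hA⟩ := hS2 k hk
    exact off_ord x hA

/-! ### A bound for all configurations of ordinary points -/

/-- The coefficients of `F` are bounded by those of `G`. -/
private def Dm (F G : PowerSeries ℤ) : Prop :=
  ∀ k, |PowerSeries.coeff k F| ≤ PowerSeries.coeff k G

private theorem Dm.mul {F G F' G' : PowerSeries ℤ} (h : Dm F G) (h' : Dm F' G') :
    Dm (F * F') (G * G') := by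
  intro k
  rw [PowerSeries.coeff_mul, PowerSeries.coeff_mul]
  refine (abs_sum_le_sum_abs _ _).trans (sum_le_sum fun p _ => ?_)
  rw [abs_mul]
  exact mul_le_mul (h _) (h' _) (abs_nonneg _) ((abs_nonneg _).trans (h _))

private theorem coeff_hs (N k : ℕ) : PowerSeries.coeff k (hs N) = (N.multichoose k : ℤ) := by
  unfold hs
  rw [PowerSeries.coeff_mk]

private theorem Dm.ord (x : ℕ) (A I' : Finset ℕ) : Dm (Kd.P I' (.ord x A)) (hs 1) := by
  intro k
  rw [coeff_hs, Nat.multichoose_one]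
  show |PowerSeries.coeff k (if I' ⊆ A then 1 - PowerSeries.X ^ x else 1)| ≤ _
  split_ifs with h
  · rw [map_sub, PowerSeries.coeff_one, PowerSeries.coeff_X_pow]
    split_ifs <;> norm_num
  · rw [PowerSeries.coeff_one]
    split_ifs <;> norm_num

private theorem Dm.ms (I' : Finset ℕ) (ms : Multiset Kd) (hm : ∀ k ∈ ms, ∃ x A, k = Kd.ord x A) :
    Dm (ms.map (Kd.P I')).prod (hs (Multiset.card ms)) := by
  induction ms using Multiset.induction_on with
  | empty =>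
    intro k
    rw [Multiset.map_zero, Multiset.prod_zero, Multiset.card_zero, coeff_hs,
      PowerSeries.coeff_one]
    split_ifs with h
    · subst h
      simp
    · rw [abs_zero]
      exact Nat.cast_nonneg _
  | cons k ms ih =>
    obtain ⟨x, A, rfl⟩ := hm k (Multiset.mem_cons_self k ms)
    rw [Multiset.map_cons, Multiset.prod_cons, Multiset.card_cons, Nat.add_comm, hs_add]
    exact (Dm.ord x A I').mul (ih fun k' hk' => hm k' (Multiset.mem_cons_of_mem hk'))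

/-- The virtual dimension is at most polynomial in the number of the objects and of the variables. -/
theorem vd_abs_le (D : ℕ) (I : Finset ℕ) (c : ℕ → ℕ) (n : ℕ) (ms : Multiset Kd)
    (hm : ∀ k ∈ ms, ∃ x A, k = Kd.ord x A) :
    |vd D I c n ms| ≤ 2 ^ I.card * ((Multiset.card ms : ℤ) + n) ^ D := by
  unfold vd
  refine (abs_sum_le_sum_abs _ _).trans ?_
  have h1 : ∀ I' ∈ I.powerset, |(-1 : ℤ) ^ I'.card *
      PowerSeries.coeff D ((ms.map (Kd.P I')).prod * hs (n - ∑ i ∈ I', c i))| ≤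
        ((Multiset.card ms : ℤ) + n) ^ D := by
    intro I' _
    rw [abs_mul, abs_pow, abs_neg, abs_one, one_pow, one_mul]
    have h2 : Dm (hs (n - ∑ i ∈ I', c i)) (hs (n - ∑ i ∈ I', c i)) := fun k => by
      rw [coeff_hs, Nat.abs_cast]
    refine ((Dm.ms I' ms hm).mul h2 D).trans ?_
    rw [← hs_add, coeff_hs]
    have h3 : (Multiset.card ms + (n - ∑ i ∈ I', c i)).multichoose D ≤
        (Multiset.card ms + n) ^ D :=
      (multichoose_le_pow _ _).trans (Nat.pow_le_pow_left (by omega) D)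
    exact_mod_cast h3
  refine (sum_le_card_nsmul _ _ _ h1).trans (le_of_eq ?_)
  rw [card_powerset, nsmul_eq_mul]
  push_cast
  ring

end Pool.Agent.GD.AL
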