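import Pool.Agent.GD.AL.St
import Pool.Agent.GD.AL.Prod
import Pool.Agent.GD.AL.VdP2

/-!
# General d, ALPHA, finite systems: a point of the variables `W`

`dl_wpt`: one more point of the kind `ord x (range J)`, `x ≥ 1`, is compared with one variable of `W` less in all
degrees: `HI_prod` with `ν₂` = one variable of `W`.
-/

set_option autoImplicit false

namespace Pool.Agent.GD.AL

open Finset MvPolynomial Pool.Agent.H51.TB Pool.Agent.H54.V7 Pool.Agent.V7.ST
open Pool.Agent.V7 (msk)

section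

private theorem lf_one : lf (fun _ : Fin 1 => (1 : ℂ)) = X 0 := by
  unfold lf
  rw [Fin.sum_univ_one, C_1, one_mul]

private theorem mon_one (b : Fin 1 → ℕ) : mon ℂ b = (X 0 : MvPolynomial (Fin 1) ℂ) ^ b 0 := by
  unfold mon
  rw [Fin.prod_univ_one]

/-- One variable: the forms of degree `r`. -/
private theorem one_var {d r J : ℕ} (hr : r ≤ d) (x : ℕ) :
    HI d r (fun _ : Fin 1 => J) ∅ {.ord x (range J)} ≤ if r < x then 1 else 0 := by
  have h1 := HI_le hr (fun _ : Fin 1 => J) ∅ (fun _ : Unit => Kd.ord x (range J))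
    (fun _ _ => (1 : ℂ))
  have e : ((univ : Finset Unit).val.map fun _ : Unit => Kd.ord x (range J)) =
      {Kd.ord x (range J)} := rfl
  rw [e] at h1
  refine h1.trans ?_
  have hz : ∀ Φ : Dl (Fin 1), Φ ∈ Lv (fun _ : Fin 1 => J) r ∅ → Φ (mon ℂ fun _ => r) = 0 →
      Φ = 0 := by
    intro Φ hΦ h0
    refine mon_ext fun b => ?_
    show Φ (mon ℂ b) = 0
    by_cases hb : b = fun _ => r
    · rw [hb, h0]
    · refine hΦ b fun h2 => hb ?_
      have h3 := (mem_Ex.1 h2).1
      rw [Fin.sum_univ_one] at h3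
      funext s
      rw [Subsingleton.elim s 0, h3]
  split_ifs with h
  · let T : XX (fun _ : Fin 1 => J) r ∅ (fun _ : Unit => Kd.ord x (range J))
        (fun _ (_ : Fin 1 × Fin (d + 1)) => (1 : ℂ)) →ₗ[ℂ] ℂ :=
      { toFun := fun Φ => Φ.1 (mon ℂ fun _ => r)
        map_add' := fun _ _ => rfl
        map_smul' := fun _ _ => rfl }
    have hT : Function.Injective T := by
      rw [← LinearMap.ker_eq_bot, LinearMap.ker_eq_bot']
      intro Φ hΦ
      exact Subtype.ext (hz Φ.1 (mem_XX.1 Φ.2).1 hΦ)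
    have h2 := LinearMap.finrank_le_finrank_of_injective hT
    rwa [Module.finrank_self] at h2
  · have h2 : XX (fun _ : Fin 1 => J) r ∅ (fun _ : Unit => Kd.ord x (range J))
        (fun _ (_ : Fin 1 × Fin (d + 1)) => (1 : ℂ)) = ⊥ := by
      rw [eq_bot_iff]
      intro Φ hΦ
      obtain ⟨h3, h4⟩ := mem_XX.1 hΦ
      have h5 := sat_ord.1 (h4 ())
      have h6 : opt (fun _ : Fin 1 => J) (range J) (fun _ : Fin 1 × Fin (d + 1) => (1 : ℂ)) =
          fun _ => (1 : ℂ) := by
        funext s
        show (if J ∈ range J then (0 : ℂ) else 1) = 1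
        rw [if_neg notMem_range_self]
      rw [h6, lf_one] at h5
      rw [Submodule.mem_bot]
      refine hz Φ h3 ?_
      have h7 : (mon ℂ fun _ : Fin 1 => r) = X 0 ^ x * (X 0 : MvPolynomial (Fin 1) ℂ) ^ (r - x) := by
        rw [mon_one, ← pow_add]
        congr 1
        omega
      rw [h7, ← ct_apply, h5]
      rfl
    rw [h2, finrank_bot]

private theorem vd_one_var (r x : ℕ) (A : Finset ℕ) (c : ℕ → ℕ) :
    vd r ∅ c 1 {.ord x A} = if r < x then 1 else 0 := by
  rw [vd_nil, Multiset.map_singleton, Multiset.prod_singleton]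
  have h1 : Kd.P ∅ (.ord x A) = 1 - PowerSeries.X ^ x := by
    show (if ∅ ⊆ A then 1 - PowerSeries.X ^ x else (1 : PowerSeries ℤ)) = _
    rw [if_pos (empty_subset A)]
  have h2 : ∀ k : ℕ, PowerSeries.coeff k (hs 1) = 1 := by
    intro k
    unfold hs
    rw [PowerSeries.coeff_mk, Nat.multichoose_one]
    rfl
  rw [h1, sub_mul, one_mul, map_sub, PowerSeries.coeff_X_pow_mul', h2]
  by_cases h : r < x
  · rw [if_pos h, if_neg (by omega), sub_zero]
  · rw [if_neg h, if_pos (by omega), h2, sub_self]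

theorem dl_wpt {d J D : ℕ} {σ : St} {I : Finset ℕ} (hD : D ≤ d) (hI : I ⊆ range J)
    (hm : ∀ k ∈ σ.ms, AdmO d J k) (hw : 1 ≤ σ.w) {x : ℕ} (_hx : 1 ≤ x)
    (h : ∀ s ≤ D, (σ.lw 1).dl d J I s ≤ 0) : (σ.ad (.ord x (range J))).dl d J I D ≤ 0 := by
  classical
  have hwe : σ.w = (σ.w - 1) + 1 := by omega
  -- the general dimension
  let β : Vr J σ.c (σ.w - 1) ⊕ Fin 1 → ℕ := Sum.elim (bt J σ.c (σ.w - 1)) fun _ => J
  have e1 : HI d D β I (σ.ad (.ord x (range J))).ms =
      (σ.ad (.ord x (range J))).H d J I D := by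
    refine St.H_eq hD β (σ.ad (.ord x (range J))) ?_ (fun i hi => ?_) hI fun k hk => ?_
    · rw [Fintype.card_sum, card_Vr, Fintype.card_fin]
      show _ = ∑ l ∈ range J, σ.c l + σ.w
      omega
    · have h2 : (univ.filter fun s => β s = i) =
          (univ.filter fun s : Vr J σ.c (σ.w - 1) => bt J σ.c (σ.w - 1) s = i).map
            Function.Embedding.inl := by
        ext s
        rw [mem_filter, mem_map]
        constructor
        · rintro ⟨-, hs⟩
          rcases s with s | s
          · exact ⟨s, mem_filter.2 ⟨mem_univ _, hs⟩, rfl⟩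
          · exact absurd (show J = i from hs) (by omega)
        · rintro ⟨t, ht, rfl⟩
          exact ⟨mem_univ _, (mem_filter.1 ht).2⟩
      rw [h2, card_map, card_bt _ _ hi]
      rfl
    · rcases Multiset.mem_cons.1 hk with rfl | hk
      · exact subset_rfl
      · exact ok_blk (hm k hk).ok
  have e2 := HI_prod_zero hD (bt J σ.c (σ.w - 1)) (fun _ : Fin 1 => J) (I := I)
    (fun _ h' => absurd (mem_range.1 (hI h')) (lt_irrefl J)) σ.ms {.ord x (range J)}
  have e3 : (σ.ad (.ord x (range J))).ms = σ.ms + {.ord x (range J)} := by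
    rw [Multiset.add_comm, Multiset.singleton_add]
    rfl
  have e4 : ((σ.ad (.ord x (range J))).H d J I D : ℤ) ≤
      ∑ s ∈ range (D + 1), ((σ.lw 1).H d J I s : ℤ) * (if D - s < x then 1 else 0) := by
    rw [← e1, e3]
    have e5 : (HI d D β I (σ.ms + {.ord x (range J)}) : ℤ) ≤
        ((∑ s ∈ range (D + 1), HI d s (bt J σ.c (σ.w - 1)) I σ.ms *
          HI d (D - s) (fun _ : Fin 1 => J) ∅ {.ord x (range J)} : ℕ) : ℤ) := by
      exact_mod_cast e2
    refine e5.trans ?_
    push_cast
    refine sum_le_sum fun s hs => ?_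
    have e6 : ((HI d (D - s) (fun _ : Fin 1 => J) ∅ {.ord x (range J)} : ℕ) : ℤ) ≤
        if D - s < x then 1 else 0 := by
      have e7 := one_var (J := J) (show D - s ≤ d by omega) x
      split_ifs with h8
      · rw [if_pos h8] at e7
        exact_mod_cast e7
      · rw [if_neg h8] at e7
        exact_mod_cast e7
    exact mul_le_mul_of_nonneg_left e6 (Nat.cast_nonneg _)
  -- the virtual dimension
  have hsum : ∑ i ∈ I, σ.c i ≤ ∑ l ∈ range J, σ.c l := sum_le_sum_of_subset hI
  have v1 : (σ.ad (.ord x (range J))).V J I D =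
      ∑ s ∈ range (D + 1), (σ.lw 1).V J I s * (if D - s < x then 1 else 0) := by
    have v2 := vd_prod D (I := I) (c := σ.c) (n₁ := ∑ l ∈ range J, σ.c l + (σ.w - 1)) 1
      (by omega) σ.ms {.ord x (range J)} fun k hk => by
        rw [Multiset.mem_singleton] at hk
        exact ⟨x, range J, hk, hI⟩
    unfold St.V
    rw [e3]
    have v3 : (σ.ad (.ord x (range J))).n J = ∑ l ∈ range J, σ.c l + (σ.w - 1) + 1 := by
      show ∑ l ∈ range J, σ.c l + σ.w = _
      omega
    rw [v3]
    refine v2.trans (sum_congr rfl fun s _ => ?_)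
    rw [vd_one_var]
    rfl
  unfold St.dl
  rw [v1]
  have h9 : ∑ s ∈ range (D + 1), ((σ.lw 1).H d J I s : ℤ) * (if D - s < x then 1 else 0) ≤
      ∑ s ∈ range (D + 1), (σ.lw 1).V J I s * (if D - s < x then 1 else 0) := by
    refine sum_le_sum fun s hs => ?_
    have h10 := h s (by rw [mem_range] at hs; omega)
    unfold St.dl at h10
    split_ifs
    · rw [mul_one, mul_one]
      linarith
    · rw [mul_zero, mul_zero]
  linarith

end

end Pool.Agent.GD.AL
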