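import Pool.Agent.GD.AL.Bas

/-!
# General d, ALPHA: monotony, lower bound, numbers
-/

set_option autoImplicit false

namespace Pool.Agent.GD.AL

open Finset

section Reg

variable {d J D : ℕ} {σ : St} {I : Finset ℕ} {c0 : ℕ → ℕ} {n0 : ℕ} {η : ℝ}

private theorem nz_nonneg (c0 : ℕ → ℕ) (n0 : ℕ) (I : Finset ℕ) (D : ℕ) : 0 ≤ nz c0 n0 I D := by
  unfold nz
  positivity

/-- the complement of `I' ∩ A` -/
private theorem card_cut {I I' A : Finset ℕ} {J x : ℕ} (hI : I ⊆ range J) (_ : I' ⊆ I)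
    (hA : (range J \ A).card ≤ x) : (I \ (I' ∩ A)).card ≤ (I \ I').card + x := by
  have h1 : I \ (I' ∩ A) ⊆ (I \ I') ∪ (range J \ A) := by
    intro y hy
    rw [mem_sdiff] at hy
    rw [mem_union, mem_sdiff, mem_sdiff]
    by_cases h : y ∈ I'
    · exact Or.inr ⟨hI hy.1, fun hyA => hy.2 (Finset.mem_inter.2 ⟨h, hyA⟩)⟩
    · exact Or.inl ⟨hy.1, h⟩
  have h2 := (card_le_card h1).trans (card_union_le _ _)
  omega

private theorem wm_ad (σ : St) (T : Multiset Kd) (k : Kd) : σ.wm (k ::ₘ T) = (σ.wm T).ad k := rfl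

private theorem wm_self (σ : St) : σ.wm σ.ms = σ := rfl

/-- induction on the sub-multisets -/
private theorem ind_le {P : Multiset Kd → Prop} (M : Multiset Kd) (S : Multiset Kd) (hS : S ≤ M)
    (h0 : P S) (hs : ∀ k T, k ::ₘ T ≤ M → P T → P (k ::ₘ T)) : P M := by
  obtain ⟨U, rfl⟩ := Multiset.le_iff_exists_add.1 hS
  clear hS
  have key : ∀ U' ≤ U, P (S + U') := by
    intro U'
    induction U' using Multiset.induction_on with
    | empty =>
      intro _
      rwa [add_zero]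
    | cons k T ih =>
      intro hU
      have h1 : T ≤ U := (Multiset.le_cons_self T k).trans hU
      have h2 : S + k ::ₘ T = k ::ₘ (S + T) := by
        rw [Multiset.add_cons]
      rw [h2]
      refine hs k (S + T) ?_ (ih h1)
      rw [← h2]
      exact add_le_add_right hU S
  exact key U le_rfl

/-- Fewer objects: the virtual dimensions are larger. -/
theorem V_sub (hI : I ⊆ range J) (hm : ∀ k ∈ σ.ms, AdmO d J k) (hη : 0 ≤ η)
    (hp : PosL J c0 n0 η σ I D) {S : Multiset Kd} (hS : S ≤ σ.ms) :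
    ∀ I' ⊆ I, ∀ D' : ℕ, D' + (I \ I').card ≤ D → σ.V J I' D' ≤ (σ.wm S).V J I' D' := by
  have key : ∀ D' : ℕ, ∀ S ≤ σ.ms, ∀ I' ⊆ I, D' + (I \ I').card ≤ D →
      σ.V J I' D' ≤ (σ.wm S).V J I' D' := by
    intro D'
    induction D' using Nat.strong_induction_on with
    | _ D' ih =>
      intro S hS I' hI' hD'
      refine ind_le (P := fun M => (σ.wm M).V J I' D' ≤ (σ.wm S).V J I' D') σ.ms S hS le_rfl ?_
      intro k T hT hPT
      refine le_trans ?_ hPT
      obtain ⟨x, A, rfl, hx1, hxd, hAJ, hAx⟩ := hm k (Multiset.mem_of_le hT (Multiset.mem_cons_self k T))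
      have hTσ : T ≤ σ.ms := (Multiset.le_cons_self T _).trans hT
      rw [wm_ad]
      by_cases hx : x ≤ D'
      · rw [St.V_ord A hx]
        have hcut := card_cut hI hI' hAx
        have hnn : 0 ≤ (σ.wm T).V J (I' ∩ A) (D' - x) := by
          by_cases hlow : D' - x < (I' ∩ A).card
          · rw [St.V_low (d := d) (inter_subset_left.trans (hI'.trans hI))
              (fun k hk => hm k (Multiset.mem_of_le hTσ hk)) hlow]
          · have h1 := ih (D' - x) (by omega) T hTσ (I' ∩ A) (inter_subset_left.trans hI') (by omega)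
            have h2 := hp (I' ∩ A) (inter_subset_left.trans hI') (D' - x) (by omega) (by omega)
              (by omega)
            have h3 : (0 : ℝ) ≤ (σ.V J (I' ∩ A) (D' - x) : ℝ) :=
              le_trans (mul_nonneg hη (nz_nonneg _ _ _ _)) h2
            have h4 : 0 ≤ σ.V J (I' ∩ A) (D' - x) := by exact_mod_cast h3
            exact h4.trans h1
        linarith
      · rw [St.V_ord_lt A (by omega)]
  intro I' hI' D' hD'
  exact key D' S hS I' hI' hD'

/-- The lower bound `V ≤ H`. -/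
theorem lbO (hD : D ≤ d) (hI : I ⊆ range J) (hm : ∀ k ∈ σ.ms, AdmO d J k)
    (hex : ∀ S ≤ σ.ms, ∀ I' ⊆ I, ∀ D' < D, D' + (I \ I').card ≤ D → (σ.wm S).dl d J I' D' ≤ 0) :
    σ.V J I D ≤ σ.H d J I D := by
  have h0 : 0 ≤ (σ.wm σ.ms).dl d J I D := by
    refine ind_le (P := fun M => 0 ≤ (σ.wm M).dl d J I D) σ.ms 0 (Multiset.zero_le _) ?_ ?_
    · have h1 : (σ.wm 0).Ex d J I D := St.Ex_nil hD hI rfl
      have h2 : ((σ.wm 0).H d J I D : ℤ) = (σ.wm 0).V J I D := h1
      show 0 ≤ ((σ.wm 0).H d J I D : ℤ) - (σ.wm 0).V J I D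
      omega
    · intro k T hT hPT
      obtain ⟨x, A, rfl, hx1, hxd, hAJ, hAx⟩ :=
        hm k (Multiset.mem_of_le hT (Multiset.mem_cons_self k T))
      have hTσ : T ≤ σ.ms := (Multiset.le_cons_self T _).trans hT
      rw [wm_ad]
      by_cases hx : x ≤ D
      · have h1 := St.dl_fact4 (σ := σ.wm T) (J := J) (I := I) hD A hx
        have hcut := card_cut hI (subset_refl I) hAx
        rw [Finset.sdiff_self, card_empty] at hcut
        have h2 := hex T hTσ (I ∩ A) inter_subset_left (D - x) (by omega) (by omega)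
        linarith
      · obtain ⟨h1, h2⟩ := St.dl_drop (σ := σ.wm T) hD hI
          (fun k hk => hm k (Multiset.mem_of_le hTσ hk)) (x := x) A (Or.inl (by omega))
        have h3 : ((σ.wm T).ad (.ord x A)).dl d J I D = (σ.wm T).dl d J I D := by
          show (((σ.wm T).ad (.ord x A)).H d J I D : ℤ) - ((σ.wm T).ad (.ord x A)).V J I D = _
          rw [h1, h2]
          rfl
        rw [h3]
        exact hPT
  rw [wm_self] at h0
  have h1 : 0 ≤ (σ.H d J I D : ℤ) - σ.V J I D := h0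
  omega

private theorem InO.wm {ϖ : ℝ} (ho : InO d J c0 n0 ϖ I σ) {S : Multiset Kd} (hS : S ≤ σ.ms) :
    InO d J c0 n0 ϖ I (σ.wm S) where
  c := ho.c
  c' := ho.c'
  n := ho.n
  w := ho.w
  adm k hk := ho.adm k (Multiset.mem_of_le hS hk)

/-- The lower bound from the oracle. -/
theorem lb_orc {G : Multiset Kd → Prop} {ϖ : ℝ} (hD : D ≤ d) (hI : I ⊆ range J)
    (ho : InO d J c0 n0 ϖ I σ) (hG : ∀ S ≤ σ.ms, G S) (hη : 0 ≤ η)
    (hp : PosL J c0 n0 η σ I D) (orc : Orc d J c0 n0 G I D η ϖ) :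
    σ.V J I D ≤ σ.H d J I D ∧ ExL d J σ I D := by
  have key : ∀ S ≤ σ.ms, ∀ I' ⊆ I, ∀ D' < D, D' + (I \ I').card ≤ D →
      (σ.wm S).Ex d J I' D' := by
    intro S hS I' hI' D' hD' hDI
    refine orc (σ.wm S) (InO.wm ho hS) (hG S hS) I' hI' D' hD' ?_
    intro I'' hI'' D'' h1 h2
    have h3 : (I \ I'').card ≤ (I \ I').card + (I' \ I'').card := by
      have h4 : I \ I'' ⊆ (I \ I') ∪ (I' \ I'') := by
        intro y hy
        simp only [mem_sdiff, mem_union] at hy ⊢
        by_cases h : y ∈ I'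
        · exact Or.inr ⟨h, hy.2⟩
        · exact Or.inl ⟨hy.1, h⟩
      exact (card_le_card h4).trans (card_union_le _ _)
    have h5 := hp I'' (hI''.trans hI') D'' h1 (by omega) (by omega)
    have h6 := V_sub hI ho.adm hη hp hS I'' (hI''.trans hI') D'' (by omega)
    have h7 : (σ.V J I'' D'' : ℝ) ≤ ((σ.wm S).V J I'' D'' : ℝ) := by exact_mod_cast h6
    exact h5.trans h7
  refine ⟨lbO hD hI ho.adm fun S hS I' hI' D' hD' hDI => ?_, fun I' hI' D' hD' hDI => ?_⟩
  · have h1 : ((σ.wm S).H d J I' D' : ℤ) = (σ.wm S).V J I' D' := key S hS I' hI' D' hD' hDI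
    show ((σ.wm S).H d J I' D' : ℤ) - (σ.wm S).V J I' D' ≤ 0
    omega
  · exact key σ.ms le_rfl I' hI' D' hD' hDI

/-- The natural size of the effect of an object. -/
noncomputable def nk (c0 : ℕ → ℕ) (n0 : ℕ) (I : Finset ℕ) (D : ℕ) : Kd → ℝ
  | .ord x A => if x ≤ D ∧ (I ∩ A).card ≤ D - x then nz c0 n0 (I ∩ A) (D - x) else 0
  | .cl _ _ _ _ => 0

/-- The number of the objects. -/
theorem numb {ϖ : ℝ} (hD : D ≤ d) (hI : I ⊆ range J) (hID : I.card ≤ D) (ho : InO d J c0 n0 ϖ I σ)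
    (hη : 0 < η) (hp : Pos J c0 n0 η σ I D) :
    η * (σ.ms.map (nk c0 n0 I D)).sum ≤ nz c0 n0 I D := by
  have hpL : PosL J c0 n0 η σ I D := fun I' hI' D' h1 _ h3 => hp I' hI' D' h1 h3
  have h0 : η * ((σ.wm σ.ms).ms.map (nk c0 n0 I D)).sum ≤
      ((σ.wm 0).V J I D : ℝ) - ((σ.wm σ.ms).V J I D : ℝ) := by
    refine ind_le (P := fun M => η * ((σ.wm M).ms.map (nk c0 n0 I D)).sum ≤
      ((σ.wm 0).V J I D : ℝ) - ((σ.wm M).V J I D : ℝ)) σ.ms 0 (Multiset.zero_le _) ?_ ?_
    · show η * ((0 : Multiset Kd).map (nk c0 n0 I D)).sum ≤ _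
      rw [Multiset.map_zero, Multiset.sum_zero, mul_zero, sub_self]
    · intro k T hT hPT
      obtain ⟨x, A, rfl, hx1, hxd, hAJ, hAx⟩ :=
        ho.adm k (Multiset.mem_of_le hT (Multiset.mem_cons_self k T))
      have hTσ : T ≤ σ.ms := (Multiset.le_cons_self T _).trans hT
      have hsum : ((σ.wm (Kd.ord x A ::ₘ T)).ms.map (nk c0 n0 I D)).sum =
          nk c0 n0 I D (.ord x A) + ((σ.wm T).ms.map (nk c0 n0 I D)).sum := by
        show ((Kd.ord x A ::ₘ T).map (nk c0 n0 I D)).sum = _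
        rw [Multiset.map_cons, Multiset.sum_cons]
        rfl
      rw [hsum, wm_ad, mul_add]
      have hnk : nk c0 n0 I D (.ord x A) =
        if x ≤ D ∧ (I ∩ A).card ≤ D - x then nz c0 n0 (I ∩ A) (D - x) else 0 := rfl
      by_cases hx : x ≤ D
      · rw [St.V_ord A hx]
        push_cast
        have hcut := card_cut hI (subset_refl I) hAx
        rw [Finset.sdiff_self, card_empty] at hcut
        by_cases hlow : (I ∩ A).card ≤ D - x
        · rw [hnk, if_pos ⟨hx, hlow⟩]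
          have h2 := hp (I ∩ A) inter_subset_left (D - x) hlow (by omega)
          have h3 := V_sub hI ho.adm hη.le hpL hTσ (I ∩ A) inter_subset_left (D - x) (by omega)
          have h4 : (σ.V J (I ∩ A) (D - x) : ℝ) ≤ ((σ.wm T).V J (I ∩ A) (D - x) : ℝ) := by
            exact_mod_cast h3
          linarith
        · rw [hnk, if_neg (fun h => hlow h.2), mul_zero,
            St.V_low (d := d) (inter_subset_left.trans hI)
              (fun k hk => ho.adm k (Multiset.mem_of_le hTσ hk)) (by omega)]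
          push_cast
          linarith
      · rw [St.V_ord_lt A (by omega), hnk, if_neg (fun h => hx h.1), mul_zero]
        linarith
  rw [wm_self] at h0
  have h1 : ((σ.wm 0).V J I D : ℝ) ≤ nz c0 n0 I D := by
    have h2 : ((σ.wm 0).H d J I D : ℤ) = (σ.wm 0).V J I D := St.Ex_nil hD hI rfl
    have h3 : ((σ.wm 0).H d J I D : ℝ) ≤ nz c0 n0 I D :=
      St.H_le hD hI (fun l _ => ho.c l) ho.n hID
    have h4 : ((σ.wm 0).V J I D : ℝ) = ((σ.wm 0).H d J I D : ℝ) := by exact_mod_cast h2.symm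
    rw [h4]
    exact h3
  have h2 := hp I (subset_refl I) D hID (by rw [Finset.sdiff_self, card_empty]; omega)
  have h3 : 0 ≤ η * nz c0 n0 I D := mul_nonneg hη.le (nz_nonneg _ _ _ _)
  linarith

end Reg

end Pool.Agent.GD.AL
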