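import Pool.Agent.GD.AL.BT0
import Pool.Agent.GD.AL.BTw
import Pool.Agent.GD.AL.Reg
import Pool.Agent.GD.AL.AVst

/-!
# General d, ALPHA: the finite systems, objects of positive `W`-degree
-/

set_option autoImplicit false

namespace Pool.Agent.GD.AL

open Finset

/-- The measure for the removal of the objects of positive `W`-degree. -/
def muW (I : Finset ℕ) : Kd → ℕ
  | .ord x A => if (I \ A).card < x then 1 + (I \ A).card else 0
  | .cl _ _ _ _ => 0

theorem Ex.dl_le {d J D : ℕ} {σ : St} {I : Finset ℕ} (h : σ.Ex d J I D) : σ.dl d J I D ≤ 0 := by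
  unfold St.Ex at h
  unfold St.dl
  omega

namespace BTS

variable {d J i : ℕ} {c0 : ℕ → ℕ} {η : ℝ} {K W : ℕ} {I : Finset ℕ} {σ : St}

/-- One object less, one variable of `W` less. -/
theorem lw_sub (h : BTS d J i c0 η K W I σ) (hη : 0 ≤ η) {k : Kd} {ms' : Multiset Kd}
    (hms : σ.ms = k ::ₘ ms') {s : ℕ} (hs : s ≤ 1) :
    BTS d J i c0 η K W I ((σ.wm ms').lw s) := by
  have hsub : BTS d J i c0 η K W I (σ.wm ms') := h.sub hη (by rw [hms]; exact Multiset.le_cons_self _ _)
  have hd : 1 ≤ d := by
    obtain ⟨x, A, -, h1, h2, -⟩ := h.adm k (by rw [hms]; exact Multiset.mem_cons_self _ _)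
    omega
  have hw := h.hw
  rw [hms, Multiset.card_cons, mul_add, mul_one] at hw
  have hw' : W + d * ms'.card ≤ σ.w - s := by omega
  refine ⟨hsub.hI, hsub.hK, hsub.hc, hsub.adm, hsub.hT, fun I' hI' => ?_, hw'⟩
  rcases Nat.eq_zero_or_pos s with rfl | hs0
  · exact hsub.hV I' hI'
  · obtain rfl : s = 1 := by omega
    rw [V_lw_low (hI'.trans hsub.hI) hsub.adm (by show 1 ≤ σ.w; omega)]
    exact hsub.hV I' hI'

/-- One variable less in the block `a`. -/
theorem lo_half (h : BTS d J i c0 η K W I σ) (hη : 0 < η) (hK : 2 ≤ η * K) {a t : ℕ} (ha : a ∈ I)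
    (ht : t ≤ 1) : BTS d J i c0 (η / 2) K W I (σ.lo a t) := by
  have hwk := h.weak (η' := η / 2) (by linarith) le_rfl le_rfl
  have haJ : a < J := mem_range.1 (h.hI ha)
  have hc0a : 2 ≤ η * c0 a :=
    hK.trans (mul_le_mul_of_nonneg_left (by exact_mod_cast h.hK a ha) hη.le)
  have hca : 1 ≤ σ.c a := by
    have h1 := h.c_ge hη.le ha
    have h2 : (1 : ℝ) ≤ σ.c a := by linarith
    exact_mod_cast h2
  refine ⟨h.hI, h.hK, fun l => ?_, h.adm, h.hT, fun I' hI' => ?_, h.hw⟩
  · show Function.update σ.c a (σ.c a - t) l ≤ c0 l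
    by_cases hl : l = a
    · subst hl
      rw [Function.update_self]
      exact (Nat.sub_le _ _).trans (h.hc l)
    · rw [Function.update_of_ne hl]
      exact h.hc l
  · rcases Nat.eq_zero_or_pos t with rfl | ht0
    · rw [lo_zero]
      exact hwk.hV I' hI'
    · obtain rfl : t = 1 := by omega
      by_cases haI' : a ∈ I'
      · rw [V_lo_low haI' (hI'.trans h.hI) hca]
        have h1 := h.hV I' hI'
        have h2 := h.Vle' hη.le ((erase_subset a I').trans hI')
        have h3 : ∏ l ∈ I', (c0 l : ℝ) = c0 a * ∏ l ∈ I'.erase a, (c0 l : ℝ) :=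
          (mul_prod_erase I' (fun l => (c0 l : ℝ)) haI').symm
        have h4 : 0 ≤ ∏ l ∈ I'.erase a, (c0 l : ℝ) := prod_nonneg c0 _
        rw [h3] at h1 ⊢
        push_cast
        have h5 : (1 : ℝ) * ∏ l ∈ I'.erase a, (c0 l : ℝ) ≤
            (η * c0 a / 2) * ∏ l ∈ I'.erase a, (c0 l : ℝ) :=
          mul_le_mul_of_nonneg_right (by linarith) h4
        nlinarith
      · rw [V_lo_low' haI' haJ (hI'.trans h.hI) h.adm hca]
        exact hwk.hV I' hI'

/-- The object `ord x A` of positive `W`-degree is replaced. -/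
theorem repl (h : BTS d J i c0 η K W I σ) (hη : 0 ≤ η) {x a : ℕ} {A : Finset ℕ}
    {ms' : Multiset Kd} (hms : σ.ms = .ord x A ::ₘ ms') (ha : a ∈ I) (haA : a ∉ A)
    (hx : (I \ A).card < x) :
    BTS d J i c0 η K W I ((σ.wm ms').ad (.ord (x - 1) (insert a A))) := by
  have hsub : BTS d J i c0 η K W I (σ.wm ms') := h.sub hη (by rw [hms]; exact Multiset.le_cons_self _ _)
  obtain ⟨h1, h2, h3, h4⟩ := (h.adm (.ord x A) (by rw [hms]; exact Multiset.mem_cons_self _ _)).x_pos rfl
  have haJ : a ∈ range J := h.hI ha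
  have haT : a ∈ I \ A := mem_sdiff.2 ⟨ha, haA⟩
  have hT1 : 1 ≤ (I \ A).card := card_pos.2 ⟨a, haT⟩
  have e1 : range J \ insert a A = (range J \ A).erase a := by
    rw [sdiff_insert]
  have e2 : I \ insert a A = (I \ A).erase a := by
    rw [sdiff_insert]
  have c1 := card_erase_of_mem (mem_sdiff.2 ⟨haJ, haA⟩ : a ∈ range J \ A)
  have c2 := card_erase_of_mem haT
  have hadm : AdmO d J (.ord (x - 1) (insert a A)) :=
    ⟨x - 1, insert a A, rfl, by omega, by omega, insert_subset haJ h3, by rw [e1, c1]; omega⟩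
  refine ⟨hsub.hI, hsub.hK, hsub.hc, ?_, ?_, fun I' hI' => ?_, ?_⟩
  · intro k hk
    rcases Multiset.mem_cons.1 hk with rfl | hk
    · exact hadm
    · exact hsub.adm k hk
  · intro y B hk hc
    rcases Multiset.mem_cons.1 hk with hk | hk
    · cases hk
      rw [e2, c2] at hc
      omega
    · exact hsub.hT y B hk hc
  · rw [V_ord_low (hI'.trans hsub.hI) hsub.adm (x := x - 1) (by omega) (by rw [e1, c1]; omega),
      if_neg, sub_zero]
    · exact hsub.hV I' hI'
    · intro hc
      have h5 : (I' \ insert a A).card ≤ (I \ insert a A).card :=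
        card_le_card (sdiff_subset_sdiff hI' le_rfl)
      rw [e2, c2] at h5
      omega
  · have hw := h.hw
    rw [hms, Multiset.card_cons] at hw
    show W + d * (.ord (x - 1) (insert a A) ::ₘ ms' : Multiset Kd).card ≤ σ.w
    rw [Multiset.card_cons]
    exact hw

end BTS

/-- It is enough to have the states whose objects all have `|I \ A| = x`. -/
theorem bt_W {d J i D : ℕ} (hD : D ≤ d) {c0 : ℕ → ℕ} {η : ℝ} {K W : ℕ} (hη : 0 < η)
    (hK : 2 ≤ η * K)
    (orc : ∀ (σ : St) (I : Finset ℕ), BTS d J i c0 (η / 2) K W I σ → ∀ D' < D, σ.Ex d J I D')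
    (term : ∀ (σ : St) (I : Finset ℕ), BTS d J i c0 η K W I σ →
      (∀ x A, .ord x A ∈ σ.ms → (I \ A).card = x) → σ.dl d J I D ≤ 0) :
    ∀ (σ : St) (I : Finset ℕ), BTS d J i c0 η K W I σ → σ.Ex d J I D := by
  intro σ I hσ
  -- the upper bound
  have hup : ∀ (N : ℕ) (σ : St), BTS d J i c0 η K W I σ → (σ.ms.map (muW I)).sum ≤ N →
      σ.dl d J I D ≤ 0 := by
    intro N
    induction N with
    | zero =>
      intro σ hσ hN
      refine term σ I hσ fun x A hk => ?_
      obtain ⟨h1, h2, h3, h4⟩ := (hσ.adm _ hk).x_pos rfl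
      have h5 : (I \ A).card ≤ x := (card_le_card (sdiff_subset_sdiff hσ.hI subset_rfl)).trans h4
      by_contra hne
      have h6 : muW I (.ord x A) ≤ (σ.ms.map (muW I)).sum :=
        Multiset.single_le_sum (fun _ _ => Nat.zero_le _) _ (Multiset.mem_map_of_mem _ hk)
      have h7 : muW I (.ord x A) = 1 + (I \ A).card := if_pos (by omega)
      omega
    | succ N ih =>
      intro σ hσ hN
      by_cases hall : ∀ x A, .ord x A ∈ σ.ms → (I \ A).card = x
      · exact term σ I hσ hall
      push Not at hall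
      obtain ⟨x, A, hk, hne⟩ := hall
      obtain ⟨h1, h2, h3, h4⟩ := (hσ.adm _ hk).x_pos rfl
      have h5 : (I \ A).card ≤ x := (card_le_card (sdiff_subset_sdiff hσ.hI subset_rfl)).trans h4
      have h6 : (I \ A).card < x := by omega
      obtain ⟨ms', hms⟩ := Multiset.exists_cons_of_mem hk
      have hσ' : (σ.wm ms').ad (.ord x A) = σ := by
        unfold St.wm St.ad
        rw [← hms]
      have hmu : muW I (.ord x A) = 1 + (I \ A).card := if_pos h6
      rw [hms, Multiset.map_cons, Multiset.sum_cons, hmu] at hN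
      have hsub : BTS d J i c0 η K W I (σ.wm ms') :=
        hσ.sub hη.le (by rw [hms]; exact Multiset.le_cons_self _ _)
      have hIH' : (σ.wm ms').dl d J I D ≤ 0 := ih _ hsub (by show (ms'.map (muW I)).sum ≤ N; omega)
      have hw := hσ.hw
      rw [hms, Multiset.card_cons, mul_add, mul_one] at hw
      rcases (I \ A).eq_empty_or_nonempty with hT | ⟨a, haT⟩
      · -- a point of `W`
        have hIA : I ⊆ A := sdiff_eq_empty_iff_subset.1 hT
        have h7 := St.dl_spec (d := d) (J := J) (σ := σ.wm ms') (I := I) hD (x := x) h3 (by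
          rw [inter_eq_left.2 hIA, inter_eq_left.2 hσ.hI])
        rw [hσ'] at h7
        refine h7.trans (dl_wpt hD hσ.hI hsub.adm (by show 1 ≤ σ.w; omega) h1 fun s hs => ?_)
        have h8 := hσ.lw_sub hη.le hms (s := 1) le_rfl
        rcases Nat.lt_or_ge s D with h9 | h9
        · exact Ex.dl_le (orc _ I (h8.weak (by linarith) le_rfl le_rfl) s h9)
        · obtain rfl : s = D := le_antisymm hs h9
          exact ih _ h8 (by show (ms'.map (muW I)).sum ≤ N; omega)
      · -- a point with a block of `I`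
        obtain ⟨haI, haA⟩ := mem_sdiff.1 haT
        have hT1 : 1 ≤ (I \ A).card := card_pos.2 ⟨a, haT⟩
        rcases Nat.lt_or_ge D x with hxD | hxD
        · obtain ⟨e1, e2⟩ := St.dl_drop (σ := σ.wm ms') hD hσ.hI hsub.adm A
            (Or.inl hxD : D < x ∨ D - x < (I ∩ A).card)
          rw [hσ'] at e1 e2
          unfold St.dl at hIH' ⊢
          rw [e1, e2]
          exact hIH'
        · have hexm : ∀ t ≤ 1, ∀ s ≤ 1, ∀ D' < D, ∀ I' ⊆ I,
              (((σ.wm ms').lo a t).lw s).Ex d J I' D' := by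
            intro t ht s hs D' hD' I' hI'
            have g1 := (hσ.lw_sub hη.le hms hs).lo_half hη hK haI ht
            exact orc _ I' (g1.lev hI') D' hD'
          have h8 := av_st (σ := σ.wm ms') (c' := 1) hD hσ.hI (fun k hk => (hsub.adm k hk).ok)
            (x := x) (A := A) (a := a) (by omega) hxD h3 haI haA le_rfl (by
              have g1 := hσ.c_ge hη.le haI
              have g2 : η * K ≤ η * c0 a :=
                mul_le_mul_of_nonneg_left (by exact_mod_cast hσ.hK a haI) hη.le
              have g3 : (2 : ℝ) ≤ σ.c a := by linarith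
              have g4 : 2 ≤ σ.c a := by exact_mod_cast g3
              exact g4) (by show 2 ≤ σ.w; omega)
            (fun t ht s hs D' hD' => hexm t ht s hs D' (by omega) _
              (insert_subset haI inter_subset_left))
            (fun t ht s hs D' hD' => hexm t ht s hs D' (by omega) _ inter_subset_left)
          rw [hσ'] at h8
          have h9 := ih _ (hσ.repl hη.le hms haI haA h6) (by
            show ((.ord (x - 1) (insert a A) ::ₘ ms' : Multiset Kd).map (muW I)).sum ≤ N
            rw [Multiset.map_cons, Multiset.sum_cons]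
            have e2 : I \ insert a A = (I \ A).erase a := by rw [sdiff_insert]
            have c2 := card_erase_of_mem haT
            have h10 : muW I (.ord (x - 1) (insert a A)) ≤ (I \ A).card := by
              show (if (I \ insert a A).card < x - 1 then 1 + (I \ insert a A).card else 0) ≤ _
              rw [e2, c2]
              split_ifs <;> omega
            omega)
          push_cast at h8
          linarith
  have h1 := hup _ σ hσ le_rfl
  have h2 := lbO (σ := σ) hD hσ.hI hσ.adm fun S hS I' hI' D' hD' _ =>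
    Ex.dl_le (orc _ I' (((hσ.sub hη.le hS).lev hI').weak (by linarith) le_rfl le_rfl) D' hD')
  unfold St.dl at h1
  unfold St.Ex
  omega

end Pool.Agent.GD.AL
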