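import Pool.Agent.GD.AL.Bas
import Pool.Agent.GD.AL.Prod

/-!
# General d, ALPHA: finite systems, the free blocks

`dl_cut`: the blocks of `I` on which no object lives and all but `w1` of the variables of `W` split off.
-/

set_option autoImplicit false

namespace Pool.Agent.GD.AL

open Finset

/-- Only the blocks of `I1` and `w1` of the variables of `W`. -/
def St.cut (σ : St) (I1 : Finset ℕ) (w1 : ℕ) : St := ⟨fun l => if l ∈ I1 then σ.c l else 0, w1, σ.ms⟩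

/-- A sum over the subsets of a disjoint union. -/
theorem sum_powerset_union {M : Type} [AddCommMonoid M] {I₁ I₂ : Finset ℕ} (h : Disjoint I₁ I₂)
    (f : Finset ℕ → M) :
    ∑ I' ∈ (I₁ ∪ I₂).powerset, f I' = ∑ A ∈ I₁.powerset, ∑ B ∈ I₂.powerset, f (A ∪ B) := by
  rw [← sum_product']
  refine sum_bij' (fun I' _ => (I' ∩ I₁, I' ∩ I₂)) (fun p _ => p.1 ∪ p.2) ?_ ?_ ?_ ?_ ?_
  · intro I' _
    rw [mem_product, mem_powerset, mem_powerset]
    exact ⟨inter_subset_right, inter_subset_right⟩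
  · intro p hp
    rw [mem_product, mem_powerset, mem_powerset] at hp
    rw [mem_powerset]
    exact union_subset_union hp.1 hp.2
  · intro I' hI'
    rw [mem_powerset] at hI'
    show I' ∩ I₁ ∪ I' ∩ I₂ = I'
    rw [← inter_union_distrib_left]
    exact inter_eq_left.2 hI'
  · rintro ⟨A, B⟩ hp
    rw [mem_product, mem_powerset, mem_powerset] at hp
    have hA : A ⊆ I₁ := hp.1
    have hB : B ⊆ I₂ := hp.2
    have h1 : B ∩ I₁ = ∅ := by
      rw [← disjoint_iff_inter_eq_empty]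
      exact (h.mono_right hB).symm
    have h2 : A ∩ I₂ = ∅ := by
      rw [← disjoint_iff_inter_eq_empty]
      exact h.mono_left hA
    show ((A ∪ B) ∩ I₁, (A ∪ B) ∩ I₂) = (A, B)
    rw [union_inter_distrib_right, union_inter_distrib_right, h1, h2, union_empty, empty_union,
      inter_eq_left.2 hA, inter_eq_left.2 hB]
  · intro I' hI'
    rw [mem_powerset] at hI'
    show f I' = f (I' ∩ I₁ ∪ I' ∩ I₂)
    rw [← inter_union_distrib_left, inter_eq_left.2 hI']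

/-- Product with free blocks: the virtual dimensions. -/
theorem vd_prod_free (D : ℕ) {I₁ I₂ : Finset ℕ} (h : Disjoint I₁ I₂) {c : ℕ → ℕ} {n₁ n₂ : ℕ}
    (h1 : ∑ i ∈ I₁, c i ≤ n₁) (h2 : ∑ i ∈ I₂, c i ≤ n₂) (ms : Multiset Kd)
    (hm : ∀ k ∈ ms, ∃ x A, k = .ord x A ∧ I₂ ⊆ A) :
    vd D (I₁ ∪ I₂) c (n₁ + n₂) ms =
      ∑ s ∈ range (D + 1), vd s I₁ c n₁ ms * vd (D - s) I₂ c n₂ 0 := by
  unfold vd
  rw [sum_powerset_union h]
  have e1 : ∀ A ∈ I₁.powerset, ∀ B ∈ I₂.powerset,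
      (-1 : ℤ) ^ (A ∪ B).card * PowerSeries.coeff D ((ms.map (Kd.P (A ∪ B))).prod *
        hs (n₁ + n₂ - ∑ i ∈ A ∪ B, c i)) =
      ∑ s ∈ range (D + 1), ((-1 : ℤ) ^ A.card * PowerSeries.coeff s ((ms.map (Kd.P A)).prod *
        hs (n₁ - ∑ i ∈ A, c i))) * ((-1 : ℤ) ^ B.card * PowerSeries.coeff (D - s)
          (((0 : Multiset Kd).map (Kd.P B)).prod * hs (n₂ - ∑ i ∈ B, c i))) := by
    intro A hA B hB
    rw [mem_powerset] at hA hB
    have hAB : Disjoint A B := h.mono hA hB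
    have h3 : ∑ i ∈ A, c i ≤ n₁ := (sum_le_sum_of_subset hA).trans h1
    have h4 : ∑ i ∈ B, c i ≤ n₂ := (sum_le_sum_of_subset hB).trans h2
    have h5 : n₁ + n₂ - ∑ i ∈ A ∪ B, c i = (n₁ - ∑ i ∈ A, c i) + (n₂ - ∑ i ∈ B, c i) := by
      rw [sum_union hAB]
      omega
    have h6 : (ms.map (Kd.P (A ∪ B))).prod = (ms.map (Kd.P A)).prod := by
      congr 1
      refine Multiset.map_congr rfl fun k hk => ?_
      obtain ⟨x, A', rfl, hA'⟩ := hm k hk
      have h7 : A ∪ B ⊆ A' ↔ A ⊆ A' :=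
        ⟨fun h => subset_union_left.trans h, fun h => union_subset h (hB.trans hA')⟩
      show (if A ∪ B ⊆ A' then 1 - PowerSeries.X ^ x else 1 : PowerSeries ℤ) =
        if A ⊆ A' then 1 - PowerSeries.X ^ x else 1
      simp only [h7]
    rw [h5, h6, hs_add, card_union_of_disjoint hAB, Multiset.map_zero, Multiset.prod_zero, one_mul,
      ← mul_assoc, PowerSeries.coeff_mul, Finset.Nat.sum_antidiagonal_eq_sum_range_succ_mk, mul_sum]
    refine sum_congr rfl fun s _ => ?_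
    rw [pow_add]
    ring
  rw [sum_congr rfl fun A hA => sum_congr rfl fun B hB => e1 A hA B hB]
  rw [sum_congr rfl fun A _ => sum_comm, sum_comm]
  refine sum_congr rfl fun s _ => ?_
  rw [sum_mul_sum]

section free

variable {d J D : ℕ}

/-- The numbers of the variables of the two parts. -/
theorem card_elim (c₁ c₂ : ℕ → ℕ) (w₁ w₂ : ℕ) {i : ℕ} (hi : i < J) :
    (univ.filter fun s : Vr J c₁ w₁ ⊕ Vr J c₂ w₂ => Sum.elim (bt J c₁ w₁) (bt J c₂ w₂) s = i).card =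
      c₁ i + c₂ i := by
  rw [card_filter, Fintype.sum_sum_type, ← card_filter, ← card_filter]
  exact congrArg₂ (· + ·) (card_bt c₁ w₁ hi) (card_bt c₂ w₂ hi)

/-- A variable of a nonempty block. -/
theorem bt_cases {c : ℕ → ℕ} {w : ℕ} (t : Vr J c w) : bt J c w t = J ∨
    (bt J c w t < J ∧ c (bt J c w t) ≠ 0) := by
  rcases t with ⟨l, x⟩ | x
  · right
    refine ⟨l.2, ?_⟩
    intro h0
    have h1 : c l.1 = 0 := h0
    exact absurd x.2 (by omega)
  · left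
    rfl

/-- The blocks without objects may be removed. -/
theorem dl_cut {σ : St} {I I₁ : Finset ℕ} {w₁ : ℕ} (hD : D ≤ d) (hI : I ⊆ range J) (h1 : I₁ ⊆ I)
    (hw : w₁ ≤ σ.w) (hadm : ∀ k ∈ σ.ms, AdmO d J k) (hA : ∀ x A, .ord x A ∈ σ.ms → I \ I₁ ⊆ A)
    (h : ∀ s ≤ D, (σ.cut I₁ w₁).dl d J I₁ s ≤ 0) :
    σ.dl d J I D ≤ 0 := by
  have hm : ∀ k ∈ σ.ms, ∃ x A, k = .ord x A ∧ I \ I₁ ⊆ A := by
    intro k hk
    obtain ⟨x, A, rfl, -⟩ := hadm k hk
    exact ⟨x, A, rfl, hA x A hk⟩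
  unfold St.cut at h
  set c₁ : ℕ → ℕ := fun l => if l ∈ I₁ then σ.c l else 0 with hc1
  set c₂ : ℕ → ℕ := fun l => if l ∈ I₁ then 0 else σ.c l with hc2
  set w₂ := σ.w - w₁ with hw2
  set σ₂ : St := ⟨c₂, w₂, 0⟩ with hs2
  have hI1 : I₁ ⊆ range J := h1.trans hI
  have hI2 : I \ I₁ ⊆ range J := sdiff_subset.trans hI
  have hun : I₁ ∪ (I \ I₁) = I := union_sdiff_of_subset h1
  have hdis : Disjoint I₁ (I \ I₁) := disjoint_sdiff
  have hcs : ∀ l, c₁ l + c₂ l = σ.c l := by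
    intro l
    rw [hc1, hc2]
    by_cases hl : l ∈ I₁
    · simp only [if_pos hl, add_zero]
    · simp only [if_neg hl, zero_add]
  have hn : (∑ l ∈ range J, c₁ l + w₁) + (∑ l ∈ range J, c₂ l + w₂) = σ.n J := by
    have e1 : ∑ l ∈ range J, c₁ l + ∑ l ∈ range J, c₂ l = ∑ l ∈ range J, σ.c l := by
      rw [← sum_add_distrib]
      exact sum_congr rfl fun l _ => hcs l
    unfold St.n
    omega
  -- the general dimension
  have hH : σ.H d J I D ≤ ∑ s ∈ range (D + 1),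
      (St.mk c₁ w₁ σ.ms).H d J I₁ s * σ₂.H d J (I \ I₁) (D - s) := by
    have e1 := St.H_eq (d := d) (J := J) (D := D) hD
      (Sum.elim (bt J c₁ w₁) (bt J c₂ w₂)) σ (by
        rw [Fintype.card_sum, card_Vr, card_Vr]
        exact hn) (fun i hi => by
        rw [card_elim c₁ c₂ w₁ w₂ hi]
        exact hcs i) hI (fun k hk => ok_blk (hadm k hk).ok)
    have e2 := HI_prod (d := d) hD (bt J c₁ w₁) (bt J c₂ w₂) (I₁ := I₁) (I₂ := I \ I₁) (by
        intro t ht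
        rcases bt_cases t with h3 | ⟨h3, h4⟩
        · rw [h3] at ht
          exact absurd (mem_range.1 (hI2 ht)) (lt_irrefl _)
        · exact h4 (if_neg (mem_sdiff.1 ht).2)) (by
        intro t ht
        rcases bt_cases t with h3 | ⟨h3, h4⟩
        · rw [h3] at ht
          exact absurd (mem_range.1 (hI1 ht)) (lt_irrefl _)
        · exact h4 (if_pos ht)) σ.ms 0
    rw [hun, add_zero, e1] at e2
    exact e2
  -- the virtual dimension
  have hV : σ.V J I D = ∑ s ∈ range (D + 1),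
      (St.mk c₁ w₁ σ.ms).V J I₁ s * σ₂.V J (I \ I₁) (D - s) := by
    have e3 : ∀ i ∈ I₁, σ.c i = c₁ i := fun i hi => (if_pos hi).symm
    have e4 : ∀ i ∈ I \ I₁, σ.c i = c₂ i := fun i hi => (if_neg (mem_sdiff.1 hi).2).symm
    have e5 : ∑ i ∈ I₁, σ.c i ≤ ∑ l ∈ range J, c₁ l + w₁ := by
      rw [sum_congr rfl e3]
      exact (sum_le_sum_of_subset hI1).trans (Nat.le_add_right _ _)
    have e6 : ∑ i ∈ I \ I₁, σ.c i ≤ ∑ l ∈ range J, c₂ l + w₂ := by
      rw [sum_congr rfl e4]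
      exact (sum_le_sum_of_subset hI2).trans (Nat.le_add_right _ _)
    have e7 := vd_prod_free D hdis (c := σ.c) e5 e6 σ.ms hm
    rw [hun, hn] at e7
    show vd D I σ.c (σ.n J) σ.ms = _
    rw [e7]
    refine sum_congr rfl fun s _ => ?_
    rw [vd_congr_c e3, vd_congr_c e4]
    rfl
  have hEx : ∀ s, (σ₂.H d J (I \ I₁) (D - s) : ℤ) = σ₂.V J (I \ I₁) (D - s) := fun s =>
    St.Ex_nil ((Nat.sub_le _ _).trans hD) hI2 rfl
  unfold St.dl
  rw [hV]
  have hH' : (σ.H d J I D : ℤ) ≤ ∑ s ∈ range (D + 1),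
      ((St.mk c₁ w₁ σ.ms).H d J I₁ s : ℤ) * (σ₂.H d J (I \ I₁) (D - s) : ℤ) := by
    exact_mod_cast hH
  refine sub_nonpos.2 (hH'.trans (sum_le_sum fun s hs => ?_))
  rw [← hEx s]
  refine mul_le_mul_of_nonneg_right ?_ (Int.natCast_nonneg _)
  have h5 := h s (Nat.lt_succ_iff.1 (mem_range.1 hs))
  unfold St.dl at h5
  exact sub_nonpos.1 h5

/-- The pairs `(I', #I')` do not see the cut. -/
theorem V_cut_low {σ : St} {I1 : Finset ℕ} {w1 : ℕ} (h1 : I1 ⊆ range J) (hw : w1 ≤ σ.w)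
    (hm : ∀ k ∈ σ.ms, AdmO d J k) {I' : Finset ℕ} (hI' : I' ⊆ I1) :
    (σ.cut I1 w1).V J I' I'.card = σ.V J I' I'.card := by
  set c₁ : ℕ → ℕ := fun l => if l ∈ I1 then σ.c l else 0 with hc1
  have hI'J : I' ⊆ range J := hI'.trans h1
  have e3 : ∀ i ∈ I', c₁ i = σ.c i := fun i hi => if_pos (hI' hi)
  have hle : ∑ l ∈ range J, c₁ l ≤ ∑ l ∈ range J, σ.c l := by
    refine sum_le_sum fun l _ => ?_
    rw [hc1]
    by_cases hl : l ∈ I1
    · simp only [if_pos hl, le_refl]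
    · simp only [if_neg hl, Nat.zero_le]
  obtain ⟨t, ht⟩ : ∃ t, σ.n J = (∑ l ∈ range J, c₁ l + w1) + t := by
    refine ⟨σ.n J - (∑ l ∈ range J, c₁ l + w1), ?_⟩
    unfold St.n
    omega
  have hsum : ∑ i ∈ I', c₁ i ≤ ∑ l ∈ range J, c₁ l + w1 :=
    (sum_le_sum_of_subset hI'J).trans (Nat.le_add_right _ _)
  have hlowk : ∀ k ∈ σ.ms, k.Low I' := by
    intro k hk
    obtain ⟨x, A, rfl, h1, h2, h3, h4⟩ := hm k hk
    exact (card_le_card (sdiff_subset_sdiff hI'J le_rfl)).trans h4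
  show vd I'.card I' c₁ (∑ l ∈ range J, c₁ l + w1) σ.ms = vd I'.card I' σ.c (σ.n J) σ.ms
  rw [vd_congr_c (c := σ.c) (c' := c₁) fun i hi => (e3 i hi).symm, ht]
  have e1 := vd_prod I'.card (c := c₁) t hsum σ.ms 0 (fun k hk => absurd hk (Multiset.notMem_zero k))
  rw [add_zero] at e1
  rw [e1, sum_eq_single_of_mem I'.card (self_mem_range_succ _)]
  · rw [Nat.sub_self, vd_nil, Multiset.map_zero, Multiset.prod_zero, one_mul]
    unfold hs
    rw [PowerSeries.coeff_mk, Nat.multichoose_zero_right, Nat.cast_one, mul_one]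
  · intro s hs hne
    rw [vd_low hsum σ.ms hlowk I' le_rfl s (by have := mem_range.1 hs; omega), zero_mul]

end free

end Pool.Agent.GD.AL
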