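import Pool.Agent.GD.AL.St
import Mathlib.Data.Nat.Choose.Bounds

/-!
# General d, ALPHA: finite systems, positivity

`pos_low`: if the virtual dimensions at the pairs `(I', #I')` are positive and `w` is large (polynomially in
the number of the objects and the sizes of the blocks), all the virtual dimensions are positive.
-/

set_option autoImplicit false

namespace Pool.Agent.GD.AL

open Finset

/-! ### A bound for the virtual dimensions -/

theorem abs_coeff_mul {F F' G G' : PowerSeries ℤ}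
    (h : ∀ k, |PowerSeries.coeff k F| ≤ PowerSeries.coeff k G)
    (h' : ∀ k, |PowerSeries.coeff k F'| ≤ PowerSeries.coeff k G') (k : ℕ) :
    |PowerSeries.coeff k (F * F')| ≤ PowerSeries.coeff k (G * G') := by
  rw [PowerSeries.coeff_mul, PowerSeries.coeff_mul]
  refine (abs_sum_le_sum_abs _ _).trans (sum_le_sum fun p _ => ?_)
  rw [abs_mul]
  exact mul_le_mul (h _) (h' _) (abs_nonneg _) ((abs_nonneg _).trans (h _))

theorem abs_coeff_hs (N k : ℕ) : |PowerSeries.coeff k (hs N)| ≤ PowerSeries.coeff k (hs N) :=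
  (abs_of_nonneg (Nn.hs N k)).le

theorem abs_coeff_P {k : Kd} (hk : ∃ x A, k = .ord x A ∧ 1 ≤ x) (I' : Finset ℕ) (j : ℕ) :
    |PowerSeries.coeff j (k.P I')| ≤ PowerSeries.coeff j (hs 1) := by
  obtain ⟨x, A, rfl, hx⟩ := hk
  have h1 : PowerSeries.coeff j (hs 1) = 1 := by
    unfold hs
    rw [PowerSeries.coeff_mk, Nat.multichoose_one]
    rfl
  have h0 : |PowerSeries.coeff j (1 : PowerSeries ℤ)| ≤ 1 := by
    rw [PowerSeries.coeff_one]
    split_ifs <;> simp
  rw [h1]
  show |PowerSeries.coeff j (if I' ⊆ A then 1 - PowerSeries.X ^ x else 1 : PowerSeries ℤ)| ≤ 1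
  split_ifs with h
  · rw [map_sub, PowerSeries.coeff_one, PowerSeries.coeff_X_pow]
    by_cases hj : j = 0
    · rw [if_pos hj, if_neg (by omega)]
      simp
    · rw [if_neg hj]
      split_ifs <;> simp
  · exact h0

theorem abs_coeff_prod (I' : Finset ℕ) (ms : Multiset Kd) (hm : ∀ k ∈ ms, ∃ x A, k = .ord x A ∧ 1 ≤ x) :
    ∀ j, |PowerSeries.coeff j (ms.map (Kd.P I')).prod| ≤ PowerSeries.coeff j (hs ms.card) := by
  induction ms using Multiset.induction_on with
  | empty =>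
    intro j
    rw [Multiset.map_zero, Multiset.prod_zero, Multiset.card_zero, PowerSeries.coeff_one]
    unfold hs
    rw [PowerSeries.coeff_mk]
    cases j with
    | zero => simp
    | succ j => simp
  | cons k ms ih =>
    intro j
    rw [Multiset.map_cons, Multiset.prod_cons, Multiset.card_cons, add_comm, hs_add]
    exact abs_coeff_mul (abs_coeff_P (hm k (Multiset.mem_cons_self k ms)) I')
      (ih fun k' hk' => hm k' (Multiset.mem_cons_of_mem hk')) j

/-- The virtual dimensions of few objects. -/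
theorem vd_abs_ord {D n : ℕ} {I : Finset ℕ} {c : ℕ → ℕ} {ms : Multiset Kd}
    (hm : ∀ k ∈ ms, ∃ x A, k = .ord x A ∧ 1 ≤ x) :
    |vd D I c n ms| ≤ 2 ^ I.card * ((ms.card + n : ℕ) : ℤ) ^ D := by
  unfold vd
  refine (abs_sum_le_sum_abs _ _).trans ?_
  have h1 : ∀ I' ∈ I.powerset, |(-1 : ℤ) ^ I'.card * PowerSeries.coeff D ((ms.map (Kd.P I')).prod *
      hs (n - ∑ i ∈ I', c i))| ≤ ((ms.card + n : ℕ) : ℤ) ^ D := by
    intro I' _
    rw [abs_mul, abs_pow, abs_neg, abs_one, one_pow, one_mul]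
    refine (abs_coeff_mul (abs_coeff_prod I' ms hm) (abs_coeff_hs _) D).trans ?_
    rw [← hs_add]
    unfold hs
    rw [PowerSeries.coeff_mk]
    have h2 : (ms.card + (n - ∑ i ∈ I', c i)).multichoose D ≤ (ms.card + n) ^ D :=
      (multichoose_le_pow _ _).trans (Nat.pow_le_pow_left (by omega) D)
    exact_mod_cast h2
  refine (sum_le_sum h1).trans ?_
  rw [sum_const, card_powerset, nsmul_eq_mul]
  push_cast
  exact le_rfl

/-! ### Positivity -/

/-- The number of the monomials from below. -/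
theorem pow_le_multichoose {d w r : ℕ} (hr : r ≤ d) (hw : 1 ≤ w) :
    (w : ℝ) ^ r / d.factorial ≤ (w.multichoose r : ℕ) := by
  have h1 := Nat.pow_le_choose (α := ℝ) r (w + r - 1)
  rw [Nat.multichoose_eq]
  refine le_trans ?_ h1
  have h2 : w + r - 1 + 1 - r = w := by omega
  rw [h2]
  have h3 : (r.factorial : ℝ) ≤ d.factorial := by exact_mod_cast Nat.factorial_le hr
  exact div_le_div_of_nonneg_left (by positivity) (by positivity) h3

theorem pos_low (d J : ℕ) {η : ℝ} (hη : 0 < η) (_hη1 : η ≤ 1) :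
    ∃ C : ℕ, ∀ (D : ℕ) (c0 : ℕ → ℕ) (n0 m : ℕ) (σ : St) (I : Finset ℕ), D ≤ d → I ⊆ range J →
      (∀ l, σ.c l ≤ c0 l) → (∀ l ∈ I, 1 ≤ c0 l) → (∀ k ∈ σ.ms, AdmO d J k) → σ.ms.card ≤ m →
      (∀ I' ⊆ I, η * ∏ l ∈ I', (c0 l : ℝ) ≤ (σ.V J I' I'.card : ℝ)) →
      C * (m + ∑ l ∈ range J, c0 l + 1) ^ (d + 1) ≤ σ.w → n0 ≤ 2 * σ.w →
      Pos J c0 n0 (η / (2 ^ (d + 1) * d.factorial)) σ I D := by
  have hfac : (0 : ℝ) < d.factorial := by exact_mod_cast Nat.factorial_pos d
  obtain ⟨C₁, hC1⟩ := exists_nat_ge (2 * d * 2 ^ J * d.factorial / η)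
  refine ⟨C₁ + 1, ?_⟩
  intro D c0 n0 m σ I hD hI hc hc0 hm hcard hlow hw hn0 I' hI' D' hD1 hD2
  set B := ∑ l ∈ range J, c0 l with hB
  set X : ℕ := m + B + 1 with hX
  set n₁ := ∑ l ∈ range J, σ.c l with hn1
  have hX1 : 1 ≤ X := by omega
  have hn1B : n₁ ≤ B := sum_le_sum fun l _ => hc l
  have hD'd : D' ≤ d := by omega
  have hI'J : I' ⊆ range J := hI'.trans hI
  have hXpow : X ≤ X ^ (d + 1) := Nat.le_self_pow (Nat.succ_ne_zero d) X
  have hw1 : 1 ≤ σ.w := by
    have : 1 ≤ (C₁ + 1) * X ^ (d + 1) := Nat.mul_pos (by omega) (by positivity)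
    omega
  have hsum : ∑ i ∈ I', σ.c i ≤ n₁ := sum_le_sum_of_subset hI'J
  have hord : ∀ k ∈ σ.ms, ∃ x A, k = .ord x A ∧ 1 ≤ x := by
    intro k hk
    obtain ⟨x, A, h1, h2, -⟩ := hm k hk
    exact ⟨x, A, h1, h2⟩
  have hlowk : ∀ k ∈ σ.ms, k.Low I' := by
    intro k hk
    obtain ⟨x, A, rfl, h1, h2, h3, h4⟩ := hm k hk
    exact (card_le_card (sdiff_subset_sdiff hI'J le_rfl)).trans h4
  -- the expansion
  have hexp : ∀ E, σ.V J I' E = ∑ s ∈ range (E + 1), vd s I' σ.c n₁ σ.ms *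
      (σ.w.multichoose (E - s) : ℤ) := by
    intro E
    have e1 := vd_prod E (c := σ.c) σ.w hsum σ.ms 0 (fun k hk => absurd hk (Multiset.notMem_zero k))
    rw [add_zero] at e1
    show vd E I' σ.c (n₁ + σ.w) σ.ms = _
    rw [e1]
    refine sum_congr rfl fun s _ => ?_
    rw [vd_nil, Multiset.map_zero, Multiset.prod_zero, one_mul]
    unfold hs
    rw [PowerSeries.coeff_mk]
  have hzero : ∀ s < I'.card, vd s I' σ.c n₁ σ.ms = 0 := fun s hs' =>
    vd_low hsum σ.ms hlowk I' le_rfl s hs'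
  have hap : σ.V J I' I'.card = vd I'.card I' σ.c n₁ σ.ms := by
    rw [hexp, sum_eq_single_of_mem I'.card (self_mem_range_succ _)]
    · rw [Nat.sub_self, Nat.multichoose_zero_right, Nat.cast_one, mul_one]
    · intro s hs hne
      rw [hzero s (by have := mem_range.1 hs; omega), zero_mul]
  -- the two parts of the sum
  have hsplit : σ.V J I' D' = σ.V J I' I'.card * (σ.w.multichoose (D' - I'.card) : ℤ) +
      ∑ s ∈ Ico (I'.card + 1) (D' + 1), vd s I' σ.c n₁ σ.ms * (σ.w.multichoose (D' - s) : ℤ) := by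
    rw [hexp, hap, range_eq_Ico, ← sum_Ico_consecutive _ (Nat.zero_le I'.card) (by omega : I'.card ≤ D' + 1),
      sum_eq_zero (fun s hs => by rw [hzero s (mem_Ico.1 hs).2, zero_mul]), zero_add,
      sum_eq_sum_Ico_succ_bot (by omega : I'.card < D' + 1)]
  have hP1 : (1 : ℝ) ≤ ∏ l ∈ I', (c0 l : ℝ) := by
    have h1 : 1 ≤ ∏ l ∈ I', c0 l := Nat.succ_le_of_lt (prod_pos fun l hl => hc0 l (hI' hl))
    exact_mod_cast h1
  set P := ∏ l ∈ I', (c0 l : ℝ) with hP
  have hlow' : η * P ≤ (σ.V J I' I'.card : ℝ) := hlow I' hI'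
  unfold nz
  rw [← hP]
  set r := D' - I'.card with hr
  have hrd : r ≤ d := by omega
  have hw0 : (0 : ℝ) < σ.w := by exact_mod_cast hw1
  -- the size `n0`
  have hn0' : (n0 : ℝ) ^ r ≤ 2 ^ d * (σ.w : ℝ) ^ r := by
    have h1 : n0 ^ r ≤ 2 ^ d * σ.w ^ r := by
      refine (Nat.pow_le_pow_left hn0 r).trans ?_
      rw [mul_pow]
      exact Nat.mul_le_mul_right _ (Nat.pow_le_pow_right (by norm_num) hrd)
    exact_mod_cast h1
  have hmain : η * P * ((σ.w : ℝ) ^ r / d.factorial) ≤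
      (σ.V J I' I'.card : ℝ) * (σ.w.multichoose r : ℕ) :=
    mul_le_mul hlow' (pow_le_multichoose hrd hw1) (by positivity)
      ((mul_nonneg hη.le (by linarith)).trans hlow')
  have hV : (σ.V J I' D' : ℝ) = (σ.V J I' I'.card : ℝ) * (σ.w.multichoose r : ℕ) +
      ∑ s ∈ Ico (I'.card + 1) (D' + 1), (vd s I' σ.c n₁ σ.ms : ℝ) * (σ.w.multichoose (D' - s) : ℕ) := by
    rw [hsplit]
    push_cast
    rfl
  rw [hV]
  rcases Nat.eq_zero_or_pos r with hr0 | hr0
  · have h1 : Ico (I'.card + 1) (D' + 1) = ∅ := Ico_eq_empty (by omega)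
    rw [h1, sum_empty, add_zero]
    refine le_trans ?_ hmain
    rw [hr0, pow_zero, pow_zero, mul_one]
    have h2 : η / (2 ^ (d + 1) * d.factorial) * P = η * P * (1 / d.factorial) / 2 ^ (d + 1) := by
      field_simp
    rw [h2]
    exact div_le_self (by positivity) (one_le_pow₀ (by norm_num))
  · -- the rest
    have hrest : |∑ s ∈ Ico (I'.card + 1) (D' + 1), (vd s I' σ.c n₁ σ.ms : ℝ) *
        (σ.w.multichoose (D' - s) : ℕ)| ≤ d * (2 ^ J * (X : ℝ) ^ d * (σ.w : ℝ) ^ (r - 1)) := by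
      refine (abs_sum_le_sum_abs _ _).trans ?_
      have h1 : ∀ s ∈ Ico (I'.card + 1) (D' + 1), |(vd s I' σ.c n₁ σ.ms : ℝ) *
          (σ.w.multichoose (D' - s) : ℕ)| ≤ 2 ^ J * (X : ℝ) ^ d * (σ.w : ℝ) ^ (r - 1) := by
        intro s hs
        rw [mem_Ico] at hs
        rw [abs_mul, Nat.abs_cast]
        have h2 : |(vd s I' σ.c n₁ σ.ms : ℝ)| ≤ 2 ^ J * (X : ℝ) ^ d := by
          have h3 := vd_abs_ord (D := s) (n := n₁) (I := I') (c := σ.c) hord
          have h4 : |(vd s I' σ.c n₁ σ.ms : ℝ)| ≤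
              2 ^ I'.card * ((σ.ms.card + n₁ : ℕ) : ℝ) ^ s := by
            have : ((|vd s I' σ.c n₁ σ.ms| : ℤ) : ℝ) ≤
                ((2 ^ I'.card * ((σ.ms.card + n₁ : ℕ) : ℤ) ^ s : ℤ) : ℝ) := by exact_mod_cast h3
            rw [Int.cast_abs] at this
            refine this.trans (le_of_eq ?_)
            push_cast
            ring
          refine h4.trans ?_
          have h5 : I'.card ≤ J := by
            have := card_le_card hI'J
            rwa [card_range] at this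
          have h6 : ((σ.ms.card + n₁ : ℕ) : ℝ) ^ s ≤ (X : ℝ) ^ d := by
            have h7 : (σ.ms.card + n₁) ^ s ≤ X ^ d :=
              (Nat.pow_le_pow_left (by omega) s).trans (Nat.pow_le_pow_right hX1 (by omega))
            exact_mod_cast h7
          exact mul_le_mul (pow_le_pow_right₀ (by norm_num) h5) h6 (by positivity) (by positivity)
        have h8 : ((σ.w.multichoose (D' - s) : ℕ) : ℝ) ≤ (σ.w : ℝ) ^ (r - 1) := by
          have h9 : σ.w.multichoose (D' - s) ≤ σ.w ^ (r - 1) :=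
            (multichoose_le_pow _ _).trans (Nat.pow_le_pow_right hw1 (by omega))
          exact_mod_cast h9
        exact mul_le_mul h2 h8 (Nat.cast_nonneg _) (by positivity)
      refine (sum_le_sum h1).trans ?_
      rw [sum_const, nsmul_eq_mul, Nat.card_Ico]
      refine mul_le_mul_of_nonneg_right ?_ (by positivity)
      have h2 : D' + 1 - (I'.card + 1) ≤ d := by omega
      exact_mod_cast h2
    have hwr : (σ.w : ℝ) ^ r = σ.w * (σ.w : ℝ) ^ (r - 1) := by
      rw [← pow_succ']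
      congr 1
      omega
    have hbig : 2 * d * 2 ^ J * d.factorial / η * (X : ℝ) ^ d ≤ σ.w := by
      have h1 : (C₁ : ℝ) * (X : ℝ) ^ d ≤ σ.w := by
        have h2 : C₁ * X ^ d ≤ (C₁ + 1) * X ^ (d + 1) :=
          Nat.mul_le_mul (by omega) (Nat.pow_le_pow_right hX1 (by omega))
        exact_mod_cast h2.trans hw
      exact (mul_le_mul_of_nonneg_right hC1 (by positivity)).trans h1
    have hkey : (d : ℝ) * (2 ^ J * (X : ℝ) ^ d * (σ.w : ℝ) ^ (r - 1)) ≤
        η * P * ((σ.w : ℝ) ^ r / d.factorial) / 2 := by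
      have h1 : (2 * d * 2 ^ J * d.factorial / η * (X : ℝ) ^ d) * (η * (σ.w : ℝ) ^ (r - 1) /
          (2 * d.factorial)) ≤ σ.w * (η * (σ.w : ℝ) ^ (r - 1) / (2 * d.factorial)) :=
        mul_le_mul_of_nonneg_right hbig (by positivity)
      have h2 : (2 * d * 2 ^ J * d.factorial / η * (X : ℝ) ^ d) * (η * (σ.w : ℝ) ^ (r - 1) /
          (2 * d.factorial)) = (d : ℝ) * (2 ^ J * (X : ℝ) ^ d * (σ.w : ℝ) ^ (r - 1)) := by
        field_simp
      have h3 : σ.w * (η * (σ.w : ℝ) ^ (r - 1) / (2 * d.factorial)) =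
          η * ((σ.w : ℝ) ^ r / d.factorial) / 2 := by
        rw [hwr]
        field_simp
      rw [h2, h3] at h1
      refine h1.trans ?_
      have h4 : η * ((σ.w : ℝ) ^ r / d.factorial) ≤ η * P * ((σ.w : ℝ) ^ r / d.factorial) := by
        have h5 : 0 ≤ (σ.w : ℝ) ^ r / d.factorial := by positivity
        have h6 : η ≤ η * P := le_mul_of_one_le_right hη.le hP1
        exact mul_le_mul_of_nonneg_right h6 h5
      linarith
    have h10 := (abs_le.1 hrest).1
    have h11 : η / (2 ^ (d + 1) * d.factorial) * (P * (n0 : ℝ) ^ r) ≤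
        η * P * ((σ.w : ℝ) ^ r / d.factorial) / 2 := by
      have h12 : η / (2 ^ (d + 1) * d.factorial) * (P * (n0 : ℝ) ^ r) ≤
          η / (2 ^ (d + 1) * d.factorial) * (P * (2 ^ d * (σ.w : ℝ) ^ r)) :=
        mul_le_mul_of_nonneg_left (mul_le_mul_of_nonneg_left hn0' (by linarith)) (by positivity)
      refine h12.trans (le_of_eq ?_)
      rw [pow_succ]
      field_simp
    linarith

end Pool.Agent.GD.AL
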