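import Mathlib

/-!
# General d, ALPHA: the finite systems, polynomial bounds
-/

set_option autoImplicit false

namespace Pool.Agent.GD.AL

/-- Bounded by a polynomial in `x` with coefficients which depend on `r`. -/
def Pb (f : (ℕ → ℕ) → ℕ → ℕ) : Prop :=
  ∃ (k : ℕ) (q : (ℕ → ℕ) → ℕ), ∀ r x, f r x ≤ q r * (x + 1) ^ k

theorem Pb.coef (g : (ℕ → ℕ) → ℕ) : Pb fun r _ => g r :=
  ⟨0, g, fun r x => by rw [pow_zero, mul_one]⟩

theorem Pb.id : Pb fun _ x => x :=
  ⟨1, fun _ => 1, fun r x => by rw [pow_one, one_mul]; exact Nat.le_succ x⟩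

theorem Pb.add {f g : (ℕ → ℕ) → ℕ → ℕ} (hf : Pb f) (hg : Pb g) : Pb fun r x => f r x + g r x := by
  obtain ⟨k, q, h⟩ := hf
  obtain ⟨k', q', h'⟩ := hg
  refine ⟨k + k', fun r => q r + q' r, fun r x => ?_⟩
  have h1 : (x + 1) ^ k ≤ (x + 1) ^ (k + k') := Nat.pow_le_pow_right (Nat.succ_pos x) (by omega)
  have h2 : (x + 1) ^ k' ≤ (x + 1) ^ (k + k') := Nat.pow_le_pow_right (Nat.succ_pos x) (by omega)
  calc f r x + g r x ≤ q r * (x + 1) ^ k + q' r * (x + 1) ^ k' := add_le_add (h r x) (h' r x)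
    _ ≤ q r * (x + 1) ^ (k + k') + q' r * (x + 1) ^ (k + k') :=
        add_le_add (Nat.mul_le_mul_left _ h1) (Nat.mul_le_mul_left _ h2)
    _ = (q r + q' r) * (x + 1) ^ (k + k') := by ring

theorem Pb.mul {f g : (ℕ → ℕ) → ℕ → ℕ} (hf : Pb f) (hg : Pb g) : Pb fun r x => f r x * g r x := by
  obtain ⟨k, q, h⟩ := hf
  obtain ⟨k', q', h'⟩ := hg
  refine ⟨k + k', fun r => q r * q' r, fun r x => ?_⟩
  calc f r x * g r x ≤ (q r * (x + 1) ^ k) * (q' r * (x + 1) ^ k') := Nat.mul_le_mul (h r x) (h' r x)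
    _ = q r * q' r * (x + 1) ^ (k + k') := by ring

theorem Pb.pow {f : (ℕ → ℕ) → ℕ → ℕ} (hf : Pb f) (n : ℕ) : Pb fun r x => f r x ^ n := by
  obtain ⟨k, q, h⟩ := hf
  refine ⟨k * n, fun r => q r ^ n, fun r x => ?_⟩
  calc f r x ^ n ≤ (q r * (x + 1) ^ k) ^ n := Nat.pow_le_pow_left (h r x) n
    _ = q r ^ n * (x + 1) ^ (k * n) := by rw [mul_pow, pow_mul]

private theorem log_lin (a b : ℝ) (hb : 0 ≤ b) :
    ∃ X : ℕ, ∀ x : ℕ, X ≤ x → a + b * Real.log ((x : ℝ) + 1) ≤ x := by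
  obtain ⟨X₁, h1⟩ := exists_nat_ge (2 * a + 1)
  obtain ⟨X₂, h2⟩ := exists_nat_ge (16 * b ^ 2)
  refine ⟨X₁ + X₂, fun x hx => ?_⟩
  have hx1 : 2 * a + 1 ≤ (x : ℝ) := h1.trans (by exact_mod_cast (by omega : X₁ ≤ x))
  have hx2 : 16 * b ^ 2 ≤ (x : ℝ) := h2.trans (by exact_mod_cast (by omega : X₂ ≤ x))
  have h0 : (0 : ℝ) ≤ x := Nat.cast_nonneg x
  set y : ℝ := (x : ℝ) + 1 with hy
  have hy0 : 0 < y := by linarith
  have hs : 0 < Real.sqrt y := Real.sqrt_pos.2 hy0
  have hsq : Real.sqrt y * Real.sqrt y = y := Real.mul_self_sqrt hy0.le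
  have hl : Real.log y ≤ 2 * Real.sqrt y := by
    have h3 : Real.log y = 2 * Real.log (Real.sqrt y) := by
      rw [Real.log_sqrt hy0.le]
      ring
    have h4 := Real.log_le_sub_one_of_pos hs
    rw [h3]
    linarith
  have h5 : 4 * b ≤ Real.sqrt y := by
    apply Real.le_sqrt_of_sq_le
    nlinarith
  have h6 : b * Real.log y ≤ y / 2 := by
    calc b * Real.log y ≤ b * (2 * Real.sqrt y) := mul_le_mul_of_nonneg_left hl hb
      _ = 4 * b * Real.sqrt y / 2 := by ring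
      _ ≤ Real.sqrt y * Real.sqrt y / 2 := by
          have := mul_le_mul_of_nonneg_right h5 hs.le
          linarith
      _ = y / 2 := by rw [hsq]
  linarith

theorem Pb.log {f : (ℕ → ℕ) → ℕ → ℕ} (hf : Pb f) (K : ℝ) :
    ∃ F : (ℕ → ℕ) → ℕ, ∀ r x, F r ≤ x → K * (1 + Real.log (f r x)) ≤ x := by
  obtain ⟨k, q, h⟩ := hf
  have key : ∀ r : ℕ → ℕ, ∃ X : ℕ, ∀ x : ℕ, X ≤ x → K * (1 + Real.log (f r x)) ≤ x := by
    intro r
    obtain ⟨X, hX⟩ := log_lin (|K| * (1 + Real.log (q r))) (|K| * k) (by positivity)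
    refine ⟨X, fun x hx => ?_⟩
    refine le_trans ?_ (hX x hx)
    have h0 : 0 ≤ Real.log (f r x) := Real.log_natCast_nonneg _
    have h1 : K * (1 + Real.log (f r x)) ≤ |K| * (1 + Real.log (f r x)) :=
      mul_le_mul_of_nonneg_right (le_abs_self K) (by linarith)
    have h2 : Real.log (f r x) ≤ Real.log (q r) + k * Real.log ((x : ℝ) + 1) := by
      have hx1 : (0 : ℝ) ≤ Real.log ((x : ℝ) + 1) := by
        have := Real.log_natCast_nonneg (x + 1)
        push_cast at this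
        exact this
      rcases Nat.eq_zero_or_pos (f r x) with h3 | h3
      · rw [h3, Nat.cast_zero, Real.log_zero]
        exact add_nonneg (Real.log_natCast_nonneg _) (mul_nonneg (Nat.cast_nonneg _) hx1)
      · have h4 : 0 < q r := by
          rcases Nat.eq_zero_or_pos (q r) with h5 | h5
          · have h6 := h r x
            rw [h5, zero_mul] at h6
            omega
          · exact h5
        have h5 : (f r x : ℝ) ≤ q r * ((x : ℝ) + 1) ^ k := by exact_mod_cast h r x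
        have h6 : (0 : ℝ) < f r x := by exact_mod_cast h3
        have h7 : (0 : ℝ) < q r := by exact_mod_cast h4
        have h8 : (0 : ℝ) < (x : ℝ) + 1 := by positivity
        calc Real.log (f r x) ≤ Real.log (q r * ((x : ℝ) + 1) ^ k) := Real.log_le_log h6 h5
          _ = Real.log (q r) + k * Real.log ((x : ℝ) + 1) := by
              rw [Real.log_mul h7.ne' (pow_pos h8 k).ne', Real.log_pow]
    refine h1.trans ?_
    have h3 := mul_le_mul_of_nonneg_left h2 (abs_nonneg K)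
    calc |K| * (1 + Real.log (f r x)) = |K| + |K| * Real.log (f r x) := by ring
      _ ≤ |K| + |K| * (Real.log (q r) + k * Real.log ((x : ℝ) + 1)) := by linarith
      _ = _ := by ring
  choose F hF using key
  exact ⟨F, fun r x hx => hF r x hx⟩

end Pool.Agent.GD.AL
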