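import Pool.Agent.GD.AL.St

/-!
# General d, ALPHA: states, basic facts
-/

set_option autoImplicit false
set_option linter.unusedVariables false

namespace Pool.Agent.GD.AL

open Finset Pool.Agent.V7.ST Pool.Agent.H51.TB
open Pool.Agent.H21.NX (Sx mem_Sx)

/-! ### The number of the exponents -/

section count

private theorem Bas_card_Sx {ι : Type} [Fintype ι] [DecidableEq ι] (n : ℕ) :
    (Sx ι n).card = Nat.multichoose (Fintype.card ι) n := by
  rw [← card_univ, ← card_finsuppAntidiag_nat_eq_multichoose]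
  symm
  apply card_bij (fun (α : ι →₀ ℕ) _ => (⇑α : ι → ℕ))
  · intro α hα
    rw [mem_finsuppAntidiag] at hα
    exact mem_Sx.2 hα.1
  · intro α _ β _ h
    exact DFunLike.coe_injective h
  · intro f hf
    refine ⟨Finsupp.equivFunOnFinite.symm f, ?_, rfl⟩
    rw [mem_finsuppAntidiag]
    exact ⟨mem_Sx.1 hf, subset_univ _⟩

variable {ν : Type} [Fintype ν] [DecidableEq ν]

private theorem Bas_avoid (D : ℕ) (β : ν → ℕ) (I : Finset ℕ) :
    ((Sx ν D).filter fun a => ∀ s, β s ∈ I → a s = 0).card =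
      Nat.multichoose (Fintype.card {s : ν // β s ∉ I}) D := by
  classical
  rw [← Bas_card_Sx (ι := {s : ν // β s ∉ I}) D]
  refine card_nbij' (fun a s => a s.1) (fun a s => if h : β s ∉ I then a ⟨s, h⟩ else 0) ?_ ?_ ?_ ?_
  · intro a ha
    rw [mem_coe, mem_filter, mem_Sx] at ha
    rw [mem_coe, mem_Sx, ← ha.1]
    have h1 : ∑ s, a s = ∑ s ∈ univ.filter (fun s => β s ∉ I), a s := by
      rw [sum_filter]
      refine sum_congr rfl fun s _ => ?_
      by_cases h : β s ∉ I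
      · rw [if_pos h]
      · rw [if_neg h]
        exact ha.2 s (not_not.1 h)
    rw [h1]
    exact (sum_subtype (univ.filter fun s => β s ∉ I) (by simp) a).symm
  · intro a ha
    rw [mem_coe, mem_Sx] at ha
    rw [mem_coe, mem_filter, mem_Sx]
    refine ⟨?_, fun s hs => dif_neg (not_not.2 hs)⟩
    rw [← ha]
    have h1 : ∑ s, (if h : β s ∉ I then a ⟨s, h⟩ else 0) =
        ∑ s ∈ univ.filter (fun s => β s ∉ I), (if h : β s ∉ I then a ⟨s, h⟩ else 0) := by
      rw [sum_filter]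
      refine sum_congr rfl fun s _ => ?_
      by_cases h : β s ∉ I
      · rw [if_pos h]
      · rw [dif_neg h, if_neg h]
    rw [h1, sum_subtype (univ.filter fun s => β s ∉ I) (p := fun s => β s ∉ I) (by simp)
      (fun s => if h : β s ∉ I then a ⟨s, h⟩ else 0)]
    exact sum_congr rfl fun s _ => dif_pos s.2
  · intro a ha
    rw [mem_coe, mem_filter] at ha
    funext s
    show (if h : β s ∉ I then a s else 0) = a s
    by_cases h : β s ∉ I
    · rw [dif_pos h]
    · rw [dif_neg h, ha.2 s (not_not.1 h)]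
  · intro a _
    funext s
    exact dif_pos s.2

private theorem Bas_card_Ex (D : ℕ) (β : ν → ℕ) (I : Finset ℕ) :
    ((Ex β D I).card : ℤ) = ∑ I' ∈ I.powerset, (-1) ^ I'.card *
      (Nat.multichoose (Fintype.card {s : ν // β s ∉ I'}) D : ℤ) := by
  classical
  have h1 : ((Ex β D I).card : ℤ) = ∑ a ∈ Sx ν D, ∏ i ∈ I,
      ((-1) * (if ∀ s, β s = i → a s = 0 then (1 : ℤ) else 0) + 1) := by
    unfold Ex
    rw [card_filter]
    push_cast
    refine sum_congr rfl fun a _ => ?_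
    split_ifs with h
    · refine (prod_eq_one fun i hi => ?_).symm
      rw [if_neg]
      · ring
      · intro h2
        obtain ⟨s, hs, has⟩ := h i hi
        exact has (h2 s hs)
    · push Not at h
      obtain ⟨i, hi, h2⟩ := h
      refine (prod_eq_zero hi ?_).symm
      rw [if_pos fun s hs => h2 s hs]
      ring
  rw [h1]
  simp_rw [prod_add, prod_const_one, mul_one, prod_mul_distrib, prod_const]
  rw [sum_comm]
  refine sum_congr rfl fun I' _ => ?_
  rw [← mul_sum]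
  congr 1
  rw [← Bas_avoid, card_filter]
  push_cast
  refine sum_congr rfl fun a _ => ?_
  rw [prod_ite_zero, prod_const_one]
  refine if_congr ?_ rfl rfl
  constructor
  · intro h s hs
    exact h (β s) hs s rfl
  · intro h i hi s hs
    exact h s (by rw [hs]; exact hi)

end count

section Bas

variable {d J D : ℕ} {σ : St} {I : Finset ℕ}

theorem St.H_kill (hD : D ≤ d) {a : ℕ} (ha : a < J) (hc : 1 ≤ σ.c a) (hI : I ⊆ range J)
    (hm : ∀ k ∈ σ.ms, k.Ok d J) :
    (σ.ad (.ord 1 ((range J).erase a))).H d J I D = (σ.lo a 1).H d J I D := by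
  have h1 := HI_kill_size (β := bt J σ.c σ.w)
    (β' := bt J (Function.update σ.c a (σ.c a - 1)) σ.w) hD
    (Sum.inl ⟨⟨a, ha⟩, ⟨0, hc⟩⟩ : Vr J σ.c σ.w) (by
      rw [card_Vr, card_Vr]
      exact σ.n_lo (J := J) ha hc) (by
      intro i hi
      rw [card_bt _ _ hi, card_bt _ _ hi]
      show Function.update σ.c a (σ.c a - 1) i + (if a = i then 1 else 0) = σ.c i
      by_cases h : a = i
      · subst h
        rw [if_pos rfl, Function.update_self]
        omega
      · rw [if_neg h, Function.update_of_ne (Ne.symm h), Nat.add_zero]) hI σ.ms hm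
  exact h1

theorem St.H_killw (hD : D ≤ d) (hw : 1 ≤ σ.w) (hI : I ⊆ range J) (hm : ∀ k ∈ σ.ms, k.Ok d J) :
    (σ.ad (.ord 1 (range J))).H d J I D = (σ.lw 1).H d J I D := by
  have h1 := HI_kill_size (β := bt J σ.c σ.w) (β' := bt J σ.c (σ.w - 1)) hD
    (Sum.inr ⟨0, hw⟩ : Vr J σ.c σ.w) (by
      rw [card_Vr, card_Vr]
      omega) (by
      intro i hi
      rw [card_bt _ _ hi, card_bt _ _ hi]
      show σ.c i + (if J = i then 1 else 0) = σ.c i
      rw [if_neg (Nat.ne_of_gt hi), Nat.add_zero]) hI σ.ms hm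
  have h2 : (range J).erase (bt J σ.c σ.w (Sum.inr ⟨0, hw⟩)) = range J :=
    erase_eq_of_notMem fun h => absurd (mem_range.1 h) (lt_irrefl J)
  rw [h2] at h1
  exact h1

theorem St.V_ord {x : ℕ} (A : Finset ℕ) (hx : x ≤ D) :
    (σ.ad (.ord x A)).V J I D = σ.V J I D - σ.V J (I ∩ A) (D - x) := by
  show vd D I σ.c (σ.n J) (.ord x A ::ₘ σ.ms) = _
  rw [vd_ord, if_pos hx]
  rfl

theorem St.V_ord_lt {x : ℕ} (A : Finset ℕ) (hx : D < x) : (σ.ad (.ord x A)).V J I D = σ.V J I D := by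
  show vd D I σ.c (σ.n J) (.ord x A ::ₘ σ.ms) = _
  rw [vd_ord, if_neg (by omega), sub_zero]
  rfl

private theorem Bas_sum_lo {a : ℕ} (hI : I ⊆ range J) : ∑ i ∈ I, (σ.lo a 1).c i ≤ (σ.lo a 1).n J := by
  unfold St.n
  exact (sum_le_sum_of_subset hI).trans (Nat.le_add_right _ _)

theorem St.V_lo {a : ℕ} (ha : a ∈ I) (hI : I ⊆ range J) (hc : 1 ≤ σ.c a) :
    (σ.lo a 1).V J I (D + 1) = σ.V J I (D + 1) - σ.V J (I.erase a) D := by
  have h1 := vd_upd D (c := (σ.lo a 1).c) (n := (σ.lo a 1).n J) ha (Bas_sum_lo hI) σ.ms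
  have h2 : Function.update (σ.lo a 1).c a ((σ.lo a 1).c a + 1) = σ.c := by
    funext i
    by_cases h : i = a
    · subst h
      rw [Function.update_self]
      show Function.update σ.c i (σ.c i - 1) i + 1 = σ.c i
      rw [Function.update_self]
      omega
    · rw [Function.update_of_ne h]
      exact Function.update_of_ne h _ _
  rw [h2, σ.n_lo (mem_range.1 (hI ha)) hc] at h1
  show vd (D + 1) I (σ.lo a 1).c ((σ.lo a 1).n J) σ.ms = _
  unfold St.V
  rw [h1]
  ring

private theorem Bas_V_lo_notMem {a : ℕ} (ha : a ∉ I) (D : ℕ) (ms : Multiset Kd) (n : ℕ) :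
    vd D I (σ.lo a 1).c n ms = vd D I σ.c n ms := by
  refine vd_congr_c fun i hi => ?_
  have h : i ≠ a := fun h => ha (h ▸ hi)
  exact Function.update_of_ne h _ _

private theorem Bas_sum_notMem {a : ℕ} (ha : a ∉ I) (hI : I ⊆ range J) :
    ∑ i ∈ I, σ.c i ≤ (σ.lo a 1).n J := by
  have h1 : ∑ i ∈ I, σ.c i = ∑ i ∈ I, (σ.lo a 1).c i := by
    refine sum_congr rfl fun i hi => ?_
    have h : i ≠ a := fun h => ha (h ▸ hi)
    exact (Function.update_of_ne h _ _).symm
  rw [h1]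
  exact Bas_sum_lo hI

theorem St.V_lo' {a : ℕ} (ha : a ∉ I) (haJ : a < J) (hI : I ⊆ range J) (hc : 1 ≤ σ.c a) :
    (σ.lo a 1).V J I (D + 1) = σ.V J I (D + 1) - σ.V J I D := by
  have h1 := vd_succ D (Bas_sum_notMem (σ := σ) ha hI) σ.ms
  rw [σ.n_lo haJ hc] at h1
  show vd (D + 1) I (σ.lo a 1).c ((σ.lo a 1).n J) σ.ms = _
  rw [Bas_V_lo_notMem ha]
  unfold St.V
  rw [h1]
  ring

private theorem Bas_sum_lw (hI : I ⊆ range J) (s : ℕ) : ∑ i ∈ I, σ.c i ≤ (σ.lw s).n J := by
  unfold St.n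
  exact (sum_le_sum_of_subset (f := σ.c) hI).trans (Nat.le_add_right _ _)

theorem St.V_lw (hI : I ⊆ range J) (hw : 1 ≤ σ.w) :
    (σ.lw 1).V J I (D + 1) = σ.V J I (D + 1) - σ.V J I D := by
  have h1 := vd_succ D (Bas_sum_lw (σ := σ) hI 1) σ.ms
  rw [σ.n_lw hw] at h1
  show vd (D + 1) I σ.c ((σ.lw 1).n J) σ.ms = _
  unfold St.V
  rw [h1]
  ring

private theorem Bas_sum_n (hI : I ⊆ range J) : ∑ i ∈ I, σ.c i ≤ σ.n J :=
  (sum_le_sum_of_subset (f := σ.c) hI).trans (Nat.le_add_right _ _)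

theorem St.V_low (hI : I ⊆ range J) (hm : ∀ k ∈ σ.ms, AdmO d J k) (hD : D < I.card) :
    σ.V J I D = 0 := by
  refine vd_low (J := range J) (Bas_sum_n subset_rfl) σ.ms (fun k hk => ?_) I hI D hD
  obtain ⟨x, A, rfl, -, -, -, h⟩ := hm k hk
  exact h

private theorem Bas_card_le {ν : Type} [Fintype ν] [DecidableEq ν] {β : ν → ℕ} {a : ν → ℕ}
    (h : a ∈ Ex β D I) : I.card ≤ D := by
  classical
  rw [mem_Ex] at h
  have h1 : ∀ i ∈ I, 1 ≤ ∑ s ∈ univ.filter (fun s => β s = i), a s := by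
    intro i hi
    obtain ⟨s, hs, has⟩ := h.2 i hi
    have h2 : a s ≤ ∑ s ∈ univ.filter (fun s => β s = i), a s :=
      single_le_sum (f := a) (fun _ _ => Nat.zero_le _) (mem_filter.2 ⟨mem_univ _, hs⟩)
    omega
  have h2 : I.card ≤ ∑ i ∈ I, ∑ s ∈ univ.filter (fun s => β s = i), a s := by
    rw [card_eq_sum_ones]
    exact sum_le_sum h1
  have h3 : ∑ i ∈ I, ∑ s ∈ univ.filter (fun s => β s = i), a s =
      ∑ s ∈ univ.filter (fun s => β s ∈ I), a s := by
    rw [← sum_fiberwise_of_maps_to (s := univ.filter fun s => β s ∈ I) (t := I) (g := β)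
      (fun s hs => (mem_filter.1 hs).2)]
    refine sum_congr rfl fun i hi => sum_congr ?_ fun _ _ => rfl
    ext s
    simp only [mem_filter, mem_univ, true_and]
    constructor
    · rintro rfl
      exact ⟨hi, rfl⟩
    · exact fun h => h.2
  rw [h3] at h2
  refine h2.trans ((sum_le_sum_of_subset (subset_univ _)).trans ?_)
  rw [h.1]

private theorem Bas_HI_low {ν : Type} [Fintype ν] [DecidableEq ν] (β : ν → ℕ) (hD : D < I.card)
    (ms : Multiset Kd) : HI d D β I ms = 0 := by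
  have h1 : HI d D β I ms ≤ HI d D β I 0 := HI_anti D β I (Multiset.zero_le ms)
  have h2 : HI d D β I 0 = (Ex β D I).card := by
    unfold HI
    rw [gM_zero, Fintype.card_coe]
  have h3 : (Ex β D I).card = 0 := by
    rw [card_eq_zero]
    refine eq_empty_of_forall_notMem fun a ha => ?_
    have := Bas_card_le ha
    omega
  omega

theorem St.H_low (hD : D < I.card) : σ.H d J I D = 0 :=
  Bas_HI_low _ hD _

/-- The number of the variables off some blocks. -/
private theorem Bas_card_off (hI : I ⊆ range J) :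
    Fintype.card {s : Vr J σ.c σ.w // bt J σ.c σ.w s ∉ I} = σ.n J - ∑ i ∈ I, σ.c i := by
  classical
  have h1 : Fintype.card {s : Vr J σ.c σ.w // bt J σ.c σ.w s ∉ I} +
      (univ.filter fun s : Vr J σ.c σ.w => bt J σ.c σ.w s ∈ I).card = σ.n J := by
    rw [Fintype.card_subtype]
    have h2 := card_filter_add_card_filter_not (s := (univ : Finset (Vr J σ.c σ.w)))
      (p := fun s => bt J σ.c σ.w s ∈ I)
    rw [card_univ, card_Vr] at h2
    unfold St.n
    omega
  have h2 : (univ.filter fun s : Vr J σ.c σ.w => bt J σ.c σ.w s ∈ I).card = ∑ i ∈ I, σ.c i := by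
    rw [card_eq_sum_card_fiberwise (f := bt J σ.c σ.w)
      (s := univ.filter fun s : Vr J σ.c σ.w => bt J σ.c σ.w s ∈ I) (t := I)
      fun s hs => (mem_filter.1 (mem_coe.1 hs)).2]
    refine sum_congr rfl fun i hi => ?_
    rw [← card_bt σ.c σ.w (mem_range.1 (hI hi))]
    congr 1
    ext s
    simp only [mem_filter, mem_univ, true_and]
    constructor
    · exact fun h => h.2
    · rintro rfl
      exact ⟨hi, rfl⟩
  omega

private theorem Bas_empty (hI : I ⊆ range J) :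
    (HI d D (bt J σ.c σ.w) I 0 : ℤ) = vd D I σ.c (σ.n J) 0 := by
  have h2 : HI d D (bt J σ.c σ.w) I 0 = (Ex (bt J σ.c σ.w) D I).card := by
    unfold HI
    rw [gM_zero, Fintype.card_coe]
  rw [h2, Bas_card_Ex]
  unfold vd
  refine sum_congr rfl fun I' hI' => ?_
  rw [Bas_card_off ((mem_powerset.1 hI').trans hI), Multiset.map_zero, Multiset.prod_zero, one_mul]
  unfold hs
  rw [PowerSeries.coeff_mk]

/-- The trivial bound. -/
theorem St.H_le {c0 : ℕ → ℕ} {n0 : ℕ} (hD : D ≤ d) (hI : I ⊆ range J) (hc : ∀ l ∈ I, σ.c l ≤ c0 l)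
    (hn : σ.n J ≤ n0) (hID : I.card ≤ D) : (σ.H d J I D : ℝ) ≤ nz c0 n0 I D := by
  have h1 : HI d D (bt J σ.c σ.w) I σ.ms ≤ HI d D (bt J σ.c σ.w) I 0 :=
    HI_anti D _ I (Multiset.zero_le _)
  have h2 : (HI d D (bt J σ.c σ.w) I 0 : ℤ) ≤ (∏ i ∈ I, (σ.c i : ℤ)) * (σ.n J : ℤ) ^ (D - I.card) := by
    rw [Bas_empty hI]
    exact vd_empty_le D (Bas_sum_n hI)
  have h3 : ((HI d D (bt J σ.c σ.w) I 0 : ℕ) : ℝ) ≤
      (∏ i ∈ I, (σ.c i : ℝ)) * (σ.n J : ℝ) ^ (D - I.card) := by exact_mod_cast h2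
  have h4 : ((HI d D (bt J σ.c σ.w) I σ.ms : ℕ) : ℝ) ≤ ((HI d D (bt J σ.c σ.w) I 0 : ℕ) : ℝ) := by
    exact_mod_cast h1
  refine (h4.trans h3).trans ?_
  unfold nz
  refine mul_le_mul ?_ ?_ (by positivity) (by positivity)
  · exact prod_le_prod (fun _ _ => Nat.cast_nonneg _) fun i hi => by exact_mod_cast hc i hi
  · exact pow_le_pow_left₀ (Nat.cast_nonneg _) (by exact_mod_cast hn) _

/-- The empty configuration is exact. -/
theorem St.Ex_nil (hD : D ≤ d) (hI : I ⊆ range J) (hm : σ.ms = 0) : σ.Ex d J I D := by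
  unfold St.Ex St.H St.V
  rw [hm]
  exact Bas_empty hI

/-- A killed vector: the virtual dimension. -/
theorem St.V_kill {a : ℕ} (ha : a < J) (hc : 1 ≤ σ.c a) (hI : I ⊆ range J) :
    (σ.ad (.ord 1 ((range J).erase a))).V J I D = (σ.lo a 1).V J I D := by
  by_cases haI : a ∈ I
  · have h1 := vd_one_upd D (c := (σ.lo a 1).c) (n := (σ.lo a 1).n J) haI
      (notMem_erase a (range J)) (erase_subset_erase a hI) (Bas_sum_lo hI) σ.ms
    have h2 : Function.update (σ.lo a 1).c a ((σ.lo a 1).c a + 1) = σ.c := by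
      funext i
      by_cases h : i = a
      · subst h
        rw [Function.update_self]
        show Function.update σ.c i (σ.c i - 1) i + 1 = σ.c i
        rw [Function.update_self]
        omega
      · rw [Function.update_of_ne h]
        exact Function.update_of_ne h _ _
    rw [h2, σ.n_lo ha hc] at h1
    exact h1
  · have h1 := vd_one D (A := (range J).erase a)
      (fun i hi => mem_erase.2 ⟨fun h => haI (h ▸ hi), hI hi⟩)
      (Bas_sum_notMem (σ := σ) haI hI) σ.ms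
    rw [σ.n_lo ha hc] at h1
    show vd D I σ.c (σ.n J) _ = vd D I (σ.lo a 1).c ((σ.lo a 1).n J) σ.ms
    rw [Bas_V_lo_notMem haI]
    exact h1

theorem St.V_killw (hw : 1 ≤ σ.w) (hI : I ⊆ range J) :
    (σ.ad (.ord 1 (range J))).V J I D = (σ.lw 1).V J I D := by
  have h1 := vd_one D hI (Bas_sum_lw (σ := σ) hI 1) σ.ms
  rw [σ.n_lw hw] at h1
  exact h1

/-- An object may be specialised into the blocks which are not in `I`. -/
theorem St.dl_spec (hD : D ≤ d) {x : ℕ} {A B : Finset ℕ} (hAB : A ⊆ B) (h : I ∩ A = I ∩ B) :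
    (σ.ad (.ord x A)).dl d J I D ≤ (σ.ad (.ord x B)).dl d J I D := by
  unfold St.dl
  have h1 : (σ.ad (.ord x A)).V J I D = (σ.ad (.ord x B)).V J I D :=
    vd_ord_congr D I σ.c (σ.n J) x (by rw [inter_comm A, inter_comm B, h]) σ.ms
  have h2 : (σ.ad (.ord x A)).H d J I D ≤ (σ.ad (.ord x B)).H d J I D :=
    HI_ord_le hD _ I x hAB σ.ms
  rw [h1]
  have h3 : ((σ.ad (.ord x A)).H d J I D : ℤ) ≤ ((σ.ad (.ord x B)).H d J I D : ℤ) := by
    exact_mod_cast h2
  omega

/-- A point whose exponent is larger than the degree gives no conditions. -/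
private theorem Bas_void {ν : Type} [Fintype ν] [DecidableEq ν] (hD : D ≤ d) (β : ν → ℕ) {x : ℕ}
    (A : Finset ℕ) (h : D < x) (ms : Multiset Kd) :
    HI d D β I ms ≤ HI d D β I (.ord x A ::ₘ ms) := by
  obtain ⟨m, hm, -⟩ := exists_conf (LS d D β I) ms
  obtain ⟨p, hp⟩ := gd_attained (LS d D β I) (ad m (.ord x A))
  have h1 : HI d D β I (.ord x A ::ₘ ms) = (LS d D β I).gd (ad m (.ord x A)) := by
    unfold HI
    rw [gd_eq_gM, map_ad, hm]
  have h2 : HI d D β I ms = (LS d D β I).gd m := by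
    unfold HI
    rw [gd_eq_gM, hm]
  rw [h1, h2, ← hp]
  refine (gd_le (LS d D β I) m fun i => p (Sum.inl i)).trans (Submodule.finrank_mono fun f hf => ?_)
  rw [mem_LS hD] at hf ⊢
  intro i
  rcases i with i | u
  · exact hf i
  · refine ⟨fun y hy => ?_, trivial⟩
    refine (sata_iff (fun a ha => Ex_sum ha) _ f _).1 fun b hb => ?_
    exact absurd hb (by show ¬ (∑ s, b s + x ≤ D); omega)

/-- Points without effect. -/
theorem St.dl_drop (hD : D ≤ d) (hI : I ⊆ range J) (hm : ∀ k ∈ σ.ms, AdmO d J k) {x : ℕ}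
    (A : Finset ℕ) (h : D < x ∨ D - x < (I ∩ A).card) :
    (σ.ad (.ord x A)).H d J I D = σ.H d J I D ∧ (σ.ad (.ord x A)).V J I D = σ.V J I D := by
  rcases lt_or_ge D x with hx | hx
  · exact ⟨le_antisymm (HI_cons_le D _ I _ _) (Bas_void hD _ A hx _), σ.V_ord_lt A hx⟩
  · have h' : D - x < (I ∩ A).card := h.resolve_left (by omega)
    constructor
    · refine le_antisymm (HI_cons_le D _ I _ _) ?_
      have h1 := HI_ctr hD hx (bt J σ.c σ.w) I A σ.ms
      rw [Bas_HI_low _ h' σ.ms, Nat.add_zero] at h1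
      exact h1
    · rw [σ.V_ord A hx, σ.V_low (inter_subset_left.trans hI) hm h', sub_zero]

/-- `FACT 4`. -/
theorem St.dl_fact4 (hD : D ≤ d) {x : ℕ} (A : Finset ℕ) (hx : x ≤ D) :
    σ.dl d J I D ≤ (σ.ad (.ord x A)).dl d J I D + σ.dl d J (I ∩ A) (D - x) := by
  unfold St.dl
  rw [σ.V_ord A hx]
  have h1 : σ.H d J I D ≤ (σ.ad (.ord x A)).H d J I D + σ.H d J (I ∩ A) (D - x) :=
    HI_ctr hD hx (bt J σ.c σ.w) I A σ.ms
  have h2 : (σ.H d J I D : ℤ) ≤ ((σ.ad (.ord x A)).H d J I D : ℤ) +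
      (σ.H d J (I ∩ A) (D - x) : ℤ) := by exact_mod_cast h1
  omega

end Bas

end Pool.Agent.GD.AL
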