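import Pool.Agent.GD.AL.P1
import Pool.Agent.GD.AL.Bas

/-!
# General d, ALPHA: the exact states
-/

set_option autoImplicit false

namespace Pool.Agent.GD.AL

open Finset

section Exc

variable {d J D D₁ : ℕ} {σ τ : St} {I I₂ : Finset ℕ} {c0 : ℕ → ℕ} {n0 : ℕ} {η η' : ℝ}

private theorem nz_nonneg' (c0 : ℕ → ℕ) (n0 : ℕ) (I : Finset ℕ) (D : ℕ) : 0 ≤ nz c0 n0 I D := by
  unfold nz
  positivity

private theorem nz_pos' {c0 : ℕ → ℕ} {n0 : ℕ} {I : Finset ℕ} (D : ℕ) (hc : ∀ l ∈ I, 0 < c0 l)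
    (hn : 0 < n0) : 0 < nz c0 n0 I D := by
  unfold nz
  refine mul_pos (prod_pos fun l hl => ?_) (pow_pos ?_ _)
  · exact_mod_cast hc l hl
  · exact_mod_cast hn

private theorem nz_erase' (c0 : ℕ → ℕ) (n0 : ℕ) {I : Finset ℕ} {a : ℕ} (ha : a ∈ I) (D : ℕ) :
    nz c0 n0 I (D + 1) = c0 a * nz c0 n0 (I.erase a) D := by
  unfold nz
  rw [← mul_prod_erase I (fun i => (c0 i : ℝ)) ha, card_erase_of_mem ha]
  have h1 : 0 < I.card := card_pos.2 ⟨a, ha⟩
  have h2 : D + 1 - I.card = D - (I.card - 1) := by omega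
  rw [h2]
  ring

private theorem nz_succ' (c0 : ℕ → ℕ) (n0 : ℕ) {I : Finset ℕ} {D : ℕ} (h : I.card ≤ D) :
    nz c0 n0 I (D + 1) = n0 * nz c0 n0 I D := by
  unfold nz
  have h2 : D + 1 - I.card = (D - I.card) + 1 := by omega
  rw [h2, pow_succ]
  ring

private theorem pos_mono (h : η' ≤ η) (hp : Pos J c0 n0 η σ I D) : Pos J c0 n0 η' σ I D :=
  fun I' hI' D' h1 h2 => (mul_le_mul_of_nonneg_right h (nz_nonneg' _ _ _ _)).trans
    (hp I' hI' D' h1 h2)

private theorem card_tr {I I' I'' : Finset ℕ} :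
    (I \ I'').card ≤ (I \ I').card + (I' \ I'').card := by
  refine le_trans (card_le_card ?_) (card_union_le _ _)
  intro x hx
  rw [mem_sdiff] at hx
  rw [mem_union, mem_sdiff, mem_sdiff]
  by_cases h : x ∈ I'
  · exact Or.inr ⟨h, hx.2⟩
  · exact Or.inl ⟨hx.1, h⟩

private theorem pos_sub {I' : Finset ℕ} {D' : ℕ} (hI' : I' ⊆ I) (h : D' + (I \ I').card ≤ D)
    (hp : Pos J c0 n0 η σ I D) : Pos J c0 n0 η σ I' D' := by
  intro I'' hI'' D'' h1 h2
  refine hp I'' (hI''.trans hI') D'' h1 ?_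
  have h3 := card_tr (I := I) (I' := I') (I'' := I'')
  omega

private theorem lo_lo (σ : St) (a t : ℕ) : (σ.lo a t).lo a 1 = σ.lo a (t + 1) := by
  unfold St.lo
  simp only [Function.update_self, Function.update_idem, Nat.sub_sub]

private theorem lo_zero (σ : St) (a : ℕ) : σ.lo a 0 = σ := by
  unfold St.lo
  simp only [Nat.sub_zero, Function.update_eq_self]

private theorem lw_zero (σ : St) : σ.lw 0 = σ := rfl

private theorem V_zero (σ τ : St) (h : σ.ms = τ.ms) : σ.V J ∅ 0 = τ.V J ∅ 0 := by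
  unfold St.V
  rw [vd_nil, vd_nil, h, PowerSeries.coeff_mul, PowerSeries.coeff_mul]
  simp [hs]

/-- The virtual dimensions of a state are bounded. -/
private theorem V_le (hD : D₁ ≤ d) (hI : I₂ ⊆ range J) (hc : ∀ l, τ.c l ≤ c0 l) (hn : τ.n J ≤ n0)
    (hex : ∀ I' ⊆ I₂, ∀ D' : ℕ, D' + (I₂ \ I').card ≤ D₁ → τ.Ex d J I' D') {I' : Finset ℕ}
    (hI' : I' ⊆ I₂) {D' : ℕ} (h1 : I'.card ≤ D') (h2 : D' + (I₂ \ I').card ≤ D₁) :
    (τ.V J I' D' : ℝ) ≤ nz c0 n0 I' D' := by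
  have h3 : (τ.H d J I' D' : ℤ) = τ.V J I' D' := hex I' hI' D' h2
  have h4 : ((τ.V J I' D' : ℤ) : ℝ) = (τ.H d J I' D' : ℝ) := by
    rw [← h3]
    exact Int.cast_natCast _
  rw [h4]
  exact St.H_le (by omega) (hI'.trans hI) (fun l _ => hc l) hn h1

/-- One vector of the block `a` less. -/
private theorem dec_lo (hD : D₁ ≤ d) (hI : I₂ ⊆ range J) (hc : ∀ l, τ.c l ≤ c0 l)
    (hn : τ.n J ≤ n0) (hm : ∀ k ∈ τ.ms, AdmO d J k)
    (hex : ∀ I' ⊆ I₂, ∀ D' : ℕ, D' + (I₂ \ I').card ≤ D₁ → τ.Ex d J I' D') {a : ℕ}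
    (ha : a ∈ I₂) (hca : 1 ≤ τ.c a) {K : ℝ} (hK : 0 < K) (hKa : K ≤ c0 a) (hKn : K ≤ n0)
    (hp : Pos J c0 n0 η τ I₂ D₁) : Pos J c0 n0 (η - 1 / K) (τ.lo a 1) I₂ D₁ := by
  intro I' hI' D' h1 h2
  have h3 := hp I' hI' D' h1 h2
  have haJ : a < J := mem_range.1 (hI ha)
  have hz := nz_nonneg' c0 n0 I' D'
  have hinv : 0 ≤ 1 / K * nz c0 n0 I' D' := by positivity
  rcases D' with _ | D'
  · have h4 : I' = ∅ := card_eq_zero.1 (Nat.le_zero.1 h1)
    subst h4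
    rw [V_zero (J := J) (τ.lo a 1) τ rfl]
    rw [sub_mul]
    linarith
  · by_cases haI : a ∈ I'
    · rw [St.V_lo haI (hI'.trans hI) hca]
      have h5 : I₂ \ I'.erase a ⊆ insert a (I₂ \ I') := by
        intro y hy
        rw [mem_sdiff, mem_erase] at hy
        rw [mem_insert, mem_sdiff]
        by_cases hya : y = a
        · exact Or.inl hya
        · exact Or.inr ⟨hy.1, fun h => hy.2 ⟨hya, h⟩⟩
      have h6 : (I₂ \ I'.erase a).card ≤ (I₂ \ I').card + 1 :=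
        (card_le_card h5).trans (card_insert_le _ _)
      have h7 : (I'.erase a).card ≤ D' := by
        rw [card_erase_of_mem haI]
        omega
      have h8 := V_le hD hI hc hn hex ((erase_subset a I').trans hI') h7 (by omega)
      have h9 := nz_erase' c0 n0 haI D'
      have h10 : nz c0 n0 (I'.erase a) D' ≤ 1 / K * nz c0 n0 I' (D' + 1) := by
        rw [h9, one_div, ← div_eq_inv_mul, le_div_iff₀ hK, mul_comm]
        exact mul_le_mul_of_nonneg_right hKa (nz_nonneg' _ _ _ _)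
      push_cast
      rw [sub_mul]
      linarith
    · rw [St.V_lo' haI haJ (hI'.trans hI) hca]
      by_cases h5 : I'.card ≤ D'
      · have h8 := V_le hD hI hc hn hex hI' h5 (by omega)
        have h9 := nz_succ' c0 n0 h5
        have h10 : nz c0 n0 I' D' ≤ 1 / K * nz c0 n0 I' (D' + 1) := by
          rw [h9, one_div, ← div_eq_inv_mul, le_div_iff₀ hK, mul_comm]
          exact mul_le_mul_of_nonneg_right hKn (nz_nonneg' _ _ _ _)
        push_cast
        rw [sub_mul]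
        linarith
      · have h6 : τ.V J I' D' = 0 := St.V_low (hI'.trans hI) hm (by omega)
        rw [h6]
        push_cast
        rw [sub_mul]
        linarith

/-- One of the other variables less. -/
private theorem dec_lw (hD : D₁ ≤ d) (hI : I₂ ⊆ range J) (hc : ∀ l, τ.c l ≤ c0 l)
    (hn : τ.n J ≤ n0) (hm : ∀ k ∈ τ.ms, AdmO d J k)
    (hex : ∀ I' ⊆ I₂, ∀ D' : ℕ, D' + (I₂ \ I').card ≤ D₁ → τ.Ex d J I' D')
    (hw : 1 ≤ τ.w) {K : ℝ} (hK : 0 < K) (hKn : K ≤ n0)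
    (hp : Pos J c0 n0 η τ I₂ D₁) : Pos J c0 n0 (η - 1 / K) (τ.lw 1) I₂ D₁ := by
  intro I' hI' D' h1 h2
  have h3 := hp I' hI' D' h1 h2
  have hz := nz_nonneg' c0 n0 I' D'
  have hinv : 0 ≤ 1 / K * nz c0 n0 I' D' := by positivity
  rcases D' with _ | D'
  · have h4 : I' = ∅ := card_eq_zero.1 (Nat.le_zero.1 h1)
    subst h4
    rw [V_zero (J := J) (τ.lw 1) τ rfl]
    rw [sub_mul]
    linarith
  · rw [St.V_lw (hI'.trans hI) hw]
    by_cases h5 : I'.card ≤ D'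
    · have h8 := V_le hD hI hc hn hex hI' h5 (by omega)
      have h9 := nz_succ' c0 n0 h5
      have h10 : nz c0 n0 I' D' ≤ 1 / K * nz c0 n0 I' (D' + 1) := by
        rw [h9, one_div, ← div_eq_inv_mul, le_div_iff₀ hK, mul_comm]
        exact mul_le_mul_of_nonneg_right hKn (nz_nonneg' _ _ _ _)
      push_cast
      rw [sub_mul]
      linarith
    · have h6 : τ.V J I' D' = 0 := St.V_low (hI'.trans hI) hm (by omega)
      rw [h6]
      push_cast
      rw [sub_mul]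
      linarith

private theorem H_up1 (hD : D + 1 ≤ d) {a : ℕ} (haJ : a < J) (ha : a ∉ I) :
    σ.H d J (insert a I) (D + 1) ≤ σ.c a * σ.H d J I D := by
  have h := up1 hD (bt J σ.c σ.w) ha σ.ms
  rw [card_bt _ _ haJ] at h
  exact h

private theorem exc_real {ε κ s0 s1 c' : ℝ} (hε : 0 < ε) (hε1 : ε ≤ 1 / 8) (hκ0 : 0 < κ)
    (hs0n : 0 ≤ s0) (hs0e : 8 * s0 ≤ ε * κ) (hc0 : 0 ≤ c') (hc2 : (1 - ε) * s1 < (c' + 1) * κ)
    (hc6 : 1 ≤ ε * c') : s1 - s0 ≤ (1 + 3 * ε) * c' * (κ - s0) := by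
  have h1ε : 0 < 1 - ε := by linarith
  have hc7 : (c' + 1) ≤ (1 + ε) * c' := by linarith
  have h1 : (1 - ε) * s1 ≤ (1 + ε) * c' * κ :=
    hc2.le.trans (mul_le_mul_of_nonneg_right hc7 hκ0.le)
  have h3 : c' * (κ * (1 - ε / 8)) ≤ c' * (κ - s0) :=
    mul_le_mul_of_nonneg_left (by linarith) hc0
  have h4 : 0 ≤ (1 - ε) * (1 + 3 * ε) := mul_nonneg h1ε.le (by linarith)
  have h5 : (1 + ε) ≤ (1 - ε) * (1 + 3 * ε) * (1 - ε / 8) := by
    nlinarith [mul_nonneg hε.le (by linarith : (0 : ℝ) ≤ 1 / 8 - ε),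
      mul_nonneg (mul_nonneg hε.le hε.le) (by linarith : (0 : ℝ) ≤ 1 / 8 - ε)]
  have hck : 0 ≤ c' * κ := mul_nonneg hc0 hκ0.le
  have h2 : (1 + ε) * (c' * κ) ≤ (1 - ε) * ((1 + 3 * ε) * (c' * (κ - s0))) := by
    calc (1 + ε) * (c' * κ) ≤ ((1 - ε) * (1 + 3 * ε) * (1 - ε / 8)) * (c' * κ) :=
          mul_le_mul_of_nonneg_right h5 hck
      _ = (1 - ε) * (1 + 3 * ε) * (c' * (κ * (1 - ε / 8))) := by ring
      _ ≤ (1 - ε) * (1 + 3 * ε) * (c' * (κ - s0)) := mul_le_mul_of_nonneg_left h3 h4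
      _ = _ := by ring
  have h6 : (1 - ε) * (s1 - s0) ≤ (1 - ε) * ((1 + 3 * ε) * c' * (κ - s0)) := by
    have h7 : (1 - ε) * (s1 - s0) ≤ (1 - ε) * s1 :=
      mul_le_mul_of_nonneg_left (by linarith) h1ε.le
    calc (1 - ε) * (s1 - s0) ≤ (1 - ε) * s1 := h7
      _ ≤ (1 + ε) * c' * κ := h1
      _ = (1 + ε) * (c' * κ) := by ring
      _ ≤ (1 - ε) * ((1 + 3 * ε) * (c' * (κ - s0))) := h2
      _ = _ := by ring
  exact le_of_mul_le_mul_left h6 h1ε

private theorem exists_K (d : ℕ) {η ϖ ε : ℝ} (hη : 0 < η) (hϖ : 0 < ϖ) (hε : 0 < ε) :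
    ∃ K : ℝ, 4 * (d + 1) / (ε * η / 4) + 4 ≤ K ∧
      8 ≤ K * (ε * η) ∧ 4 ≤ K * ϖ ∧ 8 ≤ K * η ∧ 4 ≤ K := by
  have hρ : 0 < ε * η := mul_pos hε hη
  have k1 : 0 ≤ 4 * ((d : ℝ) + 1) / (ε * η / 4) := by positivity
  have k2 : 0 ≤ 8 / (ε * η) := by positivity
  have k3 : 0 ≤ 4 / ϖ := by positivity
  have k4 : 0 ≤ 8 / η := by positivity
  refine ⟨4 * (d + 1) / (ε * η / 4) + 4 + 8 / (ε * η) + 4 / ϖ + 8 / η, by linarith, ?_, ?_, ?_,
    by linarith⟩
  · rw [← div_le_iff₀ hρ]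
    linarith
  · rw [← div_le_iff₀ hϖ]
    linarith
  · rw [← div_le_iff₀ hη]
    linarith

private theorem inO_lo {ϖ ε : ℝ} (hϖ : 0 < ϖ) (hε : 0 < ε) (hε1 : ε ≤ 1 / 8) {a : ℕ} (haJ : a < J)
    (ho : InO d J c0 n0 ϖ I σ) (hϖn : 4 ≤ ϖ * n0) {t s : ℕ} (ht : (t : ℝ) ≤ (1 - ε) * σ.c a)
    (hs : s ≤ 1) : InO d J c0 n0 (ε * ϖ / 2) I ((σ.lo a t).lw s) := by
  have hca0 : (0 : ℝ) ≤ σ.c a := Nat.cast_nonneg _
  have hta : t ≤ σ.c a := by
    have h1 : (t : ℝ) ≤ σ.c a := by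
      have h2 : (1 - ε) * σ.c a ≤ 1 * σ.c a := mul_le_mul_of_nonneg_right (by linarith) hca0
      linarith
    exact_mod_cast h1
  have hw1 : (1 : ℝ) ≤ σ.w := by
    have h1 := ho.w
    linarith
  have hw : 1 ≤ σ.w := by exact_mod_cast hw1
  refine ⟨fun l => ?_, fun l hl => ?_, ?_, ?_, ho.adm⟩
  · show Function.update σ.c a (σ.c a - t) l ≤ c0 l
    by_cases hla : l = a
    · subst hla
      rw [Function.update_self]
      exact (Nat.sub_le _ _).trans (ho.c l)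
    · rw [Function.update_of_ne hla]
      exact ho.c l
  · show ε * ϖ / 2 * c0 l ≤ ((Function.update σ.c a (σ.c a - t) l : ℕ) : ℝ)
    have h1 := ho.c' l hl
    have h2 : (0 : ℝ) ≤ c0 l := Nat.cast_nonneg _
    by_cases hla : l = a
    · subst hla
      rw [Function.update_self, Nat.cast_sub hta]
      have h3 : ε * (ϖ * c0 l) ≤ ε * σ.c l := mul_le_mul_of_nonneg_left h1 hε.le
      have h4 : 0 ≤ ε * (ϖ * c0 l) := by positivity
      have h5 : ε * ϖ / 2 * c0 l = ε * (ϖ * c0 l) / 2 := by ring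
      rw [h5]
      linarith
    · rw [Function.update_of_ne hla]
      have h4 : 0 ≤ ϖ * c0 l := by positivity
      have h5 : ε * (ϖ * c0 l) ≤ 1 / 8 * (ϖ * c0 l) := mul_le_mul_of_nonneg_right hε1 h4
      have h6 : ε * ϖ / 2 * c0 l = ε * (ϖ * c0 l) / 2 := by ring
      rw [h6]
      linarith
  · have h1 := St.n_lo σ haJ hta
    have h2 := St.n_lw (J := J) (σ.lo a t) (s := s) (show s ≤ σ.w by omega)
    have h3 := ho.n
    omega
  · show ε * ϖ / 2 * n0 ≤ ((σ.w - s : ℕ) : ℝ)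
    rw [Nat.cast_sub (by omega)]
    have h1 := ho.w
    have h3 : (s : ℝ) ≤ 1 := by exact_mod_cast hs
    have h5 : ε * (ϖ * n0) ≤ 1 / 8 * (ϖ * n0) := mul_le_mul_of_nonneg_right hε1 (by linarith)
    have h6 : ε * ϖ / 2 * n0 = ε * (ϖ * n0) / 2 := by ring
    rw [h6]
    linarith

/-- Strengthening by the oracle and `P1`. -/
private theorem strong {G : Multiset Kd → Prop} {ρ ϖ : ℝ} (hρ : 0 < ρ) (hDd : D ≤ d)
    (hI : I ⊆ range J) (hI₂ : I₂ ⊆ I) (hD₁ : D₁ < D) (hcd : I₂.card ≤ D₁)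
    (orc : Orc d J c0 n0 G I D (ρ / 8) ϖ) (ho : InO d J c0 n0 ϖ I τ) (hG : G τ.ms)
    (hB : Big d J c0 n0 I₂ (4 * (d + 1) / (ρ / 4) + 4)) (hp : Pos J c0 n0 (ρ / 8) τ I₂ D₁)
    (ht : ρ * nz c0 n0 I₂ D₁ ≤ (τ.V J I₂ D₁ : ℝ)) :
    Pos J c0 n0 (3 / 4 * ρ) τ I₂ D₁ := by
  have hex : ∀ I' ⊆ I₂, ∀ D' : ℕ, D' + (I₂ \ I').card ≤ D₁ → τ.Ex d J I' D' :=
    fun I' hI' D' h => orc τ ho hG I' (hI'.trans hI₂) D' (by omega) (pos_sub hI' h hp)
  have h0 : τ.Ex d J I₂ D₁ := hex I₂ subset_rfl D₁ (by simp)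
  have h1 := P1 (ε := ρ / 4) (by omega : D₁ ≤ d) (hI₂.trans hI) hcd hρ.le (by positivity)
    ho.c ho.n hB (fun I' hI' D' h h' => hex I' hI' D' h') (by
      have h2 : (τ.H d J I₂ D₁ : ℤ) = τ.V J I₂ D₁ := h0
      omega) ht
  intro I' hI' D' h2 h3
  by_cases h4 : D' < D₁
  · have h5 := h1 I' hI' D' h2 h4 h3
    have h6 : ρ - ρ / 4 = 3 / 4 * ρ := by ring
    rwa [h6] at h5
  · have h5 : D' = D₁ := by omega
    have h6 : (I₂ \ I').card = 0 := by omega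
    have h7 : I' = I₂ := subset_antisymm hI' (sdiff_eq_empty_iff_subset.1 (card_eq_zero.1 h6))
    rw [h5, h7]
    have h8 := nz_nonneg' c0 n0 I₂ D₁
    nlinarith

theorem exc (d J : ℕ) {η ϖ ε : ℝ} (hη : 0 < η) (hϖ : 0 < ϖ) (hϖ1 : ϖ ≤ 1) (hε : 0 < ε) (hε1 : ε ≤ 1 / 8) :
    ∃ K : ℝ, ∀ (c0 : ℕ → ℕ) (n0 : ℕ) (I : Finset ℕ) (D : ℕ) (G : Multiset Kd → Prop), I ⊆ range J →
      D ≤ d → Big d J c0 n0 I K → Orc d J c0 n0 G I D (ε * η / 8) (ε * ϖ / 2) →
      ∀ σ : St, InO d J c0 n0 ϖ I σ → G σ.ms → PosL J c0 n0 η σ I D →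
      ∀ (x : ℕ) (A : Finset ℕ) (a : ℕ), 2 ≤ x → x ≤ D → A ⊆ range J → (range J \ A).card ≤ x →
        a ∈ I → a ∉ A → (I ∩ A).card ≤ D - x →
      ∃ c' : ℕ, 1 ≤ c' ∧ c' < σ.c a ∧ η / 2 * c0 a ≤ c' ∧
        (∀ t ≤ c', ∀ s ≤ 1, ∀ D' ≤ D - x + 1, ((σ.lo a t).lw s).Ex d J (insert a (I ∩ A)) D') ∧
        (∀ t ≤ c', ∀ s ≤ 1, ∀ D' ≤ D - x, ((σ.lo a t).lw s).Ex d J (I ∩ A) D') ∧
        ((σ.V J (insert a (I ∩ A)) (D - x + 1) : ℝ) - σ.V J (insert a (I ∩ A)) (D - x) ≤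
          (1 + 3 * ε) * c' * (σ.V J (I ∩ A) (D - x) - σ.V J (insert a (I ∩ A)) (D - x))) := by
  have hρ : 0 < ε * η := mul_pos hε hη
  have hρη : ε * η ≤ η / 8 := by nlinarith
  obtain ⟨K, hK1, hKρ, hKϖ, hKη, hK4⟩ : ∃ K : ℝ, 4 * (d + 1) / (ε * η / 4) + 4 ≤ K ∧
      8 ≤ K * (ε * η) ∧ 4 ≤ K * ϖ ∧ 8 ≤ K * η ∧ 4 ≤ K := exists_K d hη hϖ hε
  refine ⟨K, ?_⟩
  intro c0 n0 I D G hI hDd hB orc σ ho hG hp x A a hx hxD hA hKx ha haA hcard
  have hK0 : 0 < K := by linarith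
  have hKinv : 1 / K ≤ ε * η / 8 := by
    rw [div_le_div_iff₀ hK0 (by norm_num)]
    linarith
  have haJ : a < J := mem_range.1 (hI ha)
  have hKa : K ≤ c0 a := hB.c a ha
  have hsum : (c0 a : ℝ) ≤ ∑ l ∈ range J, (c0 l : ℝ) :=
    single_le_sum (f := fun l => (c0 l : ℝ)) (fun l _ => Nat.cast_nonneg _) (hI ha)
  have hS1 : (1 : ℝ) ≤ 1 + ∑ l ∈ range J, (c0 l : ℝ) := by
    have : (0 : ℝ) ≤ c0 a := Nat.cast_nonneg _
    linarith
  have hpw : 1 + ∑ l ∈ range J, (c0 l : ℝ) ≤ (1 + ∑ l ∈ range J, (c0 l : ℝ)) ^ (d + 1) :=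
    le_self_pow₀ hS1 (by omega)
  have hKc : K * c0 a ≤ n0 := by
    refine le_trans ?_ hB.n
    exact mul_le_mul_of_nonneg_left (by linarith) hK0.le
  have hKn : K ≤ n0 := by
    refine le_trans ?_ hB.n
    exact le_mul_of_one_le_right hK0.le (hS1.trans hpw)
  have hc0a : (0 : ℝ) < c0 a := lt_of_lt_of_le hK0 hKa
  have hn0 : (0 : ℝ) < n0 := lt_of_lt_of_le hK0 hKn
  have hϖn : 4 ≤ ϖ * n0 := by
    have h1 : ϖ * K ≤ ϖ * n0 := mul_le_mul_of_nonneg_left hKn hϖ.le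
    linarith
  -- the pairs
  set I₂ := insert a (I ∩ A) with hI₂d
  have haI' : a ∉ I ∩ A := fun h => haA (Finset.mem_inter.1 h).2
  have hI₂ : I₂ ⊆ I := insert_subset ha inter_subset_left
  have hIA : I ∩ A ⊆ I₂ := subset_insert _ _
  have her : I₂.erase a = I ∩ A := erase_insert haI'
  have hcard₂ : I₂.card = (I ∩ A).card + 1 := card_insert_of_notMem haI'
  have hD₁ : D - x + 1 < D := by omega
  have hcd : I₂.card ≤ D - x + 1 := by omega
  have hI2x : (I \ I₂).card + 1 ≤ x := by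
    refine le_trans ?_ hKx
    have h1 : insert a (I \ I₂) ⊆ range J \ A := by
      intro y hy
      rw [mem_insert] at hy
      rcases hy with rfl | hy
      · exact mem_sdiff.2 ⟨hI ha, haA⟩
      · rw [mem_sdiff] at hy
        exact mem_sdiff.2 ⟨hI hy.1, fun h => hy.2 (hIA (Finset.mem_inter.2 ⟨hy.1, h⟩))⟩
    have h2 := card_le_card h1
    rwa [card_insert_of_notMem fun h => (mem_sdiff.1 h).2 (mem_insert_self _ _)] at h2
  have hp₂ : Pos J c0 n0 η σ I₂ (D - x + 1) := by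
    intro I' hI' D' h1 h2
    refine hp I' (hI'.trans hI₂) D' h1 (by omega) ?_
    have h3 := card_tr (I := I) (I' := I₂) (I'' := I')
    omega
  -- the states
  have hin : ∀ t s : ℕ, (t : ℝ) ≤ (1 - ε) * σ.c a → s ≤ 1 →
      InO d J c0 n0 (ε * ϖ / 2) I ((σ.lo a t).lw s) :=
    fun t s ht hs => inO_lo hϖ hε hε1 haJ ho hϖn ht hs
  have hexo : ∀ τ : St, InO d J c0 n0 (ε * ϖ / 2) I τ → G τ.ms →
      Pos J c0 n0 (ε * η / 8) τ I₂ (D - x + 1) →
      ∀ I' ⊆ I₂, ∀ D' : ℕ, D' + (I₂ \ I').card ≤ D - x + 1 → τ.Ex d J I' D' :=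
    fun τ h1 h2 h3 I' hI' D' h => orc τ h1 h2 I' (hI'.trans hI₂) D' (by omega) (pos_sub hI' h h3)
  have hσ0 : InO d J c0 n0 (ε * ϖ / 2) I σ := by
    have h1 := hin 0 0 (by
      push_cast
      have : (0 : ℝ) ≤ σ.c a := Nat.cast_nonneg _
      nlinarith) (by omega)
    rwa [lo_zero, lw_zero] at h1
  have hp₂' : Pos J c0 n0 (ε * η / 8) σ I₂ (D - x + 1) := pos_mono (by linarith) hp₂
  have hex0 := hexo σ hσ0 hG hp₂'
  have hIAc : (I₂ \ (I ∩ A)).card ≤ 1 := by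
    have h1 : I₂ \ (I ∩ A) ⊆ {a} := by
      intro y hy
      rw [mem_sdiff, hI₂d, mem_insert] at hy
      rw [mem_singleton]
      exact hy.1.resolve_right hy.2
    simpa using card_le_card h1
  -- the numbers
  set κ : ℝ := (σ.V J (I ∩ A) (D - x) : ℝ) with hκ
  set s1 : ℝ := (σ.V J I₂ (D - x + 1) : ℝ) with hs1
  set s0 : ℝ := (σ.V J I₂ (D - x) : ℝ) with hs0
  set z : ℝ := nz c0 n0 (I ∩ A) (D - x) with hz
  have hz0 : 0 < z := nz_pos' (D - x) (fun l hl => by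
    have h1 := hB.c l (Finset.mem_inter.1 hl).1
    have h2 : (0 : ℝ) < c0 l := lt_of_lt_of_le hK0 h1
    exact_mod_cast h2) (by exact_mod_cast hn0)
  have hκ1 : η * z ≤ κ := hp₂ (I ∩ A) hIA (D - x) hcard (by omega)
  have hκ2 : κ ≤ z := V_le (by omega) (hI₂.trans hI) ho.c ho.n hex0 hIA hcard (by omega)
  have hκ0 : 0 < κ := lt_of_lt_of_le (mul_pos hη hz0) hκ1
  have hnz : nz c0 n0 I₂ (D - x + 1) = c0 a * z := by
    rw [nz_erase' c0 n0 (mem_insert_self a (I ∩ A)) (D - x), her]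
  have hs1l : η * (c0 a * z) ≤ s1 := by
    rw [← hnz]
    exact hp₂ I₂ subset_rfl _ hcd (by simp)
  have hs1u : s1 ≤ σ.c a * κ := by
    have h1 : (σ.H d J I₂ (D - x + 1) : ℤ) = σ.V J I₂ (D - x + 1) :=
      hex0 I₂ subset_rfl _ (by simp)
    have h2 : (σ.H d J (I ∩ A) (D - x) : ℤ) = σ.V J (I ∩ A) (D - x) :=
      hex0 (I ∩ A) hIA _ (by omega)
    have h3 := H_up1 (σ := σ) (by omega : D - x + 1 ≤ d) haJ haI'
    have h4 : s1 = (σ.H d J I₂ (D - x + 1) : ℝ) := by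
      rw [hs1, ← h1]
      exact Int.cast_natCast _
    have h5 : κ = (σ.H d J (I ∩ A) (D - x) : ℝ) := by
      rw [hκ, ← h2]
      exact Int.cast_natCast _
    rw [h4, h5]
    exact_mod_cast h3
  have hs1p : 0 < s1 := lt_of_lt_of_le (by positivity) hs1l
  have hca : (0 : ℝ) < σ.c a := by
    have h1 := ho.c' a ha
    exact lt_of_lt_of_le (by positivity) h1
  have h1ε : 0 < 1 - ε := by linarith
  -- the number `c'`
  set c' : ℕ := ⌊(1 - ε) * s1 / κ⌋₊ with hc'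
  have hc1 : (c' : ℝ) * κ ≤ (1 - ε) * s1 := by
    have h1 : (c' : ℝ) ≤ (1 - ε) * s1 / κ := Nat.floor_le (by positivity)
    rwa [le_div_iff₀ hκ0] at h1
  have hc2 : (1 - ε) * s1 < (c' + 1) * κ := by
    have h1 : (1 - ε) * s1 / κ < c' + 1 := Nat.lt_floor_add_one _
    rwa [div_lt_iff₀ hκ0] at h1
  have hc3 : (c' : ℝ) ≤ (1 - ε) * σ.c a := by
    have h1 : (c' : ℝ) * κ ≤ ((1 - ε) * σ.c a) * κ := by
      refine hc1.trans ?_
      rw [mul_assoc]
      exact mul_le_mul_of_nonneg_left hs1u h1ε.le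
    exact le_of_mul_le_mul_right h1 hκ0
  have hc4 : η / 2 * c0 a ≤ c' := by
    have h1 : (1 - ε) * (η * (c0 a * z)) < (c' + 1) * z := by
      refine lt_of_le_of_lt (mul_le_mul_of_nonneg_left hs1l h1ε.le) (hc2.trans_le ?_)
      exact mul_le_mul_of_nonneg_left hκ2 (by positivity)
    have h2 : (1 - ε) * (η * c0 a) < c' + 1 := by
      have h3 : ((1 - ε) * (η * c0 a)) * z < (c' + 1) * z := by
        calc ((1 - ε) * (η * c0 a)) * z = (1 - ε) * (η * (c0 a * z)) := by ring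
          _ < _ := h1
      exact lt_of_mul_lt_mul_right h3 hz0.le
    have h3 : 8 ≤ η * c0 a := by
      have h4 : η * K ≤ η * c0 a := mul_le_mul_of_nonneg_left hKa hη.le
      linarith
    have h4 : ε * (η * c0 a) ≤ 1 / 8 * (η * c0 a) :=
      mul_le_mul_of_nonneg_right hε1 (by linarith)
    linarith
  have hc5 : 1 / ε ≤ c' := by
    refine le_trans ?_ hc4
    rw [div_le_iff₀ hε]
    have h1 : K * (ε * η) ≤ c0 a * (ε * η) := mul_le_mul_of_nonneg_right hKa hρ.le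
    have h2 : η / 2 * c0 a * ε = c0 a * (ε * η) / 2 := by ring
    rw [h2]
    linarith
  have hc6 : 1 ≤ ε * c' := by
    rwa [div_le_iff₀ hε, mul_comm] at hc5
  -- the induction
  have hind : ∀ t ≤ c', Pos J c0 n0 (3 / 4 * (ε * η)) (σ.lo a t) I₂ (D - x + 1) ∧
      s1 - t * κ ≤ ((σ.lo a t).V J I₂ (D - x + 1) : ℝ) ∧
      ((σ.lo a t).V J (I ∩ A) (D - x) : ℝ) ≤ κ := by
    intro t
    induction t with
    | zero =>
      intro _
      rw [lo_zero]
      refine ⟨pos_mono (by linarith) hp₂, ?_, le_refl _⟩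
      push_cast
      rw [zero_mul, sub_zero]
    | succ t ih =>
      intro ht
      obtain ⟨i1, i2, i3⟩ := ih (by omega)
      have htc : ((t : ℝ) + 1) ≤ c' := by exact_mod_cast ht
      have hoτ : InO d J c0 n0 (ε * ϖ / 2) I (σ.lo a t) := by
        have h1 := hin t 0 (by linarith) (by omega)
        rwa [lw_zero] at h1
      have hoτ' : InO d J c0 n0 (ε * ϖ / 2) I (σ.lo a (t + 1)) := by
        have h1 := hin (t + 1) 0 (by push_cast; linarith) (by omega)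
        rwa [lw_zero] at h1
      have hexτ := hexo (σ.lo a t) hoτ hG (pos_mono (by linarith) i1)
      have hca1 : 1 ≤ (σ.lo a t).c a := by
        show 1 ≤ Function.update σ.c a (σ.c a - t) a
        rw [Function.update_self]
        have h1 : ((t : ℝ) + 1) ≤ σ.c a := by
          have h5 : (1 - ε) * σ.c a ≤ 1 * σ.c a := mul_le_mul_of_nonneg_right (by linarith) hca.le
          linarith
        have h2 : t + 1 ≤ σ.c a := by exact_mod_cast h1
        omega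
      have hpos1 := dec_lo (by omega : D - x + 1 ≤ d) (hI₂.trans hI) hoτ.c hoτ.n hoτ.adm hexτ
        (mem_insert_self a (I ∩ A)) hca1 hK0 hKa hKn i1
      rw [lo_lo] at hpos1
      have hV1 : (σ.lo a (t + 1)).V J I₂ (D - x + 1) =
          (σ.lo a t).V J I₂ (D - x + 1) - (σ.lo a t).V J (I ∩ A) (D - x) := by
        rw [← lo_lo, St.V_lo (mem_insert_self a (I ∩ A)) (hI₂.trans hI) hca1, her]
      have htop : s1 - ((t + 1 : ℕ) : ℝ) * κ ≤ ((σ.lo a (t + 1)).V J I₂ (D - x + 1) : ℝ) := by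
        rw [hV1]
        push_cast
        linarith
      refine ⟨?_, htop, ?_⟩
      · refine strong (D := D) (G := G) (ϖ := ε * ϖ / 2) hρ hDd hI hI₂ hD₁ hcd orc hoτ' hG ?_
          (pos_mono (by linarith) hpos1) ?_
        · exact ⟨fun l hl => le_trans hK1 (hB.c l (hI₂ hl)),
            le_trans (mul_le_mul_of_nonneg_right hK1 (by positivity)) hB.n⟩
        · refine le_trans ?_ htop
          rw [hnz]
          push_cast
          have h1 : ((t : ℝ) + 1) * κ ≤ c' * κ := mul_le_mul_of_nonneg_right htc hκ0.le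
          have h2 : ε * (η * (c0 a * z)) ≤ ε * s1 := mul_le_mul_of_nonneg_left hs1l hε.le
          linarith
      · refine le_trans ?_ i3
        rcases Nat.eq_zero_or_pos (D - x) with h0 | h0
        · have h1 : I ∩ A = ∅ := card_eq_zero.1 (by omega)
          rw [h0, h1, V_zero (J := J) (σ.lo a (t + 1)) (σ.lo a t) rfl]
        · obtain ⟨m, hm⟩ : ∃ m, D - x = m + 1 := ⟨D - x - 1, by omega⟩
          rw [hm, ← lo_lo, St.V_lo' haI' haJ (inter_subset_left.trans hI) hca1]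
          have h1 : (0 : ℝ) ≤ ((σ.lo a t).V J (I ∩ A) m : ℝ) := by
            by_cases h2 : (I ∩ A).card ≤ m
            · exact le_trans (mul_nonneg (by positivity) (nz_nonneg' c0 n0 (I ∩ A) m))
                (i1 (I ∩ A) hIA m h2 (by omega))
            · have h3 : (σ.lo a t).V J (I ∩ A) m = 0 :=
                St.V_low (inter_subset_left.trans hI) hoτ.adm (by omega)
              rw [h3]
              norm_num
          push_cast
          linarith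
  have hall : ∀ t ≤ c', ∀ s ≤ 1, ∀ I' ⊆ I₂, ∀ D' : ℕ, D' + (I₂ \ I').card ≤ D - x + 1 →
      ((σ.lo a t).lw s).Ex d J I' D' := by
    intro t ht s hs
    obtain ⟨i1, -, -⟩ := hind t ht
    have htc : (t : ℝ) ≤ c' := by exact_mod_cast ht
    have hoτ : InO d J c0 n0 (ε * ϖ / 2) I (σ.lo a t) := by
      have h1 := hin t 0 (by linarith) (by omega)
      rwa [lw_zero] at h1
    have hexτ := hexo (σ.lo a t) hoτ hG (pos_mono (by linarith) i1)
    rcases Nat.eq_zero_or_pos s with h0 | h0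
    · subst h0
      rw [lw_zero]
      exact hexτ
    · have h1 : s = 1 := by omega
      subst h1
      have hw : 1 ≤ (σ.lo a t).w := by
        have h1 := ho.w
        have h3 : (1 : ℝ) ≤ σ.w := by linarith
        show 1 ≤ σ.w
        exact_mod_cast h3
      have hpos1 := dec_lw (by omega : D - x + 1 ≤ d) (hI₂.trans hI) hoτ.c hoτ.n hoτ.adm hexτ
        hw hK0 hKn i1
      exact hexo _ (hin t 1 (by linarith) le_rfl) hG (pos_mono (by linarith) hpos1)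
  refine ⟨c', ?_, ?_, hc4, fun t ht s hs D' hD' => hall t ht s hs I₂ subset_rfl D' (by simpa using hD'),
    fun t ht s hs D' hD' => hall t ht s hs (I ∩ A) hIA D' (by omega), ?_⟩
  · have h1 : (1 : ℝ) ≤ c' := by
      have h2 : ε * (c' : ℝ) ≤ 1 / 8 * c' :=
        mul_le_mul_of_nonneg_right hε1 (Nat.cast_nonneg _)
      linarith
    exact_mod_cast h1
  · have h1 : (c' : ℝ) < σ.c a := by
      have h2 : 0 < ε * σ.c a := mul_pos hε hca
      linarith
    exact_mod_cast h1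
  · -- the inequality
    have hs0n : 0 ≤ s0 := by
      by_cases h2 : I₂.card ≤ D - x
      · exact le_trans (mul_nonneg hη.le (nz_nonneg' c0 n0 I₂ (D - x)))
          (hp₂ I₂ subset_rfl (D - x) h2 (by simp))
      · rw [hs0, St.V_low (hI₂.trans hI) ho.adm (by omega)]
        norm_num
    have hs0u : n0 * s0 ≤ c0 a * z := by
      by_cases h2 : I₂.card ≤ D - x
      · have h3 := V_le (by omega) (hI₂.trans hI) ho.c ho.n hex0 (subset_refl I₂) h2 (by simp)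
        rw [← hnz, nz_succ' c0 n0 h2]
        exact mul_le_mul_of_nonneg_left h3 hn0.le
      · have h3 : s0 = 0 := by
          rw [hs0, St.V_low (hI₂.trans hI) ho.adm (by omega)]
          norm_num
        rw [h3, mul_zero]
        positivity
    have hs0e : 8 * s0 ≤ ε * κ := by
      have h1 : K * c0 a * s0 ≤ c0 a * z := (mul_le_mul_of_nonneg_right hKc hs0n).trans hs0u
      have h2 : K * s0 ≤ z := by
        have h3 : c0 a * (K * s0) ≤ c0 a * z := by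
          calc c0 a * (K * s0) = K * c0 a * s0 := by ring
            _ ≤ _ := h1
        exact le_of_mul_le_mul_left h3 hc0a
      have h3 : η * (K * s0) ≤ κ := (mul_le_mul_of_nonneg_left h2 hη.le).trans hκ1
      have h5 : 8 * s0 ≤ K * (ε * η) * s0 := mul_le_mul_of_nonneg_right hKρ hs0n
      have h6 : K * (ε * η) * s0 = ε * (η * (K * s0)) := by ring
      rw [h6] at h5
      exact h5.trans (mul_le_mul_of_nonneg_left h3 hε.le)
    exact exc_real hε hε1 hκ0 hs0n hs0e (Nat.cast_nonneg _) hc2 hc6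

end Exc

end Pool.Agent.GD.AL
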