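import Pool.Agent.GD.AL.St

/-!
# General d, ALPHA: the region
-/

set_option autoImplicit false

namespace Pool.Agent.GD.AL

open Finset

section Mon

open Pool.Agent.H21.NX (Sx mem_Sx)

/-- The number of the exponents of degree `D` supported in `T`. -/
theorem card_mon {ν : Type} [Fintype ν] [DecidableEq ν] (T : Finset ν) (D : ℕ) :
    ((Sx ν D).filter fun a => ∀ s, s ∉ T → a s = 0).card ≤ T.card ^ D := by
  classical
  induction D with
  | zero =>
    rw [pow_zero, card_le_one]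
    intro a ha b hb
    rw [mem_filter, mem_Sx] at ha hb
    funext s
    have h1 := (sum_eq_zero_iff_of_nonneg (fun s _ => Nat.zero_le (a s))).1 ha.1 s (mem_univ s)
    have h2 := (sum_eq_zero_iff_of_nonneg (fun s _ => Nat.zero_le (b s))).1 hb.1 s (mem_univ s)
    rw [h1, h2]
  | succ D ih =>
    have h1 : ((Sx ν (D + 1)).filter fun a => ∀ s, s ∉ T → a s = 0) ⊆
        T.biUnion fun s => (((Sx ν D).filter fun a => ∀ s, s ∉ T → a s = 0).image fun a =>
          a + Pi.single s 1) := by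
      intro a ha
      rw [mem_filter, mem_Sx] at ha
      obtain ⟨s, -, hs⟩ : ∃ s ∈ (univ : Finset ν), a s ≠ 0 := by
        by_contra hc
        push Not at hc
        rw [sum_eq_zero hc] at ha
        exact absurd ha.1 (by omega)
      have hsT : s ∈ T := by
        by_contra hc
        exact hs (ha.2 s hc)
      rw [mem_biUnion]
      refine ⟨s, hsT, mem_image.2 ⟨a - Pi.single s 1, mem_filter.2 ⟨mem_Sx.2 ?_, fun x hx => ?_⟩, ?_⟩⟩
      · have h2 : a - Pi.single s 1 + Pi.single s 1 = a := by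
          funext x
          show a x - (Pi.single s 1 : ν → ℕ) x + (Pi.single s 1 : ν → ℕ) x = a x
          by_cases hx : x = s
          · subst hx
            rw [Pi.single_eq_same]
            omega
          · rw [Pi.single_eq_of_ne hx, Nat.sub_zero, Nat.add_zero]
        have h3 : ∑ x, (a - Pi.single s 1 + Pi.single s 1 : ν → ℕ) x = D + 1 := by
          rw [h2]
          exact ha.1
        simp only [Pi.add_apply, sum_add_distrib, sum_pi_single', mem_univ, if_true] at h3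
        omega
      · show a x - (Pi.single s 1 : ν → ℕ) x = 0
        rw [ha.2 x hx]
        exact Nat.zero_sub _
      · funext x
        show a x - (Pi.single s 1 : ν → ℕ) x + (Pi.single s 1 : ν → ℕ) x = a x
        by_cases hx : x = s
        · subst hx
          rw [Pi.single_eq_same]
          omega
        · rw [Pi.single_eq_of_ne hx, Nat.sub_zero, Nat.add_zero]
    refine (card_le_card h1).trans (card_biUnion_le.trans ?_)
    refine (sum_le_sum fun s _ => card_image_le.trans ih).trans ?_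
    rw [sum_const, smul_eq_mul, pow_succ, mul_comm]

theorem card_sup_le' {ν : Type} [Fintype ν] [DecidableEq ν] (D : ℕ) (β : ν → ℕ) (I : Finset ℕ) :
    ((Ex β D I).filter fun a => ∀ s, β s ∉ I → a s = 0).card ≤
      (univ.filter fun s => β s ∈ I).card ^ D := by
  refine le_trans (card_le_card ?_) (card_mon (univ.filter fun s => β s ∈ I) D)
  intro a ha
  rw [mem_filter] at ha
  refine mem_filter.2 ⟨mem_Sx.2 (mem_Ex.1 ha.1).1, fun s hs => ha.2 s fun h => hs ?_⟩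
  exact mem_filter.2 ⟨mem_univ _, h⟩

end Mon

section Reg

variable {d J D : ℕ} {σ : St} {I : Finset ℕ} {c0 : ℕ → ℕ} {n0 : ℕ} {η : ℝ}

/-- adding blocks -/
theorem H_blocks (σ : St) {I' T : Finset ℕ} (hT : T ⊆ range J) (hd : Disjoint I' T) {D' : ℕ}
    (hD : D' + T.card ≤ d) :
    σ.H d J (I' ∪ T) (D' + T.card) ≤ (∏ l ∈ T, σ.c l) * σ.H d J I' D' := by
  classical
  induction T using Finset.induction_on with
  | empty => simp
  | insert i T hi ih =>
    rw [card_insert_of_notMem hi] at hD ⊢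
    have hT' : T ⊆ range J := (subset_insert _ _).trans hT
    have hd' : Disjoint I' T := disjoint_of_subset_right (subset_insert _ _) hd
    have h1 := ih hT' hd' (by omega)
    have hiJ : i < J := mem_range.1 (hT (mem_insert_self _ _))
    have hiI : i ∉ I' ∪ T := by
      rw [mem_union, not_or]
      exact ⟨fun h => disjoint_left.1 hd h (mem_insert_self _ _), hi⟩
    have h2 := up1 (D := D' + T.card) (d := d) (by omega) (bt J σ.c σ.w) hiI σ.ms
    rw [card_bt _ _ hiJ] at h2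
    have h3 : I' ∪ insert i T = insert i (I' ∪ T) := by
      ext x
      simp only [mem_union, mem_insert]
      tauto
    rw [h3, prod_insert hi, mul_assoc]
    exact h2.trans (Nat.mul_le_mul_left _ h1)

/-- the variables of the blocks -/
theorem card_in_le (σ : St) (hc : ∀ l, σ.c l ≤ c0 l) (hI : I ⊆ range J) :
    (univ.filter fun s : Vr J σ.c σ.w => bt J σ.c σ.w s ∈ I).card ≤ ∑ l ∈ range J, c0 l := by
  classical
  have h1 : (univ.filter fun s : Vr J σ.c σ.w => bt J σ.c σ.w s ∈ I) ⊆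
      I.biUnion fun i => univ.filter fun s : Vr J σ.c σ.w => bt J σ.c σ.w s = i := by
    intro s hs
    rw [mem_biUnion]
    exact ⟨_, (mem_filter.1 hs).2, mem_filter.2 ⟨mem_univ _, rfl⟩⟩
  refine (card_le_card h1).trans (card_biUnion_le.trans ?_)
  refine (sum_le_sum fun i hi => ?_).trans (sum_le_sum_of_subset hI)
  rw [card_bt _ _ (mem_range.1 (hI hi))]
  exact hc i

/-- one more degree -/
theorem H_step (σ : St) (hI : I ⊆ range J) (hc : ∀ l, σ.c l ≤ c0 l) (hn : σ.n J ≤ n0) {x D0 : ℕ}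
    (hx : x + 1 ≤ d) (hx0 : x + 1 ≤ D0) :
    (σ.H d J I (x + 1) : ℝ) ≤ n0 * σ.H d J I x + (1 + ∑ l ∈ range J, (c0 l : ℝ)) ^ D0 := by
  classical
  have h1 := up2 hx (bt J σ.c σ.w) I σ.ms
  have h2 := card_sup_le' (x + 1) (bt J σ.c σ.w) I
  have h3 := card_in_le (c0 := c0) σ hc hI
  have h4 : (univ.filter fun s : Vr J σ.c σ.w => bt J σ.c σ.w s ∉ I).card ≤ n0 := by
    refine (card_le_univ _).trans ?_
    rw [card_Vr]
    exact hn
  have h5 : ((((Ex (bt J σ.c σ.w) (x + 1) I).filter fun a => ∀ s, bt J σ.c σ.w s ∉ I → a s = 0).card : ℕ) : ℝ) ≤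
      (1 + ∑ l ∈ range J, (c0 l : ℝ)) ^ D0 := by
    have h6 : (((univ.filter fun s : Vr J σ.c σ.w => bt J σ.c σ.w s ∈ I).card : ℕ) : ℝ) ≤
        ∑ l ∈ range J, (c0 l : ℝ) := by
      exact_mod_cast h3
    have h7 : (0 : ℝ) ≤ ∑ l ∈ range J, (c0 l : ℝ) := sum_nonneg fun l _ => Nat.cast_nonneg _
    calc ((((Ex (bt J σ.c σ.w) (x + 1) I).filter fun a => ∀ s, bt J σ.c σ.w s ∉ I → a s = 0).card : ℕ) : ℝ)
        ≤ ((((univ.filter fun s : Vr J σ.c σ.w => bt J σ.c σ.w s ∈ I).card ^ (x + 1) : ℕ)) : ℝ) := by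
          exact_mod_cast h2
      _ = (((univ.filter fun s : Vr J σ.c σ.w => bt J σ.c σ.w s ∈ I).card : ℕ) : ℝ) ^ (x + 1) := by
          push_cast
          ring
      _ ≤ (1 + ∑ l ∈ range J, (c0 l : ℝ)) ^ (x + 1) := by
          refine pow_le_pow_left₀ (Nat.cast_nonneg _) ?_ _
          linarith
      _ ≤ (1 + ∑ l ∈ range J, (c0 l : ℝ)) ^ D0 := pow_le_pow_right₀ (by linarith) hx0
  have h8 : (σ.H d J I (x + 1) : ℝ) ≤
      ((univ.filter fun s : Vr J σ.c σ.w => bt J σ.c σ.w s ∉ I).card : ℕ) * (σ.H d J I x : ℝ) +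
        (((Ex (bt J σ.c σ.w) (x + 1) I).filter fun a => ∀ s, bt J σ.c σ.w s ∉ I → a s = 0).card : ℕ) := by
    exact_mod_cast h1
  refine h8.trans (add_le_add ?_ h5)
  exact mul_le_mul_of_nonneg_right (by exact_mod_cast h4) (Nat.cast_nonneg _)

/-- more degrees -/
theorem H_iter (σ : St) (hI : I ⊆ range J) (hc : ∀ l, σ.c l ≤ c0 l) (hn : σ.n J ≤ n0) (hn0 : 1 ≤ n0)
    {x D0 : ℕ} : ∀ s : ℕ, x + s ≤ d → x + s ≤ D0 →
    (n0 : ℝ) * σ.H d J I (x + s) ≤ (n0 : ℝ) ^ (s + 1) * σ.H d J I x +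
      s * ((n0 : ℝ) ^ s * (1 + ∑ l ∈ range J, (c0 l : ℝ)) ^ D0) := by
  intro s
  induction s with
  | zero =>
    intro _ _
    simp
  | succ s ih =>
    intro h1 h2
    have h3 := ih (by omega) (by omega)
    have h4 := H_step (d := d) σ hI hc hn (x := x + s) (D0 := D0) (by omega) (by omega)
    have hn1 : (1 : ℝ) ≤ n0 := by exact_mod_cast hn0
    have hM : (0 : ℝ) ≤ (1 + ∑ l ∈ range J, (c0 l : ℝ)) ^ D0 :=
      pow_nonneg (add_nonneg zero_le_one (sum_nonneg fun l _ => Nat.cast_nonneg _)) _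
    set M := (1 + ∑ l ∈ range J, (c0 l : ℝ)) ^ D0
    have h5 : (n0 : ℝ) ≤ (n0 : ℝ) ^ (s + 1) := by
      calc (n0 : ℝ) = (n0 : ℝ) ^ 1 := (pow_one _).symm
        _ ≤ (n0 : ℝ) ^ (s + 1) := pow_le_pow_right₀ hn1 (by omega)
    calc (n0 : ℝ) * σ.H d J I (x + (s + 1)) ≤ n0 * (n0 * σ.H d J I (x + s) + M) :=
          mul_le_mul_of_nonneg_left h4 (by linarith)
      _ ≤ n0 * (((n0 : ℝ) ^ (s + 1) * σ.H d J I x + s * ((n0 : ℝ) ^ s * M)) + M) :=
          mul_le_mul_of_nonneg_left (by linarith) (by linarith)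
      _ = (n0 : ℝ) ^ (s + 1 + 1) * σ.H d J I x + s * ((n0 : ℝ) ^ (s + 1) * M) + n0 * M := by ring
      _ ≤ (n0 : ℝ) ^ (s + 1 + 1) * σ.H d J I x + s * ((n0 : ℝ) ^ (s + 1) * M) + (n0 : ℝ) ^ (s + 1) * M := by
          have := mul_le_mul_of_nonneg_right h5 hM
          linarith
      _ = (n0 : ℝ) ^ (s + 1 + 1) * σ.H d J I x + ((s + 1 : ℕ) : ℝ) * ((n0 : ℝ) ^ (s + 1) * M) := by
          push_cast
          ring

/-- consequences of `Big` -/
theorem big_facts {ε : ℝ} (hε : 0 < ε) (hB : Big d J c0 n0 I (4 * (d + 1) / ε + 4)) :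
    (∀ l ∈ I, (1 : ℝ) ≤ c0 l) ∧ 1 ≤ n0 ∧
      (d + 1 : ℝ) * (1 + ∑ l ∈ range J, (c0 l : ℝ)) ^ (d + 1) ≤ ε * n0 := by
  have h1 : (0 : ℝ) ≤ 4 * (d + 1) / ε := by positivity
  have hS : (1 : ℝ) ≤ 1 + ∑ l ∈ range J, (c0 l : ℝ) := by
    have := sum_nonneg (s := range J) fun l _ => (Nat.cast_nonneg (c0 l) : (0 : ℝ) ≤ c0 l)
    linarith
  have hM : (1 : ℝ) ≤ (1 + ∑ l ∈ range J, (c0 l : ℝ)) ^ (d + 1) := one_le_pow₀ hS
  refine ⟨fun l hl => ?_, ?_, ?_⟩
  · have := hB.c l hl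
    linarith
  · have h2 := hB.n
    have h3 : (1 : ℝ) ≤ n0 := by nlinarith
    exact_mod_cast h3
  · have h2 := hB.n
    set M := (1 + ∑ l ∈ range J, (c0 l : ℝ)) ^ (d + 1)
    have h3 : 4 * (d + 1) / ε * M ≤ n0 := by nlinarith
    have h4 : ε * (4 * (d + 1) / ε * M) = 4 * (d + 1) * M := by
      field_simp
    have h5 := mul_le_mul_of_nonneg_left h3 hε.le
    rw [h4] at h5
    have h6 : (0 : ℝ) ≤ (d + 1) * M := by positivity
    linarith

theorem nz_pos (hc : ∀ l ∈ I, (1 : ℝ) ≤ c0 l) (hn : 1 ≤ n0) (D : ℕ) : 1 ≤ nz c0 n0 I D := by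
  unfold nz
  have h1 : (1 : ℝ) ≤ ∏ i ∈ I, (c0 i : ℝ) := by
    calc (1 : ℝ) = ∏ i ∈ I, (1 : ℝ) := by rw [prod_const_one]
      _ ≤ ∏ i ∈ I, (c0 i : ℝ) := prod_le_prod (fun _ _ => zero_le_one) hc
  have h2 : (1 : ℝ) ≤ (n0 : ℝ) ^ (D - I.card) := one_le_pow₀ (by exact_mod_cast hn)
  nlinarith

/-- The lower virtual dimensions from the top one. -/
theorem P1 {ε : ℝ} (hD : D ≤ d) (hI : I ⊆ range J) (hID : I.card ≤ D) (hη : 0 ≤ η) (hε : 0 < ε)
    (hc : ∀ l, σ.c l ≤ c0 l) (hn : σ.n J ≤ n0) (hB : Big d J c0 n0 I (4 * (d + 1) / ε + 4))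
    (hex : ExL d J σ I D) (hlb : σ.V J I D ≤ σ.H d J I D) (hv : η * nz c0 n0 I D ≤ (σ.V J I D : ℝ)) :
    PosL J c0 n0 (η - ε) σ I D := by
  classical
  obtain ⟨hc1, hn1, hb⟩ := big_facts hε hB
  intro I' hI' D' hID' hDD hle
  have hn1' : (1 : ℝ) ≤ n0 := by exact_mod_cast hn1
  obtain ⟨s, hs⟩ := Nat.exists_eq_add_of_le hle
  have hcard : (I \ I').card + I'.card = I.card := card_sdiff_add_card_eq_card hI'
  -- the dimensions
  have h1 := H_blocks (d := d) (J := J) σ (I' := I') (T := I \ I') (D' := D') (sdiff_subset.trans hI)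
    disjoint_sdiff (by omega)
  rw [union_sdiff_of_subset hI'] at h1
  have h2 := H_iter (d := d) σ hI hc hn hn1 (x := D' + (I \ I').card) (D0 := d + 1) s (by omega) (by omega)
  rw [← hs] at h2
  have h3 : (σ.V J I D : ℝ) ≤ σ.H d J I D := by exact_mod_cast hlb
  have h4 : (σ.H d J I' D' : ℝ) = σ.V J I' D' := by
    have := hex I' hI' D' hDD hle
    unfold St.Ex at this
    exact_mod_cast this
  set M := (1 + ∑ l ∈ range J, (c0 l : ℝ)) ^ (d + 1)
  have hM0 : (0 : ℝ) ≤ M := pow_nonneg (add_nonneg zero_le_one (sum_nonneg fun l _ => Nat.cast_nonneg _)) _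
  set Q : ℝ := ∏ l ∈ I \ I', (c0 l : ℝ) with hQ
  have hQ1 : (1 : ℝ) ≤ Q := by
    calc (1 : ℝ) = ∏ i ∈ I \ I', (1 : ℝ) := by rw [prod_const_one]
      _ ≤ Q := prod_le_prod (fun _ _ => zero_le_one) fun l hl => hc1 l (sdiff_subset hl)
  have h5 : (σ.H d J I (D' + (I \ I').card) : ℝ) ≤ Q * σ.V J I' D' := by
    rw [← h4]
    have h6 : ((∏ l ∈ I \ I', σ.c l : ℕ) : ℝ) ≤ Q := by
      rw [Nat.cast_prod]
      exact prod_le_prod (fun _ _ => Nat.cast_nonneg _) fun l _ => by exact_mod_cast hc l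
    calc (σ.H d J I (D' + (I \ I').card) : ℝ) ≤ ((∏ l ∈ I \ I', σ.c l : ℕ) : ℝ) * σ.H d J I' D' := by
          exact_mod_cast h1
      _ ≤ Q * σ.H d J I' D' := mul_le_mul_of_nonneg_right h6 (Nat.cast_nonneg _)
  have hnz : nz c0 n0 I D = (n0 : ℝ) ^ s * Q * nz c0 n0 I' D' := by
    unfold nz
    have e1 : D - I.card = s + (D' - I'.card) := by omega
    rw [e1, pow_add, ← prod_sdiff hI', hQ]
    ring
  have hnz1 := nz_pos (I := I') (fun l hl => hc1 l (hI' hl)) hn1 D'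
  have hp : (0 : ℝ) < (n0 : ℝ) ^ (s + 1) * Q := mul_pos (pow_pos (by linarith) _) (by linarith)
  have hsd : (s : ℝ) ≤ d + 1 := by
    have : s ≤ d + 1 := by omega
    exact_mod_cast this
  -- the main inequality
  have key : (n0 : ℝ) ^ (s + 1) * Q * (η * nz c0 n0 I' D') ≤
      (n0 : ℝ) ^ (s + 1) * Q * (σ.V J I' D' + ε * nz c0 n0 I' D') := by
    calc (n0 : ℝ) ^ (s + 1) * Q * (η * nz c0 n0 I' D') = n0 * (η * nz c0 n0 I D) := by
          rw [hnz, pow_succ]
          ring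
      _ ≤ n0 * σ.H d J I D := mul_le_mul_of_nonneg_left (hv.trans h3) (by linarith)
      _ ≤ (n0 : ℝ) ^ (s + 1) * σ.H d J I (D' + (I \ I').card) + s * ((n0 : ℝ) ^ s * M) := h2
      _ ≤ (n0 : ℝ) ^ (s + 1) * (Q * σ.V J I' D') + (n0 : ℝ) ^ s * ((d + 1) * M) := by
          have e1 := mul_le_mul_of_nonneg_left h5 (pow_nonneg (by linarith : (0 : ℝ) ≤ n0) (s + 1))
          have e2 : (0 : ℝ) ≤ (n0 : ℝ) ^ s * M := mul_nonneg (pow_nonneg (by linarith) _) hM0
          nlinarith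
      _ ≤ (n0 : ℝ) ^ (s + 1) * (Q * σ.V J I' D') + (n0 : ℝ) ^ s * (ε * n0) := by
          have e1 := mul_le_mul_of_nonneg_left hb (pow_nonneg (by linarith : (0 : ℝ) ≤ n0) s)
          linarith
      _ = (n0 : ℝ) ^ (s + 1) * (Q * σ.V J I' D') + (n0 : ℝ) ^ (s + 1) * (ε * (1 * 1)) := by
          rw [pow_succ]
          ring
      _ ≤ (n0 : ℝ) ^ (s + 1) * (Q * σ.V J I' D') + (n0 : ℝ) ^ (s + 1) * (ε * (Q * nz c0 n0 I' D')) := by
          have e1 : (1 : ℝ) * 1 ≤ Q * nz c0 n0 I' D' :=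
            mul_le_mul hQ1 hnz1 zero_le_one (by linarith)
          have e2 := mul_le_mul_of_nonneg_left (mul_le_mul_of_nonneg_left e1 hε.le)
            (pow_nonneg (by linarith : (0 : ℝ) ≤ n0) (s + 1))
          linarith
      _ = (n0 : ℝ) ^ (s + 1) * Q * (σ.V J I' D' + ε * nz c0 n0 I' D') := by ring
  have := le_of_mul_le_mul_left key hp
  linarith

/-- The sizes from the top one. -/
theorem P1c {ε : ℝ} (hD : D ≤ d) (hI : I ⊆ range J) (hID : I.card ≤ D) (hη : 0 ≤ η) (hε : 0 < ε)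
    (hc : ∀ l, σ.c l ≤ c0 l) (hn : σ.n J ≤ n0) (hB : Big d J c0 n0 I (4 * (d + 1) / ε + 4))
    (hex : ExL d J σ I D) (hlb : σ.V J I D ≤ σ.H d J I D) (hv : η * nz c0 n0 I D ≤ (σ.V J I D : ℝ)) :
    (∀ l ∈ I, (η - ε) * c0 l ≤ (σ.c l : ℝ)) ∧ (I.card < D → (η - ε) * n0 ≤ (σ.w : ℝ)) := by
  classical
  obtain ⟨hc1, hn1, hb⟩ := big_facts hε hB
  have hn1' : (1 : ℝ) ≤ n0 := by exact_mod_cast hn1
  have h3 : (σ.V J I D : ℝ) ≤ σ.H d J I D := by exact_mod_cast hlb
  set M := (1 + ∑ l ∈ range J, (c0 l : ℝ)) ^ (d + 1) with hMdef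
  have hS : (0 : ℝ) ≤ ∑ l ∈ range J, (c0 l : ℝ) := sum_nonneg fun l _ => Nat.cast_nonneg _
  have hM0 : (0 : ℝ) ≤ M := pow_nonneg (by linarith) _
  -- the dimension at the pair `(I, |I|)`
  have h0 : σ.H d J I I.card ≤ ∏ l ∈ I, σ.c l := by
    have h1 := H_blocks (d := d) (J := J) σ (I' := ∅) (T := I) (D' := 0) hI
      (disjoint_empty_left I) (by omega)
    rw [empty_union, Nat.zero_add] at h1
    have h2 : σ.H d J ∅ 0 ≤ 1 := by
      have := HI_zero_le (d := d) (bt J σ.c σ.w) ∅ σ.ms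
      exact this
    exact h1.trans ((Nat.mul_le_mul_left _ h2).trans (by rw [mul_one]))
  have h0' : (σ.H d J I I.card : ℝ) ≤ ∏ l ∈ I, (σ.c l : ℝ) := by
    rw [← Nat.cast_prod]
    exact_mod_cast h0
  have hPc : ∏ l ∈ I, (σ.c l : ℝ) ≤ ∏ l ∈ I, (c0 l : ℝ) :=
    prod_le_prod (fun _ _ => Nat.cast_nonneg _) fun l _ => by exact_mod_cast hc l
  obtain ⟨s, hs⟩ := Nat.exists_eq_add_of_le hID
  have hsd : (s : ℝ) ≤ d + 1 := by
    have : s ≤ d + 1 := by omega
    exact_mod_cast this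
  refine ⟨fun l hl => ?_, fun hlt => ?_⟩
  · have h2 := H_iter (d := d) σ hI hc hn hn1 (x := I.card) (D0 := d + 1) s (by omega) (by omega)
    rw [← hs, ← hMdef] at h2
    set Q : ℝ := ∏ i ∈ I.erase l, (c0 i : ℝ) with hQ
    have hQ1 : (1 : ℝ) ≤ Q := by
      calc (1 : ℝ) = ∏ i ∈ I.erase l, (1 : ℝ) := by rw [prod_const_one]
        _ ≤ Q := prod_le_prod (fun _ _ => zero_le_one) fun i hi => hc1 i (mem_of_mem_erase hi)
    have h5 : (σ.H d J I I.card : ℝ) ≤ Q * σ.c l := by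
      refine h0'.trans ?_
      rw [← mul_prod_erase I (fun i => (σ.c i : ℝ)) hl, mul_comm]
      exact mul_le_mul_of_nonneg_right (prod_le_prod (fun _ _ => Nat.cast_nonneg _)
        fun i _ => by exact_mod_cast hc i) (Nat.cast_nonneg _)
    have hnz : nz c0 n0 I D = (n0 : ℝ) ^ s * Q * c0 l := by
      unfold nz
      have e1 : D - I.card = s := by omega
      rw [e1, ← mul_prod_erase I (fun i => (c0 i : ℝ)) hl]
      ring
    have hp : (0 : ℝ) < (n0 : ℝ) ^ (s + 1) * Q := mul_pos (pow_pos (by linarith) _) (by linarith)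
    have key : (n0 : ℝ) ^ (s + 1) * Q * (η * c0 l) ≤ (n0 : ℝ) ^ (s + 1) * Q * (σ.c l + ε * c0 l) := by
      calc (n0 : ℝ) ^ (s + 1) * Q * (η * c0 l) = n0 * (η * nz c0 n0 I D) := by
            rw [hnz, pow_succ]
            ring
        _ ≤ n0 * σ.H d J I D := mul_le_mul_of_nonneg_left (hv.trans h3) (by linarith)
        _ ≤ (n0 : ℝ) ^ (s + 1) * σ.H d J I I.card + s * ((n0 : ℝ) ^ s * M) := h2
        _ ≤ (n0 : ℝ) ^ (s + 1) * (Q * σ.c l) + (n0 : ℝ) ^ s * ((d + 1) * M) := by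
            have e1 := mul_le_mul_of_nonneg_left h5 (pow_nonneg (by linarith : (0 : ℝ) ≤ n0) (s + 1))
            have e2 : (0 : ℝ) ≤ (n0 : ℝ) ^ s * M := mul_nonneg (pow_nonneg (by linarith) _) hM0
            nlinarith
        _ ≤ (n0 : ℝ) ^ (s + 1) * (Q * σ.c l) + (n0 : ℝ) ^ s * (ε * n0) := by
            have e1 := mul_le_mul_of_nonneg_left hb (pow_nonneg (by linarith : (0 : ℝ) ≤ n0) s)
            linarith
        _ = (n0 : ℝ) ^ (s + 1) * (Q * σ.c l) + (n0 : ℝ) ^ (s + 1) * (ε * (1 * 1)) := by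
            rw [pow_succ]
            ring
        _ ≤ (n0 : ℝ) ^ (s + 1) * (Q * σ.c l) + (n0 : ℝ) ^ (s + 1) * (ε * (Q * c0 l)) := by
            have e1 : (1 : ℝ) * 1 ≤ Q * c0 l := mul_le_mul hQ1 (hc1 l hl) zero_le_one (by linarith)
            have e2 := mul_le_mul_of_nonneg_left (mul_le_mul_of_nonneg_left e1 hε.le)
              (pow_nonneg (by linarith : (0 : ℝ) ≤ n0) (s + 1))
            linarith
        _ = (n0 : ℝ) ^ (s + 1) * Q * (σ.c l + ε * c0 l) := by ring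
    have := le_of_mul_le_mul_left key hp
    linarith
  · obtain ⟨t, rfl⟩ : ∃ t, s = t + 1 := ⟨s - 1, by omega⟩
    have h2 := H_iter (d := d) σ hI hc hn hn1 (x := I.card + 1) (D0 := d + 1) t (by omega) (by omega)
    have hs' : I.card + 1 + t = D := by omega
    rw [hs', ← hMdef] at h2
    -- the first step
    have h6 := up2 (d := d) (D := I.card) (by omega) (bt J σ.c σ.w) I σ.ms
    have h7 := card_sup_le' (I.card + 1) (bt J σ.c σ.w) I
    have h8 := card_in_le (c0 := c0) σ hc hI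
    have h9 : (univ.filter fun s : Vr J σ.c σ.w => bt J σ.c σ.w s ∉ I).card ≤
        ∑ l ∈ range J, c0 l + σ.w := by
      refine (card_le_univ _).trans ?_
      rw [card_Vr]
      have := sum_le_sum (s := range J) fun l _ => hc l
      omega
    set Q : ℝ := ∏ i ∈ I, (c0 i : ℝ) with hQ
    have hQ1 : (1 : ℝ) ≤ Q := by
      calc (1 : ℝ) = ∏ i ∈ I, (1 : ℝ) := by rw [prod_const_one]
        _ ≤ Q := prod_le_prod (fun _ _ => zero_le_one) hc1
    have h10 : (σ.H d J I (I.card + 1) : ℝ) ≤ (∑ l ∈ range J, (c0 l : ℝ) + σ.w) * Q + M := by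
      have e1 : (σ.H d J I (I.card + 1) : ℝ) ≤
          ((univ.filter fun s : Vr J σ.c σ.w => bt J σ.c σ.w s ∉ I).card : ℕ) * (σ.H d J I I.card : ℝ) +
          (((Ex (bt J σ.c σ.w) (I.card + 1) I).filter fun a => ∀ s, bt J σ.c σ.w s ∉ I → a s = 0).card : ℕ) := by
        exact_mod_cast h6
      have e2 : ((((Ex (bt J σ.c σ.w) (I.card + 1) I).filter fun a =>
          ∀ s, bt J σ.c σ.w s ∉ I → a s = 0).card : ℕ) : ℝ) ≤ M := by
        have e3 : (((univ.filter fun s : Vr J σ.c σ.w => bt J σ.c σ.w s ∈ I).card : ℕ) : ℝ) ≤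
            ∑ l ∈ range J, (c0 l : ℝ) := by
          exact_mod_cast h8
        calc ((((Ex (bt J σ.c σ.w) (I.card + 1) I).filter fun a =>
            ∀ s, bt J σ.c σ.w s ∉ I → a s = 0).card : ℕ) : ℝ)
            ≤ ((((univ.filter fun s : Vr J σ.c σ.w => bt J σ.c σ.w s ∈ I).card ^ (I.card + 1) : ℕ)) : ℝ) := by
              exact_mod_cast h7
          _ = (((univ.filter fun s : Vr J σ.c σ.w => bt J σ.c σ.w s ∈ I).card : ℕ) : ℝ) ^ (I.card + 1) := by
              push_cast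
              ring
          _ ≤ (1 + ∑ l ∈ range J, (c0 l : ℝ)) ^ (I.card + 1) := by
              refine pow_le_pow_left₀ (Nat.cast_nonneg _) ?_ _
              linarith
          _ ≤ M := pow_le_pow_right₀ (by linarith) (by omega)
      refine e1.trans (add_le_add ?_ e2)
      have e4 : (((univ.filter fun s : Vr J σ.c σ.w => bt J σ.c σ.w s ∉ I).card : ℕ) : ℝ) ≤
          ∑ l ∈ range J, (c0 l : ℝ) + σ.w := by
        exact_mod_cast h9
      exact mul_le_mul e4 (h0'.trans hPc) (Nat.cast_nonneg _) (add_nonneg hS (Nat.cast_nonneg _))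
    have hnz : nz c0 n0 I D = (n0 : ℝ) ^ (t + 1) * Q := by
      unfold nz
      have e1 : D - I.card = t + 1 := by omega
      rw [e1, hQ]
      ring
    have hp : (0 : ℝ) < (n0 : ℝ) ^ (t + 1) * Q := mul_pos (pow_pos (by linarith) _) (by linarith)
    have htd : (t : ℝ) ≤ d := by
      have : t ≤ d := by omega
      exact_mod_cast this
    have hSM : ∑ l ∈ range J, (c0 l : ℝ) ≤ M := by
      calc ∑ l ∈ range J, (c0 l : ℝ) ≤ (1 + ∑ l ∈ range J, (c0 l : ℝ)) ^ 1 := by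
            rw [pow_one]
            linarith
        _ ≤ M := pow_le_pow_right₀ (by linarith) (by omega)
    have htd2 : (t : ℝ) + 2 ≤ d + 1 := by
      have : t + 2 ≤ d + 1 := by omega
      exact_mod_cast this
    have hfin : ∑ l ∈ range J, (c0 l : ℝ) + M + t * M ≤ ε * n0 := by
      have e1 : ((t : ℝ) + 2) * M ≤ (d + 1) * M := mul_le_mul_of_nonneg_right htd2 hM0
      linarith
    have key : (n0 : ℝ) ^ (t + 1) * Q * (η * n0) ≤ (n0 : ℝ) ^ (t + 1) * Q * (σ.w + ε * n0) := by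
      calc (n0 : ℝ) ^ (t + 1) * Q * (η * n0) = n0 * (η * nz c0 n0 I D) := by
            rw [hnz]
            ring
        _ ≤ n0 * σ.H d J I D := mul_le_mul_of_nonneg_left (hv.trans h3) (by linarith)
        _ ≤ (n0 : ℝ) ^ (t + 1) * σ.H d J I (I.card + 1) + t * ((n0 : ℝ) ^ t * M) := h2
        _ ≤ (n0 : ℝ) ^ (t + 1) * ((∑ l ∈ range J, (c0 l : ℝ) + σ.w) * Q + M) +
            t * ((n0 : ℝ) ^ (t + 1) * M) := by
            have e1 := mul_le_mul_of_nonneg_left h10 (pow_nonneg (by linarith : (0 : ℝ) ≤ n0) (t + 1))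
            have e2 : (n0 : ℝ) ^ t ≤ (n0 : ℝ) ^ (t + 1) := pow_le_pow_right₀ hn1' (by omega)
            have e3 := mul_le_mul_of_nonneg_left (mul_le_mul_of_nonneg_right e2 hM0)
              (Nat.cast_nonneg t : (0 : ℝ) ≤ t)
            linarith
        _ = (n0 : ℝ) ^ (t + 1) * ((∑ l ∈ range J, (c0 l : ℝ) + σ.w) * Q + 1 * (M + t * M)) := by ring
        _ ≤ (n0 : ℝ) ^ (t + 1) * ((∑ l ∈ range J, (c0 l : ℝ) + σ.w) * Q + Q * (M + t * M)) := by
            have e1 : (0 : ℝ) ≤ M + t * M := add_nonneg hM0 (mul_nonneg (Nat.cast_nonneg t) hM0)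
            have e2 := mul_le_mul_of_nonneg_left (mul_le_mul_of_nonneg_right hQ1 e1)
              (pow_nonneg (by linarith : (0 : ℝ) ≤ n0) (t + 1))
            linarith
        _ = (n0 : ℝ) ^ (t + 1) * Q * (σ.w + (∑ l ∈ range J, (c0 l : ℝ) + M + t * M)) := by ring
        _ ≤ (n0 : ℝ) ^ (t + 1) * Q * (σ.w + ε * n0) := by
            have e1 := mul_le_mul_of_nonneg_left hfin hp.le
            linarith
    have := le_of_mul_le_mul_left key hp
    linarith

end Reg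

end Pool.Agent.GD.AL
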