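import Pool.Agent.GD.AL.St

/-!
# General d, ALPHA: the potential
-/

set_option autoImplicit false

namespace Pool.Agent.GD.AL

open Finset

section Pot

theorem pot {α : Type} (μ : α → ℕ) (G : α → Prop) (a δ : α → ℝ) {thr X T : ℝ} (hX : 0 ≤ X)
    (hT : 0 ≤ T) (hδ : ∀ σ, G σ → δ σ ≤ T)
    (hstep : ∀ σ, G σ → thr ≤ a σ → δ σ ≤ 0 ∨ ∃ (σ₀ σ₁ : α) (p : ℝ), 0 ≤ p ∧ p ≤ 1 ∧ G σ₀ ∧ G σ₁ ∧
      μ σ₀ < μ σ ∧ μ σ₁ < μ σ ∧ δ σ ≤ (1 - p) * δ σ₀ + p * δ σ₁ ∧
      (1 - p) * Real.exp (X * (a σ - a σ₀)) + p * Real.exp (X * (a σ - a σ₁)) ≤ 1) :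
    ∀ σ, G σ → δ σ ≤ T * Real.exp (-(X * (a σ - thr))) := by
  have key : ∀ n : ℕ, ∀ σ, μ σ ≤ n → G σ → δ σ ≤ T * Real.exp (-(X * (a σ - thr))) := by
    intro n
    induction n with
    | zero =>
      intro σ hσ hG
      by_cases h : thr ≤ a σ
      · rcases hstep σ hG h with h1 | ⟨σ₀, σ₁, p, -, -, -, -, h2, -, -, -⟩
        · exact h1.trans (mul_nonneg hT (Real.exp_pos _).le)
        · omega
      · refine (hδ σ hG).trans (le_mul_of_one_le_right hT (Real.one_le_exp ?_))
        push Not at h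
        nlinarith
    | succ n ih =>
      intro σ hσ hG
      by_cases h : thr ≤ a σ
      · rcases hstep σ hG h with h1 | ⟨σ₀, σ₁, p, hp0, hp1, hG0, hG1, h2, h3, h4, h5⟩
        · exact h1.trans (mul_nonneg hT (Real.exp_pos _).le)
        · have e0 := ih σ₀ (by omega) hG0
          have e1 := ih σ₁ (by omega) hG1
          have f : ∀ σ', Real.exp (-(X * (a σ' - thr))) =
              Real.exp (-(X * (a σ - thr))) * Real.exp (X * (a σ - a σ')) := by
            intro σ'
            rw [← Real.exp_add]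
            congr 1
            ring
          rw [f σ₀] at e0
          rw [f σ₁] at e1
          set E := Real.exp (-(X * (a σ - thr))) with hE
          have hE0 : 0 ≤ E := (Real.exp_pos _).le
          calc δ σ ≤ (1 - p) * δ σ₀ + p * δ σ₁ := h4
            _ ≤ (1 - p) * (T * (E * Real.exp (X * (a σ - a σ₀)))) +
                p * (T * (E * Real.exp (X * (a σ - a σ₁)))) :=
                add_le_add (mul_le_mul_of_nonneg_left e0 (by linarith))
                  (mul_le_mul_of_nonneg_left e1 hp0)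
            _ = T * E * ((1 - p) * Real.exp (X * (a σ - a σ₀)) +
                p * Real.exp (X * (a σ - a σ₁))) := by ring
            _ ≤ T * E * 1 := mul_le_mul_of_nonneg_left h5 (mul_nonneg hT hE0)
            _ = T * E := mul_one _
      · refine (hδ σ hG).trans (le_mul_of_one_le_right hT (Real.one_le_exp ?_))
        push Not at h
        nlinarith
  exact fun σ hG => key (μ σ) σ le_rfl hG

end Pot

end Pool.Agent.GD.AL
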