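import Pool.Agent.GD.AL.Bas

/-!
# General d, ALPHA: the effect of one more ordinary object

`nz_T`, `nz_ratio`: the natural sizes; `V_rep`: one more object changes the virtual dimensions of the pairs
below `(I, D)` by a small part of the natural size.
-/

set_option autoImplicit false

namespace Pool.Agent.GD.AL

open Finset

section Rep

theorem nz_nonneg (c0 : ℕ → ℕ) (n0 : ℕ) (I : Finset ℕ) (D : ℕ) : 0 ≤ nz c0 n0 I D := by
  unfold nz
  exact mul_nonneg (prod_nonneg fun i _ => Nat.cast_nonneg _) (pow_nonneg (Nat.cast_nonneg _) _)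

theorem nz_T {D : ℕ} {c0 : ℕ → ℕ} {n0 : ℕ} {I A : Finset ℕ} {x : ℕ} (hT : (I \ A).card ≤ x)
    (hxD : x ≤ D) (hID : I.card ≤ D) (h : (I ∩ A).card ≤ D - x) :
    nz c0 n0 I D = nz c0 n0 (I ∩ A) (D - x) *
      ((∏ l ∈ I \ A, (c0 l : ℝ)) * (n0 : ℝ) ^ (x - (I \ A).card)) := by
  unfold nz
  have h1 := card_inter_add_card_sdiff I A
  have h2 : D - I.card = (D - x - (I ∩ A).card) + (x - (I \ A).card) := by omega
  have h3 : (∏ i ∈ I, (c0 i : ℝ)) = (∏ i ∈ I ∩ A, (c0 i : ℝ)) * ∏ i ∈ I \ A, (c0 i : ℝ) := by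
    rw [← prod_inter_mul_prod_diff I A]
  rw [h2, pow_add, h3]
  ring

theorem nz_ratio {D : ℕ} {c0 : ℕ → ℕ} {n0 : ℕ} {K : ℝ} {I A : Finset ℕ} {x : ℕ}
    (hK : 1 ≤ K) (hKc : ∀ l ∈ I, K ≤ (c0 l : ℝ)) (hKn : K ≤ (n0 : ℝ)) (hx1 : 1 ≤ x)
    (hA : (I \ A).card ≤ x) (hxD : x ≤ D) (hID : I.card ≤ D) (h : (I ∩ A).card ≤ D - x) :
    K * nz c0 n0 (I ∩ A) (D - x) ≤ nz c0 n0 I D := by
  rw [nz_T hA hxD hID h, mul_comm K]
  refine mul_le_mul_of_nonneg_left ?_ (nz_nonneg _ _ _ _)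
  have hK0 : 0 ≤ K := le_trans zero_le_one hK
  have h1 : K ^ (I \ A).card ≤ ∏ l ∈ I \ A, (c0 l : ℝ) := by
    rw [← prod_const]
    exact prod_le_prod (fun i _ => hK0) fun i hi => hKc i (mem_sdiff.1 hi).1
  have h2 : K ^ (x - (I \ A).card) ≤ (n0 : ℝ) ^ (x - (I \ A).card) := pow_le_pow_left₀ hK0 hKn _
  calc K = K ^ 1 := (pow_one K).symm
    _ ≤ K ^ x := pow_le_pow_right₀ hK hx1
    _ = K ^ (I \ A).card * K ^ (x - (I \ A).card) := by
      rw [← pow_add]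
      congr 1
      omega
    _ ≤ _ := mul_le_mul h1 h2 (pow_nonneg hK0 _) (prod_nonneg fun i _ => Nat.cast_nonneg _)

theorem V_rep {d J D : ℕ} {σ : St} {I : Finset ℕ} {c0 : ℕ → ℕ} {n0 : ℕ} {K : ℝ} (hD : D ≤ d)
    (hI : I ⊆ range J) (hc : ∀ l, σ.c l ≤ c0 l) (hn : σ.n J ≤ n0) (hm : ∀ k ∈ σ.ms, AdmO d J k)
    (hK : 1 ≤ K) (hKc : ∀ l ∈ I, K ≤ (c0 l : ℝ)) (hKn : K ≤ (n0 : ℝ)) (hex : ExL d J σ I D)
    {x : ℕ} {A : Finset ℕ} (hx1 : 1 ≤ x) (hA : (range J \ A).card ≤ x) {I' : Finset ℕ} {D' : ℕ}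
    (hI' : I' ⊆ I) (hID' : I'.card ≤ D') (hD' : D' + (I \ I').card ≤ D) :
    (σ.V J I' D' : ℝ) - nz c0 n0 I' D' / K ≤ ((σ.ad (.ord x A)).V J I' D' : ℝ) := by
  have hK0 : 0 < K := lt_of_lt_of_le zero_lt_one hK
  rcases Nat.lt_or_ge D' x with hx | hx
  · rw [St.V_ord_lt A hx]
    have h1 := div_nonneg (nz_nonneg c0 n0 I' D') hK0.le
    linarith
  · rw [St.V_ord A hx]
    push_cast
    have hIr : I' ∩ A ⊆ range J := inter_subset_left.trans (hI'.trans hI)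
    have hT : (I' \ A).card ≤ x :=
      (card_le_card (sdiff_subset_sdiff (hI'.trans hI) subset_rfl)).trans hA
    have h1 : (σ.V J (I' ∩ A) (D' - x) : ℝ) ≤ nz c0 n0 I' D' / K := by
      rcases Nat.lt_or_ge (D' - x) (I' ∩ A).card with h2 | h2
      · rw [St.V_low hIr hm h2, Int.cast_zero]
        exact div_nonneg (nz_nonneg c0 n0 I' D') hK0.le
      · have h3 : (I \ (I' ∩ A)).card ≤ (I \ I').card + (I' \ A).card := by
          refine le_trans (card_le_card ?_) (card_union_le _ _)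
          intro z hz
          rw [mem_sdiff, Finset.mem_inter] at hz
          rw [mem_union, mem_sdiff, mem_sdiff]
          by_cases h4 : z ∈ I'
          · exact Or.inr ⟨h4, fun h5 => hz.2 ⟨h4, h5⟩⟩
          · exact Or.inl ⟨hz.1, h4⟩
        have h4 := hex (I' ∩ A) (inter_subset_left.trans hI') (D' - x) (by omega) (by omega)
        have h5 := St.H_le (σ := σ) (d := d) (J := J) (c0 := c0) (n0 := n0) (I := I' ∩ A)
          (D := D' - x) (by omega) hIr (fun l _ => hc l) hn h2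
        have h6 : (σ.V J (I' ∩ A) (D' - x) : ℝ) = (σ.H d J (I' ∩ A) (D' - x) : ℝ) := by
          rw [← h4]
          push_cast
          rfl
        rw [h6, le_div_iff₀ hK0]
        have h7 := nz_ratio (c0 := c0) (n0 := n0) hK (fun l hl => hKc l (hI' hl)) hKn hx1 hT hx
          hID' h2
        nlinarith [h5, h7]
    linarith

end Rep

end Pool.Agent.GD.AL
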