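import Pool.Agent.GD.AL.BTa
import Pool.Agent.GD.AL.BTb
import Pool.Agent.GD.AL.BTc
import Pool.Agent.GD.AL.BTp
import Pool.Agent.GD.AL.Tr

/-!
# General d, ALPHA: the finite systems, one stage

`card_low`: the number of the objects is bounded; `stage_orc`, `stage_end`: the hypotheses of the transport
theorem for the states which live on the blocks `i, …, J - 1`.
-/

set_option autoImplicit false

namespace Pool.Agent.GD.AL

open Finset

section rs

variable {i J : ℕ} {c0 : ℕ → ℕ}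

theorem rs_of_mem {l : ℕ} (h : l ∈ Ico i J) : rs i J c0 l = c0 l := by
  rw [mem_Ico] at h
  exact if_pos h

theorem rs_le (i J : ℕ) (c0 : ℕ → ℕ) (l : ℕ) : rs i J c0 l ≤ c0 l := by
  unfold rs
  split_ifs
  · exact le_rfl
  · exact Nat.zero_le _

theorem rs_rs {i' : ℕ} (h : i ≤ i') : rs i' J (rs i J c0) = rs i' J c0 := by
  funext l
  unfold rs
  by_cases h1 : i' ≤ l ∧ l < J
  · rw [if_pos h1, if_pos h1, if_pos ⟨h.trans h1.1, h1.2⟩]
  · rw [if_neg h1, if_neg h1]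

theorem rs_split (hi : i < J) (l : ℕ) :
    rs i J c0 l = (if l = i then c0 i else 0) + rs (i + 1) J c0 l := by
  unfold rs
  by_cases h1 : l = i
  · subst h1
    rw [if_pos ⟨le_rfl, hi⟩, if_pos rfl, if_neg fun h => absurd h.1 (by omega), add_zero]
  · rw [if_neg h1, zero_add]
    by_cases h2 : i + 1 ≤ l ∧ l < J
    · rw [if_pos h2, if_pos ⟨by omega, h2.2⟩]
    · rw [if_neg h2, if_neg fun h => h2 ⟨by omega, h.2⟩]

theorem sum_rs (hi : i < J) :
    ∑ l ∈ range J, rs i J c0 l = c0 i + ∑ l ∈ range J, rs (i + 1) J c0 l := by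
  rw [sum_congr rfl fun l _ => rs_split (c0 := c0) hi l, sum_add_distrib, sum_ite_eq' (range J) i,
    if_pos (mem_range.2 hi)]

theorem prod_rs (hi : i < J) {I : Finset ℕ} (hI : I ⊆ Ico i J) :
    ∏ l ∈ I, c0 l ≤ (c0 i + 1) * ∏ l ∈ range J, (rs (i + 1) J c0 l + 1) := by
  have h1 : ∏ l ∈ I, c0 l ≤ ∏ l ∈ range J, (rs i J c0 l + 1) := by
    calc ∏ l ∈ I, c0 l ≤ ∏ l ∈ I, (rs i J c0 l + 1) :=
          prod_le_prod' fun l hl => by rw [rs_of_mem (hI hl)]; omega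
      _ ≤ ∏ l ∈ range J, (rs i J c0 l + 1) := by
        refine prod_le_prod_of_subset_of_one_le' (fun l hl => ?_) fun l _ _ => by omega
        exact mem_range.2 (mem_Ico.1 (hI hl)).2
  refine h1.trans (le_of_eq ?_)
  have h2 : ∀ l ∈ range J, rs i J c0 l + 1 =
      (if l = i then c0 i + 1 else 1) * (rs (i + 1) J c0 l + 1) := by
    intro l _
    by_cases h3 : l = i
    · subst h3
      have h4 : rs (l + 1) J c0 l = 0 := if_neg fun h => absurd h.1 (by omega)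
      rw [if_pos rfl, rs_split hi, if_pos rfl, h4]
      ring
    · rw [if_neg h3, rs_split hi, if_neg h3]
      ring
  rw [prod_congr rfl h2, prod_mul_distrib, prod_ite_eq' (range J) i, if_pos (mem_range.2 hi)]

end rs

section stage

variable {d J : ℕ}

theorem Ex_low {σ : St} {I : Finset ℕ} {D : ℕ} (hI : I ⊆ range J) (hm : ∀ k ∈ σ.ms, AdmO d J k)
    (h : D < I.card) : σ.Ex d J I D := by
  unfold St.Ex
  rw [St.H_low h, St.V_low hI hm h]
  rfl

/-- The number of the objects. -/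
theorem card_low {σ : St} {I : Finset ℕ} {η : ℝ} (hI : I ⊆ range J) (hm : ∀ k ∈ σ.ms, AdmO d J k)
    (h0 : ∀ I' ⊆ I, 0 ≤ σ.V J I' I'.card) (h1 : ∀ I' ⊆ I, η ≤ (σ.V J I' I'.card : ℝ))
    (hT : ∀ x A, .ord x A ∈ σ.ms → (I \ A).card = x) :
    η * σ.ms.card ≤ ∏ l ∈ I, (σ.c l : ℝ) := by
  have key : ∀ S : Multiset Kd, S ≤ σ.ms →
      ((σ.wm S).V J I I.card : ℝ) + η * S.card ≤ ∏ l ∈ I, (σ.c l : ℝ) := by
    intro S
    induction S using Multiset.induction_on with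
    | empty =>
      intro _
      rw [Multiset.card_zero, Nat.cast_zero, mul_zero, add_zero]
      have h2 := V_nil_le σ.c σ.w hI
      exact_mod_cast h2
    | cons k S ih =>
      intro hS
      have hS' := le_trans (Multiset.le_cons_self S k) hS
      have h2 := ih hS'
      obtain ⟨x, A, rfl, h3, h4, h5, h6⟩ := hm k (Multiset.mem_of_le hS (Multiset.mem_cons_self _ _))
      have h7 := V_ord_low (σ := σ.wm S) hI (fun k hk => hm k (Multiset.mem_of_le hS' hk)) h3 h6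
      rw [if_pos (hT x A (Multiset.mem_of_le hS (Multiset.mem_cons_self _ _)))] at h7
      have h8 := V_sub_low hI hm h0 _ (I ∩ A) inter_subset_left le_rfl S hS'
      have h9 := h1 (I ∩ A) inter_subset_left
      have h10 : (σ.wm (.ord x A ::ₘ S)).V J I I.card = (σ.wm S).V J I I.card -
          (σ.wm S).V J (I ∩ A) (I ∩ A).card := h7
      rw [h10, Multiset.card_cons]
      push_cast
      have h11 : (σ.V J (I ∩ A) (I ∩ A).card : ℝ) ≤ ((σ.wm S).V J (I ∩ A) (I ∩ A).card : ℝ) := by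
        exact_mod_cast h8
      nlinarith [h2, h9, h11]
  have h2 := key σ.ms le_rfl
  have h3 : (0 : ℝ) ≤ ((σ.wm σ.ms).V J I I.card : ℝ) := by
    exact_mod_cast h0 I subset_rfl
  linarith

/-- A state of the transport theorem is a state of the finite systems. -/
theorem bts_of_pos {i i' : ℕ} {c0 : ℕ → ℕ} {n0 m K W D : ℕ} {η ϖ : ℝ} {I I' : Finset ℕ} {σ : St}
    (hI : I ⊆ Ico i J) (hK : ∀ l ∈ I, K ≤ c0 l) (ho : InO d J (rs i J c0) n0 ϖ I σ)
    (hm : σ.ms.card ≤ m) (hw : ((W + d * m : ℕ) : ℝ) ≤ ϖ * n0) (hI' : I' ⊆ I) (hD : I'.card ≤ D)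
    (hp : Pos J (rs i J c0) n0 η σ I' D)
    (hT : ∀ x A, .ord x A ∈ σ.ms → (I' \ A).card = x → I' \ A ⊆ Ico i' J) :
    BTS d J i' c0 η K W I' σ := by
  refine ⟨?_, fun l hl => hK l (hI' hl), fun l => (ho.c l).trans (rs_le i J c0 l), ho.adm, hT, ?_, ?_⟩
  · exact fun l hl => mem_range.2 (mem_Ico.1 (hI (hI' hl))).2
  · intro I'' hI''
    have h1 := card_le_card hI''
    have h2 := card_sdiff_add_card_eq_card hI''
    have h3 := hp I'' hI'' I''.card le_rfl (by omega)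
    unfold nz at h3
    rw [Nat.sub_self, pow_zero, mul_one] at h3
    rw [prod_congr rfl fun l hl => by rw [rs_of_mem (hI (hI' (hI'' hl)))]] at h3
    exact h3
  · have h1 : ((W + d * m : ℕ) : ℝ) ≤ ((σ.w : ℕ) : ℝ) := hw.trans ho.w
    have h2 : W + d * m ≤ σ.w := by exact_mod_cast h1
    exact (Nat.add_le_add_left (Nat.mul_le_mul_left _ hm) _).trans h2

theorem stage_orc {i : ℕ} {c0 : ℕ → ℕ} {n0 m K W D : ℕ} {η ϖ : ℝ} {I : Finset ℕ}
    (hI : I ⊆ Ico i J) (hK : ∀ l ∈ I, K ≤ c0 l) (hw : ((W + d * m : ℕ) : ℝ) ≤ ϖ * n0)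
    (ex : ∀ (σ : St) (I : Finset ℕ), BTS d J i c0 η K W I σ → ∀ D' ∈ range D, σ.Ex d J I D') :
    Orc d J (rs i J c0) n0 (fun ms => ms.card ≤ m) I D η ϖ := by
  intro σ ho hm I' hI' D' hD' hp
  have hIr : I' ⊆ range J := fun l hl => mem_range.2 (mem_Ico.1 (hI (hI' hl))).2
  rcases Nat.lt_or_ge D' I'.card with h1 | h1
  · exact Ex_low hIr ho.adm h1
  · refine ex σ I' (bts_of_pos hI hK ho hm hw hI' h1 hp fun x A _ _ => ?_) D' (mem_range.2 hD')
    exact sdiff_subset.trans (hI'.trans hI)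

theorem stage_end {i : ℕ} {c0 : ℕ → ℕ} {n0 m K W D : ℕ} {η ϖ : ℝ} {I : Finset ℕ}
    (hI : I ⊆ Ico i J) (hK : ∀ l ∈ I, K ≤ c0 l) (hw : ((W + d * m : ℕ) : ℝ) ≤ ϖ * n0)
    (ex : ∀ (σ : St) (I : Finset ℕ), BTS d J (i + 1) c0 η K W I σ →
      ∀ D' ∈ range (D + 1), σ.Ex d J I D') :
    ∀ σ : St, InO d J (rs i J c0) n0 ϖ I σ → σ.ms.card ≤ m →
      (∀ k ∈ σ.ms, ∃ x A, k = .ord x A ∧ ¬ ((I \ A).card = x ∧ i ∈ I \ A)) →
      Pos J (rs i J c0) n0 η σ I D → σ.dl d J I D ≤ 0 := by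
  intro σ ho hm hk hp
  have hIr : I ⊆ range J := fun l hl => mem_range.2 (mem_Ico.1 (hI hl)).2
  have hex : σ.Ex d J I D := by
    rcases Nat.lt_or_ge D I.card with h1 | h1
    · exact Ex_low hIr ho.adm h1
    · refine ex σ I (bts_of_pos hI hK ho hm hw subset_rfl h1 hp fun x A hxA hc => ?_) D
        (mem_range.2 (Nat.lt_succ_self D))
      obtain ⟨x', A', h2, h3⟩ := hk _ hxA
      cases h2
      intro l hl
      have h4 := mem_Ico.1 (hI (mem_sdiff.1 hl).1)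
      rw [mem_Ico]
      refine ⟨?_, h4.2⟩
      rcases Nat.eq_or_lt_of_le h4.1 with h5 | h5
      · exact absurd ⟨hc, h5.symm ▸ hl⟩ h3
      · exact h5
  unfold St.dl
  unfold St.Ex at hex
  omega

end stage

end Pool.Agent.GD.AL
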