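import Pool.Agent.GD.AL.Fl
import Pool.Agent.GD.ST.Core2
import Pool.Agent.GD.Cls

/-!
# General d, ALPHA, clusters: the condition (H1) on pairs of clusters

`PO D I k k'`: two clusters with additional conditions created at the same level `i ∈ I` do not interact in
degree `D` on the level `I`; `HH`: for all pairs of a multiset.  Inheritance (`hh_mono`, `hh_drop`) and the
clusters of the classes (`hh_top`).
-/

set_option autoImplicit false

namespace Pool.Agent.GD.AL

open Finset

/-- The condition on a pair. -/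
def PO (D : ℕ) (I : Finset ℕ) : Kd → Kd → Prop
  | .cl e dl i As, .cl e' dl' i' As' => i = i' → i ∈ I → 1 ≤ dl → 1 ≤ dl' →
      D ≤ As.length * (e - 1) + As'.length * (e' - 1) + 1 +
        ((I.erase i ∩ inter As) ∩ inter As').card
  | _, _ => True

theorem PO_ord (D : ℕ) (I : Finset ℕ) (x : ℕ) (A : Finset ℕ) (k : Kd) : PO D I (.ord x A) k := by
  cases k <;> trivial

theorem PO_ord' (D : ℕ) (I : Finset ℕ) (x : ℕ) (A : Finset ℕ) (k : Kd) : PO D I k (.ord x A) := by
  cases k <;> trivial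

theorem PO_symm {D : ℕ} {I : Finset ℕ} {k k' : Kd} (h : PO D I k k') : PO D I k' k := by
  cases k with
  | ord x A => exact PO_ord' _ _ _ _ _
  | cl e dl i As =>
    cases k' with
    | ord x A => exact PO_ord _ _ _ _ _
    | cl e' dl' i' As' =>
      rintro rfl hi h1 h2
      have h3 := h rfl hi h2 h1
      rw [inter_right_comm] at h3
      omega

theorem PO_mono {D D' : ℕ} {I I' : Finset ℕ} (hI : I' ⊆ I) (hD : D' + (I \ I').card ≤ D) {k k' : Kd}
    (h : PO D I k k') : PO D' I' k k' := by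
  cases k with
  | ord x A => exact PO_ord _ _ _ _ _
  | cl e dl i As =>
    cases k' with
    | ord x A => exact PO_ord' _ _ _ _ _
    | cl e' dl' i' As' =>
      rintro rfl hi h1 h2
      have h3 := h rfl (hI hi) h1 h2
      have h4 : ((I.erase i ∩ inter As) ∩ inter As').card ≤
          ((I'.erase i ∩ inter As) ∩ inter As').card + (I \ I').card := by
        refine le_trans (card_le_card ?_) (card_union_le _ _)
        intro x hx
        simp only [Finset.mem_inter, mem_union, mem_sdiff, mem_erase] at hx ⊢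
        by_cases h5 : x ∈ I'
        · exact Or.inl ⟨⟨⟨hx.1.1.1, h5⟩, hx.1.2⟩, hx.2⟩
        · exact Or.inr ⟨hx.1.1.2, h5⟩
      omega

/-- The condition for all pairs. -/
def HH (D : ℕ) (I : Finset ℕ) (ms : Multiset Kd) : Prop :=
  ∀ k k' : Kd, k ::ₘ {k'} ≤ ms → PO D I k k'

theorem hh_sub {D : ℕ} {I : Finset ℕ} {ms ms' : Multiset Kd} (h : ms' ≤ ms) (hh : HH D I ms) :
    HH D I ms' := fun k k' hk => hh k k' (hk.trans h)

theorem hh_mono {D D' : ℕ} {I I' : Finset ℕ} (hI : I' ⊆ I) (hD : D' + (I \ I').card ≤ D)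
    {ms : Multiset Kd} (hh : HH D I ms) : HH D' I' ms := fun k k' hk => PO_mono hI hD (hh k k' hk)

theorem hh_cons {D : ℕ} {I : Finset ℕ} {k : Kd} {ms : Multiset Kd} (hh : HH D I ms)
    (h : ∀ k' ∈ ms, PO D I k k') : HH D I (k ::ₘ ms) := by
  intro k₁ k₂ hk
  by_cases h1 : k₁ = k
  · subst h1
    refine h k₂ ?_
    rw [Multiset.cons_le_cons_iff] at hk
    exact Multiset.singleton_le.1 hk
  · by_cases h2 : k₂ = k
    · subst h2
      refine PO_symm (h k₁ ?_)
      have h3 : k₁ ::ₘ {k₂} = k₂ ::ₘ {k₁} := by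
        rw [← Multiset.singleton_add, ← Multiset.singleton_add, add_comm]
      rw [h3, Multiset.cons_le_cons_iff] at hk
      exact Multiset.singleton_le.1 hk
    · refine hh k₁ k₂ ?_
      have h3 : k ∉ k₁ ::ₘ {k₂} := by
        intro h4
        rcases Multiset.mem_cons.1 h4 with h5 | h5
        · exact h1 h5.symm
        · exact h2 (Multiset.mem_singleton.1 h5).symm
      exact (Multiset.le_cons_of_notMem h3).1 hk

theorem hh_of_cons {D : ℕ} {I : Finset ℕ} {k : Kd} {ms : Multiset Kd} (hh : HH D I (k ::ₘ ms)) :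
    ∀ k' ∈ ms, PO D I k k' := fun k' hk' =>
  hh k k' ((Multiset.cons_le_cons_iff k).2 (Multiset.singleton_le.2 hk'))

theorem hh_ord {D : ℕ} {I : Finset ℕ} {x : ℕ} {A : Finset ℕ} {ms : Multiset Kd} (hh : HH D I ms) :
    HH D I (.ord x A ::ₘ ms) := hh_cons hh fun _ _ => PO_ord _ _ _ _ _

theorem hh_ords {D : ℕ} {I : Finset ℕ} {ms S : Multiset Kd} (hh : HH D I ms)
    (hS : ∀ k ∈ S, ∃ x A, k = .ord x A) : HH D I (S + ms) := by
  induction S using Multiset.induction_on with
  | empty => rwa [zero_add]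
  | cons k S ih =>
    obtain ⟨x, A, rfl⟩ := hS k (Multiset.mem_cons_self k S)
    rw [Multiset.cons_add]
    exact hh_ord (ih fun k hk => hS k (Multiset.mem_cons_of_mem hk))

theorem mem_inter_app {L : List (Finset ℕ)} {A : Finset ℕ} (hL : 1 ≤ L.length) {x : ℕ} :
    x ∈ inter (L ++ [A]) ↔ x ∈ inter L ∧ x ∈ A := by
  rw [Pool.Agent.GD.mem_inter (by rw [List.length_append, List.length_singleton]; omega),
    Pool.Agent.GD.mem_inter hL]
  constructor
  · intro h
    exact ⟨fun A' hA' => h A' (List.mem_append_left _ hA'),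
      h A (List.mem_append_right _ (List.mem_singleton_self A))⟩
  · rintro ⟨h1, h2⟩ A' hA'
    rcases List.mem_append.1 hA' with h3 | h3
    · exact h1 A' h3
    · rw [List.mem_singleton.1 h3]
      exact h2

/-- The pairs of the cluster without the last member. -/
theorem PO_drop {D s : ℕ} {I : Finset ℕ} {e dl i : ℕ} {L : List (Finset ℕ)} {A : Finset ℕ}
    (hL : 1 ≤ L.length) (he : 1 ≤ e) (hs : s + e ≤ D + 1) {k : Kd}
    (h : PO D I (.cl e dl i (L ++ [A])) k) : PO s (I ∩ insert i A) (.cl e dl i L) k := by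
  cases k with
  | ord x A => exact PO_ord' _ _ _ _ _
  | cl e' dl' i' As' =>
    rintro rfl hi h1 h2
    have h3 := h rfl (Finset.mem_inter.1 hi).1 h1 h2
    have h4 : (I.erase i ∩ inter (L ++ [A])) ∩ inter As' =
        ((I ∩ insert i A).erase i ∩ inter L) ∩ inter As' := by
      ext x
      simp only [Finset.mem_inter, mem_erase, mem_inter_app hL, mem_insert]
      constructor
      · rintro ⟨⟨⟨h5, h6⟩, h7, h8⟩, h9⟩
        exact ⟨⟨⟨h5, h6, Or.inr h8⟩, h7⟩, h9⟩
      · rintro ⟨⟨⟨h5, h6, h8⟩, h7⟩, h9⟩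
        exact ⟨⟨⟨h5, h6⟩, h7, h8.resolve_left h5⟩, h9⟩
    rw [h4, List.length_append, List.length_singleton, add_mul, one_mul] at h3
    omega

/-- The lower terms of CL1. -/
theorem hh_drop {D s : ℕ} {I : Finset ℕ} {e dl i : ℕ} {L : List (Finset ℕ)} {A : Finset ℕ}
    {ms : Multiset Kd} (hL : 1 ≤ L.length) (hs : s + e ≤ D + 1) (hT : (I \ insert i A).card + 1 ≤ e)
    (h : HH D I (.cl e dl i (L ++ [A]) ::ₘ ms)) :
    HH s (I ∩ insert i A) (.cl e dl i L ::ₘ ms) := by
  refine hh_cons (hh_mono inter_subset_left ?_ (hh_sub (Multiset.le_cons_self _ _) h))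
    fun k' hk' => PO_drop hL (by omega) hs (hh_of_cons h k' hk')
  rw [sdiff_inter_self_left]
  omega

/-- The hypothesis of `cl1a_dl`. -/
theorem hh_one {D : ℕ} {I : Finset ℕ} {e dl i : ℕ} {A : Finset ℕ} {ms : Multiset Kd} (he : 1 ≤ e)
    (hi : i ∈ I) (h : HH D I (.cl e dl i [A] ::ₘ ms)) (hdl : 1 ≤ dl) :
    ∀ e' dl' As, .cl e' dl' i As ∈ ms → 1 ≤ dl' →
      D + 1 - e ≤ As.length * (e' - 1) + 1 + (((I ∩ insert i A).erase i) ∩ inter As).card := by
  intro e' dl' As hAs hdl'
  have h1 := hh_of_cons h _ hAs rfl hi hdl hdl'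
  have h4 : (I.erase i ∩ inter [A]) ∩ inter As = (I ∩ insert i A).erase i ∩ inter As := by
    ext x
    simp only [Finset.mem_inter, mem_erase, mem_insert]
    have h5 : x ∈ inter [A] ↔ x ∈ A := by
      rw [Pool.Agent.GD.mem_inter (by simp)]
      simp
    rw [h5]
    constructor
    · rintro ⟨⟨⟨h5, h6⟩, h7⟩, h9⟩
      exact ⟨⟨h5, h6, Or.inr h7⟩, h9⟩
    · rintro ⟨⟨h5, h6, h8⟩, h9⟩
      exact ⟨⟨⟨h5, h6⟩, h8.resolve_left h5⟩, h9⟩
  rw [h4, List.length_singleton, one_mul] at h1
  omega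

/-- The order of the members. -/
theorem inter_rot {A : Finset ℕ} {L : List (Finset ℕ)} : inter (A :: L) = inter (L ++ [A]) := by
  ext x
  rw [Pool.Agent.GD.mem_inter (by simp), Pool.Agent.GD.mem_inter (by simp)]
  simp only [List.mem_cons, List.mem_append, List.not_mem_nil, or_false]
  constructor
  · intro h A' hA'
    exact h A' hA'.symm
  · intro h A' hA'
    exact h A' hA'.symm

theorem PO_rot {D : ℕ} {I : Finset ℕ} {e dl i : ℕ} {L : List (Finset ℕ)} {A : Finset ℕ} {k : Kd} :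
    PO D I (.cl e dl i (A :: L)) k ↔ PO D I (.cl e dl i (L ++ [A])) k := by
  cases k with
  | ord x A => exact ⟨fun _ => PO_ord' _ _ _ _ _, fun _ => PO_ord' _ _ _ _ _⟩
  | cl e' dl' i' As' =>
    have h1 : (A :: L).length = (L ++ [A]).length := by simp
    show (_ → _ → _ → _ → _) ↔ (_ → _ → _ → _ → _)
    rw [inter_rot, h1]

theorem hh_rot {D : ℕ} {I : Finset ℕ} {e dl i : ℕ} {L : List (Finset ℕ)} {A : Finset ℕ}
    {ms : Multiset Kd} (h : HH D I (.cl e dl i (A :: L) ::ₘ ms)) :
    HH D I (.cl e dl i (L ++ [A]) ::ₘ ms) :=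
  hh_cons (hh_sub (Multiset.le_cons_self _ _) h) fun k' hk' => PO_rot.1 (hh_of_cons h k' hk')

/-! ### The classes -/

/-- The clusters with additional conditions: the numbers. -/
theorem ct_num {d e i j : ℕ} (he : 2 ≤ e) (hij : i < j) (hj : j + e ≤ d) {τ : CT}
    (hτ : τ.Ok d e i j) {e' dl i' : ℕ} {As : List (Finset ℕ)} (h : τ.kd d e i j = .cl e' dl i' As)
    (hdl : 1 ≤ dl) : e' = e ∧ i' = i ∧ dl + 2 ≤ e ∧ ∃ r ≤ i, As.length * (e - 1) + dl = d - i - 1 + r ∧
      1 ≤ As.length ∧ range i \ range r ⊆ inter As := by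
  have hmbs : ∀ (k : ℕ) (S : Finset ℕ), 1 ≤ k → S ⊆ Ico (i + 1) j → (mbs i j k S).length = k ∧
      range i ⊆ inter (mbs i j k S) := by
    intro k S hk hS
    have hlen : (mbs i j k S).length = k := by
      unfold mbs
      split_ifs with h1
      · rw [h1]
        rfl
      · rw [List.length_cons, List.length_replicate]
        omega
    refine ⟨hlen, fun x hx => ?_⟩
    rw [Pool.Agent.GD.mem_inter (by omega)]
    have hx' := mem_range.1 hx
    have h2 : x ∈ (range j).erase i := mem_erase.2 ⟨by omega, mem_range.2 (by omega)⟩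
    have h3 : x ∉ S := fun h => by
      have := (mem_Ico.1 (hS h)).1
      omega
    intro A hA
    unfold mbs at hA
    split_ifs at hA with h1
    · rw [List.mem_singleton.1 hA]
      exact mem_sdiff.2 ⟨h2, h3⟩
    · rcases List.mem_cons.1 hA with h4 | h4
      · rw [h4]
        exact h2
      · rw [(List.mem_replicate.1 h4).2]
        exact mem_sdiff.2 ⟨h2, h3⟩
  have hdiv : ∀ Q : ℕ, e - 1 ≤ Q → 1 ≤ Q / (e - 1) ∧ Q / (e - 1) * (e - 1) + Q % (e - 1) = Q ∧
      Q % (e - 1) < e - 1 := by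
    intro Q hQ
    refine ⟨(Nat.one_le_div_iff (by omega)).2 hQ, ?_, Nat.mod_lt _ (by omega)⟩
    rw [Nat.mul_comm]
    exact Nat.div_add_mod Q (e - 1)
  cases τ with
  | pl k S =>
    simp only [CT.kd, Kd.cl.injEq] at h
    omega
  | b0 S =>
    simp only [CT.kd, Kd.cl.injEq] at h
    obtain ⟨rfl, rfl, rfl, rfl⟩ := h
    obtain ⟨h1, h2, h3⟩ := hdiv (d - i - 1) (by omega)
    obtain ⟨h4, h5⟩ := hmbs ((d - i - 1) / (e - 1)) S h1 hτ.2.1
    refine ⟨rfl, rfl, by omega, 0, Nat.zero_le _, ?_, ?_, ?_⟩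
    · rw [h4]
      omega
    · rw [h4]
      exact h1
    · exact sdiff_subset.trans h5
  | br r =>
    simp only [CT.kd, Kd.cl.injEq] at h
    obtain ⟨rfl, rfl, rfl, rfl⟩ := h
    obtain ⟨h1, h2, h3⟩ := hdiv (d - i + r - 1) (by omega)
    have hlen : (mbr i j ((d - i + r - 1) / (e - 1)) e r).length = (d - i + r - 1) / (e - 1) := by
      unfold mbr
      rw [List.length_map, List.length_range]
    refine ⟨rfl, rfl, by omega, r, hτ.2, ?_, ?_, ?_⟩
    · rw [hlen]
      omega
    · rw [hlen]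
      exact h1
    · intro x hx
      rw [mem_sdiff, mem_range, mem_range] at hx
      rw [Pool.Agent.GD.mem_inter (by omega)]
      intro A hA
      unfold mbr at hA
      obtain ⟨s, -, rfl⟩ := List.mem_map.1 hA
      rw [mem_sdiff, mem_erase, mem_range, Finset.mem_inter, mem_range]
      exact ⟨⟨by omega, by omega⟩, fun h => hx.2 h.2⟩

/-- The clusters of the classes satisfy the condition at the top. -/
theorem hh_top {d e j : ℕ} (he : 2 ≤ e) (hj : j + e ≤ d) {ms : Multiset Kd}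
    (h : ∀ k ∈ ms, (∃ x A, k = .ord x A) ∨ ∃ i < j, ∃ τ : CT, τ.Ok d e i j ∧ k = τ.kd d e i j) :
    HH d (range j) ms := by
  intro k k' hk
  have hk1 : k ∈ ms := Multiset.mem_of_le hk (Multiset.mem_cons_self _ _)
  have hk2 : k' ∈ ms := Multiset.mem_of_le hk
    (Multiset.mem_cons_of_mem (Multiset.mem_singleton_self _))
  rcases h k hk1 with ⟨x, A, rfl⟩ | ⟨i, hi, τ, hτ, h1⟩
  · exact PO_ord _ _ _ _ _
  rcases h k' hk2 with ⟨x, A, rfl⟩ | ⟨i', hi', τ', hτ', h1'⟩
  · exact PO_ord' _ _ _ _ _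
  cases k with
  | ord x A => exact PO_ord _ _ _ _ _
  | cl e₁ dl₁ i₁ As₁ =>
    cases k' with
    | ord x A => exact PO_ord' _ _ _ _ _
    | cl e₂ dl₂ i₂ As₂ =>
      rintro hii hiI hdl₁ hdl₂
      obtain ⟨he₁, hi₁, ha1, r₁, hr₁, hb1, hc1, hd1⟩ := ct_num he hi hj hτ h1.symm hdl₁
      obtain ⟨he₂, hi₂, ha2, r₂, hr₂, hb2, hc2, hd2⟩ := ct_num he hi' hj hτ' h1'.symm hdl₂
      have hi3 : i' = i := by omega
      subst hi3
      subst hi₁
      rw [he₁, he₂]
      have h3 : i₁ - max r₁ r₂ ≤ (((range j).erase i₁ ∩ inter As₁) ∩ inter As₂).card := by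
        have h4 : range i₁ \ range (max r₁ r₂) ⊆ ((range j).erase i₁ ∩ inter As₁) ∩ inter As₂ := by
          intro x hx
          rw [mem_sdiff, mem_range, mem_range] at hx
          rw [Finset.mem_inter, Finset.mem_inter, mem_erase, mem_range]
          refine ⟨⟨⟨by omega, by omega⟩, hd1 ?_⟩, hd2 ?_⟩
          · rw [mem_sdiff, mem_range, mem_range]
            omega
          · rw [mem_sdiff, mem_range, mem_range]
            omega
        have h5 := card_le_card h4
        rw [card_sdiff_of_subset (range_subset_range.2 (by omega)), card_range, card_range] at h5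
        exact h5
      have h6 : e - 1 ≤ As₁.length * (e - 1) := Nat.le_mul_of_pos_left (e - 1) hc1
      have h7 : e - 1 ≤ As₂.length * (e - 1) := Nat.le_mul_of_pos_left (e - 1) hc2
      rcases le_total r₁ r₂ with h8 | h8
      · rw [max_eq_right h8] at h3
        omega
      · rw [max_eq_left h8] at h3
        omega

end Pool.Agent.GD.AL
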