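import Pool.Agent.GD.ST.Sat

/-!
# General d, ALPHA: the spaces of the solutions as spaces of functionals

`Dl ν`: functionals on the polynomial ring, `ct g Φ = Φ (g * ·)` (contraction).
`XX β D I m p`: the functionals of degree `D` of the level `I` which satisfy the conditions of the
objects `m i` at the positions `p i`; `finrank_XX`: it is the solution space of `LS d D β I`.
`XX_ct`: contraction by a point which vanishes on the blocks of `A` maps the level `I` into the level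
`I ∩ A`.
-/

set_option autoImplicit false
set_option linter.unusedSectionVars false

namespace Pool.Agent.GD.AL

open Finset MvPolynomial Pool.Agent.H51.TB Pool.Agent.V7.ST
open Pool.Agent.H21.NX (Sx mem_Sx)
open Pool.Agent.V7 (msk)

section

variable {ν : Type} [Fintype ν] [DecidableEq ν]

/-- The functionals on the polynomial ring. -/
abbrev Dl (ν : Type) : Type := MvPolynomial ν ℂ →ₗ[ℂ] ℂ

/-- Contraction. -/
noncomputable def ct (g : MvPolynomial ν ℂ) : Dl ν →ₗ[ℂ] Dl ν where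
  toFun := fun Φ => Φ ∘ₗ LinearMap.mulLeft ℂ g
  map_add' := fun _ _ => rfl
  map_smul' := fun _ _ => rfl

theorem ct_apply (g : MvPolynomial ν ℂ) (Φ : Dl ν) (y : MvPolynomial ν ℂ) :
    ct g Φ y = Φ (g * y) := rfl

theorem ct_mul (g h : MvPolynomial ν ℂ) (Φ : Dl ν) : ct (g * h) Φ = ct g (ct h Φ) := by
  refine LinearMap.ext fun y => ?_
  rw [ct_apply, ct_apply, ct_apply]
  congr 1
  ring

theorem ct_comm (g h : MvPolynomial ν ℂ) (Φ : Dl ν) : ct g (ct h Φ) = ct h (ct g Φ) := by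
  rw [← ct_mul, ← ct_mul, mul_comm]

theorem ct_one (Φ : Dl ν) : ct 1 Φ = Φ := by
  refine LinearMap.ext fun y => ?_
  rw [ct_apply, one_mul]

theorem ct_add (g h : MvPolynomial ν ℂ) (Φ : Dl ν) : ct (g + h) Φ = ct g Φ + ct h Φ := by
  refine LinearMap.ext fun y => ?_
  rw [LinearMap.add_apply, ct_apply, ct_apply, ct_apply, add_mul, map_add]

theorem ct_smul (c : ℂ) (g : MvPolynomial ν ℂ) (Φ : Dl ν) : ct (c • g) Φ = c • ct g Φ := by
  refine LinearMap.ext fun y => ?_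
  rw [LinearMap.smul_apply, ct_apply, ct_apply, smul_mul_assoc, map_smul]

theorem ct_sum {α : Type} (s : Finset α) (g : α → MvPolynomial ν ℂ) (Φ : Dl ν) :
    ct (∑ a ∈ s, g a) Φ = ∑ a ∈ s, ct (g a) Φ := by
  refine LinearMap.ext fun y => ?_
  rw [LinearMap.sum_apply, ct_apply, sum_mul, map_sum]
  rfl

theorem lf_add (p q : ν → ℂ) : lf (p + q) = lf p + lf q := by
  unfold lf
  rw [← sum_add_distrib]
  refine sum_congr rfl fun s _ => ?_
  rw [Pi.add_apply, C_add, add_mul]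

theorem lf_smul (c : ℂ) (p : ν → ℂ) : lf (c • p) = c • lf p := by
  unfold lf
  rw [smul_sum]
  refine sum_congr rfl fun s _ => ?_
  rw [Pi.smul_apply, smul_eq_mul, C_mul, smul_eq_C_mul, mul_assoc]

/-- The functionals of degree `D` on the level `I`. -/
noncomputable def Lv (β : ν → ℕ) (D : ℕ) (I : Finset ℕ) : Submodule ℂ (Dl ν) where
  carrier := {Φ | ∀ b, b ∉ Ex β D I → Φ (mon ℂ b) = 0}
  zero_mem' := fun b _ => rfl
  add_mem' := fun {Φ Ψ} h h' b hb => by rw [LinearMap.add_apply, h b hb, h' b hb, add_zero]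
  smul_mem' := fun c Φ h b hb => by rw [LinearMap.smul_apply, h b hb, smul_zero]

theorem mem_Lv {β : ν → ℕ} {D : ℕ} {I : Finset ℕ} {Φ : Dl ν} :
    Φ ∈ Lv β D I ↔ ∀ b, b ∉ Ex β D I → Φ (mon ℂ b) = 0 := Iff.rfl

/-- The conditions of an object, as a subspace. -/
noncomputable def SatM {d : ℕ} (β : ν → ℕ) (I : Finset ℕ) (k : Kd) (q : ν × Fin (d + 1) → ℂ) :
    Submodule ℂ (Dl ν) where
  carrier := {Φ | Sat β I k q Φ}
  zero_mem' := by
    refine ⟨fun _ _ _ => rfl, ?_⟩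
    cases k with
    | ord e A => trivial
    | cl e dl i As => exact fun _ _ _ _ _ _ => rfl
  add_mem' := by
    rintro Φ Ψ ⟨h1, h2⟩ ⟨h3, h4⟩
    refine ⟨fun x hx y => by rw [LinearMap.add_apply, h1 x hx y, h3 x hx y, add_zero], ?_⟩
    cases k with
    | ord e A => trivial
    | cl e dl i As =>
      intro hi κ hκ hκ' b hb
      rw [LinearMap.add_apply, h2 hi κ hκ hκ' b hb, h4 hi κ hκ hκ' b hb, add_zero]
  smul_mem' := by
    rintro c Φ ⟨h1, h2⟩
    refine ⟨fun x hx y => by rw [LinearMap.smul_apply, h1 x hx y, smul_zero], ?_⟩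
    cases k with
    | ord e A => trivial
    | cl e dl i As =>
      intro hi κ hκ hκ' b hb
      rw [LinearMap.smul_apply, h2 hi κ hκ hκ' b hb, smul_zero]

theorem mem_SatM {d : ℕ} {β : ν → ℕ} {I : Finset ℕ} {k : Kd} {q : ν × Fin (d + 1) → ℂ}
    {Φ : Dl ν} : Φ ∈ SatM β I k q ↔ Sat β I k q Φ := Iff.rfl

/-- The solutions of a configuration. -/
noncomputable def XX {d : ℕ} (β : ν → ℕ) (D : ℕ) (I : Finset ℕ) {κ : Type} (m : κ → Kd)
    (p : κ → ν × Fin (d + 1) → ℂ) : Submodule ℂ (Dl ν) :=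
  Lv β D I ⊓ ⨅ i, SatM β I (m i) (p i)

theorem mem_XX {d : ℕ} {β : ν → ℕ} {D : ℕ} {I : Finset ℕ} {κ : Type} {m : κ → Kd}
    {p : κ → ν × Fin (d + 1) → ℂ} {Φ : Dl ν} :
    Φ ∈ XX β D I m p ↔ Φ ∈ Lv β D I ∧ ∀ i, Sat β I (m i) (p i) Φ := by
  unfold XX
  rw [Submodule.mem_inf, Submodule.mem_iInf]
  rfl

/-- The functional of a form. -/
noncomputable def toDl (A : Finset (ν → ℕ)) : ({a // a ∈ A} → ℂ) →ₗ[ℂ] Dl ν where
  toFun := fun f => Fn (ext0 A f)
  map_add' := fun f g => mon_ext fun b => by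
    rw [LinearMap.add_apply, Fn_mon, Fn_mon, Fn_mon, ← mul_add]
    congr 1
    by_cases hb : b ∈ A
    · unfold ext0
      rw [dif_pos hb, dif_pos hb, dif_pos hb, Pi.add_apply]
    · rw [ext0_not _ hb, ext0_not _ hb, ext0_not _ hb, add_zero]
  map_smul' := fun c f => mon_ext fun b => by
    rw [LinearMap.smul_apply, Fn_mon, Fn_mon, RingHom.id_apply, smul_eq_mul]
    by_cases hb : b ∈ A
    · unfold ext0
      rw [dif_pos hb, dif_pos hb, Pi.smul_apply, smul_eq_mul]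
      ring
    · rw [ext0_not _ hb, ext0_not _ hb]
      ring

theorem toDl_apply (A : Finset (ν → ℕ)) (f : {a // a ∈ A} → ℂ) : toDl A f = Fn (ext0 A f) := rfl

theorem toDl_inj (A : Finset (ν → ℕ)) : Function.Injective (toDl A) := by
  rw [← LinearMap.ker_eq_bot, LinearMap.ker_eq_bot']
  intro f hf
  funext a
  have h1 : toDl A f (mon ℂ a.1) = 0 := by rw [hf]; rfl
  rw [toDl_apply, Fn_mon, ext0_mem] at h1
  exact (mul_eq_zero.1 h1).resolve_left (Nat.cast_ne_zero.2 (fac_pos a.1).ne')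

theorem toDl_mem_Lv {β : ν → ℕ} {D : ℕ} {I : Finset ℕ} (f : {a // a ∈ Ex β D I} → ℂ) :
    toDl (Ex β D I) f ∈ Lv β D I := by
  intro b hb
  rw [toDl_apply, Fn_mon, ext0_not f hb, mul_zero]

theorem exists_toDl {β : ν → ℕ} {D : ℕ} {I : Finset ℕ} {Φ : Dl ν} (h : Φ ∈ Lv β D I) :
    ∃ f, toDl (Ex β D I) f = Φ := by
  refine ⟨fun a => Φ (mon ℂ a.1) / (fac a.1 : ℂ), mon_ext fun b => ?_⟩
  rw [toDl_apply, Fn_mon]
  by_cases hb : b ∈ Ex β D I
  · unfold ext0
    rw [dif_pos hb]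
    have h1 : ((fac b : ℕ) : ℂ) ≠ 0 := Nat.cast_ne_zero.2 (fac_pos b).ne'
    field_simp
  · rw [ext0_not _ hb, mul_zero, h b hb]

end

section

variable {ν : Type} [Fintype ν] [DecidableEq ν] {d : ℕ}

theorem map_V {D : ℕ} (hD : D ≤ d) (β : ν → ℕ) (I : Finset ℕ) {κ : Type} (m : κ → Kd)
    (p : κ → ν × Fin (d + 1) → ℂ) :
    ((LS d D β I).V m p).map (toDl (Ex β D I)) = XX β D I m p := by
  ext Φ
  rw [mem_XX]
  constructor
  · rintro ⟨f, hf, rfl⟩
    exact ⟨toDl_mem_Lv f, fun i => (mem_LS hD β I m p f).1 hf i⟩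
  · rintro ⟨h1, h2⟩
    obtain ⟨f, rfl⟩ := exists_toDl h1
    exact ⟨f, (mem_LS hD β I m p f).2 h2, rfl⟩

theorem finite_Lv (β : ν → ℕ) (D : ℕ) (I : Finset ℕ) : Module.Finite ℂ (Lv β D I) := by
  have h1 : Lv β D I = LinearMap.range (toDl (Ex β D I)) := by
    ext Φ
    exact ⟨fun h => exists_toDl h, fun ⟨f, hf⟩ => hf ▸ toDl_mem_Lv f⟩
  rw [h1]
  infer_instance

theorem XX_le_Lv (β : ν → ℕ) (D : ℕ) (I : Finset ℕ) {κ : Type} (m : κ → Kd)
    (p : κ → ν × Fin (d + 1) → ℂ) : XX β D I m p ≤ Lv β D I := inf_le_left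

theorem finite_XX (β : ν → ℕ) (D : ℕ) (I : Finset ℕ) {κ : Type} (m : κ → Kd)
    (p : κ → ν × Fin (d + 1) → ℂ) : Module.Finite ℂ (XX β D I m p) := by
  have := finite_Lv β D I
  exact Submodule.finiteDimensional_of_le (XX_le_Lv β D I m p)

/-- The dimension. -/
theorem finrank_XX {D : ℕ} (hD : D ≤ d) (β : ν → ℕ) (I : Finset ℕ) {κ : Type} (m : κ → Kd)
    (p : κ → ν × Fin (d + 1) → ℂ) :
    Module.finrank ℂ (XX β D I m p) = Module.finrank ℂ ((LS d D β I).V m p) := by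
  rw [← map_V hD]
  exact (Submodule.equivMapOfInjective _ (toDl_inj _) _).finrank_eq.symm

/-- The general dimension is the smallest one. -/
theorem HI_le {D : ℕ} (hD : D ≤ d) (β : ν → ℕ) (I : Finset ℕ) {κ : Type} [Fintype κ] (m : κ → Kd)
    (p : κ → ν × Fin (d + 1) → ℂ) :
    HI d D β I ((univ : Finset κ).val.map m) ≤ Module.finrank ℂ (XX β D I m p) := by
  rw [finrank_XX hD]
  unfold HI
  rw [← gd_eq_gM]
  exact gd_le _ m p

/-- The dimension at general positions. -/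
theorem gn_XX {D : ℕ} (hD : D ≤ d) (β : ν → ℕ) (I : Finset ℕ) {κ : Type} [Fintype κ] (m : κ → Kd) :
    Gn κ (ν × Fin (d + 1)) fun p => Module.finrank ℂ (XX β D I m p) =
      HI d D β I ((univ : Finset κ).val.map m) := by
  refine (gn_gd (LS d D β I) m).mono fun p hp => ?_
  rw [finrank_XX hD, hp]
  unfold HI
  rw [← gd_eq_gM]

/-! ### One more object -/

theorem XX_elim (β : ν → ℕ) (D : ℕ) (I : Finset ℕ) {κ κ' : Type} (m : κ → Kd) (n : κ' → Kd)
    (p : κ → ν × Fin (d + 1) → ℂ) (q : κ' → ν × Fin (d + 1) → ℂ) :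
    XX β D I (Sum.elim m n) (Sum.elim p q) = XX β D I m p ⊓ XX β D I n q := by
  ext Φ
  rw [Submodule.mem_inf, mem_XX, mem_XX, mem_XX]
  constructor
  · rintro ⟨h1, h2⟩
    exact ⟨⟨h1, fun i => h2 (Sum.inl i)⟩, h1, fun i => h2 (Sum.inr i)⟩
  · rintro ⟨⟨h1, h2⟩, -, h3⟩
    exact ⟨h1, fun i => i.casesOn h2 h3⟩

/-- The point of an ordinary object. -/
def opt (β : ν → ℕ) (A : Finset ℕ) (q : ν × Fin (d + 1) → ℂ) : ν → ℂ := msk β A fun s => q (s, 0)

theorem opt_zero {β : ν → ℕ} {A : Finset ℕ} {q : ν × Fin (d + 1) → ℂ} {s : ν} (h : β s ∈ A) :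
    opt β A q s = 0 := if_pos h

theorem sat_ord {β : ν → ℕ} {I : Finset ℕ} {e : ℕ} {A : Finset ℕ} {q : ν × Fin (d + 1) → ℂ}
    {Φ : Dl ν} : Sat β I (.ord e A) q Φ ↔ ct (lf (opt β A q) ^ e) Φ = 0 := by
  constructor
  · rintro ⟨h, -⟩
    refine LinearMap.ext fun y => ?_
    exact h 0 (Nat.zero_lt_one) y
  · intro h
    refine ⟨fun x _ y => ?_, trivial⟩
    exact LinearMap.congr_fun h y

theorem XX_ord (β : ν → ℕ) (D : ℕ) (I : Finset ℕ) {κ κ' : Type} (m : κ → Kd) (e : κ' → ℕ)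
    (A : κ' → Finset ℕ) (p : κ → ν × Fin (d + 1) → ℂ) (q : κ' → ν × Fin (d + 1) → ℂ) :
    XX β D I (Sum.elim m fun i => .ord (e i) (A i)) (Sum.elim p q) =
      XX β D I m p ⊓ ⨅ i, LinearMap.ker (ct (lf (opt β (A i) (q i)) ^ e i)) := by
  ext Φ
  rw [Submodule.mem_inf, Submodule.mem_iInf, mem_XX, mem_XX]
  constructor
  · rintro ⟨h1, h2⟩
    exact ⟨⟨h1, fun i => h2 (Sum.inl i)⟩, fun i => sat_ord.1 (h2 (Sum.inr i))⟩
  · rintro ⟨⟨h1, h2⟩, h3⟩
    refine ⟨h1, fun i => ?_⟩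
    rcases i with i | i
    · exact h2 i
    · exact sat_ord.2 (h3 i)

/-! ### Contraction by a point -/

theorem lf_mul_mon (q : ν → ℂ) (b : ν → ℕ) :
    lf q * mon ℂ b = ∑ s, q s • mon ℂ (b + Pi.single s 1) := by
  unfold lf
  rw [sum_mul]
  refine sum_congr rfl fun s _ => ?_
  rw [mon_add, mon_single, smul_eq_C_mul]
  ring

theorem Lv_ct {β : ν → ℕ} {D : ℕ} {I A : Finset ℕ} {q : ν → ℂ} (hq : ∀ s, β s ∈ A → q s = 0)
    {Φ : Dl ν} (h : Φ ∈ Lv β (D + 1) I) : ct (lf q) Φ ∈ Lv β D (I ∩ A) := by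
  intro b hb
  rw [ct_apply, lf_mul_mon, map_sum]
  refine sum_eq_zero fun s _ => ?_
  rw [map_smul]
  by_cases hs : q s = 0
  · rw [hs, zero_smul]
  rw [h, smul_zero]
  intro h1
  apply hb
  rw [mem_Ex] at h1 ⊢
  refine ⟨?_, fun i hi => ?_⟩
  · have h2 := h1.1
    rw [sum_add_single] at h2
    omega
  · rw [mem_inter] at hi
    obtain ⟨x, hx, hx'⟩ := h1.2 i hi.1
    refine ⟨x, hx, ?_⟩
    have hxs : x ≠ s := by
      rintro rfl
      exact hs (hq x (hx ▸ hi.2))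
    rwa [Pi.add_apply, Pi.single_eq_of_ne hxs, add_zero] at hx'

theorem Sat_ct {β : ν → ℕ} {I A : Finset ℕ} {q : ν → ℂ} (hq : ∀ s, β s ∈ A → q s = 0)
    {k : Kd} {r : ν × Fin (d + 1) → ℂ} {Φ : Dl ν} (h : Sat β I k r Φ) :
    Sat β (I ∩ A) k r (ct (lf q) Φ) := by
  refine ⟨fun x hx y => ?_, ?_⟩
  · rw [ct_apply, ← h.1 x hx (lf q * y)]
    congr 1
    ring
  · cases k with
    | ord e A' => trivial
    | cl e dl i As =>
      intro hi κ hκ hκ' b hb
      rw [mem_inter] at hi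
      have h1 : lf q * (lf (uu β (.cl e dl i As) r) ^ (As.length * (e - 1)) *
          (lf (zz β i r) ^ κ * mon ℂ b)) = ∑ s, q s • (lf (uu β (.cl e dl i As) r) ^
            (As.length * (e - 1)) * (lf (zz β i r) ^ κ * mon ℂ (b + Pi.single s 1))) := by
        have h2 : lf q * (lf (uu β (.cl e dl i As) r) ^ (As.length * (e - 1)) *
          (lf (zz β i r) ^ κ * mon ℂ b)) = lf (uu β (.cl e dl i As) r) ^
            (As.length * (e - 1)) * (lf (zz β i r) ^ κ * (lf q * mon ℂ b)) := by ring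
        rw [h2, lf_mul_mon, mul_sum, mul_sum]
        refine sum_congr rfl fun s _ => ?_
        rw [mul_smul_comm, mul_smul_comm]
      rw [ct_apply, h1, map_sum]
      refine sum_eq_zero fun s _ => ?_
      rw [map_smul]
      by_cases hs : q s = 0
      · rw [hs, zero_smul]
      rw [h.2 hi.1 κ hκ hκ', smul_zero]
      intro x hx
      have hxs : x ≠ s := by
        rintro rfl
        exact hs (hq x (hx ▸ hi.2))
      rw [Pi.add_apply, hb x hx, Pi.single_eq_of_ne hxs, add_zero]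

theorem XX_ct {β : ν → ℕ} {D : ℕ} {I A : Finset ℕ} {κ : Type} {m : κ → Kd}
    {p : κ → ν × Fin (d + 1) → ℂ} {q : ν → ℂ} (hq : ∀ s, β s ∈ A → q s = 0) {Φ : Dl ν}
    (h : Φ ∈ XX β (D + 1) I m p) : ct (lf q) Φ ∈ XX β D (I ∩ A) m p := by
  rw [mem_XX] at h ⊢
  exact ⟨Lv_ct hq h.1, fun i => Sat_ct hq (h.2 i)⟩

/-- Degree `0`. -/
theorem Lv_zero_ct {β : ν → ℕ} {I : Finset ℕ} (q : ν → ℂ) {Φ : Dl ν} (h : Φ ∈ Lv β 0 I) :
    ct (lf q) Φ = 0 := by
  refine mon_ext fun b => ?_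
  rw [ct_apply, lf_mul_mon, map_sum, LinearMap.zero_apply]
  refine sum_eq_zero fun s _ => ?_
  rw [map_smul, h, smul_zero]
  intro h1
  have h2 := (mem_Ex.1 h1).1
  rw [sum_add_single] at h2
  omega

theorem XX_ct_pow {β : ν → ℕ} {I A : Finset ℕ} {κ : Type} {m : κ → Kd}
    {p : κ → ν × Fin (d + 1) → ℂ} {q : ν → ℂ} (hq : ∀ s, β s ∈ A → q s = 0) {k : ℕ} {D : ℕ}
    (hk : 1 ≤ k) {Φ : Dl ν} (h : Φ ∈ XX β (D + k) I m p) :
    ct (lf q ^ k) Φ ∈ XX β D (I ∩ A) m p := by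
  induction k, hk using Nat.le_induction generalizing D with
  | base => rw [pow_one]; exact XX_ct hq h
  | succ k hk ih =>
    rw [pow_succ', ct_mul]
    have h1 : Φ ∈ XX β (D + 1 + k) I m p := by
      have e : D + 1 + k = D + (k + 1) := by ring
      rw [e]
      exact h
    have h2 := XX_ct hq (ih h1)
    rw [inter_assoc, inter_self] at h2
    exact h2

/-- More blocks: a smaller space (the conditions of the clusters are imposed on more levels). -/
theorem Lv_mono {β : ν → ℕ} {D : ℕ} {I I' : Finset ℕ} (h : I ⊆ I') : Lv β D I' ≤ Lv β D I := by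
  intro Φ hΦ b hb
  refine hΦ b fun h1 => hb ?_
  rw [mem_Ex] at h1 ⊢
  exact ⟨h1.1, fun i hi => h1.2 i (h hi)⟩

end

end Pool.Agent.GD.AL
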