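import Pool.Agent.GD.ST.Step
import Pool.Agent.GD.AL.Fl

/-!
# General d, ALPHA: the trace on `L_i`

`tri i k`: the objects of the trace on `L_i` of an object `k` (the blocks are not renumbered, the variables
are `{s // β s ≠ i}`).  `trI i k x`: the `x`-th of these objects, `PsI`: its position.
-/

set_option autoImplicit false
set_option linter.unusedSectionVars false

namespace Pool.Agent.GD.AL

open Finset MvPolynomial Pool.Agent.H51.TB Pool.Agent.V7.ST
open Pool.Agent.V7 (msk)

/-- The trace on `L_i`, without renumbering of the blocks. -/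
def tri (i : ℕ) : Kd → Multiset Kd
  | .ord e A => if i ∈ A then {.ord e A} else 0
  | .cl e dl l As =>
      if l = i then {.ord (trx e dl As.length) (inter As)}
      else if ∀ A ∈ As, i ∈ A then {.cl e dl l As}
      else (((As.filter fun A => i ∈ A).map fun A => Kd.ord e A : List Kd) : Multiset Kd)

/-- The objects of the trace. -/
def trI (i : ℕ) (k : Kd) (x : ℕ) : Option Kd :=
  match k with
  | .ord e A => if x = 0 ∧ i ∈ A then some (.ord e A) else none
  | .cl e dl l As =>
      if l = i then (if x = 0 then some (.ord (trx e dl As.length) (inter As)) else none)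
      else if ∀ A ∈ As, i ∈ A then (if x = 0 then some (.cl e dl l As) else none)
      else if x < As.length ∧ i ∈ As.getD x ∅ then some (.ord e (As.getD x ∅)) else none

/-! ### The multiset -/

private theorem list_sum {α : Type} {β : Type} (f : α → Multiset β) (a : α) (l : List α) :
    ∀ N : ℕ, l.length ≤ N →
      ∑ x : Fin N, (if x.1 < l.length then f (l.getD x.1 a) else 0) = (l.map f).sum := by
  induction l with
  | nil =>
    intro N _
    rw [List.map_nil, List.sum_nil]
    exact sum_eq_zero fun x _ => if_neg (by simp)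
  | cons b t ih =>
    intro N hN
    rw [List.length_cons] at hN
    obtain ⟨M, rfl⟩ : ∃ M, N = M + 1 := ⟨N - 1, by omega⟩
    rw [Fin.sum_univ_succ, List.map_cons, List.sum_cons, ← ih M (by omega)]
    congr 1
    refine sum_congr rfl fun x _ => ?_
    have h1 : (x.succ : Fin (M + 1)).1 < (b :: t).length ↔ x.1 < t.length := by
      rw [List.length_cons, Fin.val_succ]
      omega
    by_cases h : x.1 < t.length
    · rw [if_pos (h1.2 h), if_pos h, Fin.val_succ, List.getD_cons_succ]
    · rw [if_neg (fun h2 => h (h1.1 h2)), if_neg h]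

private theorem coe_filter_sum {α β : Type} (p : α → Prop) [DecidablePred p] (f : α → β)
    (l : List α) : (l.map fun a => if p a then ({f a} : Multiset β) else 0).sum =
      (((l.filter fun a => p a).map f : List β) : Multiset β) := by
  induction l with
  | nil => rfl
  | cons b t ih =>
    rw [List.map_cons, List.sum_cons, ih, List.filter_cons]
    by_cases h : p b
    · rw [if_pos h, if_pos (by simpa using h), List.map_cons]
      rfl
    · rw [if_neg h, if_neg (by simpa using h), zero_add]

private theorem sum_first {β : Type} {N : ℕ} (o : ℕ → Multiset β) (h : ∀ x, x ≠ 0 → o x = 0) :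
    ∑ x : Fin (N + 1), o x.1 = o 0 := by
  rw [Fin.sum_univ_succ]
  have h1 : ∑ x : Fin N, o (x.succ : Fin (N + 1)).1 = 0 :=
    sum_eq_zero fun x _ => h _ (by rw [Fin.val_succ]; omega)
  rw [h1, add_zero]
  rfl

private theorem len_le {d e dl L : ℕ} (he : 2 ≤ e) (h : trx e dl L ≤ d) : L ≤ d := by
  unfold trx at h
  have h1 : L * 1 ≤ L * (e - 1) := Nat.mul_le_mul_left _ (by omega)
  omega

private theorem sum_trI {d J i : ℕ} (k : Kd) (h : k.Ok d J) :
    ∑ x : Fin (d + 1), (trI i k x.1).elim 0 (fun k => ({k} : Multiset Kd)) = tri i k := by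
  cases k with
  | ord e A =>
    rw [sum_first (fun x => (trI i (.ord e A) x).elim 0 fun k => ({k} : Multiset Kd))]
    · by_cases hj : i ∈ A
      · simp only [trI, tri, if_pos hj, true_and]
        rfl
      · simp only [trI, tri, if_neg hj, true_and]
        rfl
    · intro x hx
      simp only [trI]
      rw [if_neg fun h => hx h.1]
      rfl
  | cl e dl l As =>
    obtain ⟨he, hL, htr, hi, hA⟩ := h
    by_cases hij : l = i
    · rw [sum_first (fun x => (trI i (.cl e dl l As) x).elim 0 fun k => ({k} : Multiset Kd))]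
      · simp only [trI, tri, if_pos hij, if_true]
        rfl
      · intro x hx
        simp only [trI, if_pos hij, if_neg hx]
        rfl
    · by_cases hall : ∀ A ∈ As, i ∈ A
      · rw [sum_first (fun x => (trI i (.cl e dl l As) x).elim 0 fun k => ({k} : Multiset Kd))]
        · simp only [trI, tri, if_neg hij, if_true]
          rw [if_pos hall, if_pos hall]
          rfl
        · intro x hx
          simp only [trI, if_neg hij, if_neg hx]
          rw [if_pos hall]
          rfl
      · have h1 : ∀ x : Fin (d + 1),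
            (trI i (.cl e dl l As) x.1).elim 0 (fun k => ({k} : Multiset Kd)) =
            if x.1 < As.length then (if i ∈ As.getD x.1 ∅ then
              ({Kd.ord e (As.getD x.1 ∅)} : Multiset Kd) else 0) else 0 := by
          intro x
          simp only [trI, if_neg hij]
          rw [if_neg hall]
          by_cases h1 : x.1 < As.length
          · rw [if_pos h1]
            by_cases h2 : i ∈ As.getD x.1 ∅
            · rw [if_pos h2, if_pos ⟨h1, h2⟩]
              rfl
            · rw [if_neg h2, if_neg fun h => h2 h.2]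
              rfl
          · rw [if_neg h1, if_neg fun h => h1 h.1]
            rfl
        rw [sum_congr rfl fun x _ => h1 x]
        have h2 := list_sum (fun A : Finset ℕ => if i ∈ A then
          ({Kd.ord e A} : Multiset Kd) else 0) ∅ As (d + 1)
          ((len_le he htr).trans (Nat.le_succ d))
        rw [h2, coe_filter_sum (fun A : Finset ℕ => i ∈ A) fun A => Kd.ord e A]
        simp only [tri, if_neg hij]
        rw [if_neg hall]

theorem map_trI {d J i : ℕ} {κ : Type} [Fintype κ] (kk : κ → Kd) (h : ∀ a, (kk a).Ok d J) :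
    (univ : Finset (Sm fun y : κ × Fin (d + 1) => trI i (kk y.1) y.2.1)).val.map
      (Sm.k fun y : κ × Fin (d + 1) => trI i (kk y.1) y.2.1) =
        ((univ : Finset κ).val.map kk).bind (tri i) := by
  rw [map_Sm, Fintype.sum_prod_type, sum_congr rfl fun a _ => sum_trI (kk a) (h a),
    Multiset.bind, Multiset.map_map]
  rfl

/-! ### The positions -/

section

variable {ν : Type} [Fintype ν] [DecidableEq ν] {d : ℕ}

/-- The position of the `x`-th object of the trace. -/
def PsI {R : Type} [CommRing R] (β : ν → ℕ) (i : ℕ) (k : Kd) (x : Fin (d + 1))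
    (q : ν × Fin (d + 1) → R) (δ : {s : ν // β s ≠ i} × Fin (d + 1) → R)
    (z : {s : ν // β s ≠ i} × Fin (d + 1)) : R :=
  match k with
  | .ord _ _ => if z.2 = 0 then q (z.1.1, 0) else δ z
  | .cl e dl l As =>
      if l = i then (if z.2 = 0 ∧ β z.1.1 ∉ inter As then uu β (.cl e dl l As) q z.1.1 else δ z)
      else if ∀ A ∈ As, i ∈ A then q (z.1.1, z.2)
      else if z.2 = 0 ∧ β z.1.1 ∉ As.getD x ∅ then pt β (.cl e dl l As) x q z.1.1
      else δ z

private theorem exists_idx {As : List (Finset ℕ)} {A : Finset ℕ} (h : A ∈ As) :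
    ∃ x, x < As.length ∧ As.getD x ∅ = A := by
  obtain ⟨x, hx, hA⟩ := List.getElem_of_mem h
  exact ⟨x, hx, by rw [List.getD_eq_getElem _ _ hx]; exact hA⟩

theorem psI_surj {J i : ℕ} (β : ν → ℕ) (k : Kd) (hk : k.Ok d J)
    (p : Fin (d + 1) → {s : ν // β s ≠ i} × Fin (d + 1) → ℂ) :
    ∃ (q : ν × Fin (d + 1) → ℂ) (δ : Fin (d + 1) → {s : ν // β s ≠ i} × Fin (d + 1) → ℂ),
      ∀ x : Fin (d + 1), (trI i k x.1).isSome → ∀ z, PsI β i k x q (δ x) z = p x z := by
  classical
  -- the extension of a function from the image of `σ`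
  have hext : ∀ (f : {s : ν // β s ≠ i} → Fin (d + 1) → ℂ), ∃ q : ν × Fin (d + 1) → ℂ,
      ∀ (s : {s : ν // β s ≠ i}) x, q (s.1, x) = f s x := by
    intro f
    refine ⟨fun w => if h : β w.1 ≠ i then f ⟨w.1, h⟩ w.2 else 0, fun s x => ?_⟩
    show (if h : β s.1 ≠ i then f ⟨s.1, h⟩ x else 0) = _
    rw [dif_pos s.2]
  cases k with
  | ord e A =>
    obtain ⟨q, hq⟩ := hext fun s y => p 0 (s, y)
    refine ⟨q, p, fun x hx z => ?_⟩
    have hx0 : x = 0 := by
      by_contra h0
      have h1 : ¬ (x.1 = 0 ∧ i ∈ A) := fun h => h0 (Fin.ext h.1)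
      simp only [trI, if_neg h1] at hx
      simp at hx
    subst hx0
    simp only [PsI]
    split_ifs with hz
    · rw [hq]
      obtain ⟨s, y⟩ := z
      have hz' : y = 0 := hz
      rw [hz']
    · rfl
  | cl e dl l As =>
    obtain ⟨he, hL, htr, hi, hA⟩ := hk
    have hLd := len_le he htr
    have hAl : ∀ A ∈ As, ∀ a ∈ A, a ≠ l := by
      intro A hA' a ha
      exact (mem_erase.1 (hA A hA' ha)).1
    by_cases hij : l = i
    · -- a new cluster
      -- a member which does not vanish
      have hex : ∀ s : {s : ν // β s ≠ i}, ∃ y : Fin (d + 1), β s.1 ∉ inter As →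
          y.1 < As.length ∧ β s.1 ∉ As.getD y.1 ∅ := by
        intro s
        by_cases h : β s.1 ∈ inter As
        · exact ⟨0, fun h' => absurd h h'⟩
        · have h' := h
          rw [mem_inter hL] at h'
          push Not at h'
          obtain ⟨A, hA1, hA2⟩ := h'
          obtain ⟨y, hy, hyA⟩ := exists_idx hA1
          refine ⟨⟨y, by omega⟩, fun _ => ⟨hy, ?_⟩⟩
          rw [hyA]
          exact hA2
      choose y₀ hy₀ using hex
      obtain ⟨q, hq⟩ := hext fun s y => if y = y₀ s then p 0 (s, 0) else 0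
      refine ⟨q, p, fun x hx z => ?_⟩
      have hx0 : x = 0 := by
        by_contra h0
        have h1 : ¬ (x.1 = 0) := fun h => h0 (Fin.ext h)
        simp only [trI, if_pos hij, if_neg h1] at hx
        simp at hx
      subst hx0
      simp only [PsI, if_pos hij]
      split_ifs with hz
      · obtain ⟨s, y⟩ := z
        obtain ⟨hz1, hz2⟩ := hz
        have hz1' : y = 0 := hz1
        subst hz1'
        have h3 : β s.1 ∉ inter As := hz2
        obtain ⟨h4, h5⟩ := hy₀ s h3
        have hbi : ¬ β s.1 = l := fun h => s.2 (h.trans hij)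
        show uu β (.cl e dl l As) q s.1 = p 0 (s, 0)
        unfold uu
        rw [sum_eq_single (y₀ s)]
        · show (if (y₀ s).1 < As.length then pt β (.cl e dl l As) (y₀ s) q s.1 else 0) = _
          rw [if_pos h4]
          show (if β s.1 ∈ As.getD (y₀ s).1 ∅ then 0 else
            if β s.1 = l ∧ (y₀ s).1 + 1 = As.length then _ else q (s.1, y₀ s)) = _
          rw [if_neg h5, if_neg fun h => hbi h.1, hq, if_pos rfl]
        · intro x _ hx'
          show (if x.1 < As.length then pt β (.cl e dl l As) x q s.1 else 0) = 0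
          by_cases h6 : x.1 < As.length
          · rw [if_pos h6]
            show (if β s.1 ∈ As.getD x.1 ∅ then 0 else
              if β s.1 = l ∧ x.1 + 1 = As.length then _ else q (s.1, x)) = _
            by_cases h7 : β s.1 ∈ As.getD x.1 ∅
            · rw [if_pos h7]
            · rw [if_neg h7, if_neg fun h => hbi h.1, hq, if_neg hx']
          · rw [if_neg h6]
        · intro h
          exact absurd (mem_univ _) h
      · rfl
    · -- an old cluster
      by_cases hall : ∀ A ∈ As, i ∈ A
      · obtain ⟨q, hq⟩ := hext fun s y => p 0 (s, y)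
        refine ⟨q, p, fun x hx z => ?_⟩
        have hx0 : x = 0 := by
          by_contra h0
          have h1 : ¬ (x.1 = 0) := fun h => h0 (Fin.ext h)
          simp only [trI, if_neg hij] at hx
          rw [if_pos hall, if_neg h1] at hx
          simp at hx
        subst hx0
        simp only [PsI, if_neg hij]
        rw [if_pos hall, hq]
      · have hall' := hall
        push Not at hall'
        obtain ⟨A₀, hA₀, hjA₀⟩ := hall'
        obtain ⟨x₀, hx₀, hx₀A⟩ := exists_idx hA₀
        have hjx₀ : i ∉ As.getD x₀ ∅ := by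
          rw [hx₀A]
          exact hjA₀
        -- the correction of the member `x₀`
        obtain ⟨q, hq⟩ := hext fun s y =>
          if β s.1 = l ∧ y.1 = x₀ ∧ x₀ + 1 < As.length then
            - (∑ y : Fin (d + 1), if y.1 + 1 = As.length then p y (s, 0) else 0) -
              ∑ y : Fin (d + 1), if y.1 + 1 < As.length ∧ y.1 ≠ x₀ then p y (s, 0) else 0
          else p y (s, 0)
        refine ⟨q, p, fun x hx z => ?_⟩
        have hx1 : x.1 < As.length ∧ i ∈ As.getD x.1 ∅ := by
          by_contra h0
          simp only [trI, if_neg hij] at hx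
          rw [if_neg hall, if_neg h0] at hx
          simp at hx
        obtain ⟨hxl, hxj⟩ := hx1
        have hxx₀ : x.1 ≠ x₀ := fun h => hjx₀ (h ▸ hxj)
        simp only [PsI, if_neg hij]
        rw [if_neg hall]
        split_ifs with hz
        · obtain ⟨s, y⟩ := z
          obtain ⟨hz1, hz2⟩ := hz
          have hz1' : y = 0 := hz1
          subst hz1'
          have h3 : β s.1 ∉ As.getD x.1 ∅ := hz2
          show (if β s.1 ∈ As.getD x.1 ∅ then 0 else
            if β s.1 = l ∧ x.1 + 1 = As.length then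
              - ∑ y : Fin (d + 1), if y.1 + 1 < As.length then q (s.1, y) else 0
            else q (s.1, x)) = p x (s, 0)
          rw [if_neg h3]
          by_cases hlast : β s.1 = l ∧ x.1 + 1 = As.length
          · rw [if_pos hlast]
            obtain ⟨hb, hl⟩ := hlast
            have hx₀' : x₀ + 1 < As.length := by omega
            have h4 : ∀ y : Fin (d + 1), (if y.1 + 1 < As.length then q (s.1, y) else 0) =
                (if y = (⟨x₀, by omega⟩ : Fin (d + 1)) then q (s.1, ⟨x₀, by omega⟩) else 0) +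
                  (if y.1 + 1 < As.length ∧ y.1 ≠ x₀ then p y (s, 0) else 0) := by
              intro y
              by_cases hy : y.1 = x₀
              · have hy' : y = (⟨x₀, by omega⟩ : Fin (d + 1)) := Fin.ext hy
                rw [if_pos (by omega), if_pos hy', if_neg fun h => h.2 hy, add_zero, hy']
              · have hy' : y ≠ (⟨x₀, by omega⟩ : Fin (d + 1)) := fun h => hy (congrArg Fin.val h)
                rw [if_neg hy', zero_add]
                by_cases hy2 : y.1 + 1 < As.length
                · rw [if_pos hy2, if_pos ⟨hy2, hy⟩, hq, if_neg fun h => hy h.2.1]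
                · rw [if_neg hy2, if_neg fun h => hy2 h.1]
            rw [sum_congr rfl fun y _ => h4 y, sum_add_distrib, sum_ite_eq' univ, if_pos (mem_univ _),
              hq, if_pos ⟨hb, rfl, hx₀'⟩]
            have h5 : ∑ y : Fin (d + 1), (if y.1 + 1 = As.length then p y (s, 0) else 0) =
                p x (s, 0) := by
              rw [sum_eq_single x]
              · rw [if_pos hl]
              · intro y _ hy
                rw [if_neg]
                intro h
                exact hy (Fin.ext (by omega))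
              · intro h
                exact absurd (mem_univ _) h
            rw [h5]
            ring
          · rw [if_neg hlast, hq, if_neg fun h => hxx₀ h.2.1]
        · rfl

/-! ### Restriction of functionals -/

/-- The restriction to the polynomials in the variables off the block `i`. -/
noncomputable def rsI (β : ν → ℕ) (i : ℕ) : Dl ν →ₗ[ℂ] Dl {s : ν // β s ≠ i} where
  toFun := fun Φ => Φ ∘ₗ (rename (Subtype.val : {s : ν // β s ≠ i} → ν)).toLinearMap
  map_add' := fun _ _ => rfl
  map_smul' := fun _ _ => rfl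

theorem rsI_apply (β : ν → ℕ) (i : ℕ) (Φ : Dl ν) (P : MvPolynomial {s : ν // β s ≠ i} ℂ) :
    rsI β i Φ P = Φ (rename Subtype.val P) := rfl

theorem not_im' {β : ν → ℕ} {i : ℕ} {s : ν}
    (hs : ¬ ∃ x : {s : ν // β s ≠ i}, x.1 = s) : β s = i := by
  by_contra h
  exact hs ⟨⟨s, h⟩, rfl⟩

theorem ren_lf' {β : ν → ℕ} {i : ℕ} (p : ν → ℂ) (hp : ∀ s, β s = i → p s = 0) :
    rename Subtype.val (lf fun x : {s : ν // β s ≠ i} => p x.1) = lf p :=
  rename_lf' Subtype.val_injective p fun s hs => hp s (not_im' hs)

theorem rs_pt {β : ν → ℕ} {i : ℕ} {Φ : Dl ν} {E : ℕ} (p : ν → ℂ) (hp : ∀ s, β s = i → p s = 0)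
    (h : ∀ y, Φ (lf p ^ E * y) = 0) (y : MvPolynomial {s : ν // β s ≠ i} ℂ) :
    rsI β i Φ (lf (fun x : {s : ν // β s ≠ i} => p x.1) ^ E * y) = 0 := by
  rw [rsI_apply, map_mul, map_pow, ren_lf' p hp]
  exact h _

theorem extend_mem {β : ν → ℕ} {i : ℕ} {D : ℕ} {I : Finset ℕ} (hi : i ∉ I)
    (a : {s : ν // β s ≠ i} → ℕ) : Function.extend Subtype.val a 0 ∈ Ex β D I ↔
      a ∈ Ex (fun s : {s : ν // β s ≠ i} => β s.1) D I := by
  have hσ : Function.Injective (Subtype.val : {s : ν // β s ≠ i} → ν) := Subtype.val_injective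
  rw [mem_Ex, mem_Ex]
  have h1 : ∑ s, Function.extend Subtype.val a 0 s = ∑ x, a x := by
    symm
    refine Fintype.sum_of_injective Subtype.val hσ _ _ ?_ fun x => ?_
    · intro s hs
      exact Function.extend_apply' _ _ _ fun h => hs h
    · rw [hσ.extend_apply]
  rw [h1]
  refine and_congr_right fun _ => ?_
  constructor
  · intro h l hl
    obtain ⟨s, hs, h3⟩ := h l hl
    have h4 : β s ≠ i := fun h => hi (h ▸ hs ▸ hl)
    have h5 : Function.extend Subtype.val a 0 s = a ⟨s, h4⟩ := hσ.extend_apply a 0 ⟨s, h4⟩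
    rw [h5] at h3
    exact ⟨⟨s, h4⟩, hs, h3⟩
  · intro h l hl
    obtain ⟨x, hx, h3⟩ := h l hl
    refine ⟨x.1, hx, ?_⟩
    rw [hσ.extend_apply]
    exact h3

theorem rs_Lv {β : ν → ℕ} {i : ℕ} {D : ℕ} {I : Finset ℕ} (hi : i ∉ I) {Φ : Dl ν}
    (h : Φ ∈ Lv β D I) : rsI β i Φ ∈ Lv (fun s : {s : ν // β s ≠ i} => β s.1) D I := by
  intro b hb
  rw [rsI_apply, rename_mon Subtype.val_injective]
  exact h _ fun h1 => hb ((extend_mem hi b).1 h1)

/-- The power of the sum of the members of a cluster. -/
theorem sat_uu {β : ν → ℕ} {I : Finset ℕ} {e dl l : ℕ} {As : List (Finset ℕ)} (he : 1 ≤ e)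
    {q : ν × Fin (d + 1) → ℂ} {Φ : Dl ν} (h : Sat β I (.cl e dl l As) q Φ)
    (y : MvPolynomial ν ℂ) :
    Φ (lf (uu β (.cl e dl l As) q) ^ (As.length * (e - 1) + 1) * y) = 0 := by
  classical
  set F : Finset (Fin (d + 1)) := univ.filter fun x => x.1 < As.length with hF
  have hcard : F.card ≤ As.length := by
    have h1 : F.card ≤ (range As.length).card :=
      card_le_card_of_injOn (fun x => x.1) (fun x hx => by
        have h2 := (mem_filter.1 hx).2
        exact mem_coe.2 (mem_range.2 h2)) fun x _ x' _ hxx => Fin.ext hxx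
    rwa [card_range] at h1
  have h1 := sum_pow_mem (Ann Φ) (fun x : Fin (d + 1) => lf (pt β (.cl e dl l As) x q)) F e he
      (fun x hx => fun y => h.1 x (mem_filter.1 hx).2 y)
  have h2 : ∑ x ∈ F, lf (pt β (.cl e dl l As) x q) = lf (uu β (.cl e dl l As) q) := by
    rw [← GD.lf_sum]
    congr 1
    funext s
    rw [uu_cl, hF, sum_filter]
  rw [h2] at h1
  have h3 : As.length * (e - 1) + 1 = F.card * (e - 1) + 1 + (As.length - F.card) * (e - 1) := by
    have h4 : As.length * (e - 1) = F.card * (e - 1) + (As.length - F.card) * (e - 1) := by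
      rw [← add_mul, Nat.add_sub_cancel' hcard]
    omega
  rw [h3, pow_add, mul_assoc]
  exact h1 _

/-- The conditions of the trace of an object. -/
def TSat (β : ν → ℕ) (i : ℕ) (I : Finset ℕ) (k : Kd) (q : ν × Fin (d + 1) → ℂ)
    (Φ : Dl {s : ν // β s ≠ i}) : Prop :=
  ∀ (x : Fin (d + 1)) (k' : Kd), trI i k x.1 = some k' →
    ∀ δ, Sat (fun s : {s : ν // β s ≠ i} => β s.1) I k' (PsI β i k x q δ) Φ

theorem sat_tri {J i : ℕ} {β : ν → ℕ} {I : Finset ℕ} (hi : i ∉ I) {k : Kd} (hk : k.Ok d J)
    {q : ν × Fin (d + 1) → ℂ} {Φ : Dl ν} (h : Sat β I k q Φ) : TSat β i I k q (rsI β i Φ) := by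
  intro x k' hk' δ
  rcases k with ⟨e, A⟩ | ⟨e, dl, l, As⟩
  · simp only [trI] at hk'
    split_ifs at hk' with h1
    · obtain ⟨h1, h2⟩ := h1
      cases hk'
      refine ⟨fun x' _ y => ?_, trivial⟩
      have h3 : pt (fun s : {s : ν // β s ≠ i} => β s.1) (.ord e A) x'
          (PsI β i (.ord e A) x q δ) = fun s => pt β (.ord e A) x q s.1 := by
        funext s
        simp only [pt, msk, PsI]
        rfl
      rw [h3]
      refine rs_pt (pt β (.ord e A) x q) ?_ ?_ y
      · intro s hs
        have h4 : β s ∈ A := hs.symm ▸ h2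
        simp only [pt, msk, if_pos h4]
      · intro y
        exact h.1 x (by show x.1 < 1; omega) y
  · obtain ⟨he, hl, htr, hlJ, hAs⟩ := hk
    have hlen : As.length ≤ d := len_le he htr
    have hiA : ∀ A ∈ As, l ∉ A := fun A hA h => (mem_erase.1 (hAs A hA h)).1 rfl
    by_cases hij : l = i
    · subst hij
      simp only [trI, if_true] at hk'
      split_ifs at hk' with h1
      · cases hk'
        refine ⟨fun x' _ y => ?_, trivial⟩
        have h3 : pt (fun s : {s : ν // β s ≠ l} => β s.1) (.ord (trx e dl As.length) (inter As)) x'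
            (PsI β l (.cl e dl l As) x q δ) = fun s => uu β (.cl e dl l As) q s.1 := by
          funext s
          simp only [pt, msk, PsI, if_true, true_and]
          by_cases h4 : β s.1 ∈ inter As
          · rw [if_pos h4, uu_cl]
            symm
            refine sum_eq_zero fun y _ => ?_
            split_ifs with h5
            · have h6 : As.getD y ∅ ∈ As := getD_mem h5
              have h7 := (mem_inter hl).1 h4 _ h6
              simp only [pt, msk, if_pos h7]
            · rfl
          · rw [if_neg h4, if_pos h4]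
        rw [h3]
        refine rs_pt (uu β (.cl e dl l As) q) (fun s hs => uu_zero hl (by omega) hiA q hs) ?_ y
        intro y
        have h5 := sat_uu (by omega) h
        show Φ (_ ^ (trx e dl As.length) * y) = 0
        unfold trx
        rw [pow_add, mul_assoc]
        exact h5 _
    · simp only [trI, if_neg hij] at hk'
      by_cases hall : ∀ A ∈ As, i ∈ A
      · -- old cluster on the subspace
        rw [if_pos hall] at hk'
        split_ifs at hk' with h1
        · cases hk'
          have hpsi : ∀ z, PsI β i (.cl e dl l As) x q δ z = q (z.1.1, z.2) := by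
            intro z
            simp only [PsI, if_neg hij, if_pos hall]
          have h3 : ∀ (y : Fin (d + 1)) (s : {s : ν // β s ≠ i}),
              pt (fun s : {s : ν // β s ≠ i} => β s.1) (.cl e dl l As) y
                (PsI β i (.cl e dl l As) x q δ) s = pt β (.cl e dl l As) y q s.1 := by
            intro y s
            simp only [pt, msk, hpsi]
          have h4 : ∀ (y : Fin (d + 1)), y.1 < As.length → ∀ s, β s = i →
              pt β (.cl e dl l As) y q s = 0 := by
            intro y hy s hs
            have h5 : β s ∈ As.getD y ∅ := hs.symm ▸ hall _ (getD_mem hy)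
            simp only [pt, msk, if_pos h5]
          have h5 : ∀ s, β s = i → uu β (.cl e dl l As) q s = 0 := by
            intro s hs
            rw [uu_cl]
            refine sum_eq_zero fun y _ => ?_
            split_ifs with h6
            · exact h4 y h6 s hs
            · rfl
          have h6 : ∀ s, β s = i → zz β l q s = 0 := by
            intro s hs
            have h7 : β s ≠ l := fun h => hij (h.symm.trans hs)
            simp only [zz, if_neg h7]
          refine ⟨fun x' hx' y => ?_, fun hlI κ h1 h2 b hb => ?_⟩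
          · rw [show pt (fun s : {s : ν // β s ≠ i} => β s.1) (.cl e dl l As) x'
              (PsI β i (.cl e dl l As) x q δ) = fun s => pt β (.cl e dl l As) x' q s.1 from
              funext fun s => h3 x' s]
            exact rs_pt (pt β (.cl e dl l As) x' q) (fun s hs => h4 x' hx' s hs)
              (fun y => h.1 x' hx' y) y
          · have e1 : uu (fun s : {s : ν // β s ≠ i} => β s.1) (.cl e dl l As)
                (PsI β i (.cl e dl l As) x q δ) = fun s => uu β (.cl e dl l As) q s.1 := by
              funext s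
              rw [uu_cl, uu_cl]
              refine sum_congr rfl fun y _ => ?_
              rw [h3]
            have e2 : zz (fun s : {s : ν // β s ≠ i} => β s.1) l
                (PsI β i (.cl e dl l As) x q δ) = fun s => zz β l q s.1 := by
              funext s
              simp only [zz, hpsi]
            have e3 : rename Subtype.val (lf (fun s : {s : ν // β s ≠ i} =>
                uu β (.cl e dl l As) q s.1) ^ (As.length * (e - 1)) *
                  (lf (fun s : {s : ν // β s ≠ i} => zz β l q s.1) ^ κ * mon ℂ b)) =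
                lf (uu β (.cl e dl l As) q) ^ (As.length * (e - 1)) *
                  (lf (zz β l q) ^ κ * mon ℂ (Function.extend Subtype.val b 0)) := by
              rw [map_mul, map_mul, map_pow, map_pow,
                ren_lf' (uu β (.cl e dl l As) q) h5, ren_lf' (zz β l q) h6,
                rename_mon Subtype.val_injective]
            rw [e1, e2, rsI_apply, e3]
            refine h.2 hlI κ h1 h2 _ fun s hs => ?_
            have h7 : β s ≠ i := fun h => hij (hs.symm.trans h)
            have h8 : Function.extend Subtype.val b 0 s = b ⟨s, h7⟩ :=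
              Subtype.val_injective.extend_apply b 0 ⟨s, h7⟩
            rw [h8]
            exact hb _ hs
      · -- old cluster partly on the subspace
        rw [if_neg hall] at hk'
        split_ifs at hk' with h1
        · obtain ⟨h1, h2⟩ := h1
          cases hk'
          refine ⟨fun x' _ y => ?_, trivial⟩
          have h3 : pt (fun s : {s : ν // β s ≠ i} => β s.1) (.ord e (As.getD x ∅)) x'
              (PsI β i (.cl e dl l As) x q δ) = fun s => pt β (.cl e dl l As) x q s.1 := by
            funext s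
            by_cases h4 : β s.1 ∈ As.getD x ∅
            · simp only [pt, msk, if_pos h4]
            · show (if β s.1 ∈ As.getD x ∅ then (0 : ℂ) else
                PsI β i (.cl e dl l As) x q δ (s, 0)) = pt β (.cl e dl l As) x q s.1
              rw [if_neg h4]
              simp only [PsI, if_neg hij, if_neg hall]
              simp only [true_and]
              rw [if_pos h4]
          rw [h3]
          refine rs_pt (pt β (.cl e dl l As) x q) ?_ (fun y => h.1 x h1 y) y
          intro s hs
          have h4 : β s ∈ As.getD x ∅ := hs.symm ▸ h2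
          simp only [pt, msk, if_pos h4]

/-- The functionals of degree `D` of the level `I` on `L_i` which satisfy the conditions of the traces. -/
noncomputable def TX (β : ν → ℕ) (i D : ℕ) (I : Finset ℕ) {κ : Type} (m : κ → Kd)
    (p : κ → ν × Fin (d + 1) → ℂ) : Submodule ℂ (Dl {s : ν // β s ≠ i}) :=
  Lv (fun s : {s : ν // β s ≠ i} => β s.1) D I ⊓
    ⨅ a, ⨅ x : Fin (d + 1), ⨅ k' : {k' : Kd // trI i (m a) x.1 = some k'},
      ⨅ δ : {s : ν // β s ≠ i} × Fin (d + 1) → ℂ,
        SatM (fun s : {s : ν // β s ≠ i} => β s.1) I k'.1 (PsI β i (m a) x (p a) δ)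

theorem mem_TX {β : ν → ℕ} {i D : ℕ} {I : Finset ℕ} {κ : Type} {m : κ → Kd}
    {p : κ → ν × Fin (d + 1) → ℂ} {Φ : Dl {s : ν // β s ≠ i}} :
    Φ ∈ TX β i D I m p ↔ Φ ∈ Lv (fun s : {s : ν // β s ≠ i} => β s.1) D I ∧
      ∀ a, TSat β i I (m a) (p a) Φ := by
  unfold TX TSat
  rw [Submodule.mem_inf, Submodule.mem_iInf]
  refine and_congr_right fun _ => forall_congr' fun a => ?_
  rw [Submodule.mem_iInf]
  refine forall_congr' fun x => ?_
  rw [Submodule.mem_iInf, Subtype.forall]
  refine forall_congr' fun k' => forall_congr' fun hk' => ?_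
  rw [Submodule.mem_iInf]
  rfl

theorem rs_XX {J i : ℕ} {β : ν → ℕ} {D : ℕ} {I : Finset ℕ} (hi : i ∉ I) {κ : Type} {m : κ → Kd}
    (hm : ∀ a, (m a).Ok d J) {p : κ → ν × Fin (d + 1) → ℂ} {Φ : Dl ν} (h : Φ ∈ XX β D I m p) :
    rsI β i Φ ∈ TX β i D I m p := by
  rw [mem_XX] at h
  rw [mem_TX]
  exact ⟨rs_Lv hi h.1, fun a => sat_tri hi (hm a) (h.2 a)⟩

/-! ### General positions -/

theorem psI_map {R S : Type} [CommRing R] [CommRing S] (g : R →+* S) (β : ν → ℕ) (i : ℕ) (k : Kd)
    (x : Fin (d + 1)) (q : ν × Fin (d + 1) → R) (δ : {s : ν // β s ≠ i} × Fin (d + 1) → R)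
    (z : {s : ν // β s ≠ i} × Fin (d + 1)) :
    g (PsI β i k x q δ z) = PsI β i k x (fun z => g (q z)) (fun z => g (δ z)) z := by
  rcases k with ⟨e, A⟩ | ⟨e, dl, l, As⟩
  · simp only [PsI]
    split_ifs <;> rfl
  · simp only [PsI]
    split_ifs
    · exact uu_map g β _ q _
    · rfl
    · rfl
    · exact pt_map g β _ x q _
    · rfl

/-- The positions of the objects of the trace as polynomials. -/
noncomputable def PhI (β : ν → ℕ) (i : ℕ) {κ : Type} (kk : κ → Kd) (y : κ × Fin (d + 1))
    (z : {s : ν // β s ≠ i} × Fin (d + 1)) :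
    MvPolynomial (((κ × Fin (d + 1)) ⊕ κ) × (ν × Fin (d + 1))) ℂ :=
  PsI β i (kk y.1) y.2 (fun w => MvPolynomial.X (Sum.inr y.1, w))
    (fun w => MvPolynomial.X (Sum.inl y, (w.1.1, w.2))) z

theorem eval_PhI (β : ν → ℕ) (i : ℕ) {κ : Type} (kk : κ → Kd)
    (P : (κ × Fin (d + 1)) ⊕ κ → ν × Fin (d + 1) → ℂ)
    (y : κ × Fin (d + 1)) (z : {s : ν // β s ≠ i} × Fin (d + 1)) :
    MvPolynomial.eval (fun x => P x.1 x.2) (PhI β i kk y z) =
      PsI β i (kk y.1) y.2 (P (Sum.inr y.1)) (fun w => P (Sum.inl y) (w.1.1, w.2)) z := by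
  have h := psI_map
    (MvPolynomial.eval fun x : ((κ × Fin (d + 1)) ⊕ κ) × (ν × Fin (d + 1)) => P x.1 x.2) β i
    (kk y.1) y.2 (fun w => MvPolynomial.X (Sum.inr y.1, w))
    (fun w => MvPolynomial.X (Sum.inl y, (w.1.1, w.2))) z
  simp only [MvPolynomial.eval_X] at h
  exact h

theorem PhI_surj {J : ℕ} (β : ν → ℕ) (i : ℕ) {κ : Type} (kk : κ → Kd) (hk : ∀ a, (kk a).Ok d J)
    (p : Sm (fun y : κ × Fin (d + 1) => trI i (kk y.1) y.2.1) →
      {s : ν // β s ≠ i} × Fin (d + 1) → ℂ) :
    ∃ p' : (κ × Fin (d + 1)) ⊕ κ → ν × Fin (d + 1) → ℂ, ∀ y z,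
      MvPolynomial.eval (fun x => p' x.1 x.2) (PhI β i kk y.1 z) = p y z := by
  classical
  have h1 : ∀ a : κ, ∃ (q : ν × Fin (d + 1) → ℂ)
      (δ : Fin (d + 1) → {s : ν // β s ≠ i} × Fin (d + 1) → ℂ),
      ∀ x : Fin (d + 1), ∀ hx : (trI i (kk a) x.1).isSome, ∀ z,
        PsI β i (kk a) x q (δ x) z = p ⟨(a, x), hx⟩ z := by
    intro a
    obtain ⟨q, δ, h2⟩ := psI_surj β (kk a) (hk a)
      (fun x => if hx : (trI i (kk a) x.1).isSome then p ⟨(a, x), hx⟩ else 0)
    refine ⟨q, δ, fun x hx z => ?_⟩
    rw [h2 x hx z, dif_pos hx]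
  choose q δ h1 using h1
  refine ⟨Sum.elim (fun y w => if h : β w.1 ≠ i then δ y.1 y.2 (⟨w.1, h⟩, w.2) else 0) q, ?_⟩
  rintro ⟨⟨a, x⟩, hx⟩ z
  rw [eval_PhI, ← h1 a x hx z]
  congr 1
  funext w
  show (if h : β w.1.1 ≠ i then δ a x (⟨w.1.1, h⟩, w.2) else 0) = _
  rw [dif_pos w.1.2]

theorem TX_le {D : ℕ} (β : ν → ℕ) (i : ℕ) (I : Finset ℕ) {κ : Type}
    (m : κ → Kd) (P : (κ × Fin (d + 1)) ⊕ κ → ν × Fin (d + 1) → ℂ) :
    TX β i D I m (fun a => P (Sum.inr a)) ≤ XX (fun s : {s : ν // β s ≠ i} => β s.1) D I
      (Sm.k fun y : κ × Fin (d + 1) => trI i (m y.1) y.2.1)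
      (fun y z => MvPolynomial.eval (fun x => P x.1 x.2) (PhI β i m y.1 z)) := by
  intro Φ hΦ
  have h0 := mem_TX.1 hΦ
  refine mem_XX.2 ⟨h0.1, fun y => ?_⟩
  have h1 : ∀ z, MvPolynomial.eval (fun x => P x.1 x.2) (PhI β i m y.1 z) =
      PsI β i (m y.1.1) y.1.2 (P (Sum.inr y.1.1)) (fun w => P (Sum.inl y.1) (w.1.1, w.2)) z :=
    fun z => eval_PhI β i m P y.1 z
  have h2 : trI i (m y.1.1) y.1.2.1 =
      some (Sm.k (fun y : κ × Fin (d + 1) => trI i (m y.1) y.2.1) y) := (Option.some_get y.2).symm
  have h3 := h0.2 y.1.1 y.1.2 _ h2 (fun w => P (Sum.inl y.1) (w.1.1, w.2))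
  have h4 := funext h1
  exact Eq.mpr (congrArg (fun q => Sat (fun s : {s : ν // β s ≠ i} => β s.1) I
    (Sm.k (fun y : κ × Fin (d + 1) => trI i (m y.1) y.2.1) y) q Φ) h4) h3

/-- The dimension at general positions. -/
theorem gn_TX {J D : ℕ} (hD : D ≤ d) (β : ν → ℕ) (i : ℕ) (I : Finset ℕ) {κ : Type} [Fintype κ]
    (m : κ → Kd) (hm : ∀ a, (m a).Ok d J) :
    Gn κ (ν × Fin (d + 1)) fun p => Module.finrank ℂ (TX β i D I m p) ≤
      HI d D (fun s : {s : ν // β s ≠ i} => β s.1) I (((univ : Finset κ).val.map m).bind (tri i)) := by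
  classical
  have g1 := gn_XX hD (fun s : {s : ν // β s ≠ i} => β s.1) I
    (Sm.k fun y : κ × Fin (d + 1) => trI i (m y.1) y.2.1)
  rw [map_trI m hm] at g1
  have g2 := Pool.Agent.KZ.gn_sub
    (fun y : Sm (fun y : κ × Fin (d + 1) => trI i (m y.1) y.2.1) => PhI β i m y.1)
    (PhI_surj β i m hm) g1
  obtain ⟨δ, g3⟩ := g2.fix
  refine g3.mono fun p hp => ?_
  have := finite_XX (fun s : {s : ν // β s ≠ i} => β s.1) D I
    (Sm.k fun y : κ × Fin (d + 1) => trI i (m y.1) y.2.1)
    (fun y z => MvPolynomial.eval (fun x => Sum.elim δ p x.1 x.2) (PhI β i m y.1 z))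
  exact (Submodule.finrank_mono (TX_le β i I m (Sum.elim δ p))).trans hp.le

end

end Pool.Agent.GD.AL
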