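import Pool.Agent.GD.AL.St
import Pool.Agent.GD.AL.BTd
import Pool.Agent.GD.AL.Tri
import Pool.Agent.GD.AL.H1

/-!
# General d, ALPHA, part C (clusters): definitions
-/

set_option autoImplicit false

namespace Pool.Agent.GD.AL

open Finset

/-- The members as ordinary objects. -/
def mb (e : ℕ) (As : List (Finset ℕ)) : Multiset Kd := ((As.map (Kd.ord e) : List Kd) : Multiset Kd)

/-- The members which vanish on the block `i`. -/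
def mbI (e i : ℕ) (As : List (Finset ℕ)) : Multiset Kd :=
  ((As.map fun A => Kd.ord e (insert i A) : List Kd) : Multiset Kd)

/-- The clusters. -/
def AdmC (d J e : ℕ) (k : Kd) : Prop :=
  ∃ dl i As, k = .cl e dl i As ∧ 2 ≤ e ∧ 1 ≤ As.length ∧ trx e dl As.length ≤ d ∧ i < J ∧
    ∀ A ∈ As, A ⊆ (range J).erase i ∧ ((range J).erase i \ A).card ≤ e - 1

/-- The trace on `L_i`. -/
def St.li (σ : St) (i : ℕ) : St := ⟨Function.update σ.c i 0, σ.w, σ.ms.bind (tri i)⟩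

theorem AdmC.ok {d J e : ℕ} {k : Kd} (h : AdmC d J e k) : k.Ok d J := by
  obtain ⟨dl, i, As, rfl, h1, h2, h3, h4, h5⟩ := h
  exact ⟨h1, h2, h3, h4, fun A hA => (h5 A hA).1⟩

/-- The relative size of the effect of a point of exponent `e - 1` with the support `T`. -/
noncomputable def rl (c0 : ℕ → ℕ) (n0 e : ℕ) (T : Finset ℕ) : ℝ :=
  1 / ((∏ l ∈ T, (c0 l : ℝ)) * (n0 : ℝ) ^ (e - 1 - T.card))

/-- The clusters for `CL2`. -/
def Pl (J : ℕ) : Kd → Prop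
  | .ord _ _ => False
  | .cl _ dl i As => dl = 0 ∧ 2 ≤ As.length ∧ ∀ A ∈ As, A = (range J).erase i

open Classical in
/-- The weight of an object. -/
noncomputable def om (c0 : ℕ → ℕ) (n0 J : ℕ) : Kd → ℝ
  | .ord _ _ => 0
  | .cl e dl i As => if Pl J (.cl e dl i As) then 1 / ((c0 i : ℝ) * (n0 : ℝ) ^ (e - 1))
      else (As.map fun A => rl c0 n0 e ((range J).erase i \ A)).foldr min 1

/-- The class of the states with clusters. -/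
structure InC (d J e : ℕ) (c0 : ℕ → ℕ) (n0 : ℕ) (ϖ θ : ℝ) (I : Finset ℕ) (σ : St) : Prop where
  c : ∀ l, σ.c l ≤ c0 l
  c' : ∀ l ∈ I, ϖ * c0 l ≤ (σ.c l : ℝ)
  n : σ.n J ≤ n0
  w : ϖ * n0 ≤ (σ.w : ℝ)
  adm : ∀ k ∈ σ.ms, AdmO d J k ∨ AdmC d J e k
  om : (σ.ms.map (om c0 n0 J)).sum ≤ θ

/-- There are enough ordinary points for the groups of `CL2`. -/
def IP (J e : ℕ) (c0 : ℕ → ℕ) (N : ℕ) (ms : Multiset Kd) : Prop :=
  ∀ i < J, (∃ m, 2 ≤ m ∧ .cl e 0 i (List.replicate m ((range J).erase i)) ∈ ms) →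
    N * c0 i ≤ ms.count (.ord e ((range J).erase i))

/-- The reference sizes. -/
structure Rf (J : ℕ) (c0 : ℕ → ℕ) (n0 : ℕ) (K : ℝ) : Prop where
  c : ∀ l < J, K ≤ (c0 l : ℝ)
  n : K * (1 + ∑ l ∈ range J, (c0 l : ℝ)) ≤ (n0 : ℝ)

/-- The members of an object. -/
def mmb : Kd → Multiset Kd
  | .ord e A => {.ord e A}
  | .cl e _ _ As => mb e As

/-- `R` arises from `ms` if some clusters are replaced by their members and some objects are omitted. -/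
def Fam (ms R : Multiset Kd) : Prop := ∃ U C O : Multiset Kd, U + C ≤ ms ∧ O ≤ C.bind mmb ∧ R = U + O

/-- Bounds from both sides at the lower pairs. -/
def BP (J : ℕ) (c0 : ℕ → ℕ) (n0 : ℕ) (η : ℝ) (σ : St) (I : Finset ℕ) (D : ℕ) : Prop :=
  ∀ I' ⊆ I, ∀ D' : ℕ, I'.card ≤ D' → D' < D → D' + (I \ I').card ≤ D →
    η * nz c0 n0 I' D' ≤ (σ.V J I' D' : ℝ) ∧ (σ.V J I' D' : ℝ) ≤ 2 * nz c0 n0 I' D'


/-- The upper bound for the states with clusters. -/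
def XC (d J e D : ℕ) : Prop := ∀ η ϖ : ℝ, 0 < η → 0 < ϖ → ∃ θ : ℝ, 0 < θ ∧ ∃ F : (ℕ → ℕ) → ℕ,
  ∀ c0 : ℕ → ℕ, Hr 0 J F c0 → ∃ n1 : ℕ, ∀ n0, n1 ≤ n0 → ∀ (σ : St) (I : Finset ℕ), I ⊆ range J →
    InC d J e c0 n0 ϖ θ I σ → HH D I σ.ms →
    IP J e c0 ((D + 1) * d) σ.ms → Pos J c0 n0 η σ I D → σ.dl d J I D ≤ 0

/-- The same if all clusters are clusters for `CL2` at levels in `I`. -/
def XP (d J e D : ℕ) : Prop := ∀ η ϖ : ℝ, 0 < η → 0 < ϖ → ∃ θ : ℝ, 0 < θ ∧ ∃ F : (ℕ → ℕ) → ℕ,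
  ∀ c0 : ℕ → ℕ, Hr 0 J F c0 → ∃ n1 : ℕ, ∀ n0, n1 ≤ n0 → ∀ (σ : St) (I : Finset ℕ), I ⊆ range J →
    InC d J e c0 n0 ϖ θ I σ →
    (∀ k ∈ σ.ms, AdmO d J k ∨ ∃ i ∈ I, ∃ m, 2 ≤ m ∧
      k = .cl e 0 i (List.replicate m ((range J).erase i))) →
    IP J e c0 ((D + 1) * d) σ.ms → Pos J c0 n0 η σ I D → σ.dl d J I D ≤ 0

end Pool.Agent.GD.AL
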