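import Pool.Agent.GD.AL.Mono
import Pool.Agent.GD.ST.Core2

/-!
# General d, ALPHA, clusters: the order of the members

`HI_perm`: the general dimension does not depend on the order of the members of a cluster; `HI_rot`: the
first member is moved to the end.
-/

set_option autoImplicit false
set_option linter.unusedSectionVars false

namespace Pool.Agent.GD.AL

open Finset MvPolynomial Pool.Agent.H51.TB Pool.Agent.V7.ST
open Pool.Agent.V7 (msk)

section

variable {ν : Type} [Fintype ν] [DecidableEq ν] {d : ℕ} {β : ν → ℕ}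

/-- The members of a cluster, for all natural numbers. -/
def ptn (β : ν → ℕ) (k : Kd) (x : ℕ) (q : ν × Fin (d + 1) → ℂ) (s : ν) : ℂ :=
  if h : x < d + 1 then pt β k ⟨x, h⟩ q s else 0

theorem ptn_eq (k : Kd) (x : Fin (d + 1)) (q : ν × Fin (d + 1) → ℂ) (s : ν) :
    ptn β k x.1 q s = pt β k x q s := by
  unfold ptn
  rw [dif_pos x.2]

theorem uu_ptn {e dl i : ℕ} {As : List (Finset ℕ)} (hl : As.length ≤ d + 1)
    (q : ν × Fin (d + 1) → ℂ) (s : ν) : uu β (.cl e dl i As) q s =
      ∑ x : Fin As.length, ptn β (.cl e dl i As) x.1 q s := by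
  rw [uu_cl, Fin.sum_univ_eq_sum_range (fun x => ptn β (.cl e dl i As) x q s) As.length]
  have h1 : ∀ x : Fin (d + 1), (if x.1 < As.length then pt β (.cl e dl i As) x q s else 0) =
      if x.1 < As.length then ptn β (.cl e dl i As) x.1 q s else 0 := by
    intro x
    rw [ptn_eq]
  rw [sum_congr rfl fun x _ => h1 x,
    Fin.sum_univ_eq_sum_range (fun x => if x < As.length then ptn β (.cl e dl i As) x q s else 0)
      (d + 1), ← sum_filter]
  refine sum_congr ?_ fun _ _ => rfl
  ext x
  rw [mem_filter, mem_range, mem_range]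
  omega

/-- The position of the permuted cluster. -/
def pr {k : ℕ} (β : ν → ℕ) (o : Kd) (σ : Equiv.Perm (Fin k)) (q : ν × Fin (d + 1) → ℂ)
    (z : ν × Fin (d + 1)) : ℂ :=
  if h : z.2.1 < k then ptn β o (σ ⟨z.2.1, h⟩).1 q z.1 else q z

theorem pt_pr {e dl i : ℕ} {As As' : List (Finset ℕ)} (h0 : 1 ≤ As.length)
    (hi : ∀ A ∈ As, i ∉ A) (hl : As.length ≤ d) (hlen : As'.length = As.length)
    (σ : Equiv.Perm (Fin As.length))
    (hσ : ∀ x : Fin As.length, As'.getD x.1 ∅ = As.getD (σ x).1 ∅)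
    (q : ν × Fin (d + 1) → ℂ) (x : Fin (d + 1)) (hx : x.1 < As.length) :
    pt β (.cl e dl i As') x (pr β (.cl e dl i As) σ q) =
      ptn β (.cl e dl i As) (σ ⟨x.1, hx⟩).1 q := by
  funext s
  have hsx : (σ ⟨x.1, hx⟩).1 < d + 1 := by
    have := (σ ⟨x.1, hx⟩).2
    omega
  show (if β s ∈ As'.getD x.1 ∅ then (0 : ℂ) else if β s = i ∧ x.1 + 1 = As'.length then
    - ∑ y : Fin (d + 1), (if y.1 + 1 < As'.length then pr β (.cl e dl i As) σ q (s, y) else 0)
    else pr β (.cl e dl i As) σ q (s, x)) = _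
  have h1 := hσ ⟨x.1, hx⟩
  change As'.getD x.1 ∅ = As.getD (σ ⟨x.1, hx⟩).1 ∅ at h1
  rw [h1]
  by_cases h2 : β s ∈ As.getD (σ ⟨x.1, hx⟩).1 ∅
  · rw [if_pos h2]
    unfold ptn
    rw [dif_pos hsx]
    symm
    exact if_pos h2
  · rw [if_neg h2]
    by_cases h3 : β s = i ∧ x.1 + 1 = As'.length
    · rw [if_pos h3]
      have h4 : ∑ z : Fin As.length, ptn β (.cl e dl i As) z.1 q s = 0 := by
        rw [← uu_ptn (by omega)]
        exact uu_zero h0 (by omega) hi q h3.1
      rw [← Equiv.sum_comp σ] at h4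
      obtain ⟨l, hl'⟩ : ∃ l, As.length = l + 1 := ⟨As.length - 1, by omega⟩
      have h5 : ∑ z : Fin As.length, ptn β (.cl e dl i As) (σ z).1 q s =
          ∑ y : Fin (d + 1), (if y.1 + 1 < As'.length then pr β (.cl e dl i As) σ q (s, y) else 0) +
            ptn β (.cl e dl i As) (σ ⟨x.1, hx⟩).1 q s := by
        have h6 : ∀ z : Fin As.length, ptn β (.cl e dl i As) (σ z).1 q s =
            (fun y : ℕ => if h : y < As.length then ptn β (.cl e dl i As) (σ ⟨y, h⟩).1 q s else 0)
              z.1 := by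
          intro z
          show _ = dite _ _ _
          rw [dif_pos z.2]
        rw [sum_congr rfl fun z _ => h6 z, Fin.sum_univ_eq_sum_range (fun y : ℕ =>
          if h : y < As.length then ptn β (.cl e dl i As) (σ ⟨y, h⟩).1 q s else 0) As.length]
        rw [show range As.length = range (x.1 + 1) by rw [h3.2, hlen], sum_range_succ]
        congr 1
        · have h7 : ∀ y : Fin (d + 1), (if y.1 + 1 < As'.length then
              pr β (.cl e dl i As) σ q (s, y) else 0) = (fun y : ℕ => if y < x.1 then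
                (if h : y < As.length then ptn β (.cl e dl i As) (σ ⟨y, h⟩).1 q s else 0) else 0)
                y.1 := by
            intro y
            show _ = ite _ _ _
            by_cases h8 : y.1 + 1 < As'.length
            · rw [if_pos h8, if_pos (show y.1 < x.1 by omega), dif_pos (show y.1 < As.length by omega)]
              unfold pr
              rw [dif_pos (show y.1 < As.length by omega)]
            · rw [if_neg h8, if_neg (show ¬ y.1 < x.1 by omega)]
          rw [sum_congr rfl fun y _ => h7 y, Fin.sum_univ_eq_sum_range (fun y : ℕ => if y < x.1 then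
                (if h : y < As.length then ptn β (.cl e dl i As) (σ ⟨y, h⟩).1 q s else 0) else 0)
                (d + 1), ← sum_filter]
          refine sum_congr ?_ fun _ _ => rfl
          ext y
          rw [mem_filter, mem_range, mem_range]
          omega
        · rw [dif_pos hx]
      rw [h5] at h4
      linear_combination -h4
    · rw [if_neg h3]
      unfold pr
      rw [dif_pos hx]

theorem sat_pr {e dl i : ℕ} {As As' : List (Finset ℕ)} (h0 : 1 ≤ As.length)
    (hi : ∀ A ∈ As, i ∉ A) (hl : As.length ≤ d) (hlen : As'.length = As.length)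
    (σ : Equiv.Perm (Fin As.length))
    (hσ : ∀ x : Fin As.length, As'.getD x.1 ∅ = As.getD (σ x).1 ∅) {I : Finset ℕ}
    (q : ν × Fin (d + 1) → ℂ) {Φ : MvPolynomial ν ℂ →ₗ[ℂ] ℂ}
    (h : Sat β I (.cl e dl i As') (pr β (.cl e dl i As) σ q) Φ) : Sat β I (.cl e dl i As) q Φ := by
  have hpt := fun x hx => pt_pr (β := β) (e := e) (dl := dl) h0 hi hl hlen σ hσ q x hx
  refine ⟨fun x hx y => ?_, ?_⟩
  · have hx' : x.1 < As.length := hx
    have hy : (σ.symm ⟨x.1, hx'⟩).1 < d + 1 := by
      have := (σ.symm ⟨x.1, hx'⟩).2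
      omega
    have h1 := h.1 ⟨(σ.symm ⟨x.1, hx'⟩).1, hy⟩ (by
      show (σ.symm ⟨x.1, hx'⟩).1 < As'.length
      have := (σ.symm ⟨x.1, hx'⟩).2
      omega) y
    rw [hpt ⟨(σ.symm ⟨x.1, hx'⟩).1, hy⟩ (σ.symm ⟨x.1, hx'⟩).2] at h1
    have h2 : (σ ⟨(σ.symm ⟨x.1, hx'⟩).1, (σ.symm ⟨x.1, hx'⟩).2⟩).1 = x.1 := by
      show (σ (σ.symm ⟨x.1, hx'⟩)).1 = x.1
      rw [Equiv.apply_symm_apply]
    have h3 : ptn β (.cl e dl i As) (σ ⟨(σ.symm ⟨x.1, hx'⟩).1, (σ.symm ⟨x.1, hx'⟩).2⟩).1 q =
        pt β (.cl e dl i As) x q := by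
      funext s
      rw [h2, ptn_eq]
    change Φ (lf (ptn β (.cl e dl i As) (σ ⟨(σ.symm ⟨x.1, hx'⟩).1, (σ.symm ⟨x.1, hx'⟩).2⟩).1 q) ^ e
      * y) = 0 at h1
    rw [h3] at h1
    exact h1
  · intro hiI κ h1 h2 b hb
    have h3 := h.2 hiI κ h1 h2 b hb
    have h4 : uu β (.cl e dl i As') (pr β (.cl e dl i As) σ q) = uu β (.cl e dl i As) q := by
      funext s
      rw [uu_ptn (by omega), uu_ptn (by omega), ← Equiv.sum_comp σ]
      rw [← Equiv.sum_comp (finCongr hlen.symm)]
      refine sum_congr rfl fun x _ => ?_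
      have hx : x.1 < d + 1 := by
        have := x.2
        omega
      show ptn β (.cl e dl i As') x.1 _ s = _
      rw [show ptn β (.cl e dl i As') x.1 (pr β (.cl e dl i As) σ q) s =
        pt β (.cl e dl i As') ⟨x.1, hx⟩ (pr β (.cl e dl i As) σ q) s from ptn_eq _ ⟨x.1, hx⟩ _ _,
        hpt ⟨x.1, hx⟩ x.2]
    have h5 : zz β i (pr β (.cl e dl i As) σ q) = zz β i q := by
      funext s
      show (if β s = i then pr β (.cl e dl i As) σ q (s, Fin.last d) else 0) = _
      unfold pr
      rw [dif_neg (show ¬ (Fin.last d).1 < As.length by rw [Fin.val_last]; omega)]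
      rfl
    rw [h4, h5, hlen] at h3
    exact h3

/-- The order of the members. -/
theorem HI_perm {D : ℕ} (hD : D ≤ d) {e dl i : ℕ} {As As' : List (Finset ℕ)} (h0 : 1 ≤ As.length)
    (hi : ∀ A ∈ As, i ∉ A) (hl : As.length ≤ d) (hlen : As'.length = As.length)
    (σ : Equiv.Perm (Fin As.length))
    (hσ : ∀ x : Fin As.length, As'.getD x.1 ∅ = As.getD (σ x).1 ∅) (I : Finset ℕ)
    (ms : Multiset Kd) :
    HI d D β I (.cl e dl i As' ::ₘ ms) ≤ HI d D β I (.cl e dl i As ::ₘ ms) :=
  HI_repl hD β I _ _ (pr β (.cl e dl i As) σ) (fun q _ h => sat_pr h0 hi hl hlen σ hσ q h) ms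

/-- The first member is moved to the end. -/
theorem HI_rot {D : ℕ} (hD : D ≤ d) {e dl i : ℕ} {A : Finset ℕ} {L : List (Finset ℕ)}
    (hiA : i ∉ A) (hi : ∀ A' ∈ L, i ∉ A') (hl : L.length + 1 ≤ d) (I : Finset ℕ)
    (ms : Multiset Kd) :
    HI d D β I (.cl e dl i (A :: L) ::ₘ ms) = HI d D β I (.cl e dl i (L ++ [A]) ::ₘ ms) := by
  have h1 : (L ++ [A]).length = L.length + 1 := by
    rw [List.length_append, List.length_singleton]
  have key : ∀ x : Fin (L.length + 1), (L ++ [A]).getD x.1 ∅ =
      (A :: L).getD (finRotate (L.length + 1) x).1 ∅ := by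
    intro x
    by_cases hx : x.1 < L.length
    · have h2 : (finRotate (L.length + 1) x).1 = x.1 + 1 := by
        have h3 : x = ⟨x.1, by omega⟩ := rfl
        rw [h3, finRotate_of_lt hx]
      rw [h2, List.getD_cons_succ, List.getD_append _ _ _ _ hx]
    · have h2 : x = Fin.last L.length := by
        apply Fin.ext
        rw [Fin.val_last]
        have := x.2
        omega
      rw [h2, finRotate_last, Fin.val_last, Fin.val_zero, List.getD_cons_zero,
        List.getD_append_right _ _ _ _ le_rfl]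
      simp
  apply le_antisymm
  · let σ : Equiv.Perm (Fin (L ++ [A]).length) :=
      (finCongr h1).trans ((finRotate (L.length + 1)).symm.trans (finCongr h1.symm))
    refine HI_perm hD (by omega) ?_ (by omega) (by rw [h1]; rfl) σ (fun x => ?_) I ms
    · intro A' hA'
      rw [List.mem_append, List.mem_singleton] at hA'
      rcases hA' with h | h
      · exact hi _ h
      · rw [h]
        exact hiA
    · have h2 := key ((finRotate (L.length + 1)).symm (finCongr h1 x))
      rw [Equiv.apply_symm_apply] at h2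
      exact h2.symm
  · refine HI_perm hD (As := A :: L) (by simp) ?_ (by simpa using hl) (by rw [h1]; rfl)
      (finRotate (L.length + 1)) (fun x => key x) I ms
    intro A' hA'
    rcases List.mem_cons.1 hA' with h | h
    · rw [h]
      exact hiA
    · exact hi _ h

end

end Pool.Agent.GD.AL
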