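import Pool.Agent.GD.AL.Cl1a
import Pool.Agent.GD.AL.Rot
import Pool.Agent.GD.AL.Bas
import Pool.Agent.GD.N.Vd

/-!
# General d, ALPHA: clusters, the virtual dimensions and the defects

`vd_cl1`, `vd_cl1a`: the virtual versions of `cl1`, `cl1a` are equalities.  `cl1_dl`, `cl1a_dl`: the defect of
a state with a cluster is at most the one with the points and `(T, e - 1)`, if the lower defects are `≤ 0`.
-/

set_option autoImplicit false
set_option linter.unusedSectionVars false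

namespace Pool.Agent.GD.AL

open Finset

/-- A point of exponent `1` telescopes. -/
theorem vd_tele1 (N : ℕ) {I' A : Finset ℕ} (hA : I' ⊆ A) (c : ℕ → ℕ) (n : ℕ) (X : Multiset Kd) :
    ∑ s ∈ range (N + 1), vd s I' c n (.ord 1 A ::ₘ X) = vd N I' c n X := by
  induction N with
  | zero => rw [sum_range_one, vd_cons_lt 0 I' c n X 1 A Nat.zero_lt_one]
  | succ N ih =>
    rw [sum_range_succ, ih, vd_cons (N + 1) I' c n X 1 A (by omega), inter_eq_left.2 hA]
    ring_nf
    rw [show 1 + N - 1 = N by omega]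
    ring

theorem mem_inter_append {L : List (Finset ℕ)} {A : Finset ℕ} (hL : 1 ≤ L.length) {x : ℕ} :
    x ∈ inter (L ++ [A]) ↔ x ∈ inter L ∧ x ∈ A := by
  rw [Pool.Agent.GD.mem_inter (by rw [List.length_append, List.length_singleton]; omega),
    Pool.Agent.GD.mem_inter hL]
  constructor
  · intro h
    exact ⟨fun A' hA' => h A' (List.mem_append_left _ hA'),
      h A (List.mem_append_right _ (List.mem_singleton_self A))⟩
  · rintro ⟨h1, h2⟩ A' hA'
    rcases List.mem_append.1 hA' with h3 | h3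
    · exact h1 A' h3
    · rw [List.mem_singleton.1 h3]
      exact h2

/-- The virtual version of `cl1`. -/
theorem vd_cl1 (D : ℕ) {I A B : Finset ℕ} (c : ℕ → ℕ) (n : ℕ) {i E dl : ℕ} {L : List (Finset ℕ)}
    (hE : 1 ≤ E) (hL : 1 ≤ L.length) (hi : i ∈ I) (hiL : ∀ A' ∈ L, i ∉ A') (hiB : i ∉ B)
    (hAB : A ⊆ B) (ms : Multiset Kd) :
    vd D I c n (.cl (E + 1) dl i (L ++ [A]) ::ₘ ms) =
      vd D I c n (.ord E (insert i A) ::ₘ (((L.map (Kd.ord (E + 1)) : List Kd) : Multiset Kd) + ms)) +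
      ∑ s ∈ range (D + 1 - E), vd s (I ∩ insert i A) c n
        (.cl (E + 1) dl i L ::ₘ .ord 1 (insert i A) ::ₘ .ord 1 B ::ₘ ms) := by
  have hiA : i ∉ A := fun h => hiB (hAB h)
  have hmem : ∀ A' ∈ L ++ [A], i ∉ A' := by
    intro A' hA'
    rcases List.mem_append.1 hA' with h | h
    · exact hiL _ h
    · rw [List.mem_singleton.1 h]
      exact hiA
  have hlen : (L ++ [A]).length = L.length + 1 := by
    rw [List.length_append, List.length_singleton]
  have hmap : (((L ++ [A]).map (fun A => Kd.ord (E + 1) A) : List Kd) : Multiset Kd) + ms =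
      .ord (E + 1) A ::ₘ (((L.map (Kd.ord (E + 1)) : List Kd) : Multiset Kd) + ms) := by
    rw [List.map_append, List.map_singleton, ← Multiset.coe_add, Multiset.coe_singleton,
      add_assoc, Multiset.singleton_add, Multiset.add_cons]
  set pts : Multiset Kd := ((L.map (Kd.ord (E + 1)) : List Kd) : Multiset Kd) with hpts
  rw [vd_clu D c n (E + 1) dl hmem hi ms, hmap, hlen]
  have htrx : trx (E + 1) dl (L.length + 1) = trx (E + 1) dl L.length + E := by
    unfold trx
    rw [Nat.add_sub_cancel, add_mul, one_mul]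
    omega
  have htr1 : E + 1 ≤ trx (E + 1) dl L.length + E := by
    unfold trx
    omega
  by_cases hD : E ≤ D
  · obtain ⟨N, rfl⟩ : ∃ N, D = N + E := ⟨D - E, by omega⟩
    have h1 : N + E + 1 - E = N + 1 := by omega
    have h2 : ∀ s ∈ range (N + 1), vd s (I ∩ insert i A) c n
        (.cl (E + 1) dl i L ::ₘ .ord 1 (insert i A) ::ₘ .ord 1 B ::ₘ ms) =
        vd s (I ∩ insert i A) c n
          (.ord 1 (insert i A) ::ₘ (.cl (E + 1) dl i L ::ₘ .ord 1 B ::ₘ ms)) := by
      intro s _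
      rw [Multiset.cons_swap]
    rw [h1, sum_congr rfl h2, vd_tele1 N inter_subset_right, Multiset.cons_swap]
    have hiI' : i ∈ I ∩ insert i A := Finset.mem_inter.2 ⟨hi, mem_insert_self i A⟩
    have hIB : (I ∩ insert i A) ∩ B = I ∩ A := by
      ext x
      rw [Finset.mem_inter, Finset.mem_inter, Finset.mem_inter, mem_insert]
      constructor
      · rintro ⟨⟨h3, h4⟩, h5⟩
        refine ⟨h3, h4.resolve_left ?_⟩
        rintro rfl
        exact hiB h5
      · rintro ⟨h3, h4⟩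
        exact ⟨⟨h3, Or.inr h4⟩, hAB h4⟩
    have hiIA : i ∉ I ∩ A := fun h => hiA (Finset.mem_inter.1 h).2
    have hJ1 : I.erase i ∩ inter (L ++ [A]) = (I ∩ insert i A).erase i ∩ inter L := by
      ext x
      rw [Finset.mem_inter, Finset.mem_inter, mem_inter_append hL, mem_erase, mem_erase,
        Finset.mem_inter, mem_insert]
      constructor
      · rintro ⟨⟨h3, h4⟩, h5, h6⟩
        exact ⟨⟨h3, h4, Or.inr h6⟩, h5⟩
      · rintro ⟨⟨h3, h4, h5⟩, h6⟩
        exact ⟨⟨h3, h4⟩, h6, h5.resolve_left h3⟩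
    have e0 : vd (N + E) I c n (.ord E (insert i A) ::ₘ (pts + ms)) =
        vd (N + E) I c n (pts + ms) - vd N (I ∩ insert i A) c n (pts + ms) := by
      rw [vd_cons _ _ _ _ _ E _ (by omega), Nat.add_sub_cancel]
    have e1 : vd N (I ∩ insert i A) c n (.cl (E + 1) dl i L ::ₘ ms) =
        vd N (I ∩ insert i A) c n (pts + ms) +
          if trx (E + 1) dl L.length ≤ N then
            vd (N - trx (E + 1) dl L.length) ((I ∩ insert i A).erase i ∩ inter L) c n ms -
              vd (N - trx (E + 1) dl L.length)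
                (insert i ((I ∩ insert i A).erase i ∩ inter L)) c n ms else 0 :=
      vd_clu N c n (E + 1) dl hiL hiI' ms
    have e2 : (if trx (E + 1) dl L.length + E ≤ N + E then
          vd (N + E - (trx (E + 1) dl L.length + E)) (I.erase i ∩ inter (L ++ [A])) c n ms -
            vd (N + E - (trx (E + 1) dl L.length + E))
              (insert i (I.erase i ∩ inter (L ++ [A]))) c n ms else (0 : ℤ)) =
        if trx (E + 1) dl L.length ≤ N then
          vd (N - trx (E + 1) dl L.length) ((I ∩ insert i A).erase i ∩ inter L) c n ms -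
            vd (N - trx (E + 1) dl L.length)
              (insert i ((I ∩ insert i A).erase i ∩ inter L)) c n ms else 0 := by
      rw [hJ1, Nat.add_sub_add_right]
      by_cases h3 : trx (E + 1) dl L.length ≤ N
      · rw [if_pos h3, if_pos (by omega)]
      · rw [if_neg h3, if_neg (by omega)]
    rw [htrx, e2, e0]
    rcases Nat.eq_zero_or_pos N with hN | hN
    · rw [vd_cons_lt N (I ∩ insert i A) c n _ 1 B (by omega), e1,
        vd_cons_lt (N + E) I c n _ (E + 1) A (by omega)]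
      ring
    · rw [vd_cons N (I ∩ insert i A) c n _ 1 B (by omega), hIB, e1,
        vd_cons (N + E) I c n _ (E + 1) A (by omega), vd_clu_not (N - 1) c n (E + 1) dl hiIA ms,
        show N + E - (E + 1) = N - 1 by omega]
      ring
  · have h1 : D + 1 - E = 0 := by omega
    rw [h1, range_zero, sum_empty, add_zero, vd_cons_lt D I c n _ (E + 1) A (by omega),
      vd_cons_lt D I c n _ E (insert i A) (by omega), if_neg (by omega), add_zero]

/-- The virtual version of `cl1a`. -/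
theorem vd_cl1a (D : ℕ) {I A B : Finset ℕ} (c : ℕ → ℕ) (n : ℕ) {i E dl : ℕ} (hE : 1 ≤ E)
    (hED : E ≤ D) (hi : i ∈ I) (hiB : i ∉ B) (hAB : A ⊆ B) (ms : Multiset Kd) :
    vd D I c n (.cl (E + 1) dl i [A] ::ₘ ms) =
      vd D I c n (.ord E (insert i A) ::ₘ ms) +
      (∑ j ∈ (range dl).filter (fun j => j ≤ D - E), vd (D - E - j) (I ∩ insert i A) c n
        (.ord 1 (insert i A) ::ₘ .ord 1 B ::ₘ ms) +
        if dl ≤ D - E then vd (D - E - dl) (I ∩ insert i A) c n (.ord 1 (insert i A) ::ₘ ms)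
          else 0) := by
  have hiA : i ∉ A := fun h => hiB (hAB h)
  obtain ⟨N, rfl⟩ : ∃ N, D = N + E := ⟨D - E, by omega⟩
  rw [Nat.add_sub_cancel]
  have hIB : (I ∩ insert i A) ∩ B = I ∩ A := by
    ext x
    rw [Finset.mem_inter, Finset.mem_inter, Finset.mem_inter, mem_insert]
    constructor
    · rintro ⟨⟨h3, h4⟩, h5⟩
      refine ⟨h3, h4.resolve_left ?_⟩
      rintro rfl
      exact hiB h5
    · rintro ⟨h3, h4⟩
      exact ⟨⟨h3, Or.inr h4⟩, hAB h4⟩
  -- the numbers
  set f : ℕ → ℤ := fun s => vd s (I ∩ insert i A) c n ms with hf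
  set k : ℕ → ℤ := fun s => vd s (I ∩ A) c n ms with hk
  have key : ∀ (dl N : ℕ), ∑ j ∈ (range dl).filter (fun j => j ≤ N), vd (N - j) (I ∩ insert i A) c n
        (.ord 1 (insert i A) ::ₘ .ord 1 B ::ₘ ms) +
        (if dl ≤ N then vd (N - dl) (I ∩ insert i A) c n (.ord 1 (insert i A) ::ₘ ms) else 0) =
      f N - (if 1 ≤ N then k (N - 1) else 0) +
        (if dl + 1 ≤ N then k (N - dl - 1) - f (N - dl - 1) else 0) := by
    intro dl N
    have hg : ∀ s, vd s (I ∩ insert i A) c n (.ord 1 (insert i A) ::ₘ ms) =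
        f s - if 1 ≤ s then f (s - 1) else 0 := by
      intro s
      rcases Nat.eq_zero_or_pos s with rfl | hs
      · rw [vd_cons_lt 0 _ c n ms 1 _ (by omega), if_neg (by omega), sub_zero]
      · rw [vd_cons s _ c n ms 1 _ hs, if_pos (show 1 ≤ s from hs), inter_assoc, inter_self]
    have hh : ∀ s, vd s (I ∩ insert i A) c n (.ord 1 (insert i A) ::ₘ .ord 1 B ::ₘ ms) =
        (f s - if 1 ≤ s then f (s - 1) else 0) - (if 1 ≤ s then
          (k (s - 1) - if 2 ≤ s then k (s - 2) else 0) else 0) := by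
      intro s
      rw [Multiset.cons_swap]
      rcases Nat.eq_zero_or_pos s with rfl | hs
      · rw [vd_cons_lt 0 _ c n _ 1 _ (by omega), hg, if_neg (show ¬ 1 ≤ 0 by omega),
          if_neg (show ¬ 1 ≤ 0 by omega), sub_zero, sub_zero]
      · rw [vd_cons s _ c n _ 1 B hs, hg, hIB, if_pos (show 1 ≤ s from hs),
          if_pos (show 1 ≤ s from hs)]
        congr 1
        rcases Nat.lt_or_ge s 2 with h2 | h2
        · rw [vd_cons_lt (s - 1) _ c n ms 1 _ (by omega), if_neg (by omega), sub_zero]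
        · rw [vd_cons (s - 1) _ c n ms 1 _ (by omega), if_pos h2, Nat.sub_sub,
            inter_eq_left.2 (inter_subset_right.trans (subset_insert i A))]
    induction dl generalizing N with
    | zero =>
      rw [range_zero, filter_empty, sum_empty, zero_add, if_pos (Nat.zero_le _), Nat.sub_zero, hg]
      rcases Nat.eq_zero_or_pos N with rfl | hN
      · rw [if_neg (show ¬ 1 ≤ 0 by omega), if_neg (show ¬ 1 ≤ 0 by omega),
          if_neg (show ¬ 0 + 1 ≤ 0 by omega)]
        ring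
      · rw [if_pos (show 1 ≤ N from hN), if_pos (show 1 ≤ N from hN),
          if_pos (show 0 + 1 ≤ N by omega)]
        ring
    | succ dl ih =>
      rcases Nat.eq_zero_or_pos N with rfl | hN
      · have h1 : (range (dl + 1)).filter (fun j => j ≤ 0) = {0} := by
          ext j
          rw [mem_filter, mem_range, mem_singleton]
          omega
        rw [h1, sum_singleton, if_neg (by omega), Nat.sub_zero, hh, if_neg (by omega),
          if_neg (by omega), if_neg (by omega), if_neg (by omega)]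
        ring
      · obtain ⟨N', rfl⟩ : ∃ N', N = N' + 1 := ⟨N - 1, by omega⟩
        have h3 : ∑ j ∈ (range (dl + 1)).filter (fun j => j ≤ N' + 1),
            vd (N' + 1 - j) (I ∩ insert i A) c n (.ord 1 (insert i A) ::ₘ .ord 1 B ::ₘ ms) =
            vd (N' + 1) (I ∩ insert i A) c n (.ord 1 (insert i A) ::ₘ .ord 1 B ::ₘ ms) +
            ∑ j ∈ (range dl).filter (fun j => j ≤ N'), vd (N' - j) (I ∩ insert i A) c n
              (.ord 1 (insert i A) ::ₘ .ord 1 B ::ₘ ms) := by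
          rw [sum_filter, sum_filter, sum_range_succ', Nat.sub_zero, if_pos (Nat.zero_le _),
            add_comm]
          congr 1
          refine sum_congr rfl fun j _ => ?_
          by_cases h4 : j ≤ N'
          · rw [if_pos h4, if_pos (by omega), Nat.add_sub_add_right]
          · rw [if_neg h4, if_neg (by omega)]
        have h4 : (if dl + 1 ≤ N' + 1 then vd (N' + 1 - (dl + 1)) (I ∩ insert i A) c n
            (.ord 1 (insert i A) ::ₘ ms) else 0) = if dl ≤ N' then vd (N' - dl)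
              (I ∩ insert i A) c n (.ord 1 (insert i A) ::ₘ ms) else 0 := by
          by_cases h4 : dl ≤ N'
          · rw [if_pos h4, if_pos (by omega), Nat.add_sub_add_right]
          · rw [if_neg h4, if_neg (by omega)]
        rw [h3, h4, add_assoc, ih N', hh]
        have h5 : N' + 1 - (dl + 1) - 1 = N' - dl - 1 := by omega
        rw [h5, if_pos (show 1 ≤ N' + 1 by omega), if_pos (show 1 ≤ N' + 1 by omega),
          if_pos (show 1 ≤ N' + 1 by omega), Nat.add_sub_cancel]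
        have h6 : (if 2 ≤ N' + 1 then k (N' + 1 - 2) else 0) = if 1 ≤ N' then k (N' - 1) else 0 := by
          by_cases h6 : 1 ≤ N'
          · rw [if_pos h6, if_pos (by omega)]
            rfl
          · rw [if_neg h6, if_neg (by omega)]
        have h7 : (if dl + 1 + 1 ≤ N' + 1 then k (N' - dl - 1) - f (N' - dl - 1) else 0) =
            if dl + 1 ≤ N' then k (N' - dl - 1) - f (N' - dl - 1) else 0 := by
          by_cases h7 : dl + 1 ≤ N'
          · rw [if_pos h7, if_pos (by omega)]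
          · rw [if_neg h7, if_neg (by omega)]
        rw [h6, h7]
        ring
  rw [key dl N, vd_clu (N + E) c n (E + 1) dl (As := [A]) (fun A' hA' => by
    rw [List.mem_singleton.1 hA']
    exact hiA) hi ms]
  have hmap : ((([A] : List (Finset ℕ)).map (fun A => Kd.ord (E + 1) A) : List Kd) : Multiset Kd) +
      ms = .ord (E + 1) A ::ₘ ms := by
    rw [List.map_singleton, Multiset.coe_singleton, Multiset.singleton_add]
  have hin : inter [A] = A := by
    ext x
    rw [Pool.Agent.GD.mem_inter (by simp)]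
    simp
  have hJ1 : I.erase i ∩ A = I ∩ A := by
    ext x
    rw [Finset.mem_inter, Finset.mem_inter, mem_erase]
    constructor
    · rintro ⟨⟨-, h1⟩, h2⟩
      exact ⟨h1, h2⟩
    · rintro ⟨h1, h2⟩
      exact ⟨⟨fun h => hiA (h ▸ h2), h1⟩, h2⟩
  have hJ2 : insert i (I ∩ A) = I ∩ insert i A := by
    ext x
    rw [mem_insert, Finset.mem_inter, Finset.mem_inter, mem_insert]
    constructor
    · rintro (rfl | ⟨h1, h2⟩)
      · exact ⟨hi, Or.inl rfl⟩
      · exact ⟨h1, Or.inr h2⟩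
    · rintro ⟨h1, h2⟩
      rcases h2 with h2 | h2
      · exact Or.inl h2
      · exact Or.inr ⟨h1, h2⟩
  have htr : trx (E + 1) dl 1 = E + (dl + 1) := by
    unfold trx
    rw [Nat.add_sub_cancel]
    ring
  rw [hmap, hin, hJ1, hJ2, List.length_singleton, htr, vd_cons (N + E) I c n ms E (insert i A)
    (by omega), Nat.add_sub_cancel]
  have h8 : (if E + (dl + 1) ≤ N + E then vd (N + E - (E + (dl + 1))) (I ∩ A) c n ms -
      vd (N + E - (E + (dl + 1))) (I ∩ insert i A) c n ms else 0) =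
      if dl + 1 ≤ N then k (N - dl - 1) - f (N - dl - 1) else 0 := by
    by_cases h8 : dl + 1 ≤ N
    · rw [if_pos h8, if_pos (by omega), show N + E - (E + (dl + 1)) = N - dl - 1 by omega]
    · rw [if_neg h8, if_neg (by omega)]
  rw [h8]
  rcases Nat.eq_zero_or_pos N with hN | hN
  · rw [vd_cons_lt (N + E) I c n ms (E + 1) A (by omega), if_neg (show ¬ 1 ≤ N by omega)]
    ring
  · rw [vd_cons (N + E) I c n ms (E + 1) A (by omega), if_pos (show 1 ≤ N by omega),
      show N + E - (E + 1) = N - 1 by omega]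
    ring

/-- The virtual dimension does not depend on the position of the first member. -/
theorem vd_rot (D : ℕ) (I : Finset ℕ) (c : ℕ → ℕ) (n e dl i : ℕ) {A : Finset ℕ}
    {L : List (Finset ℕ)} (ms : Multiset Kd) :
    vd D I c n (.cl e dl i (A :: L) ::ₘ ms) = vd D I c n (.cl e dl i (L ++ [A]) ::ₘ ms) := by
  refine vd_congr (fun _ _ => rfl) fun I' _ => ?_
  rw [Multiset.map_cons, Multiset.map_cons, Multiset.prod_cons, Multiset.prod_cons]
  congr 1
  have h1 : inter (A :: L) = inter (L ++ [A]) := by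
    ext x
    rw [Pool.Agent.GD.mem_inter (by simp), Pool.Agent.GD.mem_inter (by simp)]
    simp only [List.mem_cons, List.mem_append, List.mem_singleton, List.not_mem_nil, or_false]
    constructor
    · intro h A' hA'
      exact h A' hA'.symm
    · intro h A' hA'
      exact h A' hA'.symm
  have h2 : (A :: L).length = (L ++ [A]).length := by simp
  show (if i ∈ I' then (if I'.erase i ⊆ inter (A :: L) then
      1 - PowerSeries.X ^ trx e dl (A :: L).length else 1)
    else (((A :: L).map fun A => if I' ⊆ A then 1 - PowerSeries.X ^ e else 1).prod :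
      PowerSeries ℤ)) = if i ∈ I' then (if I'.erase i ⊆ inter (L ++ [A]) then
      1 - PowerSeries.X ^ trx e dl (L ++ [A]).length else 1)
    else ((L ++ [A]).map fun A => if I' ⊆ A then 1 - PowerSeries.X ^ e else 1).prod
  rw [h1, h2]
  congr 1
  rw [List.map_cons, List.prod_cons, List.map_append, List.prod_append, List.map_singleton,
    List.prod_singleton, mul_comm]

/-! ### The defects -/

section dl

variable {d J D : ℕ} {σ : St} {I : Finset ℕ}

/-- The dimension of a state with two killed vectors. -/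
theorem H_kill2 (hD : D ≤ d) (hd : 1 ≤ d) (hI : I ⊆ range J) {i : ℕ} (hiJ : i < J)
    (hc : 1 ≤ σ.c i) (hw : 1 ≤ σ.w) {A : Finset ℕ} (hA : A ⊆ range J)
    (hm : ∀ k ∈ σ.ms, k.Ok d J) :
    HI d D (bt J σ.c σ.w) I (.ord 1 A ::ₘ .ord 1 ((range J).erase i) ::ₘ σ.ms) ≤
      ((σ.lo i 1).lw 1).H d J I D := by
  refine (HI_ord_le hD (bt J σ.c σ.w) I 1 hA _).trans (le_of_eq ?_)
  rw [Multiset.cons_swap]
  have h1 := St.H_kill (σ := σ.ad (.ord 1 (range J))) (D := D) hD hiJ hc hI (by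
    intro k hk
    rcases Multiset.mem_cons.1 hk with rfl | hk
    · exact ⟨le_rfl, hd, Subset.rfl⟩
    · exact hm k hk)
  have h2 := St.H_killw (σ := σ.lo i 1) (D := D) hD hw hI hm
  exact h1.trans h2

theorem V_kill2 {i : ℕ} (hI : I ⊆ range J) (hiJ : i < J) (hc : 1 ≤ σ.c i) (hw : 1 ≤ σ.w)
    {A : Finset ℕ} (hIA : I ⊆ A) :
    vd D I σ.c (σ.n J) (.ord 1 A ::ₘ .ord 1 ((range J).erase i) ::ₘ σ.ms) =
      ((σ.lo i 1).lw 1).V J I D := by
  rw [vd_ord_congr D I σ.c (σ.n J) 1 (A := A) (A' := range J) (by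
    rw [inter_eq_right.2 hIA, inter_eq_right.2 hI]), Multiset.cons_swap]
  have h1 := St.V_kill (σ := σ.ad (.ord 1 (range J))) (D := D) hiJ hc hI
  have h2 := St.V_killw (σ := σ.lo i 1) (D := D) hw hI
  exact h1.trans h2

/-- **CL1 for the defects.** -/
theorem cl1_dl (hD : D ≤ d) (hI : I ⊆ range J) (hm : ∀ k ∈ σ.ms, k.Ok d J) {i e dl : ℕ}
    {L : List (Finset ℕ)} {A : Finset ℕ} (hk : (Kd.cl e dl i (L ++ [A])).Ok d J)
    (hL : 1 ≤ L.length) (hi : i ∈ I) (hc : 1 ≤ σ.c i) (hw : 1 ≤ σ.w)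
    (h : ∀ s, s + e ≤ D + 1 →
      (((σ.lo i 1).lw 1).ad (.cl e dl i L)).dl d J (I ∩ insert i A) s ≤ 0) :
    (σ.ad (.cl e dl i (L ++ [A]))).dl d J I D ≤
      (σ.wm (.ord (e - 1) (insert i A) ::ₘ
        (((L.map (Kd.ord e) : List Kd) : Multiset Kd) + σ.ms))).dl d J I D := by
  obtain ⟨he, -, htr, hiJ, hAs⟩ := hk
  obtain ⟨E, rfl⟩ : ∃ E, e = E + 1 := ⟨e - 1, by omega⟩
  have hE : 1 ≤ E := by omega
  have hlen : (L ++ [A]).length = L.length + 1 := by
    rw [List.length_append, List.length_singleton]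
  have hl : L.length + 1 + 1 ≤ d := by
    unfold trx at htr
    rw [hlen, Nat.add_sub_cancel] at htr
    have h1 : (L.length + 1) * 1 ≤ (L.length + 1) * E := Nat.mul_le_mul_left _ hE
    omega
  have hA : A ⊆ (range J).erase i := hAs A (List.mem_append_right _ (List.mem_singleton_self A))
  have hLs : ∀ A' ∈ L, A' ⊆ (range J).erase i := fun A' hA' =>
    hAs A' (List.mem_append_left _ hA')
  have hiB : i ∉ (range J).erase i := notMem_erase i _
  have hiL : ∀ A' ∈ L, i ∉ A' := fun A' hA' h => hiB (hLs A' hA' h)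
  have hins : insert i A ⊆ range J := by
    rw [insert_subset_iff]
    exact ⟨mem_range.2 hiJ, hA.trans (erase_subset _ _)⟩
  have h1 := cl1 (β := bt J σ.c σ.w) (dl := dl) hD hE hL (by omega) hiL hiB hLs hA hi σ.ms
  have h2 := vd_cl1 D σ.c (σ.n J) (dl := dl) hE hL hi hiL hiB hA σ.ms
  have hLok : (Kd.cl (E + 1) dl i L).Ok d J := by
    refine ⟨he, hL, ?_, hiJ, hLs⟩
    refine le_trans ?_ htr
    unfold trx
    rw [hlen, Nat.add_sub_cancel, add_mul]
    omega
  have h3 : ∀ s ∈ range (D + 1 - E), (HI d s (bt J σ.c σ.w) (I ∩ insert i A)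
      (.cl (E + 1) dl i L ::ₘ .ord 1 (insert i A) ::ₘ .ord 1 ((range J).erase i) ::ₘ σ.ms) : ℤ) ≤
      vd s (I ∩ insert i A) σ.c (σ.n J)
      (.cl (E + 1) dl i L ::ₘ .ord 1 (insert i A) ::ₘ .ord 1 ((range J).erase i) ::ₘ σ.ms) := by
    intro s hs
    rw [mem_range] at hs
    have e1 : (Kd.cl (E + 1) dl i L ::ₘ .ord 1 (insert i A) ::ₘ .ord 1 ((range J).erase i) ::ₘ
        σ.ms) = .ord 1 (insert i A) ::ₘ .ord 1 ((range J).erase i) ::ₘ
          (σ.ad (.cl (E + 1) dl i L)).ms := by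
      show _ = _ ::ₘ _ ::ₘ (_ ::ₘ σ.ms)
      rw [Multiset.cons_swap, Multiset.cons_swap (Kd.cl (E + 1) dl i L)]
    have h4 := H_kill2 (σ := σ.ad (.cl (E + 1) dl i L)) (D := s) (d := d) (by omega) (by omega)
      (inter_subset_left.trans hI : I ∩ insert i A ⊆ range J) hiJ hc hw hins (by
        intro k hk
        rcases Multiset.mem_cons.1 hk with rfl | hk
        · exact hLok
        · exact hm k hk)
    have h5 := V_kill2 (σ := σ.ad (.cl (E + 1) dl i L)) (D := s) (J := J)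
      (inter_subset_left.trans hI : I ∩ insert i A ⊆ range J) hiJ hc hw
      (inter_subset_right : I ∩ insert i A ⊆ insert i A)
    have h6 := h s (by omega)
    unfold St.dl at h6
    rw [e1]
    change (HI d s (bt J σ.c σ.w) (I ∩ insert i A) _ : ℤ) ≤
      vd s (I ∩ insert i A) (σ.ad (.cl (E + 1) dl i L)).c ((σ.ad (.cl (E + 1) dl i L)).n J) _
    rw [h5]
    have h7 : (HI d s (bt J σ.c σ.w) (I ∩ insert i A) (.ord 1 (insert i A) ::ₘ
      .ord 1 ((range J).erase i) ::ₘ (σ.ad (.cl (E + 1) dl i L)).ms) : ℤ) ≤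
      (((σ.ad (.cl (E + 1) dl i L)).lo i 1).lw 1).H d J (I ∩ insert i A) s := by
      exact_mod_cast h4
    change (((((σ.ad (.cl (E + 1) dl i L)).lo i 1).lw 1).H d J (I ∩ insert i A) s : ℕ) : ℤ) -
      (((σ.ad (.cl (E + 1) dl i L)).lo i 1).lw 1).V J (I ∩ insert i A) s ≤ 0 at h6
    linarith
  have h4 := sum_le_sum h3
  unfold St.dl
  show (HI d D (bt J σ.c σ.w) I (.cl (E + 1) dl i (L ++ [A]) ::ₘ σ.ms) : ℤ) -
      vd D I σ.c (σ.n J) (.cl (E + 1) dl i (L ++ [A]) ::ₘ σ.ms) ≤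
    (HI d D (bt J σ.c σ.w) I (.ord (E + 1 - 1) (insert i A) ::ₘ
      (((L.map (Kd.ord (E + 1)) : List Kd) : Multiset Kd) + σ.ms)) : ℤ) -
    vd D I σ.c (σ.n J) (.ord (E + 1 - 1) (insert i A) ::ₘ
      (((L.map (Kd.ord (E + 1)) : List Kd) : Multiset Kd) + σ.ms))
  rw [Nat.add_sub_cancel, h2]
  have h5 : (HI d D (bt J σ.c σ.w) I (.cl (E + 1) dl i (L ++ [A]) ::ₘ σ.ms) : ℤ) ≤
      HI d D (bt J σ.c σ.w) I (.ord E (insert i A) ::ₘ
        (((L.map (Kd.ord (E + 1)) : List Kd) : Multiset Kd) + σ.ms)) +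
      ∑ s ∈ range (D + 1 - E), (HI d s (bt J σ.c σ.w) (I ∩ insert i A) (.cl (E + 1) dl i L ::ₘ
        .ord 1 (insert i A) ::ₘ .ord 1 ((range J).erase i) ::ₘ σ.ms) : ℤ) := by
    exact_mod_cast h1
  linarith

/-- CL1 with the first member tied. -/
theorem cl1_dl' (hD : D ≤ d) (hI : I ⊆ range J) (hm : ∀ k ∈ σ.ms, k.Ok d J) {i e dl : ℕ}
    {L : List (Finset ℕ)} {A : Finset ℕ} (hk : (Kd.cl e dl i (A :: L)).Ok d J)
    (hL : 1 ≤ L.length) (hi : i ∈ I) (hc : 1 ≤ σ.c i) (hw : 1 ≤ σ.w)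
    (h : ∀ s, s + e ≤ D + 1 →
      (((σ.lo i 1).lw 1).ad (.cl e dl i L)).dl d J (I ∩ insert i A) s ≤ 0) :
    (σ.ad (.cl e dl i (A :: L))).dl d J I D ≤
      (σ.wm (.ord (e - 1) (insert i A) ::ₘ
        (((L.map (Kd.ord e) : List Kd) : Multiset Kd) + σ.ms))).dl d J I D := by
  obtain ⟨he, -, htr, hiJ, hAs⟩ := hk
  have hlen : (L ++ [A]).length = (A :: L).length := by simp
  have hl : L.length + 1 + 1 ≤ d := by
    unfold trx at htr
    rw [List.length_cons] at htr
    have h1 : (L.length + 1) * 1 ≤ (L.length + 1) * (e - 1) := Nat.mul_le_mul_left _ (by omega)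
    omega
  have hiB : i ∉ (range J).erase i := notMem_erase i _
  have hk' : (Kd.cl e dl i (L ++ [A])).Ok d J := by
    refine ⟨he, by simp, by rw [hlen]; exact htr, hiJ, fun A' hA' => hAs A' ?_⟩
    rcases List.mem_append.1 hA' with h1 | h1
    · exact List.mem_cons_of_mem _ h1
    · rw [List.mem_singleton.1 h1]
      exact List.mem_cons_self
  refine le_trans (le_of_eq ?_) (cl1_dl hD hI hm hk' hL hi hc hw h)
  unfold St.dl
  show (HI d D (bt J σ.c σ.w) I (.cl e dl i (A :: L) ::ₘ σ.ms) : ℤ) -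
      vd D I σ.c (σ.n J) (.cl e dl i (A :: L) ::ₘ σ.ms) =
    (HI d D (bt J σ.c σ.w) I (.cl e dl i (L ++ [A]) ::ₘ σ.ms) : ℤ) -
      vd D I σ.c (σ.n J) (.cl e dl i (L ++ [A]) ::ₘ σ.ms)
  rw [vd_rot, HI_rot hD (fun h => hiB (hAs A List.mem_cons_self h))
    (fun A' hA' h => hiB (hAs A' (List.mem_cons_of_mem _ hA') h)) (by omega)]

/-- **CL1 for single-point clusters, for the defects.** -/
theorem cl1a_dl (hD : D ≤ d) (hI : I ⊆ range J) (hm : ∀ k ∈ σ.ms, k.Ok d J) {i e dl : ℕ}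
    {A : Finset ℕ} (hk : (Kd.cl e dl i [A]).Ok d J) (hi : i ∈ I) (heD : e ≤ D + 1)
    (hc : 1 ≤ σ.c i) (hw : 1 ≤ σ.w)
    (hH : 1 ≤ dl → ∀ e' dl' As, .cl e' dl' i As ∈ σ.ms → 1 ≤ dl' →
      D + 1 - e ≤ As.length * (e' - 1) + 1 + (((I ∩ insert i A).erase i) ∩ inter As).card)
    (h1 : ∀ s, s + e ≤ D + 1 → ((σ.lo i 1).lw 1).dl d J (I ∩ insert i A) s ≤ 0)
    (h2 : ∀ s, s + e ≤ D + 1 → (σ.lw 1).dl d J (I ∩ insert i A) s ≤ 0) :
    (σ.ad (.cl e dl i [A])).dl d J I D ≤ (σ.ad (.ord (e - 1) (insert i A))).dl d J I D := by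
  obtain ⟨he, -, htr, hiJ, hAs⟩ := hk
  obtain ⟨E, rfl⟩ : ∃ E, e = E + 1 := ⟨e - 1, by omega⟩
  have hE : 1 ≤ E := by omega
  have hd : 1 ≤ d := by
    unfold trx at htr
    omega
  have hA : A ⊆ (range J).erase i := hAs A (List.mem_singleton_self A)
  have hiB : i ∉ (range J).erase i := notMem_erase i _
  have hins : insert i A ⊆ range J := by
    rw [insert_subset_iff]
    exact ⟨mem_range.2 hiJ, hA.trans (erase_subset _ _)⟩
  have hI' : I ∩ insert i A ⊆ range J := inter_subset_left.trans hI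
  have g1 := cl1a (β := bt J σ.c σ.w) (dl := dl) hD hE (by omega) hiB hA hi σ.ms
    (fun h0 e' dl' As h3 h4 => by
      have h5 := hH h0 e' dl' As h3 h4
      omega)
  have g2 := vd_cl1a D σ.c (σ.n J) (dl := dl) hE (by omega) hi hiB hA σ.ms
  have a1 : ∀ s ≤ D - E, (HI d s (bt J σ.c σ.w) (I ∩ insert i A)
      (.ord 1 (insert i A) ::ₘ .ord 1 ((range J).erase i) ::ₘ σ.ms) : ℤ) ≤
      vd s (I ∩ insert i A) σ.c (σ.n J)
        (.ord 1 (insert i A) ::ₘ .ord 1 ((range J).erase i) ::ₘ σ.ms) := by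
    intro s hs
    have h4 := H_kill2 (σ := σ) (D := s) (d := d) (by omega) hd hI' hiJ hc hw hins hm
    have h5 := V_kill2 (σ := σ) (D := s) (J := J) hI' hiJ hc hw
      (inter_subset_right : I ∩ insert i A ⊆ insert i A)
    have h6 := h1 s (by omega)
    unfold St.dl at h6
    rw [h5]
    have h7 : (HI d s (bt J σ.c σ.w) (I ∩ insert i A) (.ord 1 (insert i A) ::ₘ
      .ord 1 ((range J).erase i) ::ₘ σ.ms) : ℤ) ≤ ((σ.lo i 1).lw 1).H d J (I ∩ insert i A) s := by
      exact_mod_cast h4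
    linarith
  have a2 : ∀ s ≤ D - E, (HI d s (bt J σ.c σ.w) (I ∩ insert i A)
      (.ord 1 (insert i A) ::ₘ σ.ms) : ℤ) ≤
      vd s (I ∩ insert i A) σ.c (σ.n J) (.ord 1 (insert i A) ::ₘ σ.ms) := by
    intro s hs
    have h4 : HI d s (bt J σ.c σ.w) (I ∩ insert i A) (.ord 1 (insert i A) ::ₘ σ.ms) ≤
        (σ.lw 1).H d J (I ∩ insert i A) s :=
      (HI_ord_le (by omega) (bt J σ.c σ.w) (I ∩ insert i A) 1 hins _).trans
        (le_of_eq (St.H_killw (σ := σ) (D := s) (by omega) hw hI' hm))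
    have h5 : vd s (I ∩ insert i A) σ.c (σ.n J) (.ord 1 (insert i A) ::ₘ σ.ms) =
        (σ.lw 1).V J (I ∩ insert i A) s := by
      rw [vd_ord_congr s (I ∩ insert i A) σ.c (σ.n J) 1 (A := insert i A) (A' := range J) (by
        rw [inter_eq_right.2 inter_subset_right, inter_eq_right.2 hI'])]
      exact St.V_killw (σ := σ) (D := s) hw hI'
    have h6 := h2 s (by omega)
    unfold St.dl at h6
    rw [h5]
    have h7 : (HI d s (bt J σ.c σ.w) (I ∩ insert i A) (.ord 1 (insert i A) ::ₘ σ.ms) : ℤ) ≤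
        (σ.lw 1).H d J (I ∩ insert i A) s := by
      exact_mod_cast h4
    linarith
  have a3 : (∑ j ∈ (range dl).filter (fun j => j ≤ D - E), (HI d (D - E - j) (bt J σ.c σ.w)
      (I ∩ insert i A) (.ord 1 (insert i A) ::ₘ .ord 1 ((range J).erase i) ::ₘ σ.ms) : ℤ)) ≤
      ∑ j ∈ (range dl).filter (fun j => j ≤ D - E), vd (D - E - j) (I ∩ insert i A) σ.c (σ.n J)
        (.ord 1 (insert i A) ::ₘ .ord 1 ((range J).erase i) ::ₘ σ.ms) :=
    sum_le_sum fun j _ => a1 _ (by omega)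
  have a4 : (((if dl ≤ D - E then HI d (D - E - dl) (bt J σ.c σ.w) (I ∩ insert i A)
      (.ord 1 (insert i A) ::ₘ σ.ms) else 0 : ℕ)) : ℤ) ≤
      if dl ≤ D - E then vd (D - E - dl) (I ∩ insert i A) σ.c (σ.n J)
        (.ord 1 (insert i A) ::ₘ σ.ms) else 0 := by
    split_ifs
    · exact a2 _ (by omega)
    · exact le_rfl
  have g3 : (HI d D (bt J σ.c σ.w) I (.cl (E + 1) dl i [A] ::ₘ σ.ms) : ℤ) ≤
      HI d D (bt J σ.c σ.w) I (.ord E (insert i A) ::ₘ σ.ms) +
      ((∑ j ∈ (range dl).filter (fun j => j ≤ D - E), (HI d (D - E - j) (bt J σ.c σ.w)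
      (I ∩ insert i A) (.ord 1 (insert i A) ::ₘ .ord 1 ((range J).erase i) ::ₘ σ.ms) : ℤ)) +
      ((if dl ≤ D - E then HI d (D - E - dl) (bt J σ.c σ.w) (I ∩ insert i A)
      (.ord 1 (insert i A) ::ₘ σ.ms) else 0 : ℕ) : ℤ)) := by
    exact_mod_cast g1
  unfold St.dl
  show (HI d D (bt J σ.c σ.w) I (.cl (E + 1) dl i [A] ::ₘ σ.ms) : ℤ) -
      vd D I σ.c (σ.n J) (.cl (E + 1) dl i [A] ::ₘ σ.ms) ≤
    (HI d D (bt J σ.c σ.w) I (.ord (E + 1 - 1) (insert i A) ::ₘ σ.ms) : ℤ) -
    vd D I σ.c (σ.n J) (.ord (E + 1 - 1) (insert i A) ::ₘ σ.ms)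
  rw [Nat.add_sub_cancel, g2]
  linarith

end dl

end Pool.Agent.GD.AL
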