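import Pool.Agent.GD.AL.CDef
import Pool.Agent.GD.AL.ClV

/-!
# General d, ALPHA, part C: the forms of `CL1` for states

A cluster off its level (`St.cl_inact`), a cluster with one member and without derivatives (`St.cl_one`), `CL1`
with any tied member (`St.cl1`), `CL1` for one member (`St.cl1a`), the condition on pairs (`hh_drop'`).
-/

set_option autoImplicit false

namespace Pool.Agent.GD.AL

open Finset MvPolynomial Pool.Agent.H51.TB Pool.Agent.V7.ST
open Pool.Agent.V7 (msk)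

section

variable {ν : Type} [Fintype ν] [DecidableEq ν] {d D : ℕ} {β : ν → ℕ} {I : Finset ℕ}

/-- The points of a cluster off its level at a special position. -/
theorem HI_inact (hD : D ≤ d) {e dl i : ℕ} {As : List (Finset ℕ)} (hl : As.length ≤ d)
    (ms : Multiset Kd) :
    HI d D β I (.cl e dl i As ::ₘ ms) ≤ HI d D β I (mbI e i As + ms) := by
  obtain ⟨m, hm, -⟩ := exists_conf (LS d D β I) ms
  let n : Fin As.length → Kd := fun x => .ord e (insert i (As.getD x ∅))
  obtain ⟨P, hP⟩ := (gn_XX (d := d) hD β I (Sum.elim m n)).exists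
  let q : ν × Fin (d + 1) → ℂ := fun z =>
    if h : z.2.1 < As.length then (if β z.1 = i then 0 else P (Sum.inr ⟨z.2.1, h⟩) (z.1, 0)) else 0
  have h1 := HI_le (d := d) hD β I (Sum.elim m fun _ : Unit => Kd.cl e dl i As)
    (Sum.elim (fun x => P (Sum.inl x)) fun _ : Unit => q)
  rw [map_elim, map_unit, hm] at h1
  rw [map_elim, hm] at hP
  have h2 : (univ : Finset (Fin As.length)).val.map n = mbI e i As :=
    map_getD As fun A => Kd.ord e (insert i A)
  rw [h2] at hP
  have h3 : ms + ({Kd.cl e dl i As} : Multiset Kd) = .cl e dl i As ::ₘ ms := by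
    rw [add_comm, Multiset.singleton_add]
  rw [h3] at h1
  rw [add_comm (mbI e i As) ms, ← hP]
  have := finite_XX (d := d) β D I (Sum.elim m n) P
  refine h1.trans (Submodule.finrank_mono fun Φ hΦ => ?_)
  rw [mem_XX] at hΦ ⊢
  refine ⟨hΦ.1, ?_⟩
  rintro (x | x)
  · exact hΦ.2 (Sum.inl x)
  · have h4 := (hΦ.2 (Sum.inr ())).1 ⟨x.1, by have := x.2; omega⟩ x.2
    have h5 : pt β (.cl e dl i As) ⟨x.1, by have := x.2; omega⟩ q =
        opt β (insert i (As.getD x ∅)) (P (Sum.inr x)) := by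
      funext s
      show (if β s ∈ As.getD x ∅ then 0 else if β s = i ∧ x.1 + 1 = As.length then
          - ∑ y : Fin (d + 1), (if y.1 + 1 < As.length then q (s, y) else 0)
        else q (s, ⟨x.1, _⟩)) = if β s ∈ insert i (As.getD x ∅) then 0 else P (Sum.inr x) (s, 0)
      by_cases h6 : β s ∈ As.getD x ∅
      · rw [if_pos h6, if_pos (mem_insert_of_mem h6)]
      · rw [if_neg h6]
        by_cases h7 : β s = i
        · rw [if_pos (mem_insert.2 (Or.inl h7))]
          have h8 : ∀ y : Fin (d + 1), q (s, y) = 0 := by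
            intro y
            show (if h : y.1 < As.length then (if β s = i then 0 else _) else 0) = _
            split_ifs <;> rfl
          split_ifs with h9
          · rw [neg_eq_zero]
            refine sum_eq_zero fun y _ => ?_
            rw [h8]
            split_ifs <;> rfl
          · exact h8 _
        · rw [if_neg (fun h => h7 h.1), if_neg (fun h => (mem_insert.1 h).elim h7 h6)]
          show (if h : x.1 < As.length then (if β s = i then 0 else P (Sum.inr ⟨x.1, h⟩) (s, 0))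
            else 0) = _
          rw [dif_pos x.2, if_neg h7]
    show Sat β I (.ord e (insert i (As.getD x ∅))) (P (Sum.inr x)) Φ
    rw [sat_ord]
    refine LinearMap.ext fun y => ?_
    have h6 := h4 y
    show Φ (lf (opt β (insert i (As.getD x ∅)) (P (Sum.inr x))) ^ e * y) = 0
    rw [← h5]
    exact h6

/-- A cluster with one member. -/
theorem HI_one_mb (hD : D ≤ d) {e i : ℕ} {A : Finset ℕ} (ms : Multiset Kd) :
    HI d D β I (.cl e 0 i [A] ::ₘ ms) ≤ HI d D β I (.ord e (insert i A) ::ₘ ms) := by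
  refine HI_repl hD β I (.cl e 0 i [A]) (.ord e (insert i A)) id (fun q Φ hq => ⟨?_, trivial⟩) ms
  intro x hx y
  have hx0 : x = 0 := by
    apply Fin.ext
    show x.1 = 0
    have : x.1 < 1 := hx
    omega
  subst hx0
  have h1 := hq.1 0 (by show (0 : ℕ) < 1; omega) y
  have h2 : pt β (.cl e 0 i [A]) 0 (id q) = pt β (.ord e (insert i A)) 0 q := by
    funext s
    show (if β s ∈ A then 0 else if β s = i ∧ (0 : Fin (d + 1)).1 + 1 = 1 then
        - ∑ y : Fin (d + 1), (if y.1 + 1 < 1 then q (s, y) else 0)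
      else q (s, 0)) = if β s ∈ insert i A then 0 else q (s, 0)
    by_cases h6 : β s ∈ A
    · rw [if_pos h6, if_pos (mem_insert_of_mem h6)]
    · rw [if_neg h6]
      by_cases h7 : β s = i
      · rw [if_pos (mem_insert.2 (Or.inl h7)), if_pos ⟨h7, rfl⟩, neg_eq_zero]
        exact sum_eq_zero fun y _ => if_neg (by omega)
      · rw [if_neg (fun h => h7 h.1), if_neg (fun h => (mem_insert.1 h).elim h7 h6)]
  rw [h2] at h1
  exact h1

end

/-- The members of a cluster may be specialised off the level. -/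
theorem vd_mbI (D : ℕ) (I : Finset ℕ) (c : ℕ → ℕ) (n e : ℕ) {i : ℕ} (hi : i ∉ I)
    (As : List (Finset ℕ)) (ms : Multiset Kd) :
    vd D I c n (mb e As + ms) = vd D I c n (mbI e i As + ms) := by
  refine vd_congr (fun _ _ => rfl) fun I' hI' => ?_
  rw [Multiset.map_add, Multiset.map_add, Multiset.prod_add, Multiset.prod_add]
  congr 1
  unfold mb mbI
  rw [Multiset.map_coe, Multiset.map_coe, List.map_map, List.map_map]
  rw [List.map_congr_left (g := Kd.P I' ∘ fun A => Kd.ord e (insert i A))]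
  intro A _
  show Kd.P I' (.ord e A) = Kd.P I' (.ord e (insert i A))
  refine P_ord_congr hI' e ?_
  ext x
  rw [Finset.mem_inter, Finset.mem_inter, mem_insert]
  constructor
  · rintro ⟨h1, h2⟩
    exact ⟨Or.inr h1, h2⟩
  · rintro ⟨h1 | h1, h2⟩
    · exact absurd (h1 ▸ h2) hi
    · exact ⟨h1, h2⟩

theorem vd_one_mb (D : ℕ) (I : Finset ℕ) (c : ℕ → ℕ) (n : ℕ) {e i : ℕ} (he : 1 ≤ e)
    {A : Finset ℕ} (ms : Multiset Kd) :
    vd D I c n (.cl e 0 i [A] ::ₘ ms) = vd D I c n (.ord e (insert i A) ::ₘ ms) := by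
  refine vd_congr (fun _ _ => rfl) fun I' hI' => ?_
  rw [Multiset.map_cons, Multiset.map_cons, Multiset.prod_cons, Multiset.prod_cons]
  congr 1
  have h1 : trx e 0 [A].length = e := by
    unfold trx
    rw [List.length_singleton]
    omega
  have h2 : inter [A] = A := by
    ext x
    rw [Pool.Agent.GD.mem_inter (by simp)]
    simp
  show (if i ∈ I' then (if I'.erase i ⊆ inter [A] then 1 - PowerSeries.X ^ trx e 0 [A].length else 1)
    else (([A].map fun A => if I' ⊆ A then 1 - PowerSeries.X ^ e else 1).prod : PowerSeries ℤ)) =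
    if I' ⊆ insert i A then 1 - PowerSeries.X ^ e else 1
  rw [h1, h2, List.map_singleton, List.prod_singleton]
  by_cases h3 : i ∈ I'
  · rw [if_pos h3]
    have h4 : I'.erase i ⊆ A ↔ I' ⊆ insert i A := subset_insert_iff.symm
    by_cases h5 : I' ⊆ insert i A
    · rw [if_pos (h4.2 h5), if_pos h5]
    · rw [if_neg (fun h => h5 (h4.1 h)), if_neg h5]
  · rw [if_neg h3]
    have h4 : I' ⊆ A ↔ I' ⊆ insert i A :=
      ⟨fun h => h.trans (subset_insert _ _), fun h x hx => by
        rcases mem_insert.1 (h hx) with h5 | h5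
        · exact absurd (h5 ▸ hx) h3
        · exact h5⟩
    by_cases h5 : I' ⊆ insert i A
    · rw [if_pos (h4.2 h5), if_pos h5]
    · rw [if_neg (fun h => h5 (h4.1 h)), if_neg h5]

section

variable {d J D : ℕ} {σ : St} {I : Finset ℕ}

theorem AdmC.len {e dl i : ℕ} {As : List (Finset ℕ)} (hk : AdmC d J e (.cl e dl i As)) :
    As.length ≤ d := by
  obtain ⟨dl', i', As', h, he, -, htr, -⟩ := hk
  injection h with h1 h2 h3 h4
  subst h4
  unfold trx at htr
  have h5 : As.length * 1 ≤ As.length * (e - 1) := Nat.mul_le_mul_left _ (by omega)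
  omega

/-- A cluster off its level. -/
theorem St.cl_inact (hD : D ≤ d) (_hI : I ⊆ range J) {e dl i : ℕ} {As : List (Finset ℕ)}
    (hk : AdmC d J e (.cl e dl i As)) (hi : i ∉ I) :
    (σ.ad (.cl e dl i As)).H d J I D ≤ (σ.wm (mbI e i As + σ.ms)).H d J I D ∧
      (σ.ad (.cl e dl i As)).V J I D = (σ.wm (mbI e i As + σ.ms)).V J I D := by
  refine ⟨HI_inact hD hk.len σ.ms, ?_⟩
  show vd D I σ.c (σ.n J) (.cl e dl i As ::ₘ σ.ms) = vd D I σ.c (σ.n J) (mbI e i As + σ.ms)
  rw [vd_clu_not D σ.c (σ.n J) e dl hi σ.ms]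
  exact vd_mbI D I σ.c (σ.n J) e hi As σ.ms

/-- A cluster with one member and without derivatives. -/
theorem St.cl_one (hD : D ≤ d) (_hI : I ⊆ range J) {e i : ℕ} {A : Finset ℕ}
    (hk : AdmC d J e (.cl e 0 i [A])) :
    (σ.ad (.cl e 0 i [A])).H d J I D ≤ (σ.ad (.ord e (insert i A))).H d J I D ∧
      (σ.ad (.cl e 0 i [A])).V J I D = (σ.ad (.ord e (insert i A))).V J I D := by
  have he := hk.ok.1
  exact ⟨HI_one_mb hD σ.ms, vd_one_mb D I σ.c (σ.n J) (by omega) σ.ms⟩

/-- The order of the members. -/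
theorem dl_rot (hD : D ≤ d) {e dl i : ℕ} {A : Finset ℕ} (hiA : i ∉ A) (L₁ : List (Finset ℕ)) :
    ∀ L₂ : List (Finset ℕ), (∀ A' ∈ L₁, i ∉ A') → (∀ A' ∈ L₂, i ∉ A') →
      L₁.length + 1 + L₂.length ≤ d →
      (σ.ad (.cl e dl i (L₁ ++ A :: L₂))).dl d J I D =
        (σ.ad (.cl e dl i (A :: (L₂ ++ L₁)))).dl d J I D := by
  induction L₁ with
  | nil =>
    intro L₂ _ _ _
    rw [List.nil_append, List.append_nil]
  | cons a L₁ ih =>
    intro L₂ h1 h2 hl
    have h3 : (σ.ad (.cl e dl i (a :: L₁ ++ A :: L₂))).dl d J I D =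
        (σ.ad (.cl e dl i ((L₁ ++ A :: L₂) ++ [a]))).dl d J I D := by
      unfold St.dl
      show (HI d D (bt J σ.c σ.w) I (.cl e dl i (a :: (L₁ ++ A :: L₂)) ::ₘ σ.ms) : ℤ) -
          vd D I σ.c (σ.n J) (.cl e dl i (a :: (L₁ ++ A :: L₂)) ::ₘ σ.ms) =
        (HI d D (bt J σ.c σ.w) I (.cl e dl i ((L₁ ++ A :: L₂) ++ [a]) ::ₘ σ.ms) : ℤ) -
          vd D I σ.c (σ.n J) (.cl e dl i ((L₁ ++ A :: L₂) ++ [a]) ::ₘ σ.ms)
      rw [vd_rot, HI_rot hD (h1 a List.mem_cons_self) (fun A' hA' => by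
        rw [List.mem_append, List.mem_cons] at hA'
        rcases hA' with h | h | h
        · exact h1 A' (List.mem_cons_of_mem _ h)
        · rw [h]
          exact hiA
        · exact h2 A' h) (by
          rw [List.length_cons] at hl
          rw [List.length_append, List.length_cons]
          omega)]
    have h4 : (L₁ ++ A :: L₂) ++ [a] = L₁ ++ A :: (L₂ ++ [a]) := by simp
    have h5 : (L₂ ++ [a]) ++ L₁ = L₂ ++ a :: L₁ := by simp
    rw [h3, h4, ih (L₂ ++ [a]) (fun A' hA' => h1 A' (List.mem_cons_of_mem _ hA')) (fun A' hA' => by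
      rw [List.mem_append, List.mem_singleton] at hA'
      rcases hA' with h | h
      · exact h2 A' h
      · rw [h]
        exact h1 a List.mem_cons_self) (by
        rw [List.length_cons] at hl
        rw [List.length_append, List.length_singleton]
        omega), h5]

theorem hh_rots {e dl i : ℕ} {A : Finset ℕ} {ms : Multiset Kd} (L₁ : List (Finset ℕ)) :
    ∀ L₂ : List (Finset ℕ), HH D I (.cl e dl i (L₁ ++ A :: L₂) ::ₘ ms) →
      HH D I (.cl e dl i ((L₂ ++ L₁) ++ [A]) ::ₘ ms) := by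
  induction L₁ with
  | nil =>
    intro L₂ h
    rw [List.append_nil]
    exact hh_rot h
  | cons a L₁ ih =>
    intro L₂ h
    have h3 : HH D I (.cl e dl i ((L₁ ++ A :: L₂) ++ [a]) ::ₘ ms) := hh_rot h
    have h4 : (L₁ ++ A :: L₂) ++ [a] = L₁ ++ A :: (L₂ ++ [a]) := by simp
    have h5 : (L₂ ++ [a]) ++ L₁ = L₂ ++ a :: L₁ := by simp
    rw [h4] at h3
    have h6 := ih (L₂ ++ [a]) h3
    rw [h5] at h6
    exact h6

/-- `CL1`, the tied member is `A`. -/
theorem St.cl1 (hD : D ≤ d) (hI : I ⊆ range J) {e dl i : ℕ} {L₁ L₂ : List (Finset ℕ)}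
    {A : Finset ℕ} (hm : ∀ k ∈ σ.ms, k.Ok d J) (hk : AdmC d J e (.cl e dl i (L₁ ++ A :: L₂)))
    (hi : i ∈ I) (h2 : 1 ≤ (L₂ ++ L₁).length) (hc : 1 ≤ σ.c i) (hw : 1 ≤ σ.w)
    (hlow : ∀ s, s + e ≤ D + 1 →
      (((σ.lo i 1).lw 1).ad (.cl e dl i (L₂ ++ L₁))).dl d J (I ∩ insert i A) s ≤ 0) :
    (σ.ad (.cl e dl i (L₁ ++ A :: L₂))).dl d J I D ≤
      (σ.wm (.ord (e - 1) (insert i A) ::ₘ (mb e (L₂ ++ L₁) + σ.ms))).dl d J I D := by
  have hlen := hk.len
  obtain ⟨he, -, htr, hiJ, hAs⟩ := hk.ok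
  have hiB : i ∉ (range J).erase i := notMem_erase i _
  have hlen2 : (L₁ ++ A :: L₂).length = (A :: (L₂ ++ L₁)).length := by
    simp only [List.length_append, List.length_cons]
    omega
  have hk' : (Kd.cl e dl i (A :: (L₂ ++ L₁))).Ok d J := by
    refine ⟨he, by simp, by rw [← hlen2]; exact htr, hiJ, fun A' hA' => hAs A' ?_⟩
    rw [List.mem_cons, List.mem_append] at hA'
    rw [List.mem_append, List.mem_cons]
    tauto
  rw [dl_rot hD (fun h => hiB (hAs A (by simp) h)) L₁ L₂ (fun A' hA' h => hiB (hAs A' (by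
    rw [List.mem_append]
    exact Or.inl hA') h)) (fun A' hA' h => hiB (hAs A' (by
    rw [List.mem_append, List.mem_cons]
    exact Or.inr (Or.inr hA')) h)) (by
    rw [List.length_append, List.length_cons] at hlen
    omega)]
  exact cl1_dl' hD hI hm hk' h2 hi hc hw hlow

/-- The condition on pairs is inherited. -/
theorem hh_drop' {s : ℕ} {e dl i : ℕ} {L₁ L₂ : List (Finset ℕ)} {A : Finset ℕ} {ms : Multiset Kd}
    (h2 : 1 ≤ (L₂ ++ L₁).length) (hs : s + e ≤ D + 1) (hT : (I \ insert i A).card + 1 ≤ e)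
    (h : HH D I (.cl e dl i (L₁ ++ A :: L₂) ::ₘ ms)) :
    HH s (I ∩ insert i A) (.cl e dl i (L₂ ++ L₁) ::ₘ ms) :=
  hh_drop h2 hs hT (hh_rots L₁ L₂ h)

/-- `CL1` for one member. -/
theorem St.cl1a (hD : D ≤ d) (hI : I ⊆ range J) {e dl i : ℕ} {A : Finset ℕ}
    (hm : ∀ k ∈ σ.ms, k.Ok d J) (hk : AdmC d J e (.cl e dl i [A])) (hi : i ∈ I)
    (hc : 1 ≤ σ.c i) (hw : 1 ≤ σ.w) (_hdl : 1 ≤ dl)
    (heD : e ≤ D + 1) (hH : HH D I (.cl e dl i [A] ::ₘ σ.ms))
    (hlow : ∀ s, s + e ≤ D + 1 → ((σ.lo i 1).lw 1).dl d J (I ∩ insert i A) s ≤ 0)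
    (hlow' : ∀ s, s + e ≤ D + 1 → (σ.lw 1).dl d J (I ∩ insert i A) s ≤ 0) :
    (σ.ad (.cl e dl i [A])).dl d J I D ≤ (σ.ad (.ord (e - 1) (insert i A))).dl d J I D :=
  cl1a_dl hD hI hm hk.ok hi heD hc hw (hh_one (by have := hk.ok.1; omega) hi hH) hlow hlow'

end

end Pool.Agent.GD.AL
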