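import Pool.Agent.GD.AL.ClW0
import Pool.Agent.GD.AL.CDef

/-!
# General d, ALPHA, part C: the form of `CL2` for states

`St.cl2`: the defect of a state with a cluster of `k` members on the whole `(range J).erase i` and
`(c - 1) (k - 1)` points of the same kind is at most `1 / c` times the combination `(c - 1, 1)` of the defects
of the states with the points on `range J` of the exponents `e` and `e - 1` and `c (k - 1)` points of the kind of
the members, if the lower defects are `≤ 0`.
-/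

set_option autoImplicit false
set_option linter.unusedSectionVars false

namespace Pool.Agent.GD.AL

open Finset

section

variable {d J D : ℕ} {σ : St} {I : Finset ℕ}

theorem tri_ok {i : ℕ} {k k' : Kd} (hk : k.Ok d J) (h : k' ∈ tri i k) : k'.Ok d J := by
  cases k with
  | ord e A =>
    by_cases hA : i ∈ A
    · simp only [tri, if_pos hA, Multiset.mem_singleton] at h
      rw [h]
      exact hk
    · simp only [tri, if_neg hA] at h
      exact absurd h (Multiset.notMem_zero _)
  | cl e dl j As =>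
    obtain ⟨he, hlen, htr, hj, hAs⟩ := hk
    have hne : As ≠ [] := fun h => by rw [h] at hlen; simp at hlen
    have h1 : e ≤ d := by
      unfold trx at htr
      have h2 : 1 * (e - 1) ≤ As.length * (e - 1) := Nat.mul_le_mul_right _ hlen
      omega
    by_cases hij : j = i
    · simp only [tri, if_pos hij, Multiset.mem_singleton] at h
      rw [h]
      refine ⟨?_, htr, fun x hx => ?_⟩
      · unfold trx
        omega
      · obtain ⟨A, hA⟩ := List.exists_mem_of_ne_nil As hne
        exact mem_of_mem_erase (hAs A hA ((mem_interL.1 hx).2 A hA))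
    · simp only [tri, if_neg hij] at h
      by_cases hall : ∀ A ∈ As, i ∈ A
      · rw [if_pos hall, Multiset.mem_singleton] at h
        rw [h]
        exact ⟨he, hlen, htr, hj, hAs⟩
      · rw [if_neg hall, Multiset.mem_coe, List.mem_map] at h
        obtain ⟨A, hA, rfl⟩ := h
        exact ⟨by omega, h1, (hAs A (List.mem_filter.1 hA).1).trans (erase_subset _ _)⟩

theorem li_ok {i : ℕ} (hm : ∀ k ∈ σ.ms, k.Ok d J) : ∀ k ∈ (σ.li i).ms, k.Ok d J := by
  intro k hk
  obtain ⟨k', hk', h⟩ := Multiset.mem_bind.1 hk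
  exact tri_ok (hm k' hk') h

theorem n_li {i : ℕ} (hi : i < J) : (σ.li i).n J = σ.n J - σ.c i := by
  unfold St.n St.li
  have h1 := sum_update_of_mem (mem_range.2 hi) σ.c 0
  have h2 := add_sum_erase (range J) σ.c (mem_range.2 hi)
  simp only
  rw [h1, sdiff_singleton_eq_erase]
  omega

/-- The dimension of the trace. -/
theorem H_li (hD : D ≤ d) {i : ℕ} (hi : i < J) (hI : I ⊆ range J) (hm : ∀ k ∈ σ.ms, k.Ok d J) :
    HI d D (fun s : {s : Vr J σ.c σ.w // bt J σ.c σ.w s ≠ i} => bt J σ.c σ.w s.1) I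
      (σ.ms.bind (tri i)) = (σ.li i).H d J I D := by
  classical
  refine St.H_eq (σ := σ.li i) hD _ ?_ ?_ hI fun k hk => ok_blk (li_ok hm k hk)
  · rw [n_li hi]
    have h1 := Fintype.card_subtype_compl (fun s : Vr J σ.c σ.w => bt J σ.c σ.w s = i)
    rw [Fintype.card_subtype (fun s : Vr J σ.c σ.w => bt J σ.c σ.w s = i), card_bt _ _ hi,
      card_Vr] at h1
    exact h1
  · intro j hj
    show _ = Function.update σ.c i 0 j
    by_cases hji : j = i
    · subst hji
      rw [Function.update_self, card_eq_zero]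
      refine eq_empty_of_forall_notMem fun s hs => ?_
      exact s.2 (mem_filter.1 hs).2
    · rw [Function.update_of_ne hji, ← card_bt (J := J) σ.c σ.w hj]
      refine card_bij (fun s _ => s.1) ?_ ?_ ?_
      · intro s hs
        exact mem_filter.2 ⟨mem_univ _, (mem_filter.1 hs).2⟩
      · intro s _ s' _ h
        exact Subtype.ext h
      · intro s hs
        have h1 := (mem_filter.1 hs).2
        exact ⟨⟨s, fun h => hji (h1.symm.trans h)⟩, mem_filter.2 ⟨mem_univ _, h1⟩, rfl⟩

theorem V_lI {i : ℕ} (hi : i < J) (hiI : i ∉ I) :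
    vd D I σ.c (σ.n J - σ.c i) (σ.ms.bind (tri i)) = (σ.li i).V J I D := by
  unfold St.V
  rw [n_li hi]
  exact vd_congr_c fun j hj => (Function.update_of_ne (fun h => hiI (by rw [← h]; exact hj)) _ _).symm

theorem lo_lo' (σ : St) (a t : ℕ) : (σ.lo a 1).lo a t = σ.lo a (t + 1) := by
  unfold St.lo
  simp only [Function.update_self, Function.update_idem]
  rw [Nat.sub_sub, Nat.add_comm 1 t]

/-- Killing `t` vectors of a block. -/
theorem H_kills (hd : 1 ≤ d) (hD : D ≤ d) {a : ℕ} (ha : a < J) (hI : I ⊆ range J) (t : ℕ) (σ : St)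
    (hc : t ≤ σ.c a) (hm : ∀ k ∈ σ.ms, k.Ok d J) :
    HI d D (bt J σ.c σ.w) I (Multiset.replicate t (.ord 1 ((range J).erase a)) + σ.ms) =
      (σ.lo a t).H d J I D := by
  induction t generalizing σ with
  | zero =>
    rw [Multiset.replicate_zero, zero_add]
    unfold St.lo
    rw [Nat.sub_zero, Function.update_eq_self]
    rfl
  | succ t ih =>
    have h1 := St.H_kill (σ := σ.wm (Multiset.replicate t (.ord 1 ((range J).erase a)) + σ.ms))
      (D := D) hD ha (show 1 ≤ σ.c a by omega) hI (by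
      intro k hk
      rcases Multiset.mem_add.1 hk with hk | hk
      · rw [Multiset.eq_of_mem_replicate hk]
        exact ⟨le_rfl, hd, erase_subset _ _⟩
      · exact hm k hk)
    have h2 := ih (σ.lo a 1) (by
      show t ≤ Function.update σ.c a (σ.c a - 1) a
      rw [Function.update_self]
      omega) hm
    rw [lo_lo'] at h2
    rw [Multiset.replicate_succ, Multiset.cons_add]
    exact h1.trans h2

theorem V_kills {a : ℕ} (ha : a < J) (hI : I ⊆ range J) (t : ℕ) (σ : St) (hc : t ≤ σ.c a) :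
    vd D I σ.c (σ.n J) (Multiset.replicate t (.ord 1 ((range J).erase a)) + σ.ms) =
      (σ.lo a t).V J I D := by
  induction t generalizing σ with
  | zero =>
    rw [Multiset.replicate_zero, zero_add]
    unfold St.lo
    rw [Nat.sub_zero, Function.update_eq_self]
    rfl
  | succ t ih =>
    have h1 := St.V_kill (σ := σ.wm (Multiset.replicate t (.ord 1 ((range J).erase a)) + σ.ms))
      (D := D) ha (show 1 ≤ σ.c a by omega) hI
    have h2 := ih (σ.lo a 1) (by
      show t ≤ Function.update σ.c a (σ.c a - 1) a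
      rw [Function.update_self]
      omega)
    rw [lo_lo'] at h2
    rw [Multiset.replicate_succ, Multiset.cons_add]
    exact h1.trans h2

/-- A killed `W`-vector and `t` killed vectors of a block. -/
theorem H_kill3 (hd : 1 ≤ d) (hD : D ≤ d) {a : ℕ} (ha : a < J) (hI : I ⊆ range J) (t : ℕ)
    (hc : t ≤ σ.c a) (hw : 1 ≤ σ.w) (hm : ∀ k ∈ σ.ms, k.Ok d J) :
    HI d D (bt J σ.c σ.w) I (.ord 1 (range J) ::ₘ
      (Multiset.replicate t (.ord 1 ((range J).erase a)) + σ.ms)) =
      ((σ.lo a t).lw 1).H d J I D := by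
  have h1 := St.H_killw (σ := σ.wm (Multiset.replicate t (.ord 1 ((range J).erase a)) + σ.ms))
    (D := D) hD hw hI (by
      intro k hk
      rcases Multiset.mem_add.1 hk with hk | hk
      · rw [Multiset.eq_of_mem_replicate hk]
        exact ⟨le_rfl, hd, erase_subset _ _⟩
      · exact hm k hk)
  exact h1.trans (H_kills hd hD ha hI t (σ.lw 1) hc hm)

theorem V_kill3 {a : ℕ} (ha : a < J) (hI : I ⊆ range J) (t : ℕ) (hc : t ≤ σ.c a) (hw : 1 ≤ σ.w) :
    vd D I σ.c (σ.n J) (.ord 1 (range J) ::ₘ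
      (Multiset.replicate t (.ord 1 ((range J).erase a)) + σ.ms)) =
      ((σ.lo a t).lw 1).V J I D := by
  have h1 := St.V_killw (σ := σ.wm (Multiset.replicate t (.ord 1 ((range J).erase a)) + σ.ms))
    (D := D) hw hI
  exact h1.trans (V_kills ha hI t (σ.lw 1) hc)

private theorem fin_arith {c H0 H1 H2 H3 X Y V0 V1 V2 V3 X' Y' : ℤ}
    (g1 : c * H0 ≤ (c - 1) * H1 + H2 + (H3 + (X + c * Y)))
    (g2 : c * V0 = (c - 1) * V1 + V2 + (V3 + X' + c * Y')) (S1 : H3 ≤ V3) (S2 : X ≤ X')
    (S4 : c * Y ≤ c * Y') : c * (H0 - V0) ≤ (c - 1) * (H1 - V1) + (H2 - V2) := by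
  rw [mul_sub, g2, mul_sub]
  linarith

/-- `CL2`: the clusters whose members vanish on all blocks but `i`; `S` = the state without the members of
the other `c - 1` groups. -/
theorem St.cl2 (hD : D ≤ d) (hI : I ⊆ range J) {e i k c : ℕ} {B : Finset ℕ}
    (hB : B = (range J).erase i) (hm : ∀ k ∈ σ.ms, k.Ok d J)
    (hk : AdmC d J e (.cl e 0 i (List.replicate k B))) (hk2 : 2 ≤ k) (hi : i ∈ I) (hc1 : 1 ≤ c)
    (heD : e ≤ D + 1) (hc : c * (k - 1) < σ.c i) (hw : 1 ≤ σ.w)
    (hdl : ∀ e' dl' As, .cl e' dl' i As ∈ σ.ms → dl' = 0)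
    (h1 : ∀ t, 1 ≤ t → t ≤ c → ∀ s, s + e ≤ D + 1 →
      ((((σ.wm (Multiset.replicate ((c - t) * (k - 1)) (.ord e B) + σ.ms)).lo i (t * (k - 1))).lw 1)).dl
        d J I s ≤ 0)
    (h2 : ∀ s, s + e ≤ D → ((σ.li i).lw 1).dl d J (I.erase i) s ≤ 0) :
    (c : ℤ) * (σ.wm (.cl e 0 i (List.replicate k B) ::ₘ
        (Multiset.replicate ((c - 1) * (k - 1)) (.ord e B) + σ.ms))).dl d J I D ≤
      (c - 1 : ℤ) * (σ.wm (.ord e (range J) ::ₘ
        (Multiset.replicate (c * (k - 1)) (.ord e B) + σ.ms))).dl d J I D +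
      (σ.wm (.ord (e - 1) (range J) ::ₘ
        (Multiset.replicate (c * (k - 1)) (.ord e B) + σ.ms))).dl d J I D := by
  subst hB
  obtain ⟨he, -, htr, hiJ, -⟩ := hk.ok
  obtain ⟨E, rfl⟩ : ∃ E, e = E + 1 := ⟨e - 1, by omega⟩
  obtain ⟨l, rfl⟩ : ∃ l, k = l + 1 := ⟨k - 1, by omega⟩
  rw [Nat.add_sub_cancel] at hc h1 ⊢
  rw [Nat.add_sub_cancel]
  have hE : 1 ≤ E := by omega
  have hED : E ≤ D := by omega
  have hl : 1 ≤ l := by omega
  have hd : 1 ≤ d := by omega
  rw [List.length_replicate] at htr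
  have hlE : (l + 1) * E + 1 ≤ d := htr
  have hld : l + 1 ≤ d := by nlinarith
  have hEd : E + 1 ≤ d := by nlinarith
  have hiB : i ∉ (range J).erase i := notMem_erase i _
  have hins : insert i ((range J).erase i) = range J := insert_erase (mem_range.2 hiJ)
  have hIB : I.erase i ⊆ (range J).erase i := erase_subset_erase i hI
  have hIe : I.erase i ⊆ range J := (erase_subset _ _).trans hI
  have hrep : List.replicate (l + 1) ((range J).erase i) =
      List.replicate l ((range J).erase i) ++ [(range J).erase i] := List.replicate_succ'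
  -- the inequality and the identity
  have g1 := AL.cl2 (β := bt J σ.c σ.w) (c := c) (l := l) hD hE hED hl hld hi hiB hIB
    (hins.le.trans le_rfl) σ.ms hm fun k hk e' dl' As h => hdl e' dl' As (h ▸ hk)
  have g2 := vd_cl2 (d := d) (J := J) (l := l) hED hc1 hi hiB hIB (hins.le.trans le_rfl) hd σ.c
    (σ.n J) σ.ms hm
  rw [hins] at g1 g2
  have ok1 : ∀ t : ℕ, ∀ k ∈ Multiset.replicate ((c - t) * l) (Kd.ord (E + 1) ((range J).erase i)) +
      σ.ms, k.Ok d J := by
    intro t k hk
    rcases Multiset.mem_add.1 hk with hk | hk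
    · rw [Multiset.eq_of_mem_replicate hk]
      exact ⟨by omega, hEd, erase_subset _ _⟩
    · exact hm k hk
  -- the groups
  have G : ∀ t, 1 ≤ t → t ≤ c → ∀ s, s + (E + 1) ≤ D + 1 →
      (HI d s (bt J σ.c σ.w) I (.ord 1 (range J) ::ₘ
        (Multiset.replicate (t * l) (.ord 1 ((range J).erase i)) +
          (Multiset.replicate ((c - t) * l) (.ord (E + 1) ((range J).erase i)) + σ.ms))) : ℤ) ≤
      vd s I σ.c (σ.n J) (.ord 1 (range J) ::ₘ
        (Multiset.replicate (t * l) (.ord 1 ((range J).erase i)) +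
          (Multiset.replicate ((c - t) * l) (.ord (E + 1) ((range J).erase i)) + σ.ms))) := by
    intro t ht htc s hs
    have htl : t * l ≤ σ.c i := (Nat.mul_le_mul_right l htc).trans hc.le
    have e1 := H_kill3 (σ := σ.wm (Multiset.replicate ((c - t) * l)
      (Kd.ord (E + 1) ((range J).erase i)) + σ.ms)) (d := d) (D := s) hd (by omega) hiJ hI (t * l)
      htl hw (ok1 t)
    have e2 := V_kill3 (σ := σ.wm (Multiset.replicate ((c - t) * l)
      (Kd.ord (E + 1) ((range J).erase i)) + σ.ms)) (D := s) hiJ hI (t * l) htl hw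
    have e3 := h1 t ht htc s hs
    unfold St.dl at e3
    rw [← e1, ← e2] at e3
    exact sub_nonpos.1 e3
  -- the trace
  have G2 : ∀ r, r + (E + 1) ≤ D →
      (HI d r (fun s : {s : Vr J σ.c σ.w // bt J σ.c σ.w s ≠ i} => bt J σ.c σ.w s.1) (I.erase i)
        ((Kd.ord 1 (range J) ::ₘ σ.ms).bind (tri i)) : ℤ) ≤
      vd r (I.erase i) σ.c (σ.n J - σ.c i) ((Kd.ord 1 (range J) ::ₘ σ.ms).bind (tri i)) := by
    intro r hr
    have hok' : ∀ k ∈ (σ.ad (.ord 1 (range J))).ms, k.Ok d J := by
      intro k hk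
      rcases Multiset.mem_cons.1 hk with rfl | hk
      · exact ⟨le_rfl, hd, Subset.rfl⟩
      · exact hm k hk
    have e1 := H_li (σ := σ.ad (.ord 1 (range J))) (D := r) (by omega) hiJ hIe hok'
    have e2 := V_lI (σ := σ.ad (.ord 1 (range J))) (D := r) hiJ (notMem_erase i I)
    have e4 : (σ.ad (.ord 1 (range J))).li i = (σ.li i).ad (.ord 1 (range J)) := by
      unfold St.li St.ad
      simp only [Multiset.cons_bind, tri, if_pos (mem_range.2 hiJ), Multiset.singleton_add]
    have e5 := St.H_killw (σ := σ.li i) (D := r) (by omega) hw hIe (li_ok hm)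
    have e6 := St.V_killw (σ := σ.li i) (D := r) hw hIe
    have e3 := h2 r hr
    unfold St.dl at e3
    rw [← e5, ← e6, ← e4, ← e1, ← e2] at e3
    exact sub_nonpos.1 e3
  -- the sums
  have S1 := G c hc1 le_rfl (D - E) (by omega)
  rw [Nat.sub_self, Nat.zero_mul, Multiset.replicate_zero, zero_add] at S1
  have S2 : (∑ t ∈ range c, ∑ r ∈ range (D - E), (rr l E (D - E - r) : ℤ) *
      (HI d r (bt J σ.c σ.w) I (.ord 1 (range J) ::ₘ
        (Multiset.replicate ((t + 1) * l) (.ord 1 ((range J).erase i)) +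
        (Multiset.replicate ((c - (t + 1)) * l) (.ord (E + 1) ((range J).erase i)) + σ.ms))) : ℤ)) ≤
      ∑ t ∈ range c, ∑ r ∈ range (D - E), (rr l E (D - E - r) : ℤ) *
      vd r I σ.c (σ.n J) (.ord 1 (range J) ::ₘ
        (Multiset.replicate ((t + 1) * l) (.ord 1 ((range J).erase i)) +
        (Multiset.replicate ((c - (t + 1)) * l) (.ord (E + 1) ((range J).erase i)) + σ.ms))) := by
    refine sum_le_sum fun t ht => sum_le_sum fun r hr => ?_
    rw [mem_range] at ht hr
    exact mul_le_mul_of_nonneg_left (G (t + 1) (by omega) (by omega) r (by omega))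
      (Nat.cast_nonneg _)
  have S3 : (∑ r ∈ range (D - E), ((rr l E (D - E - r) - 1 : ℕ) : ℤ) *
      (HI d r (fun s : {s : Vr J σ.c σ.w // bt J σ.c σ.w s ≠ i} => bt J σ.c σ.w s.1) (I.erase i)
        ((Kd.ord 1 (range J) ::ₘ σ.ms).bind (tri i)) : ℤ)) ≤
      ∑ r ∈ range (D - E), ((rr l E (D - E - r) - 1 : ℕ) : ℤ) *
      vd r (I.erase i) σ.c (σ.n J - σ.c i) ((Kd.ord 1 (range J) ::ₘ σ.ms).bind (tri i)) := by
    refine sum_le_sum fun r hr => ?_
    rw [mem_range] at hr
    exact mul_le_mul_of_nonneg_left (G2 r (by omega)) (Nat.cast_nonneg _)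
  have S4 := mul_le_mul_of_nonneg_left S3 (Nat.cast_nonneg c : (0 : ℤ) ≤ (c : ℤ))
  have K0 : ∀ X : Multiset Kd, (σ.wm X).dl d J I D = (HI d D (bt J σ.c σ.w) I X : ℤ) -
    vd D I σ.c (σ.n J) X := fun X => rfl
  rw [hrep, K0, K0, K0]
  simp only [Nat.cast_add, Nat.cast_sum, Nat.cast_mul] at g1
  exact fin_arith g1 g2 S1 S2 S4

end

end Pool.Agent.GD.AL
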