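import Pool.Agent.GD.AL.TieM

/-!
# General d, ALPHA: adding a cluster of at least two members (CL1)

`cl1`: `HI (S + cluster) ≤ HI (S + the other members as points + (T, e - 1)) +
∑_(s ≤ D - e + 1) HI_s (S + the cluster of the other members + y + z)`, for every configuration `S`.
-/

set_option autoImplicit false
set_option linter.unusedSectionVars false

namespace Pool.Agent.GD.AL

open Finset MvPolynomial Pool.Agent.H51.TB Pool.Agent.V7.ST
open Pool.Agent.V7 (msk)

section

variable {ν : Type} [Fintype ν] [DecidableEq ν] {d : ℕ}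

/-- Limits of solutions as functionals. -/
theorem lim_Dl {D : ℕ} (hD : D ≤ d) (β : ν → ℕ) (I : Finset ℕ) {κ : Type} [Fintype κ] (m : κ → Kd)
    (Q : κ → ν × Fin (d + 1) → Polynomial ℂ) (U : Submodule ℂ (Dl ν)) (hU : Module.Finite ℂ U)
    (h : ∀ φ : (ν → ℕ) → Polynomial ℂ, (∀ a, a ∉ Ex β D I → φ a = 0) →
      (∀ x, Sat β I (m x) (Q x) (Fn φ)) → ev0 φ ∈ U) :
    HI d D β I ((univ : Finset κ).val.map m) ≤ Module.finrank ℂ U := by
  have h1 : Module.finrank ℂ (U.comap (toDl (Ex β D I))) ≤ Module.finrank ℂ U := by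
    let j : U.comap (toDl (Ex β D I)) →ₗ[ℂ] U :=
      ((toDl (Ex β D I)).comp (U.comap (toDl (Ex β D I))).subtype).codRestrict U fun x => x.2
    refine LinearMap.finrank_le_finrank_of_injective (f := j) fun x y hxy => ?_
    exact Subtype.ext (toDl_inj _ (congrArg Subtype.val hxy))
  refine le_trans ?_ h1
  show gM (LS d D β I) _ ≤ _
  rw [← gd_eq_gM]
  refine gd_lim (LS d D β I) m Q _ fun F hF => ?_
  have h2 := h (ext0 (Ex β D I) F) (fun a ha => ext0_not F ha) fun x =>
    (sat_iff hD β I (fun _ ha => Ex_sum ha) (m x) (Q x) F).1 (hF x)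
  have h3 : toDl (Ex β D I) (fun e => (F e).eval 0) = ev0 (ext0 (Ex β D I) F) := by
    show Fn _ = Fn _
    congr 1
    funext a
    by_cases ha : a ∈ Ex β D I
    · rw [show ext0 (Ex β D I) F a = F ⟨a, ha⟩ from ext0_mem F ⟨a, ha⟩]
      exact ext0_mem (fun e => (F e).eval 0) ⟨a, ha⟩
    · rw [ext0_not _ ha, ext0_not _ ha, Polynomial.eval_zero]
  show toDl (Ex β D I) (fun e => (F e).eval 0) ∈ U
  rw [h3]
  exact h2

variable {β : ν → ℕ} {i E dl : ℕ} {B A : Finset ℕ} {L : List (Finset ℕ)} {I : Finset ℕ} {κ : Type}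
  {m : κ → Kd} {p : κ → ν × Fin (d + 1) → ℂ}

/-- The contraction by `y^E` of the limits. -/
theorem lim_Xp (hE : 1 ≤ E) (hL : 1 ≤ L.length) (hl : L.length + 1 ≤ d) (hiB : i ∉ B)
    (hAB : A ⊆ B) (hi : i ∈ I) {s D : ℕ} (hs : s + E = D) {φ : (ν → ℕ) → Polynomial ℂ}
    (hφ : ∀ a, a ∉ Ex β D I → φ a = 0) {a : ℕ → ν → ℂ} {b c y : ν × Fin (d + 1) → ℂ}
    (hm : ∀ x, Sat β I (m x) (fun z => Polynomial.C (p x z)) (Fn φ))
    (hc : Sat β I (.cl (E + 1) dl i (L ++ [A]))
      (pq β i B L.length a (fun s => b (s, 0)) (fun s => y (s, 0)) c) (Fn φ)) :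
    ct (lf (opt β (insert i A) y) ^ E) (ev0 φ) ∈ Xp β (I ∩ insert i A) m p i E dl L a
      (opt β (insert i A) y) (zh β i B L.length a fun s => b (s, 0)) (zz β i c) s := by
  subst hs
  have hΦ := ev0_Lv hφ
  have hyA : ∀ s, β s ∈ insert i A → opt β (insert i A) y s = 0 := fun s hs => opt_zero hs
  have hzB : ∀ s, β s ∈ B → zh β i B L.length a (fun s => b (s, 0)) s = 0 := fun s hs => zh_zero hs
  have hlast := tie_last hl hiB hAB hc
  have h1 := Lv_ct_pow hyA hΦ
  have hyi : ∀ s, β s = i → opt β (insert i A) y s = 0 := fun s hs =>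
    hyA s (mem_insert.2 (Or.inl hs))
  rw [mem_Xp]
  refine ⟨fun j hj => ?_, ?_⟩
  · rw [mem_Yp]
    refine ⟨?_, fun x hx => ?_, ?_⟩
    · rw [mem_XX]
      have h2 := Lv_ct_pow (k := j) (D := s - j) hzB (by
        rw [Nat.sub_add_cancel hj]
        exact h1)
      refine ⟨fun b' hb' => ?_, fun x => ?_⟩
      · by_cases h3 : b' ∈ Ex β (s - j) (I ∩ insert i A ∩ B)
        · have h4 : ∀ s, β s = i → b' s = 0 := by
            by_contra h5
            push Not at h5
            obtain ⟨t, ht1, ht2⟩ := h5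
            apply hb'
            rw [mem_Ex] at h3 ⊢
            refine ⟨h3.1, fun i' hi' => ?_⟩
            by_cases h6 : i' = i
            · exact ⟨t, h6 ▸ ht1, ht2⟩
            · refine h3.2 i' (Finset.mem_inter.2 ⟨hi', ?_⟩)
              exact hAB ((mem_insert.1 (Finset.mem_inter.1 hi').2).resolve_left h6)
          have h5 := tie_key' (β := β) (i := i) hlast hyi 1 (fun b hb => by
            rw [one_mul, mon_map, Fn_mon, hφ, mul_zero]
            intro h6
            obtain ⟨t, ht1, ht2⟩ := (mem_Ex.1 h6).2 i hi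
            exact ht2 (hb t ht1)) j h4
          rw [one_mul] at h5
          exact h5
        · exact h2 b' h3
      · have h3 := Sat_ct_pow hzB (Sat_ct_pow hyA (sat_ev0 (hm x)) E) j
        refine ⟨h3.1, ?_⟩
        have h4 := h3.2
        have h5 := hm x
        generalize m x = k at h4 h5
        cases k with
        | ord e' A' => trivial
        | cl e' dl' i' As =>
          intro hi' κ' h6 h7 b' hb'
          by_cases h8 : i' = i
          · subst h8
            have h9 := tie_key' (β := β) (i := i') hlast hyi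
              (lf (uu β (.cl e' dl' i' As) (p x)) ^ (As.length * (e' - 1)) *
                lf (zz β i' (p x)) ^ κ') (fun b hb => by
                rw [mul_assoc]
                exact satC_add h5 hi h6 h7 hb) j hb'
            rw [mul_assoc (lf (uu β (.cl e' dl' i' As) (p x)) ^ (As.length * (e' - 1)))] at h9
            exact h9
          · refine h4 (Finset.mem_inter.2 ⟨hi', ?_⟩) κ' h6 h7 b' hb'
            exact hAB ((mem_insert.1 (Finset.mem_inter.1 hi').2).resolve_left h8)
    · have h2 : ct (lf (avl β L a x) ^ (E + 1)) (ev0 φ) = 0 := by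
        refine LinearMap.ext fun g => ?_
        rw [ct_apply, ev0_C, map_mul (MvPolynomial.map Polynomial.C),
          map_pow (MvPolynomial.map Polynomial.C), tie_mem hl hc hx, Polynomial.eval_zero]
        rfl
      rw [ct_comm, ct_comm (lf (avl β L a x) ^ (E + 1)), h2, map_zero, map_zero]
    · have h2 : ct (lf (opt β (insert i A) y) ^ (E + 1)) (ev0 φ) = 0 := by
        refine LinearMap.ext fun g => ?_
        have h3 := ev0_map φ ((MvPolynomial.map Polynomial.C (lf (opt β (insert i A) y)) +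
          C Polynomial.X * MvPolynomial.map Polynomial.C
            (lf (zh β i B L.length a fun s => b (s, 0)))) ^ (E + 1) * MvPolynomial.map Polynomial.C g)
        have h5 : (Polynomial.evalRingHom (0 : ℂ)) Polynomial.X = 0 := by simp
        have h6 := hlast (MvPolynomial.map Polynomial.C g)
        change Fn φ ((MvPolynomial.map Polynomial.C (lf (opt β (insert i A) y)) +
          C Polynomial.X * MvPolynomial.map Polynomial.C
            (lf (zh β i B L.length a fun s => b (s, 0)))) ^ (E + 1) *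
              MvPolynomial.map Polynomial.C g) = 0 at h6
        have h7 : MvPolynomial.map (Polynomial.evalRingHom (0 : ℂ))
            ((MvPolynomial.map Polynomial.C (lf (opt β (insert i A) y)) +
          C Polynomial.X * MvPolynomial.map Polynomial.C
            (lf (zh β i B L.length a fun s => b (s, 0)))) ^ (E + 1) *
              MvPolynomial.map Polynomial.C g) = lf (opt β (insert i A) y) ^ (E + 1) * g := by
          rw [map_mul, map_pow, map_add, map_mul, map_map_C, map_map_C, map_map_C,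
            MvPolynomial.map_C, h5, C_0, zero_mul, add_zero]
        rw [h6, Polynomial.eval_zero, h7] at h3
        exact h3.symm
      rw [ct_comm (lf (opt β (insert i A) y)), ← ct_mul (lf (opt β (insert i A) y)), ← pow_succ',
        h2, map_zero]
  · intro _ κ' h2 h3 b' hb'
    rw [ct_apply]
    exact tie_add hl hL hE hiB hAB hi hc h2 h3 hb'


/-! ### General positions -/

section gen

variable {R S : Type} [CommRing R] [CommRing S] {l : ℕ}

/-- The vectors of the first members. -/
def ga (l : ℕ) (P : κ ⊕ (Fin l ⊕ Fin 3) → ν × Fin (d + 1) → R) (x : ℕ) (s : ν) : R :=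
  if h : x < l then P (Sum.inr (Sum.inl ⟨x, h⟩)) (s, 0) else 0

/-- The positions of the objects modulo the direction. -/
def Ph (β : ν → ℕ) (i : ℕ) (B : Finset ℕ) (l : ℕ) (P : κ ⊕ (Fin l ⊕ Fin 3) → ν × Fin (d + 1) → R) :
    κ ⊕ Fin 3 → ν × Fin (d + 1) → R :=
  Sum.elim (fun x => P (Sum.inl x)) (q3 β i B l (ga l P) (P (Sum.inr (Sum.inr 0)))
    (P (Sum.inr (Sum.inr 2))) (P (Sum.inr (Sum.inr 1))))

theorem ga_map (f : R →+* S) (P : κ ⊕ (Fin l ⊕ Fin 3) → ν × Fin (d + 1) → R) (x : ℕ) (s : ν) :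
    f (ga l P x s) = ga l (fun k z => f (P k z)) x s := by
  unfold ga
  split_ifs
  · rfl
  · exact map_zero f

theorem zh_map (f : R →+* S) (a : ℕ → ν → R) (b : ν → R) (s : ν) :
    f (zh β i B l a b s) = zh β i B l (fun x s => f (a x s)) (fun s => f (b s)) s := by
  unfold zh
  split_ifs
  · exact map_zero f
  · rw [map_neg, map_sum]
  · rfl

theorem Ph_map (f : R →+* S) (P : κ ⊕ (Fin l ⊕ Fin 3) → ν × Fin (d + 1) → R) (k : κ ⊕ Fin 3)
    (z : ν × Fin (d + 1)) : f (Ph β i B l P k z) = Ph β i B l (fun k z => f (P k z)) k z := by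
  have hga : (fun x s => f (ga l P x s)) = ga l (fun k z => f (P k z)) := by
    funext x s
    exact ga_map f P x s
  rcases k with k | k
  · rfl
  · fin_cases k
    · show f (pc β i B l (ga l P) (fun s => P (Sum.inr (Sum.inr 0)) (s, 0))
        (P (Sum.inr (Sum.inr 2))) z) = pc β i B l (ga l fun k z => f (P k z))
          (fun s => f (P (Sum.inr (Sum.inr 0)) (s, 0))) (fun z => f (P (Sum.inr (Sum.inr 2)) z)) z
      unfold pc
      split_ifs
      · exact ga_map f P _ _
      · rw [map_add, ga_map, zh_map, hga]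
      · rfl
    · rfl
    · show f (pb β i l (ga l P) (P (Sum.inr (Sum.inr 0))) z) =
        pb β i l (ga l fun k z => f (P k z)) (fun z => f (P (Sum.inr (Sum.inr 0)) z)) z
      unfold pb
      split_ifs
      · rw [map_neg, map_sum]
        congr 1
        exact sum_congr rfl fun x _ => ga_map f P _ _
      · rfl

theorem Ph_surj (hiB : i ∉ B) (hl1 : 1 ≤ l) (hl : l ≤ d)
    (p' : κ ⊕ Fin 3 → ν × Fin (d + 1) → ℂ) :
    ∃ P : κ ⊕ (Fin l ⊕ Fin 3) → ν × Fin (d + 1) → ℂ, Ph β i B l P = p' := by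
  let b := p' (Sum.inr 2)
  let c := p' (Sum.inr 0)
  let a : Fin l → ν → ℂ := fun x s => if x.1 + 1 < l then c (s, ⟨x.1, by omega⟩) else
    if β s = i then - b (s, 0) - ∑ x' : Fin (d + 1), (if x'.1 < l - 1 then c (s, x') else 0)
    else c (s, ⟨x.1, by omega⟩) - if β s ∈ B then 0 else b (s, 0)
  let P : κ ⊕ (Fin l ⊕ Fin 3) → ν × Fin (d + 1) → ℂ := Sum.elim (fun x => p' (Sum.inl x))
    (Sum.elim (fun x z => a x z.1) fun j => if j = 0 then b else if j = 1 then p' (Sum.inr 1) else c)
  have hb : P (Sum.inr (Sum.inr 0)) = b := rfl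
  have hc : P (Sum.inr (Sum.inr 2)) = c := rfl
  have hga : ∀ (x : ℕ) (hx : x < l) (s : ν), ga l P x s = a ⟨x, hx⟩ s := by
    intro x hx s
    unfold ga
    rw [dif_pos hx]
    rfl
  have hsum : ∀ s, β s = i → ∑ x ∈ range l, ga l P x s = - b (s, 0) := by
    intro s hs
    obtain ⟨l', rfl⟩ : ∃ l', l = l' + 1 := ⟨l - 1, by omega⟩
    rw [sum_range_succ]
    have h1 : ga (l' + 1) P l' s = - b (s, 0) - ∑ x' : Fin (d + 1),
        (if x'.1 < l' then c (s, x') else 0) := by
      rw [hga l' (by omega)]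
      show (if l' + 1 < l' + 1 then _ else if β s = i then _ else _) = _
      rw [if_neg (lt_irrefl _), if_pos hs]
      rfl
    have h2 : ∑ x ∈ range l', ga (l' + 1) P x s = ∑ x' : Fin (d + 1),
        (if x'.1 < l' then c (s, x') else 0) := by
      rw [← sum_fin_range (d := d) (by omega)]
      refine sum_congr rfl fun x' _ => ?_
      by_cases h3 : x'.1 < l'
      · rw [if_pos h3, if_pos h3, hga x'.1 (by omega)]
        show (if x'.1 + 1 < l' + 1 then c (s, ⟨x'.1, _⟩) else _) = _
        rw [if_pos (by omega)]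
      · rw [if_neg h3, if_neg h3]
    rw [h1, h2]
    ring
  refine ⟨P, ?_⟩
  funext k z
  rcases k with k | k
  · rfl
  · fin_cases k
    · show pc β i B l (ga l P) (fun s => b (s, 0)) c z = c z
      unfold pc
      split_ifs with h1 h2
      · rw [hga _ (by omega)]
        show (if z.2.1 + 1 < l then c (z.1, ⟨z.2.1, _⟩) else _) = _
        rw [if_pos h1]
      · rw [hga _ (by omega)]
        show (if z.2.1 + 1 < l then _ else if β z.1 = i then _ else
          c (z.1, ⟨z.2.1, _⟩) - if β z.1 ∈ B then 0 else b (z.1, 0)) + _ = _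
        rw [if_neg h1, if_neg h2.2]
        unfold zh
        rw [if_neg h2.2]
        exact sub_add_cancel _ _
      · rfl
    · rfl
    · show pb β i l (ga l P) b z = b z
      unfold pb
      split_ifs with h1
      · rw [hsum z.1 h1.2, neg_neg, ← h1.1]
      · rfl

/-- Generic positions of the objects modulo the direction. -/
theorem gn_Ph (hiB : i ∉ B) (hl1 : 1 ≤ l) (hl : l ≤ d)
    {Q : (κ ⊕ Fin 3 → ν × Fin (d + 1) → ℂ) → Prop} (h : Gn (κ ⊕ Fin 3) (ν × Fin (d + 1)) Q) :
    Gn (κ ⊕ (Fin l ⊕ Fin 3)) (ν × Fin (d + 1)) fun P => Q (Ph β i B l P) := by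
  have h1 := Pool.Agent.KZ.gn_sub (κ := κ ⊕ Fin 3) (κ' := κ ⊕ (Fin l ⊕ Fin 3))
    (Ph β i B l fun k z => (X (k, z) :
      MvPolynomial ((κ ⊕ (Fin l ⊕ Fin 3)) × (ν × Fin (d + 1))) ℂ)) (fun p' => by
      obtain ⟨P, hP⟩ := Ph_surj (β := β) hiB hl1 hl p'
      refine ⟨P, fun k z => ?_⟩
      rw [← hP, Ph_map]
      simp only [eval_X]) h
  refine h1.mono fun P hP => ?_
  have h2 : (fun k z => eval (fun x => P x.1 x.2) (Ph β i B l (fun k z => (X (k, z) :
      MvPolynomial ((κ ⊕ (Fin l ⊕ Fin 3)) × (ν × Fin (d + 1))) ℂ)) k z)) = Ph β i B l P := by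
    funext k z
    rw [Ph_map]
    simp only [eval_X]
  rw [h2] at hP
  exact hP

end gen

/-- CL1 for families. -/
theorem cl1_fam {D : ℕ} (hD : D ≤ d) (hE : 1 ≤ E) (hL : 1 ≤ L.length) (hl : L.length + 1 ≤ d)
    (hiL : ∀ A' ∈ L, i ∉ A') (hiB : i ∉ B) (hLB : ∀ A' ∈ L, A' ⊆ B) (hAB : A ⊆ B) (hi : i ∈ I)
    [Fintype κ] (m : κ → Kd) :
    HI d D β I ((univ : Finset (κ ⊕ Unit)).val.map
      (Sum.elim m fun _ => .cl (E + 1) dl i (L ++ [A]))) ≤
    HI d D β I ((univ : Finset (κ ⊕ (Fin L.length ⊕ Unit))).val.map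
      (Sum.elim m (Sum.elim (fun x : Fin L.length => Kd.ord (E + 1) (L.getD x ∅))
        fun _ : Unit => Kd.ord E (insert i A)))) +
    ∑ s ∈ range (D + 1 - E), HI d s β (I ∩ insert i A)
      ((univ : Finset (κ ⊕ Fin 3)).val.map (Sum.elim m (n3 E dl i L A B))) := by
  classical
  let emb : κ ⊕ (Fin L.length ⊕ Unit) → κ ⊕ (Fin L.length ⊕ Fin 3) :=
    Sum.map id (Sum.map id fun _ => 1)
  have hemb : Function.Injective emb := by
    rintro (x | x | x) (y | y | y) h
    · exact congrArg Sum.inl (Sum.inl.inj h)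
    · exact absurd h (by simp [emb])
    · exact absurd h (by simp [emb])
    · exact absurd h (by simp [emb])
    · exact congrArg (fun x => Sum.inr (Sum.inl x)) (Sum.inl.inj (Sum.inr.inj h))
    · exact absurd h (by simp [emb])
    · exact absurd h (by simp [emb])
    · exact absurd h (by simp [emb])
    · rfl
  have g1 := (gn_XX (d := d) hD β I (Sum.elim m (Sum.elim
    (fun x : Fin L.length => Kd.ord (E + 1) (L.getD x ∅)) fun _ : Unit =>
      Kd.ord E (insert i A)))).comap emb hemb
  have g2 := Gn.all (range (D + 1 - E)) (P := fun s (P : κ ⊕ (Fin L.length ⊕ Fin 3) →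
      ν × Fin (d + 1) → ℂ) => Module.finrank ℂ (XX β s (I ∩ insert i A)
        (Sum.elim m (n3 E dl i L A B)) (Ph β i B L.length P)) =
          HI d s β (I ∩ insert i A) ((univ : Finset (κ ⊕ Fin 3)).val.map
            (Sum.elim m (n3 E dl i L A B)))) fun s hs =>
    gn_Ph hiB hL (by omega) (gn_XX (d := d) (by rw [mem_range] at hs; omega) β
      (I ∩ insert i A) (Sum.elim m (n3 E dl i L A B)))
  obtain ⟨P, hP1, hP2⟩ := (g1.and g2).exists
  set a := ga L.length P with ha
  set b := P (Sum.inr (Sum.inr 0)) with hb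
  set c := P (Sum.inr (Sum.inr 2)) with hc
  set y := P (Sum.inr (Sum.inr 1)) with hy
  set p : κ → ν × Fin (d + 1) → ℂ := fun x => P (Sum.inl x) with hp
  set yv := opt β (insert i A) y with hyv
  set zv := zh β i B L.length a fun s => b (s, 0) with hzv
  -- the points as a subspace
  have hav : ∀ x : Fin L.length, opt β (L.getD x ∅) (P (Sum.inr (Sum.inl x))) = avl β L a x := by
    intro x
    funext s
    show (if β s ∈ L.getD x ∅ then 0 else P (Sum.inr (Sum.inl x)) (s, 0)) =
      if β s ∈ L.getD x ∅ then 0 else ga L.length P x s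
    unfold ga
    rw [dif_pos x.2]
  rw [← hP1, ← sum_congr rfl fun s hs => hP2 s hs]
  -- the limit
  let U : Submodule ℂ (Dl ν) := XX β D I m p ⊓ ((⨅ x ∈ range L.length,
    LinearMap.ker (ct (lf (avl β L a x) ^ (E + 1)))) ⊓
    (if h : E ≤ D then (Xp β (I ∩ insert i A) m p i E dl L a yv zv (zz β i c) (D - E)).comap
      (ct (lf yv ^ E)) else ⊤))
  have hUfin : Module.Finite ℂ U := by
    have := finite_XX β D I m p
    exact Submodule.finiteDimensional_of_le inf_le_left
  have hlim := lim_Dl hD β I (Sum.elim m fun _ : Unit => Kd.cl (E + 1) dl i (L ++ [A]))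
    (Sum.elim (fun x z => Polynomial.C (p x z)) fun _ : Unit =>
      pq β i B L.length a (fun s => b (s, 0)) (fun s => y (s, 0)) c) U hUfin (by
    intro φ hφ hsat
    have hm : ∀ x, Sat β I (m x) (fun z => Polynomial.C (p x z)) (Fn φ) := fun x => hsat (Sum.inl x)
    have hcl := hsat (Sum.inr ())
    change Sat β I (.cl (E + 1) dl i (L ++ [A]))
      (pq β i B L.length a (fun s => b (s, 0)) (fun s => y (s, 0)) c) (Fn φ) at hcl
    refine ⟨?_, ?_, ?_⟩
    · rw [SetLike.mem_coe, mem_XX]
      exact ⟨ev0_Lv hφ, fun x => sat_ev0 (hm x)⟩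
    · rw [SetLike.mem_coe, Submodule.mem_iInf]
      intro x
      rw [Submodule.mem_iInf, mem_range]
      intro hx
      refine LinearMap.ext fun g => ?_
      rw [ct_apply, ev0_C, map_mul (MvPolynomial.map Polynomial.C),
        map_pow (MvPolynomial.map Polynomial.C), tie_mem hl hcl hx, Polynomial.eval_zero]
      rfl
    · split_ifs with h
      · exact lim_Xp hE hL hl hiB hAB hi (by omega) hφ hm hcl
      · exact trivial)
  refine hlim.trans ?_
  have hK := finite_XX β D I (Sum.elim m (Sum.elim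
    (fun x : Fin L.length => Kd.ord (E + 1) (L.getD x ∅)) fun _ : Unit =>
      Kd.ord E (insert i A))) (fun x => P (emb x))
  have hker : ∀ G ∈ U, ct (lf yv ^ E) G = 0 → G ∈ XX β D I (Sum.elim m (Sum.elim
      (fun x : Fin L.length => Kd.ord (E + 1) (L.getD x ∅)) fun _ : Unit =>
        Kd.ord E (insert i A))) (fun x => P (emb x)) := by
    rintro G ⟨hG1, hG2, -⟩ hG3
    rw [SetLike.mem_coe, mem_XX] at hG1
    rw [mem_XX]
    refine ⟨hG1.1, ?_⟩
    rintro (x | x | x)
    · exact hG1.2 x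
    · show Sat β I (.ord (E + 1) (L.getD x ∅)) (P (Sum.inr (Sum.inl x))) G
      rw [sat_ord, hav]
      rw [SetLike.mem_coe, Submodule.mem_iInf] at hG2
      have h1 := hG2 x.1
      rw [Submodule.mem_iInf] at h1
      exact h1 (mem_range.2 x.2)
    · show Sat β I (.ord E (insert i A)) y G
      rw [sat_ord]
      exact hG3
  by_cases h : E ≤ D
  · have h1 := finrank_le_ker_add hUfin hK
      (finite_Xp (β := β) (I' := I ∩ insert i A) (m := m) (p := p) (i := i) (E := E) (dl := dl)
        (L := L) (a := a) (yv := yv) (zv := zv) (ζ := zz β i c) (D - E)) (ct (lf yv ^ E)) hker (by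
      rintro G ⟨-, -, hG⟩
      rw [SetLike.mem_coe, dif_pos h] at hG
      exact hG)
    refine h1.trans (Nat.add_le_add_left ?_ _)
    have h2 : D + 1 - E = D - E + 1 := by omega
    rw [h2]
    refine finrank_Xp (fun s hs => sum_zero hiL hiB a _ s hs) (fun s =>
      XX β s (I ∩ insert i A) (Sum.elim m (n3 E dl i L A B)) (Ph β i B L.length P))
      (fun s => finite_XX _ _ _ _ _) (fun s G hG h0 => ?_) (D - E)
    exact ker_Xp hL hiL hiB hLB (by omega) hG h0
  · refine le_trans (Submodule.finrank_mono fun G hG => ?_) (Nat.le_add_right _ _)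
    refine hker G hG ?_
    exact Lv_ct_lt (by omega) (mem_XX.1 hG.1).1

theorem map_getD (L : List (Finset ℕ)) (f : Finset ℕ → Kd) :
    (univ : Finset (Fin L.length)).val.map (fun x : Fin L.length => f (L.getD x.1 ∅)) =
      ((L.map f : List Kd) : Multiset Kd) := by
  rw [Fin.univ_val_map]
  congr 1
  have h1 : (fun x : Fin L.length => f (L.getD x ∅)) = f ∘ fun x : Fin L.length => L[x.1] := by
    funext x
    show f (L.getD x.1 ∅) = f L[x.1]
    rw [List.getD_eq_getElem _ _ x.2]
  rw [h1, ← List.map_ofFn, List.ofFn_getElem]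

theorem map_n3 (E dl i : ℕ) (L : List (Finset ℕ)) (A B : Finset ℕ) :
    (univ : Finset (Fin 3)).val.map (n3 E dl i L A B) =
      .cl (E + 1) dl i L ::ₘ .ord 1 (insert i A) ::ₘ {.ord 1 B} := by
  rw [Fin.univ_val_map]
  rfl

theorem map_unit {T : Type} (t : T) : (univ : Finset Unit).val.map (fun _ => t) = {t} := rfl

/-- **CL1**: adding a cluster of at least two members. -/
theorem cl1 {D : ℕ} (hD : D ≤ d) (hE : 1 ≤ E) (hL : 1 ≤ L.length) (hl : L.length + 1 ≤ d)
    (hiL : ∀ A' ∈ L, i ∉ A') (hiB : i ∉ B) (hLB : ∀ A' ∈ L, A' ⊆ B) (hAB : A ⊆ B) (hi : i ∈ I)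
    (ms : Multiset Kd) :
    HI d D β I (.cl (E + 1) dl i (L ++ [A]) ::ₘ ms) ≤
      HI d D β I (.ord E (insert i A) ::ₘ (((L.map (Kd.ord (E + 1)) : List Kd) : Multiset Kd) + ms)) +
      ∑ s ∈ range (D + 1 - E), HI d s β (I ∩ insert i A)
        (.cl (E + 1) dl i L ::ₘ .ord 1 (insert i A) ::ₘ .ord 1 B ::ₘ ms) := by
  obtain ⟨m, hm, -⟩ := exists_conf (LS d D β I) ms
  have h := cl1_fam (β := β) (dl := dl) hD hE hL hl hiL hiB hLB hAB hi m
  rw [map_elim, map_elim, map_elim, map_getD, map_unit, map_unit, hm] at h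
  have h1 : ms + ({Kd.cl (E + 1) dl i (L ++ [A])} : Multiset Kd) =
      .cl (E + 1) dl i (L ++ [A]) ::ₘ ms := by
    rw [add_comm, Multiset.singleton_add]
  have h2 : ms + (((L.map (Kd.ord (E + 1)) : List Kd) : Multiset Kd) +
      ({Kd.ord E (insert i A)} : Multiset Kd)) =
      .ord E (insert i A) ::ₘ (((L.map (Kd.ord (E + 1)) : List Kd) : Multiset Kd) + ms) := by
    rw [← Multiset.singleton_add]
    abel
  rw [h1, h2] at h
  refine h.trans (le_of_eq ?_)
  congr 1
  refine sum_congr rfl fun s _ => ?_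
  rw [map_elim, map_n3, hm]
  congr 1
  rw [← Multiset.singleton_add, ← Multiset.singleton_add, ← Multiset.singleton_add,
    ← Multiset.singleton_add, ← Multiset.singleton_add]
  abel

end

end Pool.Agent.GD.AL
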