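import Pool.Agent.GD.AL.Cl1

/-!
# General d, ALPHA: adding a cluster of one member (CL1, single-point clusters)

`cl1a`: `HI (S + cl e dl i [A]) ≤ HI (S + (T, e - 1)) + ∑_(κ < dl) HI_(D' - κ) (S + y + z) +
HI_(D' - dl) (S + y)`, `D' = D - e + 1`, if no additional condition of a cluster of `S` created at the level
`i` occurs in degree `< D'`.
-/

set_option autoImplicit false
set_option linter.unusedSectionVars false

namespace Pool.Agent.GD.AL

open Finset MvPolynomial Pool.Agent.H51.TB Pool.Agent.V7.ST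
open Pool.Agent.V7 (msk)

section

variable {ν : Type} [Fintype ν] [DecidableEq ν] {d : ℕ} {β : ν → ℕ}

/-- The additional conditions of a cluster hold automatically in low degrees. -/
theorem auto_Sb {I' : Finset ℕ} {s e dl i : ℕ} {As : List (Finset ℕ)}
    {q : ν × Fin (d + 1) → ℂ} {G : Dl ν} (hG : G ∈ Lv β s I')
    (h : 1 ≤ dl → s ≤ As.length * (e - 1) + ((I'.erase i) ∩ inter As).card) :
    Sb β I' (.cl e dl i As) q G := by
  intro _ κ h1 h2 b hb
  set P := As.length * (e - 1) with hP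
  by_cases h3 : ∃ i' ∈ (I'.erase i) ∩ inter As, ∀ x, β x = i' → b x = 0
  · obtain ⟨i', hi', hb'⟩ := h3
    rw [Finset.mem_inter, mem_erase] at hi'
    have hu : ∀ x, β x = i' → uu β (.cl e dl i As) q x = 0 := by
      intro x hx
      rw [uu_cl]
      refine sum_eq_zero fun y _ => ?_
      split_ifs with h4
      · have h5 : β x ∈ As.getD y ∅ := by
          rw [hx]
          rcases As with _ | ⟨A, As⟩
          · exact absurd h4 (by simp)
          · exact (Pool.Agent.GD.mem_inter (by simp)).1 hi'.2 _ (getD_mem h4)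
        exact if_pos h5
      · rfl
    have hz : ∀ x, β x = i' → zz β i q x = 0 := by
      intro x hx
      exact if_neg fun h => hi'.1.1 (hx.symm.trans h)
    have h5 := kill_pow hu (G.comp (LinearMap.mulLeft ℂ (lf (zz β i q) ^ κ))) (fun b hb => by
      refine kill_pow hz G (fun b hb => ?_) κ b hb
      refine hG b fun h => ?_
      obtain ⟨t, ht1, ht2⟩ := (mem_Ex.1 h).2 i' hi'.1.2
      exact ht2 (hb t ht1)) P b hb'
    have h6 : (G.comp (LinearMap.mulLeft ℂ (lf (zz β i q) ^ κ)))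
        (lf (uu β (.cl e dl i As) q) ^ P * mon ℂ b) =
        G (lf (uu β (.cl e dl i As) q) ^ P * (lf (zz β i q) ^ κ * mon ℂ b)) := by
      show G (lf (zz β i q) ^ κ * (lf (uu β (.cl e dl i As) q) ^ P * mon ℂ b)) = _
      congr 1
      ring
    rw [← h6]
    exact h5
  · push Not at h3
    have h4 : ((I'.erase i) ∩ inter As).card ≤ ∑ x, b x := by
      have h5 : ∀ i' ∈ (I'.erase i) ∩ inter As, 1 ≤ ∑ x ∈ univ.filter (fun x => β x = i'), b x := by
        intro i' hi'
        obtain ⟨t, ht1, ht2⟩ := h3 i' hi'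
        have h6 : b t ≤ ∑ x ∈ univ.filter (fun x => β x = i'), b x :=
          single_le_sum (f := b) (fun _ _ => Nat.zero_le _) (mem_filter.2 ⟨mem_univ _, ht1⟩)
        omega
      calc ((I'.erase i) ∩ inter As).card = ∑ i' ∈ (I'.erase i) ∩ inter As, 1 := by
            rw [sum_const, smul_eq_mul, mul_one]
        _ ≤ ∑ i' ∈ (I'.erase i) ∩ inter As, ∑ x ∈ univ.filter (fun x => β x = i'), b x :=
            sum_le_sum h5
        _ = ∑ x ∈ univ.filter (fun x => β x ∈ (I'.erase i) ∩ inter As), b x := by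
            rw [sum_fiberwise_eq_sum_filter univ ((I'.erase i) ∩ inter As) β b]
        _ ≤ ∑ x, b x := sum_le_sum_of_subset (filter_subset _ _)
    have h5 := h (h1.trans h2)
    -- the degree
    have h6 : ∀ (w : MvPolynomial ν ℂ), G (w * mon ℂ b) = ct w G (mon ℂ b) := fun _ => rfl
    by_cases h7 : P + κ ≤ s
    · have h8 : G ∈ Lv β (s - P - κ + κ + P) I' := by
        rw [show s - P - κ + κ + P = s by omega]
        exact hG
      have h9 : ct (lf (zz β i q) ^ κ) (ct (lf (uu β (.cl e dl i As) q) ^ P) G) ∈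
          Lv β (s - P - κ) (I' ∩ ∅ ∩ ∅) :=
        Lv_ct_pow (fun x hx => absurd hx (notMem_empty (β x)))
          (Lv_ct_pow (fun x hx => absurd hx (notMem_empty (β x))) h8)
      refine h9 b fun h10 => ?_
      have h11 := (mem_Ex.1 h10).1
      omega
    · have h8 : ct (lf (zz β i q) ^ κ) (ct (lf (uu β (.cl e dl i As) q) ^ P) G) = 0 := by
        by_cases h9 : P ≤ s
        · have h10 : G ∈ Lv β (s - P + P) I' := by
            rw [Nat.sub_add_cancel h9]
            exact hG
          have h11 : ct (lf (uu β (.cl e dl i As) q) ^ P) G ∈ Lv β (s - P) (I' ∩ ∅) :=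
            Lv_ct_pow (fun x hx => absurd hx (notMem_empty (β x))) h10
          exact Lv_ct_lt (by omega) h11
        · rw [Lv_ct_lt (k := P) (by omega) hG, map_zero]
      exact LinearMap.congr_fun h8 (mon ℂ b)

variable {i E : ℕ} {B A : Finset ℕ} {κ : Type} {m : κ → Kd} {p : κ → ν × Fin (d + 1) → ℂ}
  {I' : Finset ℕ}

/-- The functionals which kill `z^κ` times the monomials off the block `i`, `1 ≤ κ ≤ n`. -/
noncomputable def Zp (β : ν → ℕ) (i : ℕ) (zv : ν → ℂ) (n : ℕ) : Submodule ℂ (Dl ν) where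
  carrier := {G | ∀ κ : ℕ, 1 ≤ κ → κ ≤ n → ∀ b : ν → ℕ, (∀ s, β s = i → b s = 0) →
    G (lf zv ^ κ * mon ℂ b) = 0}
  zero_mem' := fun _ _ _ _ _ => rfl
  add_mem' := fun {F G} h h' κ h1 h2 b hb => by
    rw [LinearMap.add_apply, h κ h1 h2 b hb, h' κ h1 h2 b hb, add_zero]
  smul_mem' := fun c G h κ h1 h2 b hb => by
    rw [LinearMap.smul_apply, h κ h1 h2 b hb, smul_zero]

theorem zp_ct {zv yv : ν → ℂ} (hz : ∀ s, β s ∈ B → zv s = 0) (hIB : ∀ i' ∈ I', i' ≠ i → i' ∈ B)
    {s n : ℕ}
    (hH : ∀ x, ∀ e' dl' As, m x = .cl e' dl' i As → 1 ≤ dl' →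
      s ≤ As.length * (e' - 1) + ((I'.erase i) ∩ inter As).card) {G : Dl ν}
    (h : G ∈ XX β (s + 1) I' m p ⊓ (LinearMap.ker (ct (lf yv)) ⊓ Zp β i zv (n + 1))) :
    ct (lf zv) G ∈ XX β s I' m p ⊓ (LinearMap.ker (ct (lf yv)) ⊓ Zp β i zv n) := by
  obtain ⟨h1, h2, h3⟩ := h
  rw [SetLike.mem_coe, mem_XX] at h1
  have h4 := Lv_ct hz h1.1
  have h5 : ct (lf zv) G ∈ Lv β s I' := by
    intro b hb
    by_cases h6 : b ∈ Ex β s (I' ∩ B)
    · have h7 : ∀ t, β t = i → b t = 0 := by
        by_contra h8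
        push Not at h8
        obtain ⟨t, ht1, ht2⟩ := h8
        apply hb
        rw [mem_Ex] at h6 ⊢
        refine ⟨h6.1, fun i' hi' => ?_⟩
        by_cases h9 : i' = i
        · exact ⟨t, h9 ▸ ht1, ht2⟩
        · exact h6.2 i' (Finset.mem_inter.2 ⟨hi', hIB i' hi' h9⟩)
      have h8 := h3 1 le_rfl (by omega) b h7
      rw [pow_one] at h8
      exact h8
    · exact h4 b h6
  refine ⟨?_, ?_, ?_⟩
  · rw [SetLike.mem_coe, mem_XX]
    refine ⟨h5, fun x => ?_⟩
    have h6 := Sat_ct hz (h1.2 x)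
    refine ⟨h6.1, ?_⟩
    have h7 := h6.2
    have h8 := hH x
    generalize m x = k at h7 h8
    cases k with
    | ord e' A' => trivial
    | cl e' dl' i' As =>
      by_cases h9 : i' = i
      · subst h9
        exact auto_Sb h5 (h8 e' dl' As rfl)
      · intro hi'
        exact h7 (Finset.mem_inter.2 ⟨hi', hIB i' hi' h9⟩)
  · show ct (lf yv) (ct (lf zv) G) = 0
    rw [ct_comm, show ct (lf yv) G = 0 from h2, map_zero]
  · intro κ' h6 h7 b hb
    have h8 := h3 (κ' + 1) (by omega) (by omega) b hb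
    rw [pow_succ', mul_assoc] at h8
    exact h8

/-- The recursion. -/
theorem finrank_zp {zv yv : ν → ℂ} (hz : ∀ s, β s ∈ B → zv s = 0)
    (hIB : ∀ i' ∈ I', i' ≠ i → i' ∈ B) (K : ℕ → Submodule ℂ (Dl ν))
    (hfin : ∀ s, Module.Finite ℂ (K s))
    (hK : ∀ s, ∀ G ∈ XX β s I' m p, ct (lf yv) G = 0 → ct (lf zv) G = 0 → G ∈ K s) (n s : ℕ)
    (hH : 1 ≤ n → ∀ x, ∀ e' dl' As, m x = .cl e' dl' i As → 1 ≤ dl' →
      s ≤ As.length * (e' - 1) + 1 + ((I'.erase i) ∩ inter As).card) :
    Module.finrank ℂ (XX β s I' m p ⊓ (LinearMap.ker (ct (lf yv)) ⊓ Zp β i zv n) :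
      Submodule ℂ (Dl ν)) ≤
      ∑ j ∈ (range n).filter (fun j => j ≤ s), Module.finrank ℂ (K (s - j)) +
        if n ≤ s then Module.finrank ℂ (XX β (s - n) I' m p ⊓ LinearMap.ker (ct (lf yv)) :
          Submodule ℂ (Dl ν)) else 0 := by
  have hfX : ∀ s (W : Submodule ℂ (Dl ν)), Module.Finite ℂ (XX β s I' m p ⊓ W :
      Submodule ℂ (Dl ν)) := by
    intro s W
    have := finite_XX β s I' m p
    exact Submodule.finiteDimensional_of_le inf_le_left
  induction n generalizing s with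
  | zero =>
    rw [range_zero, filter_empty, sum_empty, zero_add, if_pos (Nat.zero_le _), Nat.sub_zero]
    have := hfX s (LinearMap.ker (ct (lf yv)))
    refine Submodule.finrank_mono fun G hG => ⟨hG.1, hG.2.1⟩
  | succ n ih =>
    rcases Nat.eq_zero_or_pos s with rfl | hs
    · rw [if_neg (by omega), add_zero]
      have h1 : (range (n + 1)).filter (fun j => j ≤ 0) = {0} := by
        ext j
        rw [mem_filter, mem_range, mem_singleton]
        omega
      rw [h1, sum_singleton]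
      have := hfin 0
      refine Submodule.finrank_mono fun G hG => ?_
      exact hK 0 G hG.1 hG.2.1 (Lv_zero_ct zv (mem_XX.1 hG.1).1)
    · obtain ⟨s', rfl⟩ : ∃ s', s = s' + 1 := ⟨s - 1, by omega⟩
      have h1 := finrank_le_ker_add (hfX (s' + 1) (LinearMap.ker (ct (lf yv)) ⊓ Zp β i zv (n + 1)))
        (hfin (s' + 1)) (hfX s' (LinearMap.ker (ct (lf yv)) ⊓ Zp β i zv n)) (ct (lf zv))
        (fun G hG h0 => hK (s' + 1) G hG.1 hG.2.1 h0) fun G hG => zp_ct hz hIB (fun x e' dl' As h2 h3 => by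
          have h4 := hH (by omega) x e' dl' As h2 h3
          omega) hG
      refine h1.trans ?_
      have h2 := ih s' (fun _ x e' dl' As h2 h3 => by
        have h4 := hH (by omega) x e' dl' As h2 h3
        omega)
      have h3 : ∑ j ∈ (range (n + 1)).filter (fun j => j ≤ s' + 1),
          Module.finrank ℂ (K (s' + 1 - j)) = Module.finrank ℂ (K (s' + 1)) +
            ∑ j ∈ (range n).filter (fun j => j ≤ s'), Module.finrank ℂ (K (s' - j)) := by
        rw [sum_filter, sum_filter, sum_range_succ', Nat.sub_zero, if_pos (Nat.zero_le _), add_comm]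
        congr 1
        refine sum_congr rfl fun j _ => ?_
        by_cases h4 : j ≤ s'
        · rw [if_pos h4, if_pos (by omega), Nat.add_sub_add_right]
        · rw [if_neg h4, if_neg (by omega)]
      rw [h3, add_assoc]
      refine Nat.add_le_add_left (h2.trans (Nat.add_le_add_left (le_of_eq ?_) _)) _
      by_cases h4 : n ≤ s'
      · rw [if_pos h4, if_pos (by omega), Nat.add_sub_add_right]
      · rw [if_neg h4, if_neg (by omega)]

/-- A direction with a part off the block `i`. -/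
theorem zp_of {G : Dl ν} {zv ζ : ν → ℂ} (hζ : ∀ s, β s = i → ζ s = zv s)
    (hG : ∀ b : ν → ℕ, (∀ s, β s = i → b s = 0) → G (mon ℂ b) = 0) {n : ℕ}
    (h : G ∈ Zp β i ζ n) : G ∈ Zp β i zv n := by
  intro κ' h1 h2 b hb
  have e1 : lf zv = lf (zv - ζ) + lf ζ := by
    rw [← lf_add, sub_add_cancel]
  have e2 : lf zv ^ κ' * mon ℂ b = ∑ j ∈ range (κ' + 1), (κ'.choose j : ℂ) •
      (lf ζ ^ (κ' - j) * (lf (zv - ζ) ^ j * mon ℂ b)) := by
    rw [e1, add_pow, sum_mul]
    refine sum_congr rfl fun j _ => ?_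
    rw [smul_eq_C_mul, ← map_natCast (C : ℂ →+* MvPolynomial ν ℂ)]
    ring
  rw [e2, map_sum]
  refine sum_eq_zero fun j hj => ?_
  rw [mem_range] at hj
  rw [map_smul]
  have h3 : G (lf ζ ^ (κ' - j) * (lf (zv - ζ) ^ j * mon ℂ b)) = 0 := by
    refine kill_pow (β := β) (i := i) (q := zv - ζ) (fun s hs => by
      rw [Pi.sub_apply, hζ s hs, sub_self]) (G.comp (LinearMap.mulLeft ℂ (lf ζ ^ (κ' - j))))
      (fun b hb => ?_) j b hb
    show G (lf ζ ^ (κ' - j) * mon ℂ b) = 0
    rcases Nat.eq_zero_or_pos (κ' - j) with h4 | h4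
    · rw [h4, pow_zero, one_mul]
      exact hG b hb
    · exact h (κ' - j) h4 (by omega) b hb
  rw [h3, smul_zero]

/-- The position of a single-point cluster. -/
def ps (y b : ν × Fin (d + 1) → ℂ) (z : ν × Fin (d + 1)) : ℂ :=
  if z.2 = Fin.last d then b (z.1, 0) else y z

theorem pt_ps (hd : 1 ≤ d) {e dl : ℕ} (y b : ν × Fin (d + 1) → ℂ) :
    pt β (.cl e dl i [A]) 0 (ps y b) = opt β (insert i A) y := by
  funext s
  show (if β s ∈ A then (0 : ℂ) else if β s = i ∧ 0 + 1 = 1 then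
    - ∑ y' : Fin (d + 1), (if y'.1 + 1 < 1 then ps y b (s, y') else 0) else ps y b (s, 0)) =
    if β s ∈ insert i A then 0 else y (s, 0)
  by_cases h1 : β s ∈ A
  · rw [if_pos h1, if_pos (mem_insert_of_mem h1)]
  · rw [if_neg h1]
    by_cases h2 : β s = i
    · rw [if_pos ⟨h2, rfl⟩, if_pos (mem_insert.2 (Or.inl h2)), sum_eq_zero, neg_zero]
      intro y' _
      rw [if_neg (by omega)]
    · rw [if_neg fun h => h2 h.1, if_neg (show ¬ β s ∈ insert i A by
        rw [mem_insert]
        exact fun h => h.elim h2 h1)]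
      have h3 : (0 : Fin (d + 1)) ≠ Fin.last d := by
        intro h
        have h4 := congrArg Fin.val h
        rw [Fin.val_zero, Fin.val_last] at h4
        omega
      exact if_neg h3

theorem uu_ps (hd : 1 ≤ d) {e dl : ℕ} (y b : ν × Fin (d + 1) → ℂ) :
    uu β (.cl e dl i [A]) (ps y b) = opt β (insert i A) y := by
  funext s
  rw [uu_cl, sum_eq_single (0 : Fin (d + 1)), if_pos (by
    show (0 : Fin (d + 1)).1 < 1
    rw [Fin.val_zero]
    exact Nat.zero_lt_one), pt_ps hd]
  · intro x _ hx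
    rw [if_neg]
    intro h
    apply hx
    apply Fin.ext
    rw [Fin.val_zero]
    have h1 : x.1 < 1 := h
    omega
  · intro h
    exact absurd (mem_univ _) h

/-- CL1 for single-point clusters, for families. -/
theorem cl1a_fam {D dl : ℕ} (hD : D ≤ d) (hd : 1 ≤ d) {I : Finset ℕ} (hED : E ≤ D)
    (hiB : i ∉ B) (hAB : A ⊆ B) (hi : i ∈ I) [Fintype κ] (m : κ → Kd)
    (hH : 1 ≤ dl → ∀ x, ∀ e' dl' As, m x = .cl e' dl' i As → 1 ≤ dl' →
      D - E ≤ As.length * (e' - 1) + 1 + (((I ∩ insert i A).erase i) ∩ inter As).card) :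
    HI d D β I ((univ : Finset (κ ⊕ Unit)).val.map
      (Sum.elim m fun _ => .cl (E + 1) dl i [A])) ≤
    HI d D β I ((univ : Finset (κ ⊕ Unit)).val.map (Sum.elim m fun _ => .ord E (insert i A))) +
    (∑ j ∈ (range dl).filter (fun j => j ≤ D - E), HI d (D - E - j) β (I ∩ insert i A)
      ((univ : Finset (κ ⊕ (Unit ⊕ Unit))).val.map (Sum.elim m (Sum.elim
        (fun _ => .ord 1 (insert i A)) fun _ => .ord 1 B))) +
      if dl ≤ D - E then HI d (D - E - dl) β (I ∩ insert i A)
        ((univ : Finset (κ ⊕ Unit)).val.map (Sum.elim m fun _ => .ord 1 (insert i A))) else 0) := by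
  classical
  have hinj : Function.Injective (Sum.map id Sum.inl : κ ⊕ Unit → κ ⊕ (Unit ⊕ Unit)) :=
    Sum.map_injective.2 ⟨Function.injective_id, Sum.inl_injective⟩
  have g1 := (gn_XX (d := d) hD β I (Sum.elim m fun _ : Unit => Kd.ord E (insert i A))).comap
    _ hinj
  have g3 := Gn.all (range (D + 1)) (P := fun s (P : κ ⊕ (Unit ⊕ Unit) → ν × Fin (d + 1) → ℂ) =>
    Module.finrank ℂ (XX β s (I ∩ insert i A) (Sum.elim m fun _ : Unit => Kd.ord 1 (insert i A))
      fun x => P (Sum.map id Sum.inl x)) = HI d s β (I ∩ insert i A)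
        ((univ : Finset (κ ⊕ Unit)).val.map (Sum.elim m fun _ => .ord 1 (insert i A))))
    fun s hs => (gn_XX (d := d) (by rw [mem_range] at hs; omega) β (I ∩ insert i A)
      (Sum.elim m fun _ : Unit => Kd.ord 1 (insert i A))).comap _ hinj
  have g2 := Gn.all (range (D + 1)) (P := fun s (P : κ ⊕ (Unit ⊕ Unit) → ν × Fin (d + 1) → ℂ) =>
    Module.finrank ℂ (XX β s (I ∩ insert i A) (Sum.elim m (Sum.elim
      (fun _ : Unit => Kd.ord 1 (insert i A)) fun _ : Unit => Kd.ord 1 B)) P) =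
      HI d s β (I ∩ insert i A) ((univ : Finset (κ ⊕ (Unit ⊕ Unit))).val.map (Sum.elim m
        (Sum.elim (fun _ => .ord 1 (insert i A)) fun _ => .ord 1 B))))
    fun s hs => gn_XX (d := d) (by rw [mem_range] at hs; omega) β (I ∩ insert i A) _
  obtain ⟨P, ⟨hP1, hP2⟩, hP3⟩ := ((g1.and g2).and g3).exists
  set p : κ → ν × Fin (d + 1) → ℂ := fun x => P (Sum.inl x) with hp
  set y := P (Sum.inr (Sum.inl ())) with hy
  set b := P (Sum.inr (Sum.inr ())) with hb
  set yv := opt β (insert i A) y with hyv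
  set zv := opt β B b with hzv
  have hzB : ∀ s, β s ∈ B → zv s = 0 := fun s hs => opt_zero hs
  have hyA : ∀ s, β s ∈ insert i A → yv s = 0 := fun s hs => opt_zero hs
  have hIB : ∀ i' ∈ I ∩ insert i A, i' ≠ i → i' ∈ B := fun i' hi' h =>
    hAB ((mem_insert.1 (Finset.mem_inter.1 hi').2).resolve_left h)
  have hζ : ∀ s, β s = i → zz β i (ps y b) s = zv s := by
    intro s hs
    show (if β s = i then ps y b (s, Fin.last d) else 0) = if β s ∈ B then 0 else b (s, 0)
    rw [if_pos hs, if_neg (show ¬ β s ∈ B by rwa [hs])]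
    exact if_pos rfl
  rw [← hP1, ← sum_congr rfl fun j hj => hP2 (D - E - j) (mem_range.2 (by omega)),
    ← hP3 (D - E - dl) (mem_range.2 (by omega))]
  set U := XX β D I (Sum.elim m fun _ : Unit => Kd.cl (E + 1) dl i [A])
    (Sum.elim p fun _ : Unit => ps y b) with hU
  refine (HI_le hD β I (Sum.elim m fun _ : Unit => Kd.cl (E + 1) dl i [A])
    (Sum.elim p fun _ : Unit => ps y b)).trans ?_
  have hfW : Module.Finite ℂ (XX β (D - E) (I ∩ insert i A) m p ⊓
      (LinearMap.ker (ct (lf yv)) ⊓ Zp β i zv dl) : Submodule ℂ (Dl ν)) := by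
    have := finite_XX β (D - E) (I ∩ insert i A) m p
    exact Submodule.finiteDimensional_of_le inf_le_left
  have hcl : ∀ G ∈ U, Sat β I (.cl (E + 1) dl i [A]) (ps y b) G := fun G hG =>
    (mem_XX.1 hG).2 (Sum.inr ())
  have h1 := finrank_le_ker_add (finite_XX β D I (Sum.elim m fun _ : Unit =>
      Kd.cl (E + 1) dl i [A]) (Sum.elim p fun _ : Unit => ps y b))
    (finite_XX β D I (Sum.elim m fun _ : Unit => Kd.ord E (insert i A))
      fun x => P (Sum.map id Sum.inl x)) hfW (ct (lf yv ^ E)) (by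
    intro G hG h0
    rw [mem_XX]
    refine ⟨(mem_XX.1 hG).1, ?_⟩
    rintro (x | x)
    · exact (mem_XX.1 hG).2 (Sum.inl x)
    · show Sat β I (.ord E (insert i A)) y G
      rw [sat_ord]
      exact h0) (by
    intro G hG
    have hG1 := (mem_XX.1 hG).1
    have hGD : G ∈ Lv β (D - E + E) I := by
      rw [Nat.sub_add_cancel hED]
      exact hG1
    have hL := Lv_ct_pow hyA hGD
    refine ⟨?_, ?_, ?_⟩
    · rw [SetLike.mem_coe, mem_XX]
      exact ⟨hL, fun x => Sat_ct_pow hyA ((mem_XX.1 hG).2 (Sum.inl x)) E⟩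
    · show ct (lf yv) (ct (lf yv ^ E) G) = 0
      rw [← ct_mul, ← pow_succ']
      refine LinearMap.ext fun g => ?_
      have h2 := (hcl G hG).1 0 (by
        show (0 : Fin (d + 1)).1 < 1
        rw [Fin.val_zero]
        exact Nat.zero_lt_one) g
      rw [pt_ps hd] at h2
      exact h2
    · refine zp_of hζ (fun b' hb' => hL b' fun h => ?_) (fun κ' h2 h3 b' hb' => ?_)
      · obtain ⟨t, ht1, ht2⟩ := (mem_Ex.1 h).2 i
          (Finset.mem_inter.2 ⟨hi, mem_insert_self i A⟩)
        exact ht2 (hb' t ht1)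
      · have h4 := (hcl G hG).2 hi κ' h2 h3 b' hb'
        rw [uu_ps hd, List.length_singleton, one_mul, Nat.add_sub_cancel] at h4
        exact h4)
  refine h1.trans (Nat.add_le_add_left ?_ _)
  refine (finrank_zp hzB hIB (fun s => XX β s (I ∩ insert i A) (Sum.elim m (Sum.elim
      (fun _ : Unit => Kd.ord 1 (insert i A)) fun _ : Unit => Kd.ord 1 B)) P)
    (fun s => finite_XX _ _ _ _ _) (fun s G hG h2 h3 => ?_) dl (D - E) hH).trans ?_
  · rw [mem_XX]
    refine ⟨(mem_XX.1 hG).1, ?_⟩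
    rintro (x | x | x)
    · exact (mem_XX.1 hG).2 x
    · show Sat β _ (.ord 1 (insert i A)) y G
      rw [sat_ord, pow_one]
      exact h2
    · show Sat β _ (.ord 1 B) b G
      rw [sat_ord, pow_one]
      exact h3
  · refine Nat.add_le_add_left ?_ _
    split_ifs
    · have := finite_XX β (D - E - dl) (I ∩ insert i A) (Sum.elim m fun _ : Unit =>
        Kd.ord 1 (insert i A)) fun x => P (Sum.map id Sum.inl x)
      refine Submodule.finrank_mono fun G hG => ?_
      rw [mem_XX]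
      refine ⟨(mem_XX.1 hG.1).1, ?_⟩
      rintro (x | x)
      · exact (mem_XX.1 hG.1).2 x
      · show Sat β _ (.ord 1 (insert i A)) y G
        rw [sat_ord, pow_one]
        exact hG.2
    · exact le_rfl

/-- **CL1** for single-point clusters. -/
theorem cl1a {D dl : ℕ} (hD : D ≤ d) {I : Finset ℕ} (hE : 1 ≤ E) (hED : E ≤ D)
    (hiB : i ∉ B) (hAB : A ⊆ B) (hi : i ∈ I) (ms : Multiset Kd)
    (hH : 1 ≤ dl → ∀ e' dl' As, .cl e' dl' i As ∈ ms → 1 ≤ dl' →
      D - E ≤ As.length * (e' - 1) + 1 + (((I ∩ insert i A).erase i) ∩ inter As).card) :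
    HI d D β I (.cl (E + 1) dl i [A] ::ₘ ms) ≤
    HI d D β I (.ord E (insert i A) ::ₘ ms) +
    (∑ j ∈ (range dl).filter (fun j => j ≤ D - E), HI d (D - E - j) β (I ∩ insert i A)
      (.ord 1 (insert i A) ::ₘ .ord 1 B ::ₘ ms) +
      if dl ≤ D - E then HI d (D - E - dl) β (I ∩ insert i A) (.ord 1 (insert i A) ::ₘ ms)
        else 0) := by
  obtain ⟨m, hm, -⟩ := exists_conf (LS d D β I) ms
  have h := cl1a_fam (β := β) (E := E) (dl := dl) (A := A) (B := B) hD (by omega) hED hiB hAB hi m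
    (fun h0 x e' dl' As h1 h2 => hH h0 e' dl' As (by
      rw [← hm, ← h1]
      exact Multiset.mem_map_of_mem _ (mem_univ x)) h2)
  have h1 : ∀ k : Kd, (univ : Finset (Fin ms.toList.length ⊕ Unit)).val.map
      (Sum.elim m fun _ => k) = k ::ₘ ms := by
    intro k
    rw [map_elim, map_unit, hm, add_comm, Multiset.singleton_add]
  have h2 : ∀ k k' : Kd, (univ : Finset (Fin ms.toList.length ⊕ (Unit ⊕ Unit))).val.map
      (Sum.elim m (Sum.elim (fun _ => k) fun _ => k')) = k ::ₘ k' ::ₘ ms := by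
    intro k k'
    rw [map_elim, map_elim, map_unit, map_unit, hm, ← Multiset.singleton_add,
      ← Multiset.singleton_add]
    abel
  simp only [h1, h2] at h
  exact h

end

end Pool.Agent.GD.AL
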