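import Pool.Agent.GD.AL.Cl2b

/-!
# General d, ALPHA, clusters: a plain cluster with general members (CL2)

`cl2`: for `c` groups of `l` points of the kind `(E + 1, B)`, `i ∉ B`, `I - i ⊆ B`, and a configuration `S`
without additional conditions of clusters created at `i`.
-/

set_option autoImplicit false
set_option linter.unusedSectionVars false

namespace Pool.Agent.GD.AL

open Finset MvPolynomial Pool.Agent.H51.TB Pool.Agent.V7.ST
open Pool.Agent.V7 (msk)

/-! ### Multisets -/

theorem map_ite {α T : Type} [Fintype α] (P : α → Prop) [DecidablePred P] (a b : T) :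
    (univ : Finset α).val.map (fun x => if P x then a else b) =
      Multiset.replicate (univ.filter P).card a + Multiset.replicate (univ.filter fun x => ¬ P x).card b := by
  have h1 : (univ : Finset α).val = (univ : Finset α).val.filter P +
      (univ : Finset α).val.filter fun x => ¬ P x := (Multiset.filter_add_not P _).symm
  conv_lhs => rw [h1]
  rw [Multiset.map_add]
  congr 1
  · rw [Multiset.map_congr rfl fun x hx => if_pos (Multiset.mem_filter.1 hx).2, Multiset.map_const']
    rfl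
  · rw [Multiset.map_congr rfl fun x hx => if_neg (Multiset.mem_filter.1 hx).2, Multiset.map_const']
    rfl

theorem card_lt {c l t : ℕ} (ht : t ≤ c) :
    (univ.filter fun x : Fin c × Fin l => x.1.1 < t).card = t * l := by
  have h1 : (univ.filter fun x : Fin c × Fin l => x.1.1 < t) =
      (univ.filter fun b : Fin c => b.1 < t) ×ˢ (univ : Finset (Fin l)) := by
    ext x
    simp
  have h2 : (univ.filter fun b : Fin c => b.1 < t).map Fin.valEmbedding = range t := by
    ext x
    rw [mem_map, mem_range]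
    constructor
    · rintro ⟨b, hb, rfl⟩
      exact (mem_filter.1 hb).2
    · intro hx
      exact ⟨⟨x, by omega⟩, mem_filter.2 ⟨mem_univ _, hx⟩, rfl⟩
  have h3 := congrArg Finset.card h2
  rw [card_map, card_range] at h3
  rw [h1, card_product, h3, card_univ, Fintype.card_fin]

theorem map_groups {T : Type} {c l t : ℕ} (ht : t ≤ c) (a b : T) :
    (univ : Finset (Fin c × Fin l)).val.map (fun x => if x.1.1 < t then a else b) =
      Multiset.replicate (t * l) a + Multiset.replicate ((c - t) * l) b := by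
  rw [map_ite (fun x : Fin c × Fin l => x.1.1 < t) a b, card_lt ht]
  congr 2
  have h1 := card_filter_add_card_filter_not (s := (univ : Finset (Fin c × Fin l)))
    (fun x => x.1.1 < t)
  rw [card_lt ht, card_univ, Fintype.card_prod, Fintype.card_fin, Fintype.card_fin] at h1
  have h2 : c * l = t * l + (c - t) * l := by
    rw [← add_mul]
    congr 1
    omega
  omega

theorem card_ne {c l b : ℕ} (hb : b < c) :
    Fintype.card {x : Fin c × Fin l // x.1.1 ≠ b} = (c - 1) * l := by
  have h0 : (univ.filter fun x : Fin c × Fin l => x.1.1 = b).card = l := by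
    have h1 : (univ.filter fun x : Fin c × Fin l => x.1.1 = b) =
        ({⟨b, hb⟩} : Finset (Fin c)) ×ˢ (univ : Finset (Fin l)) := by
      ext x
      simp only [mem_filter, mem_univ, true_and, mem_product, mem_singleton, and_true]
      exact ⟨fun h => Fin.ext h, fun h => congrArg Fin.val h⟩
    rw [h1, card_product, card_singleton, one_mul, card_univ, Fintype.card_fin]
  have h1 := card_filter_add_card_filter_not (s := (univ : Finset (Fin c × Fin l)))
    (fun x => x.1.1 = b)
  rw [h0, card_univ, Fintype.card_prod, Fintype.card_fin, Fintype.card_fin] at h1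
  rw [Fintype.card_subtype]
  have h2 : c * l = l + (c - 1) * l := by
    obtain ⟨c', rfl⟩ : ∃ c', c = c' + 1 := ⟨c - 1, by omega⟩
    rw [Nat.add_sub_cancel]
    ring
  have h3 : (univ.filter fun x : Fin c × Fin l => x.1.1 ≠ b) =
      univ.filter fun x : Fin c × Fin l => ¬ x.1.1 = b := rfl
  rw [h3]
  omega

section

variable {ν : Type} [Fintype ν] [DecidableEq ν] {d : ℕ}
variable {β : ν → ℕ} {I B : Finset ℕ} {i : ℕ} {κ : Type}

/-- The kinds of the family. -/
def mF (m : κ → Kd) {c l : ℕ} (B : Finset ℕ) (i : ℕ) (f : Fin c × Fin l → ℕ) (e : ℕ) :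
    κ ⊕ ((Fin c × Fin l) ⊕ Unit) → Kd :=
  Sum.elim m (Sum.elim (fun x => .ord (f x) B) fun _ => .ord e (insert i B))

/-- CL2 for families. -/
theorem cl2_fam {D E l c J : ℕ} (hD : D ≤ d) (hE : 1 ≤ E) (hED : E ≤ D) (hl : 1 ≤ l)
    (hld : l + 1 ≤ d) (hi : i ∈ I) (hiB : i ∉ B) (hIB : I.erase i ⊆ B)
    (hBJ : insert i B ⊆ range J) [Fintype κ] (m : κ → Kd) (hok : ∀ a, (m a).Ok d J)
    (hm : ∀ a, NoD i (m a)) :
    (c : ℤ) * HI d D β I (.cl (E + 1) 0 i (List.replicate l B ++ [B]) ::ₘ
      (Multiset.replicate ((c - 1) * l) (.ord (E + 1) B) + (univ : Finset κ).val.map m)) ≤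
    ((c : ℤ) - 1) * HI d D β I ((univ : Finset (κ ⊕ ((Fin c × Fin l) ⊕ Unit))).val.map
      (mF m B i (fun _ => E + 1) (E + 1))) +
    HI d D β I ((univ : Finset (κ ⊕ ((Fin c × Fin l) ⊕ Unit))).val.map
      (mF m B i (fun _ => E + 1) E)) +
    (HI d (D - E) β I ((univ : Finset (κ ⊕ ((Fin c × Fin l) ⊕ Unit))).val.map
      (mF m B i (fun x => if x.1.1 < c then 1 else E + 1) 1)) +
    (∑ t ∈ range c, ∑ r ∈ range (D - E), rr l E (D - E - r) *
      HI d r β I ((univ : Finset (κ ⊕ ((Fin c × Fin l) ⊕ Unit))).val.map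
        (mF m B i (fun x => if x.1.1 < t + 1 then 1 else E + 1) 1)) +
    c * ∑ r ∈ range (D - E), (rr l E (D - E - r) - 1) *
      HI d r (fun s : {s : ν // β s ≠ i} => β s.1) (I.erase i)
        (((univ : Finset (κ ⊕ Unit)).val.map
          (Sum.elim m fun _ : Unit => Kd.ord 1 (insert i B))).bind (tri i)) : ℕ) : ℕ) := by
  classical
  have hI : I ∩ B = I.erase i := by
    ext x
    rw [Finset.mem_inter, mem_erase]
    constructor
    · rintro ⟨h1, h2⟩
      exact ⟨fun h => hiB (h ▸ h2), h1⟩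
    · rintro ⟨h1, h2⟩
      exact ⟨h2, hIB (mem_erase.2 ⟨h1, h2⟩)⟩
  have hI' : I ∩ insert i B = I := by
    refine inter_eq_left.2 fun x hx => ?_
    by_cases h : x = i
    · exact mem_insert.2 (Or.inl h)
    · exact mem_insert_of_mem (hIB (mem_erase.2 ⟨h, hx⟩))
  set s := D - E with hs
  -- general positions
  have g1 := gn_XX (d := d) hD β I (mF m (c := c) (l := l) B i (fun _ => E + 1) (E + 1))
  have g2 := gn_XX (d := d) hD β I (mF m (c := c) (l := l) B i (fun _ => E + 1) E)
  have g3 := Gn.all (range (c + 1) ×ˢ range (s + 1)) (P := fun x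
      (P : κ ⊕ ((Fin c × Fin l) ⊕ Unit) → ν × Fin (d + 1) → ℂ) => Module.finrank ℂ
        (XX β x.2 I (mF m B i (fun y => if y.1.1 < x.1 then 1 else E + 1) 1) P) =
          HI d x.2 β I ((univ : Finset (κ ⊕ ((Fin c × Fin l) ⊕ Unit))).val.map
            (mF m B i (fun y => if y.1.1 < x.1 then 1 else E + 1) 1))) fun x hx => by
    have h1 := mem_range.1 (mem_product.1 hx).2
    exact gn_XX (d := d) (by omega) β I _
  let emb : κ ⊕ Unit → κ ⊕ ((Fin c × Fin l) ⊕ Unit) := Sum.map id Sum.inr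
  have hemb : Function.Injective emb := by
    rintro (x | x) (y | y) h
    · exact congrArg Sum.inl (Sum.inl.inj h)
    · exact absurd h (by simp [emb])
    · exact absurd h (by simp [emb])
    · rfl
  have g4 := Gn.all (range s) (P := fun r
      (P : κ ⊕ ((Fin c × Fin l) ⊕ Unit) → ν × Fin (d + 1) → ℂ) => Module.finrank ℂ
        (TX β i r (I.erase i) (Sum.elim m fun _ : Unit => Kd.ord 1 (insert i B))
          fun x => P (emb x)) ≤ HI d r (fun s : {s : ν // β s ≠ i} => β s.1) (I.erase i)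
        (((univ : Finset (κ ⊕ Unit)).val.map
          (Sum.elim m fun _ : Unit => Kd.ord 1 (insert i B))).bind (tri i))) fun r hr => by
    rw [mem_range] at hr
    refine (gn_TX (d := d) (J := J) (by omega) β i (I.erase i)
      (Sum.elim m fun _ : Unit => Kd.ord 1 (insert i B)) ?_).comap emb hemb
    rintro (a | a)
    · exact hok a
    · exact ⟨le_rfl, by omega, hBJ⟩
  obtain ⟨P, ⟨⟨hP1, hP2⟩, hP3⟩, hP4⟩ := (((g1.and g2).and g3).and g4).exists
  set p : κ → ν × Fin (d + 1) → ℂ := fun x => P (Sum.inl x) with hp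
  let q : ℕ → ℕ → ν → ℂ := fun b x => if h : b < c ∧ x < l then
    opt β B (P (Sum.inr (Sum.inl (⟨b, h.1⟩, ⟨x, h.2⟩)))) else 0
  set y := P (Sum.inr (Sum.inr ())) with hy
  set yv := opt β (insert i B) y with hyv
  have hq : ∀ b x s, β s ∈ B → q b x s = 0 := by
    intro b x s hs
    show (if h : b < c ∧ x < l then
      opt β B (P (Sum.inr (Sum.inl (⟨b, h.1⟩, ⟨x, h.2⟩)))) else 0) s = 0
    split_ifs
    · exact opt_zero hs
    · rfl
  have hqx : ∀ x : Fin c × Fin l, q x.1.1 x.2.1 = opt β B (P (Sum.inr (Sum.inl x))) := by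
    intro x
    exact dif_pos ⟨x.1.2, x.2.2⟩
  -- the dimensions
  have hW : ∀ t ≤ c, ∀ r ≤ s, Module.finrank ℂ (Wt β I m p E c l q yv t r) =
      HI d r β I ((univ : Finset (κ ⊕ ((Fin c × Fin l) ⊕ Unit))).val.map
        (mF m B i (fun x => if x.1.1 < t then 1 else E + 1) 1)) := by
    intro t ht r hr
    have hset : Wt β I m p E c l q yv t r =
        XX β r I (mF m B i (fun x => if x.1.1 < t then 1 else E + 1) 1) P := ?_
    · rw [hset]
      exact hP3 (t, r) (mem_product.2 ⟨mem_range.2 (by omega), mem_range.2 (by omega)⟩)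
    ext G
    rw [mem_Wt, mem_XX, mem_XX]
    constructor
    · rintro ⟨⟨h1, h2⟩, h3, h4⟩
      refine ⟨h1, ?_⟩
      rintro (x | x | x)
      · exact h2 x
      · show Sat β I (.ord (if x.1.1 < t then 1 else E + 1) B) (P (Sum.inr (Sum.inl x))) G
        rw [sat_ord, ← hqx]
        exact h3 x.1.1 x.1.2 x.2.1 x.2.2
      · show Sat β I (.ord 1 (insert i B)) y G
        rw [sat_ord, pow_one]
        exact h4
    · rintro ⟨h1, h2⟩
      refine ⟨⟨h1, fun x => h2 (Sum.inl x)⟩, fun b hb x hx => ?_, ?_⟩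
      · have h3 : Sat β I (.ord (if b < t then 1 else E + 1) B)
          (P (Sum.inr (Sum.inl (⟨b, hb⟩, ⟨x, hx⟩)))) G := h2 (Sum.inr (Sum.inl (⟨b, hb⟩, ⟨x, hx⟩)))
        rw [sat_ord, ← hqx] at h3
        exact h3
      · have h3 : Sat β I (.ord 1 (insert i B)) y G := h2 (Sum.inr (Sum.inr ()))
        rw [sat_ord, pow_one] at h3
        exact h3
  let A0 : Submodule ℂ (Dl ν) := XX β D I (Sum.elim m fun _ : Fin c × Fin l => Kd.ord (E + 1) B)
    (Sum.elim p fun x => P (Sum.inr (Sum.inl x)))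
  have hA0m : ∀ G, G ∈ A0 ↔ G ∈ XX β D I m p ∧
      ∀ b < c, ∀ x < l, ct (lf (q b x) ^ (E + 1)) G = 0 := by
    intro G
    show G ∈ XX β D I _ _ ↔ _
    rw [mem_XX, mem_XX]
    constructor
    · rintro ⟨h1, h2⟩
      refine ⟨⟨h1, fun x => h2 (Sum.inl x)⟩, fun b hb x hx => ?_⟩
      have h3 : Sat β I (.ord (E + 1) B)
          (P (Sum.inr (Sum.inl (⟨b, hb⟩, ⟨x, hx⟩)))) G := h2 (Sum.inr (⟨b, hb⟩, ⟨x, hx⟩))
      rw [sat_ord, ← hqx] at h3
      exact h3
    · rintro ⟨⟨h1, h2⟩, h3⟩
      refine ⟨h1, ?_⟩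
      rintro (x | x)
      · exact h2 x
      · show Sat β I (.ord (E + 1) B) (P (Sum.inr (Sum.inl x))) G
        rw [sat_ord, ← hqx]
        exact h3 x.1.1 x.1.2 x.2.1 x.2.2
  let Ax : ℕ → Submodule ℂ (Dl ν) := fun e => A0 ⊓ LinearMap.ker (ct (lf yv ^ e))
  have fA0 : Module.Finite ℂ A0 := finite_XX _ _ _ _ _
  have fAx : ∀ e, Module.Finite ℂ (Ax e) := fun e => Submodule.finiteDimensional_of_le inf_le_left
  have hAx : ∀ e, Ax e = XX β D I (mF m B i (fun _ => E + 1) e) P := by
    intro e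
    ext G
    show G ∈ A0 ⊓ LinearMap.ker (ct (lf yv ^ e)) ↔ _
    rw [Submodule.mem_inf, hA0m, mem_XX, mem_XX]
    constructor
    · rintro ⟨⟨⟨h1, h2⟩, h3⟩, h4⟩
      refine ⟨h1, ?_⟩
      rintro (x | x | x)
      · exact h2 x
      · show Sat β I (.ord (E + 1) B) (P (Sum.inr (Sum.inl x))) G
        rw [sat_ord, ← hqx]
        exact h3 x.1.1 x.1.2 x.2.1 x.2.2
      · show Sat β I (.ord e (insert i B)) y G
        rw [sat_ord]
        exact h4
    · rintro ⟨h1, h2⟩
      refine ⟨⟨⟨h1, fun x => h2 (Sum.inl x)⟩, fun b hb x hx => ?_⟩, ?_⟩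
      · have h3 : Sat β I (.ord (E + 1) B)
          (P (Sum.inr (Sum.inl (⟨b, hb⟩, ⟨x, hx⟩)))) G := h2 (Sum.inr (Sum.inl (⟨b, hb⟩, ⟨x, hx⟩)))
        rw [sat_ord, ← hqx] at h3
        exact h3
      · have h3 : Sat β I (.ord e (insert i B)) y G := h2 (Sum.inr (Sum.inr ()))
        rw [sat_ord] at h3
        exact h3
  let Im : Submodule ℂ (Dl ν) := (Ax (E + 1)).map (ct (lf yv ^ E))
  have hAxk : Ax (E + 1) ⊓ LinearMap.ker (ct (lf yv ^ E)) = Ax E := by
    ext G
    constructor
    · rintro ⟨⟨h1, -⟩, h2⟩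
      exact ⟨h1, h2⟩
    · rintro ⟨h1, h2⟩
      refine ⟨⟨h1, ?_⟩, h2⟩
      show ct (lf yv ^ (E + 1)) G = 0
      have h4 : ct (lf yv ^ E) G = 0 := h2
      rw [pow_succ', ct_mul, h4, map_zero]
  have hdI : Module.finrank ℂ (Ax (E + 1)) = Module.finrank ℂ Im + Module.finrank ℂ (Ax E) := by
    have := fAx (E + 1)
    rw [← hAxk]
    exact rk (Ax (E + 1)) (ct (lf yv ^ E))
  have fIm : Module.Finite ℂ Im := by
    have := fAx (E + 1)
    exact Module.Finite.map (Ax (E + 1)) (ct (lf yv ^ E))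
  let EB : ℕ → Submodule ℂ (Dl ν) := fun b => Eb β I m p E c l q yv b s
  -- the limit
  have hlim : ∀ b < c, (HI d D β I (.cl (E + 1) 0 i (List.replicate l B ++ [B]) ::ₘ
      (Multiset.replicate ((c - 1) * l) (.ord (E + 1) B) + (univ : Finset κ).val.map m)) : ℤ) ≤
      Module.finrank ℂ (Ax E) + Module.finrank ℂ (Im ⊓ EB b : Submodule ℂ (Dl ν)) := by
    intro b hb
    let R : Submodule ℂ (Dl ν) := Ax (E + 1) ⊓ (EB b).comap (ct (lf yv ^ E))
    have f1 := fAx (E + 1)
    have f2 : Module.Finite ℂ R := Submodule.finiteDimensional_of_le inf_le_left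
    have h1 := rk R (ct (lf yv ^ E))
    have h2 : R.map (ct (lf yv ^ E)) = Im ⊓ EB b := by
      ext x
      constructor
      · rintro ⟨g, ⟨hg, hg'⟩, rfl⟩
        exact ⟨⟨g, hg, rfl⟩, hg'⟩
      · rintro ⟨⟨g, hg, rfl⟩, hg'⟩
        exact ⟨g, ⟨hg, hg'⟩, rfl⟩
    have h3 : R ⊓ LinearMap.ker (ct (lf yv ^ E)) = Ax E := by
      rw [← hAxk]
      ext g
      constructor
      · rintro ⟨⟨h4, -⟩, h5⟩
        exact ⟨h4, h5⟩
      · rintro ⟨h4, h5⟩
        refine ⟨⟨h4, ?_⟩, h5⟩
        have h6 : ct (lf yv ^ E) g = 0 := h5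
        show ct (lf yv ^ E) g ∈ EB b
        rw [h6]
        exact Submodule.zero_mem _
    rw [h2, h3] at h1
    -- the members of the group
    let a : ℕ → ν → ℂ := fun x => if h : x < l then
      fun s => P (Sum.inr (Sum.inl (⟨b, hb⟩, ⟨x, h⟩))) (s, 0) else 0
    have hlen : (List.replicate l B).length = l := List.length_replicate
    have hav : ∀ x < l, avl β (List.replicate l B) a x = q b x := by
      intro x hx
      have h4 : (List.replicate l B).getD x ∅ = B := by
        rw [List.getD_eq_getElem _ _ (by rw [hlen]; exact hx), List.getElem_replicate]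
      have h5 : a x = fun s => P (Sum.inr (Sum.inl (⟨b, hb⟩, ⟨x, hx⟩))) (s, 0) := dif_pos hx
      have h6 : q b x = opt β B (P (Sum.inr (Sum.inl (⟨b, hb⟩, ⟨x, hx⟩)))) := dif_pos ⟨hb, hx⟩
      unfold avl
      rw [h4, h5, h6]
      rfl
    let bp : ν × Fin (d + 1) → ℂ := fun z => - ∑ x ∈ range l, a x z.1
    have hzv : zh β i B (List.replicate l B).length a (fun s => bp (s, 0)) = zd l q b := by
      funext s
      unfold zh zd
      rw [hlen]
      by_cases h4 : β s ∈ B
      · rw [if_pos h4, sum_eq_zero fun x _ => hq b x s h4, neg_zero]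
      · have h5 : ∑ x ∈ range l, a x s = ∑ x ∈ range l, q b x s := by
          refine sum_congr rfl fun x hx => ?_
          rw [← hav x (mem_range.1 hx)]
          have h6 : (List.replicate l B).getD x ∅ = B := by
            rw [List.getD_eq_getElem _ _ (by rw [hlen]; exact mem_range.1 hx),
              List.getElem_replicate]
          show a x s = if β s ∈ (List.replicate l B).getD x ∅ then 0 else a x s
          rw [h6, if_neg h4]
        rw [if_neg h4]
        show (if β s = i then - ∑ x ∈ range l, a x s else - ∑ x ∈ range l, a x s) = _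
        rw [ite_self, h5]
    have h4 : HI d D β I ((univ : Finset ((κ ⊕ {x : Fin c × Fin l // x.1.1 ≠ b}) ⊕ Unit)).val.map
        (Sum.elim (Sum.elim m fun _ => .ord (E + 1) B) fun _ : Unit =>
          .cl (E + 1) 0 i (List.replicate l B ++ [B]))) ≤ Module.finrank ℂ R := by
      refine lim_Dl hD β I _ (Sum.elim (fun x z => Polynomial.C
        ((Sum.elim p fun x : {x : Fin c × Fin l // x.1.1 ≠ b} => P (Sum.inr (Sum.inl x.1))) x z))
        fun _ : Unit => pq β i B (List.replicate l B).length a (fun s => bp (s, 0))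
          (fun s => y (s, 0)) 0) R f2 ?_
      intro φ hφ hsat
      have hms : ∀ x, Sat β I ((Sum.elim m fun _ : {x : Fin c × Fin l // x.1.1 ≠ b} =>
          Kd.ord (E + 1) B) x) (fun z => Polynomial.C ((Sum.elim p
            fun x : {x : Fin c × Fin l // x.1.1 ≠ b} => P (Sum.inr (Sum.inl x.1))) x z)) (Fn φ) :=
        fun x => hsat (Sum.inl x)
      have hcl := hsat (Sum.inr ())
      change Sat β I (.cl (E + 1) 0 i (List.replicate l B ++ [B]))
        (pq β i B (List.replicate l B).length a (fun s => bp (s, 0)) (fun s => y (s, 0)) 0)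
          (Fn φ) at hcl
      have hlim := lim_Xp (m := Sum.elim m fun _ : {x : Fin c × Fin l // x.1.1 ≠ b} =>
          Kd.ord (E + 1) B) (p := Sum.elim p fun x : {x : Fin c × Fin l // x.1.1 ≠ b} =>
            P (Sum.inr (Sum.inl x.1))) (L := List.replicate l B) (A := B) (B := B) (s := s) hE
          (by rw [hlen]; exact hl) (by rw [hlen]; exact hld) hiB subset_rfl hi (by omega) hφ hms hcl
      rw [hI', hzv] at hlim
      have hown : ∀ x < l, ct (lf (q b x) ^ (E + 1)) (ev0 φ) = 0 := by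
        intro x hx
        rw [← hav x hx]
        refine LinearMap.ext fun g => ?_
        rw [ct_apply, ev0_C, map_mul (MvPolynomial.map Polynomial.C),
          map_pow (MvPolynomial.map Polynomial.C),
          tie_mem (by rw [hlen]; exact hld) hcl (by rw [hlen]; exact hx), Polynomial.eval_zero]
        rfl
      have hA : ev0 φ ∈ A0 := by
        rw [hA0m, mem_XX]
        refine ⟨⟨ev0_Lv hφ, fun x => sat_ev0 (hms (Sum.inl x))⟩, fun b' hb' x hx => ?_⟩
        by_cases hbb : b' = b
        · subst hbb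
          exact hown x hx
        · have h5 : Sat β I (.ord (E + 1) B) (P (Sum.inr (Sum.inl (⟨b', hb'⟩, ⟨x, hx⟩)))) (ev0 φ) :=
            sat_ev0 (hms (Sum.inr ⟨(⟨b', hb'⟩, ⟨x, hx⟩), hbb⟩))
          rw [sat_ord, ← hqx] at h5
          exact h5
      have hEb : ct (lf yv ^ E) (ev0 φ) ∈ EB b := by
        refine mem_Eb.2 fun j hj => ?_
        have h5 := mem_Yp.1 ((mem_Xp.1 hlim).1 j hj)
        obtain ⟨h6, h7, h8⟩ := h5
        rw [mem_XX] at h6
        refine mem_Wt.2 ⟨mem_XX.2 ⟨h6.1, fun x => h6.2 (Sum.inl x)⟩, fun b' hb' x hx => ?_, h8⟩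
        rw [if_neg (Nat.not_lt_zero b')]
        by_cases hbb : b' = b
        · subst hbb
          have h9 := h7 x (by rw [hlen]; exact hx)
          rw [hav x hx] at h9
          exact h9
        · have h9 : Sat β I (.ord (E + 1) B) (P (Sum.inr (Sum.inl (⟨b', hb'⟩, ⟨x, hx⟩)))) _ :=
            h6.2 (Sum.inr ⟨(⟨b', hb'⟩, ⟨x, hx⟩), hbb⟩)
          rw [sat_ord, ← hqx] at h9
          exact h9
      refine ⟨⟨hA, ?_⟩, hEb⟩
      have h5 := (mem_Wt.1 (mem_Eb.1 hEb 0 (Nat.zero_le _))).2.2
      rw [pow_zero, ct_one, ← ct_mul, ← pow_succ'] at h5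
      exact h5
    have h5 : (univ : Finset ((κ ⊕ {x : Fin c × Fin l // x.1.1 ≠ b}) ⊕ Unit)).val.map
        (Sum.elim (Sum.elim m fun _ => Kd.ord (E + 1) B) fun _ : Unit =>
          Kd.cl (E + 1) 0 i (List.replicate l B ++ [B])) =
        .cl (E + 1) 0 i (List.replicate l B ++ [B]) ::ₘ
      (Multiset.replicate ((c - 1) * l) (.ord (E + 1) B) + (univ : Finset κ).val.map m) := by
      rw [map_elim, map_elim, Pool.Agent.V7.ST.map_const, card_ne hb, map_unit, add_comm,
        Multiset.singleton_add, add_comm ((univ : Finset κ).val.map m)]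
    rw [h5] at h4
    have h6 : Module.finrank ℂ R ≤ Module.finrank ℂ (Ax E) +
      Module.finrank ℂ (Im ⊓ EB b : Submodule ℂ (Dl ν)) := by omega
    exact_mod_cast h4.trans h6
  have hsum := sum_le_sum fun b (hb : b ∈ range c) => hlim b (mem_range.1 hb)
  rw [sum_const, card_range, nsmul_eq_mul, sum_add_distrib, sum_const, card_range, nsmul_eq_mul]
    at hsum
  have hcap := sum_inf_le Im EB c
  -- the intersection
  have hint : Module.finrank ℂ (CapU Im EB c) ≤
      Module.finrank ℂ (Wt β I m p E c l q yv c s) +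
      (∑ t ∈ range c, ∑ r ∈ range s, rr l E (s - r) *
        Module.finrank ℂ (Wt β I m p E c l q yv (t + 1) r) +
      c * ∑ r ∈ range s, (rr l E (s - r) - 1) * Module.finrank ℂ (TX β i r (I.erase i)
        (Sum.elim m fun _ : Unit => Kd.ord 1 (insert i B)) (Sum.elim p fun _ : Unit => y))) := by
    have f1 : Module.Finite ℂ (CapU Im EB c) :=
      Submodule.finiteDimensional_of_le fun x hx => (mem_CapU.1 hx).1
    have h1 := Eb_codim (J := J) (c := c) (l := l) (E := E) (s := s) hi hq hI hok hyv hBJ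
      (by omega) (CapU Im EB c) f1 (fun G hG => by
        obtain ⟨⟨g, hg, rfl⟩, h2⟩ := mem_CapU.1 hG
        refine ⟨?_, h2⟩
        obtain ⟨hg1, hg2⟩ := hg
        have h3 := (hA0m g).1 hg1
        have hDs : D = s + E := by omega
        have h4 := Lv_ct_pow (q := yv) (A := insert i B) (fun s hs => opt_zero hs) (D := s) (k := E)
          (by rw [← hDs]; exact (mem_XX.1 h3.1).1)
        rw [hI'] at h4
        refine mem_Wt.2 ⟨mem_XX.2 ⟨h4, fun x => ?_⟩, fun b hb x hx => ?_, ?_⟩
        · have h5 := Sat_ct_pow (q := yv) (A := insert i B) (fun s hs => opt_zero hs)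
            ((mem_XX.1 h3.1).2 x) E
          rw [hI'] at h5
          exact h5
        · rw [if_neg (Nat.not_lt_zero b), ct_comm, h3.2 b hb x hx, map_zero]
        · rw [← ct_mul, ← pow_succ']
          exact hg2)
    have h2 := Ut_all (yv := yv) (s := s) (l := l) (p := p) hE hq hI hm (c := c) c le_rfl
    have f2 := finite_Wt (β := β) (I := I) (m := m) (p := p) (E := E) (c := c) (l := l) (q := q)
      (yv := yv) c s
    have h3 : Module.finrank ℂ (Ut β I m p E c l q yv c s) ≤
        Module.finrank ℂ (Wt β I m p E c l q yv c s) :=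
      Submodule.finrank_mono inf_le_left
    omega
  have hT : ∀ r ∈ range s, (rr l E (s - r) - 1) * Module.finrank ℂ (TX β i r (I.erase i)
        (Sum.elim m fun _ : Unit => Kd.ord 1 (insert i B)) (Sum.elim p fun _ : Unit => y)) ≤
      (rr l E (s - r) - 1) * HI d r (fun s : {s : ν // β s ≠ i} => β s.1) (I.erase i)
        (((univ : Finset (κ ⊕ Unit)).val.map
          (Sum.elim m fun _ : Unit => Kd.ord 1 (insert i B))).bind (tri i)) := by
    intro r hr
    refine Nat.mul_le_mul_left _ ?_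
    have h1 := hP4 r hr
    have h2 : (fun x => P (emb x)) = Sum.elim p fun _ : Unit => y := by
      funext x
      rcases x with x | x
      · rfl
      · rfl
    rw [h2] at h1
    exact h1
  have hint2 := hint.trans (Nat.add_le_add_left (Nat.add_le_add_left
    (Nat.mul_le_mul_left c (sum_le_sum hT)) _) _)
  rw [hW c le_rfl s le_rfl, sum_congr rfl fun t ht => sum_congr rfl fun r hr => by
    rw [hW (t + 1) (mem_range.1 ht) r (mem_range.1 hr).le]] at hint2
  rw [hAx (E + 1), hP1] at hdI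
  rw [hAx E, hP2] at hdI hsum
  have hint3 : (Module.finrank ℂ (CapU Im EB c) : ℤ) ≤ _ := Int.ofNat_le.2 hint2
  have hdI' : (HI d D β I ((univ : Finset (κ ⊕ ((Fin c × Fin l) ⊕ Unit))).val.map
      (mF m B i (fun _ => E + 1) (E + 1))) : ℤ) = Module.finrank ℂ Im +
      HI d D β I ((univ : Finset (κ ⊕ ((Fin c × Fin l) ⊕ Unit))).val.map
      (mF m B i (fun _ => E + 1) E)) := by exact_mod_cast hdI
  rw [hdI']
  have hfin := hsum.trans (add_le_add_right (hcap.trans (add_le_add_right hint3 _)) _)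
  refine hfin.trans (le_of_eq ?_)
  ring

theorem map_mF {c l : ℕ} [Fintype κ] (m : κ → Kd) (x e : ℕ) :
    (univ : Finset (κ ⊕ ((Fin c × Fin l) ⊕ Unit))).val.map (mF m B i (fun _ => x) e) =
      .ord e (insert i B) ::ₘ (Multiset.replicate (c * l) (.ord x B) +
        (univ : Finset κ).val.map m) := by
  unfold mF
  rw [map_elim, map_elim, Pool.Agent.V7.ST.map_const, map_unit, Fintype.card_prod, Fintype.card_fin,
    Fintype.card_fin, ← Multiset.singleton_add]
  abel

theorem map_mF' {c l t : ℕ} (ht : t ≤ c) [Fintype κ] (m : κ → Kd) (x y e : ℕ) :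
    (univ : Finset (κ ⊕ ((Fin c × Fin l) ⊕ Unit))).val.map
      (mF m B i (fun z => if z.1.1 < t then x else y) e) =
      .ord e (insert i B) ::ₘ (Multiset.replicate (t * l) (.ord x B) +
        (Multiset.replicate ((c - t) * l) (.ord y B) + (univ : Finset κ).val.map m)) := by
  unfold mF
  have h1 : (fun z : Fin c × Fin l => Kd.ord (if z.1.1 < t then x else y) B) =
      fun z => if z.1.1 < t then Kd.ord x B else Kd.ord y B := by
    funext z
    split_ifs <;> rfl
  rw [map_elim, map_elim, h1, map_groups ht, map_unit, ← Multiset.singleton_add]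
  abel

/-- **CL2**: a plain cluster with members which vanish on all blocks of `I` except `i`. -/
theorem cl2 {D E l c J : ℕ} (hD : D ≤ d) (hE : 1 ≤ E) (hED : E ≤ D) (hl : 1 ≤ l)
    (hld : l + 1 ≤ d) (hi : i ∈ I) (hiB : i ∉ B) (hIB : I.erase i ⊆ B)
    (hBJ : insert i B ⊆ range J) (ms : Multiset Kd) (hok : ∀ k ∈ ms, k.Ok d J)
    (hm : ∀ k ∈ ms, NoD i k) :
    (c : ℤ) * HI d D β I (.cl (E + 1) 0 i (List.replicate l B ++ [B]) ::ₘ
      (Multiset.replicate ((c - 1) * l) (.ord (E + 1) B) + ms)) ≤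
    ((c : ℤ) - 1) * HI d D β I (.ord (E + 1) (insert i B) ::ₘ
      (Multiset.replicate (c * l) (.ord (E + 1) B) + ms)) +
    HI d D β I (.ord E (insert i B) ::ₘ (Multiset.replicate (c * l) (.ord (E + 1) B) + ms)) +
    (HI d (D - E) β I (.ord 1 (insert i B) ::ₘ (Multiset.replicate (c * l) (.ord 1 B) + ms)) +
    (∑ t ∈ range c, ∑ r ∈ range (D - E), rr l E (D - E - r) *
      HI d r β I (.ord 1 (insert i B) ::ₘ (Multiset.replicate ((t + 1) * l) (.ord 1 B) +
        (Multiset.replicate ((c - (t + 1)) * l) (.ord (E + 1) B) + ms))) +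
    c * ∑ r ∈ range (D - E), (rr l E (D - E - r) - 1) *
      HI d r (fun s : {s : ν // β s ≠ i} => β s.1) (I.erase i)
        ((Kd.ord 1 (insert i B) ::ₘ ms).bind (tri i)) : ℕ) : ℕ) := by
  obtain ⟨m, hm0, -⟩ := exists_conf (LS d D β I) ms
  have hmem : ∀ a, m a ∈ ms := by
    intro a
    rw [← hm0]
    exact Multiset.mem_map_of_mem _ (mem_univ a)
  have h := cl2_fam (β := β) (c := c) (l := l) hD hE hED hl hld hi hiB hIB hBJ m
    (fun a => hok _ (hmem a)) fun a => hm _ (hmem a)
  have h1 : ∀ t ∈ range c, ∀ r ∈ range (D - E), rr l E (D - E - r) *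
      HI d r β I ((univ : Finset (Fin ms.toList.length ⊕ ((Fin c × Fin l) ⊕ Unit))).val.map
        (mF m B i (fun x => if x.1.1 < t + 1 then 1 else E + 1) 1)) = rr l E (D - E - r) *
      HI d r β I (.ord 1 (insert i B) ::ₘ (Multiset.replicate ((t + 1) * l) (.ord 1 B) +
        (Multiset.replicate ((c - (t + 1)) * l) (.ord (E + 1) B) + ms))) := by
    intro t ht r _
    rw [map_mF' (mem_range.1 ht), hm0]
  rw [map_mF, map_mF, map_mF' le_rfl, sum_congr rfl fun t ht => sum_congr rfl (h1 t ht),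
    map_elim, map_unit, hm0, Nat.sub_self, zero_mul, Multiset.replicate_zero, zero_add,
    add_comm ms, Multiset.singleton_add] at h
  exact h

end

end Pool.Agent.GD.AL
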