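import Pool.Agent.GD.AL.AVs
import Pool.Agent.GD.AL.Cl1
import Pool.Agent.GD.AL.Tri

/-!
# General d, ALPHA, clusters: the contractions by the members of the groups (CL2, algebra)

`q b x`: the member `x < l` of the group `b < c`; `Qn q l b n = ∏_x (q b x)^(n x)`.
`Wt t s`: the solutions of degree `s` with the groups `b < t` killed and the other groups with the exponent
`E + 1`, and `yv` killed.  `Eb b s`: all contractions by powers of the direction `zv b` are solutions again.
`Ut t s`: all contractions by `Qn` of the groups `b ≥ t` are of the level `I`.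
-/

set_option autoImplicit false
set_option linter.unusedSectionVars false

namespace Pool.Agent.GD.AL

open Finset MvPolynomial Pool.Agent.H51.TB Pool.Agent.V7.ST
open Pool.Agent.V7 (msk)

/-- Image and kernel. -/
theorem rk2 {M N : Type} [AddCommGroup M] [Module ℂ M] [AddCommGroup N] [Module ℂ N]
    (U : Submodule ℂ M) [Module.Finite ℂ U] (T : M →ₗ[ℂ] N) :
    Module.finrank ℂ U = Module.finrank ℂ (U.map T) +
      Module.finrank ℂ (U ⊓ LinearMap.ker T : Submodule ℂ M) := by
  have h1 := LinearMap.finrank_range_add_finrank_ker (T.domRestrict U)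
  have h2 : LinearMap.range (T.domRestrict U) = U.map T := by
    ext x
    constructor
    · rintro ⟨y, rfl⟩
      exact ⟨y.1, y.2, rfl⟩
    · rintro ⟨y, hy, rfl⟩
      exact ⟨⟨y, hy⟩, rfl⟩
  have h3 : Module.finrank ℂ (LinearMap.ker (T.domRestrict U)) =
      Module.finrank ℂ (U ⊓ LinearMap.ker T : Submodule ℂ M) := by
    have h4 : (LinearMap.ker (T.domRestrict U)).map U.subtype = U ⊓ LinearMap.ker T := by
      ext x
      constructor
      · rintro ⟨y, hy, rfl⟩
        exact ⟨y.2, hy⟩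
      · rintro ⟨hx, hx'⟩
        exact ⟨⟨x, hx⟩, hx', rfl⟩
    rw [← h4]
    exact (Submodule.equivMapOfInjective _ (Submodule.subtype_injective U) _).finrank_eq
  rw [h2, h3] at h1
  exact h1.symm

/-- Finitely many maps. -/
theorem fin_step {M N α : Type} [AddCommGroup M] [Module ℂ M] [AddCommGroup N] [Module ℂ N]
    [DecidableEq α] (U : Submodule ℂ M) [Module.Finite ℂ U] (S : Finset α) (f : α → M →ₗ[ℂ] N)
    (W : α → Submodule ℂ N) (hW : ∀ x ∈ S, Module.Finite ℂ (W x)) (h : ∀ x ∈ S, ∀ G ∈ U, f x G ∈ W x) :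
    Module.finrank ℂ U ≤ Module.finrank ℂ (U ⊓ ⨅ x ∈ S, LinearMap.ker (f x) : Submodule ℂ M) +
      ∑ x ∈ S, Module.finrank ℂ (W x) := by
  induction S using Finset.induction_on with
  | empty =>
    have h1 : (⨅ x ∈ (∅ : Finset α), LinearMap.ker (f x)) = (⊤ : Submodule ℂ M) := by simp
    rw [sum_empty, add_zero, h1, inf_top_eq]
  | insert a S ha ih =>
    have h1 := ih (fun x hx => hW x (mem_insert_of_mem hx)) fun x hx => h x (mem_insert_of_mem hx)
    rw [sum_insert ha, Finset.iInf_insert]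
    have fV : Module.Finite ℂ (U ⊓ ⨅ x ∈ S, LinearMap.ker (f x) : Submodule ℂ M) :=
      Submodule.finiteDimensional_of_le inf_le_left
    have fW := hW a (mem_insert_self a S)
    have h2 := rk2 (U ⊓ ⨅ x ∈ S, LinearMap.ker (f x) : Submodule ℂ M) (f a)
    have h3 : Module.finrank ℂ ((U ⊓ ⨅ x ∈ S, LinearMap.ker (f x) : Submodule ℂ M).map (f a)) ≤
        Module.finrank ℂ (W a) := by
      refine Submodule.finrank_mono ?_
      rintro x ⟨G, hG, rfl⟩
      exact h a (mem_insert_self a S) G hG.1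
    have h4 : (U ⊓ ⨅ x ∈ S, LinearMap.ker (f x) : Submodule ℂ M) ⊓ LinearMap.ker (f a) =
        U ⊓ (LinearMap.ker (f a) ⊓ ⨅ x ∈ S, LinearMap.ker (f x)) := by
      rw [inf_assoc, inf_comm (⨅ x ∈ S, LinearMap.ker (f x))]
    rw [h4] at h2
    omega

section

variable {ν : Type} [Fintype ν] [DecidableEq ν] {d : ℕ}

/-- The exponents of degree `m` of the members of a group, at most `E`. -/
def Nm (l E m : ℕ) : Finset (ℕ → ℕ) :=
  (piAntidiag (range l) m).filter fun n => ∀ x ∈ range l, n x ≤ E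

theorem mem_Nm {l E m : ℕ} {n : ℕ → ℕ} : n ∈ Nm l E m ↔
    (∑ x ∈ range l, n x = m ∧ ∀ x, n x ≠ 0 → x < l) ∧ ∀ x < l, n x ≤ E := by
  unfold Nm
  rw [mem_filter, mem_piAntidiag]
  simp only [mem_range]

/-- The number of these exponents. -/
def rr (l E m : ℕ) : ℕ := (Nm l E m).card

/-- The product of the powers of the members of a group. -/
noncomputable def Qn (q : ℕ → ℕ → ν → ℂ) (l b : ℕ) (n : ℕ → ℕ) : MvPolynomial ν ℂ :=
  ∏ x ∈ range l, lf (q b x) ^ n x

variable {β : ν → ℕ} {I B : Finset ℕ} {i : ℕ} {q : ℕ → ℕ → ν → ℂ}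

theorem Lv_ct_Qn (hq : ∀ b x s, β s ∈ B → q b x s = 0) (l b : ℕ) (n : ℕ → ℕ) {D : ℕ} {G : Dl ν}
    (h : G ∈ Lv β (D + ∑ x ∈ range l, n x) I) (hI : I ∩ B = I.erase i) :
    ct (Qn q l b n) G ∈ Lv β D (I.erase i) := by
  have key : ∀ (l : ℕ) (D : ℕ), G ∈ Lv β (D + ∑ x ∈ range l, n x) I →
      ct (Qn q l b n) G ∈ Lv β D (I ∩ B) := by
    intro l
    induction l with
    | zero =>
      intro D h
      rw [sum_range_zero, add_zero] at h
      unfold Qn
      rw [prod_range_zero, ct_one]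
      exact Lv_mono inter_subset_left h
    | succ l ih =>
      intro D h
      unfold Qn
      rw [prod_range_succ, mul_comm, ct_mul]
      have h1 := ih (D + n l) (by
        rw [sum_range_succ] at h
        have e : D + n l + ∑ x ∈ range l, n x = D + (∑ x ∈ range l, n x + n l) := by ring
        rw [e]
        exact h)
      have h2 := Lv_ct_pow (q := q b l) (fun s hs => hq b l s hs) h1
      rw [inter_assoc, inter_self] at h2
      exact h2
  have h2 := key l D h
  rw [hI] at h2
  exact h2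

theorem Sat_ct_Qn (hq : ∀ b x s, β s ∈ B → q b x s = 0) (l b : ℕ) (n : ℕ → ℕ) {G : Dl ν} {k : Kd}
    {r : ν × Fin (d + 1) → ℂ} (h : Sat β I k r G) : Sat β (I ∩ B) k r (ct (Qn q l b n) G) := by
  induction l with
  | zero =>
    unfold Qn
    rw [prod_range_zero, ct_one]
    refine ⟨h.1, ?_⟩
    cases k with
    | ord e A => trivial
    | cl e dl i As => exact fun hi => h.2 (Finset.mem_inter.1 hi).1
  | succ l ih =>
    unfold Qn
    rw [prod_range_succ, mul_comm, ct_mul]
    have h2 := Sat_ct_pow (q := q b l) (fun s hs => hq b l s hs) ih (n l)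
    rw [inter_assoc, inter_self] at h2
    exact h2

/-- No additional conditions for the clusters created at `i`. -/
def NoD (i : ℕ) (k : Kd) : Prop := ∀ e dl As, k = .cl e dl i As → dl = 0

theorem sat_up {k : Kd} (hk : NoD i k) {r : ν × Fin (d + 1) → ℂ} {G : Dl ν}
    (h : Sat β (I.erase i) k r G) : Sat β I k r G := by
  refine ⟨h.1, ?_⟩
  cases k with
  | ord e A => trivial
  | cl e dl l As =>
    intro hl κ h1 h2 b hb
    by_cases hli : l = i
    · subst hli
      have h3 := hk e dl As rfl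
      omega
    · exact h.2 (mem_erase.2 ⟨hli, hl⟩) κ h1 h2 b hb

/-! ### The restriction to `L_i` -/

theorem rs_zero (hi : i ∈ I) {D : ℕ} {G : Dl ν} (h : G ∈ Lv β D I) : rsI β i G = 0 := by
  refine mon_ext fun b => ?_
  rw [rsI_apply, rename_mon Subtype.val_injective, h, LinearMap.zero_apply]
  intro h1
  obtain ⟨s, hs, h2⟩ := (mem_Ex.1 h1).2 i hi
  refine h2 (Function.extend_apply' _ _ _ ?_)
  rintro ⟨x, rfl⟩
  exact x.2 hs

theorem Lv_of_rs {D : ℕ} {G : Dl ν} (h : G ∈ Lv β D (I.erase i)) (h0 : rsI β i G = 0) :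
    G ∈ Lv β D I := by
  intro b hb
  by_cases h1 : b ∈ Ex β D (I.erase i)
  · have h2 : ∀ s, β s = i → b s = 0 := by
      by_contra hcon
      push Not at hcon
      obtain ⟨s, hs, hs'⟩ := hcon
      apply hb
      rw [mem_Ex] at h1 ⊢
      refine ⟨h1.1, fun l hl => ?_⟩
      by_cases hli : l = i
      · exact ⟨s, hli ▸ hs, hs'⟩
      · exact h1.2 l (mem_erase.2 ⟨hli, hl⟩)
    have h3 : rename Subtype.val (mon ℂ fun x : {s : ν // β s ≠ i} => b x.1) = mon ℂ b := by
      rw [rename_mon Subtype.val_injective]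
      congr 1
      funext s
      by_cases hs : β s ≠ i
      · exact Subtype.val_injective.extend_apply (fun x : {s : ν // β s ≠ i} => b x.1) 0 ⟨s, hs⟩
      · rw [not_not] at hs
        rw [Function.extend_apply' _ _ _ (by rintro ⟨x, rfl⟩; exact x.2 hs), h2 s hs]
        rfl
    have h4 := LinearMap.congr_fun h0 (mon ℂ fun x : {s : ν // β s ≠ i} => b x.1)
    rw [rsI_apply, h3] at h4
    exact h4
  · exact h b h1

/-! ### The spaces -/

variable (β I) {κ : Type} (m : κ → Kd) (p : κ → ν × Fin (d + 1) → ℂ) (E c l : ℕ)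
  (q : ℕ → ℕ → ν → ℂ) (yv : ν → ℂ)

/-- The solutions with the groups `b < t` killed. -/
noncomputable def Wt (t s : ℕ) : Submodule ℂ (Dl ν) :=
  XX β s I m p ⊓ ((⨅ b ∈ range c, ⨅ x ∈ range l,
    LinearMap.ker (ct (lf (q b x) ^ (if b < t then 1 else E + 1)))) ⊓ LinearMap.ker (ct (lf yv)))

/-- All contractions by the members of the groups `b ≥ t` are of the level `I`. -/
noncomputable def Ut (t s : ℕ) : Submodule ℂ (Dl ν) :=
  Wt β I m p E c l q yv t s ⊓ ⨅ b ∈ Ico t c, ⨅ k ∈ Icc 1 s, ⨅ n ∈ Nm l E k,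
    (Lv β (s - k) I).comap (ct (Qn q l b n))

/-- The direction of the tied member of the group `b`. -/
def zd (b : ℕ) (s : ν) : ℂ := - ∑ x ∈ range l, q b x s

/-- All contractions by powers of the direction are solutions. -/
noncomputable def Eb (b s : ℕ) : Submodule ℂ (Dl ν) :=
  ⨅ j ∈ range (s + 1), (Wt β I m p E c l q yv 0 (s - j)).comap (ct (lf (zd l q b) ^ j))

variable {β I m p E c l q yv}

theorem mem_Wt {t s : ℕ} {G : Dl ν} : G ∈ Wt β I m p E c l q yv t s ↔
    G ∈ XX β s I m p ∧ (∀ b < c, ∀ x < l, ct (lf (q b x) ^ (if b < t then 1 else E + 1)) G = 0) ∧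
      ct (lf yv) G = 0 := by
  unfold Wt
  rw [Submodule.mem_inf, Submodule.mem_inf, Submodule.mem_iInf]
  refine and_congr_right fun _ => and_congr ?_ Iff.rfl
  refine forall_congr' fun b => ?_
  rw [Submodule.mem_iInf, mem_range]
  refine forall_congr' fun _ => ?_
  rw [Submodule.mem_iInf]
  refine forall_congr' fun x => ?_
  rw [Submodule.mem_iInf, mem_range]
  rfl

theorem mem_Ut {t s : ℕ} {G : Dl ν} : G ∈ Ut β I m p E c l q yv t s ↔
    G ∈ Wt β I m p E c l q yv t s ∧ ∀ b, t ≤ b → b < c → ∀ k, 1 ≤ k → k ≤ s → ∀ n ∈ Nm l E k,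
      ct (Qn q l b n) G ∈ Lv β (s - k) I := by
  unfold Ut
  rw [Submodule.mem_inf, Submodule.mem_iInf]
  refine and_congr_right fun _ => ?_
  refine forall_congr' fun b => ?_
  rw [Submodule.mem_iInf, mem_Ico, and_imp]
  refine forall_congr' fun _ => forall_congr' fun _ => ?_
  rw [Submodule.mem_iInf]
  refine forall_congr' fun k => ?_
  rw [Submodule.mem_iInf, mem_Icc, and_imp]
  refine forall_congr' fun _ => forall_congr' fun _ => ?_
  rw [Submodule.mem_iInf]
  refine forall_congr' fun n => ?_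
  rw [Submodule.mem_iInf]
  rfl

theorem mem_Eb {b s : ℕ} {G : Dl ν} : G ∈ Eb β I m p E c l q yv b s ↔
    ∀ j ≤ s, ct (lf (zd l q b) ^ j) G ∈ Wt β I m p E c l q yv 0 (s - j) := by
  unfold Eb
  rw [Submodule.mem_iInf]
  refine forall_congr' fun j => ?_
  rw [Submodule.mem_iInf, mem_range, Nat.lt_succ_iff]
  rfl

theorem finite_Wt (t s : ℕ) : Module.Finite ℂ (Wt β I m p E c l q yv t s) := by
  have := finite_XX β s I m p
  exact Submodule.finiteDimensional_of_le inf_le_left

theorem finite_Ut (t s : ℕ) : Module.Finite ℂ (Ut β I m p E c l q yv t s) := by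
  have := finite_Wt (β := β) (I := I) (m := m) (p := p) (E := E) (c := c) (l := l) (q := q)
    (yv := yv) t s
  exact Submodule.finiteDimensional_of_le inf_le_left

/-- One more factor. -/
theorem Qn_mul {l' b x : ℕ} (hx : x < l') (n : ℕ → ℕ) :
    lf (q b x) * Qn q l' b n = Qn q l' b (n + (Pi.single x 1 : ℕ → ℕ)) := by
  unfold Qn
  have h1 : ∀ y ∈ range l', lf (q b y) ^ ((n + (Pi.single x 1 : ℕ → ℕ)) y) =
      lf (q b y) ^ n y * if y = x then lf (q b x) else 1 := by
    intro y _
    rw [Pi.add_apply, pow_add]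
    congr 1
    by_cases h : y = x
    · subst h
      rw [if_pos rfl, Pi.single_eq_same, pow_one]
    · rw [if_neg h, Pi.single_eq_of_ne h, pow_zero]
  rw [prod_congr rfl h1, prod_mul_distrib, prod_ite_eq' (range l') x fun _ => lf (q b x),
    if_pos (mem_range.2 hx), mul_comm]

/-- A high exponent. -/
theorem Qn_zero {l' b x : ℕ} (hx : x < l') {n : ℕ → ℕ} {e : ℕ} (hn : e ≤ n x) {G : Dl ν}
    (h : ct (lf (q b x) ^ e) G = 0) : ct (Qn q l' b n) G = 0 := by
  unfold Qn
  rw [← mul_prod_erase _ _ (mem_range.2 hx)]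
  have h1 : lf (q b x) ^ n x = lf (q b x) ^ (n x - e) * lf (q b x) ^ e := by
    rw [← pow_add]
    congr 1
    omega
  rw [h1]
  have h2 : lf (q b x) ^ (n x - e) * lf (q b x) ^ e * ∏ x ∈ (range l').erase x, lf (q b x) ^ n x =
      (lf (q b x) ^ (n x - e) * ∏ x ∈ (range l').erase x, lf (q b x) ^ n x) * lf (q b x) ^ e := by
    ring
  rw [h2, ct_mul, h, map_zero]

theorem Qn_single {l' b x : ℕ} (hx : x < l') : Qn q l' b (Pi.single x 1 : ℕ → ℕ) = lf (q b x) := by
  have h1 := Qn_mul (q := q) (b := b) hx 0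
  rw [zero_add] at h1
  rw [← h1]
  unfold Qn
  rw [prod_eq_one fun y _ => by rw [Pi.zero_apply, pow_zero], mul_one]

/-- The degree and the conditions of a contraction. -/
theorem XX_ct_Qn (hq : ∀ b x s, β s ∈ B → q b x s = 0) (hI : I ∩ B = I.erase i) {b s k : ℕ}
    (hk : k ≤ s) {n : ℕ → ℕ} (hn : n ∈ Nm l E k) {G : Dl ν} (h : G ∈ XX β s I m p) :
    ct (Qn q l b n) G ∈ XX β (s - k) (I.erase i) m p := by
  rw [mem_XX] at h ⊢
  refine ⟨Lv_ct_Qn hq l b n ?_ hI, fun a => ?_⟩
  · rw [(mem_Nm.1 hn).1.1, Nat.sub_add_cancel hk]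
    exact h.1
  · rw [← hI]
    exact Sat_ct_Qn hq l b n (h.2 a)

/-- The recursion for the members of the group `t`. -/
noncomputable def Vx (β : ν → ℕ) (I : Finset ℕ) {κ : Type} (m : κ → Kd)
    (p : κ → ν × Fin (d + 1) → ℂ) (E c l : ℕ) (q : ℕ → ℕ → ν → ℂ) (yv : ν → ℂ) (t s : ℕ) :
    ℕ → Submodule ℂ (Dl ν)
  | 0 => Ut β I m p E c l q yv t s
  | r + 1 => Vx β I m p E c l q yv t s r ⊓ ⨅ n ∈ Nm l E (s - r), LinearMap.ker (ct (Qn q l t n))

theorem mem_Vx {t s r : ℕ} {G : Dl ν} : G ∈ Vx β I m p E c l q yv t s r ↔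
    G ∈ Ut β I m p E c l q yv t s ∧ ∀ r' < r, ∀ n ∈ Nm l E (s - r'), ct (Qn q l t n) G = 0 := by
  induction r with
  | zero => exact ⟨fun h => ⟨h, fun r' hr => absurd hr (Nat.not_lt_zero r')⟩, fun h => h.1⟩
  | succ r ih =>
    have h0 : G ∈ Vx β I m p E c l q yv t s (r + 1) ↔ G ∈ Vx β I m p E c l q yv t s r ∧
        ∀ n ∈ Nm l E (s - r), ct (Qn q l t n) G = 0 := by
      show G ∈ Vx β I m p E c l q yv t s r ⊓ ⨅ n ∈ Nm l E (s - r),
        LinearMap.ker (ct (Qn q l t n)) ↔ _
      rw [Submodule.mem_inf, Submodule.mem_iInf]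
      refine and_congr_right fun _ => forall_congr' fun n => ?_
      rw [Submodule.mem_iInf]
      rfl
    rw [h0, ih]
    constructor
    · rintro ⟨⟨h1, h2⟩, h3⟩
      refine ⟨h1, fun r' hr' => ?_⟩
      rcases Nat.lt_succ_iff_lt_or_eq.1 hr' with h4 | rfl
      · exact h2 r' h4
      · exact h3
    · rintro ⟨h1, h2⟩
      exact ⟨⟨h1, fun r' hr' => h2 r' (by omega)⟩, h2 r (by omega)⟩

theorem Vx_ct (hq : ∀ b x s, β s ∈ B → q b x s = 0) (hI : I ∩ B = I.erase i)
    (hm : ∀ a, NoD i (m a)) {t s r : ℕ} (ht : t < c) (hr : r < s) {n : ℕ → ℕ}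
    (hn : n ∈ Nm l E (s - r)) {G : Dl ν} (h : G ∈ Vx β I m p E c l q yv t s r) :
    ct (Qn q l t n) G ∈ Wt β I m p E c l q yv (t + 1) r := by
  obtain ⟨hU, hV⟩ := mem_Vx.1 h
  obtain ⟨hW, hU'⟩ := mem_Ut.1 hU
  obtain ⟨hX, hg, hy⟩ := mem_Wt.1 hW
  have hsr : s - (s - r) = r := by omega
  have h1 := XX_ct_Qn (b := t) hq hI (Nat.sub_le s r) hn hX
  rw [hsr, mem_XX] at h1
  have h2 := hU' t le_rfl ht (s - r) (by omega) (Nat.sub_le s r) n hn
  rw [hsr] at h2
  refine mem_Wt.2 ⟨mem_XX.2 ⟨h2, fun a => sat_up (hm a) (h1.2 a)⟩, fun b hb x hx => ?_, ?_⟩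
  · rcases Nat.lt_trichotomy b t with hbt | hbt | hbt
    · rw [if_pos (by omega), ct_comm]
      have h3 := hg b hb x hx
      rw [if_pos hbt] at h3
      rw [h3, map_zero]
    · subst hbt
      rw [if_pos (by omega), pow_one]
      obtain ⟨⟨hn1, hn2⟩, hn3⟩ := mem_Nm.1 hn
      by_cases hE : n x + 1 ≤ E
      · rcases Nat.eq_zero_or_pos r with h0 | h0
        · rw [h0] at h2
          exact Lv_zero_ct _ h2
        · rw [← ct_mul, Qn_mul hx]
          refine hV (r - 1) (by omega) _ (mem_Nm.2 ⟨⟨?_, fun y hy => ?_⟩, fun y hy => ?_⟩)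
          · have h4 : ∑ y ∈ range l, (Pi.single x 1 : ℕ → ℕ) y = 1 := by
              rw [sum_eq_single x]
              · exact Pi.single_eq_same _ _
              · intro y _ hyx
                exact Pi.single_eq_of_ne hyx _
              · intro h5
                exact absurd (mem_range.2 hx) h5
            simp only [Pi.add_apply]
            rw [sum_add_distrib, hn1, h4]
            omega
          · by_cases hyx : y = x
            · rw [hyx]; exact hx
            · rw [Pi.add_apply, Pi.single_eq_of_ne hyx, add_zero] at hy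
              exact hn2 y hy
          · by_cases hyx : y = x
            · subst hyx
              rw [Pi.add_apply, Pi.single_eq_same]
              exact hE
            · rw [Pi.add_apply, Pi.single_eq_of_ne hyx, add_zero]
              exact hn3 y hy
      · rw [← ct_mul, Qn_mul hx]
        have h3 := hg b hb x hx
        rw [if_neg (lt_irrefl b)] at h3
        refine Qn_zero hx (e := E + 1) ?_ h3
        rw [Pi.add_apply, Pi.single_eq_same]
        omega
    · rw [if_neg (by omega), ct_comm]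
      have h3 := hg b hb x hx
      rw [if_neg (by omega)] at h3
      rw [h3, map_zero]
  · rw [ct_comm, hy, map_zero]

theorem Vx_sum (hq : ∀ b x s, β s ∈ B → q b x s = 0) (hI : I ∩ B = I.erase i)
    (hm : ∀ a, NoD i (m a)) {t s : ℕ} (ht : t < c) (r : ℕ) (hr : r ≤ s) :
    Module.finrank ℂ (Ut β I m p E c l q yv t s) ≤
      Module.finrank ℂ (Vx β I m p E c l q yv t s r) +
        ∑ r' ∈ range r, rr l E (s - r') * Module.finrank ℂ (Wt β I m p E c l q yv (t + 1) r') := by
  classical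
  induction r with
  | zero => rw [sum_range_zero, add_zero]; exact le_rfl
  | succ r ih =>
    rw [sum_range_succ]
    have f1 : Module.Finite ℂ (Vx β I m p E c l q yv t s r) := by
      have := finite_Ut (β := β) (I := I) (m := m) (p := p) (E := E) (c := c) (l := l) (q := q)
        (yv := yv) t s
      exact Submodule.finiteDimensional_of_le fun G hG => (mem_Vx.1 hG).1
    have h1 := fin_step (Vx β I m p E c l q yv t s r) (Nm l E (s - r)) (fun n => ct (Qn q l t n))
      (fun _ => Wt β I m p E c l q yv (t + 1) r) (fun _ _ => finite_Wt (t + 1) r)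
      (fun n hn G hG => Vx_ct hq hI hm ht (by omega) hn hG)
    rw [sum_const, smul_eq_mul] at h1
    have h2 := ih (by omega)
    have h3 : Module.finrank ℂ (Vx β I m p E c l q yv t s (r + 1)) =
      Module.finrank ℂ (Vx β I m p E c l q yv t s r ⊓ ⨅ n ∈ Nm l E (s - r),
        LinearMap.ker (ct (Qn q l t n)) : Submodule ℂ (Dl ν)) := rfl
    unfold rr at *
    omega

/-- **One group.** -/
theorem Ut_step (hE : 1 ≤ E) (hq : ∀ b x s, β s ∈ B → q b x s = 0) (hI : I ∩ B = I.erase i)
    (hm : ∀ a, NoD i (m a)) {t s : ℕ} (ht : t < c) :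
    Module.finrank ℂ (Ut β I m p E c l q yv t s) ≤
      Module.finrank ℂ (Ut β I m p E c l q yv (t + 1) s) +
        ∑ r ∈ range s, rr l E (s - r) * Module.finrank ℂ (Wt β I m p E c l q yv (t + 1) r) := by
  refine (Vx_sum hq hI hm ht s le_rfl).trans (Nat.add_le_add_right ?_ _)
  have := finite_Ut (β := β) (I := I) (m := m) (p := p) (E := E) (c := c) (l := l) (q := q)
        (yv := yv) (t + 1) s
  refine Submodule.finrank_mono ?_
  intro G hG
  obtain ⟨hU, hV⟩ := mem_Vx.1 hG
  obtain ⟨hW, hU'⟩ := mem_Ut.1 hU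
  obtain ⟨hX, hg, hy⟩ := mem_Wt.1 hW
  refine mem_Ut.2 ⟨mem_Wt.2 ⟨hX, fun b hb x hx => ?_, hy⟩, fun b hb => hU' b (by omega)⟩
  rcases Nat.lt_trichotomy b t with hbt | hbt | hbt
  · rw [if_pos (by omega)]
    have h3 := hg b hb x hx
    rw [if_pos hbt] at h3
    exact h3
  · subst hbt
    rw [if_pos (by omega), pow_one]
    rcases Nat.eq_zero_or_pos s with h0 | h0
    · subst h0
      exact Lv_zero_ct _ (mem_XX.1 hX).1
    · have h3 := hV (s - 1) (by omega) (Pi.single x 1) (mem_Nm.2 ⟨⟨?_, fun y hy => ?_⟩,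
        fun y _ => ?_⟩)
      · rw [Qn_single hx] at h3
        exact h3
      · rw [sum_eq_single x]
        · rw [Pi.single_eq_same]
          omega
        · intro y _ hyx
          exact Pi.single_eq_of_ne hyx _
        · intro h5
          exact absurd (mem_range.2 hx) h5
      · by_cases hyx : y = x
        · rw [hyx]; exact hx
        · exact absurd (Pi.single_eq_of_ne hyx _) hy
      · by_cases hyx : y = x
        · subst hyx
          rw [Pi.single_eq_same]
          exact hE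
        · rw [Pi.single_eq_of_ne hyx]
          exact Nat.zero_le _
  · rw [if_neg (by omega)]
    have h3 := hg b hb x hx
    rw [if_neg (by omega)] at h3
    exact h3

/-- All groups. -/
theorem Ut_all (hE : 1 ≤ E) (hq : ∀ b x s, β s ∈ B → q b x s = 0) (hI : I ∩ B = I.erase i)
    (hm : ∀ a, NoD i (m a)) {s : ℕ} (t : ℕ) (ht : t ≤ c) :
    Module.finrank ℂ (Ut β I m p E c l q yv 0 s) ≤
      Module.finrank ℂ (Ut β I m p E c l q yv t s) + ∑ u ∈ range t,
        ∑ r ∈ range s, rr l E (s - r) * Module.finrank ℂ (Wt β I m p E c l q yv (u + 1) r) := by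
  induction t with
  | zero => rw [sum_range_zero, add_zero]
  | succ t ih =>
    rw [sum_range_succ]
    have h1 := ih (by omega)
    have h2 := Ut_step (yv := yv) (s := s) (l := l) (p := p) hE hq hI hm (t := t) (c := c) (by omega)
    omega

end

end Pool.Agent.GD.AL
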