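import Pool.Agent.GD.AL.Cl2a

/-!
# General d, ALPHA, clusters: the intersection of the spaces `Eb` (CL2, codimension)
-/

set_option autoImplicit false
set_option linter.unusedSectionVars false

namespace Pool.Agent.GD.AL

open Finset MvPolynomial Pool.Agent.H51.TB Pool.Agent.V7.ST
open Pool.Agent.V7 (msk)

section

variable {ν : Type} [Fintype ν] [DecidableEq ν] {d : ℕ}
variable {β : ν → ℕ} {I B : Finset ℕ} {i : ℕ} {κ : Type} {m : κ → Kd}
  {p : κ → ν × Fin (d + 1) → ℂ} {E c l : ℕ} {q : ℕ → ℕ → ν → ℂ} {yv : ν → ℂ}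

theorem lf_zd (b : ℕ) : lf (zd l q b) = (-1 : ℂ) • ∑ x ∈ range l, lf (q b x) := by
  rw [← GD.lf_sum, ← lf_smul]
  congr 1
  funext s
  rw [Pi.smul_apply, smul_eq_mul, neg_one_mul]
  rfl

/-- The contraction by a power of the direction. -/
theorem ct_zd_pow {b k : ℕ} {G : Dl ν} (h : ∀ x < l, ct (lf (q b x) ^ (E + 1)) G = 0) :
    ct (lf (zd l q b) ^ k) G = ((-1 : ℂ) ^ k) • ∑ n ∈ Nm l E k,
      (Nat.multinomial (range l) n : ℂ) • ct (Qn q l b n) G := by
  rw [lf_zd, smul_pow, ct_smul, sum_pow_eq_sum_piAntidiag]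
  congr 1
  have h1 : ∀ n ∈ piAntidiag (range l) k, ct ((Nat.multinomial (range l) n : MvPolynomial ν ℂ) *
      ∏ x ∈ range l, lf (q b x) ^ n x) G =
      (Nat.multinomial (range l) n : ℂ) • ct (Qn q l b n) G := by
    intro n _
    rw [show (Nat.multinomial (range l) n : MvPolynomial ν ℂ) * ∏ x ∈ range l, lf (q b x) ^ n x =
      (Nat.multinomial (range l) n : ℂ) • Qn q l b n by
        rw [smul_eq_C_mul, map_natCast]
        rfl, ct_smul]
  rw [ct_sum, sum_congr rfl h1]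
  symm
  refine sum_subset (filter_subset _ _) fun n hn hn' => ?_
  have h2 : ∃ x < l, E + 1 ≤ n x := by
    by_contra hcon
    push Not at hcon
    refine hn' (mem_filter.2 ⟨hn, fun x hx => ?_⟩)
    have h3 := hcon x (mem_range.1 hx)
    omega
  obtain ⟨x, hx, hx'⟩ := h2
  rw [Qn_zero hx hx' (h x hx), smul_zero]

/-- The relation between the restrictions of the contractions of degree `k`. -/
theorem rel_Eb (hi : i ∈ I) {b s k : ℕ} (hb : b < c) (hk : k ≤ s) {G : Dl ν}
    (h : G ∈ Eb β I m p E c l q yv b s) :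
    ∑ n ∈ Nm l E k, (Nat.multinomial (range l) n : ℂ) • rsI β i (ct (Qn q l b n) G) = 0 := by
  have h0 := mem_Eb.1 h 0 (Nat.zero_le _)
  rw [pow_zero, ct_one, Nat.sub_zero] at h0
  have h1 : ∀ x < l, ct (lf (q b x) ^ (E + 1)) G = 0 := fun x hx => by
    have h2 := (mem_Wt.1 h0).2.1 b hb x hx
    rwa [if_neg (Nat.not_lt_zero b)] at h2
  have h2 := rs_zero (i := i) hi (mem_XX.1 (mem_Wt.1 (mem_Eb.1 h k hk)).1).1
  rw [ct_zd_pow h1, map_smul, map_sum] at h2
  have h3 := (smul_eq_zero.1 h2).resolve_left (pow_ne_zero _ (neg_ne_zero.2 one_ne_zero))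
  rw [← h3]
  exact sum_congr rfl fun n _ => (map_smul _ _ _).symm

/-- **The codimension.** -/
theorem Eb_codim {J : ℕ} (hi : i ∈ I) (hq : ∀ b x s, β s ∈ B → q b x s = 0)
    (hI : I ∩ B = I.erase i) (hok : ∀ a, (m a).Ok d J)
    {y : ν × Fin (d + 1) → ℂ} (hy : yv = opt β (insert i B) y) (hBJ : insert i B ⊆ range J)
    (hd : 1 ≤ d) {s : ℕ} (U : Submodule ℂ (Dl ν)) (hUf : Module.Finite ℂ U)
    (hU : ∀ G ∈ U, G ∈ Wt β I m p E c l q yv 0 s ∧ ∀ b < c, G ∈ Eb β I m p E c l q yv b s) :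
    Module.finrank ℂ U ≤ Module.finrank ℂ (Ut β I m p E c l q yv 0 s) +
      c * ∑ r ∈ range s, (rr l E (s - r) - 1) * Module.finrank ℂ (TX β i r (I.erase i)
        (Sum.elim m fun _ : Unit => Kd.ord 1 (insert i B)) (Sum.elim p fun _ : Unit => y)) := by
  classical
  have hii : i ∉ I.erase i := fun h => (mem_erase.1 h).1 rfl
  -- a distinguished exponent
  have hn0 : ∀ r, ∃ n₀ : ℕ → ℕ, (Nm l E (s - r)).Nonempty → n₀ ∈ Nm l E (s - r) := by
    intro r
    by_cases h : (Nm l E (s - r)).Nonempty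
    · obtain ⟨n₀, hn₀⟩ := h
      exact ⟨n₀, fun _ => hn₀⟩
    · exact ⟨0, fun h' => absurd h' h⟩
  choose n₀ hn₀ using hn0
  set TXr : ℕ → Submodule ℂ (Dl {s : ν // β s ≠ i}) := fun r => TX β i r (I.erase i)
    (Sum.elim m fun _ : Unit => Kd.ord 1 (insert i B)) (Sum.elim p fun _ : Unit => y) with hTX
  have hTXf : ∀ r, Module.Finite ℂ (TXr r) := by
    intro r
    have := finite_Lv (fun s : {s : ν // β s ≠ i} => β s.1) r (I.erase i)
    exact Submodule.finiteDimensional_of_le inf_le_left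
  let S : Finset (Σ _ : ℕ × ℕ, ℕ → ℕ) :=
    (range c ×ˢ range s).sigma fun x => (Nm l E (s - x.2)).erase (n₀ x.2)
  have h1 := fin_step U S (fun x => rsI β i ∘ₗ ct (Qn q l x.1.1 x.2)) (fun x => TXr x.1.2)
    (fun x _ => hTXf x.1.2) (by
      rintro ⟨⟨b, r⟩, n⟩ hx G hG
      obtain ⟨hbr, hn⟩ := mem_sigma.1 hx
      obtain ⟨hb, hr⟩ := mem_product.1 hbr
      have hb' : b < c := mem_range.1 hb
      have hr' : r < s := mem_range.1 hr
      have hn' : n ∈ Nm l E (s - r) := mem_of_mem_erase hn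
      have h2 := mem_Wt.1 (hU G hG).1
      have h3 := XX_ct_Qn (b := b) hq hI (Nat.sub_le s r) hn' h2.1
      have h4 : s - (s - r) = r := by omega
      rw [h4, mem_XX] at h3
      show rsI β i (ct (Qn q l b n) G) ∈ TXr r
      refine rs_XX (J := J) hii ?_ (mem_XX.2 ⟨h3.1, ?_⟩)
      · rintro (a | a)
        · exact hok a
        · exact ⟨le_rfl, hd, hBJ⟩
      · rintro (a | a)
        · exact h3.2 a
        · show Sat β (I.erase i) (.ord 1 (insert i B)) y (ct (Qn q l b n) G)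
          rw [sat_ord, pow_one, ← hy, ct_comm, h2.2.2, map_zero])
  have h2 : ∑ x ∈ S, Module.finrank ℂ (TXr x.1.2) =
      c * ∑ r ∈ range s, (rr l E (s - r) - 1) * Module.finrank ℂ (TXr r) := by
    rw [sum_sigma, sum_product]
    have h3 : ∀ b ∈ range c, ∑ r ∈ range s, ∑ _n ∈ (Nm l E (s - r)).erase (n₀ r),
        Module.finrank ℂ (TXr r) = ∑ r ∈ range s, (rr l E (s - r) - 1) *
          Module.finrank ℂ (TXr r) := by
      intro b _
      refine sum_congr rfl fun r _ => ?_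
      rw [sum_const, smul_eq_mul]
      congr 1
      by_cases h : (Nm l E (s - r)).Nonempty
      · exact card_erase_of_mem (hn₀ r h)
      · rw [not_nonempty_iff_eq_empty] at h
        unfold rr
        rw [h, erase_empty, card_empty]
    rw [sum_congr rfl h3, sum_const, card_range, smul_eq_mul]
  rw [h2] at h1
  refine h1.trans (Nat.add_le_add_right ?_ _)
  have := finite_Ut (β := β) (I := I) (m := m) (p := p) (E := E) (c := c) (l := l) (q := q)
        (yv := yv) 0 s
  refine Submodule.finrank_mono ?_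
  rintro G ⟨hG, hG'⟩
  have hW := (hU G hG).1
  refine mem_Ut.2 ⟨hW, fun b _ hb k hk1 hk2 n hn => ?_⟩
  have hker : ∀ r < s, ∀ n ∈ Nm l E (s - r), n ≠ n₀ r → rsI β i (ct (Qn q l b n) G) = 0 := by
    intro r hr n hn hne
    rw [SetLike.mem_coe, Submodule.mem_iInf] at hG'
    have h3 := hG' ⟨(b, r), n⟩
    rw [Submodule.mem_iInf] at h3
    exact h3 (mem_sigma.2 ⟨mem_product.2 ⟨mem_range.2 hb, mem_range.2 hr⟩, mem_erase.2 ⟨hne, hn⟩⟩)
  set r := s - k with hr
  have hrs : r < s := by omega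
  have hk : s - r = k := by omega
  have h0 : rsI β i (ct (Qn q l b n) G) = 0 := by
    by_cases hne : n = n₀ r
    · have h3 := rel_Eb hi hb hk2 ((hU G hG).2 b hb)
      rw [sum_eq_single n] at h3
      · refine (smul_eq_zero.1 h3).resolve_left (Nat.cast_ne_zero.2 ?_)
        exact (Nat.multinomial_pos _ _).ne'
      · intro n' hn' hne'
        rw [hker r hrs n' (by rw [hk]; exact hn') (by rw [← hne]; exact hne'), smul_zero]
      · intro h4
        exact absurd hn h4
    · exact hker r hrs n (by rw [hk]; exact hn) hne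
  exact Lv_of_rs (mem_XX.1 (XX_ct_Qn (b := b) hq hI hk2 hn (mem_Wt.1 hW).1)).1 h0

end

end Pool.Agent.GD.AL
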