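import Pool.Agent.GD.AL.Cl2
import Pool.Agent.GD.AL.Bas
import Pool.Agent.GD.ST.Add

/-!
# General d, ALPHA, clusters: CL2, the virtual dimensions

The power series of the numbers `rr l E m`, and the virtual version of `cl2`, which is an equality.
-/

set_option autoImplicit false
set_option linter.unusedSectionVars false

namespace Pool.Agent.GD.AL

open Finset

/-! ### The power series of the numbers of the exponents -/

/-- The truncated geometric series. -/
noncomputable def geo (E : ℕ) : PowerSeries ℤ := ∑ k ∈ range (E + 1), PowerSeries.X ^ k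

theorem one_sub_mul_geo (E : ℕ) : (1 - PowerSeries.X) * geo E = 1 - PowerSeries.X ^ (E + 1) := by
  unfold geo
  rw [mul_comm, geom_sum_mul_neg]

theorem coeff_geo (E m : ℕ) : PowerSeries.coeff m (geo E) = if m ≤ E then 1 else 0 := by
  unfold geo
  rw [map_sum]
  simp only [PowerSeries.coeff_X_pow]
  rw [Finset.sum_ite_eq]
  simp only [mem_range, Nat.lt_succ_iff]

/-- The generating function. -/
noncomputable def Phi (l E : ℕ) : PowerSeries ℤ := PowerSeries.mk fun m => (rr l E m : ℤ)

theorem Phi_eq (l E : ℕ) : Phi l E = geo E ^ l := by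
  classical
  have h0 : geo E ^ l = ∏ _x ∈ range l, geo E := by rw [prod_const, card_range]
  ext m
  unfold Phi
  rw [PowerSeries.coeff_mk, h0, PowerSeries.coeff_prod]
  simp only [coeff_geo]
  have h1 : ∀ α : ℕ →₀ ℕ, ∏ i ∈ range l, (if α i ≤ E then (1 : ℤ) else 0) =
      if ∀ x ∈ range l, α x ≤ E then 1 else 0 := by
    intro α
    rw [prod_ite_zero, prod_const_one]
  rw [sum_congr rfl fun α _ => h1 α, ← Finset.natCast_card_filter]
  norm_cast
  unfold rr
  symm
  refine card_bij (fun (α : ℕ →₀ ℕ) _ => (⇑α : ℕ → ℕ)) ?_ ?_ ?_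
  · intro α hα
    rw [mem_filter, mem_finsuppAntidiag] at hα
    rw [mem_Nm]
    refine ⟨⟨hα.1.1, fun x hx => mem_range.1 (hα.1.2 (Finsupp.mem_support_iff.2 hx))⟩,
      fun x hx => hα.2 x (mem_range.2 hx)⟩
  · intro α _ β _ h
    exact DFunLike.coe_injective h
  · intro f hf
    rw [mem_Nm] at hf
    refine ⟨Finsupp.onFinset (range l) f fun x hx => mem_range.2 (hf.1.2 x hx), ?_, ?_⟩
    · rw [mem_filter, mem_finsuppAntidiag]
      refine ⟨⟨hf.1.1, Finsupp.support_onFinset_subset⟩, fun x hx => hf.2 x (mem_range.1 hx)⟩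
    · funext x
      rfl

theorem Phi_mul (l E : ℕ) : Phi l E * (1 - PowerSeries.X) ^ l = (1 - PowerSeries.X ^ (E + 1)) ^ l := by
  rw [Phi_eq, ← mul_pow, mul_comm, one_sub_mul_geo]

theorem rr_zero (l E : ℕ) : rr l E 0 = 1 := by
  have h1 : PowerSeries.coeff 0 (Phi l E) = 1 := by
    rw [Phi_eq, PowerSeries.coeff_zero_eq_constantCoeff, map_pow,
      ← PowerSeries.coeff_zero_eq_constantCoeff_apply, coeff_geo, if_pos (Nat.zero_le _), one_pow]
  unfold Phi at h1
  rw [PowerSeries.coeff_mk] at h1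
  exact_mod_cast h1

theorem rr_pos {l E m : ℕ} (h : m ≤ l * E) : 1 ≤ rr l E m := by
  have key : ∀ (l m : ℕ), m ≤ l * E → ∃ n, n ∈ Nm l E m := by
    intro l
    induction l with
    | zero =>
      intro m hm
      rw [Nat.zero_mul] at hm
      refine ⟨fun _ => 0, mem_Nm.2 ⟨⟨?_, fun x hx => absurd rfl hx⟩, fun x hx => by omega⟩⟩
      rw [range_zero, sum_empty]
      omega
    | succ l ih =>
      intro m hm
      obtain ⟨n, hn⟩ := ih (m - min E m) (by
        rw [Nat.succ_mul] at hm
        omega)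
      rw [mem_Nm] at hn
      have hl : n l = 0 := by
        by_contra h0
        exact lt_irrefl l (hn.1.2 l h0)
      refine ⟨Function.update n l (min E m), mem_Nm.2 ⟨⟨?_, ?_⟩, ?_⟩⟩
      · rw [sum_range_succ, Function.update_self]
        have h1 : ∑ x ∈ range l, Function.update n l (min E m) x = ∑ x ∈ range l, n x :=
          sum_congr rfl fun x hx => Function.update_of_ne (by
            have := mem_range.1 hx
            omega) _ _
        rw [h1, hn.1.1]
        omega
      · intro x hx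
        by_cases hxl : x = l
        · omega
        · rw [Function.update_of_ne hxl] at hx
          have := hn.1.2 x hx
          omega
      · intro x hx
        by_cases hxl : x = l
        · rw [hxl, Function.update_self]
          omega
        · rw [Function.update_of_ne hxl]
          exact hn.2 x (by omega)
  obtain ⟨n, hn⟩ := key l m h
  exact card_pos.2 ⟨n, hn⟩

theorem rr_big {l E m : ℕ} (h : l * E < m) : rr l E m = 0 := by
  unfold rr
  rw [card_eq_zero]
  refine eq_empty_of_forall_notMem fun n hn => ?_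
  rw [mem_Nm] at hn
  have h1 : ∑ x ∈ range l, n x ≤ ∑ _x ∈ range l, E := sum_le_sum fun x hx => hn.2 x (mem_range.1 hx)
  rw [sum_const, card_range, smul_eq_mul, hn.1.1] at h1
  omega

/-- A sequence without its first entry. -/
noncomputable def no0 (a : ℕ → ℤ) : PowerSeries ℤ := PowerSeries.mk fun m => if m = 0 then 0 else a m

theorem conv (a : ℕ → ℤ) (N : ℕ) (F : PowerSeries ℤ) :
    ∑ r ∈ range N, a (N - r) * PowerSeries.coeff r F = PowerSeries.coeff N (no0 a * F) := by
  rw [PowerSeries.coeff_mul, Finset.Nat.sum_antidiagonal_eq_sum_range_succ_mk, sum_range_succ']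
  unfold no0
  simp only [PowerSeries.coeff_mk]
  rw [if_pos trivial, zero_mul, add_zero, ← sum_range_reflect]
  refine sum_congr rfl fun r hr => ?_
  rw [mem_range] at hr
  rw [if_neg (Nat.succ_ne_zero r)]
  congr 2
  · omega
  · congr 1
    omega

theorem Phi_no0 (l E : ℕ) : no0 (fun m => (rr l E m : ℤ)) = Phi l E - 1 := by
  ext m
  unfold no0 Phi
  rw [map_sub, PowerSeries.coeff_mk, PowerSeries.coeff_mk, PowerSeries.coeff_one]
  by_cases h : m = 0
  · rw [if_pos h, if_pos h, h, rr_zero]
    norm_num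
  · rw [if_neg h, if_neg h, sub_zero]

theorem Psi_no0 (l E : ℕ) : (1 - PowerSeries.X) * (Phi l E - 1 -
    no0 (fun m => ((rr l E m - 1 : ℕ) : ℤ))) = PowerSeries.X - PowerSeries.X ^ (l * E + 1) := by
  have h1 : Phi l E - 1 - no0 (fun m => ((rr l E m - 1 : ℕ) : ℤ)) = geo (l * E) - 1 := by
    ext m
    unfold no0 Phi
    rw [map_sub, map_sub, map_sub, PowerSeries.coeff_mk, PowerSeries.coeff_mk,
      PowerSeries.coeff_one, coeff_geo]
    by_cases h : m = 0
    · rw [if_pos h, if_pos h, h, rr_zero, if_pos (Nat.zero_le _)]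
      norm_num
    · rw [if_neg h, if_neg h, sub_zero, sub_zero]
      by_cases h2 : m ≤ l * E
      · have := rr_pos h2
        rw [if_pos h2]
        push_cast [Nat.cast_sub this]
        ring
      · have h3 := rr_big (not_le.1 h2)
        simp only [if_neg h2, h3, Nat.zero_sub, Nat.cast_zero, sub_zero]
  have h2 := one_sub_mul_geo (l * E)
  rw [h1]
  linear_combination h2

/-- The blocks of the degrees off `L_i`. -/
theorem ser_out (l E c : ℕ) (C : PowerSeries ℤ) :
    C * (1 - PowerSeries.X ^ (E + 1)) ^ (c * l + 1) =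
      (C - 1) * (1 - PowerSeries.X ^ (E + 1)) ^ (c * l + 1) +
      (1 - PowerSeries.X ^ E) * (1 - PowerSeries.X ^ (E + 1)) ^ (c * l) +
      (PowerSeries.X ^ E * ((1 - PowerSeries.X) * (1 - PowerSeries.X) ^ (c * l)) +
      PowerSeries.X ^ E * ∑ t ∈ range c, (Phi l E - 1) * ((1 - PowerSeries.X) *
        ((1 - PowerSeries.X) ^ ((t + 1) * l) *
          (1 - PowerSeries.X ^ (E + 1)) ^ ((c - (t + 1)) * l)))) := by
  have h1 : ∀ t ∈ range c, (Phi l E - 1) * ((1 - PowerSeries.X) *
        ((1 - PowerSeries.X) ^ ((t + 1) * l) *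
          (1 - PowerSeries.X ^ (E + 1)) ^ ((c - (t + 1)) * l))) =
      (1 - PowerSeries.X) * ((1 - PowerSeries.X : PowerSeries ℤ) ^ (t * l) *
        (1 - PowerSeries.X ^ (E + 1)) ^ ((c - t) * l)) -
      (1 - PowerSeries.X) * ((1 - PowerSeries.X) ^ ((t + 1) * l) *
        (1 - PowerSeries.X ^ (E + 1)) ^ ((c - (t + 1)) * l)) := by
    intro t ht
    rw [mem_range] at ht
    have e1 : (c - t) * l = l + (c - (t + 1)) * l := by
      obtain ⟨s, rfl⟩ : ∃ s, c = t + 1 + s := ⟨c - (t + 1), by omega⟩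
      rw [show t + 1 + s - t = s + 1 by omega, show t + 1 + s - (t + 1) = s by omega]
      ring
    have e2 := Phi_mul l E
    rw [e1, pow_add _ l, ← e2, Nat.succ_mul, pow_add _ (t * l) l]
    ring
  rw [sum_congr rfl h1, sum_range_sub' (fun t => (1 - PowerSeries.X) *
    ((1 - PowerSeries.X : PowerSeries ℤ) ^ (t * l) * (1 - PowerSeries.X ^ (E + 1)) ^ ((c - t) * l)))]
  rw [Nat.zero_mul, pow_zero, one_mul, Nat.sub_zero, Nat.sub_self, Nat.zero_mul, pow_zero, mul_one]
  have h2 : (PowerSeries.X : PowerSeries ℤ) ^ (E + 1) = PowerSeries.X ^ E * PowerSeries.X := pow_succ _ _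
  rw [pow_succ (1 - PowerSeries.X ^ (E + 1)) (c * l), h2]
  ring

theorem ser_in (l E : ℕ) (C : PowerSeries ℤ) :
    C * (1 - PowerSeries.X ^ ((l + 1) * E + 1)) =
      (C - 1) * (1 - PowerSeries.X ^ (E + 1)) + (1 - PowerSeries.X ^ E) +
      (PowerSeries.X ^ E * (1 - PowerSeries.X) +
      PowerSeries.X ^ E * (C * ((Phi l E - 1) * (1 - PowerSeries.X))) +
      C * (PowerSeries.X ^ E * (no0 (fun m => ((rr l E m - 1 : ℕ) : ℤ)) *
        (-(1 - PowerSeries.X))))) := by
  have h := Psi_no0 l E
  have h2 : (PowerSeries.X : PowerSeries ℤ) ^ (E + 1) = PowerSeries.X ^ E * PowerSeries.X := pow_succ _ _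
  have h3 : (PowerSeries.X : PowerSeries ℤ) ^ ((l + 1) * E + 1) =
      PowerSeries.X ^ E * PowerSeries.X ^ (l * E + 1) := by
    rw [← pow_add]
    congr 1
    ring
  rw [h3, h2]
  linear_combination (-1 : PowerSeries ℤ) * C * PowerSeries.X ^ E * h

/-! ### The factors on `L_i` -/

theorem P_tri_w {d J i : ℕ} (k : Kd) (hk : k.Ok d J) {I' : Finset ℕ} (hi : i ∉ I') :
    k.P (insert i I') = ((tri i k).map (Kd.P I')).prod := by
  cases k with
  | ord e A =>
    by_cases hA : i ∈ A
    · simp only [tri, hA, if_true, Multiset.map_singleton, Multiset.prod_singleton, Kd.P,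
        insert_subset_iff, true_and]
    · simp only [tri, hA, if_false, Multiset.map_zero, Multiset.prod_zero, Kd.P,
        insert_subset_iff, false_and]
  | cl e dl j As =>
    obtain ⟨-, hlen, -, -, hAs⟩ := hk
    by_cases hij : j = i
    · subst hij
      simp only [tri, if_true, Multiset.map_singleton, Multiset.prod_singleton, Kd.P,
        mem_insert_self, erase_insert hi]
    · have hne : As ≠ [] := fun h => by rw [h] at hlen; simp at hlen
      have hmem : j ∈ insert i I' ↔ j ∈ I' := by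
        rw [mem_insert]
        exact ⟨fun h => h.resolve_left hij, Or.inr⟩
      by_cases hall : ∀ A ∈ As, i ∈ A
      · have hjin : i ∈ inter As := mem_interL.2 ⟨hne, hall⟩
        simp only [tri, if_neg hij, if_pos hall, Multiset.map_singleton, Multiset.prod_singleton,
          Kd.P, hmem, erase_insert_of_ne (Ne.symm hij), insert_subset_iff, hjin, true_and]
        split_ifs with h1
        · rfl
        · rfl
        · congr 1
          refine List.map_congr_left fun A hA => ?_
          simp only [hall A hA, true_and]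
      · have hjin : i ∉ inter As := fun h => hall (mem_interL.1 h).2
        simp only [tri, if_neg hij, if_neg hall, Multiset.map_coe, Multiset.prod_coe, List.map_map,
          Function.comp_def, Kd.P, hmem, erase_insert_of_ne (Ne.symm hij),
          insert_subset_iff, hjin, false_and, if_false]
        split_ifs with h1
        · symm
          apply List.prod_eq_one
          intro x hx
          obtain ⟨A, hA, rfl⟩ := List.mem_map.1 hx
          rw [if_neg]
          intro hsub
          have h2 := hAs A (List.mem_filter.1 hA).1 (hsub h1)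
          exact (mem_erase.1 h2).1 rfl
        · clear hlen hAs hne hall hjin
          induction As with
          | nil => simp
          | cons B l ih =>
            by_cases hB : i ∈ B
            · simp only [List.map_cons, List.prod_cons, hB, true_and, List.filter_cons,
                decide_true, if_true]
              rw [ih]
            · simp only [List.map_cons, List.prod_cons, hB, false_and, if_false, List.filter_cons,
                decide_false, one_mul]
              rw [ih]
              rfl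

theorem P_tris {d J i : ℕ} (ms : Multiset Kd) (hk : ∀ k ∈ ms, k.Ok d J) {I' : Finset ℕ}
    (hi : i ∉ I') : ((ms.bind (tri i)).map (Kd.P I')).prod = (ms.map (Kd.P (insert i I'))).prod := by
  rw [Multiset.map_bind, Multiset.prod_bind]
  congr 1
  exact Multiset.map_congr rfl fun k hkm => (P_tri_w k (hk k hkm) hi).symm

/-! ### The alternating sums -/

/-- The alternating sum with the factors `F` off `L_i` and `F'` on `L_i`. -/
noncomputable def VV (K : Finset ℕ) (A A' : Finset ℕ → PowerSeries ℤ) (D : ℕ)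
    (F F' : PowerSeries ℤ) : ℤ :=
  ∑ I' ∈ K.powerset, (-1) ^ I'.card *
    (PowerSeries.coeff D (F * A I') - PowerSeries.coeff D (F' * A' I'))

section VV

variable {K : Finset ℕ} {A A' : Finset ℕ → PowerSeries ℤ} {D : ℕ} {F F' G G' : PowerSeries ℤ}

theorem VV_add : VV K A A' D F F' + VV K A A' D G G' = VV K A A' D (F + G) (F' + G') := by
  unfold VV
  rw [← sum_add_distrib]
  refine sum_congr rfl fun I' _ => ?_
  rw [add_mul, add_mul, map_add, map_add]
  ring

theorem VV_C (c : ℤ) : c * VV K A A' D F F' =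
    VV K A A' D (PowerSeries.C c * F) (PowerSeries.C c * F') := by
  unfold VV
  rw [mul_sum]
  refine sum_congr rfl fun I' _ => ?_
  rw [mul_assoc, mul_assoc, PowerSeries.coeff_C_mul, PowerSeries.coeff_C_mul]
  ring

theorem VV_sum {α : Type} (s : Finset α) (f g : α → PowerSeries ℤ) :
    ∑ a ∈ s, VV K A A' D (f a) (g a) = VV K A A' D (∑ a ∈ s, f a) (∑ a ∈ s, g a) := by
  classical
  induction s using Finset.induction_on with
  | empty =>
    rw [sum_empty, sum_empty, sum_empty]
    unfold VV
    simp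
  | insert a s ha ih => rw [sum_insert ha, sum_insert ha, sum_insert ha, ih, VV_add]

theorem VV_shift {E : ℕ} (hE : E ≤ D) : VV K A A' (D - E) F F' =
    VV K A A' D (PowerSeries.X ^ E * F) (PowerSeries.X ^ E * F') := by
  unfold VV
  refine sum_congr rfl fun I' _ => ?_
  rw [mul_assoc, mul_assoc, PowerSeries.coeff_X_pow_mul', PowerSeries.coeff_X_pow_mul',
    if_pos hE, if_pos hE]

theorem VV_conv (a : ℕ → ℤ) (N : ℕ) : ∑ r ∈ range N, a (N - r) * VV K A A' r F F' =
    VV K A A' N (no0 a * F) (no0 a * F') := by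
  unfold VV
  simp only [mul_sum]
  rw [sum_comm]
  refine sum_congr rfl fun I' _ => ?_
  rw [mul_assoc, mul_assoc, ← conv, ← conv, ← sum_sub_distrib, mul_sum]
  refine sum_congr rfl fun r _ => ?_
  ring

theorem vd_VV {K : Finset ℕ} {i : ℕ} (hi : i ∉ K) (D : ℕ) (c : ℕ → ℕ) (n : ℕ)
    (X ms : Multiset Kd) {F F' : PowerSeries ℤ}
    (h : ∀ I' ⊆ K, (X.map (Kd.P I')).prod = F)
    (h' : ∀ I' ⊆ K, (X.map (Kd.P (insert i I'))).prod = F') :
    vd D (insert i K) c n (X + ms) = VV K (fun I' => (ms.map (Kd.P I')).prod * hs (n - ∑ i ∈ I', c i))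
      (fun I' => (ms.map (Kd.P (insert i I'))).prod * hs (n - ∑ i ∈ insert i I', c i)) D F F' := by
  unfold vd VV
  rw [sum_powerset_insert hi, ← sum_add_distrib]
  refine sum_congr rfl fun I' hI' => ?_
  have h1 := mem_powerset.1 hI'
  have h2 : i ∉ I' := fun h => hi (h1 h)
  rw [Multiset.map_add, Multiset.prod_add, h I' h1, Multiset.map_add, Multiset.prod_add, h' I' h1,
    card_insert_of_notMem h2, pow_succ, mul_assoc, mul_assoc]
  beta_reduce
  ring_nf

theorem vd_VV_tri {d J : ℕ} {K : Finset ℕ} {i : ℕ} (hi : i ∉ K) (D : ℕ) (c : ℕ → ℕ) (n : ℕ)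
    (X ms : Multiset Kd) {F' : PowerSeries ℤ} (hX : ∀ k ∈ X, k.Ok d J) (hm : ∀ k ∈ ms, k.Ok d J)
    (h' : ∀ I' ⊆ K, (X.map (Kd.P (insert i I'))).prod = F') :
    vd D K c (n - c i) ((X + ms).bind (tri i)) =
      VV K (fun I' => (ms.map (Kd.P I')).prod * hs (n - ∑ i ∈ I', c i))
      (fun I' => (ms.map (Kd.P (insert i I'))).prod * hs (n - ∑ i ∈ insert i I', c i)) D 0 (-F') := by
  unfold vd VV
  refine sum_congr rfl fun I' hI' => ?_
  have h1 := mem_powerset.1 hI'
  have h2 : i ∉ I' := fun h => hi (h1 h)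
  rw [P_tris (d := d) (J := J) (X + ms) (by
    intro k hk
    rcases Multiset.mem_add.1 hk with hk | hk
    · exact hX k hk
    · exact hm k hk) h2, Multiset.map_add, Multiset.prod_add, h' I' h1]
  beta_reduce
  rw [sum_insert h2, Nat.sub_sub, zero_mul, map_zero, zero_sub, neg_mul, map_neg, neg_neg, mul_assoc]

end VV

/-! ### CL2 -/

private theorem P_rep (I' : Finset ℕ) (k : Kd) (N : ℕ) :
    ((Multiset.replicate N k).map (Kd.P I')).prod = k.P I' ^ N := by
  rw [Multiset.map_replicate, Multiset.prod_replicate]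

private theorem inter_rep (l : ℕ) (B : Finset ℕ) : inter (List.replicate l B ++ [B]) = B := by
  ext x
  rw [mem_interL]
  constructor
  · intro h
    exact h.2 B (List.mem_append_right _ (List.mem_singleton_self B))
  · intro h
    refine ⟨by simp, fun A hA => ?_⟩
    rcases List.mem_append.1 hA with hA | hA
    · rw [List.eq_of_mem_replicate hA]
      exact h
    · rw [List.mem_singleton.1 hA]
      exact h

/-- **The virtual version of CL2.** -/
theorem vd_cl2 {d J D E l c : ℕ} (hED : E ≤ D) (hc : 1 ≤ c) {I B : Finset ℕ} {i : ℕ} (hi : i ∈ I)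
    (hiB : i ∉ B) (hIB : I.erase i ⊆ B) (hBJ : insert i B ⊆ range J) (hd : 1 ≤ d) (σ : ℕ → ℕ) (n : ℕ)
    (ms : Multiset Kd) (hok : ∀ k ∈ ms, k.Ok d J) :
    (c : ℤ) * vd D I σ n (.cl (E + 1) 0 i (List.replicate l B ++ [B]) ::ₘ
      (Multiset.replicate ((c - 1) * l) (.ord (E + 1) B) + ms)) =
    ((c : ℤ) - 1) * vd D I σ n (.ord (E + 1) (insert i B) ::ₘ
      (Multiset.replicate (c * l) (.ord (E + 1) B) + ms)) +
    vd D I σ n (.ord E (insert i B) ::ₘ (Multiset.replicate (c * l) (.ord (E + 1) B) + ms)) +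
    (vd (D - E) I σ n (.ord 1 (insert i B) ::ₘ (Multiset.replicate (c * l) (.ord 1 B) + ms)) +
    (∑ t ∈ range c, ∑ r ∈ range (D - E), (rr l E (D - E - r) : ℤ) *
      vd r I σ n (.ord 1 (insert i B) ::ₘ (Multiset.replicate ((t + 1) * l) (.ord 1 B) +
        (Multiset.replicate ((c - (t + 1)) * l) (.ord (E + 1) B) + ms)))) +
    c * ∑ r ∈ range (D - E), ((rr l E (D - E - r) - 1 : ℕ) : ℤ) *
      vd r (I.erase i) σ (n - σ i) ((Kd.ord 1 (insert i B) ::ₘ ms).bind (tri i))) := by
  obtain ⟨K, hK⟩ : ∃ K, K = I.erase i := ⟨_, rfl⟩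
  have hiK : i ∉ K := by
    rw [hK]
    exact notMem_erase i I
  have hIK : I = insert i K := by rw [hK, insert_erase hi]
  have hKB : K ⊆ B := by
    rw [hK]
    exact hIB
  -- the factors
  have q1 : ∀ (x : ℕ) (I' : Finset ℕ), I' ⊆ K → Kd.P I' (.ord x (insert i B)) =
      1 - PowerSeries.X ^ x := fun x I' h => if_pos (h.trans (hKB.trans (subset_insert i B)))
  have q1' : ∀ (x : ℕ) (I' : Finset ℕ), I' ⊆ K → Kd.P (insert i I') (.ord x (insert i B)) =
      1 - PowerSeries.X ^ x := fun x I' h => if_pos (insert_subset_insert i (h.trans hKB))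
  have q2 : ∀ (x : ℕ) (I' : Finset ℕ), I' ⊆ K → Kd.P I' (.ord x B) = 1 - PowerSeries.X ^ x :=
    fun x I' h => if_pos (h.trans hKB)
  have q2' : ∀ (x : ℕ) (I' : Finset ℕ), I' ⊆ K → Kd.P (insert i I') (.ord x B) = 1 :=
    fun x I' h => if_neg fun h' => hiB (h' (mem_insert_self i I'))
  have q3 : ∀ I' ⊆ K, Kd.P I' (.cl (E + 1) 0 i (List.replicate l B ++ [B])) =
      (1 - PowerSeries.X ^ (E + 1)) ^ (l + 1) := by
    intro I' h
    have h1 : i ∉ I' := fun h' => hiK (h h')
    have h2 : Kd.P I' (.cl (E + 1) 0 i (List.replicate l B ++ [B])) =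
        ((List.replicate l B ++ [B]).map fun A =>
          if I' ⊆ A then 1 - PowerSeries.X ^ (E + 1) else (1 : PowerSeries ℤ)).prod := if_neg h1
    rw [h2, List.map_append, List.map_replicate, List.map_singleton, List.prod_append,
      List.prod_replicate, List.prod_singleton, if_pos (h.trans hKB), pow_succ _ l]
  have q3' : ∀ I' ⊆ K, Kd.P (insert i I') (.cl (E + 1) 0 i (List.replicate l B ++ [B])) =
      1 - PowerSeries.X ^ ((l + 1) * E + 1) := by
    intro I' h
    have h1 : i ∉ I' := fun h' => hiK (h h')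
    have h2 : Kd.P (insert i I') (.cl (E + 1) 0 i (List.replicate l B ++ [B])) =
        if (insert i I').erase i ⊆ inter (List.replicate l B ++ [B]) then
          1 - PowerSeries.X ^ trx (E + 1) 0 (List.replicate l B ++ [B]).length else
            (1 : PowerSeries ℤ) := if_pos (mem_insert_self i I')
    rw [h2, erase_insert h1, inter_rep, if_pos (h.trans hKB), List.length_append,
      List.length_replicate, List.length_singleton]
    rfl
  -- the terms
  obtain ⟨A, hA⟩ : ∃ A : Finset ℕ → PowerSeries ℤ, A = fun I' =>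
    (ms.map (Kd.P I')).prod * hs (n - ∑ i ∈ I', σ i) := ⟨_, rfl⟩
  obtain ⟨A', hA'⟩ : ∃ A' : Finset ℕ → PowerSeries ℤ, A' = fun I' =>
    (ms.map (Kd.P (insert i I'))).prod * hs (n - ∑ i ∈ insert i I', σ i) := ⟨_, rfl⟩
  have T0 : vd D (insert i K) σ n (.cl (E + 1) 0 i (List.replicate l B ++ [B]) ::ₘ
      (Multiset.replicate ((c - 1) * l) (.ord (E + 1) B) + ms)) =
      VV K A A' D ((1 - PowerSeries.X ^ (E + 1)) ^ (c * l + 1))
        (1 - PowerSeries.X ^ ((l + 1) * E + 1)) := by
    rw [← Multiset.cons_add, hA, hA']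
    refine vd_VV hiK D σ n _ ms ?_ ?_
    · intro I' h
      rw [Multiset.map_cons, Multiset.prod_cons, P_rep, q3 I' h, q2 _ I' h, ← pow_add]
      congr 1
      obtain ⟨b, rfl⟩ : ∃ b, c = b + 1 := ⟨c - 1, by omega⟩
      rw [Nat.add_sub_cancel]
      ring
    · intro I' h
      rw [Multiset.map_cons, Multiset.prod_cons, P_rep, q3' I' h, q2' _ I' h, one_pow, mul_one]
  have T1 : ∀ (x : ℕ), vd D (insert i K) σ n (.ord x (insert i B) ::ₘ
      (Multiset.replicate (c * l) (.ord (E + 1) B) + ms)) =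
      VV K A A' D ((1 - PowerSeries.X ^ x) * (1 - PowerSeries.X ^ (E + 1)) ^ (c * l))
        (1 - PowerSeries.X ^ x) := by
    intro x
    rw [← Multiset.cons_add, hA, hA']
    refine vd_VV hiK D σ n _ ms ?_ ?_
    · intro I' h
      rw [Multiset.map_cons, Multiset.prod_cons, P_rep, q1 _ I' h, q2 _ I' h]
    · intro I' h
      rw [Multiset.map_cons, Multiset.prod_cons, P_rep, q1' _ I' h, q2' _ I' h, one_pow, mul_one]
  have T2 : ∀ (r t s : ℕ), vd r (insert i K) σ n (.ord 1 (insert i B) ::ₘ
      (Multiset.replicate (t * l) (.ord 1 B) +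
        (Multiset.replicate (s * l) (.ord (E + 1) B) + ms))) =
      VV K A A' r ((1 - PowerSeries.X) * ((1 - PowerSeries.X) ^ (t * l) *
        (1 - PowerSeries.X ^ (E + 1)) ^ (s * l))) (1 - PowerSeries.X) := by
    intro r t s
    rw [← add_assoc, ← Multiset.cons_add, hA, hA']
    refine vd_VV hiK r σ n _ ms ?_ ?_
    · intro I' h
      rw [Multiset.map_cons, Multiset.prod_cons, Multiset.map_add, Multiset.prod_add, P_rep, P_rep,
        q1 _ I' h, q2 _ I' h, q2 _ I' h, pow_one]
    · intro I' h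
      rw [Multiset.map_cons, Multiset.prod_cons, Multiset.map_add, Multiset.prod_add, P_rep, P_rep,
        q1' _ I' h, q2' _ I' h, q2' _ I' h, one_pow, one_pow, mul_one, mul_one, pow_one]
  have T3 : ∀ (r : ℕ), vd r K σ (n - σ i) ((Kd.ord 1 (insert i B) ::ₘ ms).bind (tri i)) =
      VV K A A' r 0 (-(1 - PowerSeries.X)) := by
    intro r
    rw [← Multiset.singleton_add, hA, hA']
    refine vd_VV_tri (d := d) (J := J) hiK r σ n _ ms ?_ hok ?_
    · intro k hk
      rw [Multiset.mem_singleton.1 hk]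
      exact ⟨le_rfl, hd, hBJ⟩
    · intro I' h
      rw [Multiset.map_singleton, Multiset.prod_singleton, q1' _ I' h, pow_one]
  clear hA hA'
  have T2' : vd (D - E) (insert i K) σ n (.ord 1 (insert i B) ::ₘ
      (Multiset.replicate (c * l) (.ord 1 B) + ms)) =
      VV K A A' (D - E) ((1 - PowerSeries.X) * (1 - PowerSeries.X) ^ (c * l))
        (1 - PowerSeries.X) := by
    have h := T2 (D - E) c 0
    rwa [Nat.zero_mul, Multiset.replicate_zero, zero_add, pow_zero, mul_one] at h
  have S2 : (∑ t ∈ range c, ∑ r ∈ range (D - E), (rr l E (D - E - r) : ℤ) *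
      vd r (insert i K) σ n (.ord 1 (insert i B) ::ₘ (Multiset.replicate ((t + 1) * l) (.ord 1 B) +
        (Multiset.replicate ((c - (t + 1)) * l) (.ord (E + 1) B) + ms)))) =
      VV K A A' (D - E) (∑ t ∈ range c, (Phi l E - 1) * ((1 - PowerSeries.X) *
        ((1 - PowerSeries.X) ^ ((t + 1) * l) *
          (1 - PowerSeries.X ^ (E + 1)) ^ ((c - (t + 1)) * l))))
        (∑ _t ∈ range c, (Phi l E - 1) * (1 - PowerSeries.X)) := by
    rw [← VV_sum]
    refine sum_congr rfl fun t _ => ?_
    rw [← Phi_no0, ← VV_conv]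
    refine sum_congr rfl fun r _ => ?_
    rw [T2]
  have S3 : (∑ r ∈ range (D - E), ((rr l E (D - E - r) - 1 : ℕ) : ℤ) *
      vd r K σ (n - σ i) ((Kd.ord 1 (insert i B) ::ₘ ms).bind (tri i))) =
      VV K A A' (D - E) (no0 (fun m => ((rr l E m - 1 : ℕ) : ℤ)) * 0)
        (no0 (fun m => ((rr l E m - 1 : ℕ) : ℤ)) * (-(1 - PowerSeries.X))) := by
    rw [← VV_conv]
    refine sum_congr rfl fun r _ => ?_
    rw [T3]
  rw [← hK, hIK, T0, T1, T1, T2', S2, S3, VV_C, VV_C ((c : ℤ) - 1), VV_C (c : ℤ) (D := D - E),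
    VV_shift hED, VV_shift hED, VV_shift hED, VV_add, VV_add, VV_add, VV_add]
  congr 1
  · have h := ser_out l E c (PowerSeries.C (c : ℤ))
    rw [h, map_sub, map_one, pow_succ _ (c * l)]
    ring
  · have h := ser_in l E (PowerSeries.C (c : ℤ))
    rw [h, map_sub, map_one, sum_const, card_range, nsmul_eq_mul, map_natCast]
    ring

end Pool.Agent.GD.AL
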