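import Pool.Agent.XD.Defs

/-!
# Project GD, ALPHA, module Cmb: densities and growth with moves of the variables `≥ z` only

Generalises XD/Comb/P and XD/Comb/Growth.  The variables `< z` are those of the blocks (no moves).

`push`: by `recu` the injection `{w ∈ lay N (i + 1) (j + 1) | i ∈ w} → lay N (i + 1) j`,
`w ↦ w.erase i` is a bijection.

`density`: induction on `j`.  For `τ (j + 1) ≤ l < i` (degree `j + 1`) let
`D_l = {v ∈ lay N (l + 1) j | l ::ₘ v ∈ D}`.  It is closed (`push`), and the elements of `D_{l'}` in the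
variables `≤ l` are in `D_l` for `l < l'` (move `l' → l`, `push`).  So by induction
`(1 - j ε) |D_{l'}| f (l + 1) j ≤ |D_l| f (l' + 1) j` for `l ≤ l'`, and
`|D (< i)| = |D (< τ (j + 1))| + ∑_{τ (j + 1) ≤ l < i} |D_l|`,
`f i (j + 1) = f (τ (j + 1)) (j + 1) + ∑_{τ (j + 1) ≤ l < i} f (l + 1) j`.  See xd_proof.txt, (3).
-/

set_option autoImplicit false

namespace Pool.Agent.GD.AL

open Finset
open Pool.Agent.XD (lay mem_lay)

/-- `D` is closed under the moves `b → a`, `z ≤ a < b`, inside `N`. -/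
def Dn (z : ℕ) (N D : Finset (Multiset ℕ)) : Prop :=
  ∀ v ∈ D, ∀ b ∈ v, ∀ a, z ≤ a → a < b → a ::ₘ v.erase b ∈ N → a ::ₘ v.erase b ∈ D

/-- `N` is closed under the removal of a variable `≥ z` and has `f i j` elements of degree `j ≤ d` in
the variables `< i`, `z ≤ i ≤ m`. -/
structure Stair (z m d : ℕ) (N : Finset (Multiset ℕ)) (f : ℕ → ℕ → ℕ) : Prop where
  /-- closed under the removal of a variable `≥ z` -/
  div : ∀ v ∈ N, ∀ a ∈ v, z ≤ a → v.erase a ∈ N
  /-- the numbers -/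
  cnt : ∀ i, z ≤ i → i ≤ m → ∀ j ≤ d, (lay N i j).card = f i j

/-- The thresholds. -/
structure Thr (z m d : ℕ) (f : ℕ → ℕ → ℕ) (τ : ℕ → ℕ) (ε : ℝ) : Prop where
  ge : ∀ j, 1 ≤ j → j ≤ d → z ≤ τ j
  le : ∀ j, 1 ≤ j → j ≤ d → τ j ≤ m
  mono : ∀ j, 1 ≤ j → j < d → τ j ≤ τ (j + 1)
  recu : ∀ j, j < d → ∀ i, τ (j + 1) ≤ i → i < m → f (i + 1) (j + 1) = f i (j + 1) + f (i + 1) j
  ratio : ∀ j, 1 ≤ j → j < d → (f (τ j) j : ℝ) ≤ ε * f (τ (j + 1)) j
  last : ∀ j, 1 ≤ j → j ≤ d → (f (τ j) j : ℝ) ≤ ε * f m j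

variable {z m d : ℕ} {N : Finset (Multiset ℕ)} {f : ℕ → ℕ → ℕ} {τ : ℕ → ℕ} {ε : ℝ}

/-- The elements of `D` in the variables `≤ l`: those which contain `l` correspond to the `v` with
`l ::ₘ v ∈ D`. -/
private theorem P_split {N D : Finset (Multiset ℕ)} {i j l : ℕ}
    (hdiv : ∀ v ∈ N, ∀ a ∈ v, z ≤ a → v.erase a ∈ N) (hzl : z ≤ l) (hD : D ⊆ lay N i (j + 1)) :
    (D.filter fun v => ∀ x ∈ v, x < l + 1).card = (D.filter fun v => ∀ x ∈ v, x < l).card +
      ((lay N (l + 1) j).filter fun v => l ::ₘ v ∈ D).card := by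
  classical
  rw [← Finset.card_filter_add_card_filter_not (s := D.filter fun v => ∀ x ∈ v, x < l + 1)
    (p := fun v => l ∉ v)]
  congr 1
  · congr 1
    ext v
    rw [mem_filter, mem_filter, mem_filter]
    constructor
    · rintro ⟨⟨h1, h2⟩, h3⟩
      refine ⟨h1, fun x hx => ?_⟩
      have h4 := h2 x hx
      have h5 : x ≠ l := fun h => h3 (h ▸ hx)
      omega
    · rintro ⟨h1, h2⟩
      exact ⟨⟨h1, fun x hx => (h2 x hx).trans (Nat.lt_succ_self l)⟩,
        fun h => lt_irrefl l (h2 l h)⟩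
  · refine card_nbij' (fun w => w.erase l) (fun v => l ::ₘ v) ?_ ?_ ?_ ?_
    · intro w hw
      rw [mem_coe, mem_filter, mem_filter, not_not] at hw
      obtain ⟨⟨h1, h2⟩, h3⟩ := hw
      have h4 := mem_lay.1 (hD h1)
      rw [mem_coe, mem_filter, mem_lay]
      refine ⟨⟨hdiv w h4.1 l h3 hzl, ?_, fun x hx =>
        h2 x (Multiset.mem_of_mem_erase hx)⟩, ?_⟩
      · rw [Multiset.card_erase_of_mem h3, h4.2.1]
        rfl
      · rw [Multiset.cons_erase h3]
        exact h1
    · intro v hv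
      rw [mem_coe, mem_filter, mem_lay] at hv
      rw [mem_coe, mem_filter, mem_filter, not_not]
      refine ⟨⟨hv.2, fun x hx => ?_⟩, Multiset.mem_cons_self l v⟩
      rcases Multiset.mem_cons.1 hx with rfl | hx
      · exact Nat.lt_succ_self x
      · exact hv.1.2.2 x hx
    · intro w hw
      rw [mem_coe, mem_filter, mem_filter, not_not] at hw
      exact Multiset.cons_erase hw.2
    · intro v _
      exact Multiset.erase_cons_head l v

theorem push (hN : Stair z m d N f) (hT : Thr z m d f τ ε) {j i : ℕ} (hj : j < d)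
    (hi : τ (j + 1) ≤ i) (him : i < m) {v : Multiset ℕ} (hv : v ∈ lay N (i + 1) j) :
    i ::ₘ v ∈ N := by
  classical
  have hzi : z ≤ i := (hT.ge (j + 1) (Nat.le_add_left 1 j) hj).trans hi
  have h1 := P_split (N := N) (D := lay N (i + 1) (j + 1)) (i := i + 1) (j := j) (l := i)
    hN.div hzi (Subset.refl _)
  have h2 : ((lay N (i + 1) (j + 1)).filter fun v => ∀ x ∈ v, x < i + 1) =
      lay N (i + 1) (j + 1) := by
    refine filter_true_of_mem fun v hv => ?_
    exact (mem_lay.1 hv).2.2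
  have h3 : ((lay N (i + 1) (j + 1)).filter fun v => ∀ x ∈ v, x < i) = lay N i (j + 1) := by
    ext v
    rw [mem_filter, mem_lay, mem_lay]
    constructor
    · rintro ⟨⟨h4, h5, -⟩, h6⟩
      exact ⟨h4, h5, h6⟩
    · rintro ⟨h4, h5, h6⟩
      exact ⟨⟨h4, h5, fun x hx => (h6 x hx).trans (Nat.lt_succ_self i)⟩, h6⟩
  rw [h2, h3, hN.cnt (i + 1) (by omega) him (j + 1) hj, hN.cnt i hzi him.le (j + 1) hj,
    hT.recu j hj i hi him, ← hN.cnt (i + 1) (by omega) him j hj.le] at h1
  have h4 : ((lay N (i + 1) j).filter fun v => i ::ₘ v ∈ lay N (i + 1) (j + 1)) =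
      lay N (i + 1) j := by
    refine eq_of_subset_of_card_le (filter_subset _ _) ?_
    omega
  rw [← h4, mem_filter] at hv
  exact (mem_lay.1 hv.2).1

/-- sums of the numbers -/
private theorem P_num (hT : Thr z m d f τ ε) {j : ℕ} (hj : j < d) {i : ℕ} (hi : τ (j + 1) ≤ i)
    (him : i ≤ m) : f i (j + 1) = f (τ (j + 1)) (j + 1) + ∑ l ∈ Ico (τ (j + 1)) i, f (l + 1) j := by
  induction i, hi using Nat.le_induction with
  | base => simp
  | succ i hi ih =>
    rw [hT.recu j hj i hi him, ih (Nat.le_of_succ_le him), sum_Ico_succ_top hi, Nat.add_assoc]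

/-- sums of the cardinalities -/
private theorem P_sum {N D : Finset (Multiset ℕ)} {i j T : ℕ}
    (hdiv : ∀ v ∈ N, ∀ a ∈ v, z ≤ a → v.erase a ∈ N) (hzT : z ≤ T) (hD : D ⊆ lay N i (j + 1))
    {k : ℕ} (hk : T ≤ k) :
    (D.filter fun v => ∀ x ∈ v, x < k).card = (D.filter fun v => ∀ x ∈ v, x < T).card +
      ∑ l ∈ Ico T k, ((lay N (l + 1) j).filter fun v => l ::ₘ v ∈ D).card := by
  induction k, hk using Nat.le_induction with
  | base => rw [Ico_self, sum_empty, Nat.add_zero]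
  | succ k hk ih =>
    rw [P_split hdiv (hzT.trans hk) hD, ih, sum_Ico_succ_top hk, Nat.add_assoc]

/-- the weighted comparison -/
private theorem P_avg {x ε P S S' F G G' : ℝ} (hx : 0 ≤ x) (hε : 0 ≤ ε) (hP : 0 ≤ P)
    (hS : 0 ≤ S) (hS' : 0 ≤ S') (hF : 0 ≤ F) (hG : 0 ≤ G) (hG' : 0 ≤ G')
    (h1 : (1 - x * ε) * (S' * G) ≤ S * G') (h2 : F ≤ ε * (F + G)) :
    (1 - (x + 1) * ε) * (P + S + S') * (F + G) ≤ (P + S) * (F + G + G') := by
  have h3 : (1 - (x + 1) * ε) * ((P + S) * (F + G)) ≤ (P + S) * (F + G) := by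
    have h4 : 0 ≤ (P + S) * (F + G) := by positivity
    have h5 : 0 ≤ (x + 1) * ε := by positivity
    nlinarith
  have h4 : (1 - (x + 1) * ε) * (S' * (F + G)) ≤ (P + S) * G' := by
    have h6 : 0 ≤ (P + S) * G' := by positivity
    have h7 : 0 ≤ S' * (F + G) := by positivity
    rcases le_or_gt (1 - (x + 1) * ε) 0 with h | h
    · exact (mul_nonpos_of_nonpos_of_nonneg h h7).trans h6
    · have hε1 : ε < 1 := by nlinarith [mul_nonneg hx hε]
      have hx1 : 0 ≤ 1 - x * ε := by nlinarith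
      have h8 : 1 - (x + 1) * ε ≤ (1 - x * ε) * (1 - ε) := by
        nlinarith [mul_nonneg hx (mul_nonneg hε hε)]
      have h9 : (1 - ε) * (F + G) ≤ G := by linarith
      calc (1 - (x + 1) * ε) * (S' * (F + G))
          ≤ (1 - x * ε) * (1 - ε) * (S' * (F + G)) := mul_le_mul_of_nonneg_right h8 h7
        _ = (1 - x * ε) * (S' * ((1 - ε) * (F + G))) := by ring
        _ ≤ (1 - x * ε) * (S' * G) :=
            mul_le_mul_of_nonneg_left (mul_le_mul_of_nonneg_left h9 hS') hx1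
        _ ≤ S * G' := h1
        _ ≤ (P + S) * G' := mul_le_mul_of_nonneg_right (by linarith) hG'
  calc (1 - (x + 1) * ε) * (P + S + S') * (F + G)
      = (1 - (x + 1) * ε) * ((P + S) * (F + G)) + (1 - (x + 1) * ε) * (S' * (F + G)) := by ring
    _ ≤ (P + S) * (F + G) + (P + S) * G' := add_le_add h3 h4
    _ = (P + S) * (F + G + G') := by ring

theorem density (hN : Stair z m d N f) (hT : Thr z m d f τ ε) (hε : 0 ≤ ε) (j : ℕ) (hj : j < d)
    (i i' : ℕ) (him : i ≤ m) (hi' : τ (j + 1) ≤ i') (hii : i' ≤ i) (D : Finset (Multiset ℕ))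
    (hD : D ⊆ lay N i j) (hDn : Dn z N D) :
    (1 - j * ε) * (D.card : ℝ) * (f i' j : ℝ) ≤
      ((D.filter fun v => ∀ x ∈ v, x < i').card : ℝ) * (f i j : ℝ) := by
  classical
  induction j generalizing i i' D with
  | zero =>
    have h1 : (D.filter fun v => ∀ x ∈ v, x < i') = D := by
      refine filter_true_of_mem fun v hv x hx => ?_
      have h2 := (mem_lay.1 (hD hv)).2.1
      rw [Multiset.card_eq_zero.1 h2] at hx
      exact absurd hx (Multiset.notMem_zero x)
    have h3 : lay N i' 0 = lay N i 0 := by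
      ext v
      rw [mem_lay, mem_lay]
      constructor
      · rintro ⟨h4, h5, -⟩
        refine ⟨h4, h5, fun x hx => ?_⟩
        rw [Multiset.card_eq_zero.1 h5] at hx
        exact absurd hx (Multiset.notMem_zero x)
      · rintro ⟨h4, h5, -⟩
        refine ⟨h4, h5, fun x hx => ?_⟩
        rw [Multiset.card_eq_zero.1 h5] at hx
        exact absurd hx (Multiset.notMem_zero x)
    have h4 : f i' 0 = f i 0 := by
      have h5 : z ≤ i' := (hT.ge (0 + 1) le_rfl hj).trans hi'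
      rw [← hN.cnt i' h5 (hii.trans him) 0 (Nat.zero_le d),
        ← hN.cnt i (h5.trans hii) him 0 (Nat.zero_le d), h3]
    rw [h1, h4]
    simp
  | succ j ih =>
    have hj1 : j < d := by omega
    have hTm : τ (j + 1) ≤ τ (j + 1 + 1) := hT.mono (j + 1) (by omega) hj
    have hzT : z ≤ τ (j + 1) := hT.ge (j + 1) (by omega) hj.le
    have hTi' : τ (j + 1) ≤ i' := hTm.trans hi'
    have hTi : τ (j + 1) ≤ i := hTi'.trans hii
    have hi'm : i' ≤ m := hii.trans him
    set T := τ (j + 1) with hTdef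
    set DD : ℕ → Finset (Multiset ℕ) := fun l => (lay N (l + 1) j).filter fun v => l ::ₘ v ∈ D
      with hDD
    have hDDn : ∀ l, T ≤ l → l < i → Dn z N (DD l) := by
      intro l hTl hli v hv b hb a haz hab haN
      have hv1 := mem_filter.1 hv
      have hv2 := mem_lay.1 hv1.1
      have h1 : a ::ₘ v.erase b ∈ lay N (l + 1) j := by
        rw [mem_lay]
        refine ⟨haN, ?_, fun x hx => ?_⟩
        · rw [Multiset.card_cons, Multiset.card_erase_of_mem hb, ← hv2.2.1]
          have : 0 < Multiset.card v := Multiset.card_pos_iff_exists_mem.2 ⟨b, hb⟩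
          exact Nat.succ_pred_eq_of_pos this
        · rcases Multiset.mem_cons.1 hx with rfl | hx
          · exact hab.trans (hv2.2.2 b hb)
          · exact hv2.2.2 x (Multiset.mem_of_mem_erase hx)
      refine mem_filter.2 ⟨h1, ?_⟩
      have h2 : (l ::ₘ v).erase b = l ::ₘ v.erase b := Multiset.erase_cons_tail_of_mem hb
      have h3 := hDn (l ::ₘ v) hv1.2 b (Multiset.mem_cons_of_mem hb) a haz hab
      rw [h2, Multiset.cons_swap] at h3
      exact h3 (push hN hT hj1 hTl (by omega) h1)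
    have hincl : ∀ l l', T ≤ l → l < l' → l' < i →
        ((DD l').filter fun v => ∀ x ∈ v, x < l + 1) ⊆ DD l := by
      intro l l' hTl hll hli v hv
      rw [mem_filter] at hv
      have hv1 := mem_filter.1 hv.1
      have hv2 := mem_lay.1 hv1.1
      have h1 : v ∈ lay N (l + 1) j := mem_lay.2 ⟨hv2.1, hv2.2.1, hv.2⟩
      refine mem_filter.2 ⟨h1, ?_⟩
      have h3 := hDn (l' ::ₘ v) hv1.2 l' (Multiset.mem_cons_self l' v) l (hzT.trans hTl) hll
      rw [Multiset.erase_cons_head] at h3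
      exact h3 (push hN hT hj1 hTl (by omega) h1)
    have hpair : ∀ l l', T ≤ l → l < l' → l' < i →
        (1 - j * ε) * (((DD l').card : ℝ) * (f (l + 1) j : ℝ)) ≤
          ((DD l).card : ℝ) * (f (l' + 1) j : ℝ) := by
      intro l l' hTl hll hli
      have h1 := ih hj1 (l' + 1) (l + 1) (by omega) (by omega) (by omega) (DD l')
        (filter_subset _ _) (hDDn l' (hTl.trans hll.le) hli)
      have h2 : (((DD l').filter fun v => ∀ x ∈ v, x < l + 1).card : ℝ) ≤ ((DD l).card : ℝ) := by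
        exact_mod_cast card_le_card (hincl l l' hTl hll hli)
      calc (1 - j * ε) * (((DD l').card : ℝ) * (f (l + 1) j : ℝ))
          = (1 - j * ε) * ((DD l').card : ℝ) * (f (l + 1) j : ℝ) := by ring
        _ ≤ _ := h1
        _ ≤ ((DD l).card : ℝ) * (f (l' + 1) j : ℝ) :=
            mul_le_mul_of_nonneg_right h2 (Nat.cast_nonneg _)
    -- the sums
    have hs' := P_sum (N := N) (D := D) (i := i) (j := j) (T := T) hN.div hzT hD hTi'
    have hsi := P_sum (N := N) (D := D) (i := i) (j := j) (T := T) hN.div hzT hD hTi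
    have hDi : (D.filter fun v => ∀ x ∈ v, x < i) = D :=
      filter_true_of_mem fun v hv => (mem_lay.1 (hD hv)).2.2
    rw [hDi, ← sum_Ico_consecutive _ hTi' hii] at hsi
    have hf' := P_num hT hj1 (i := i') hTi' hi'm
    have hfi := P_num hT hj1 (i := i) hTi him
    rw [← sum_Ico_consecutive _ hTi' hii] at hfi
    set P := (D.filter fun v => ∀ x ∈ v, x < T).card with hP
    set S := ∑ l ∈ Ico T i', ((lay N (l + 1) j).filter fun v => l ::ₘ v ∈ D).card with hS
    set S' := ∑ l ∈ Ico i' i, ((lay N (l + 1) j).filter fun v => l ::ₘ v ∈ D).card with hS'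
    set G := ∑ l ∈ Ico T i', f (l + 1) j with hG
    set G' := ∑ l ∈ Ico i' i, f (l + 1) j with hG'
    have hmain : (1 - j * ε) * ((S' : ℝ) * (G : ℝ)) ≤ (S : ℝ) * (G' : ℝ) := by
      have e1 : (S' : ℝ) * (G : ℝ) =
          ∑ l' ∈ Ico i' i, ∑ l ∈ Ico T i', ((DD l').card : ℝ) * (f (l + 1) j : ℝ) := by
        rw [hS', hG]
        push_cast
        rw [sum_mul_sum]
      have e2 : (S : ℝ) * (G' : ℝ) =
          ∑ l' ∈ Ico i' i, ∑ l ∈ Ico T i', ((DD l).card : ℝ) * (f (l' + 1) j : ℝ) := by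
        rw [hS, hG']
        push_cast
        rw [sum_mul_sum, sum_comm]
      rw [e1, e2, mul_sum]
      refine sum_le_sum fun l' hl' => ?_
      rw [mul_sum]
      refine sum_le_sum fun l hl => ?_
      rw [mem_Ico] at hl hl'
      exact hpair l l' hl.1 (by omega) hl'.2
    have hmono : f (τ (j + 1 + 1)) (j + 1) ≤ f i' (j + 1) := by
      rw [← hN.cnt _ ((hzT.trans hTm)) (hi'.trans hi'm) (j + 1) hj1,
        ← hN.cnt i' (hzT.trans hTi') hi'm (j + 1) hj1]
      refine card_le_card fun v hv => ?_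
      rw [mem_lay] at hv ⊢
      exact ⟨hv.1, hv.2.1, fun x hx => (hv.2.2 x hx).trans_le hi'⟩
    have hrat : (f T (j + 1) : ℝ) ≤ ε * ((f T (j + 1) : ℝ) + (G : ℝ)) := by
      have h1 := hT.ratio (j + 1) (by omega) hj
      have h2 : (f (τ (j + 1 + 1)) (j + 1) : ℝ) ≤ (f i' (j + 1) : ℝ) := by exact_mod_cast hmono
      have h3 : (f i' (j + 1) : ℝ) = (f T (j + 1) : ℝ) + (G : ℝ) := by
        rw [hf']
        push_cast
        rfl
      rw [← h3]
      exact h1.trans (mul_le_mul_of_nonneg_left h2 hε)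
    have key := P_avg (x := (j : ℝ)) (ε := ε) (P := (P : ℝ)) (S := (S : ℝ)) (S' := (S' : ℝ))
      (F := (f T (j + 1) : ℝ)) (G := (G : ℝ)) (G' := (G' : ℝ)) (Nat.cast_nonneg _) hε
      (Nat.cast_nonneg _) (Nat.cast_nonneg _) (Nat.cast_nonneg _) (Nat.cast_nonneg _)
      (Nat.cast_nonneg _) (Nat.cast_nonneg _) hmain hrat
    rw [hs', hf', hfi]
    have hDc : (D.card : ℝ) = (P : ℝ) + S + S' := by
      rw [hsi]
      push_cast
      ring
    rw [hDc]
    push_cast
    refine key.trans (le_of_eq ?_)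
    ring

/-- The sets `U j` (in the variables `< m`) grow, if they are closed under the moves and under the
multiplication by the variables `≥ z` inside `N`. -/
theorem growth (hN : Stair z m d N f) (hT : Thr z m d f τ ε) (hε : 0 ≤ ε) {j : ℕ} (hj : j < d)
    {U U' : Finset (Multiset ℕ)} (hU : U ⊆ lay N m j) (hdn : Dn z N U)
    (hup : ∀ v ∈ U, ∀ i, z ≤ i → i < m → i ::ₘ v ∈ N → i ::ₘ v ∈ U') :
    (1 - ((j : ℝ) + 1) * ε) * (U.card : ℝ) * (f m (j + 1) : ℝ) ≤ (U'.card : ℝ) * (f m j : ℝ) := by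
  have hR : (0 : ℝ) ≤ (U'.card : ℝ) * (f m j : ℝ) := by positivity
  by_cases hneg : 1 - (j : ℝ) * ε < 0
  · have h1 : (1 - ((j : ℝ) + 1) * ε) ≤ 0 := by nlinarith
    have h2 : (1 - ((j : ℝ) + 1) * ε) * (U.card : ℝ) * (f m (j + 1) : ℝ) ≤ 0 := by
      have h3 : (0 : ℝ) ≤ (U.card : ℝ) * (f m (j + 1) : ℝ) := by positivity
      rw [mul_assoc]
      exact mul_nonpos_of_nonpos_of_nonneg h1 h3
    exact h2.trans hR
  · push Not at hneg
    have hτ : τ (j + 1) ≤ m := hT.le (j + 1) (by omega) hj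
    have hzτ : z ≤ τ (j + 1) := hT.ge (j + 1) (by omega) hj
    set D : ℕ → Finset (Multiset ℕ) := fun l => U.filter fun v => ∀ x ∈ v, x < l + 1 with hD
    -- the elements `l ::ₘ v`
    have hcard : ∑ l ∈ Ico (τ (j + 1)) m, (D l).card ≤ U'.card := by
      rw [← card_sigma]
      refine card_le_card_of_injOn (fun p : (_ : ℕ) × Multiset ℕ => p.1 ::ₘ p.2) ?_ ?_
      · rintro ⟨l, v⟩ hp
        rw [mem_coe, mem_sigma, mem_Ico] at hp
        obtain ⟨⟨h1, h2⟩, h3⟩ := hp
        have h3' : v ∈ U ∧ ∀ x ∈ v, x < l + 1 := by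
          have h4 : v ∈ U.filter fun v => ∀ x ∈ v, x < l + 1 := h3
          exact mem_filter.1 h4
        have h4 := mem_lay.1 (hU h3'.1)
        rw [mem_coe]
        refine hup v h3'.1 l (hzτ.trans h1) h2 (push hN hT hj h1 h2 ?_)
        rw [mem_lay]
        exact ⟨h4.1, h4.2.1, h3'.2⟩
      · rintro ⟨l, v⟩ hp ⟨l', v'⟩ hp' heq
        rw [mem_coe, mem_sigma] at hp hp'
        have h3 : ∀ x ∈ v, x < l + 1 := by
          have h4 : v ∈ U.filter fun v => ∀ x ∈ v, x < l + 1 := hp.2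
          exact (mem_filter.1 h4).2
        have h3' : ∀ x ∈ v', x < l' + 1 := by
          have h4 : v' ∈ U.filter fun v => ∀ x ∈ v, x < l' + 1 := hp'.2
          exact (mem_filter.1 h4).2
        have heq' : l ::ₘ v = l' ::ₘ v' := heq
        have h5 : l ≤ l' := by
          have : l ∈ l' ::ₘ v' := by
            rw [← heq']
            exact Multiset.mem_cons_self _ _
          rcases Multiset.mem_cons.1 this with h | h
          · exact h.le
          · have := h3' l h
            omega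
        have h6 : l' ≤ l := by
          have : l' ∈ l ::ₘ v := by
            rw [heq']
            exact Multiset.mem_cons_self _ _
          rcases Multiset.mem_cons.1 this with h | h
          · exact h.le
          · have := h3 l' h
            omega
        obtain rfl : l = l' := le_antisymm h5 h6
        rw [Multiset.cons_inj_right] at heq'
        rw [heq']
    have hdens : ∀ l ∈ Ico (τ (j + 1)) m,
        (1 - j * ε) * (U.card : ℝ) * (f (l + 1) j : ℝ) ≤ ((D l).card : ℝ) * (f m j : ℝ) := by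
      intro l hl
      rw [mem_Ico] at hl
      exact density hN hT hε j hj m (l + 1) le_rfl (by omega) (by omega) U hU hdn
    have hsum := sum_le_sum hdens
    rw [← mul_sum, ← sum_mul] at hsum
    have h1 : ∑ l ∈ Ico (τ (j + 1)) m, (f (l + 1) j : ℝ) =
        (f m (j + 1) : ℝ) - (f (τ (j + 1)) (j + 1) : ℝ) := by
      have h2 := P_num hT hj (i := m) hτ le_rfl
      have h3 : (f m (j + 1) : ℝ) = (f (τ (j + 1)) (j + 1) : ℝ) +
          ∑ l ∈ Ico (τ (j + 1)) m, (f (l + 1) j : ℝ) := by exact_mod_cast h2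
      linarith
    have h2 : (f (τ (j + 1)) (j + 1) : ℝ) ≤ ε * f m (j + 1) := hT.last (j + 1) (by omega) hj
    have h3 : (1 - ε) * (f m (j + 1) : ℝ) ≤ ∑ l ∈ Ico (τ (j + 1)) m, (f (l + 1) j : ℝ) := by
      rw [h1]
      linarith
    have h4 : ∑ l ∈ Ico (τ (j + 1)) m, ((D l).card : ℝ) ≤ (U'.card : ℝ) := by
      exact_mod_cast hcard
    have h6 : (0 : ℝ) ≤ (1 - j * ε) * (U.card : ℝ) := mul_nonneg hneg (by positivity)
    calc (1 - ((j : ℝ) + 1) * ε) * (U.card : ℝ) * (f m (j + 1) : ℝ)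
        ≤ ((1 - j * ε) * (U.card : ℝ)) * ((1 - ε) * (f m (j + 1) : ℝ)) := by
          have h7 : (1 - ((j : ℝ) + 1) * ε) ≤ (1 - j * ε) * (1 - ε) := by
            have : (0 : ℝ) ≤ (j : ℝ) * ε * ε := by positivity
            nlinarith
          have h8 : (0 : ℝ) ≤ (U.card : ℝ) * (f m (j + 1) : ℝ) := by positivity
          calc (1 - ((j : ℝ) + 1) * ε) * (U.card : ℝ) * (f m (j + 1) : ℝ)
              = (1 - ((j : ℝ) + 1) * ε) * ((U.card : ℝ) * (f m (j + 1) : ℝ)) := by ring
            _ ≤ ((1 - j * ε) * (1 - ε)) * ((U.card : ℝ) * (f m (j + 1) : ℝ)) :=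
                mul_le_mul_of_nonneg_right h7 h8
            _ = ((1 - j * ε) * (U.card : ℝ)) * ((1 - ε) * (f m (j + 1) : ℝ)) := by ring
      _ ≤ ((1 - j * ε) * (U.card : ℝ)) * ∑ l ∈ Ico (τ (j + 1)) m, (f (l + 1) j : ℝ) :=
          mul_le_mul_of_nonneg_left h3 h6
      _ ≤ (∑ l ∈ Ico (τ (j + 1)) m, ((D l).card : ℝ)) * (f m j : ℝ) := hsum
      _ ≤ (U'.card : ℝ) * (f m j : ℝ) := mul_le_mul_of_nonneg_right h4 (Nat.cast_nonneg _)

end Pool.Agent.GD.AL
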