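import Pool.Agent.GD.AL.Om
import Pool.Agent.GD.AL.Reg

/-!
# General d, ALPHA, part C: comparison
-/

set_option autoImplicit false

namespace Pool.Agent.GD.AL

open Finset

section

variable {d J D e : ℕ} {σ : St} {I : Finset ℕ} {c0 : ℕ → ℕ} {n0 : ℕ} {η ϖ θ : ℝ}

/-! ### the family -/

theorem fam_self (ms : Multiset Kd) : Fam ms ms :=
  ⟨ms, 0, 0, by rw [add_zero], Multiset.zero_le _, by rw [add_zero]⟩

theorem fam_sub_le {ms R S : Multiset Kd} (h : Fam ms R) (hS : S ≤ R) : Fam ms S := by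
  classical
  obtain ⟨U, C, O, h1, h2, rfl⟩ := h
  refine ⟨S ∩ U, C, S - U, ?_, ?_, ?_⟩
  · exact (add_le_add_left (Multiset.inter_le_right) C).trans h1
  · exact (tsub_le_iff_left.2 hS).trans h2
  · rw [add_comm]
    exact (Multiset.sub_add_inter S U).symm

theorem fam_mmb {k : Kd} (h : AdmO d J k) : mmb k = {k} := by
  obtain ⟨x, A, rfl, -⟩ := h
  rfl

theorem fam_mb_ok {dl i : ℕ} {As : List (Finset ℕ)} (h : AdmC d J e (.cl e dl i As)) :
    ∀ k ∈ mb e As, AdmO d J k := by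
  intro k hk
  obtain ⟨dl', i', As', h1, h2, h3, h4, h5, h6⟩ := h
  cases h1
  obtain ⟨A, hA, rfl⟩ := List.mem_map.1 (Multiset.mem_coe.1 hk)
  obtain ⟨h7, h8⟩ := h6 A hA
  refine ⟨e, A, rfl, by omega, ?_, h7.trans (erase_subset _ _), ?_⟩
  · unfold trx at h4
    have h9 : e - 1 ≤ As.length * (e - 1) := Nat.le_mul_of_pos_left _ (by omega)
    omega
  · have h9 : range J \ A ⊆ insert i ((range J).erase i \ A) := by
      intro y hy
      rw [mem_sdiff] at hy
      rw [mem_insert, mem_sdiff, mem_erase]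
      by_cases hyi : y = i
      · exact Or.inl hyi
      · exact Or.inr ⟨⟨hyi, hy.1⟩, hy.2⟩
    have h10 := (card_le_card h9).trans (card_insert_le _ _)
    omega

theorem fam_mmb_ok {k : Kd} (h : AdmO d J k ∨ AdmC d J e k) : ∀ k' ∈ mmb k, AdmO d J k' := by
  intro k' hk'
  rcases h with h | h
  · rw [fam_mmb h, Multiset.mem_singleton] at hk'
    rw [hk']
    exact h
  · obtain ⟨dl, i, As, rfl, h2⟩ := h
    exact fam_mb_ok (e := e) (dl := dl) (i := i) ⟨dl, i, As, rfl, h2⟩ k' hk'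

theorem fam_bind_ok {C : Multiset Kd} (h : ∀ k ∈ C, AdmO d J k ∨ AdmC d J e k) :
    ∀ k ∈ C.bind mmb, AdmO d J k := by
  intro k hk
  obtain ⟨k', hk', h1⟩ := Multiset.mem_bind.1 hk
  exact fam_mmb_ok (h k' hk') k h1

theorem fam_ok {ms R : Multiset Kd} (hm : ∀ k ∈ ms, AdmO d J k ∨ AdmC d J e k)
    (h : Fam ms R) : ∀ k ∈ R, AdmO d J k ∨ AdmC d J e k := by
  obtain ⟨U, C, O, h1, h2, rfl⟩ := h
  intro k hk
  rcases Multiset.mem_add.1 hk with hk | hk
  · exact hm k (Multiset.mem_of_le h1 (Multiset.mem_add.2 (Or.inl hk)))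
  · exact Or.inl (fam_bind_ok (fun k' hk' => hm k' (Multiset.mem_of_le h1
      (Multiset.mem_add.2 (Or.inr hk')))) k (Multiset.mem_of_le h2 hk))

theorem fam_low_ok {k : Kd} (h : AdmO d J k ∨ AdmC d J e k) : k.Low (range J) := by
  rcases h with ⟨x, A, rfl, -, -, -, h1⟩ | ⟨dl, i, As, rfl, h2, h3, h4, h5, h6⟩
  · exact h1
  · refine ⟨h3, fun A hA => ⟨fun hi => ?_, ?_⟩⟩
    · exact absurd ((h6 A hA).1 hi) (notMem_erase i _)
    · have h9 : range J \ A ⊆ insert i ((range J).erase i \ A) := by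
        intro y hy
        rw [mem_sdiff] at hy
        rw [mem_insert, mem_sdiff, mem_erase]
        by_cases hyi : y = i
        · exact Or.inl hyi
        · exact Or.inr ⟨⟨hyi, hy.1⟩, hy.2⟩
      have h10 := (card_le_card h9).trans (card_insert_le _ _)
      have h11 := (h6 A hA).2
      omega

theorem fam_nz_nonneg (c0 : ℕ → ℕ) (n0 : ℕ) (I : Finset ℕ) (D : ℕ) : 0 ≤ nz c0 n0 I D := by
  unfold nz
  positivity

theorem fam_low0 {M : Multiset Kd} (hm : ∀ k ∈ M, AdmO d J k ∨ AdmC d J e k) {I' : Finset ℕ}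
    (hI' : I' ⊆ range J) {D' : ℕ} (h : D' < I'.card) : (σ.wm M).V J I' D' = 0 :=
  vd_low (J := range J) (Nat.le_add_right _ _) M (fun k hk => fam_low_ok (hm k hk)) I' hI' D' h

/-- The bounds in the degrees `< D'`. -/
private def HY (J : ℕ) (σ : St) (I : Finset ℕ) (D : ℕ) (c0 : ℕ → ℕ) (n0 : ℕ) (θ : ℝ) (D' : ℕ) :
    Prop :=
  ∀ M, Fam σ.ms M → ∀ I'' ⊆ I, ∀ D'' < D', I''.card ≤ D'' → D'' + (I \ I'').card ≤ D →
    0 ≤ ((σ.wm M).V J I'' D'' : ℝ) ∧
      ((σ.wm M).V J I'' D'' : ℝ) ≤ (1 + 3 * θ) * nz c0 n0 I'' D''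

private theorem lemA (hI : I ⊆ range J) {D' : ℕ} (hH : HY J σ I D c0 n0 θ D')
    (hm : ∀ k ∈ σ.ms, AdmO d J k ∨ AdmC d J e k) {M : Multiset Kd} (hM : Fam σ.ms M) {k : Kd}
    (hk : AdmO d J k) {I' : Finset ℕ} (hI' : I' ⊆ I) (h : D' + (I \ I').card ≤ D) :
    ((σ.wm (k ::ₘ M)).V J I' D' : ℝ) ≤ (σ.wm M).V J I' D' := by
  obtain ⟨x, A, rfl, h1, h2, h3, h4⟩ := hk
  have e1 : σ.wm (.ord x A ::ₘ M) = (σ.wm M).ad (.ord x A) := rfl
  rw [e1]
  by_cases hx : x ≤ D'
  · rw [St.V_ord A hx]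
    push_cast
    have h5 : (0 : ℝ) ≤ ((σ.wm M).V J (I' ∩ A) (D' - x) : ℝ) := by
      by_cases h6 : (I' ∩ A).card ≤ D' - x
      · refine (hH M hM (I' ∩ A) (inter_subset_left.trans hI') (D' - x) (by omega) h6 ?_).1
        have h7 : I \ (I' ∩ A) ⊆ (I \ I') ∪ (range J \ A) := by
          intro y hy
          rw [mem_sdiff] at hy
          rw [mem_union, mem_sdiff, mem_sdiff]
          by_cases h : y ∈ I'
          · exact Or.inr ⟨hI hy.1, fun hyA => hy.2 (Finset.mem_inter.2 ⟨h, hyA⟩)⟩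
          · exact Or.inl ⟨hy.1, h⟩
        have h8 := (card_le_card h7).trans (card_union_le _ _)
        omega
      · rw [fam_low0 (fam_ok hm hM) (inter_subset_left.trans (hI'.trans hI)) (by omega)]
        norm_num
    linarith
  · rw [St.V_ord_lt A (by omega)]

private theorem lemA' (hI : I ⊆ range J) {D' : ℕ} (hH : HY J σ I D c0 n0 θ D')
    (hm : ∀ k ∈ σ.ms, AdmO d J k ∨ AdmC d J e k) {M : Multiset Kd} {I' : Finset ℕ} (hI' : I' ⊆ I)
    (h : D' + (I \ I').card ≤ D) (O : Multiset Kd) (hO : ∀ k ∈ O, AdmO d J k)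
    (hM : Fam σ.ms (O + M)) :
    ((σ.wm (O + M)).V J I' D' : ℝ) ≤ (σ.wm M).V J I' D' := by
  induction O using Multiset.induction_on with
  | empty => rw [zero_add]
  | cons k O ih =>
    rw [Multiset.cons_add] at hM ⊢
    have h1 : Fam σ.ms (O + M) := fam_sub_le hM (Multiset.le_cons_self _ _)
    exact (lemA hI hH hm h1 (hO k (Multiset.mem_cons_self _ _)) hI' h).trans
      (ih (fun k' hk' => hO k' (Multiset.mem_cons_of_mem hk')) h1)

theorem fam_nz_insert {i : ℕ} {I : Finset ℕ} (hi : i ∉ I) {D : ℕ} (h : I.card + 1 ≤ D)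
    (hin : c0 i ≤ n0) : nz c0 n0 (insert i I) D ≤ nz c0 n0 I D := by
  unfold nz
  rw [prod_insert hi, card_insert_of_notMem hi]
  have h1 : D - I.card = (D - (I.card + 1)) + 1 := by omega
  rw [h1, pow_succ]
  have h2 : (c0 i : ℝ) ≤ n0 := by exact_mod_cast hin
  have h3 : 0 ≤ (∏ l ∈ I, (c0 l : ℝ)) * (n0 : ℝ) ^ (D - (I.card + 1)) := by positivity
  have h4 := mul_le_mul_of_nonneg_right h2 h3
  linarith

private theorem lemB (hR : Rf J c0 n0 1) (hI : I ⊆ range J) {D' : ℕ}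
    (hH : HY J σ I D c0 n0 θ D') (hm : ∀ k ∈ σ.ms, AdmO d J k ∨ AdmC d J e k)
    (hθ1 : 3 * θ ≤ 1) {M : Multiset Kd} (hM : Fam σ.ms M) {dl i : ℕ} {As : List (Finset ℕ)}
    (hk : AdmC d J e (.cl e dl i As)) {I' : Finset ℕ} (hI' : I' ⊆ I)
    (h : D' + (I \ I').card ≤ D) :
    |((σ.wm (.cl e dl i As ::ₘ M)).V J I' D' : ℝ) - (σ.wm (mb e As + M)).V J I' D'| ≤
      2 * om c0 n0 J (.cl e dl i As) * nz c0 n0 I' D' := by
  have hk' := hk
  obtain ⟨dl', i', As', h1, he, hlen, htrx, hiJ, hAs⟩ := hk'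
  cases h1
  have hiA : ∀ A ∈ As, i ∉ A := fun A hA hi => absurd ((hAs A hA).1 hi) (notMem_erase i _)
  have hrhs : 0 ≤ 2 * om c0 n0 J (.cl e dl i As) * nz c0 n0 I' D' :=
    mul_nonneg (mul_nonneg (by norm_num) (om_nonneg _)) (fam_nz_nonneg _ _ _ _)
  have hMok := fam_ok hm hM
  by_cases hi : i ∈ I'
  · have e1 : (σ.wm (.cl e dl i As ::ₘ M)).V J I' D' = (σ.wm (mb e As + M)).V J I' D' +
        if trx e dl As.length ≤ D' then
          (σ.wm M).V J (I'.erase i ∩ inter As) (D' - trx e dl As.length) -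
          (σ.wm M).V J (insert i (I'.erase i ∩ inter As)) (D' - trx e dl As.length) else 0 :=
      vd_clu D' σ.c (σ.n J) e dl hiA hi M
    rw [e1]
    by_cases hE : trx e dl As.length ≤ D'
    · rw [if_pos hE]
      push_cast
      rw [add_sub_cancel_left]
      set J1 := I'.erase i ∩ inter As with hJ1
      have hJ1I : J1 ⊆ I' := inter_subset_left.trans (erase_subset _ _)
      have hiJ1 : i ∉ J1 := fun h => notMem_erase i I' (Finset.mem_inter.1 h).1
      have hins : insert i J1 ⊆ I' := insert_subset hi hJ1I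
      have hcd : (I \ J1).card + D' ≤ D + trx e dl As.length := by
        have h2 : (I'.erase i \ inter As).card ≤ As.length * (e - 1) := by
          refine card_inter_le hi As (by
            intro h3
            rw [h3] at hlen
            exact absurd hlen (by simp)) fun A hA => ⟨hiA A hA, ?_⟩
          have h9 : I' \ A ⊆ insert i ((range J).erase i \ A) := by
            intro y hy
            rw [mem_sdiff] at hy
            rw [mem_insert, mem_sdiff, mem_erase]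
            by_cases hyi : y = i
            · exact Or.inl hyi
            · exact Or.inr ⟨⟨hyi, hI (hI' hy.1)⟩, hy.2⟩
          have h10 := (card_le_card h9).trans (card_insert_le _ _)
          have h11 := (hAs A hA).2
          omega
        have h3 : I \ J1 ⊆ (I \ I') ∪ insert i (I'.erase i \ inter As) := by
          intro y hy
          rw [mem_sdiff] at hy
          rw [mem_union, mem_sdiff, mem_insert, mem_sdiff]
          by_cases hyI : y ∈ I'
          · right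
            by_cases hyi : y = i
            · exact Or.inl hyi
            · exact Or.inr ⟨mem_erase.2 ⟨hyi, hyI⟩, fun h4 => hy.2
                (Finset.mem_inter.2 ⟨mem_erase.2 ⟨hyi, hyI⟩, h4⟩)⟩
          · exact Or.inl ⟨hy.1, hyI⟩
        have h4 := (card_le_card h3).trans ((card_union_le _ _).trans
          (add_le_add_right (card_insert_le _ _) _))
        unfold trx
        omega
      have hcd' : (I \ insert i J1).card ≤ (I \ J1).card :=
        card_le_card (sdiff_subset_sdiff subset_rfl (subset_insert _ _))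
      have hE1 : 1 ≤ trx e dl As.length := by
        unfold trx
        omega
      have hcin : c0 i ≤ n0 := by
        have h2 := hR.n
        rw [one_mul] at h2
        have h3 : (c0 i : ℝ) ≤ ∑ l ∈ range J, (c0 l : ℝ) :=
          single_le_sum (f := fun l => (c0 l : ℝ)) (fun l _ => Nat.cast_nonneg _) (mem_range.2 hiJ)
        have h4 : (c0 i : ℝ) ≤ n0 := by linarith
        exact_mod_cast h4
      by_cases hc : J1.card ≤ D' - trx e dl As.length
      · have b1 := hH M hM J1 (hJ1I.trans hI') (D' - trx e dl As.length) (by omega) hc (by omega)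
        have hb := bracket_le (D := D') hR (hI'.trans hI) hk hi hE hc
        have hz1 := fam_nz_nonneg c0 n0 J1 (D' - trx e dl As.length)
        have h5 : (1 + 3 * θ) * nz c0 n0 J1 (D' - trx e dl As.length) ≤
            2 * om c0 n0 J (.cl e dl i As) * nz c0 n0 I' D' := by
          have h6 : (1 + 3 * θ) * nz c0 n0 J1 (D' - trx e dl As.length) ≤
              2 * nz c0 n0 J1 (D' - trx e dl As.length) :=
            mul_le_mul_of_nonneg_right (by linarith) hz1
          linarith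
        by_cases hc' : (insert i J1).card ≤ D' - trx e dl As.length
        · have b2 := hH M hM (insert i J1) (hins.trans hI') (D' - trx e dl As.length) (by omega)
            hc' (by omega)
          have h7 : nz c0 n0 (insert i J1) (D' - trx e dl As.length) ≤
              nz c0 n0 J1 (D' - trx e dl As.length) := by
            rw [card_insert_of_notMem hiJ1] at hc'
            exact fam_nz_insert hiJ1 hc' hcin
          have h8 : ((σ.wm M).V J (insert i J1) (D' - trx e dl As.length) : ℝ) ≤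
              (1 + 3 * θ) * nz c0 n0 J1 (D' - trx e dl As.length) := by
            refine b2.2.trans ?_
            by_cases h9 : 0 ≤ 1 + 3 * θ
            · exact mul_le_mul_of_nonneg_left h7 h9
            · exfalso
              have h10 : (0 : ℝ) < nz c0 n0 (insert i J1) (D' - trx e dl As.length) := by
                unfold nz
                have h11 := hR.n
                have h12 : (0 : ℝ) ≤ ∑ l ∈ range J, (c0 l : ℝ) :=
                  sum_nonneg fun l _ => Nat.cast_nonneg _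
                refine mul_pos (prod_pos fun l hl => ?_) (pow_pos (by linarith) _)
                have h13 := hR.c l (mem_range.1 (hI (hI' (hins hl))))
                linarith
              have h11 := b2.1.trans b2.2
              have h12 : (1 + 3 * θ) * nz c0 n0 (insert i J1) (D' - trx e dl As.length) < 0 :=
                mul_neg_of_neg_of_pos (by linarith) h10
              linarith
          rw [abs_le]
          constructor <;> linarith [b1.1, b1.2, b2.1]
        · rw [fam_low0 hMok (hins.trans (hI'.trans hI)) (by omega)]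
          push_cast
          rw [sub_zero, abs_of_nonneg b1.1]
          linarith [b1.2]
      · rw [fam_low0 hMok (hJ1I.trans (hI'.trans hI)) (by omega),
          fam_low0 hMok (hins.trans (hI'.trans hI)) (by
            rw [card_insert_of_notMem hiJ1]
            omega)]
        push_cast
        rw [sub_zero, abs_zero]
        exact hrhs
    · rw [if_neg hE]
      push_cast
      rw [add_zero, sub_self, abs_zero]
      exact hrhs
  · have e1 : (σ.wm (.cl e dl i As ::ₘ M)).V J I' D' = (σ.wm (mb e As + M)).V J I' D' :=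
      vd_clu_not D' σ.c (σ.n J) e dl hi M
    rw [e1, sub_self, abs_zero]
    exact hrhs

/-- An object and its members. -/
private theorem lemB' (hR : Rf J c0 n0 1) (hI : I ⊆ range J) {D' : ℕ}
    (hH : HY J σ I D c0 n0 θ D') (hm : ∀ k ∈ σ.ms, AdmO d J k ∨ AdmC d J e k)
    (hθ1 : 3 * θ ≤ 1) {M : Multiset Kd} (hM : Fam σ.ms M) {k : Kd}
    (hk : AdmO d J k ∨ AdmC d J e k) {I' : Finset ℕ} (hI' : I' ⊆ I)
    (h : D' + (I \ I').card ≤ D) :
    |((σ.wm (k ::ₘ M)).V J I' D' : ℝ) - (σ.wm (mmb k + M)).V J I' D'| ≤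
      2 * om c0 n0 J k * nz c0 n0 I' D' := by
  rcases hk with hk | hk
  · rw [fam_mmb hk, Multiset.singleton_add, sub_self, abs_zero]
    exact mul_nonneg (mul_nonneg (by norm_num) (om_nonneg _)) (fam_nz_nonneg _ _ _ _)
  · obtain ⟨dl, i, As, rfl, h2⟩ := hk
    exact lemB hR hI hH hm hθ1 hM ⟨dl, i, As, rfl, h2⟩ hI' h

/-- One more object of the configuration. -/
private theorem lemC (hR : Rf J c0 n0 1) (hI : I ⊆ range J) {D' : ℕ}
    (hH : HY J σ I D c0 n0 θ D') (hm : ∀ k ∈ σ.ms, AdmO d J k ∨ AdmC d J e k)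
    (hθ1 : 3 * θ ≤ 1) {M : Multiset Kd} {k : Kd} (hM : k ::ₘ M ≤ σ.ms) {I' : Finset ℕ}
    (hI' : I' ⊆ I) (h : D' + (I \ I').card ≤ D) :
    ((σ.wm (k ::ₘ M)).V J I' D' : ℝ) ≤ (σ.wm M).V J I' D' +
      2 * om c0 n0 J k * nz c0 n0 I' D' := by
  have hk := hm k (Multiset.mem_of_le hM (Multiset.mem_cons_self _ _))
  have h1 : Fam σ.ms M := fam_sub_le (fam_self _) ((Multiset.le_cons_self _ _).trans hM)
  have h2 := lemB' hR hI hH hm hθ1 h1 hk hI' h
  have h3 : Fam σ.ms (mmb k + M) := by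
    refine ⟨M, {k}, mmb k, ?_, ?_, add_comm _ _⟩
    · rw [add_comm, Multiset.singleton_add]
      exact hM
    · rw [Multiset.singleton_bind]
  have h4 := lemA' hI hH hm hI' h (mmb k) (fam_mmb_ok hk) h3
  have h5 := (abs_le.1 h2).2
  linarith

private theorem lemD (hR : Rf J c0 n0 1) (hI : I ⊆ range J) {D' : ℕ}
    (hH : HY J σ I D c0 n0 θ D') (hm : ∀ k ∈ σ.ms, AdmO d J k ∨ AdmC d J e k)
    (hθ1 : 3 * θ ≤ 1) {M : Multiset Kd} {I' : Finset ℕ} (hI' : I' ⊆ I)
    (h : D' + (I \ I').card ≤ D) (W : Multiset Kd) (hM : W + M ≤ σ.ms) :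
    ((σ.wm (W + M)).V J I' D' : ℝ) ≤ (σ.wm M).V J I' D' +
      2 * (W.map (om c0 n0 J)).sum * nz c0 n0 I' D' := by
  induction W using Multiset.induction_on with
  | empty =>
    rw [zero_add, Multiset.map_zero, Multiset.sum_zero]
    linarith
  | cons k W ih =>
    rw [Multiset.cons_add] at hM ⊢
    have h1 := lemC hR hI hH hm hθ1 hM hI' h
    have h2 := ih ((Multiset.le_cons_self _ _).trans hM)
    rw [Multiset.map_cons, Multiset.sum_cons]
    have h3 : 2 * (om c0 n0 J k + (W.map (om c0 n0 J)).sum) * nz c0 n0 I' D' =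
        2 * om c0 n0 J k * nz c0 n0 I' D' +
          2 * (W.map (om c0 n0 J)).sum * nz c0 n0 I' D' := by ring
    rw [h3]
    linarith

/-- Replacement of objects by their members. -/
private theorem lemE (hR : Rf J c0 n0 1) (hI : I ⊆ range J) {D' : ℕ}
    (hH : HY J σ I D c0 n0 θ D') (hm : ∀ k ∈ σ.ms, AdmO d J k ∨ AdmC d J e k)
    (hθ1 : 3 * θ ≤ 1) {I' : Finset ℕ} (hI' : I' ⊆ I)
    (h : D' + (I \ I').card ≤ D) (C : Multiset Kd) : ∀ U, U + C ≤ σ.ms →
    |((σ.wm (U + C)).V J I' D' : ℝ) - (σ.wm (U + C.bind mmb)).V J I' D'| ≤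
      2 * (C.map (om c0 n0 J)).sum * nz c0 n0 I' D' := by
  induction C using Multiset.induction_on with
  | empty =>
    intro U _
    rw [Multiset.zero_bind, Multiset.map_zero, Multiset.sum_zero, sub_self, abs_zero]
    linarith
  | cons k C ih =>
    intro U hU
    have e1 : U + k ::ₘ C = (k ::ₘ U) + C := by
      rw [Multiset.add_cons, Multiset.cons_add]
    have e2 : (k ::ₘ U) + C.bind mmb = k ::ₘ (U + C.bind mmb) := Multiset.cons_add _ _ _
    have e3 : U + (k ::ₘ C).bind mmb = mmb k + (U + C.bind mmb) := by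
      rw [Multiset.cons_bind]
      abel
    have h1 := ih (k ::ₘ U) (by rw [← e1]; exact hU)
    have hk := hm k (Multiset.mem_of_le hU (Multiset.mem_add.2 (Or.inr
      (Multiset.mem_cons_self _ _))))
    have hF : Fam σ.ms (U + C.bind mmb) :=
      ⟨U, C, C.bind mmb, (add_le_add_right (Multiset.le_cons_self _ _) _).trans hU, le_rfl, rfl⟩
    have h2 := lemB' hR hI hH hm hθ1 hF hk hI' h
    rw [e1, e3]
    rw [e2] at h1
    rw [Multiset.map_cons, Multiset.sum_cons]
    have h3 : 2 * (om c0 n0 J k + (C.map (om c0 n0 J)).sum) * nz c0 n0 I' D' =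
        2 * om c0 n0 J k * nz c0 n0 I' D' +
          2 * (C.map (om c0 n0 J)).sum * nz c0 n0 I' D' := by ring
    rw [h3]
    have h4 := abs_sub_le ((σ.wm ((k ::ₘ U) + C)).V J I' D' : ℝ)
      ((σ.wm (k ::ₘ (U + C.bind mmb))).V J I' D' : ℝ)
      ((σ.wm (mmb k + (U + C.bind mmb))).V J I' D' : ℝ)
    linarith

theorem fam_om_sum (M : Multiset Kd) : 0 ≤ (M.map (om c0 n0 J)).sum :=
  Multiset.sum_nonneg fun x hx => by
    obtain ⟨k, -, rfl⟩ := Multiset.mem_map.1 hx
    exact om_nonneg k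

/-- The bounds in degree `D'` from the bounds in the lower degrees. -/
private theorem cmp_step (hR : Rf J c0 n0 1) (hI : I ⊆ range J) (hD : D ≤ d)
    (hc : ∀ l, σ.c l ≤ c0 l)
    (hn : σ.n J ≤ n0) (hm : ∀ k ∈ σ.ms, AdmO d J k ∨ AdmC d J e k)
    (hom : (σ.ms.map (om c0 n0 J)).sum ≤ θ) (hθ1 : 3 * θ ≤ 1) {D' : ℕ}
    (hH : HY J σ I D c0 n0 θ D') {R : Multiset Kd} (hF : Fam σ.ms R) {I' : Finset ℕ}
    (hI' : I' ⊆ I) (h1 : I'.card ≤ D') (h : D' + (I \ I').card ≤ D) :
    (σ.V J I' D' : ℝ) - 3 * θ * nz c0 n0 I' D' ≤ (σ.wm R).V J I' D' ∧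
      ((σ.wm R).V J I' D' : ℝ) ≤ (1 + 3 * θ) * nz c0 n0 I' D' := by
  have hz := fam_nz_nonneg c0 n0 I' D'
  have hθ0 : 0 ≤ θ := (fam_om_sum _).trans hom
  obtain ⟨U, C, O, g1, g2, rfl⟩ := hF
  obtain ⟨W, hW⟩ := Multiset.le_iff_exists_add.1 g1
  have hCok : ∀ k ∈ C, AdmO d J k ∨ AdmC d J e k := fun k hk =>
    hm k (Multiset.mem_of_le g1 (Multiset.mem_add.2 (Or.inr hk)))
  have hsum : (U.map (om c0 n0 J)).sum + (C.map (om c0 n0 J)).sum + (W.map (om c0 n0 J)).sum ≤
      θ := by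
    refine le_trans (le_of_eq ?_) hom
    rw [hW, Multiset.map_add, Multiset.sum_add, Multiset.map_add, Multiset.sum_add]
  have hU0 := fam_om_sum (J := J) (c0 := c0) (n0 := n0) U
  have hC0 := fam_om_sum (J := J) (c0 := c0) (n0 := n0) C
  have hW0 := fam_om_sum (J := J) (c0 := c0) (n0 := n0) W
  constructor
  · -- the lower bound
    have s1 : (σ.V J I' D' : ℝ) ≤ (σ.wm (U + C)).V J I' D' +
        2 * (W.map (om c0 n0 J)).sum * nz c0 n0 I' D' := by
      have h2 := lemD (M := U + C) hR hI hH hm hθ1 hI' h W (by rw [add_comm, ← hW])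
      have h3 : σ.wm (W + (U + C)) = σ := by
        rw [add_comm, ← hW]
        rfl
      rwa [h3] at h2
    have s2 := lemE hR hI hH hm hθ1 hI' h C U g1
    have s3 : ((σ.wm (U + C.bind mmb)).V J I' D' : ℝ) ≤ (σ.wm (U + O)).V J I' D' := by
      obtain ⟨Z, hZ⟩ := Multiset.le_iff_exists_add.1 g2
      have h2 : U + C.bind mmb = Z + (U + O) := by
        rw [hZ]
        abel
      rw [h2]
      refine lemA' hI hH hm hI' h Z (fun k hk => fam_bind_ok hCok k ?_) ?_
      · rw [hZ]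
        exact Multiset.mem_add.2 (Or.inr hk)
      · rw [← h2]
        exact ⟨U, C, C.bind mmb, g1, le_rfl, rfl⟩
    have s4 := (abs_le.1 s2).2
    have s5 : 2 * (W.map (om c0 n0 J)).sum * nz c0 n0 I' D' +
        2 * (C.map (om c0 n0 J)).sum * nz c0 n0 I' D' ≤ 3 * θ * nz c0 n0 I' D' := by
      rw [← add_mul]
      exact mul_le_mul_of_nonneg_right (by linarith) hz
    linarith
  · -- the upper bound
    have s1 : ((σ.wm (U + O)).V J I' D' : ℝ) ≤ (σ.wm U).V J I' D' := by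
      rw [add_comm]
      refine lemA' hI hH hm hI' h O (fun k hk => fam_bind_ok hCok k (Multiset.mem_of_le g2 hk)) ?_
      rw [add_comm]
      exact ⟨U, C, O, g1, g2, rfl⟩
    have s2 := lemD (M := 0) hR hI hH hm hθ1 hI' h U (by
      rw [add_zero, hW, add_assoc]
      exact Multiset.le_add_right _ _)
    rw [add_zero] at s2
    have s3 : ((σ.wm 0).V J I' D' : ℝ) ≤ nz c0 n0 I' D' := by
      have h2 : ((σ.wm 0).H d J I' D' : ℤ) = (σ.wm 0).V J I' D' :=
        St.Ex_nil (σ := σ.wm 0) (by omega) (hI'.trans hI) rfl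
      have h3 : ((σ.wm 0).V J I' D' : ℝ) = ((σ.wm 0).H d J I' D' : ℝ) := by
        rw [← h2]
        exact Int.cast_natCast _
      rw [h3]
      exact St.H_le (σ := σ.wm 0) (by omega) (hI'.trans hI) (fun l _ => hc l) hn h1
    have s5 : 2 * (U.map (om c0 n0 J)).sum * nz c0 n0 I' D' ≤ 3 * θ * nz c0 n0 I' D' :=
      mul_le_mul_of_nonneg_right (by linarith) hz
    have s6 : (1 + 3 * θ) * nz c0 n0 I' D' = nz c0 n0 I' D' + 3 * θ * nz c0 n0 I' D' := by ring
    rw [s6]
    linarith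

private theorem hy_all (hR : Rf J c0 n0 1) (hI : I ⊆ range J) (hD : D ≤ d)
    (hc : ∀ l, σ.c l ≤ c0 l)
    (hn : σ.n J ≤ n0) (hm : ∀ k ∈ σ.ms, AdmO d J k ∨ AdmC d J e k)
    (hom : (σ.ms.map (om c0 n0 J)).sum ≤ θ) (hη : 0 ≤ η) (hθ : 3 * θ ≤ η) (hθ1 : 3 * θ ≤ 1)
    (hp : PosL J c0 n0 η σ I D) : ∀ D' ≤ D, HY J σ I D c0 n0 θ D' := by
  intro D'
  induction D' with
  | zero =>
    intro _ M _ I'' _ D'' h
    exact absurd h (Nat.not_lt_zero _)
  | succ D' ih =>
    intro hDD M hM I'' hI'' D'' hD'' h1 h2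
    by_cases h3 : D'' < D'
    · exact ih (by omega) M hM I'' hI'' D'' h3 h1 h2
    · have h4 : D'' = D' := by omega
      subst h4
      have h5 := cmp_step hR hI hD hc hn hm hom hθ1 (ih (by omega)) hM hI'' h1 h2
      refine ⟨?_, h5.2⟩
      refine le_trans ?_ h5.1
      have h6 := hp I'' hI'' D'' h1 (by omega) h2
      have h7 : 3 * θ * nz c0 n0 I'' D'' ≤ η * nz c0 n0 I'' D'' :=
        mul_le_mul_of_nonneg_right hθ (fam_nz_nonneg _ _ _ _)
      linarith

/-- **Comparison**: bounds for all members of the family of `σ`. -/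
theorem cmp (hR : Rf J c0 n0 1) (hI : I ⊆ range J) (hD : D ≤ d) (hc : ∀ l, σ.c l ≤ c0 l)
    (hn : σ.n J ≤ n0) (hm : ∀ k ∈ σ.ms, AdmO d J k ∨ AdmC d J e k)
    (hom : (σ.ms.map (om c0 n0 J)).sum ≤ θ) (hη : 0 ≤ η) (hθ : 3 * θ ≤ η) (hθ1 : 3 * θ ≤ 1)
    (hp : PosL J c0 n0 η σ I D) {R : Multiset Kd} (hF : Fam σ.ms R) :
    ∀ I' ⊆ I, ∀ D' : ℕ, I'.card ≤ D' → D' + (I \ I').card ≤ D →
      (σ.V J I' D' : ℝ) - 3 * θ * nz c0 n0 I' D' ≤ (σ.wm R).V J I' D' ∧
        ((σ.wm R).V J I' D' : ℝ) ≤ (1 + 3 * θ) * nz c0 n0 I' D' := by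
  intro I' hI' D' h1 h2
  exact cmp_step hR hI hD hc hn hm hom hθ1
    (hy_all hR hI hD hc hn hm hom hη hθ hθ1 hp D' (by omega)) hF hI' h1 h2

/-- A cluster and its members. -/
theorem fam_cl (hR : Rf J c0 n0 1) (hI : I ⊆ range J) (hD : D ≤ d) (hc : ∀ l, σ.c l ≤ c0 l)
    (hn : σ.n J ≤ n0) (hm : ∀ k ∈ σ.ms, AdmO d J k ∨ AdmC d J e k)
    (hom : (σ.ms.map (om c0 n0 J)).sum ≤ θ) (hη : 0 ≤ η) (hθ : 3 * θ ≤ η) (hθ1 : 3 * θ ≤ 1)
    (hp : PosL J c0 n0 η σ I D) {M : Multiset Kd} (hM : Fam σ.ms M) {dl i : ℕ}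
    {As : List (Finset ℕ)} (hk : AdmC d J e (.cl e dl i As)) :
    ∀ I' ⊆ I, ∀ D' : ℕ, D' + (I \ I').card ≤ D →
      |((σ.wm (.cl e dl i As ::ₘ M)).V J I' D' : ℝ) - (σ.wm (mb e As + M)).V J I' D'| ≤
        2 * om c0 n0 J (.cl e dl i As) * nz c0 n0 I' D' := by
  intro I' hI' D' h2
  exact lemB hR hI (hy_all hR hI hD hc hn hm hom hη hθ hθ1 hp D' (by omega)) hm hθ1 hM hk hI' h2

/-- The state with all clusters replaced by their members. -/
theorem cmp_all (hR : Rf J c0 n0 1) (hI : I ⊆ range J) (hD : D ≤ d) (hc : ∀ l, σ.c l ≤ c0 l)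
    (hn : σ.n J ≤ n0) (hm : ∀ k ∈ σ.ms, AdmO d J k ∨ AdmC d J e k)
    (hom : (σ.ms.map (om c0 n0 J)).sum ≤ θ) (hη : 0 ≤ η) (hθ : 3 * θ ≤ η) (hθ1 : 3 * θ ≤ 1)
    (hp : PosL J c0 n0 η σ I D) :
    ∀ I' ⊆ I, ∀ D' : ℕ, I'.card ≤ D' → D' + (I \ I').card ≤ D →
      |(σ.V J I' D' : ℝ) - (σ.wm (σ.ms.bind mmb)).V J I' D'| ≤ 3 * θ * nz c0 n0 I' D' := by
  intro I' hI' D' h1 h2
  have hθ0 : 0 ≤ θ := (fam_om_sum _).trans hom
  have h3 := lemE hR hI (hy_all hR hI hD hc hn hm hom hη hθ hθ1 hp D' (by omega)) hm hθ1 hI' h2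
    σ.ms 0 (by rw [zero_add])
  rw [zero_add, zero_add] at h3
  have h4 : σ.wm σ.ms = σ := rfl
  rw [h4] at h3
  exact h3.trans (mul_le_mul_of_nonneg_right (by linarith) (fam_nz_nonneg _ _ _ _))

end

end Pool.Agent.GD.AL
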