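import Pool.Agent.XD.Fam
import Pool.Agent.H54.V7.Lim

/-!
# General d, ALPHA: linear algebra

`first_order`: if the dimension of the kernel of `A(t) = ∑ t^k A_k` is the smallest one at `t = 0`, then
`A_1` maps the kernel of `A_0` into the range of `A_0`.  `limit_sub`: the limit of the kernels.
`indep`: subspaces `B_0, …, B_(n-1)` of independent codimensions.
-/

set_option autoImplicit false

namespace Pool.Agent.GD.AL

open Finset

section

variable {V W : Type} [AddCommGroup V] [Module ℂ V] [AddCommGroup W] [Module ℂ W]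

/-- The value at `t` of the family with the coefficients `A 0, …, A N`. -/
def fam (N : ℕ) (A : ℕ → V →ₗ[ℂ] W) (t : ℂ) : V →ₗ[ℂ] W := ∑ k ∈ range (N + 1), t ^ k • A k

theorem fam_apply (N : ℕ) (A : ℕ → V →ₗ[ℂ] W) (t : ℂ) (f : V) :
    fam N A t f = ∑ k ∈ range (N + 1), t ^ k • A k f := by
  unfold fam
  rw [LinearMap.sum_apply]
  rfl

theorem fam_zero (N : ℕ) (A : ℕ → V →ₗ[ℂ] W) : fam N A 0 = A 0 := by
  unfold fam
  rw [sum_eq_single 0]
  · rw [pow_zero, one_smul]
  · intro k _ hk
    rw [zero_pow hk, zero_smul]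
  · intro h
    exact absurd (mem_range.2 (Nat.succ_pos N)) h

/-- Coordinates on the ranges of finitely many maps from a space of finite dimension. -/
theorem exists_co [Module.Finite ℂ V] (N : ℕ) (A : ℕ → V →ₗ[ℂ] W) :
    ∃ (n : ℕ) (c : W →ₗ[ℂ] (Fin n → ℂ)),
      ∀ w ∈ (⨆ k ∈ range (N + 1), LinearMap.range (A k)), c w = 0 → w = 0 := by
  classical
  set U : Submodule ℂ W := ⨆ k ∈ range (N + 1), LinearMap.range (A k) with hU
  have hfin : Module.Finite ℂ U := by
    have h1 : ∀ k, Module.Finite ℂ (LinearMap.range (A k)) := fun k => inferInstance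
    rw [hU, ← Finset.sup_eq_iSup]
    exact Submodule.finiteDimensional_finset_sup _ _
  obtain ⟨g, hg⟩ := LinearMap.exists_leftInverse_of_injective U.subtype (by
    rw [Submodule.ker_subtype])
  refine ⟨Module.finrank ℂ U, (Module.finBasis ℂ U).equivFun.toLinearMap ∘ₗ g, fun w hw h => ?_⟩
  have h1 : g w = ⟨w, hw⟩ := LinearMap.congr_fun hg ⟨w, hw⟩
  have h2 : (Module.finBasis ℂ U).equivFun (g w) = 0 := h
  have h3 : g w = 0 := (Module.finBasis ℂ U).equivFun.injective (h2.trans (map_zero _).symm)
  rw [h1] at h3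
  exact congrArg Subtype.val h3

theorem fam_mem (N : ℕ) (A : ℕ → V →ₗ[ℂ] W) (t : ℂ) (f : V) :
    fam N A t f ∈ (⨆ k ∈ range (N + 1), LinearMap.range (A k)) := by
  rw [fam_apply]
  refine Submodule.sum_mem _ fun k hk => Submodule.smul_mem _ _ ?_
  exact Submodule.mem_iSup_of_mem k (Submodule.mem_iSup_of_mem hk ⟨f, rfl⟩)

theorem coef_mem {N : ℕ} (A : ℕ → V →ₗ[ℂ] W) {k : ℕ} (hk : k ≤ N) (f : V) :
    A k f ∈ (⨆ k ∈ range (N + 1), LinearMap.range (A k)) :=
  Submodule.mem_iSup_of_mem k (Submodule.mem_iSup_of_mem (mem_range.2 (Nat.lt_succ_of_le hk))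
    ⟨f, rfl⟩)

/-- **The first order lemma.** -/
theorem first_order [Module.Finite ℂ V] {N : ℕ} (hN : 1 ≤ N) (A : ℕ → V →ₗ[ℂ] W)
    (h : ∀ t, Module.finrank ℂ (LinearMap.ker (A 0)) ≤
      Module.finrank ℂ (LinearMap.ker (fam N A t))) {f : V} (hf : A 0 f = 0) :
    ∃ g, A 0 g = A 1 f := by
  classical
  obtain ⟨n, c, hc⟩ := exists_co N A
  let b := Module.finBasis ℂ V
  let R : Fin (Module.finrank ℂ V) → Fin n → Polynomial ℂ := fun i e =>
    ∑ k ∈ range (N + 1), Polynomial.monomial k (c (A k (b i)) e)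
  let g : Fin n → Polynomial ℂ := fun e =>
    ∑ k ∈ range N, Polynomial.monomial k (c (A (k + 1) f) e)
  have hR : ∀ (t : ℂ) (i : Fin (Module.finrank ℂ V)),
      (fun e => Polynomial.eval t (R i e)) = c (fam N A t (b i)) := by
    intro t i
    funext e
    rw [fam_apply, map_sum, Finset.sum_apply, Polynomial.eval_finsetSum]
    refine sum_congr rfl fun k _ => ?_
    rw [Polynomial.eval_monomial, map_smul, Pi.smul_apply, smul_eq_mul, mul_comm]
  have hspan : ∀ t : ℂ, Submodule.span ℂ (Set.range fun i (e : Fin n) =>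
      Polynomial.eval t (R i e)) = LinearMap.range (c ∘ₗ fam N A t) := by
    intro t
    have h1 : (fun i (e : Fin n) => Polynomial.eval t (R i e)) =
        fun i => (c ∘ₗ fam N A t) (b i) := by
      funext i
      exact hR t i
    rw [h1]
    have h2 : Set.range (fun i => (c ∘ₗ fam N A t) (b i)) = (c ∘ₗ fam N A t) '' Set.range b := by
      rw [← Set.range_comp]
      rfl
    rw [h2, Submodule.span_image, b.span_eq, LinearMap.range_eq_map]
  have hker : ∀ t, LinearMap.ker (c ∘ₗ fam N A t) = LinearMap.ker (fam N A t) := by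
    intro t
    ext x
    rw [LinearMap.mem_ker, LinearMap.mem_ker, LinearMap.comp_apply]
    exact ⟨fun hx => hc _ (fam_mem N A t x) hx, fun hx => by rw [hx, map_zero]⟩
  have hlim := Pool.Agent.XD.fam_lim R g (by
    intro t ht
    rw [hspan]
    refine ⟨t⁻¹ • f, ?_⟩
    have h1 : fam N A t f = ∑ k ∈ range N, t ^ (k + 1) • A (k + 1) f := by
      rw [fam_apply, sum_range_succ', hf, smul_zero, add_zero]
    rw [LinearMap.comp_apply, map_smul, h1, map_smul, map_sum]
    funext e
    rw [Pi.smul_apply, Finset.sum_apply, smul_eq_mul, mul_sum, Polynomial.eval_finsetSum]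
    refine sum_congr rfl fun k _ => ?_
    rw [map_smul, Pi.smul_apply, smul_eq_mul, Polynomial.eval_monomial, pow_succ]
    field_simp) (by
    intro t
    rw [hspan, hspan, fam_zero]
    have h1 := LinearMap.finrank_range_add_finrank_ker (c ∘ₗ fam N A t)
    have h2 := LinearMap.finrank_range_add_finrank_ker (c ∘ₗ A 0)
    rw [hker] at h1
    have h3 := hker 0
    rw [fam_zero] at h3
    rw [h3] at h2
    have h4 := h t
    omega)
  rw [hspan, fam_zero] at hlim
  obtain ⟨x, hx⟩ := hlim
  refine ⟨x, ?_⟩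
  rw [← sub_eq_zero]
  refine hc _ (Submodule.sub_mem _ (coef_mem A (Nat.zero_le N) x) (coef_mem A hN f)) ?_
  rw [map_sub, sub_eq_zero]
  have h1 : c (A 0 x) = fun e => Polynomial.eval 0 (g e) := hx
  rw [h1]
  funext e
  rw [Polynomial.eval_finsetSum, sum_eq_single 0]
  · rw [Polynomial.eval_monomial, pow_zero, mul_one]
  · intro k _ hk
    rw [Polynomial.eval_monomial, zero_pow hk, mul_zero]
  · intro h2
    exact absurd (mem_range.2 hN) h2

/-- **The limit of the kernels.** -/
theorem limit_sub [Module.Finite ℂ V] {N : ℕ} (A : ℕ → V →ₗ[ℂ] W) (hA : ∀ k, N < k → A k = 0)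
    (R : Submodule ℂ V)
    (hR : ∀ F : ℕ → V, (∀ n, ∑ x ∈ antidiagonal n, A x.1 (F x.2) = 0) → F 0 ∈ R) :
    ∃ t : ℂ, Module.finrank ℂ (LinearMap.ker (fam N A t)) ≤ Module.finrank ℂ R := by
  classical
  obtain ⟨n, c, hc⟩ := exists_co N A
  let b := Module.finBasis ℂ V
  let m := Module.finrank ℂ V
  let Mx : Fin n → Fin m → Polynomial ℂ := fun r e =>
    ∑ k ∈ range (N + 1), Polynomial.monomial k (c (A k (b e)) r)
  let R' : Submodule ℂ (Fin m → ℂ) := R.map b.equivFun.toLinearMap
  obtain ⟨t, ht⟩ := Pool.Agent.H54.V7.poly_limit Mx R' (by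
    intro F hF
    let G : ℕ → V := fun k => b.equivFun.symm fun e => (F e).coeff k
    have hG : ∀ k, G k = ∑ e, (F e).coeff k • b e := by
      intro k
      exact b.equivFun_symm_apply _
    refine ⟨G 0, hR G fun l => ?_, ?_⟩
    · refine hc _ (Submodule.sum_mem _ fun x _ => ?_) ?_
      · by_cases hx : x.1 ≤ N
        · exact coef_mem A hx _
        · rw [hA x.1 (not_le.1 hx), LinearMap.zero_apply]
          exact Submodule.zero_mem _
      · funext r
        have h1 := congrArg (fun q : Polynomial ℂ => q.coeff l) (hF r)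
        rw [Polynomial.coeff_zero, Polynomial.finsetSum_coeff] at h1
        rw [map_sum, Finset.sum_apply, Pi.zero_apply, ← h1]
        have h2 : ∀ x ∈ antidiagonal l, (c (A x.1 (G x.2))) r =
            ∑ e, (F e).coeff x.2 * (c (A x.1 (b e)) r) := by
          intro x _
          rw [hG, map_sum, map_sum, Finset.sum_apply]
          refine sum_congr rfl fun e _ => ?_
          rw [map_smul, map_smul, Pi.smul_apply, smul_eq_mul]
        rw [sum_congr rfl h2, sum_comm]
        refine sum_congr rfl fun e _ => ?_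
        rw [mul_comm (F e), Polynomial.coeff_mul]
        refine sum_congr rfl fun x _ => ?_
        have h3 : (Mx r e).coeff x.1 = c (A x.1 (b e)) r := by
          rw [Polynomial.finsetSum_coeff]
          by_cases hx : x.1 ∈ range (N + 1)
          · rw [sum_eq_single x.1]
            · rw [Polynomial.coeff_monomial, if_pos rfl]
            · intro k _ hk
              rw [Polynomial.coeff_monomial, if_neg hk]
            · intro h3
              exact absurd hx h3
          · rw [sum_eq_zero]
            · rw [mem_range, not_lt] at hx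
              rw [hA x.1 hx, LinearMap.zero_apply, map_zero, Pi.zero_apply]
            · intro k hk
              rw [Polynomial.coeff_monomial, if_neg]
              rintro rfl
              exact hx hk
        rw [h3, mul_comm]
    · funext e
      show b.equivFun (G 0) e = _
      rw [show b.equivFun (G 0) = _ from b.equivFun.apply_symm_apply _]
      exact Polynomial.coeff_zero_eq_eval_zero _)
  refine ⟨t, ?_⟩
  have h1 : Module.finrank ℂ R' = Module.finrank ℂ R :=
    (Submodule.equivMapOfInjective _ b.equivFun.injective R).finrank_eq.symm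
  rw [h1] at ht
  refine le_trans (le_of_eq ?_) ht
  have h2 : Pool.Agent.H54.V7.solAt Mx t = (LinearMap.ker (fam N A t)).map
      b.equivFun.toLinearMap := by
    ext f
    rw [Pool.Agent.H54.V7.mem_solAt]
    have h3 : ∀ r, ∑ e, f e * (Mx r e).eval t = c (fam N A t (b.equivFun.symm f)) r := by
      intro r
      rw [b.equivFun_symm_apply, map_sum, map_sum, Finset.sum_apply]
      refine sum_congr rfl fun e _ => ?_
      rw [map_smul, map_smul, Pi.smul_apply, smul_eq_mul]
      congr 1
      rw [fam_apply, map_sum, Finset.sum_apply, Polynomial.eval_finsetSum]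
      refine sum_congr rfl fun k _ => ?_
      rw [Polynomial.eval_monomial, map_smul, Pi.smul_apply, smul_eq_mul, mul_comm]
    constructor
    · intro h
      refine ⟨b.equivFun.symm f, ?_, b.equivFun.apply_symm_apply f⟩
      refine hc _ (fam_mem N A t _) ?_
      funext r
      rw [← h3 r, h r, Pi.zero_apply]
    · rintro ⟨x, hx, rfl⟩ r
      rw [h3 r]
      have h4 : b.equivFun.symm (b.equivFun.toLinearMap x) = x := b.equivFun.symm_apply_apply x
      rw [h4]
      have h5 : fam N A t x = 0 := hx
      rw [h5, map_zero, Pi.zero_apply]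
  rw [h2]
  exact (Submodule.equivMapOfInjective _ b.equivFun.injective _).finrank_eq

end

section

variable {M : Type} [AddCommGroup M] [Module ℂ M]

/-- `⨅_{b < a} (E ⊔ B b) ⊓ G`. -/
def Cap (G E : Submodule ℂ M) (B : ℕ → Submodule ℂ M) : ℕ → Submodule ℂ M
  | 0 => G
  | a + 1 => Cap G E B a ⊓ (E ⊔ B a)

/-- **Independent codimensions.** -/
theorem indep (G E : Submodule ℂ M) [Module.Finite ℂ G] (hE : E ≤ G) (B K : ℕ → Submodule ℂ M)
    (hB : ∀ a, B a ≤ G) (n : ℕ) (hKG : ∀ a < n, K a ≤ G) (hK : ∀ a < n, ∀ b < a, K a ≤ B b)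
    (hG : ∀ a < n, G ≤ K a ⊔ B a) :
    ∑ a ∈ range n, ((Module.finrank ℂ G : ℤ) + Module.finrank ℂ (E ⊓ B a : Submodule ℂ M) -
      Module.finrank ℂ (B a) - Module.finrank ℂ E) ≤
        (Module.finrank ℂ G : ℤ) - Module.finrank ℂ E := by
  have fin_le : ∀ U : Submodule ℂ M, U ≤ G → Module.Finite ℂ U := fun U hU =>
    Submodule.finiteDimensional_of_le hU
  have hCG : ∀ a, Cap G E B a ≤ G := by
    intro a
    induction a with
    | zero => exact le_rfl
    | succ a ih => exact inf_le_left.trans ih
  have hEC : ∀ a, E ≤ Cap G E B a := by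
    intro a
    induction a with
    | zero => exact hE
    | succ a ih => exact le_inf ih le_sup_left
  have hKC : ∀ a < n, ∀ b ≤ a, K a ≤ Cap G E B b := by
    intro a ha b hb
    induction b with
    | zero => exact hKG a ha
    | succ b ih => exact le_inf (ih (by omega)) ((hK a ha b (by omega)).trans le_sup_right)
  have main : ∀ a ≤ n, ∑ b ∈ range a, ((Module.finrank ℂ G : ℤ) +
      Module.finrank ℂ (E ⊓ B b : Submodule ℂ M) - Module.finrank ℂ (B b) -
        Module.finrank ℂ E) = (Module.finrank ℂ G : ℤ) - Module.finrank ℂ (Cap G E B a) := by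
    intro a ha
    induction a with
    | zero => rw [sum_range_zero]; exact (sub_self _).symm
    | succ a ih =>
      rw [sum_range_succ, ih (by omega)]
      have h1 : Cap G E B a ⊔ (E ⊔ B a) = G := by
        refine le_antisymm (sup_le (hCG a) (sup_le hE (hB a))) ?_
        exact (hG a (by omega)).trans (sup_le_sup (hKC a (by omega) a le_rfl) le_sup_right)
      have f1 := fin_le _ (hCG a)
      have f2 := fin_le _ (sup_le hE (hB a))
      have f3 := fin_le _ hE
      have f4 := fin_le _ (hB a)
      have h2 := Submodule.finrank_sup_add_finrank_inf_eq (Cap G E B a) (E ⊔ B a)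
      have h3 := Submodule.finrank_sup_add_finrank_inf_eq E (B a)
      rw [h1] at h2
      have h4 : Cap G E B (a + 1) = Cap G E B a ⊓ (E ⊔ B a) := rfl
      rw [h4]
      push_cast
      omega
  rw [main n le_rfl]
  have f1 := fin_le _ (hCG n)
  have h1 := Submodule.finrank_mono (hEC n)
  omega

end

end Pool.Agent.GD.AL
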