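import Pool.Agent.GD.AL.Fl
import Pool.Agent.GD.AL.Lin

/-!
# General d, ALPHA: the kind inequality

`A` = the blocks on which a point of the kind `(K, e)` vanishes, `i ∉ A`, `i ∈ I`, `A' = insert i A`.
`kk d β I ms e A` is the number of conditions which are missing: `dim M_(d-e)^(I ∩ A) - rank`.
`KI`: `c' (kk e A - kk e A') ≤ kk (e-1) A' - kk e A'`.

Proof.  `q'` general of kind `A'`, `z_0, …, z_(c'-1)` general of kind `Az` (`A ⊆ Az`, `i ∉ Az`).  Limits
`F_0` of forms killed by `(q' - t z)^e`: `q'^(e-1+κ) F_κ = const z^κ q'^(e-1) F_0` (`seq_lim`), so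
`z^κ (q'^(e-1) F_0)` lies in the level `I ∩ A'` for all `κ`.  `Btw`: the subspace of these conditions in
`G = X^(I ∩ A')_D ∩ ker q'`, of codimension `Δ = ∑_l (dim (X^(I∩A)_l ∩ ker q') - dim (X^(I∩A')_l ∩ ker q'))`,
also inside the subspace killed by the other `z_b`; `indep`.
-/

set_option autoImplicit false
set_option linter.unusedSectionVars false

namespace Pool.Agent.GD.AL

open Finset MvPolynomial Pool.Agent.H51.TB Pool.Agent.V7.ST
open Pool.Agent.V7 (msk)

/-! ### Linear algebra -/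

section

variable {M : Type} [AddCommGroup M] [Module ℂ M]

theorem rk (U : Submodule ℂ M) [Module.Finite ℂ U] (T : M →ₗ[ℂ] M) :
    Module.finrank ℂ U = Module.finrank ℂ (U.map T) +
      Module.finrank ℂ (U ⊓ LinearMap.ker T : Submodule ℂ M) := by
  have h1 := LinearMap.finrank_range_add_finrank_ker (T.domRestrict U)
  have h2 : LinearMap.range (T.domRestrict U) = U.map T := by
    ext x
    constructor
    · rintro ⟨y, rfl⟩
      exact ⟨y.1, y.2, rfl⟩
    · rintro ⟨y, hy, rfl⟩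
      exact ⟨⟨y, hy⟩, rfl⟩
  have h3 : (LinearMap.ker (T.domRestrict U)).map U.subtype = U ⊓ LinearMap.ker T := by
    ext x
    constructor
    · rintro ⟨y, hy, rfl⟩
      exact ⟨y.2, hy⟩
    · rintro ⟨hx, hx'⟩
      exact ⟨⟨x, hx⟩, hx', rfl⟩
  have h4 : Module.finrank ℂ (LinearMap.ker (T.domRestrict U)) =
      Module.finrank ℂ (U ⊓ LinearMap.ker T : Submodule ℂ M) := by
    rw [← h3]
    exact (Submodule.equivMapOfInjective _ U.injective_subtype _).finrank_eq
  rw [← h1, h2, h4]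

/-- `T^κ g ∈ P2 (j - κ)` for all `κ ≤ j`. -/
def Btw (P2 : ℕ → Submodule ℂ M) (T : M →ₗ[ℂ] M) : ℕ → Submodule ℂ M
  | 0 => P2 0
  | j + 1 => P2 (j + 1) ⊓ (Btw P2 T j).comap T

theorem mem_Btw {P2 : ℕ → Submodule ℂ M} {T : M →ₗ[ℂ] M} {j : ℕ} {g : M} :
    g ∈ Btw P2 T j ↔ ∀ κ ≤ j, (T ^ κ) g ∈ P2 (j - κ) := by
  induction j generalizing g with
  | zero =>
    constructor
    · intro h κ hκ
      obtain rfl : κ = 0 := Nat.le_zero.1 hκ
      exact h
    · intro h
      exact h 0 le_rfl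
  | succ j ih =>
    constructor
    · rintro ⟨h1, h2⟩ κ hκ
      cases κ with
      | zero => exact h1
      | succ κ =>
        rw [pow_succ, Module.End.mul_apply]
        have h3 := ih.1 h2 κ (by omega)
        have e : j + 1 - (κ + 1) = j - κ := by omega
        rw [e]
        exact h3
    · intro h
      refine ⟨h 0 (Nat.zero_le _), ih.2 fun κ hκ => ?_⟩
      have h1 := h (κ + 1) (by omega)
      rw [pow_succ, Module.End.mul_apply] at h1
      have e : j + 1 - (κ + 1) = j - κ := by omega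
      rwa [e] at h1

theorem Btw_le (P2 : ℕ → Submodule ℂ M) (T : M →ₗ[ℂ] M) (j : ℕ) : Btw P2 T j ≤ P2 j := by
  intro g hg
  exact mem_Btw.1 hg 0 (Nat.zero_le _)

/-- The upper bound of the codimension. -/
theorem tele_le (P1 P2 : ℕ → Submodule ℂ M) (T : M →ₗ[ℂ] M) (h1 : ∀ j, Module.Finite ℂ (P1 j))
    (h2 : ∀ j, Module.Finite ℂ (P2 j)) (hT : ∀ j, ∀ g ∈ P2 (j + 1), T g ∈ P1 j)
    (h21 : ∀ j, P2 j ≤ P1 j) (j : ℕ) :
    (Module.finrank ℂ (P2 j) : ℤ) ≤ Module.finrank ℂ (Btw P2 T j) +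
      ∑ l ∈ range j, ((Module.finrank ℂ (P1 l) : ℤ) - Module.finrank ℂ (P2 l)) := by
  induction j with
  | zero => rw [sum_range_zero, add_zero]; exact le_rfl
  | succ j ih =>
    rw [sum_range_succ]
    have f1 := h1 j
    have f2 := h2 (j + 1)
    have f3 := h2 j
    have f4 : Module.Finite ℂ (Btw P2 T (j + 1)) :=
      Submodule.finiteDimensional_of_le (Btw_le P2 T (j + 1))
    have h3 := rk (P2 (j + 1)) T
    have h4 := rk (Btw P2 T (j + 1)) T
    have h5 : Btw P2 T (j + 1) ⊓ LinearMap.ker T = P2 (j + 1) ⊓ LinearMap.ker T := by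
      ext x
      constructor
      · rintro ⟨⟨h6, _⟩, h8⟩
        exact ⟨h6, h8⟩
      · rintro ⟨h6, h8⟩
        refine ⟨⟨h6, ?_⟩, h8⟩
        have h9 : T x = 0 := h8
        show T x ∈ Btw P2 T j
        rw [h9]
        exact Submodule.zero_mem _
    have h6 : (Btw P2 T (j + 1)).map T = (P2 (j + 1)).map T ⊓ Btw P2 T j := by
      ext x
      constructor
      · rintro ⟨y, ⟨hy, hy'⟩, rfl⟩
        exact ⟨⟨y, hy, rfl⟩, hy'⟩
      · rintro ⟨⟨y, hy, rfl⟩, hy'⟩
        exact ⟨y, ⟨hy, hy'⟩, rfl⟩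
    have h7 : (P2 (j + 1)).map T ≤ P1 j := by
      rintro x ⟨y, hy, rfl⟩
      exact hT j y hy
    have f5 : Module.Finite ℂ ((P2 (j + 1)).map T) := Submodule.finiteDimensional_of_le h7
    have f6 : Module.Finite ℂ (Btw P2 T j) := Submodule.finiteDimensional_of_le (Btw_le P2 T j)
    have h8 := Submodule.finrank_sup_add_finrank_inf_eq ((P2 (j + 1)).map T) (Btw P2 T j)
    have h9 : Module.finrank ℂ ((P2 (j + 1)).map T ⊔ Btw P2 T j : Submodule ℂ M) ≤
        Module.finrank ℂ (P1 j) :=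
      Submodule.finrank_mono (sup_le h7 ((Btw_le P2 T j).trans (h21 j)))
    rw [h5, h6] at h4
    omega

/-- The codimension if the maps are surjective. -/
theorem tele_eq (P1 P2 : ℕ → Submodule ℂ M) (T : M →ₗ[ℂ] M) (h1 : ∀ j, Module.Finite ℂ (P1 j))
    (h2 : ∀ j, Module.Finite ℂ (P2 j)) (hT : ∀ j, ∀ g ∈ P2 (j + 1), T g ∈ P1 j)
    (h21 : ∀ j, P2 j ≤ P1 j) (D : ℕ) (hs : ∀ j < D, Module.finrank ℂ (P2 (j + 1)) =
      Module.finrank ℂ (P2 (j + 1) ⊓ LinearMap.ker T : Submodule ℂ M) +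
        Module.finrank ℂ (P1 j)) (j : ℕ) (hj : j ≤ D) :
    (Module.finrank ℂ (P2 j) : ℤ) = Module.finrank ℂ (Btw P2 T j) +
      ∑ l ∈ range j, ((Module.finrank ℂ (P1 l) : ℤ) - Module.finrank ℂ (P2 l)) := by
  induction j with
  | zero => rw [sum_range_zero, add_zero]; rfl
  | succ j ih =>
    rw [sum_range_succ]
    have f1 := h1 j
    have f2 := h2 (j + 1)
    have f3 := h2 j
    have f4 : Module.Finite ℂ (Btw P2 T (j + 1)) :=
      Submodule.finiteDimensional_of_le (Btw_le P2 T (j + 1))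
    have h3 := rk (P2 (j + 1)) T
    have h4 := rk (Btw P2 T (j + 1)) T
    have h5 : Btw P2 T (j + 1) ⊓ LinearMap.ker T = P2 (j + 1) ⊓ LinearMap.ker T := by
      ext x
      constructor
      · rintro ⟨⟨h6, _⟩, h8⟩
        exact ⟨h6, h8⟩
      · rintro ⟨h6, h8⟩
        refine ⟨⟨h6, ?_⟩, h8⟩
        have h9 : T x = 0 := h8
        show T x ∈ Btw P2 T j
        rw [h9]
        exact Submodule.zero_mem _
    have h7 : (P2 (j + 1)).map T ≤ P1 j := by
      rintro x ⟨y, hy, rfl⟩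
      exact hT j y hy
    have h8 : (P2 (j + 1)).map T = P1 j := by
      refine Submodule.eq_of_le_of_finrank_eq h7 ?_
      have := hs j (by omega)
      omega
    have h6 : (Btw P2 T (j + 1)).map T = Btw P2 T j := by
      ext x
      constructor
      · rintro ⟨y, ⟨hy, hy'⟩, rfl⟩
        exact hy'
      · intro hx
        have h9 : x ∈ (P2 (j + 1)).map T := by
          rw [h8]
          exact h21 j (Btw_le P2 T j hx)
        obtain ⟨y, hy, rfl⟩ := h9
        exact ⟨y, ⟨hy, hx⟩, rfl⟩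
    rw [h5, h6] at h4
    have h9 := hs j (by omega)
    have h10 := ih (by omega)
    omega

end

/-! ### Sequences killed by `(Q - t Z)^e` -/

section

variable {ν : Type} [Fintype ν] [DecidableEq ν]

/-- `(Q - t Z) F` for a series `F`. -/
noncomputable def opS (Q Z : MvPolynomial ν ℂ) (F : ℕ → Dl ν) : ℕ → Dl ν
  | 0 => ct Q (F 0)
  | n + 1 => ct Q (F (n + 1)) - ct Z (F n)

theorem opS_iter (Q Z : MvPolynomial ν ℂ) (e : ℕ) (F : ℕ → Dl ν) (n : ℕ) :
    ((opS Q Z)^[e] F) n = ∑ x ∈ antidiagonal n,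
      ((-1 : ℂ) ^ x.1 * (e.choose x.1 : ℂ)) • ct (Z ^ x.1 * Q ^ (e - x.1)) (F x.2) := by
  induction e generalizing n with
  | zero =>
    rw [Function.iterate_zero, id, sum_eq_single (0, n)]
    · rw [pow_zero, Nat.choose_self, Nat.cast_one, mul_one, one_smul, pow_zero, Nat.sub_self,
        pow_zero, mul_one, ct_one]
    · rintro ⟨a, b⟩ hab hne
      rw [HasAntidiagonal.mem_antidiagonal] at hab
      have ha : a ≠ 0 := by
        rintro rfl
        apply hne
        rw [zero_add] at hab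
        rw [← hab]
      obtain ⟨a, rfl⟩ := Nat.exists_eq_succ_of_ne_zero ha
      rw [Nat.choose_zero_succ, Nat.cast_zero, mul_zero, zero_smul]
    · intro h
      exact absurd (HasAntidiagonal.mem_antidiagonal.2 (zero_add n)) h
  | succ e ih =>
    rw [Function.iterate_succ_apply']
    have hQ : ∀ l, ct Q (((opS Q Z)^[e] F) l) = ∑ x ∈ antidiagonal l,
        ((-1 : ℂ) ^ x.1 * (e.choose x.1 : ℂ)) • ct (Z ^ x.1 * Q ^ (e + 1 - x.1)) (F x.2) := by
      intro l
      rw [ih, map_sum]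
      refine sum_congr rfl fun x _ => ?_
      rw [map_smul]
      by_cases hx : x.1 ≤ e
      · rw [← ct_mul]
        congr 3
        have h1 : e + 1 - x.1 = (e - x.1) + 1 := by omega
        rw [h1, pow_succ]
        ring
      · rw [Nat.choose_eq_zero_of_lt (not_le.1 hx), Nat.cast_zero, mul_zero, zero_smul, zero_smul]
    cases n with
    | zero =>
      show ct Q (((opS Q Z)^[e] F) 0) = _
      rw [hQ 0]
      refine sum_congr rfl fun x hx => ?_
      rw [HasAntidiagonal.mem_antidiagonal] at hx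
      have h1 : x.1 = 0 := by omega
      rw [h1, Nat.choose_zero_right, Nat.choose_zero_right]
    | succ n =>
      show ct Q (((opS Q Z)^[e] F) (n + 1)) - ct Z (((opS Q Z)^[e] F) n) = _
      rw [hQ (n + 1), ih n, map_sum, Finset.Nat.antidiagonal_succ, sum_cons, sum_cons, sum_map,
        sum_map, add_sub_assoc, ← sum_sub_distrib]
      congr 1
      · rw [Nat.choose_zero_right, Nat.choose_zero_right]
      · refine sum_congr rfl fun x _ => ?_
        show ((-1 : ℂ) ^ (x.1 + 1) * (e.choose (x.1 + 1) : ℂ)) •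
            ct (Z ^ (x.1 + 1) * Q ^ (e + 1 - (x.1 + 1))) (F x.2) -
          ct Z (((-1 : ℂ) ^ x.1 * (e.choose x.1 : ℂ)) • ct (Z ^ x.1 * Q ^ (e - x.1)) (F x.2)) =
            ((-1 : ℂ) ^ (x.1 + 1) * ((e + 1).choose (x.1 + 1) : ℂ)) •
              ct (Z ^ (x.1 + 1) * Q ^ (e + 1 - (x.1 + 1))) (F x.2)
        have h1 : e + 1 - (x.1 + 1) = e - x.1 := by omega
        have h2 : ct Z (ct (Z ^ x.1 * Q ^ (e - x.1)) (F x.2)) =
            ct (Z ^ (x.1 + 1) * Q ^ (e - x.1)) (F x.2) := by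
          rw [← ct_mul]
          congr 2
          ring
        rw [h1, map_smul, h2, ← sub_smul, Nat.choose_succ_succ]
        congr 1
        push_cast
        ring

/-- **The limit lemma.** -/
theorem seq_lim (Q Z : MvPolynomial ν ℂ) (e : ℕ) (F : ℕ → Dl ν)
    (h : ∀ n, ((opS Q Z)^[e + 1] F) n = 0) (κ : ℕ) :
    ct (Q ^ (e + κ)) (F κ) = (Nat.multichoose (e + 1) κ : ℂ) • ct (Z ^ κ * Q ^ e) (F 0) := by
  induction e generalizing F κ with
  | zero =>
    induction κ with
    | zero =>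
      rw [Nat.multichoose_zero_right, Nat.cast_one, one_smul, pow_zero, pow_zero, mul_one]
    | succ κ ih =>
      have h1 : ct Q (F (κ + 1)) - ct Z (F κ) = 0 := h (κ + 1)
      rw [Nat.zero_add] at ih ⊢
      rw [Nat.multichoose_one, Nat.cast_one, one_smul, pow_zero, mul_one] at ih ⊢
      rw [pow_succ, ct_mul, sub_eq_zero.1 h1, ct_comm, ih, ← ct_mul]
      congr 2
      ring
  | succ e ih =>
    have h0 : ∀ n, ((opS Q Z)^[e + 1] (opS Q Z F)) n = 0 := by
      intro n
      rw [← Function.iterate_succ_apply]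
      exact h n
    have h1 := ih (opS Q Z F) h0
    have h2 : ∀ κ, ct (Z ^ κ * Q ^ e) (opS Q Z F 0) = ct (Z ^ κ * Q ^ (e + 1)) (F 0) := by
      intro κ
      show ct (Z ^ κ * Q ^ e) (ct Q (F 0)) = _
      rw [← ct_mul]
      congr 2
      ring
    induction κ with
    | zero =>
      rw [Nat.multichoose_zero_right, Nat.cast_one, one_smul, pow_zero, one_mul, add_zero]
    | succ κ ihκ =>
      have h3 := h1 (κ + 1)
      rw [h2] at h3
      have h4 : opS Q Z F (κ + 1) = ct Q (F (κ + 1)) - ct Z (F κ) := rfl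
      rw [h4, map_sub, sub_eq_iff_eq_add] at h3
      have h5 : ct (Q ^ (e + 1 + (κ + 1))) (F (κ + 1)) =
          ct (Q ^ (e + (κ + 1))) (ct Q (F (κ + 1))) := by
        rw [← ct_mul]
        congr 2
        ring
      have h6 : ct (Q ^ (e + (κ + 1))) (ct Z (F κ)) = ct Z (ct (Q ^ (e + 1 + κ)) (F κ)) := by
        rw [ct_comm]
        congr 2
        have : e + (κ + 1) = e + 1 + κ := by ring
        rw [this]
      rw [h5, h3, h6, ihκ, map_smul, ← ct_mul]
      have h7 : Z * (Z ^ κ * Q ^ (e + 1)) = Z ^ (κ + 1) * Q ^ (e + 1) := by ring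
      rw [h7, ← add_smul, Nat.multichoose_succ_succ (e + 1) κ]
      congr 1
      push_cast
      ring

end

end Pool.Agent.GD.AL
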