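import Pool.Agent.GD.AL.KI

/-!
# General d, ALPHA: the kind inequality, main theorem (see `KI.lean`)
-/

set_option autoImplicit false
set_option linter.unusedSectionVars false

namespace Pool.Agent.GD.AL

open Finset MvPolynomial Pool.Agent.H51.TB Pool.Agent.V7.ST
open Pool.Agent.V7 (msk)

section

variable {ν : Type} [Fintype ν] [DecidableEq ν] {d : ℕ}

theorem XX_mono {β : ν → ℕ} {D : ℕ} {I I' : Finset ℕ} (h : I ⊆ I') {κ : Type} (m : κ → Kd)
    (p : κ → ν × Fin (d + 1) → ℂ) : XX β D I' m p ≤ XX β D I m p := by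
  intro Φ hΦ
  rw [mem_XX] at hΦ ⊢
  refine ⟨Lv_mono h hΦ.1, fun x => ⟨(hΦ.2 x).1, ?_⟩⟩
  have h1 := (hΦ.2 x).2
  cases hk : m x with
  | ord e A => trivial
  | cl e dl i As =>
    rw [hk] at h1
    exact fun hi => h1 (h hi)

/-- The part of `U` killed by `Q` and by `Z 0, …, Z (a - 1)`. -/
noncomputable def KX (Q : MvPolynomial ν ℂ) (Z : ℕ → MvPolynomial ν ℂ) (a : ℕ)
    (U : Submodule ℂ (Dl ν)) : Submodule ℂ (Dl ν) :=
  U ⊓ (LinearMap.ker (ct Q) ⊓ ⨅ b ∈ range a, LinearMap.ker (ct (Z b)))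

theorem mem_KX {Q : MvPolynomial ν ℂ} {Z : ℕ → MvPolynomial ν ℂ} {a : ℕ}
    {U : Submodule ℂ (Dl ν)} {Φ : Dl ν} :
    Φ ∈ KX Q Z a U ↔ Φ ∈ U ∧ ct Q Φ = 0 ∧ ∀ b < a, ct (Z b) Φ = 0 := by
  unfold KX
  rw [Submodule.mem_inf, Submodule.mem_inf, LinearMap.mem_ker]
  simp only [Submodule.mem_iInf, mem_range, LinearMap.mem_ker]

theorem KX_succ {Q : MvPolynomial ν ℂ} {Z : ℕ → MvPolynomial ν ℂ} {a : ℕ}
    {U : Submodule ℂ (Dl ν)} : KX Q Z (a + 1) U = KX Q Z a U ⊓ LinearMap.ker (ct (Z a)) := by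
  ext Φ
  rw [Submodule.mem_inf, mem_KX, mem_KX, LinearMap.mem_ker]
  constructor
  · rintro ⟨h1, h2, h3⟩
    exact ⟨⟨h1, h2, fun b hb => h3 b (by omega)⟩, h3 a (by omega)⟩
  · rintro ⟨⟨h1, h2, h3⟩, h4⟩
    refine ⟨h1, h2, fun b hb => ?_⟩
    rcases Nat.lt_succ_iff_lt_or_eq.1 hb with h5 | rfl
    · exact h3 b h5
    · exact h4

theorem KX_le {Q : MvPolynomial ν ℂ} {Z : ℕ → MvPolynomial ν ℂ} {a : ℕ}
    {U : Submodule ℂ (Dl ν)} : KX Q Z a U ≤ U := inf_le_left

/-- The number of missing conditions of a point of the kind `ord e A`. -/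
noncomputable def kk (d D : ℕ) (β : ν → ℕ) (I : Finset ℕ) (ms : Multiset Kd) (e : ℕ)
    (A : Finset ℕ) : ℤ :=
  (HI d (D - e) β (I ∩ A) ms : ℤ) - HI d D β I ms + HI d D β I (Kd.ord e A ::ₘ ms)

/-- The dimensions of the part killed by one point of exponent `1` of the kind `A` and by `a` points of
exponent `1` of the kind `Az`. -/
noncomputable def gz (d : ℕ) (β : ν → ℕ) (ms : Multiset Kd) (A Az : Finset ℕ) (j : ℕ)
    (I : Finset ℕ) (a : ℕ) : ℕ :=
  HI d j β I (Kd.ord 1 A ::ₘ (Multiset.replicate a (Kd.ord 1 Az) + ms))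

theorem HI_zero_ord (β : ν → ℕ) (I : Finset ℕ) (ms : Multiset Kd) (A : Finset ℕ) :
    HI d 0 β I (Kd.ord 1 A ::ₘ ms) = HI d 0 β I ms := by
  obtain ⟨κ, _, m, hm⟩ : ∃ (κ : Type) (_ : Fintype κ) (m : κ → Kd),
      (univ : Finset κ).val.map m = ms := by
    obtain ⟨m, hm, -⟩ := exists_conf (LS d 0 β I) ms
    exact ⟨_, inferInstance, m, hm⟩
  let m' : κ ⊕ Unit → Kd := Sum.elim m fun _ => Kd.ord 1 A
  have hm' : (univ : Finset (κ ⊕ Unit)).val.map m' = Kd.ord 1 A ::ₘ ms := by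
    rw [map_elim, hm, Pool.Agent.V7.ST.map_const, Fintype.card_unit, Multiset.replicate_one, add_comm,
      Multiset.singleton_add]
  have key : ∀ (p : κ → ν × Fin (d + 1) → ℂ) (q : ν × Fin (d + 1) → ℂ),
      XX β 0 I m' (Sum.elim p fun _ => q) = XX β 0 I m p := by
    intro p q
    refine le_antisymm ?_ ?_
    · show XX β 0 I (Sum.elim m fun _ => Kd.ord 1 A) (Sum.elim p fun _ => q) ≤ _
      rw [XX_elim]
      exact inf_le_left
    · intro Φ hΦ
      rw [mem_XX] at hΦ ⊢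
      refine ⟨hΦ.1, fun x => ?_⟩
      rcases x with x | x
      · exact hΦ.2 x
      · show Sat β I (Kd.ord 1 A) q Φ
        rw [sat_ord, pow_one]
        exact Lv_zero_ct _ hΦ.1
  apply le_antisymm
  · obtain ⟨p, hp⟩ := (gn_XX (d := d) (Nat.zero_le d) β I m).exists
    rw [hm] at hp
    rw [← hp, ← key p 0, ← hm']
    exact HI_le (Nat.zero_le d) β I m' _
  · obtain ⟨r, hr⟩ := (gn_XX (d := d) (Nat.zero_le d) β I m').exists
    rw [hm'] at hr
    have h1 : r = Sum.elim (fun x => r (Sum.inl x)) fun _ => r (Sum.inr ()) := by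
      funext x
      rcases x with x | x <;> rfl
    rw [← hr, h1, key, ← hm]
    exact HI_le (Nat.zero_le d) β I m _

/-- Positions which are general for all the configurations which are used. -/
theorem exists_pos {D D' e c' : ℕ} (hD : D ≤ d) (hD' : D' ≤ d) (β : ν → ℕ) (I I1 I2 A' Az : Finset ℕ)
    {κ : Type} [Fintype κ] (m : κ → Kd) (ms : Multiset Kd) (hm : (univ : Finset κ).val.map m = ms) :
    ∃ (p : κ → ν × Fin (d + 1) → ℂ) (q : ν × Fin (d + 1) → ℂ) (z : Fin c' → ν × Fin (d + 1) → ℂ),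
      (∀ x, x = e ∨ x = e - 1 →
        Module.finrank ℂ (XX β D I m p ⊓ LinearMap.ker (ct (lf (opt β A' q) ^ x)) :
          Submodule ℂ (Dl ν)) = HI d D β I (Kd.ord x A' ::ₘ ms)) ∧
      (∀ I', I' = I1 ∨ I' = I2 → ∀ a (ha : a ≤ c'), ∀ j ≤ D',
        Module.finrank ℂ (XX β j I' m p ⊓ (LinearMap.ker (ct (lf (opt β A' q))) ⊓
          ⨅ b : Fin a, LinearMap.ker (ct (lf (opt β Az (z (Fin.castLE ha b)))))) :
            Submodule ℂ (Dl ν)) = gz d β ms A' Az j I' a) := by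
  classical
  let P := κ ⊕ (Unit ⊕ Fin c')
  -- the first family
  have g1 : ∀ x, Gn P (ν × Fin (d + 1)) fun r =>
      Module.finrank ℂ (XX β D I m (fun i => r (Sum.inl i)) ⊓
        LinearMap.ker (ct (lf (opt β A' (r (Sum.inr (Sum.inl ())))) ^ x)) :
          Submodule ℂ (Dl ν)) = HI d D β I (Kd.ord x A' ::ₘ ms) := by
    intro x
    let φ : κ ⊕ Unit → P := Sum.elim Sum.inl fun _ => Sum.inr (Sum.inl ())
    have hφ : Function.Injective φ := by
      rintro (a | a) (b | b) hab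
      · exact congrArg Sum.inl (Sum.inl.inj hab)
      · exact absurd hab Sum.inl_ne_inr
      · exact absurd hab Sum.inr_ne_inl
      · rfl
    let m' : κ ⊕ Unit → Kd := Sum.elim m fun _ => Kd.ord x A'
    have hm' : (univ : Finset (κ ⊕ Unit)).val.map m' = Kd.ord x A' ::ₘ ms := by
      rw [map_elim, hm, Pool.Agent.V7.ST.map_const, Fintype.card_unit, Multiset.replicate_one, add_comm,
        Multiset.singleton_add]
    refine (Gn.comap φ hφ (gn_XX hD β I m')).mono fun r hr => ?_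
    rw [hm'] at hr
    rw [← hr]
    have h1 : (fun i => r (φ i)) = Sum.elim (fun i => r (Sum.inl i))
        fun _ : Unit => r (Sum.inr (Sum.inl ())) := by
      funext i
      rcases i with i | i <;> rfl
    rw [h1]
    have h2 := XX_ord β D I m (fun _ : Unit => x) (fun _ => A') (fun i => r (Sum.inl i))
      fun _ : Unit => r (Sum.inr (Sum.inl ()))
    show _ = Module.finrank ℂ (XX β D I (Sum.elim m fun _ => Kd.ord x A') _)
    rw [h2, iInf_const]
  -- the second family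
  have g2 : ∀ I', I' = I1 ∨ I' = I2 → ∀ a : Fin (c' + 1), ∀ j : Fin (D' + 1),
      Gn P (ν × Fin (d + 1)) fun r =>
        Module.finrank ℂ (XX β j.1 I' m (fun i => r (Sum.inl i)) ⊓
          (LinearMap.ker (ct (lf (opt β A' (r (Sum.inr (Sum.inl ())))))) ⊓
          ⨅ b : Fin a.1, LinearMap.ker (ct (lf (opt β Az (r (Sum.inr (Sum.inr
            (Fin.castLE (Nat.le_of_lt_succ a.2) b)))))))) :
            Submodule ℂ (Dl ν)) = gz d β ms A' Az j.1 I' a.1 := by
    intro I' _ a j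
    let φ : κ ⊕ (Unit ⊕ Fin a.1) → P :=
      Sum.map id (Sum.map id (Fin.castLE (Nat.le_of_lt_succ a.2)))
    have hφ : Function.Injective φ :=
      Sum.map_injective.2 ⟨Function.injective_id,
        Sum.map_injective.2 ⟨Function.injective_id, Fin.castLE_injective _⟩⟩
    let m' : κ ⊕ (Unit ⊕ Fin a.1) → Kd :=
      Sum.elim m (Sum.elim (fun _ => Kd.ord 1 A') fun _ => Kd.ord 1 Az)
    have hm' : (univ : Finset (κ ⊕ (Unit ⊕ Fin a.1))).val.map m' =
        Kd.ord 1 A' ::ₘ (Multiset.replicate a.1 (Kd.ord 1 Az) + ms) := by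
      rw [map_elim, map_elim, hm, Pool.Agent.V7.ST.map_const, Pool.Agent.V7.ST.map_const, Fintype.card_unit, Fintype.card_fin,
        Multiset.replicate_one, Multiset.singleton_add, add_comm ms, Multiset.cons_add]
    refine (Gn.comap φ hφ (gn_XX (show j.1 ≤ d by have := j.2; omega) β I' m')).mono
      fun r hr => ?_
    rw [hm'] at hr
    unfold gz
    rw [← hr]
    have h1 : (fun i => r (φ i)) = Sum.elim (fun i => r (Sum.inl i))
        (Sum.elim (fun _ => r (Sum.inr (Sum.inl ()))) fun b =>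
          r (Sum.inr (Sum.inr (Fin.castLE (Nat.le_of_lt_succ a.2) b)))) := by
      funext i
      rcases i with i | i | i <;> rfl
    have h3 : m' = Sum.elim m fun i => Kd.ord ((fun _ => 1 : Unit ⊕ Fin a.1 → ℕ) i)
        ((Sum.elim (fun _ => A') fun _ => Az : Unit ⊕ Fin a.1 → Finset ℕ) i) := by
      funext i
      rcases i with i | i | i <;> rfl
    have h4 : XX β j.1 I' m (fun i => r (Sum.inl i)) ⊓
        (LinearMap.ker (ct (lf (opt β A' (r (Sum.inr (Sum.inl ())))))) ⊓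
          ⨅ b : Fin a.1, LinearMap.ker (ct (lf (opt β Az (r (Sum.inr (Sum.inr
            (Fin.castLE (Nat.le_of_lt_succ a.2) b)))))))) =
        XX β j.1 I' m' (fun i => r (φ i)) := by
      rw [h1, h3, XX_ord]
      ext Φ
      simp only [Submodule.mem_inf, Submodule.mem_iInf, LinearMap.mem_ker, Sum.forall, pow_one,
        Sum.elim_inl, Sum.elim_inr, forall_const]
    rw [h4]
  have h := ((g1 e).and (g1 (e - 1))).and ((Gn.all (univ : Finset (Fin (c' + 1) × Fin (D' + 1)))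
    fun x _ => g2 I1 (Or.inl rfl) x.1 x.2).and (Gn.all
      (univ : Finset (Fin (c' + 1) × Fin (D' + 1))) fun x _ => g2 I2 (Or.inr rfl) x.1 x.2))
  obtain ⟨r, ⟨h1, h2⟩, h3, h4⟩ := h.exists
  refine ⟨fun i => r (Sum.inl i), r (Sum.inr (Sum.inl ())), fun b => r (Sum.inr (Sum.inr b)),
    ?_, ?_⟩
  · rintro x (rfl | rfl)
    · exact h1
    · exact h2
  · rintro I' (rfl | rfl) a ha j hj
    · exact h3 (⟨a, Nat.lt_succ_of_le ha⟩, ⟨j, Nat.lt_succ_of_le hj⟩) (mem_univ _)
    · exact h4 (⟨a, Nat.lt_succ_of_le ha⟩, ⟨j, Nat.lt_succ_of_le hj⟩) (mem_univ _)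

/-- The limit of the solutions for `(q' - t z)`. -/
theorem lim_le {D e : ℕ} (hD : D ≤ d) (he : 1 ≤ e) (β : ν → ℕ) (I A : Finset ℕ)
    {κ : Type} [Fintype κ] (m : κ → Kd) (ms : Multiset Kd) (hm : (univ : Finset κ).val.map m = ms)
    (p : κ → ν × Fin (d + 1) → ℂ) (q z : ν → ℂ) (hq : ∀ s, β s ∈ A → q s = 0)
    (hz : ∀ s, β s ∈ A → z s = 0) (R : Submodule ℂ (Dl ν)) (hR : R ≤ XX β D I m p)
    (hlim : ∀ F : ℕ → Dl ν, (∀ n, F n ∈ XX β D I m p) → ct (lf q ^ e) (F 0) = 0 →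
      (∀ κ', ∃ c : ℂ, ct (lf z ^ κ' * lf q ^ (e - 1)) (F 0) = c • ct (lf q ^ (e - 1 + κ')) (F κ')) →
        F 0 ∈ R) :
    HI d D β I (Kd.ord e A ::ₘ ms) ≤ Module.finrank ℂ R := by
  classical
  obtain ⟨e', rfl⟩ : ∃ e', e = e' + 1 := ⟨e - 1, by omega⟩
  set U := XX β D I m p with hU
  have hfin : Module.Finite ℂ U := finite_XX β D I m p
  let B : ℕ → Dl ν →ₗ[ℂ] Dl ν := fun k => ((-1 : ℂ) ^ k * ((e' + 1).choose k : ℂ)) •
    ct (lf z ^ k * lf q ^ (e' + 1 - k))
  obtain ⟨t, ht⟩ := limit_sub (V := U) (N := e' + 1) (fun k => (B k).domRestrict U) (by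
    intro k hk
    ext1 x
    show ((-1 : ℂ) ^ k * ((e' + 1).choose k : ℂ)) • ct (lf z ^ k * lf q ^ (e' + 1 - k)) x.1 = 0
    rw [Nat.choose_eq_zero_of_lt hk, Nat.cast_zero, mul_zero, zero_smul]) (R.comap U.subtype) (by
    intro F hF
    have h1 : ∀ n, ((opS (lf q) (lf z))^[e' + 1] fun n => (F n).1) n = 0 := by
      intro n
      rw [opS_iter]
      exact hF n
    refine hlim (fun n => (F n).1) (fun n => (F n).2) ?_ fun κ' => ?_
    · have h2 := hF 0
      rw [Finset.Nat.antidiagonal_zero, sum_singleton] at h2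
      have h3 : ((-1 : ℂ) ^ 0 * ((e' + 1).choose 0 : ℂ)) •
        ct (lf z ^ 0 * lf q ^ (e' + 1 - 0)) (F 0).1 = 0 := h2
      rw [pow_zero, Nat.choose_zero_right, Nat.cast_one, mul_one, one_smul, pow_zero, one_mul,
        Nat.sub_zero] at h3
      exact h3
    · have h2 := seq_lim (lf q) (lf z) e' (fun n => (F n).1) h1 κ'
      have h3 : (Nat.multichoose (e' + 1) κ' : ℂ) ≠ 0 := by
        rw [Nat.cast_ne_zero, Nat.multichoose_eq]
        exact (Nat.choose_pos (by omega)).ne'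
      refine ⟨(Nat.multichoose (e' + 1) κ' : ℂ)⁻¹, ?_⟩
      rw [Nat.add_sub_cancel]
      show ct (lf z ^ κ' * lf q ^ e') (F 0).1 = (Nat.multichoose (e' + 1) κ' : ℂ)⁻¹ •
        ct (lf q ^ (e' + κ')) (F κ').1
      rw [h2, smul_smul, inv_mul_cancel₀ h3, one_smul])
  -- the dimension of the limit
  have hRf : Module.finrank ℂ (R.comap U.subtype) = Module.finrank ℂ R := by
    have h1 : (R.comap U.subtype).map U.subtype = R := by
      rw [Submodule.map_comap_subtype, inf_eq_right.2 hR]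
    have h2 := (Submodule.equivMapOfInjective _ U.injective_subtype
      (R.comap U.subtype)).finrank_eq
    rw [h1] at h2
    exact h2
  rw [hRf] at ht
  refine le_trans ?_ ht
  -- the position
  let r : ν × Fin (d + 1) → ℂ := fun x => q x.1 - t * z x.1
  have hr : opt β A r = q + (-t) • z := by
    funext s
    show (if β s ∈ A then 0 else q s - t * z s) = q s + -t * z s
    by_cases hs : β s ∈ A
    · rw [if_pos hs, hq s hs, hz s hs]
      ring
    · rw [if_neg hs]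
      ring
  have hm' : (univ : Finset (κ ⊕ Unit)).val.map (Sum.elim m fun _ => Kd.ord (e' + 1) A) =
      Kd.ord (e' + 1) A ::ₘ ms := by
    rw [map_elim, hm, Pool.Agent.V7.ST.map_const, Fintype.card_unit, Multiset.replicate_one, add_comm,
      Multiset.singleton_add]
  have h1 := HI_le hD β I (Sum.elim m fun _ : Unit => Kd.ord (e' + 1) A) (Sum.elim p fun _ => r)
  rw [hm'] at h1
  refine h1.trans (le_of_eq ?_)
  have h2 := XX_ord β D I m (fun _ : Unit => e' + 1) (fun _ => A) p fun _ : Unit => r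
  rw [h2, iInf_const, hr, lf_add, lf_smul]
  have h3 : ∀ x : U, fam (e' + 1) (fun k => (B k).domRestrict U) t x =
      ct ((lf q + -t • lf z) ^ (e' + 1)) x.1 := by
    intro x
    rw [fam_apply, add_comm (lf q), add_pow, ct_sum]
    refine sum_congr rfl fun k _ => ?_
    show t ^ k • (((-1 : ℂ) ^ k * ((e' + 1).choose k : ℂ)) •
      ct (lf z ^ k * lf q ^ (e' + 1 - k)) x.1) = _
    have h4 : (-t • lf z) ^ k * lf q ^ (e' + 1 - k) * ((e' + 1).choose k : MvPolynomial ν ℂ) =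
        ((-t) ^ k * ((e' + 1).choose k : ℂ)) • (lf z ^ k * lf q ^ (e' + 1 - k)) := by
      rw [smul_pow, smul_mul_assoc, smul_mul_assoc, mul_smul]
      congr 1
      rw [mul_comm, smul_eq_C_mul]
      congr 1
    rw [h4, ct_smul, smul_smul]
    congr 1
    rw [neg_pow]
    ring
  have h5 : (LinearMap.ker (fam (e' + 1) (fun k => (B k).domRestrict U) t)).map U.subtype =
      U ⊓ LinearMap.ker (ct ((lf q + -t • lf z) ^ (e' + 1))) := by
    ext x
    constructor
    · rintro ⟨y, hy, rfl⟩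
      have hy' : fam (e' + 1) (fun k => (B k).domRestrict U) t y = 0 := hy
      rw [h3] at hy'
      exact ⟨y.2, hy'⟩
    · rintro ⟨hx, hx'⟩
      refine ⟨⟨x, hx⟩, ?_, rfl⟩
      show fam (e' + 1) (fun k => (B k).domRestrict U) t ⟨x, hx⟩ = 0
      rw [h3]
      exact hx'
  rw [← h5]
  exact (Submodule.equivMapOfInjective _ U.injective_subtype _).finrank_eq.symm

end

end Pool.Agent.GD.AL
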