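import Pool.Agent.GD.AL.KIm

/-!
# General d, ALPHA: the kind inequality (theorem)
-/

set_option autoImplicit false
set_option linter.unusedSectionVars false

namespace Pool.Agent.GD.AL

open Finset MvPolynomial Pool.Agent.H51.TB Pool.Agent.V7.ST
open Pool.Agent.V7 (msk)

section

variable {ν : Type} [Fintype ν] [DecidableEq ν] {d : ℕ}

theorem sum_tel (g h : ℕ → ℤ) (D : ℕ) (h0 : g 0 = h 0) (hs : ∀ j, j + 1 < D → g (j + 1) = h (j + 1) - h j)
    (hD : 1 ≤ D) : ∑ l ∈ range D, g l = h (D - 1) := by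
  induction D, hD using Nat.le_induction with
  | base => rw [sum_range_one, h0]
  | succ D hD ih =>
    rw [sum_range_succ, ih fun j hj => hs j (by omega)]
    obtain ⟨D, rfl⟩ : ∃ D', D = D' + 1 := ⟨D - 1, by omega⟩
    rw [hs D (by omega)]
    show h D + (h (D + 1) - h D) = h (D + 1)
    ring

/-- **The kind inequality.** -/
theorem KI {D e c' : ℕ} (hD : D ≤ d) (he : 2 ≤ e) (heD : e ≤ D) (β : ν → ℕ) {I A Az : Finset ℕ}
    {i : ℕ} (hi : i ∈ I) (hiA : i ∉ A) (hAz : A ⊆ Az) (hiz : i ∉ Az) (ms : Multiset Kd)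
    (E1 : ∀ j < D + 1 - e, ∀ I', I' = I ∩ A ∨ I' = I ∩ insert i A →
      gz d β ms (insert i A) Az (j + 1) I' 0 + HI d j β I' ms = HI d (j + 1) β I' ms)
    (E2 : ∀ a < c', ∀ j < D + 1 - e, gz d β ms (insert i A) Az (j + 1) (I ∩ insert i A) a =
      gz d β ms (insert i A) Az (j + 1) (I ∩ insert i A) (a + 1) +
        gz d β ms (insert i A) Az j (I ∩ A) a)
    (E3 : ∀ a < c', ∀ j < D + 1 - e, (gz d β ms (insert i A) Az j (I ∩ A) a : ℤ) -
      gz d β ms (insert i A) Az j (I ∩ insert i A) a =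
        gz d β ms (insert i A) Az j (I ∩ A) 0 - gz d β ms (insert i A) Az j (I ∩ insert i A) 0) :
    (c' : ℤ) * (kk d D β I ms e A - kk d D β I ms e (insert i A)) ≤
      kk d D β I ms (e - 1) (insert i A) - kk d D β I ms e (insert i A) := by
  classical
  set A' := insert i A with hA'
  set D' := D + 1 - e with hD'
  set I1 := I ∩ A with hI1
  set I2 := I ∩ A' with hI2
  have hI2z : I2 ∩ Az = I1 := by
    ext x
    rw [mem_inter, hI2, mem_inter, hA', mem_insert, hI1, mem_inter]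
    constructor
    · rintro ⟨⟨h1, h2⟩, h3⟩
      rcases h2 with rfl | h2
      · exact absurd h3 hiz
      · exact ⟨h1, h2⟩
    · rintro ⟨h1, h2⟩
      exact ⟨⟨h1, Or.inr h2⟩, hAz h2⟩
  have hI12 : I1 ⊆ I2 := by
    rw [← hI2z]
    exact inter_subset_left
  obtain ⟨κ, _, m, hm⟩ : ∃ (κ : Type) (_ : Fintype κ) (m : κ → Kd),
      (univ : Finset κ).val.map m = ms := by
    obtain ⟨m, hm, -⟩ := exists_conf (LS d 0 β I) ms
    exact ⟨_, inferInstance, m, hm⟩
  obtain ⟨p, q₀, z₀, hg1, hg2⟩ := exists_pos (D := D) (D' := D') (e := e) (c' := c') hD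
    (by omega) β I I1 I2 A' Az m ms hm
  set q := opt β A' q₀ with hq
  let zv : ℕ → ν → ℂ := fun b => if h : b < c' then opt β Az (z₀ ⟨b, h⟩) else 0
  have hqA' : ∀ s, β s ∈ A' → q s = 0 := fun s hs => opt_zero hs
  have hzA : ∀ b, ∀ s, β s ∈ Az → zv b s = 0 := by
    intro b s hs
    show (if h : b < c' then opt β Az (z₀ ⟨b, h⟩) else 0) s = 0
    split_ifs
    · exact opt_zero hs
    · rfl
  set Q := lf q with hQ
  let Z : ℕ → MvPolynomial ν ℂ := fun b => lf (zv b)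
  set X : Finset ℕ → ℕ → Submodule ℂ (Dl ν) := fun I' j => XX β j I' m p with hX
  -- the dimensions
  have hdim : ∀ I', I' = I1 ∨ I' = I2 → ∀ a ≤ c', ∀ j ≤ D',
      Module.finrank ℂ (KX Q Z a (X I' j)) = gz d β ms A' Az j I' a := by
    intro I' hI' a ha j hj
    rw [← hg2 I' hI' a ha j hj]
    have h1 : KX Q Z a (X I' j) = XX β j I' m p ⊓ (LinearMap.ker (ct (lf (opt β A' q₀))) ⊓
        ⨅ b : Fin a, LinearMap.ker (ct (lf (opt β Az (z₀ (Fin.castLE ha b)))))) := by
      ext Φ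
      rw [mem_KX]
      simp only [Submodule.mem_inf, Submodule.mem_iInf, LinearMap.mem_ker]
      have h2 : ∀ (b : ℕ) (hb : b < a), Z b = lf (opt β Az (z₀ (Fin.castLE ha ⟨b, hb⟩))) := by
        intro b hb
        show lf (if h : b < c' then opt β Az (z₀ ⟨b, h⟩) else 0) = _
        rw [dif_pos (lt_of_lt_of_le hb ha)]
        rfl
      constructor
      · rintro ⟨h3, h4, h5⟩
        refine ⟨h3, h4, fun b => ?_⟩
        rw [← h2 b.1 b.2]
        exact h5 b.1 b.2
      · rintro ⟨h3, h4, h5⟩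
        refine ⟨h3, h4, fun b hb => ?_⟩
        rw [h2 b hb]
        exact h5 ⟨b, hb⟩
    rw [h1]
  have hfin : ∀ I' j, Module.Finite ℂ (X I' j) := fun I' j => finite_XX β j I' m p
  have hfinK : ∀ a I' j, Module.Finite ℂ (KX Q Z a (X I' j)) := fun a I' j =>
    have := hfin I' j
    Submodule.finiteDimensional_of_le KX_le
  have hT : ∀ a b j, ∀ g ∈ KX Q Z a (X I2 (j + 1)), ct (Z b) g ∈ KX Q Z a (X I1 j) := by
    intro a b j g hg
    rw [mem_KX] at hg ⊢
    refine ⟨?_, ?_, fun b' hb' => ?_⟩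
    · have h1 := XX_ct (hzA b) hg.1
      rwa [hI2z] at h1
    · rw [ct_comm, hg.2.1, map_zero]
    · rw [ct_comm, hg.2.2 b' hb', map_zero]
  have h21 : ∀ a j, KX Q Z a (X I2 j) ≤ KX Q Z a (X I1 j) := by
    intro a j g hg
    rw [mem_KX] at hg ⊢
    exact ⟨XX_mono hI12 m p hg.1, hg.2⟩
  have hpow : ∀ b κ' (g : Dl ν), ((ct (Z b)) ^ κ') g = ct (Z b ^ κ') g := by
    intro b κ' g
    induction κ' with
    | zero => rw [pow_zero, pow_zero, ct_one]; rfl
    | succ κ' ih => rw [pow_succ', pow_succ', Module.End.mul_apply, ih, ct_mul]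
  set G := KX Q Z 0 (X I2 D') with hG
  let B : ℕ → Submodule ℂ (Dl ν) := fun b => Btw (fun j => KX Q Z 0 (X I2 j)) (ct (Z b)) D'
  let K : ℕ → Submodule ℂ (Dl ν) := fun a => KX Q Z a (X I2 D')
  have hBG : ∀ b, B b ≤ G := fun b => Btw_le _ _ _
  have hK0 : ∀ a, K a ≤ G := by
    intro a g hg
    rw [mem_KX] at hg ⊢
    exact ⟨hg.1, hg.2.1, fun b hb => absurd hb (Nat.not_lt_zero b)⟩
  have f0 : Module.Finite ℂ G := hfinK 0 I2 D'
  have fB : ∀ b, Module.Finite ℂ (B b) := fun b => Submodule.finiteDimensional_of_le (hBG b)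
  have fK : ∀ a, Module.Finite ℂ (K a) := fun a => hfinK a I2 D'
  -- the sum
  set Δ : ℤ := ∑ l ∈ range D', ((gz d β ms A' Az l I1 0 : ℤ) - gz d β ms A' Az l I2 0) with hΔ
  have hup : ∀ b, (Module.finrank ℂ G : ℤ) ≤ Module.finrank ℂ (B b) + Δ := by
    intro b
    have h1 := tele_le (fun j => KX Q Z 0 (X I1 j)) (fun j => KX Q Z 0 (X I2 j)) (ct (Z b))
      (fun j => hfinK 0 I1 j) (fun j => hfinK 0 I2 j) (fun j => hT 0 b j) (fun j => h21 0 j) D'
    refine h1.trans (le_of_eq ?_)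
    congr 1
    refine sum_congr rfl fun l hl => ?_
    rw [mem_range] at hl
    rw [hdim I1 (Or.inl rfl) 0 (Nat.zero_le _) l (by omega),
      hdim I2 (Or.inr rfl) 0 (Nat.zero_le _) l (by omega)]
  have hlow : ∀ a < c', (Module.finrank ℂ (K a) : ℤ) =
      Module.finrank ℂ (Btw (fun j => KX Q Z a (X I2 j)) (ct (Z a)) D') + Δ := by
    intro a ha
    have h1 := tele_eq (fun j => KX Q Z a (X I1 j)) (fun j => KX Q Z a (X I2 j)) (ct (Z a))
      (fun j => hfinK a I1 j) (fun j => hfinK a I2 j) (fun j => hT a a j) (fun j => h21 a j) D' (by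
        intro j hj
        rw [← KX_succ, hdim I2 (Or.inr rfl) a ha.le (j + 1) (by omega),
          hdim I2 (Or.inr rfl) (a + 1) ha (j + 1) (by omega),
          hdim I1 (Or.inl rfl) a ha.le j (by omega)]
        exact E2 a ha j hj) D' le_rfl
    refine h1.trans ?_
    congr 1
    refine sum_congr rfl fun l hl => ?_
    rw [mem_range] at hl
    rw [hdim I1 (Or.inl rfl) a ha.le l (by omega), hdim I2 (Or.inr rfl) a ha.le l (by omega)]
    exact E3 a ha l hl
  have hcap : ∀ a, K a ⊓ B a ≤ Btw (fun j => KX Q Z a (X I2 j)) (ct (Z a)) D' := by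
    rintro a g ⟨h1, h2⟩
    have h3 := mem_Btw.1 (show g ∈ Btw (fun j => KX Q Z 0 (X I2 j)) (ct (Z a)) D' from h2)
    have h1' := mem_KX.1 (show g ∈ KX Q Z a (X I2 D') from h1)
    refine mem_Btw.2 fun κ' hκ' => ?_
    have h4 := mem_KX.1 (h3 κ' hκ')
    refine mem_KX.2 ⟨h4.1, h4.2.1, fun b hb => ?_⟩
    rw [hpow, ct_comm, h1'.2.2 b hb, map_zero]
  have hsup : ∀ a < c', (Module.finrank ℂ G : ℤ) ≤
      Module.finrank ℂ (K a ⊔ B a : Submodule ℂ (Dl ν)) ∧
      (Module.finrank ℂ (B a) : ℤ) + Δ ≤ Module.finrank ℂ G := by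
    intro a ha
    have f1 := fB a
    have f2 := fK a
    have h1 := Submodule.finrank_sup_add_finrank_inf_eq (K a) (B a)
    have f3 : Module.Finite ℂ (Btw (fun j => KX Q Z a (X I2 j)) (ct (Z a)) D') :=
      have := hfinK a I2 D'
      Submodule.finiteDimensional_of_le (Btw_le _ _ _)
    have h2 := Submodule.finrank_mono (hcap a)
    have h3 := hlow a ha
    have h4 := hup a
    have h5 : Module.finrank ℂ (K a ⊔ B a : Submodule ℂ (Dl ν)) ≤ Module.finrank ℂ G :=
      Submodule.finrank_mono (sup_le (hK0 a) (hBG a))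
    constructor
    · omega
    · omega
  -- the spaces of the points of kind `A'`
  let Ax : ℕ → Submodule ℂ (Dl ν) := fun x => X I D ⊓ LinearMap.ker (ct (Q ^ x))
  let E : Submodule ℂ (Dl ν) := (Ax e).map (ct (Q ^ (e - 1)))
  have hDe : D' + (e - 1) = D := by omega
  have hXpow : ∀ κ' ≤ D', ∀ g ∈ X I D, ct (Q ^ (e - 1 + κ')) g ∈ X I2 (D' - κ') := by
    intro κ' hκ' g hg
    refine XX_ct_pow hqA' (k := e - 1 + κ') (by omega) ?_
    have h1 : D' - κ' + (e - 1 + κ') = D := by omega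
    rw [h1]
    exact hg
  have hEG : E ≤ G := by
    rintro x ⟨g, ⟨hg, hg'⟩, rfl⟩
    refine mem_KX.2 ⟨hXpow 0 (Nat.zero_le _) g hg, ?_, fun b hb => absurd hb (Nat.not_lt_zero b)⟩
    rw [← ct_mul, ← pow_succ']
    have h1 : e - 1 + 1 = e := by omega
    rw [h1]
    exact hg'
  have hAxf : ∀ x, Module.Finite ℂ (Ax x) := fun x =>
    have := hfin I D
    Submodule.finiteDimensional_of_le inf_le_left
  have hAxk : Ax e ⊓ LinearMap.ker (ct (Q ^ (e - 1))) = Ax (e - 1) := by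
    ext g
    constructor
    · rintro ⟨⟨h1, -⟩, h2⟩
      exact ⟨h1, h2⟩
    · rintro ⟨h1, h2⟩
      refine ⟨⟨h1, ?_⟩, h2⟩
      have h3 : e = (e - 1) + 1 := by omega
      show ct (Q ^ e) g = 0
      have h4 : ct (Q ^ (e - 1)) g = 0 := h2
      rw [h3, pow_succ', ct_mul, h4, map_zero]
  have hdE : Module.finrank ℂ (Ax e) = Module.finrank ℂ E + Module.finrank ℂ (Ax (e - 1)) := by
    have := hAxf e
    rw [← hAxk]
    exact rk (Ax e) (ct (Q ^ (e - 1)))
  have hAe : Module.finrank ℂ (Ax e) = HI d D β I (Kd.ord e A' ::ₘ ms) := hg1 e (Or.inl rfl)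
  have hAe1 : Module.finrank ℂ (Ax (e - 1)) = HI d D β I (Kd.ord (e - 1) A' ::ₘ ms) :=
    hg1 (e - 1) (Or.inr rfl)
  -- the limit
  have hlim : ∀ b, (HI d D β I (Kd.ord e A ::ₘ ms) : ℤ) ≤ Module.finrank ℂ (Ax (e - 1)) +
      Module.finrank ℂ (E ⊓ B b : Submodule ℂ (Dl ν)) := by
    intro b
    let R : Submodule ℂ (Dl ν) := Ax e ⊓ (B b).comap (ct (Q ^ (e - 1)))
    have f1 := hAxf e
    have f2 : Module.Finite ℂ R := Submodule.finiteDimensional_of_le inf_le_left
    have h1 := rk R (ct (Q ^ (e - 1)))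
    have h2 : R.map (ct (Q ^ (e - 1))) = E ⊓ B b := by
      ext x
      constructor
      · rintro ⟨g, ⟨hg, hg'⟩, rfl⟩
        exact ⟨⟨g, hg, rfl⟩, hg'⟩
      · rintro ⟨⟨g, hg, rfl⟩, hg'⟩
        exact ⟨g, ⟨hg, hg'⟩, rfl⟩
    have h3 : R ⊓ LinearMap.ker (ct (Q ^ (e - 1))) = Ax (e - 1) := by
      rw [← hAxk]
      ext g
      constructor
      · rintro ⟨⟨h4, -⟩, h5⟩
        exact ⟨h4, h5⟩
      · rintro ⟨h4, h5⟩
        refine ⟨⟨h4, ?_⟩, h5⟩
        have h6 : ct (Q ^ (e - 1)) g = 0 := h5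
        show ct (Q ^ (e - 1)) g ∈ B b
        rw [h6]
        exact Submodule.zero_mem _
    rw [h2, h3] at h1
    have h4 := lim_le (D := D) (e := e) hD (by omega) β I A m ms hm p q (zv b)
      (fun s hs => hqA' s (mem_insert_of_mem hs)) (fun s hs => hzA b s (hAz hs)) R
      (inf_le_left.trans inf_le_left) (by
        intro F hF hF0 hF1
        refine ⟨⟨hF 0, hF0⟩, ?_⟩
        show ct (Q ^ (e - 1)) (F 0) ∈ Btw (fun j => KX Q Z 0 (X I2 j)) (ct (Z b)) D'
        refine mem_Btw.2 fun κ' hκ' => ?_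
        obtain ⟨c, hc⟩ := hF1 κ'
        have h5 : ((ct (Z b)) ^ κ') (ct (Q ^ (e - 1)) (F 0)) =
            c • ct (Q ^ (e - 1 + κ')) (F κ') := by
          rw [hpow, ← ct_mul]
          exact hc
        refine mem_KX.2 ⟨?_, ?_, fun b' hb' => absurd hb' (Nat.not_lt_zero b')⟩
        · rw [h5]
          exact Submodule.smul_mem _ _ (hXpow κ' hκ' _ (hF κ'))
        · have h6 : e - 1 + 1 = e := by omega
          have h7 : ct Q (ct (Q ^ (e - 1)) (F 0)) = 0 := by
            rw [← ct_mul, ← pow_succ', h6]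
            exact hF0
          rw [hpow, ct_comm Q (Z b ^ κ'), h7, map_zero])
    have h5 : (Module.finrank ℂ R : ℤ) = Module.finrank ℂ (E ⊓ B b : Submodule ℂ (Dl ν)) +
      Module.finrank ℂ (Ax (e - 1)) := by exact_mod_cast h1
    have h6 : (HI d D β I (Kd.ord e A ::ₘ ms) : ℤ) ≤ Module.finrank ℂ R := by exact_mod_cast h4
    omega
  -- the telescope
  have htel : ∀ I', I' = I1 ∨ I' = I2 →
      ∑ l ∈ range D', (gz d β ms A' Az l I' 0 : ℤ) = HI d (D' - 1) β I' ms := by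
    intro I' hI'
    refine sum_tel (fun l => (gz d β ms A' Az l I' 0 : ℤ)) (fun l => (HI d l β I' ms : ℤ)) D' ?_ ?_
      (by omega)
    · show (gz d β ms A' Az 0 I' 0 : ℤ) = HI d 0 β I' ms
      unfold gz
      rw [Multiset.replicate_zero, zero_add, HI_zero_ord]
    · intro j hj
      have h1 := E1 j (by omega) I' hI'
      show (gz d β ms A' Az (j + 1) I' 0 : ℤ) = HI d (j + 1) β I' ms - HI d j β I' ms
      omega
  have hΔ' : Δ = (HI d (D' - 1) β I1 ms : ℤ) - HI d (D' - 1) β I2 ms := by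
    rw [hΔ, sum_sub_distrib, htel I1 (Or.inl rfl), htel I2 (Or.inr rfl)]
  have hGd : (Module.finrank ℂ G : ℤ) = HI d D' β I2 ms - HI d (D' - 1) β I2 ms := by
    rw [hdim I2 (Or.inr rfl) 0 (Nat.zero_le _) D' le_rfl]
    have h1 := E1 (D' - 1) (by omega) I2 (Or.inr rfl)
    have h2 : D' - 1 + 1 = D' := by omega
    rw [h2] at h1
    omega
  -- independence
  have hind := indep G E hEG B K hBG c' (fun a _ => hK0 a) (by
    intro a ha b hb g hg
    have h1 := mem_KX.1 (show g ∈ KX Q Z a (X I2 D') from hg)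
    refine mem_Btw.2 fun κ' hκ' => ?_
    rw [hpow]
    refine mem_KX.2 ?_
    cases κ' with
    | zero =>
      rw [pow_zero, ct_one]
      exact ⟨h1.1, h1.2.1, fun b' hb' => absurd hb' (Nat.not_lt_zero b')⟩
    | succ κ' =>
      rw [pow_succ, ct_mul, h1.2.2 b hb, map_zero]
      exact ⟨Submodule.zero_mem _, map_zero _, fun _ _ => map_zero _⟩) (by
    intro a ha
    have f1 := fB a
    have f2 := fK a
    have h1 := (hsup a ha).1
    have h2 : K a ⊔ B a = G := by
      refine Submodule.eq_of_le_of_finrank_le (sup_le (hK0 a) (hBG a)) ?_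
      exact_mod_cast h1
    rw [h2])
  have hterm : ∀ a ∈ range c', kk d D β I ms e A - kk d D β I ms e A' ≤
      (Module.finrank ℂ G : ℤ) + Module.finrank ℂ (E ⊓ B a : Submodule ℂ (Dl ν)) -
        Module.finrank ℂ (B a) - Module.finrank ℂ E := by
    intro a ha
    rw [mem_range] at ha
    have h1 := (hsup a ha).2
    have h2 := hlim a
    have h3 : (Module.finrank ℂ (Ax e) : ℤ) = Module.finrank ℂ E +
        Module.finrank ℂ (Ax (e - 1)) := by exact_mod_cast hdE
    have h4 : (Module.finrank ℂ (Ax e) : ℤ) = HI d D β I (Kd.ord e A' ::ₘ ms) := by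
      exact_mod_cast hAe
    have h5 : D' - 1 = D - e := by omega
    rw [h5] at hΔ'
    unfold kk
    rw [← hI1, ← hI2]
    omega
  have hsum := sum_le_sum hterm
  rw [sum_const, card_range, nsmul_eq_mul] at hsum
  refine hsum.trans (hind.trans ?_)
  have h3 : (Module.finrank ℂ (Ax e) : ℤ) = Module.finrank ℂ E +
      Module.finrank ℂ (Ax (e - 1)) := by exact_mod_cast hdE
  have h4 : (Module.finrank ℂ (Ax e) : ℤ) = HI d D β I (Kd.ord e A' ::ₘ ms) := by
    exact_mod_cast hAe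
  have h5 : (Module.finrank ℂ (Ax (e - 1)) : ℤ) = HI d D β I (Kd.ord (e - 1) A' ::ₘ ms) := by
    exact_mod_cast hAe1
  have h6 : D' - 1 = D - e := by omega
  have h7 : D - (e - 1) = D' := by omega
  rw [h6] at hGd
  unfold kk
  rw [← hI2, h7]
  omega

end

end Pool.Agent.GD.AL
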