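import Pool.Agent.GD.AL.Pull
import Pool.Agent.GD.ST.Eqv

/-!
# General d: killing a vector

A general point of exponent `1` in a block (or in `W`) has the effect of one variable less in this block
(in `W`).
-/

set_option autoImplicit false
set_option linter.unusedSectionVars false

namespace Pool.Agent.GD

open Finset MvPolynomial Pool.Agent.H51.TB Pool.Agent.V7.ST
open Pool.Agent.V7 (msk)

section

variable {ν : Type} [Fintype ν] [DecidableEq ν] {d D J : ℕ} {β : ν → ℕ}

/-- The inclusion of the other variables. -/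
def inc (s₀ : ν) (s : {s : ν // s ≠ s₀}) (s' : ν) : ℂ := if s.1 = s' then 1 else 0

theorem cpt_inc (s₀ : ν) : Cpt (fun s : {s : ν // s ≠ s₀} => β s.1) β J (inc s₀) := by
  intro i _ s s' h1 h2
  unfold inc
  rw [if_neg]
  intro h
  exact h1 (show β s.1 = i by rw [h]; exact h2)

theorem lf_inc (s₀ : ν) (s : {s : ν // s ≠ s₀}) : lf (inc s₀ s) = X s.1 := by
  unfold lf inc
  rw [sum_eq_single s.1]
  · rw [if_pos rfl, C_1, one_mul]
  · intro b _ hb
    rw [if_neg (Ne.symm hb), C_0, zero_mul]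
  · intro h
    exact absurd (mem_univ _) h

theorem Sp_inc (s₀ : ν) {b : ν → ℕ} (hb : b s₀ = 0) :
    Sp (inc s₀) (mon ℂ fun s : {s : ν // s ≠ s₀} => b s.1) = mon ℂ b := by
  unfold mon Sp
  rw [map_prod]
  refine Eq.trans (prod_congr rfl fun s _ => by rw [map_pow, aeval_X, lf_inc]) ?_
  refine Fintype.prod_of_injective (fun s : {s : ν // s ≠ s₀} => s.1) Subtype.val_injective _ _
    ?_ fun s => rfl
  intro s hs
  have h : s = s₀ := by
    by_contra h
    exact hs ⟨⟨s, h⟩, rfl⟩
  rw [h, hb, pow_zero]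

/-- The projection along `w`. -/
noncomputable def prj (s₀ : ν) (w : ν → ℂ) (s : ν) (s' : {s : ν // s ≠ s₀}) : ℂ :=
  if s = s₀ then - (w s'.1 / w s₀) else if s = s'.1 then 1 else 0

theorem cpt_prj (s₀ : ν) {w : ν → ℂ} (hw : ∀ s, β s < J → β s ≠ β s₀ → w s = 0) :
    Cpt β (fun s : {s : ν // s ≠ s₀} => β s.1) J (prj s₀ w) := by
  intro i hi s s' h1 h2
  have h2' : β s'.1 = i := h2
  unfold prj
  by_cases h : s = s₀
  · rw [if_pos h, hw s'.1 (by rw [h2']; exact hi)
      (by rw [h2']; exact fun h3 => h1 (by rw [h]; exact h3.symm)), zero_div, neg_zero]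
  · rw [if_neg h, if_neg]
    intro h3
    exact h1 (by rw [h3]; exact h2)

theorem app_prj (s₀ : ν) {w : ν → ℂ} (hw : w s₀ ≠ 0) (s' : {s : ν // s ≠ s₀}) :
    app (prj s₀ w) w s' = 0 := by
  unfold app
  rw [← add_sum_erase univ _ (mem_univ s₀), ← add_sum_erase (univ.erase s₀) _
    (mem_erase.2 ⟨s'.2, mem_univ s'.1⟩)]
  have h1 : ∑ x ∈ (univ.erase s₀).erase s'.1, w x * prj s₀ w x s' = 0 := by
    refine sum_eq_zero fun x hx => ?_
    rw [mem_erase, mem_erase] at hx
    unfold prj
    rw [if_neg hx.2.1, if_neg hx.1, mul_zero]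
  rw [h1]
  unfold prj
  rw [if_pos rfl, if_neg s'.2, if_pos rfl]
  field_simp
  ring

theorem Sp_prj_inc (s₀ : ν) (w : ν → ℂ) (P : MvPolynomial {s : ν // s ≠ s₀} ℂ) :
    Sp (prj s₀ w) (Sp (inc s₀) P) = P := by
  have h : (Sp (prj s₀ w)).comp (Sp (inc s₀)) = AlgHom.id ℂ _ := by
    refine algHom_ext fun s => ?_
    rw [AlgHom.comp_apply, AlgHom.id_apply]
    unfold Sp
    rw [aeval_X, lf_inc, aeval_X]
    unfold lf prj
    rw [sum_eq_single s]
    · rw [if_neg s.2, if_pos rfl, C_1, one_mul]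
    · intro b _ hb
      rw [if_neg s.2, if_neg fun h => hb (Subtype.ext h.symm), C_0, zero_mul]
    · intro h
      exact absurd (mem_univ _) h
  exact AlgHom.congr_fun h P

theorem eq_zero_of_Fn {A : Finset (ν → ℕ)} {f : {a // a ∈ A} → ℂ}
    (h : ∀ b, Fn (ext0 A f) (mon ℂ b) = 0) : f = 0 := by
  funext a
  have h1 := h a.1
  rw [Fn_mon, ext0_mem] at h1
  exact (mul_eq_zero.1 h1).resolve_left (Nat.cast_ne_zero.2 (fac_pos _).ne')

/-- **Killing a vector.** -/
theorem HI_kill (hD : D ≤ d) (s₀ : ν) {I : Finset ℕ} (hI : I ⊆ range J) (ms : Multiset Kd)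
    (hm : ∀ k ∈ ms, k.Ok d J) : HI d D β I (.ord 1 ((range J).erase (β s₀)) ::ₘ ms) =
      HI d D (fun s : {s : ν // s ≠ s₀} => β s.1) I ms := by
  classical
  set t : Kd := .ord 1 ((range J).erase (β s₀)) with ht
  obtain ⟨m, hm1, -⟩ := exists_conf (LS d D β I) ms
  have hmk : ∀ i, (m i).Ok d J := by
    intro i
    refine hm _ ?_
    rw [← hm1]
    exact Multiset.mem_map_of_mem _ (mem_univ i)
  have e1 : HI d D β I (t ::ₘ ms) = (LS d D β I).gd (ad m t) := by
    unfold HI
    rw [gd_eq_gM, map_ad, hm1]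
  have e2 : HI d D (fun s : {s : ν // s ≠ s₀} => β s.1) I ms =
      (LS d D (fun s : {s : ν // s ≠ s₀} => β s.1) I).gd m := by
    unfold HI
    rw [gd_eq_gM, hm1]
  rw [e1, e2]
  have hpt : ∀ (x : Fin (d + 1)) (q : ν × Fin (d + 1) → ℂ) (s : ν), pt β t x q s =
      if β s ∈ (range J).erase (β s₀) then 0 else q (s, 0) := fun x q s => rfl
  have hs₀ : β s₀ ∉ (range J).erase (β s₀) := fun h => (mem_erase.1 h).1 rfl
  apply le_antisymm
  · -- the position `e_s₀`
    obtain ⟨p, hp⟩ := gd_attained (LS d D (fun s : {s : ν // s ≠ s₀} => β s.1) I) m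
    rw [← hp]
    set q₀ : ν × Fin (d + 1) → ℂ := fun z => if z.1 = s₀ then 1 else 0 with hq₀
    set P : Fin ms.toList.length → ν × Fin (d + 1) → ℂ :=
      fun i => pullP (fun s : {s : ν // s ≠ s₀} => β s.1) (inc s₀) (m i) (p i) with hP
    refine (gd_le (LS d D β I) (ad m t) (Sum.elim P fun _ => q₀)).trans ?_
    have hmem : ∀ f ∈ (LS d D β I).V (ad m t) (Sum.elim P fun _ => q₀),
        f ∈ (LS d D β I).V m P := by
      intro f hf
      rw [mem_LS hD] at hf ⊢
      exact fun i => hf (Sum.inl i)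
    let L : (LS d D β I).V (ad m t) (Sum.elim P fun _ => q₀) →ₗ[ℂ]
        (LS d D (fun s : {s : ν // s ≠ s₀} => β s.1) I).V m p :=
      ((pullL (fun s : {s : ν // s ≠ s₀} => β s.1) β D I (inc s₀)).comp
        (Submodule.subtype _)).codRestrict _ fun f =>
        pullL_mem (cpt_inc s₀) hD hI m hmk p f.1 (hmem f.1 f.2)
    refine LinearMap.finrank_le_finrank_of_injective (f := L) ?_
    rw [← LinearMap.ker_eq_bot, LinearMap.ker_eq_bot']
    intro f hf
    have h1 : pullL (fun s : {s : ν // s ≠ s₀} => β s.1) β D I (inc s₀) f.1 = 0 :=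
      congrArg Subtype.val hf
    have h2 := Fn_pullL (cpt_inc (β := β) (J := J) s₀) hI f.1
    rw [h1] at h2
    have h3 := (mem_LS hD β I _ _ f.1).1 f.2 (Sum.inr ())
    apply Subtype.ext
    refine eq_zero_of_Fn fun b => ?_
    by_cases hb : b s₀ = 0
    · rw [← Sp_inc s₀ hb]
      have h4 := LinearMap.congr_fun h2 (mon ℂ fun s : {s : ν // s ≠ s₀} => b s.1)
      rw [Fn_mon] at h4
      refine Eq.trans ?_ (h4.symm.trans ?_)
      · rfl
      · unfold ext0
        split_ifs
        · exact mul_zero _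
        · exact mul_zero _
    · have h4 := h3.1 0 Nat.zero_lt_one (mon ℂ (b - Pi.single s₀ 1))
      have h5 : pt β t 0 q₀ = fun s => if s = s₀ then (1 : ℂ) else 0 := by
        funext s
        rw [hpt]
        by_cases h6 : s = s₀
        · rw [h6, if_neg hs₀, if_pos rfl]
          exact if_pos rfl
        · rw [if_neg h6]
          split_ifs
          · rfl
          · exact if_neg h6
      have h6 : lf (fun s => if s = s₀ then (1 : ℂ) else 0) = X s₀ := by
        unfold lf
        rw [sum_eq_single s₀]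
        · show C (if s₀ = s₀ then (1 : ℂ) else 0) * X s₀ = X s₀
          rw [if_pos rfl, C_1, one_mul]
        · intro b _ hb
          show C (if b = s₀ then (1 : ℂ) else 0) * X b = 0
          rw [if_neg hb, C_0, zero_mul]
        · intro h
          exact absurd (mem_univ _) h
      have h7 : lf (pt β t 0 q₀) ^ t.ex * mon ℂ (b - Pi.single s₀ 1) = mon ℂ b := by
        rw [h5, h6]
        show X s₀ ^ 1 * _ = _
        rw [pow_one, ← mon_single, ← mon_add]
        congr 1
        funext s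
        by_cases h8 : s = s₀
        · subst h8
          simp only [Pi.add_apply, Pi.sub_apply, Pi.single_eq_same]
          omega
        · simp only [Pi.add_apply, Pi.sub_apply, Pi.single_eq_of_ne h8]
          omega
      have h8 : Fn (ext0 (Ex β D I) f.1) (lf (pt β t 0 q₀) ^ t.ex * mon ℂ (b - Pi.single s₀ 1)) = 0 :=
        h4
      rw [h7] at h8
      exact h8
  · -- a general position
    obtain ⟨P, hP1, hP2⟩ := ((gn_gd (LS d D β I) (ad m t)).and
      (⟨X (Sum.inr (), (s₀, 0)), X_ne_zero _, fun p hp => by simpa using hp⟩ :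
        Gn (Fin ms.toList.length ⊕ Unit) (ν × Fin (d + 1)) fun p => p (Sum.inr ()) (s₀, 0) ≠ 0)).exists
    rw [← hP1]
    set w : ν → ℂ := pt β t 0 (P (Sum.inr ())) with hw
    have hw0 : w s₀ ≠ 0 := by
      rw [hw, hpt, if_neg hs₀]
      exact hP2
    have hcpt : Cpt β (fun s : {s : ν // s ≠ s₀} => β s.1) J (prj s₀ w) := by
      refine cpt_prj s₀ fun s h1 h2 => ?_
      rw [hw, hpt, if_pos (mem_erase.2 ⟨h2, mem_range.2 h1⟩)]
    refine (gd_le (LS d D (fun s : {s : ν // s ≠ s₀} => β s.1) I) m fun i =>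
      pullP β (prj s₀ w) (m i) (P (Sum.inl i))).trans ?_
    let L : (LS d D (fun s : {s : ν // s ≠ s₀} => β s.1) I).V m
        (fun i => pullP β (prj s₀ w) (m i) (P (Sum.inl i))) →ₗ[ℂ] (LS d D β I).V (ad m t) P :=
      ((pullL β (fun s : {s : ν // s ≠ s₀} => β s.1) D I (prj s₀ w)).comp
        (Submodule.subtype _)).codRestrict _ fun f => by
        have h1 := pullL_mem hcpt hD hI m hmk (fun i => P (Sum.inl i)) f.1 f.2
        rw [mem_LS hD] at h1 ⊢
        rintro (i | i)
        · exact h1 i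
        · refine ⟨fun x _ y => ?_, trivial⟩
          show Fn (ext0 (Ex β D I) (pullL β (fun s : {s : ν // s ≠ s₀} => β s.1) D I (prj s₀ w) f.1))
            (lf (pt β t x (P (Sum.inr ()))) ^ 1 * y) = 0
          rw [Fn_pullL hcpt hI]
          show Fn _ (Sp (prj s₀ w) (lf w ^ 1 * y)) = 0
          rw [map_mul, map_pow, Sp_lf, show app (prj s₀ w) w = fun _ => 0 from
            funext fun s' => app_prj s₀ hw0 s']
          have h2 : lf (fun _ : {s : ν // s ≠ s₀} => (0 : ℂ)) = 0 := by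
            unfold lf
            simp
          rw [h2, pow_one, zero_mul, map_zero]
    refine LinearMap.finrank_le_finrank_of_injective (f := L) ?_
    rw [← LinearMap.ker_eq_bot, LinearMap.ker_eq_bot']
    intro f hf
    have h1 : pullL β (fun s : {s : ν // s ≠ s₀} => β s.1) D I (prj s₀ w) f.1 = 0 :=
      congrArg Subtype.val hf
    have h2 := Fn_pullL hcpt hI f.1
    rw [h1] at h2
    apply Subtype.ext
    refine eq_zero_of_Fn fun b => ?_
    have h3 := LinearMap.congr_fun h2 (Sp (inc s₀) (mon ℂ b))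
    have h4 : ((Fn (ext0 (Ex (fun s : {s : ν // s ≠ s₀} => β s.1) D I) f.1)).comp
        (Sp (prj s₀ w)).toLinearMap) (Sp (inc s₀) (mon ℂ b)) =
        Fn (ext0 (Ex (fun s : {s : ν // s ≠ s₀} => β s.1) D I) f.1) (mon ℂ b) := by
      show Fn _ (Sp (prj s₀ w) (Sp (inc s₀) (mon ℂ b))) = _
      rw [Sp_prj_inc]
    rw [h4] at h3
    refine h3.symm.trans ?_
    have h5 : Fn (ext0 (Ex β D I) (0 : {a // a ∈ Ex β D I} → ℂ)) = 0 := by
      refine mon_span _ fun b => ?_
      rw [Fn_mon]
      unfold ext0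
      split_ifs
      · exact mul_zero _
      · exact mul_zero _
    rw [h5]
    rfl

end

end Pool.Agent.GD
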