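import Pool.Agent.GD.AL.St
import Pool.Agent.GD.ST.Fro
import Pool.Agent.XD.Num.Xd
import Pool.Agent.XD.Struct

/-!
# General d, ALPHA: the last stage, the factor without blocks

`last_W`: points of exponents `≥ 2` in variables off all blocks, by the theorem `xd`.
-/

set_option autoImplicit false

namespace Pool.Agent.GD.AL

open Finset

/-- Off the blocks the vanishing sets are irrelevant. -/
theorem HI_forget {ν : Type} [Fintype ν] [DecidableEq ν] {d D J : ℕ} (hD : D ≤ d) {β : ν → ℕ}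
    (hβ : ∀ s, β s = J) (I : Finset ℕ) (SW R : Multiset Kd)
    (h : ∀ k ∈ SW, ∃ x A, k = .ord x A ∧ A ⊆ range J) :
    HI d D β I (SW + R) ≤ HI d D β I (SW.map (fun k => Kd.ord k.ex ∅) + R) := by
  induction SW using Multiset.induction_on generalizing R with
  | empty => exact le_rfl
  | cons k SW ih =>
    obtain ⟨x, A, rfl, hA⟩ := h k (Multiset.mem_cons_self k SW)
    have h1 : HI d D β I (.ord x A ::ₘ (SW + R)) ≤ HI d D β I (.ord x ∅ ::ₘ (SW + R)) := by
      refine HI_repl hD β I (.ord x A) (.ord x ∅) id (fun q Φ hq => ⟨fun y hy z => ?_, trivial⟩) _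
      have h2 := hq.1 y hy z
      have h3 : pt β (.ord x A) y (id q) = pt β (.ord x ∅) y q := by
        funext s
        show (if β s ∈ A then 0 else q (s, 0)) = (if β s ∈ (∅ : Finset ℕ) then 0 else q (s, 0))
        rw [if_neg, if_neg (notMem_empty _)]
        intro h4
        have := mem_range.1 (hA h4)
        rw [hβ s] at this
        exact lt_irrefl _ this
      rw [h3] at h2
      exact h2
    have h2 := ih (.ord x ∅ ::ₘ R) fun k hk => h k (Multiset.mem_cons_of_mem hk)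
    rw [Multiset.cons_add, Multiset.map_cons, Multiset.cons_add]
    refine h1.trans ?_
    rw [← Multiset.add_cons]
    refine h2.trans (le_of_eq ?_)
    rw [Multiset.add_cons]
    rfl

theorem HI_le_pow {ν : Type} [Fintype ν] [DecidableEq ν] {d : ℕ} (β : ν → ℕ) (ms : Multiset Kd) :
    ∀ r ≤ d, HI d r β ∅ ms ≤ Fintype.card ν ^ r := by
  intro r
  induction r with
  | zero =>
    intro _
    exact (HI_zero_le β ∅ ms).trans (by rw [pow_zero])
  | succ r ih =>
    intro hr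
    refine (up0 hr β ms).trans ?_
    rw [pow_succ, mul_comm]
    exact Nat.mul_le_mul_right _ (ih (by omega))

/-- The exponents as a sequence. -/
theorem exists_seq_ex (s : Multiset ℕ) (hs : ∀ x ∈ s, 2 ≤ x) :
    ∃ (e : ℕ → ℕ) (t : ℕ), (∀ i, 2 ≤ e i) ∧ s = (Multiset.range t).map e := by
  refine ⟨fun i => s.toList.getD i 2, s.toList.length, fun i => ?_, ?_⟩
  · by_cases h : i < s.toList.length
    · show 2 ≤ s.toList.getD i 2
      rw [List.getD_eq_getElem _ _ h]
      exact hs _ (Multiset.mem_toList.1 (List.getElem_mem h))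
    · show 2 ≤ s.toList.getD i 2
      rw [List.getD_eq_default _ _ (not_lt.1 h)]
  · conv_lhs => rw [← s.coe_toList]
    show _ = Multiset.map _ ((List.range s.toList.length : List ℕ) : Multiset ℕ)
    rw [Multiset.map_coe]
    congr 1
    refine List.ext_getElem (by simp) fun i h1 h2 => ?_
    rw [List.getElem_map, List.getElem_range, List.getD_eq_getElem _ _ h1]

/-- The factor without blocks. -/
theorem last_W (d J : ℕ) {η : ℝ} (hη : 0 < η) : ∃ n₁ : ℕ, ∀ n, n₁ ≤ n → ∀ (w : ℕ) (c : ℕ → ℕ)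
    (SW : Multiset Kd), 1 ≤ w → w ≤ n → (∀ k ∈ SW, ∃ x A, k = .ord x A ∧ 2 ≤ x ∧ A ⊆ range J) →
    ∀ r ≤ d, (∀ j ≤ r, η * (n : ℝ) ^ j ≤ (vd j ∅ c w SW : ℝ)) →
      (HI d r (fun _ : Fin w => J) ∅ SW : ℤ) ≤ vd r ∅ c w SW ∧ vd r ∅ c w SW ≤ (n : ℤ) ^ r := by
  have hx : ∀ r : Fin (d + 1), ∃ n₀ : ℕ, Pool.Agent.XD.Exact r.1 η n₀ := fun r =>
    Pool.Agent.XD.xd r.1 η hη
  choose N hN using hx
  refine ⟨∑ r, N r, fun n hn w c SW hw hwn hSW r hr hpos => ?_⟩
  obtain ⟨e, t, he, hs⟩ := exists_seq_ex (SW.map Kd.ex) (by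
    intro x hx
    obtain ⟨k, hk, rfl⟩ := Multiset.mem_map.1 hx
    obtain ⟨x, A, rfl, h2, -⟩ := hSW k hk
    exact h2)
  have hmap : SW.map (fun k => Kd.ord k.ex ∅) = (Multiset.range t).map fun i => Kd.ord (e i) ∅ := by
    have h1 : SW.map (fun k => Kd.ord k.ex ∅) = (SW.map Kd.ex).map fun x => Kd.ord x ∅ := by
      rw [Multiset.map_map]
      rfl
    rw [h1, hs, Multiset.map_map]
    rfl
  have hvd : ∀ j, vd j ∅ c w SW = Pool.Agent.XD.A e w t j := by
    intro j
    rw [A_eq_vd c e, ← hmap]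
    have h1 : vd j ∅ c w SW = vd j ∅ c w (SW.map id) := by rw [Multiset.map_id]
    rw [h1]
    refine vd_congr_map SW fun k hk I' hI' => ?_
    obtain ⟨x, A, rfl, -, -⟩ := hSW k hk
    exact P_ord_congr hI' x (by rw [inter_empty, inter_empty])
  have hH : HI d r (fun _ : Fin w => J) ∅ SW ≤ Pool.Agent.XD.FF e w t r := by
    have h1 := HI_forget hr (β := fun _ : Fin w => J) (fun _ => rfl) ∅ SW 0 fun k hk => by
      obtain ⟨x, A, rfl, -, h3⟩ := hSW k hk
      exact ⟨x, A, rfl, h3⟩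
    rw [add_zero, add_zero, hmap] at h1
    refine h1.trans (le_of_eq ?_)
    rw [FF_eq_HL hr hw c e]
    unfold HL
    rw [range_zero]
    refine HI_size hr rfl (J := 0) (fun i hi => absurd hi (Nat.not_lt_zero i)) (empty_subset _) _ ?_
    intro k hk
    obtain ⟨i, -, rfl⟩ := Multiset.mem_map.1 hk
    exact empty_subset _
  have hF := hN ⟨r, by omega⟩ n ((single_le_sum (f := N) (fun _ _ => Nat.zero_le _)
    (mem_univ (⟨r, by omega⟩ : Fin (d + 1)))).trans hn) e (Pool.Agent.XD.FF e) he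
    (Pool.Agent.XD.sys_FF r e fun i => le_trans (by norm_num) (he i)) w t hwn fun j hj => by
      rw [← hvd j]
      exact hpos j hj
  have hF' : (Pool.Agent.XD.FF e w t r : ℤ) = Pool.Agent.XD.A e w t r := hF
  rw [hvd r, ← hF']
  refine ⟨by exact_mod_cast hH, ?_⟩
  have h2 : Pool.Agent.XD.FF e w t r ≤ n ^ r := by
    rw [FF_eq_HL hr hw c e]
    unfold HL
    rw [range_zero]
    refine (HI_le_pow _ _ r hr).trans ?_
    rw [Fintype.card_fin]
    exact Nat.pow_le_pow_left hwn r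
  exact_mod_cast h2

/-- The lower bounds for the factor without blocks. -/
theorem last_ind {η P f : ℝ} {n R : ℕ} (hη : 0 < η) (hP : 1 ≤ P) (v a U : ℕ → ℝ)
    (hU : ∀ r ≤ R, η * P * (n : ℝ) ^ r ≤ U r)
    (hid : ∀ r ≤ R, U r = ∑ t ∈ range (r + 1), v t * a (r - t)) (hv0 : 0 < v 0) (hvP : v 0 ≤ P)
    (hv : ∀ t ≤ R, 0 ≤ v t ∧ v t ≤ f)
    (ha : ∀ r ≤ R, (∀ j ≤ r, η / 2 * (n : ℝ) ^ j ≤ a j) → a r ≤ (n : ℝ) ^ r)
    (hn : 2 * (R + 1) * f ≤ η * n) (hn1 : 1 ≤ n) : ∀ r ≤ R, η / 2 * (n : ℝ) ^ r ≤ a r := by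
  intro r
  induction r using Nat.strong_induction_on with
  | _ r ih =>
    intro hr
    have hn0 : (1 : ℝ) ≤ n := by exact_mod_cast hn1
    have hf : 0 ≤ f := (hv 0 (Nat.zero_le R)).1.trans (hv 0 (Nat.zero_le R)).2
    have h1 := hid r hr
    rw [sum_range_succ'] at h1
    rw [Nat.sub_zero] at h1
    have h2 : ∑ t ∈ range r, v (t + 1) * a (r - (t + 1)) ≤ r * (f * (n : ℝ) ^ (r - 1)) := by
      have h3 : ∀ t ∈ range r, v (t + 1) * a (r - (t + 1)) ≤ f * (n : ℝ) ^ (r - 1) := by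
        intro t ht
        rw [mem_range] at ht
        have h4 := hv (t + 1) (by omega)
        have h5 := ha (r - (t + 1)) (by omega) fun j hj => ih j (by omega) (by omega)
        have h6 : (n : ℝ) ^ (r - (t + 1)) ≤ (n : ℝ) ^ (r - 1) := pow_le_pow_right₀ hn0 (by omega)
        calc v (t + 1) * a (r - (t + 1)) ≤ v (t + 1) * (n : ℝ) ^ (r - 1) :=
              mul_le_mul_of_nonneg_left (h5.trans h6) h4.1
          _ ≤ f * (n : ℝ) ^ (r - 1) := mul_le_mul_of_nonneg_right h4.2 (by positivity)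
      refine (sum_le_card_nsmul _ _ _ h3).trans (le_of_eq ?_)
      rw [card_range, nsmul_eq_mul]
    have h3 : (r : ℝ) * (f * (n : ℝ) ^ (r - 1)) ≤ η / 2 * (P * (n : ℝ) ^ r) := by
      rcases r with _ | r
      · rw [Nat.cast_zero, zero_mul]
        positivity
      · rw [Nat.add_sub_cancel, pow_succ]
        have h4 : ((r + 1 : ℕ) : ℝ) ≤ R + 1 := by
          have : ((r + 1 : ℕ) : ℝ) ≤ (R : ℝ) := by exact_mod_cast hr
          linarith
        have h5 : ((r + 1 : ℕ) : ℝ) * f ≤ η / 2 * n := by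
          have h6 : ((r + 1 : ℕ) : ℝ) * f ≤ (R + 1) * f := mul_le_mul_of_nonneg_right h4 hf
          linarith
        calc ((r + 1 : ℕ) : ℝ) * (f * (n : ℝ) ^ r) = ((r + 1 : ℕ) : ℝ) * f * (n : ℝ) ^ r := by ring
          _ ≤ η / 2 * n * (n : ℝ) ^ r := mul_le_mul_of_nonneg_right h5 (by positivity)
          _ = η / 2 * (1 * ((n : ℝ) ^ r * n)) := by ring
          _ ≤ η / 2 * (P * ((n : ℝ) ^ r * n)) := by
              refine mul_le_mul_of_nonneg_left ?_ (by positivity)
              exact mul_le_mul_of_nonneg_right hP (by positivity)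
    have h4 : η / 2 * (P * (n : ℝ) ^ r) ≤ v 0 * a r := by
      have h5 := hU r hr
      rw [h1] at h5
      have h6 : η * P * (n : ℝ) ^ r = η / 2 * (P * (n : ℝ) ^ r) + η / 2 * (P * (n : ℝ) ^ r) := by
        ring
      linarith
    have h5 : 0 < η / 2 * (P * (n : ℝ) ^ r) := by positivity
    have h6 : 0 < a r := by
      by_contra hcon
      push Not at hcon
      have := mul_nonpos_of_nonneg_of_nonpos hv0.le hcon
      linarith
    have h7 : v 0 * a r ≤ P * a r := mul_le_mul_of_nonneg_right hvP h6.le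
    have h8 : P * (η / 2 * (n : ℝ) ^ r) ≤ P * a r := by
      calc P * (η / 2 * (n : ℝ) ^ r) = η / 2 * (P * (n : ℝ) ^ r) := by ring
        _ ≤ P * a r := h4.trans h7
    exact le_of_mul_le_mul_left h8 (by linarith)

end Pool.Agent.GD.AL
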