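import Pool.Agent.GD.AL.BTd
import Pool.Agent.GD.AL.LastW
import Pool.Agent.GD.AL.Reg
import Pool.Agent.GD.AL.Prod

/-!
# General d, ALPHA: the last stage

Only the points with `|I \ A| = x` (`S0`) and the points which vanish on all blocks of `I` (`SW`) are left.
`S0` lives on all blocks and `w1` of the variables of `W` (exact by `BT`), `SW` on the other ones
(exact by `XD`): the product.
-/

set_option autoImplicit false

namespace Pool.Agent.GD.AL

open Finset

section Last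

private theorem Last_const {n : ℕ} (c : ℕ → ℕ) (SW : Multiset Kd)
    (h : ∀ k ∈ SW, ∃ x A, k = .ord x A ∧ 2 ≤ x) : vd 0 ∅ c n SW = 1 := by
  rw [vd_nil, PowerSeries.coeff_zero_eq_constantCoeff, map_mul, map_multiset_prod,
    Multiset.map_map]
  have h1 : (SW.map ((PowerSeries.constantCoeff : PowerSeries ℤ →+* ℤ) ∘ Kd.P ∅)).prod = 1 := by
    refine Multiset.prod_eq_one fun y hy => ?_
    obtain ⟨k, hk, rfl⟩ := Multiset.mem_map.1 hy
    obtain ⟨x, A, rfl, hx⟩ := h k hk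
    show PowerSeries.constantCoeff (if ∅ ⊆ A then (1 - PowerSeries.X ^ x : PowerSeries ℤ) else 1) = 1
    rw [if_pos (empty_subset _), map_sub, map_pow, PowerSeries.constantCoeff_X, map_one,
      zero_pow (by omega), sub_zero]
  rw [h1, one_mul, ← PowerSeries.coeff_zero_eq_constantCoeff]
  unfold hs
  rw [PowerSeries.coeff_mk]
  simp

/-- Splitting a state. -/
private theorem Last_split {d J D w1 w2 : ℕ} {σ : St} {I : Finset ℕ} (hD : D ≤ d)
    (hI : I ⊆ range J) {S0 SW : Multiset Kd} (hms : σ.ms = S0 + SW) (hw : σ.w = w1 + w2)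
    (hm : ∀ k ∈ σ.ms, k.Blk J) :
    σ.H d J I D ≤ ∑ s ∈ range (D + 1), (⟨σ.c, w1, S0⟩ : St).H d J I s *
      HI d (D - s) (fun _ : Fin w2 => J) ∅ SW := by
  have h1 : HI d D (Sum.elim (bt J σ.c w1) fun _ : Fin w2 => J) I σ.ms = σ.H d J I D := by
    refine St.H_eq hD _ σ ?_ (fun i hi => ?_) hI hm
    · rw [Fintype.card_sum, card_Vr, Fintype.card_fin]
      unfold St.n
      omega
    · have e : (univ.filter fun s : Vr J σ.c w1 ⊕ Fin w2 =>
          Sum.elim (bt J σ.c w1) (fun _ : Fin w2 => J) s = i) =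
          (univ.filter fun s : Vr J σ.c w1 => bt J σ.c w1 s = i).map Function.Embedding.inl := by
        ext s
        rw [mem_filter, mem_map]
        constructor
        · rintro ⟨-, hs⟩
          rcases s with s | s
          · exact ⟨s, mem_filter.2 ⟨mem_univ _, hs⟩, rfl⟩
          · exact absurd hs (Nat.ne_of_gt hi)
        · rintro ⟨x, hx, rfl⟩
          exact ⟨mem_univ _, (mem_filter.1 hx).2⟩
      rw [e, card_map, card_bt _ _ hi]
  rw [← h1, hms]
  refine HI_prod_zero hD _ _ (fun t h => ?_) S0 SW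
  exact absurd (mem_range.1 (hI h)) (lt_irrefl J)

/-- The virtual dimensions. -/
private theorem Last_V {J w1 w2 : ℕ} {σ : St} {I : Finset ℕ} (hI : I ⊆ range J)
    {S0 SW : Multiset Kd} (hms : σ.ms = S0 + SW) (hw : σ.w = w1 + w2)
    (hSW : ∀ k ∈ SW, ∃ x A, k = .ord x A ∧ I ⊆ A) (I' : Finset ℕ) (hI' : I' ⊆ I) (D : ℕ) :
    σ.V J I' D = ∑ s ∈ range (D + 1), (⟨σ.c, w1, S0⟩ : St).V J I' s * vd (D - s) ∅ σ.c w2 SW := by
  have hn : σ.n J = (⟨σ.c, w1, S0⟩ : St).n J + w2 := by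
    unfold St.n
    simp only
    omega
  have h1 : ∑ i ∈ I', σ.c i ≤ (⟨σ.c, w1, S0⟩ : St).n J :=
    (sum_le_sum_of_subset (f := σ.c) (hI'.trans hI)).trans (Nat.le_add_right _ _)
  unfold St.V
  rw [hn, hms]
  refine vd_prod D w2 h1 S0 SW fun k hk => ?_
  obtain ⟨x, A, rfl, hA⟩ := hSW k hk
  exact ⟨x, A, rfl, hI'.trans hA⟩

/-- The end of the last stage. -/
theorem term_last (d J : ℕ) (hBT : ∀ D ≤ d, BT d J 0 D) {η ϖ : ℝ} (hη : 0 < η) (hϖ : 0 < ϖ) :
    ∃ F : (ℕ → ℕ) → ℕ, ∀ c0 : ℕ → ℕ, Hr 0 J F c0 → ∃ n1 : ℕ, ∀ n0, n1 ≤ n0 →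
      ∀ (σ : St) (I : Finset ℕ) (D : ℕ), I ⊆ range J → D ≤ d → InO d J c0 n0 ϖ I σ →
        (∀ k ∈ σ.ms, ∃ x A, k = .ord x A ∧ ((I \ A).card = x ∨ (I ⊆ A ∧ 2 ≤ x))) →
        Pos J c0 n0 η σ I D → σ.dl d J I D ≤ 0 := by
  classical
  have hB := fun D : Fin (d + 1) => hBT D.1 (Nat.lt_succ_iff.1 D.2) η hη
  choose K k F q hq using hB
  obtain ⟨nX, hX⟩ := last_W d J (half_pos hη)
  refine ⟨fun r => ∑ D, (F D r + K D + 1), fun c0 hc0 => ?_⟩
  have hF : ∀ D : Fin (d + 1), Hr 0 J (F D) c0 ∧ ∀ l < J, K D + 1 ≤ c0 l := by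
    intro D
    have h1 : ∀ r, F D r + K D + 1 ≤ ∑ D, (F D r + K D + 1) := fun r =>
      single_le_sum (f := fun D => F D r + K D + 1) (fun _ _ => Nat.zero_le _) (mem_univ D)
    constructor
    · intro l h0 hl
      have h2 : ∑ D, (F D (rs (l + 1) J c0) + K D + 1) ≤ c0 l := hc0 l h0 hl
      have h3 := h1 (rs (l + 1) J c0)
      omega
    · intro l hl
      have h2 : ∑ D, (F D (rs (l + 1) J c0) + K D + 1) ≤ c0 l := hc0 l (Nat.zero_le l) hl
      have h3 := h1 (rs (l + 1) J c0)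
      omega
  have hc1 : ∀ l < J, 1 ≤ c0 l := fun l hl => by
    have := (hF ⟨0, Nat.succ_pos d⟩).2 l hl
    omega
  -- the constants
  set Pc : ℝ := ∏ l ∈ range J, (c0 l : ℝ) with hPc
  set m0 : ℕ := ⌈Pc / η⌉₊ with hm0
  set w1 : ℕ := ∑ D : Fin (d + 1), q D (rs 1 J c0) * (rs 0 J c0 0 + 1) ^ k D + d * m0 with hw1
  set f : ℝ := Pc * ((∑ l ∈ range J, c0 l + w1 + 1 : ℕ) : ℝ) ^ d with hf
  refine ⟨nX + ⌈((w1 : ℝ) + 1) / ϖ⌉₊ + ⌈2 * (d + 1) * f / η⌉₊ + 1,
    fun n0 hn0 σ I D hI hD ho hms hpos => ?_⟩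
  have hPI : ∀ I' ⊆ range J, 1 ≤ ∏ l ∈ I', (c0 l : ℝ) := by
    intro I' hI'
    have h1 : ∏ l ∈ I', (1 : ℝ) ≤ ∏ l ∈ I', (c0 l : ℝ) :=
      prod_le_prod (fun _ _ => zero_le_one) fun l hl => by
        exact_mod_cast hc1 l (mem_range.1 (hI' hl))
    rwa [prod_const_one] at h1
  have hPle : ∀ I' ⊆ range J, ∏ l ∈ I', (c0 l : ℝ) ≤ Pc := by
    intro I' hI'
    rw [hPc, ← prod_sdiff hI']
    have h1 := hPI (range J \ I') sdiff_subset
    have h2 : 0 ≤ ∏ l ∈ I', (c0 l : ℝ) := prod_nonneg fun _ _ => Nat.cast_nonneg _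
    nlinarith
  have hmR : ∀ k ∈ σ.ms, k.Blk J := fun k hk => ok_blk (ho.adm k hk).ok
  rcases lt_or_ge D I.card with hlow | hID
  · unfold St.dl
    rw [σ.H_low hlow, σ.V_low hI ho.adm hlow]
    simp
  -- the two parts
  set S0 := σ.ms.filter (fun k => ¬ ∃ x A, k = Kd.ord x A ∧ I ⊆ A) with hS0
  set SW := σ.ms.filter (fun k => ∃ x A, k = Kd.ord x A ∧ I ⊆ A) with hSW
  have hsplit : σ.ms = S0 + SW := by
    rw [hS0, hSW, add_comm]
    exact (Multiset.filter_add_not _ _).symm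
  have hS0k : ∀ k ∈ S0, ∃ x A, k = .ord x A ∧ (I \ A).card = x := by
    intro k hk
    rw [hS0, Multiset.mem_filter] at hk
    obtain ⟨x, A, rfl, h1⟩ := hms k hk.1
    refine ⟨x, A, rfl, h1.resolve_right fun h2 => hk.2 ⟨x, A, rfl, h2.1⟩⟩
  have hSWk : ∀ k ∈ SW, ∃ x A, k = .ord x A ∧ 2 ≤ x ∧ A ⊆ range J ∧ I ⊆ A := by
    intro k hk
    rw [hSW, Multiset.mem_filter] at hk
    obtain ⟨hk1, x, A, rfl, hIA⟩ := hk
    obtain ⟨x', A', h0, h1⟩ := hms _ hk1
    obtain ⟨x'', A'', h0', h3, h4, h5, h6⟩ := ho.adm _ hk1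
    injection h0 with e1 e2
    injection h0' with e3 e4
    subst e1 e2 e3 e4
    refine ⟨x, A, rfl, ?_, h5, hIA⟩
    rcases h1 with h1 | h1
    · rw [sdiff_eq_empty_iff_subset.2 hIA, card_empty] at h1
      omega
    · exact h1.2
  have hwle : w1 + 1 ≤ σ.w := by
    have h1 : ((w1 : ℝ) + 1) / ϖ ≤ n0 := by
      refine (Nat.le_ceil _).trans ?_
      have : ⌈((w1 : ℝ) + 1) / ϖ⌉₊ ≤ n0 := by omega
      exact_mod_cast this
    have h2 : (w1 : ℝ) + 1 ≤ ϖ * n0 := by
      rw [div_le_iff₀ hϖ] at h1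
      linarith
    have h3 := h2.trans ho.w
    exact_mod_cast h3
  obtain ⟨w2, hw2⟩ : ∃ w2, σ.w = w1 + w2 := ⟨σ.w - w1, by omega⟩
  have hw2' : 1 ≤ w2 := by omega
  have hwn : w2 ≤ n0 := by
    have h1 := ho.n
    unfold St.n at h1
    omega
  set σ1 : St := ⟨σ.c, w1, S0⟩ with hσ1
  have hS0le : S0 ≤ σ.ms := by
    rw [hsplit]
    exact Multiset.le_add_right _ _
  have hadm1 : ∀ k ∈ σ1.ms, AdmO d J k := fun k hk => ho.adm k (Multiset.mem_of_le hS0le hk)
  have hV := fun (I' : Finset ℕ) (hI' : I' ⊆ I) (D' : ℕ) =>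
    Last_V (w1 := w1) hI hsplit hw2 (fun k hk => by
      obtain ⟨x, A, rfl, -, -, h3⟩ := hSWk k hk
      exact ⟨x, A, rfl, h3⟩) I' hI' D'
  -- the pairs `(I', |I'|)`
  have hVlow : ∀ I' ⊆ I, σ1.V J I' I'.card = σ.V J I' I'.card := by
    intro I' hI'
    rw [hV I' hI' I'.card, sum_range_succ, sum_eq_zero, zero_add, Nat.sub_self,
      Last_const σ.c SW fun k hk => by
        obtain ⟨x, A, rfl, h2, -, -⟩ := hSWk k hk
        exact ⟨x, A, rfl, h2⟩, mul_one]
    intro s hs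
    have h1 : σ1.V J I' s = 0 := σ1.V_low (hI'.trans hI) hadm1 (mem_range.1 hs)
    show σ1.V J I' s * _ = 0
    rw [h1, zero_mul]
  have hposlow : ∀ I' ⊆ I, η * ∏ l ∈ I', (c0 l : ℝ) ≤ (σ1.V J I' I'.card : ℝ) := by
    intro I' hI'
    rw [hVlow I' hI']
    have h1 := hpos I' hI' I'.card le_rfl (by
      have := card_sdiff_add_card_eq_card hI'
      omega)
    unfold nz at h1
    rwa [Nat.sub_self, pow_zero, mul_one] at h1
  -- the number of the objects of `S0`
  have hcard : Multiset.card S0 ≤ m0 := by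
    have h1 := numb (D := I.card) (hID.trans hD) hI le_rfl ho hη
      (fun I' hI' D' h1 h2 => hpos I' hI' D' h1 (h2.trans hID))
    have h2 : (Multiset.card S0 : ℝ) ≤ (σ.ms.map (nk c0 n0 I I.card)).sum := by
      rw [hsplit, Multiset.map_add, Multiset.sum_add]
      have h3 : ∀ k, 0 ≤ nk c0 n0 I I.card k := by
        intro k
        rcases k with ⟨x, A⟩ | ⟨e, dl, i, As⟩
        · show 0 ≤ (if _ then nz c0 n0 (I ∩ A) (I.card - x) else 0)
          split_ifs
          · unfold nz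
            positivity
          · exact le_rfl
        · exact le_rfl
      have h4 : 0 ≤ (SW.map (nk c0 n0 I I.card)).sum := by
        refine Multiset.sum_nonneg fun y hy => ?_
        obtain ⟨k, -, rfl⟩ := Multiset.mem_map.1 hy
        exact h3 k
      have h5 : (Multiset.card S0 : ℝ) ≤ (S0.map (nk c0 n0 I I.card)).sum := by
        have h6 : ∀ k ∈ S0, (1 : ℝ) ≤ nk c0 n0 I I.card k := by
          intro k hk
          obtain ⟨x, A, rfl, hx⟩ := hS0k k hk
          have h7 := card_sdiff_add_card_inter I A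
          show 1 ≤ (if x ≤ I.card ∧ (I ∩ A).card ≤ I.card - x then
            nz c0 n0 (I ∩ A) (I.card - x) else 0)
          rw [if_pos ⟨by omega, by omega⟩]
          unfold nz
          have h8 : I.card - x - (I ∩ A).card = 0 := by omega
          rw [h8, pow_zero, mul_one]
          exact hPI _ (inter_subset_left.trans hI)
        have h9 := Multiset.card_nsmul_le_sum (s := S0.map (nk c0 n0 I I.card)) (a := (1 : ℝ))
          (fun y hy => by
            obtain ⟨k, hk, rfl⟩ := Multiset.mem_map.1 hy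
            exact h6 k hk)
        rw [Multiset.card_map, nsmul_eq_mul, mul_one] at h9
        exact h9
      linarith
    have h3 : (Multiset.card S0 : ℝ) ≤ Pc / η := by
      rw [le_div_iff₀ hη]
      have h4 : nz c0 n0 I I.card ≤ Pc := by
        unfold nz
        rw [Nat.sub_self, pow_zero, mul_one]
        exact hPle I hI
      calc (Multiset.card S0 : ℝ) * η = η * Multiset.card S0 := mul_comm _ _
        _ ≤ η * (σ.ms.map (nk c0 n0 I I.card)).sum := mul_le_mul_of_nonneg_left h2 hη.le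
        _ ≤ _ := h1.trans h4
    have h4 : (Multiset.card S0 : ℝ) ≤ m0 := h3.trans (Nat.le_ceil _)
    exact_mod_cast h4
  -- exactness of the first factor
  have hEx : ∀ s ≤ D, σ1.Ex d J I s := by
    intro s hs
    have hsd : s < d + 1 := by omega
    refine hq ⟨s, hsd⟩ c0 (hF _).1 σ1 I hI (fun l hl => ?_) ho.c hadm1 (fun x A _ _ => ?_)
      hposlow ?_
    · have := (hF ⟨s, hsd⟩).2 l (mem_range.1 (hI hl))
      omega
    · intro y hy
      exact mem_Ico.2 ⟨Nat.zero_le _, mem_range.1 (hI (mem_sdiff.1 hy).1)⟩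
    · show q ⟨s, hsd⟩ (rs (0 + 1) J c0) * (rs 0 J c0 0 + 1) ^ k ⟨s, hsd⟩ +
        d * Multiset.card S0 ≤ w1
      have h1 : q ⟨s, hsd⟩ (rs 1 J c0) * (rs 0 J c0 0 + 1) ^ k ⟨s, hsd⟩ ≤
          ∑ D : Fin (d + 1), q D (rs 1 J c0) * (rs 0 J c0 0 + 1) ^ k D :=
        single_le_sum (f := fun D => q D (rs 1 J c0) * (rs 0 J c0 0 + 1) ^ k D)
          (fun _ _ => Nat.zero_le _) (mem_univ (⟨s, hsd⟩ : Fin (d + 1)))
      have h2 := Nat.mul_le_mul_left d hcard
      rw [hw1]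
      exact Nat.add_le_add h1 h2
  -- the numbers `v t`, `a r`
  set v : ℕ → ℝ := fun t => (σ1.V J I (I.card + t) : ℝ) with hv
  set a : ℕ → ℝ := fun r => (vd r ∅ σ.c w2 SW : ℝ) with ha
  have hvH : ∀ t, I.card + t ≤ D → v t = (σ1.H d J I (I.card + t) : ℝ) := by
    intro t ht
    have h1 := hEx (I.card + t) ht
    unfold St.Ex at h1
    rw [hv]
    show ((σ1.V J I (I.card + t) : ℤ) : ℝ) = _
    rw [← h1]
    push_cast
    rfl
  have hn1 : σ1.n J ≤ ∑ l ∈ range J, c0 l + w1 := by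
    unfold St.n
    show ∑ l ∈ range J, σ.c l + w1 ≤ _
    exact Nat.add_le_add_right (sum_le_sum fun l _ => ho.c l) _
  have hvnz : ∀ t, I.card + t ≤ D → v t ≤ (∏ i ∈ I, (c0 i : ℝ)) *
      ((∑ l ∈ range J, c0 l + w1 : ℕ) : ℝ) ^ t := by
    intro t ht
    rw [hvH t ht]
    have h1 := σ1.H_le (d := d) (D := I.card + t) (I := I) (c0 := c0) (n0 := ∑ l ∈ range J, c0 l + w1)
      (ht.trans hD) hI (fun l _ => ho.c l) hn1 (Nat.le_add_right _ _)
    unfold nz at h1
    rwa [Nat.add_sub_cancel_left] at h1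
  have hf0 : 0 ≤ f := by
    rw [hf, hPc]
    positivity
  have hR : ∀ r ≤ D - I.card, η / 2 * (n0 : ℝ) ^ r ≤ a r := by
    refine last_ind (η := η) (P := ∏ i ∈ I, (c0 i : ℝ)) (f := f) (n := n0) (R := D - I.card) hη
      (hPI I hI) v a (fun r => (σ.V J I (I.card + r) : ℝ)) (fun r hr => ?_) (fun r hr => ?_) ?_ ?_
      (fun t ht => ⟨?_, ?_⟩) (fun r hr hj => ?_) ?_ (by omega)
    · have h0 : (I \ I).card = 0 := by simp
      have h1 := hpos I subset_rfl (I.card + r) (Nat.le_add_right _ _) (by omega)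
      unfold nz at h1
      rw [Nat.add_sub_cancel_left, ← mul_assoc] at h1
      exact h1
    · show ((σ.V J I (I.card + r) : ℤ) : ℝ) = _
      rw [hV I subset_rfl (I.card + r)]
      push_cast
      have e : I.card + r + 1 = I.card + (r + 1) := by ring
      rw [e, sum_range_add]
      have h0 : ∑ x ∈ range I.card, ((σ1.V J I x : ℤ) : ℝ) * (vd (I.card + r - x) ∅ σ.c w2 SW : ℝ) = 0 := by
        refine sum_eq_zero fun s hs => ?_
        rw [σ1.V_low hI hadm1 (mem_range.1 hs)]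
        push_cast
        rw [zero_mul]
      rw [h0, zero_add]
      refine sum_congr rfl fun t ht => ?_
      rw [hv, ha]
      show _ = ((σ1.V J I (I.card + t) : ℤ) : ℝ) * (vd (r - t) ∅ σ.c w2 SW : ℝ)
      rw [Nat.add_sub_add_left]
    · have h1 := hposlow I subset_rfl
      have h2 := hPI I hI
      show 0 < ((σ1.V J I (I.card + 0) : ℤ) : ℝ)
      rw [Nat.add_zero]
      refine lt_of_lt_of_le ?_ h1
      positivity
    · have h1 := hvnz 0 (by omega)
      rwa [pow_zero, mul_one] at h1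
    · rw [hvH t (by omega)]
      exact Nat.cast_nonneg _
    · refine (hvnz t (by omega)).trans ?_
      rw [hf]
      refine mul_le_mul (hPle I hI) ?_ (by positivity) (by rw [hPc]; positivity)
      have h1 : ((∑ l ∈ range J, c0 l + w1 : ℕ) : ℝ) ≤ ((∑ l ∈ range J, c0 l + w1 + 1 : ℕ) : ℝ) := by
        exact_mod_cast Nat.le_succ _
      have h2 : (1 : ℝ) ≤ ((∑ l ∈ range J, c0 l + w1 + 1 : ℕ) : ℝ) := by
        exact_mod_cast Nat.succ_pos _
      exact (pow_le_pow_left₀ (Nat.cast_nonneg _) h1 t).trans (pow_le_pow_right₀ h2 (by omega))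
    · have h1 := (hX n0 (by omega) w2 σ.c SW hw2' hwn (fun k hk => by
        obtain ⟨x, A, rfl, h2, h3, -⟩ := hSWk k hk
        exact ⟨x, A, rfl, h2, h3⟩) r (by omega) hj).2
      show ((vd r ∅ σ.c w2 SW : ℤ) : ℝ) ≤ _
      exact_mod_cast h1
    · have h1 : 2 * ((d : ℝ) + 1) * f / η ≤ n0 := by
        refine (Nat.le_ceil _).trans ?_
        have : ⌈2 * ((d : ℝ) + 1) * f / η⌉₊ ≤ n0 := by omega
        exact_mod_cast this
      rw [div_le_iff₀ hη] at h1
      have h2 : ((D - I.card : ℕ) : ℝ) ≤ d := by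
        have : D - I.card ≤ d := by omega
        exact_mod_cast this
      have h3 : 2 * (((D - I.card : ℕ) : ℝ) + 1) * f ≤ 2 * ((d : ℝ) + 1) * f := by
        refine mul_le_mul_of_nonneg_right ?_ hf0
        linarith
      linarith
  -- the end
  have hfin : ∀ s ∈ range (D + 1), ((σ1.H d J I s : ℤ) * (HI d (D - s) (fun _ : Fin w2 => J) ∅ SW : ℤ)) ≤
      σ1.V J I s * vd (D - s) ∅ σ.c w2 SW := by
    intro s hs
    rw [mem_range, Nat.lt_succ_iff] at hs
    rcases lt_or_ge s I.card with h1 | h1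
    · rw [σ1.H_low h1, σ1.V_low hI hadm1 h1]
      simp
    · have h2 := hEx s hs
      unfold St.Ex at h2
      rw [← h2]
      refine mul_le_mul_of_nonneg_left ?_ (Nat.cast_nonneg _)
      refine (hX n0 (by omega) w2 σ.c SW hw2' hwn (fun k hk => by
        obtain ⟨x, A, rfl, h2, h3, -⟩ := hSWk k hk
        exact ⟨x, A, rfl, h2, h3⟩) (D - s) (by omega) fun j hj => ?_).1
      exact hR j (by omega)
  have h1 := Last_split hD hI hsplit hw2 hmR
  have h2 : (σ.H d J I D : ℤ) ≤ σ.V J I D := by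
    rw [hV I subset_rfl D]
    refine le_trans ?_ (sum_le_sum hfin)
    exact_mod_cast h1
  unfold St.dl
  omega

end Last

end Pool.Agent.GD.AL
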