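import Pool.Agent.GD.AL.CDef

/-!
# General d, ALPHA, part C: the virtual dimension of the trace on `L_i`
-/

set_option autoImplicit false

namespace Pool.Agent.GD.AL

open Finset

section

variable {d J D : ℕ} {σ : St} {I : Finset ℕ}

private theorem mem_inter_iff {As : List (Finset ℕ)} (h : 1 ≤ As.length) (i : ℕ) :
    i ∈ inter As ↔ ∀ A ∈ As, i ∈ A := by
  obtain ⟨B, Bs, rfl⟩ := List.exists_cons_of_length_pos h
  unfold inter
  rw [mem_filter]
  constructor
  · exact fun h => h.2
  · exact fun h => ⟨h B List.mem_cons_self, h⟩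

private theorem filter_prod (i e : ℕ) (I' : Finset ℕ) (As : List (Finset ℕ)) :
    ((As.filter fun A => i ∈ A).map fun A =>
        if I' ⊆ A then 1 - PowerSeries.X ^ e else (1 : PowerSeries ℤ)).prod =
      (As.map fun A => if insert i I' ⊆ A then 1 - PowerSeries.X ^ e
        else (1 : PowerSeries ℤ)).prod := by
  induction As with
  | nil => rfl
  | cons A As ih =>
    rw [List.filter_cons, List.map_cons, List.prod_cons, ← ih]
    by_cases h : i ∈ A
    · rw [if_pos (by simpa using h), List.map_cons, List.prod_cons]
      congr 1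
      by_cases h2 : I' ⊆ A
      · rw [if_pos h2, if_pos (insert_subset h h2)]
      · rw [if_neg h2, if_neg fun h3 => h2 ((subset_insert _ _).trans h3)]
    · rw [if_neg (by simpa using h), if_neg fun h3 => h (h3 (mem_insert_self _ _)), one_mul]

private theorem mem_filter_prod_one {l e : ℕ} {I' : Finset ℕ} (hl : l ∈ I') (i : ℕ)
    (As : List (Finset ℕ)) (hA : ∀ A ∈ As, l ∉ A) :
    ((As.filter fun A => i ∈ A).map fun A =>
        if I' ⊆ A then 1 - PowerSeries.X ^ e else (1 : PowerSeries ℤ)).prod = 1 := by
  induction As with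
  | nil => rfl
  | cons A As ih =>
    have ih' := ih fun B hB => hA B (List.mem_cons_of_mem _ hB)
    rw [List.filter_cons]
    split_ifs with h
    · rw [List.map_cons, List.prod_cons, ih', if_neg fun h2 =>
        hA A List.mem_cons_self (h2 hl), one_mul]
    · exact ih'

/-- The factors of the trace. -/
theorem P_tri {i : ℕ} {k : Kd} (hk : k.Ok d J) {I' : Finset ℕ} (hi : i ∉ I') :
    ((tri i k).map (Kd.P I')).prod = k.P (insert i I') := by
  cases k with
  | ord e A =>
    show ((if i ∈ A then {Kd.ord e A} else 0 : Multiset Kd).map (Kd.P I')).prod =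
      if insert i I' ⊆ A then 1 - PowerSeries.X ^ e else 1
    by_cases h : i ∈ A
    · rw [if_pos h, Multiset.map_singleton, Multiset.prod_singleton]
      show (if I' ⊆ A then 1 - PowerSeries.X ^ e else (1 : PowerSeries ℤ)) = _
      by_cases h2 : I' ⊆ A
      · rw [if_pos h2, if_pos (insert_subset h h2)]
      · rw [if_neg h2, if_neg fun h3 => h2 ((subset_insert _ _).trans h3)]
    · rw [if_neg h, if_neg fun h3 => h (h3 (mem_insert_self _ _)), Multiset.map_zero,
        Multiset.prod_zero]
  | cl e dl l As =>
    obtain ⟨he, hL, htr, hlJ, hA⟩ := hk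
    have hlA : ∀ A ∈ As, l ∉ A := fun A hA' h => (mem_erase.1 (hA A hA' h)).1 rfl
    show ((if l = i then {Kd.ord (trx e dl As.length) (inter As)}
      else if ∀ A ∈ As, i ∈ A then {Kd.cl e dl l As}
      else (((As.filter fun A => i ∈ A).map fun A => Kd.ord e A : List Kd) : Multiset Kd) :
        Multiset Kd).map (Kd.P I')).prod =
      if l ∈ insert i I' then
        (if (insert i I').erase l ⊆ inter As then 1 - PowerSeries.X ^ trx e dl As.length else 1)
      else (As.map fun A => if insert i I' ⊆ A then 1 - PowerSeries.X ^ e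
        else (1 : PowerSeries ℤ)).prod
    by_cases hli : l = i
    · subst hli
      rw [if_pos rfl, if_pos (mem_insert_self _ _), erase_insert hi, Multiset.map_singleton,
        Multiset.prod_singleton]
      rfl
    · have hlI : l ∈ insert i I' ↔ l ∈ I' := by
        rw [mem_insert]
        exact ⟨fun h => h.resolve_left hli, Or.inr⟩
      rw [if_neg hli]
      by_cases hall : ∀ A ∈ As, i ∈ A
      · have hin : i ∈ inter As := (mem_inter_iff hL i).2 hall
        rw [if_pos hall, Multiset.map_singleton, Multiset.prod_singleton]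
        show (if l ∈ I' then
          (if I'.erase l ⊆ inter As then 1 - PowerSeries.X ^ trx e dl As.length else 1)
          else (As.map fun A => if I' ⊆ A then 1 - PowerSeries.X ^ e
            else (1 : PowerSeries ℤ)).prod) = _
        by_cases h1 : l ∈ I'
        · rw [if_pos h1, if_pos (hlI.2 h1)]
          by_cases h2 : I'.erase l ⊆ inter As
          · rw [if_pos h2, if_pos]
            intro y hy
            obtain ⟨h3, h4⟩ := mem_erase.1 hy
            rcases mem_insert.1 h4 with rfl | h5
            · exact hin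
            · exact h2 (mem_erase.2 ⟨h3, h5⟩)
          · rw [if_neg h2, if_neg fun h3 => h2
              ((erase_subset_erase l (subset_insert i I')).trans h3)]
        · rw [if_neg h1, if_neg fun h2 => h1 (hlI.1 h2)]
          congr 1
          refine List.map_congr_left fun A hA' => ?_
          by_cases h2 : I' ⊆ A
          · rw [if_pos h2, if_pos (insert_subset (hall A hA') h2)]
          · rw [if_neg h2, if_neg fun h3 => h2 ((subset_insert _ _).trans h3)]
      · have hin : i ∉ inter As := fun h => hall ((mem_inter_iff hL i).1 h)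
        rw [if_neg hall, Multiset.map_coe, Multiset.prod_coe, List.map_map]
        have h0 : (Kd.P I' ∘ fun A => Kd.ord e A) = fun A : Finset ℕ =>
            if I' ⊆ A then 1 - PowerSeries.X ^ e else (1 : PowerSeries ℤ) := by
          funext A
          rfl
        rw [h0]
        by_cases h1 : l ∈ I'
        · rw [if_pos (hlI.2 h1), mem_filter_prod_one h1 i As hlA, if_neg]
          exact fun h2 => hin (h2 (mem_erase.2 ⟨fun h => hli h.symm, mem_insert_self _ _⟩))
        · rw [if_neg fun h2 => h1 (hlI.1 h2), filter_prod]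

/-- The virtual dimension of the trace on `L_i`. -/
theorem St.V_li (hI : I ⊆ range J) {i : ℕ} (hi : i ∉ I) (hiJ : i < J)
    (hm : ∀ k ∈ σ.ms, k.Ok d J) :
    (σ.li i).V J I D = σ.V J I D - σ.V J (insert i I) D := by
  have hn : (σ.li i).n J = σ.n J - σ.c i := by
    show ∑ l ∈ range J, Function.update σ.c i 0 l + σ.w = ∑ l ∈ range J, σ.c l + σ.w - σ.c i
    rw [sum_update_of_mem (mem_range.2 hiJ), sdiff_singleton_eq_erase,
      ← add_sum_erase (range J) σ.c (mem_range.2 hiJ)]
    omega
  unfold St.V
  rw [hn]
  unfold vd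
  rw [sum_powerset_insert hi]
  have key : ∀ I' ∈ I.powerset,
      (-1 : ℤ) ^ I'.card * PowerSeries.coeff D (((σ.li i).ms.map (Kd.P I')).prod *
        hs (σ.n J - σ.c i - ∑ l ∈ I', (σ.li i).c l)) =
      -((-1 : ℤ) ^ (insert i I').card * PowerSeries.coeff D ((σ.ms.map (Kd.P (insert i I'))).prod *
        hs (σ.n J - ∑ l ∈ insert i I', σ.c l))) := by
    intro I' hI'
    have hI'' := mem_powerset.1 hI'
    have hiI' : i ∉ I' := fun h => hi (hI'' h)
    have e1 : ((σ.li i).ms.map (Kd.P I')).prod = (σ.ms.map (Kd.P (insert i I'))).prod := by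
      show ((σ.ms.bind (tri i)).map (Kd.P I')).prod = _
      rw [Multiset.map_bind, Multiset.prod_bind]
      congr 1
      exact Multiset.map_congr rfl fun k hk => P_tri (hm k hk) hiI'
    have e2 : ∑ l ∈ I', (σ.li i).c l = ∑ l ∈ I', σ.c l :=
      by
      refine sum_congr rfl fun l hl => ?_
      have h3 : l ≠ i := fun h => hiI' (h ▸ hl)
      show Function.update σ.c i 0 l = σ.c l
      rw [Function.update_of_ne h3]
    rw [e1, e2, card_insert_of_notMem hiI', sum_insert hiI', Nat.sub_sub, pow_succ]
    ring
  rw [sum_congr rfl key, sum_neg_distrib]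
  ring

end

end Pool.Agent.GD.AL
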