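import Pool.Agent.GD.AL.Om
import Pool.Agent.GD.AL.CSt

/-!
# General d, ALPHA, part C: a tied member, the virtual dimensions

`tie_pos`: if one member of a cluster is tied, the virtual dimensions drop by at most four times the weight of the
cluster.
-/

set_option autoImplicit false

namespace Pool.Agent.GD.AL

open Finset

section

variable {d J D e : ℕ} {σ : St} {I : Finset ℕ} {c0 : ℕ → ℕ} {n0 : ℕ}

theorem nz_nn (c0 : ℕ → ℕ) (n0 : ℕ) (I : Finset ℕ) (D : ℕ) : 0 ≤ nz c0 n0 I D := by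
  unfold nz
  positivity

theorem Rf.n0_pos {K : ℝ} (hR : Rf J c0 n0 K) (hK : 0 < K) : (0 : ℝ) < n0 := by
  have h1 : (0 : ℝ) ≤ ∑ l ∈ range J, (c0 l : ℝ) := sum_nonneg fun _ _ => Nat.cast_nonneg _
  have h2 := hR.n
  nlinarith

theorem Rf.le_n0 {K : ℝ} (hR : Rf J c0 n0 K) (hK : 0 ≤ K) : K ≤ n0 := by
  have h1 : (0 : ℝ) ≤ ∑ l ∈ range J, (c0 l : ℝ) := sum_nonneg fun _ _ => Nat.cast_nonneg _
  have h2 := hR.n
  nlinarith

theorem Rf.mono {K K' : ℝ} (hR : Rf J c0 n0 K) (h : K' ≤ K) : Rf J c0 n0 K' := by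
  have h1 : (0 : ℝ) ≤ ∑ l ∈ range J, (c0 l : ℝ) := sum_nonneg fun _ _ => Nat.cast_nonneg _
  refine ⟨fun l hl => h.trans (hR.c l hl), le_trans ?_ hR.n⟩
  exact mul_le_mul_of_nonneg_right h (by linarith)

/-- The objects are harmless in low degrees. -/
theorem low_adm {k : Kd} (h : AdmO d J k ∨ AdmC d J e k) : k.Low (range J) := by
  rcases h with ⟨x, A, rfl, -, -, -, h4⟩ | ⟨dl, i, As, rfl, h1, h2, h3, h4, h5⟩
  · exact h4
  · refine ⟨h2, fun A hA => ?_⟩
    obtain ⟨h6, h7⟩ := h5 A hA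
    refine ⟨fun h => notMem_erase i _ (h6 h), ?_⟩
    have h8 : range J \ A ⊆ insert i ((range J).erase i \ A) := by
      intro x hx
      rw [mem_sdiff] at hx
      rw [mem_insert, mem_sdiff, mem_erase]
      by_cases h : x = i
      · exact Or.inl h
      · exact Or.inr ⟨⟨h, hx.1⟩, hx.2⟩
    have h9 := (card_le_card h8).trans (card_insert_le _ _)
    omega

theorem V_zero_low {J' : ℕ} {ms : Multiset Kd} (hm : ∀ k ∈ ms, k.Low (range J')) {I' : Finset ℕ}
    (hI : I' ⊆ range J') {D' : ℕ} (hD : D' < I'.card) : (σ.wm ms).V J' I' D' = 0 := by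
  refine vd_low (J := range J') ?_ ms hm I' hI D' hD
  unfold St.n
  exact Nat.le_add_right _ _

/-- The members as ordinary objects. -/
theorem admO_mb {dl i : ℕ} {As : List (Finset ℕ)} (hk : AdmC d J e (.cl e dl i As)) {A : Finset ℕ}
    (hA : A ∈ As) : AdmO d J (.ord e A) ∧ AdmO d J (.ord e (insert i A)) ∧
      AdmO d J (.ord (e - 1) (insert i A)) := by
  have hlow := low_adm (Or.inr hk : AdmO d J (.cl e dl i As) ∨ AdmC d J e (.cl e dl i As))
  obtain ⟨dl', i', As', h, he, h1, htr, hi, hAs⟩ := hk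
  injection h with _ _ h3 h4
  subst h3
  subst h4
  obtain ⟨h5, h6⟩ := hAs A hA
  have hlen : e ≤ d := by
    unfold trx at htr
    have h7 : 1 * (e - 1) ≤ As.length * (e - 1) := Nat.mul_le_mul_right _ h1
    omega
  have hins : insert i A ⊆ range J := by
    rw [insert_subset_iff]
    exact ⟨mem_range.2 hi, h5.trans (erase_subset _ _)⟩
  have h7 : range J \ insert i A = (range J).erase i \ A := by
    ext x
    rw [mem_sdiff, mem_sdiff, mem_insert, mem_erase]
    tauto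
  refine ⟨⟨e, A, rfl, by omega, hlen, h5.trans (erase_subset _ _), (hlow.2 A hA).2⟩,
    ⟨e, insert i A, rfl, by omega, hlen, hins, ?_⟩,
    ⟨e - 1, insert i A, rfl, by omega, by omega, hins, ?_⟩⟩
  · rw [h7]
    omega
  · rw [h7]
    exact h6

theorem mb_split (e : ℕ) (L₁ L₂ : List (Finset ℕ)) (A : Finset ℕ) :
    mb e (L₁ ++ A :: L₂) = .ord e A ::ₘ mb e (L₂ ++ L₁) := by
  unfold mb
  rw [List.map_append, List.map_append, List.map_cons, ← Multiset.coe_add, ← Multiset.coe_add,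
    ← Multiset.cons_coe, Multiset.add_cons, add_comm]

/-- The virtual dimensions with one member apart. -/
theorem V_tie {I' : Finset ℕ} {D' dl i : ℕ} {L₁ L₂ : List (Finset ℕ)} {A : Finset ℕ}
    {ms : Multiset Kd} (hiA : ∀ A' ∈ L₁ ++ A :: L₂, i ∉ A') :
    (σ.wm (.cl e dl i (L₁ ++ A :: L₂) ::ₘ ms)).V J I' D' =
      (σ.wm (mb e (L₂ ++ L₁) + ms)).V J I' D' -
        (if e ≤ D' then (σ.wm (mb e (L₂ ++ L₁) + ms)).V J (I' ∩ A) (D' - e) else 0) +
        (if i ∈ I' ∧ trx e dl (L₁ ++ A :: L₂).length ≤ D' then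
          (σ.wm ms).V J (I'.erase i ∩ inter (L₁ ++ A :: L₂))
              (D' - trx e dl (L₁ ++ A :: L₂).length) -
            (σ.wm ms).V J (insert i (I'.erase i ∩ inter (L₁ ++ A :: L₂)))
              (D' - trx e dl (L₁ ++ A :: L₂).length) else 0) := by
  have h1 : ∀ D'' I'', vd D'' I'' σ.c (σ.n J) (mb e (L₁ ++ A :: L₂) + ms) =
      vd D'' I'' σ.c (σ.n J) (mb e (L₂ ++ L₁) + ms) -
        (if e ≤ D'' then vd (D'' - e) (I'' ∩ A) σ.c (σ.n J) (mb e (L₂ ++ L₁) + ms) else 0) := by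
    intro D'' I''
    rw [mb_split, Multiset.cons_add, vd_ord]
  show vd D' I' σ.c (σ.n J) (.cl e dl i (L₁ ++ A :: L₂) ::ₘ ms) =
    vd D' I' σ.c (σ.n J) (mb e (L₂ ++ L₁) + ms) -
      (if e ≤ D' then vd (D' - e) (I' ∩ A) σ.c (σ.n J) (mb e (L₂ ++ L₁) + ms) else 0) +
      (if i ∈ I' ∧ trx e dl (L₁ ++ A :: L₂).length ≤ D' then
        vd (D' - trx e dl (L₁ ++ A :: L₂).length) (I'.erase i ∩ inter (L₁ ++ A :: L₂)) σ.c
            (σ.n J) ms -
          vd (D' - trx e dl (L₁ ++ A :: L₂).length)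
            (insert i (I'.erase i ∩ inter (L₁ ++ A :: L₂))) σ.c (σ.n J) ms else 0)
  rw [← h1]
  by_cases hi : i ∈ I'
  · rw [vd_clu D' σ.c (σ.n J) e dl hiA hi ms]
    congr 1
    by_cases h2 : trx e dl (L₁ ++ A :: L₂).length ≤ D'
    · rw [if_pos h2, if_pos ⟨hi, h2⟩]
    · rw [if_neg h2, if_neg fun h => h2 h.2]
  · rw [vd_clu_not D' σ.c (σ.n J) e dl hi ms, if_neg fun h => hi h.1, add_zero]
    rfl

theorem card_cut' {I I' A : Finset ℕ} {J x : ℕ} (hI : I ⊆ range J)
    (hA : (range J \ A).card ≤ x) : (I \ (I' ∩ A)).card ≤ (I \ I').card + x := by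
  have h1 : I \ (I' ∩ A) ⊆ (I \ I') ∪ (range J \ A) := by
    intro y hy
    rw [mem_sdiff] at hy
    rw [mem_union, mem_sdiff, mem_sdiff]
    by_cases h : y ∈ I'
    · exact Or.inr ⟨hI hy.1, fun hyA => hy.2 (Finset.mem_inter.2 ⟨h, hyA⟩)⟩
    · exact Or.inl ⟨hy.1, h⟩
  have h2 := (card_le_card h1).trans (card_union_le _ _)
  omega

/-- The bounds of the virtual dimensions of a state at the pairs below `(I, D)`. -/
def Bd (J : ℕ) (c0 : ℕ → ℕ) (n0 : ℕ) (I : Finset ℕ) (D : ℕ) (σ : St) : Prop :=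
  ∀ I' ⊆ I, ∀ D' : ℕ, I'.card ≤ D' → D' + (I \ I').card ≤ D →
    0 ≤ (σ.V J I' D' : ℝ) ∧ (σ.V J I' D' : ℝ) ≤ 2 * nz c0 n0 I' D'

/-- **A tied member.** -/
theorem tie_pos {dl i : ℕ} {L₁ L₂ : List (Finset ℕ)} {A : Finset ℕ} {ms : Multiset Kd}
    (hR : Rf J c0 n0 1) (hI : I ⊆ range J) (hm : ∀ k ∈ ms, AdmO d J k ∨ AdmC d J e k)
    (hk : AdmC d J e (.cl e dl i (L₁ ++ A :: L₂)))
    (hb1 : Bd J c0 n0 I D (σ.wm (mb e (L₂ ++ L₁) + ms))) (hb2 : Bd J c0 n0 I D (σ.wm ms))
    (hom : om c0 n0 J (.cl e dl i (L₁ ++ A :: L₂)) = rl c0 n0 e ((range J).erase i \ A)) :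
    ∀ I' ⊆ I, ∀ D' : ℕ, I'.card ≤ D' → D' + (I \ I').card ≤ D →
      ((σ.wm (.cl e dl i (L₁ ++ A :: L₂) ::ₘ ms)).V J I' D' : ℝ) -
          4 * om c0 n0 J (.cl e dl i (L₁ ++ A :: L₂)) * nz c0 n0 I' D' ≤
        (σ.wm (.ord (e - 1) (insert i A) ::ₘ (mb e (L₂ ++ L₁) + ms))).V J I' D' := by
  intro I' hI' D' hD' hID'
  have hk0 := hk
  obtain ⟨he, hlen0, htr, hiJ, hAs⟩ := hk.ok
  have hiAs : ∀ A' ∈ L₁ ++ A :: L₂, i ∉ A' := fun A' hA' h =>
    notMem_erase i (range J) (hAs A' hA' h)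
  have hAm : A ∈ L₁ ++ A :: L₂ := by simp
  have hlowk := low_adm (Or.inr hk : AdmO d J _ ∨ AdmC d J e _)
  have hlms : ∀ k ∈ ms, k.Low (range J) := fun k h => low_adm (hm k h)
  have hlR : ∀ k ∈ mb e (L₂ ++ L₁) + ms, k.Low (range J) := by
    intro k h
    rcases Multiset.mem_add.1 h with h | h
    · unfold mb at h
      rw [Multiset.mem_coe, List.mem_map] at h
      obtain ⟨A', hA', rfl⟩ := h
      refine (hlowk.2 A' ?_).2
      rw [List.mem_append] at hA'
      rw [List.mem_append, List.mem_cons]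
      tauto
    · exact hlms k h
  obtain ⟨hA1, hA2, hA3⟩ := admO_mb hk hAm
  obtain ⟨x1, B1, e1, -, -, hB1, hc1⟩ := hA1
  injection e1 with e1 e1'
  subst e1
  subst e1'
  obtain ⟨x3, B3, e3, -, -, hB3, hc3⟩ := hA3
  injection e3 with e3 e3'
  subst e3
  subst e3'
  have hIJ : I' ⊆ range J := hI'.trans hI
  have hnz := nz_nn c0 n0 I' D'
  have hom0 : 0 ≤ om c0 n0 J (.cl e dl i (L₁ ++ A :: L₂)) := om_nonneg _
  set w := om c0 n0 J (.cl e dl i (L₁ ++ A :: L₂)) with hw
  -- the new object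
  have hnew : (σ.wm (.ord (e - 1) (insert i A) ::ₘ (mb e (L₂ ++ L₁) + ms))).V J I' D' =
      (σ.wm (mb e (L₂ ++ L₁) + ms)).V J I' D' - if e - 1 ≤ D' then
        (σ.wm (mb e (L₂ ++ L₁) + ms)).V J (I' ∩ insert i A) (D' - (e - 1)) else 0 :=
    vd_ord D' I' σ.c (σ.n J) (e - 1) (insert i A) (mb e (L₂ ++ L₁) + ms)
  have hold := V_tie (σ := σ) (J := J) (e := e) (I' := I') (D' := D') (dl := dl) (ms := ms) hiAs
  -- the three terms
  have hT1 : (0 : ℝ) ≤ ((if e ≤ D' then (σ.wm (mb e (L₂ ++ L₁) + ms)).V J (I' ∩ A) (D' - e)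
      else 0 : ℤ) : ℝ) := by
    split_ifs with h
    · by_cases h2 : (I' ∩ A).card ≤ D' - e
      · refine (hb1 (I' ∩ A) (inter_subset_left.trans hI') (D' - e) h2 ?_).1
        have := card_cut' (I' := I') hI hc1
        omega
      · rw [V_zero_low hlR (inter_subset_left.trans hIJ) (by omega)]
        simp
    · simp
  have hT2 : ((if e - 1 ≤ D' then (σ.wm (mb e (L₂ ++ L₁) + ms)).V J (I' ∩ insert i A)
      (D' - (e - 1)) else 0 : ℤ) : ℝ) ≤ 2 * w * nz c0 n0 I' D' := by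
    have h0 : (0 : ℝ) ≤ 2 * w * nz c0 n0 I' D' := by positivity
    split_ifs with h
    · by_cases h2 : (I' ∩ insert i A).card ≤ D' - (e - 1)
      · refine (hb1 (I' ∩ insert i A) (inter_subset_left.trans hI') (D' - (e - 1)) h2 ?_).2.trans ?_
        · have := card_cut' (I' := I') hI hc3
          omega
        · have h3 := nz_rl (c0 := c0) (n0 := n0) (e := e) hR hIJ (i := i) (A := A) (D := D') (by
            obtain ⟨dl', i', As', h, -, -, -, -, hA'⟩ := hk0
            injection h with _ _ h3 h4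
            subst h3
            subst h4
            exact (hA' A hAm).2) h h2
          rw [← hom] at h3
          nlinarith
      · rw [V_zero_low hlR (inter_subset_left.trans hIJ) (by omega)]
        simpa using h0
    · simpa using h0
  have hT3 : ((if i ∈ I' ∧ trx e dl (L₁ ++ A :: L₂).length ≤ D' then
          (σ.wm ms).V J (I'.erase i ∩ inter (L₁ ++ A :: L₂))
              (D' - trx e dl (L₁ ++ A :: L₂).length) -
            (σ.wm ms).V J (insert i (I'.erase i ∩ inter (L₁ ++ A :: L₂)))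
              (D' - trx e dl (L₁ ++ A :: L₂).length) else 0 : ℤ) : ℝ) ≤
      2 * w * nz c0 n0 I' D' := by
    have h0 : (0 : ℝ) ≤ 2 * w * nz c0 n0 I' D' := by positivity
    split_ifs with h
    · obtain ⟨hi, htD⟩ := h
      set J1 := I'.erase i ∩ inter (L₁ ++ A :: L₂) with hJ1
      set E := trx e dl (L₁ ++ A :: L₂).length with hE
      have hiJ1 : i ∉ J1 := fun h => notMem_erase i I' (Finset.mem_inter.1 h).1
      have hJ1I : J1 ⊆ I' := inter_subset_left.trans (erase_subset _ _)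
      have hinsI : insert i J1 ⊆ I' := insert_subset hi hJ1I
      have hcard : (I'.erase i \ inter (L₁ ++ A :: L₂)).card ≤
          (L₁ ++ A :: L₂).length * (e - 1) := by
        refine card_inter_le hi _ (by simp) fun A' hA' => ?_
        obtain ⟨h5, h6⟩ := hlowk.2 A' hA'
        exact ⟨h5, (card_le_card (sdiff_subset_sdiff hIJ le_rfl)).trans h6⟩
      have hcut : (I \ insert i J1).card ≤ (I \ I').card + (L₁ ++ A :: L₂).length * (e - 1) := by
        have h5 : I \ insert i J1 ⊆ (I \ I') ∪ (I'.erase i \ inter (L₁ ++ A :: L₂)) := by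
          intro x hx
          rw [mem_sdiff, mem_insert, not_or] at hx
          rw [mem_union, mem_sdiff, mem_sdiff, mem_erase]
          by_cases h7 : x ∈ I'
          · refine Or.inr ⟨⟨hx.2.1, h7⟩, fun h8 => hx.2.2 ?_⟩
            rw [hJ1, Finset.mem_inter, mem_erase]
            exact ⟨⟨hx.2.1, h7⟩, h8⟩
          · exact Or.inl ⟨hx.1, h7⟩
        exact (card_le_card h5).trans ((card_union_le _ _).trans (Nat.add_le_add_left hcard _))
      have hcut' : (I \ J1).card ≤ (I \ insert i J1).card + 1 := by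
        have h5 : I \ J1 ⊆ insert i (I \ insert i J1) := by
          intro x hx
          rw [mem_sdiff] at hx
          rw [mem_insert, mem_sdiff, mem_insert]
          tauto
        exact (card_le_card h5).trans (card_insert_le _ _)
      have hEdef : E = (L₁ ++ A :: L₂).length * (e - 1) + 1 + dl := rfl
      have hpos : (0 : ℝ) ≤ ((σ.wm ms).V J (insert i J1) (D' - E) : ℝ) := by
        by_cases h5 : (insert i J1).card ≤ D' - E
        · refine (hb2 _ (hinsI.trans hI') _ h5 ?_).1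
          omega
        · rw [V_zero_low hlms (hinsI.trans hIJ) (by omega)]
          simp
      push_cast
      by_cases h5 : J1.card ≤ D' - E
      · have h6 := (hb2 J1 (hJ1I.trans hI') (D' - E) h5 (by omega)).2
        have h7 := bracket_le hR hIJ hk0 hi htD h5
        have h8 : 2 * nz c0 n0 J1 (D' - E) ≤ 2 * w * nz c0 n0 I' D' := by
          rw [mul_assoc]
          exact mul_le_mul_of_nonneg_left h7 (by norm_num)
        linarith
      · rw [V_zero_low hlms (hJ1I.trans hIJ) (by omega)]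
        simp only [Int.cast_zero, zero_sub]
        linarith
    · simpa using h0
  rw [hnew, hold]
  push_cast at hT1 hT2 hT3 ⊢
  linarith

end

end Pool.Agent.GD.AL
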