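import Pool.Agent.GD.AL.Near
import Pool.Agent.GD.AL.Ph1a

/-!
# General d, ALPHA, part C: phase 1 (the other clusters)

The clusters which are not clusters for `CL2` at a level of `I` are removed one after the other (`ph1_core`); every
removal costs at most four times the weight of the cluster.  The lower terms are treated by `XC` in smaller degrees.
-/

set_option autoImplicit false

namespace Pool.Agent.GD.AL

open Finset

section

variable {d J D e : ℕ} {σ : St} {I : Finset ℕ} {c0 : ℕ → ℕ} {n0 : ℕ}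

/-- Bounds from both sides at all pairs. -/
def Bq (J : ℕ) (c0 : ℕ → ℕ) (n0 : ℕ) (η : ℝ) (σ : St) (I : Finset ℕ) (D : ℕ) : Prop :=
  ∀ I' ⊆ I, ∀ D' : ℕ, I'.card ≤ D' → D' + (I \ I').card ≤ D →
    η * nz c0 n0 I' D' ≤ (σ.V J I' D' : ℝ) ∧ (σ.V J I' D' : ℝ) ≤ 2 * nz c0 n0 I' D'

theorem Bq.bp {η : ℝ} (h : Bq J c0 n0 η σ I D) : BP J c0 n0 η σ I D :=
  fun I' hI' D' h1 _ h3 => h I' hI' D' h1 h3

theorem Bq.lo {η m0 : ℝ} (hm0 : 1 ≤ m0) (hR : Rf J c0 n0 m0) (hI : I ⊆ range J) (hD : D ≤ d)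
    (hm : ∀ k ∈ σ.ms, AdmO d J k ∨ AdmC d J e k) {a : ℕ} (ha : a < J) (hc : 1 ≤ σ.c a)
    (hη : 2 / m0 ≤ η) (hb : Bq J c0 n0 η σ I D) : Bq J c0 n0 (η - 2 / m0) (σ.lo a 1) I D := by
  have h0 : 2 * ((1 : ℕ) : ℝ) / c0 a ≤ 2 / m0 := by
    rw [Nat.cast_one, mul_one]
    exact div_le_div_of_nonneg_left (by norm_num) (by linarith) (hR.c a ha)
  intro I' hI' D' h1 h2
  obtain ⟨h3, h4⟩ := near_lo (hR.mono hm0) hI hD hm ha hc (h0.trans hη) hb.bp I' hI' D' h1 h2
  obtain ⟨h5, h6⟩ := hb I' hI' D' h1 h2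
  have h7 := mul_le_mul_of_nonneg_right h0 (nz_nn c0 n0 I' D')
  have h8 : ((σ.lo a 1).V J I' D' : ℝ) ≤ (σ.V J I' D' : ℝ) := by exact_mod_cast h4
  constructor <;> nlinarith

theorem Bq.lw {η m0 : ℝ} (hm0 : 1 ≤ m0) (hR : Rf J c0 n0 m0) (hI : I ⊆ range J) (hD : D ≤ d)
    (hm : ∀ k ∈ σ.ms, AdmO d J k ∨ AdmC d J e k) (hw : 1 ≤ σ.w)
    (hη : 2 / m0 ≤ η) (hb : Bq J c0 n0 η σ I D) : Bq J c0 n0 (η - 2 / m0) (σ.lw 1) I D := by
  have h0 : 2 * ((1 : ℕ) : ℝ) / n0 ≤ 2 / m0 := by
    rw [Nat.cast_one, mul_one]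
    exact div_le_div_of_nonneg_left (by norm_num) (by linarith) (hR.le_n0 (by linarith))
  intro I' hI' D' h1 h2
  obtain ⟨h3, h4⟩ := near_lw (hR.mono hm0) hI hD hm hw (h0.trans hη) hb.bp I' hI' D' h1 h2
  obtain ⟨h5, h6⟩ := hb I' hI' D' h1 h2
  have h7 := mul_le_mul_of_nonneg_right h0 (nz_nn c0 n0 I' D')
  have h8 : ((σ.lw 1).V J I' D' : ℝ) ≤ (σ.V J I' D' : ℝ) := by exact_mod_cast h4
  constructor <;> nlinarith

/-- The pairs below `(I ∩ insert i A, s)`. -/
theorem pos_pairs {η : ℝ} {I₁ : Finset ℕ} {s : ℕ} (hI₁ : I₁ ⊆ I) (hs : s + (I \ I₁).card ≤ D)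
    (h : ∀ I' ⊆ I, ∀ D' : ℕ, I'.card ≤ D' → D' + (I \ I').card ≤ D →
      η * nz c0 n0 I' D' ≤ (σ.V J I' D' : ℝ)) : Pos J c0 n0 η σ I₁ s := by
  intro I' hI' D' h1 h2
  refine h I' (hI'.trans hI₁) D' h1 ?_
  have h3 : I \ I' ⊆ (I \ I₁) ∪ (I₁ \ I') := by
    intro x hx
    rw [mem_sdiff] at hx
    rw [mem_union, mem_sdiff, mem_sdiff]
    by_cases h : x ∈ I₁
    · exact Or.inr ⟨h, hx.2⟩
    · exact Or.inl ⟨hx.1, h⟩
  have h4 := (card_le_card h3).trans (card_union_le _ _)
  omega

theorem InC.mono {ϖ ϖ' θ θ' : ℝ} {I₁ : Finset ℕ} (h : InC d J e c0 n0 ϖ θ I σ) (hI : I₁ ⊆ I)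
    (hϖ : ϖ' ≤ ϖ) (hθ : θ ≤ θ') : InC d J e c0 n0 ϖ' θ' I₁ σ where
  c := h.c
  c' := fun l hl => (mul_le_mul_of_nonneg_right hϖ (Nat.cast_nonneg _)).trans (h.c' l (hI hl))
  n := h.n
  w := (mul_le_mul_of_nonneg_right hϖ (Nat.cast_nonneg _)).trans h.w
  adm := h.adm
  om := h.om.trans hθ

theorem InC.lw {ϖ θ m0 : ℝ} (h : InC d J e c0 n0 ϖ θ I σ) (hϖ : 0 < ϖ) (hm0 : 0 < m0)
    (hϖm : 2 ≤ ϖ * m0) (hR : Rf J c0 n0 m0) : InC d J e c0 n0 (ϖ / 2) θ I (σ.lw 1) where
  c := h.c
  c' := fun l hl => (mul_le_mul_of_nonneg_right (by linarith) (Nat.cast_nonneg _)).trans (h.c' l hl)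
  n := by
    have h1 := h.n
    unfold St.n St.lw at *
    simp only
    omega
  w := by
    have h1 := h.w
    have h2 := mul_le_mul_of_nonneg_left (hR.le_n0 hm0.le) hϖ.le
    have h3 : (1 : ℝ) ≤ (σ.w : ℝ) := by linarith
    have h4 : 1 ≤ σ.w := by exact_mod_cast h3
    show ϖ / 2 * n0 ≤ ((σ.w - 1 : ℕ) : ℝ)
    rw [Nat.cast_sub h4, Nat.cast_one]
    linarith
  adm := h.adm
  om := h.om

theorem InC.lo {ϖ θ m0 : ℝ} (h : InC d J e c0 n0 ϖ θ I σ) (hϖ : 0 < ϖ)
    (hϖm : 2 ≤ ϖ * m0) (hR : Rf J c0 n0 m0) {i : ℕ} (hi : i ∈ I) (hI : I ⊆ range J) :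
    InC d J e c0 n0 (ϖ / 2) θ I (σ.lo i 1) where
  c := fun l => by
    show Function.update σ.c i (σ.c i - 1) l ≤ c0 l
    by_cases h1 : l = i
    · subst h1
      rw [Function.update_self]
      exact (Nat.sub_le _ _).trans (h.c l)
    · rw [Function.update_of_ne h1]
      exact h.c l
  c' := fun l hl => by
    show ϖ / 2 * c0 l ≤ ((Function.update σ.c i (σ.c i - 1) l : ℕ) : ℝ)
    have h0 := h.c' l hl
    have h00 : (0 : ℝ) ≤ c0 l := Nat.cast_nonneg _
    by_cases h1 : l = i
    · subst h1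
      have h2 := mul_le_mul_of_nonneg_left (hR.c l (mem_range.1 (hI hi))) hϖ.le
      have h3 : (1 : ℝ) ≤ (σ.c l : ℝ) := by linarith
      have h4 : 1 ≤ σ.c l := by exact_mod_cast h3
      rw [Function.update_self, Nat.cast_sub h4, Nat.cast_one]
      linarith
    · rw [Function.update_of_ne h1]
      nlinarith
  n := by
    have h1 := h.n
    have h2 : (σ.lo i 1).n J ≤ σ.n J := by
      unfold St.n St.lo
      refine Nat.add_le_add_right (sum_le_sum fun l _ => ?_) _
      show Function.update σ.c i (σ.c i - 1) l ≤ σ.c l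
      by_cases h3 : l = i
      · subst h3
        rw [Function.update_self]
        exact Nat.sub_le _ _
      · rw [Function.update_of_ne h3]
    exact h2.trans h1
  w := (mul_le_mul_of_nonneg_right (by linarith) (Nat.cast_nonneg _)).trans h.w
  adm := h.adm
  om := h.om

theorem InC.ad {ϖ θ θ' : ℝ} (h : InC d J e c0 n0 ϖ θ I σ) {k : Kd} (hk : AdmC d J e k)
    (hθ : θ + Pool.Agent.GD.AL.om c0 n0 J k ≤ θ') : InC d J e c0 n0 ϖ θ' I (σ.ad k) where
  c := h.c
  c' := h.c'
  n := h.n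
  w := h.w
  adm := fun k' hk' => by
    rcases Multiset.mem_cons.1 hk' with rfl | h1
    · exact Or.inr hk
    · exact h.adm k' h1
  om := by
    show ((k ::ₘ σ.ms).map (Pool.Agent.GD.AL.om c0 n0 J)).sum ≤ θ'
    rw [Multiset.map_cons, Multiset.sum_cons]
    have := h.om
    linarith

theorem IP.of {N N' : ℕ} {ms ms' : Multiset Kd} (h : IP J e c0 N ms) (hN : N' ≤ N)
    (hcl : ∀ i < J, ∀ m, 2 ≤ m → .cl e 0 i (List.replicate m ((range J).erase i)) ∈ ms' →
      .cl e 0 i (List.replicate m ((range J).erase i)) ∈ ms)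
    (hct : ∀ i < J, ms.count (.ord e ((range J).erase i)) ≤
      ms'.count (.ord e ((range J).erase i))) : IP J e c0 N' ms' := by
  rintro i hi ⟨m, hm, hmem⟩
  exact (Nat.mul_le_mul_right _ hN).trans ((h i hi ⟨m, hm, hcl i hi m hm hmem⟩).trans (hct i hi))

/-- The objects for phase 2. -/
def Gk (d J e : ℕ) (I : Finset ℕ) (k : Kd) : Prop :=
  AdmO d J k ∨ ∃ i ∈ I, ∃ m, 2 ≤ m ∧ k = .cl e 0 i (List.replicate m ((range J).erase i))

theorem om_ords {S : Multiset Kd} (hS : ∀ k ∈ S, AdmO d J k) :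
    (S.map (om c0 n0 J)).sum = 0 := by
  apply Multiset.sum_eq_zero
  intro x hx
  obtain ⟨k, hk, rfl⟩ := Multiset.mem_map.1 hx
  obtain ⟨y, A, rfl, -⟩ := hS k hk
  rfl

theorem admO_mbI {dl i : ℕ} {As : List (Finset ℕ)} (hk : AdmC d J e (.cl e dl i As)) :
    ∀ k ∈ mbI e i As, AdmO d J k := by
  intro k h
  unfold mbI at h
  rw [Multiset.mem_coe, List.mem_map] at h
  obtain ⟨A, hA, rfl⟩ := h
  exact (admO_mb hk hA).2.1

theorem admO_mbs {dl i : ℕ} {As L : List (Finset ℕ)} (hk : AdmC d J e (.cl e dl i As))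
    (hL : ∀ A ∈ L, A ∈ As) : ∀ k ∈ mb e L, AdmO d J k := by
  intro k h
  unfold mb at h
  rw [Multiset.mem_coe, List.mem_map] at h
  obtain ⟨A, hA, rfl⟩ := h
  exact (admO_mb hk (hL A hA)).1

open Classical in
/-- **The removal of the clusters.** -/
theorem ph1_core {η ϖ θ θm m0 : ℝ} (hη : 0 < η) (hϖ : 0 < ϖ) (hθ0 : 0 < θ) (hθη : 32 * θ ≤ η)
    (hθ1 : 3 * θ ≤ 1) (hθm : θ + 1 / m0 ≤ θm) (hm0 : 1 ≤ m0) (hm0η : 16 * (2 * d + 6) ≤ η * m0)
    (hm0ϖ : 4 ≤ ϖ * m0) (hD : D ≤ d) (hR : Rf J c0 n0 m0) (hI : I ⊆ range J)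
    (hP : ∀ σ : St, InC d J e c0 n0 ϖ θ I σ → (∀ k ∈ σ.ms, Gk d J e I k) →
      IP J e c0 ((D + 1) * d) σ.ms → Pos J c0 n0 (η / 2) σ I D → σ.dl d J I D ≤ 0)
    (hC : ∀ s < D, ∀ (σ : St) (I₁ : Finset ℕ), I₁ ⊆ range J →
      InC d J e c0 n0 (ϖ / 4) θm I₁ σ → HH s I₁ σ.ms → IP J e c0 ((s + 1) * d) σ.ms →
      Pos J c0 n0 (η / 4) σ I₁ s → σ.dl d J I₁ s ≤ 0) :
    ∀ (N : ℕ) (σ : St), σ.ms.countP (fun k => ¬ Gk d J e I k) = N →
      InC d J e c0 n0 ϖ θ I σ → HH D I σ.ms → IP J e c0 ((D + 1) * d) σ.ms →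
      Pos J c0 n0 (η / 2 + 4 * (σ.ms.map (om c0 n0 J)).sum) σ I D → σ.dl d J I D ≤ 0 := by
  have hR1 : Rf J c0 n0 1 := hR.mono hm0
  have hm00 : (0 : ℝ) < m0 := by linarith
  have homs : ∀ M : Multiset Kd, 0 ≤ (M.map (om c0 n0 J)).sum := fun M =>
    Multiset.sum_nonneg fun x hx => by
      obtain ⟨k, -, rfl⟩ := Multiset.mem_map.1 hx
      exact om_nonneg k
  intro N
  induction N with
  | zero =>
    intro σ hN hin _ hip hp
    refine hP σ hin (fun k hk => ?_) hip fun I' hI' D' h1 h2 => ?_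
    · by_contra h
      exact (Multiset.countP_pos.2 ⟨k, hk, h⟩).ne' hN
    · refine le_trans ?_ (hp I' hI' D' h1 h2)
      exact mul_le_mul_of_nonneg_right (by linarith [homs σ.ms]) (nz_nn _ _ _ _)
  | succ N ih =>
    intro σ hN hin hh hip hp
    obtain ⟨k, hk, hkG⟩ := Multiset.countP_pos.1 (by rw [hN]; omega)
    obtain ⟨c, w, M⟩ := σ
    obtain ⟨ms, rfl⟩ := Multiset.exists_cons_of_mem hk
    have hN' : ms.countP (fun k => ¬ Gk d J e I k) = N := by
      change (k ::ₘ ms).countP (fun k => ¬ Gk d J e I k) = N + 1 at hN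
      rw [Multiset.countP_cons_of_pos (p := fun k => ¬ Gk d J e I k) ms hkG] at hN
      omega
    have hkC : AdmC d J e k := (hin.adm k (Multiset.mem_cons_self _ _)).resolve_left
      fun h => hkG (Or.inl h)
    obtain ⟨dl, i, As, rfl, -⟩ := id hkC
    set σ₁ : St := ⟨c, w, ms⟩ with hσ₁
    have hkO := hkC.ok
    obtain ⟨he, hlen, htr, hiJ, hAs⟩ := id hkO
    have hmsA : ∀ k' ∈ ms, AdmO d J k' ∨ AdmC d J e k' := fun k' hk' =>
      hin.adm k' (Multiset.mem_cons_of_mem hk')
    have hsum : ((.cl e dl i As ::ₘ ms).map (om c0 n0 J)).sum =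
        om c0 n0 J (.cl e dl i As) + (ms.map (om c0 n0 J)).sum := by
      rw [Multiset.map_cons, Multiset.sum_cons]
    have homk : 0 ≤ om c0 n0 J (.cl e dl i As) := om_nonneg _
    have homms := homs ms
    have hom0 : om c0 n0 J (.cl e dl i As) + (ms.map (om c0 n0 J)).sum ≤ θ := by
      rw [← hsum]
      exact hin.om
    have hp' : ∀ I' ⊆ I, ∀ D' : ℕ, I'.card ≤ D' → D' + (I \ I').card ≤ D →
        (η / 2 + 4 * (om c0 n0 J (.cl e dl i As) + (ms.map (om c0 n0 J)).sum)) *
          nz c0 n0 I' D' ≤ ((σ₁.ad (.cl e dl i As)).V J I' D' : ℝ) := by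
      intro I' hI' D' h1 h2
      rw [← hsum]
      exact hp I' hI' D' h1 h2
    -- the state without the cluster
    have hin₁ : InC d J e c0 n0 ϖ θ I σ₁ :=
      ⟨hin.c, hin.c', hin.n, hin.w, hmsA, by
        show (ms.map (om c0 n0 J)).sum ≤ θ
        linarith⟩
    have hct₁ : ∀ j < J, (.cl e dl i As ::ₘ ms).count (.ord e ((range J).erase j)) ≤
        ms.count (.ord e ((range J).erase j)) := fun j _ =>
      le_of_eq (Multiset.count_cons_of_ne (by simp) _)
    -- the next state
    have hnext : ∀ S : Multiset Kd, (∀ k ∈ S, AdmO d J k) →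
        (∀ I' ⊆ I, ∀ D' : ℕ, I'.card ≤ D' → D' + (I \ I').card ≤ D →
          (η / 2 + 4 * (ms.map (om c0 n0 J)).sum) * nz c0 n0 I' D' ≤
            ((σ₁.wm (S + ms)).V J I' D' : ℝ)) → (σ₁.wm (S + ms)).dl d J I D ≤ 0 := by
      intro S hS hpS
      have hsum' : ((S + ms).map (om c0 n0 J)).sum = (ms.map (om c0 n0 J)).sum := by
        rw [Multiset.map_add, Multiset.sum_add, om_ords hS, zero_add]
      refine ih (σ₁.wm (S + ms)) ?_ ⟨hin.c, hin.c', hin.n, hin.w, ?_, ?_⟩ ?_ ?_ ?_
      · show (S + ms).countP (fun k => ¬ Gk d J e I k) = N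
        rw [Multiset.countP_add, hN', Multiset.countP_eq_zero.2 fun k hk h => h (Or.inl (hS k hk)),
          zero_add]
      · intro k' hk'
        rcases Multiset.mem_add.1 hk' with h | h
        · exact Or.inl (hS k' h)
        · exact hmsA k' h
      · show ((S + ms).map (om c0 n0 J)).sum ≤ θ
        rw [hsum']
        linarith
      · refine hh_ords (hh_sub (Multiset.le_cons_self _ _) hh) fun k hk => ?_
        obtain ⟨x, A, h, -⟩ := hS k hk
        exact ⟨x, A, h⟩
      · refine hip.of le_rfl (fun j _ m _ hmem => ?_) fun j hj => (hct₁ j hj).trans ?_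
        · rcases Multiset.mem_add.1 hmem with h | h
          · obtain ⟨x, A, h', -⟩ := hS _ h
            exact Kd.noConfusion h'
          · exact Multiset.mem_cons_of_mem h
        · show _ ≤ (S + ms).count _
          rw [Multiset.count_add]
          exact Nat.le_add_left _ _
      · intro I' hI' D' h1 h2
        show (η / 2 + 4 * ((S + ms).map (om c0 n0 J)).sum) * _ ≤ _
        rw [hsum']
        exact hpS I' hI' D' h1 h2
    by_cases hiI : i ∈ I
    swap
    · -- off the level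
      obtain ⟨h1, h2⟩ := St.cl_inact (σ := σ₁) hD hI hkC hiI
      have h3 := hnext (mbI e i As) (admO_mbI hkC) fun I' hI' D' h3 h4 => by
        rw [← (St.cl_inact (σ := σ₁) (D := D') (by omega) (hI'.trans hI) hkC
          fun h => hiI (hI' h)).2]
        refine le_trans ?_ (hp' I' hI' D' h3 h4)
        exact mul_le_mul_of_nonneg_right (by linarith) (nz_nn _ _ _ _)
      refine le_trans ?_ h3
      show ((σ₁.ad (.cl e dl i As)).H d J I D : ℤ) - (σ₁.ad (.cl e dl i As)).V J I D ≤ _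
      unfold St.dl
      rw [h2]
      have h5 : ((σ₁.ad (.cl e dl i As)).H d J I D : ℤ) ≤
          ((σ₁.wm (mbI e i As + σ₁.ms)).H d J I D : ℤ) := by exact_mod_cast h1
      show _ ≤ ((σ₁.wm (mbI e i As + σ₁.ms)).H d J I D : ℤ) -
        (σ₁.wm (mbI e i As + σ₁.ms)).V J I D
      omega
    have hnP : ¬ Pl J (.cl e dl i As) := by
      rintro ⟨h1, h2, h3⟩
      refine hkG (Or.inr ⟨i, hiI, As.length, h2, ?_⟩)
      rw [h1, ← List.eq_replicate_of_mem h3]
    obtain ⟨A, hA, homA⟩ := om_ex hR1 hkC hnP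
    obtain ⟨L₁, L₂, rfl⟩ := List.append_of_mem hA
    have hTA : ((range J).erase i \ A).card ≤ e - 1 := by
      obtain ⟨dl', i', As', h, -, -, -, -, hA'⟩ := hkC
      injection h with _ _ h3 h4
      subst h3
      subst h4
      exact (hA' A hA).2
    have hIA : (I \ insert i A).card + 1 ≤ e := by
      have h1 : I \ insert i A ⊆ (range J).erase i \ A := by
        intro x hx
        rw [mem_sdiff, mem_insert, not_or] at hx
        rw [mem_sdiff, mem_erase]
        exact ⟨⟨hx.2.1, hI hx.1⟩, hx.2.2⟩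
      have h2 := card_le_card h1
      omega
    have hIA' : I \ (I ∩ insert i A) = I \ insert i A := by
      rw [sdiff_inter_self_left]
    -- the family
    have hPosL : PosL J c0 n0 (η / 2) (σ₁.ad (.cl e dl i (L₁ ++ A :: L₂))) I D := by
      intro I' hI' D' h1 _ h3
      refine le_trans ?_ (hp' I' hI' D' h1 h3)
      exact mul_le_mul_of_nonneg_right (by linarith) (nz_nn _ _ _ _)
    have hfam : ∀ R : Multiset Kd, Fam (.cl e dl i (L₁ ++ A :: L₂) ::ₘ ms) R →
        Bq J c0 n0 (η / 2 - 3 * θ) (σ₁.wm R) I D := by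
      intro R hF I' hI' D' h1 h2
      obtain ⟨h3, h4⟩ := cmp (σ := σ₁.ad (.cl e dl i (L₁ ++ A :: L₂))) hR1 hI hD hin.c hin.n
        hin.adm hin.om (by linarith : (0 : ℝ) ≤ η / 2) (by linarith) hθ1 hPosL hF I' hI' D' h1 h2
      have h5 := hp' I' hI' D' h1 h2
      have h6 := nz_nn c0 n0 I' D'
      constructor
      · refine le_trans ?_ h3
        nlinarith
      · refine h4.trans ?_
        nlinarith
    have hF1 : Fam (.cl e dl i (L₁ ++ A :: L₂) ::ₘ ms) ms :=
      ⟨ms, 0, 0, by rw [add_zero]; exact Multiset.le_cons_self _ _, Multiset.zero_le _, by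
        rw [add_zero]⟩
    have hF2 : Fam (.cl e dl i (L₁ ++ A :: L₂) ::ₘ ms) (mb e (L₂ ++ L₁) + ms) := by
      refine ⟨ms, {.cl e dl i (L₁ ++ A :: L₂)}, mb e (L₂ ++ L₁), ?_, ?_, add_comm _ _⟩
      · rw [add_comm, Multiset.singleton_add]
      · rw [Multiset.singleton_bind]
        show mb e (L₂ ++ L₁) ≤ mb e (L₁ ++ A :: L₂)
        rw [mb_split]
        exact Multiset.le_cons_self _ _
    have hB1 := hfam _ hF1
    have hB2 := hfam _ hF2
    have hbd : ∀ R : Multiset Kd, Bq J c0 n0 (η / 2 - 3 * θ) (σ₁.wm R) I D →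
        Bd J c0 n0 I D (σ₁.wm R) := fun R h I' hI' D' h1 h2 => by
      obtain ⟨h3, h4⟩ := h I' hI' D' h1 h2
      refine ⟨le_trans ?_ h3, h4⟩
      exact mul_nonneg (by linarith) (nz_nn _ _ _ _)
    -- sizes
    have hci : 1 ≤ σ₁.c i := by
      have h1 := hin.c' i hiI
      have h2 := mul_le_mul_of_nonneg_left (hR.c i hiJ) hϖ.le
      have h3 : (1 : ℝ) ≤ (c i : ℝ) := by
        have h4 : ϖ * c0 i ≤ (c i : ℝ) := h1
        linarith
      exact_mod_cast h3
    have hw1 : 1 ≤ σ₁.w := by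
      have h1 := hin.w
      have h2 := mul_le_mul_of_nonneg_left (hR.le_n0 hm00.le) hϖ.le
      have h3 : (1 : ℝ) ≤ (w : ℝ) := by
        have h4 : ϖ * n0 ≤ (w : ℝ) := h1
        linarith
      exact_mod_cast h3
    have hm0' : 2 / m0 ≤ η / 16 := by
      rw [div_le_iff₀ hm00]
      have : (0 : ℝ) ≤ d := Nat.cast_nonneg _
      nlinarith
    have hm0'' : (2 * d + 6) / m0 ≤ η / 16 := by
      rw [div_le_iff₀ hm00]
      linarith
    -- the lower states
    have hBlo : Bq J c0 n0 (η / 2 - 3 * θ - 2 / m0) (σ₁.lo i 1) I D :=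
      Bq.lo hm0 hR hI hD hmsA hiJ hci (by linarith) hB1
    have hBlolw : Bq J c0 n0 (η / 2 - 3 * θ - 2 / m0 - 2 / m0) ((σ₁.lo i 1).lw 1) I D :=
      Bq.lw (σ := σ₁.lo i 1) hm0 hR hI hD hmsA hw1 (by linarith) hBlo
    have hBlw : Bq J c0 n0 (η / 2 - 3 * θ - 2 / m0) (σ₁.lw 1) I D :=
      Bq.lw hm0 hR hI hD hmsA hw1 (by linarith) hB1
    have hIlo : InC d J e c0 n0 (ϖ / 4) θ I ((σ₁.lo i 1).lw 1) := by
      have h1 := (hin₁.lo hϖ (by linarith) hR hiI hI).lw (m0 := m0) (by linarith) hm00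
        (by linarith) hR
      have h2 : ϖ / 2 / 2 = ϖ / 4 := by ring
      rw [h2] at h1
      exact h1
    have hIlw : InC d J e c0 n0 (ϖ / 4) θ I (σ₁.lw 1) :=
      (hin₁.lw hϖ hm00 (by linarith) hR).mono subset_rfl (by linarith) le_rfl
    have hmθ : 0 < 1 / m0 := by positivity
    by_cases hlen2 : 1 ≤ (L₂ ++ L₁).length
    · -- at least two members
      have hk2 : AdmC d J e (.cl e dl i (L₂ ++ L₁)) := by
        obtain ⟨dl', i', As', h, h1, h2, h3, h4, h5⟩ := id hkC
        injection h with _ hdl hi' hAs'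
        subst hdl
        subst hi'
        subst hAs'
        refine ⟨dl, i, L₂ ++ L₁, rfl, h1, hlen2, ?_, h4, fun A' hA' => h5 A' ?_⟩
        · unfold trx at h3 ⊢
          have h6 : (L₂ ++ L₁).length * (e - 1) ≤ (L₁ ++ A :: L₂).length * (e - 1) := by
            refine Nat.mul_le_mul_right _ ?_
            simp only [List.length_append, List.length_cons]
            omega
          omega
        · rw [List.mem_append] at hA'
          rw [List.mem_append, List.mem_cons]
          tauto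
      have hlow : ∀ s, s + e ≤ D + 1 →
          (((σ₁.lo i 1).lw 1).ad (.cl e dl i (L₂ ++ L₁))).dl d J (I ∩ insert i A) s ≤ 0 := by
        intro s hs
        refine hC s (by omega) _ _ (inter_subset_left.trans hI)
          ((hIlo.mono inter_subset_left le_rfl le_rfl).ad hk2
            ((add_le_add_right (om_small hm0 hR hk2) θ).trans hθm))
          (hh_drop' hlen2 hs hIA hh) ?_ ?_
        · refine hip.of (Nat.mul_le_mul_right _ (by omega)) (fun j hj m hm2 hmem => ?_) fun j hj => ?_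
          · rcases Multiset.mem_cons.1 hmem with h | h
            · exfalso
              injection h with _ hdl0 hij hrep
              subst hij
              have hall : ∀ A' ∈ L₂ ++ L₁, A' = (range J).erase j := by
                rw [← hrep]
                intro A' hA'
                exact (List.mem_replicate.1 hA').2
              have hAne : A ≠ (range J).erase j := by
                intro hAe
                refine hnP ⟨hdl0.symm, ?_, ?_⟩
                · simp only [List.length_append, List.length_cons] at hlen2 ⊢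
                  omega
                · intro A' hA'
                  rw [List.mem_append, List.mem_cons] at hA'
                  rcases hA' with h | h | h
                  · exact hall A' (List.mem_append_right _ h)
                  · rw [h]
                    exact hAe
                  · exact hall A' (List.mem_append_left _ h)
              obtain ⟨A', hA'⟩ : ∃ A', A' ∈ L₂ ++ L₁ := List.exists_mem_of_length_pos hlen2
              have h1 := om_le (c0 := c0) (n0 := n0) hnP A' (by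
                rw [List.mem_append] at hA'
                rw [List.mem_append, List.mem_cons]
                tauto)
              rw [hall A' hA', sdiff_self, homA] at h1
              refine absurd (rl_lt hR1 (T := (range J).erase j \ A)
                (sdiff_subset.trans (erase_subset _ _)) ?_ hTA) (not_lt.2 h1)
              rw [nonempty_iff_ne_empty]
              intro h2
              exact hAne (Subset.antisymm (hAs A hA) (sdiff_eq_empty_iff_subset.1 h2))
            · exact Multiset.mem_cons_of_mem h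
          · refine (hct₁ j hj).trans ?_
            exact Multiset.count_le_count_cons _ _ _
        · refine pos_pairs (D := D) inter_subset_left (by rw [hIA']; omega) fun I' hI' D' h1 h2 => ?_
          have h3 := near_cl (σ := (σ₁.lo i 1).lw 1) hm0 hR hI hD hmsA (by
            have h4 : 2 * (d : ℝ) / m0 ≤ (2 * d + 6) / m0 :=
              div_le_div_of_nonneg_right (by linarith) hm00.le
            linarith) hBlolw.bp hk2 I' hI' D' h1 h2
          obtain ⟨h4, -⟩ := hBlolw I' hI' D' h1 h2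
          refine le_trans ?_ h3
          have h5 := nz_nn c0 n0 I' D'
          have h6 : 2 / m0 + 2 / m0 + (2 * d + 2) / m0 = (2 * d + 6) / m0 := by
            rw [← add_div, ← add_div]
            congr 1
            ring
          have h7 : η / 4 ≤ (η / 2 - 3 * θ - 2 / m0 - 2 / m0) - (2 * d + 2) / m0 := by
            linarith
          nlinarith
      have h1 := St.cl1 (σ := σ₁) hD hI (fun k' hk' => (hmsA k' hk').elim AdmO.ok AdmC.ok) hkC hiI
        hlen2 hci hw1 hlow
      refine h1.trans ?_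
      have h2 : σ₁.wm (.ord (e - 1) (insert i A) ::ₘ (mb e (L₂ ++ L₁) + σ₁.ms)) =
          σ₁.wm ((.ord (e - 1) (insert i A) ::ₘ mb e (L₂ ++ L₁)) + ms) := by
        rw [Multiset.cons_add]
      rw [h2]
      refine hnext _ ?_ fun I' hI' D' h3 h4 => ?_
      · intro k' hk'
        rcases Multiset.mem_cons.1 hk' with rfl | h
        · exact (admO_mb hkC hA).2.2
        · refine admO_mbs hkC (fun A' hA' => ?_) k' h
          rw [List.mem_append] at hA'
          rw [List.mem_append, List.mem_cons]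
          tauto
      · have h5 := tie_pos (σ := σ₁) hR1 hI hmsA hkC (hbd _ hB2) (hbd _ hB1) homA I' hI' D' h3 h4
        have h6 := hp' I' hI' D' h3 h4
        rw [Multiset.cons_add]
        refine le_trans ?_ h5
        refine le_trans ?_ (sub_le_sub_right h6 _)
        rw [← sub_mul]
        exact mul_le_mul_of_nonneg_right (by linarith) (nz_nn _ _ _ _)
    · -- one member
      have hL2 : L₂ = [] := by
        rw [List.length_append] at hlen2
        exact List.length_eq_zero_iff.1 (by omega)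
      have hL1 : L₁ = [] := by
        rw [List.length_append] at hlen2
        exact List.length_eq_zero_iff.1 (by omega)
      subst hL1
      subst hL2
      rcases Nat.eq_zero_or_pos dl with hdl | hdl
      · subst hdl
        obtain ⟨h1, h2⟩ := St.cl_one (σ := σ₁) hD hI hkC
        have h3 := hnext {.ord e (insert i A)} (fun k' hk' => by
          rw [Multiset.mem_singleton.1 hk']
          exact (admO_mb hkC hA).2.1) fun I' hI' D' h3 h4 => by
          rw [Multiset.singleton_add]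
          show _ ≤ ((σ₁.ad (.ord e (insert i A))).V J I' D' : ℝ)
          rw [← (St.cl_one (σ := σ₁) (D := D') (by omega) (hI'.trans hI) hkC).2]
          refine le_trans ?_ (hp' I' hI' D' h3 h4)
          exact mul_le_mul_of_nonneg_right (by linarith) (nz_nn _ _ _ _)
        refine le_trans ?_ h3
        rw [Multiset.singleton_add]
        show ((σ₁.ad (.cl e 0 i [A])).H d J I D : ℤ) - (σ₁.ad (.cl e 0 i [A])).V J I D ≤
          ((σ₁.ad (.ord e (insert i A))).H d J I D : ℤ) - (σ₁.ad (.ord e (insert i A))).V J I D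
        rw [h2]
        have h5 : ((σ₁.ad (.cl e 0 i [A])).H d J I D : ℤ) ≤
          ((σ₁.ad (.ord e (insert i A))).H d J I D : ℤ) := by exact_mod_cast h1
        omega
      · by_cases heD : e ≤ D + 1
        · have hHH : ∀ s, s + e ≤ D + 1 → HH s (I ∩ insert i A) ms := fun s hs =>
            hh_mono inter_subset_left (by rw [hIA']; omega)
              (hh_sub (Multiset.le_cons_self _ _) hh)
          have hIPs : ∀ s, s + e ≤ D + 1 → IP J e c0 ((s + 1) * d) ms := fun s hs =>
            hip.of (Nat.mul_le_mul_right _ (by omega)) (fun j _ m _ hmem =>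
              Multiset.mem_cons_of_mem hmem) hct₁
          have h1 := St.cl1a (σ := σ₁) hD hI (fun k' hk' => (hmsA k' hk').elim AdmO.ok AdmC.ok)
            hkC hiI hci hw1 hdl heD hh (fun s hs => by
              refine hC s (by omega) _ _ (inter_subset_left.trans hI)
                (hIlo.mono inter_subset_left le_rfl (by linarith)) (hHH s hs) (hIPs s hs) ?_
              refine pos_pairs (D := D) inter_subset_left (by rw [hIA']; omega) fun I' hI' D' h1 h2 => ?_
              refine le_trans ?_ (hBlolw I' hI' D' h1 h2).1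
              exact mul_le_mul_of_nonneg_right (by linarith) (nz_nn _ _ _ _)) (fun s hs => by
              refine hC s (by omega) _ _ (inter_subset_left.trans hI)
                (hIlw.mono inter_subset_left le_rfl (by linarith)) (hHH s hs) (hIPs s hs) ?_
              refine pos_pairs (D := D) inter_subset_left (by rw [hIA']; omega) fun I' hI' D' h1 h2 => ?_
              refine le_trans ?_ (hBlw I' hI' D' h1 h2).1
              exact mul_le_mul_of_nonneg_right (by linarith) (nz_nn _ _ _ _))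
          refine h1.trans ?_
          have h2 := hnext {.ord (e - 1) (insert i A)} (fun k' hk' => by
            rw [Multiset.mem_singleton.1 hk']
            exact (admO_mb hkC hA).2.2) fun I' hI' D' h3 h4 => by
            have h5 := tie_pos (σ := σ₁) hR1 hI hmsA hkC (hbd _ hB2) (hbd _ hB1) homA I' hI' D' h3 h4
            have h6 := hp' I' hI' D' h3 h4
            have h7 : (.ord (e - 1) (insert i A) ::ₘ (mb e ([] ++ []) + ms) : Multiset Kd) =
                {.ord (e - 1) (insert i A)} + ms := by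
              rw [Multiset.singleton_add]
              congr 1
              exact zero_add ms
            rw [h7] at h5
            refine le_trans ?_ h5
            refine le_trans ?_ (sub_le_sub_right h6 _)
            rw [← sub_mul]
            exact mul_le_mul_of_nonneg_right (by linarith) (nz_nn _ _ _ _)
          rw [Multiset.singleton_add] at h2
          exact h2
        · -- no effect
          have hV : ∀ I' : Finset ℕ, ∀ D' ≤ D, (σ₁.ad (.cl e dl i ([] ++ A :: []))).V J I' D' =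
              (σ₁.wm (0 + ms)).V J I' D' := by
            intro I' D' hD'
            have h1 := V_tie (σ := σ₁) (J := J) (e := e) (I' := I') (D' := D') (dl := dl)
              (i := i) (L₁ := []) (L₂ := []) (A := A) (ms := ms) (fun A' hA' h =>
                notMem_erase i (range J) (hAs A' hA' h))
            rw [if_neg (by omega), if_neg (by
              rintro ⟨-, h2⟩
              unfold trx at h2
              simp only [List.nil_append, List.length_singleton, one_mul] at h2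
              omega), sub_zero, add_zero] at h1
            exact h1
          have h3 := hnext 0 (fun k' hk' => absurd hk' (Multiset.notMem_zero _))
            fun I' hI' D' h3 h4 => by
            rw [← hV I' D' (by omega)]
            refine le_trans ?_ (hp' I' hI' D' h3 h4)
            exact mul_le_mul_of_nonneg_right (by linarith) (nz_nn _ _ _ _)
          refine le_trans ?_ h3
          show ((σ₁.ad (.cl e dl i ([] ++ A :: []))).H d J I D : ℤ) -
            (σ₁.ad (.cl e dl i ([] ++ A :: []))).V J I D ≤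
            ((σ₁.wm (0 + ms)).H d J I D : ℤ) - (σ₁.wm (0 + ms)).V J I D
          rw [hV I D le_rfl]
          have h5 : (σ₁.ad (.cl e dl i ([] ++ A :: []))).H d J I D ≤
              (σ₁.wm (0 + ms)).H d J I D := by
            rw [zero_add]
            exact HI_cons_le D _ I _ _
          have h6 : ((σ₁.ad (.cl e dl i ([] ++ A :: []))).H d J I D : ℤ) ≤
              ((σ₁.wm (0 + ms)).H d J I D : ℤ) := by exact_mod_cast h5
          omega

theorem ex_lower (f : ℕ → ℝ) (hf : ∀ s, 0 < f s) (D : ℕ) : ∃ t : ℝ, 0 < t ∧ ∀ s < D, t ≤ f s := by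
  induction D with
  | zero => exact ⟨1, one_pos, fun s hs => absurd hs (Nat.not_lt_zero s)⟩
  | succ D ih =>
    obtain ⟨t, ht, h⟩ := ih
    refine ⟨min t (f D), lt_min ht (hf D), fun s hs => ?_⟩
    rcases Nat.lt_succ_iff_lt_or_eq.1 hs with h1 | h1
    · exact (min_le_left _ _).trans (h s h1)
    · rw [h1]
      exact min_le_right _ _

theorem Hr.mono {F F' : (ℕ → ℕ) → ℕ} {i : ℕ} (h : Hr i J F c0) (hF : ∀ c, F' c ≤ F c) :
    Hr i J F' c0 := fun l h1 h2 => (hF _).trans (h l h1 h2)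

/-- Phase 1. -/
theorem xc_of (hD : D ≤ d) (hXC : ∀ s < D, XC d J e s) (hXP : XP d J e D) : XC d J e D := by
  intro η ϖ hη hϖ
  obtain ⟨θP, hθP, FP, hFP⟩ := hXP (η / 2) ϖ (by linarith) hϖ
  have hex : ∀ s : ℕ, ∃ θ : ℝ, 0 < θ ∧ ∃ F : (ℕ → ℕ) → ℕ, s < D →
      ∀ c0 : ℕ → ℕ, Hr 0 J F c0 → ∃ n1 : ℕ, ∀ n0, n1 ≤ n0 → ∀ (σ : St) (I : Finset ℕ),
        I ⊆ range J → InC d J e c0 n0 (ϖ / 4) θ I σ → HH s I σ.ms →
        IP J e c0 ((s + 1) * d) σ.ms → Pos J c0 n0 (η / 4) σ I s → σ.dl d J I s ≤ 0 := by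
    intro s
    by_cases hs : s < D
    · obtain ⟨θ, hθ, F, hF⟩ := hXC s hs (η / 4) (ϖ / 4) (by linarith) (by linarith)
      exact ⟨θ, hθ, F, fun _ => hF⟩
    · exact ⟨1, one_pos, fun _ => 0, fun h => absurd h hs⟩
  choose θs hθs Fs hFs using hex
  obtain ⟨θm, hθm, hθms⟩ := ex_lower θs hθs D
  set m0 : ℝ := max (max 1 (16 * (2 * d + 6) / η)) (max (4 / ϖ) (2 / θm)) with hm0d
  have hm0 : 1 ≤ m0 := (le_max_left _ _).trans (le_max_left _ _)
  have hm1 : 16 * (2 * d + 6) / η ≤ m0 := (le_max_right _ _).trans (le_max_left _ _)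
  have hm2 : 4 / ϖ ≤ m0 := (le_max_left _ _).trans (le_max_right _ _)
  have hm3 : 2 / θm ≤ m0 := (le_max_right _ _).trans (le_max_right _ _)
  have hm00 : 0 < m0 := by linarith
  set θ : ℝ := min (min (η / 32) (1 / 3)) (min (θm / 2) θP) with hθd
  have ht1 : θ ≤ η / 32 := (min_le_left _ _).trans (min_le_left _ _)
  have ht2 : θ ≤ 1 / 3 := (min_le_left _ _).trans (min_le_right _ _)
  have ht3 : θ ≤ θm / 2 := (min_le_right _ _).trans (min_le_left _ _)
  have ht4 : θ ≤ θP := (min_le_right _ _).trans (min_le_right _ _)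
  have ht0 : 0 < θ := lt_min (lt_min (by linarith) (by norm_num)) (lt_min (by linarith) hθP)
  refine ⟨θ, ht0, fun c => ∑ s ∈ range D, Fs s c + FP c + ⌈m0⌉₊, fun c0 hH => ?_⟩
  obtain ⟨n1P, hn1P⟩ := hFP c0 (hH.mono fun c => by omega)
  have hHs : ∀ s < D, Hr 0 J (Fs s) c0 := fun s hs => hH.mono fun c => by
    have h1 : Fs s c ≤ ∑ s ∈ range D, Fs s c :=
      single_le_sum (f := fun s => Fs s c) (fun _ _ => Nat.zero_le _) (mem_range.2 hs)
    omega
  have hex2 : ∀ s : ℕ, ∃ n1 : ℕ, s < D → ∀ n0, n1 ≤ n0 → ∀ (σ : St) (I : Finset ℕ),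
      I ⊆ range J → InC d J e c0 n0 (ϖ / 4) (θs s) I σ → HH s I σ.ms →
      IP J e c0 ((s + 1) * d) σ.ms → Pos J c0 n0 (η / 4) σ I s → σ.dl d J I s ≤ 0 := by
    intro s
    by_cases hs : s < D
    · obtain ⟨n1, h⟩ := hFs s hs c0 (hHs s hs)
      exact ⟨n1, fun _ => h⟩
    · exact ⟨0, fun h => absurd h hs⟩
  choose ns hns using hex2
  refine ⟨∑ s ∈ range D, ns s + n1P + ⌈m0 * (1 + ∑ l ∈ range J, (c0 l : ℝ))⌉₊, fun n0 hn0 σ I hI
    hin hh hip hp => ?_⟩
  have hRf : Rf J c0 n0 m0 := by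
    refine ⟨fun l hl => ?_, ?_⟩
    · have h1 := hH l (Nat.zero_le l) hl
      have h2 : ⌈m0⌉₊ ≤ c0 l := by
        beta_reduce at h1
        omega
      exact (Nat.le_ceil m0).trans (by exact_mod_cast h2)
    · refine (Nat.le_ceil _).trans ?_
      have h2 : ⌈m0 * (1 + ∑ l ∈ range J, (c0 l : ℝ))⌉₊ ≤ n0 := by omega
      exact_mod_cast h2
  classical
  refine ph1_core (c0 := c0) (n0 := n0) (θm := θm) (m0 := m0) hη hϖ ht0 (by linarith) (by linarith)
    ?_ hm0 ?_ ?_ hD hRf hI ?_ ?_ _ σ rfl hin hh hip ?_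
  · have h1 : 1 / m0 ≤ θm / 2 := by
      rw [div_le_iff₀ hm00]
      rw [div_le_iff₀ hθm] at hm3
      linarith
    linarith
  · rw [div_le_iff₀ hη] at hm1
    linarith
  · rw [div_le_iff₀ hϖ] at hm2
    linarith
  · intro σ' h1 h2 h3 h4
    exact hn1P n0 (by omega) σ' I hI (h1.mono subset_rfl le_rfl ht4) h2 h3 h4
  · intro s hs σ' I₁ hI₁ h1 h2 h3 h4
    have h5 : ns s ≤ ∑ s ∈ range D, ns s :=
      single_le_sum (f := fun s => ns s) (fun _ _ => Nat.zero_le _) (mem_range.2 hs)
    exact hns s hs n0 (by omega) σ' I₁ hI₁ (h1.mono subset_rfl le_rfl (hθms s hs)) h2 h3 h4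
  · intro I' hI' D' h1 h2
    refine le_trans ?_ (hp I' hI' D' h1 h2)
    have h3 := hin.om
    exact mul_le_mul_of_nonneg_right (by linarith) (nz_nn _ _ _ _)

end

end Pool.Agent.GD.AL
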