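import Pool.Agent.GD.AL.Fam
import Pool.Agent.GD.AL.Near

/-!
# General d, ALPHA, part C, phase 2: the lower terms of `CL2`
-/

set_option autoImplicit false

namespace Pool.Agent.GD.AL

open Finset

/-- The kinds of phase 2. -/
def KdX (d J e : ℕ) (I : Finset ℕ) (k : Kd) : Prop :=
  AdmO d J k ∨ ∃ i ∈ I, ∃ m, 2 ≤ m ∧ k = .cl e 0 i (List.replicate m ((range J).erase i))

theorem kx_cl {d J e : ℕ} {I : Finset ℕ} {e' dl' i' : ℕ} {As' : List (Finset ℕ)}
    (h : KdX d J e I (.cl e' dl' i' As')) :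
    e' = e ∧ dl' = 0 ∧ i' ∈ I ∧ ∃ m, 2 ≤ m ∧ As' = List.replicate m ((range J).erase i') := by
  rcases h with ⟨x, A, h, -⟩ | ⟨i, hi, m, hm, h⟩
  · exact absurd h (by simp)
  · rw [Kd.cl.injEq] at h
    obtain ⟨h1, h2, h3, h4⟩ := h
    subst h1 h2 h3 h4
    exact ⟨rfl, rfl, hi, m, hm, rfl⟩

theorem hh_kx {d J e s : ℕ} {I I' : Finset ℕ} {ms : Multiset Kd} (h : ∀ k ∈ ms, KdX d J e I k) :
    HH s I' ms := by
  intro k k' hk
  cases k with
  | ord x A => exact PO_ord _ _ _ _ _
  | cl e₁ dl₁ i₁ As₁ =>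
    cases k' with
    | ord x A => exact PO_ord' _ _ _ _ _
    | cl e₂ dl₂ i₂ As₂ =>
      have h1 := (kx_cl (h _ (Multiset.mem_of_le hk (Multiset.mem_cons_self _ _)))).2.1
      intro _ _ h2
      omega

theorem erase_inj_l {J i i' : ℕ} (hi : i < J) (h : (range J).erase i = (range J).erase i') : i = i' := by
  by_contra hne
  have h1 : i ∈ (range J).erase i' := mem_erase.2 ⟨hne, mem_range.2 hi⟩
  rw [← h] at h1
  exact notMem_erase _ _ h1

theorem inter_rep_l {m : ℕ} (hm : 1 ≤ m) (B : Finset ℕ) : inter (List.replicate m B) = B := by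
  obtain ⟨m, rfl⟩ : ∃ m', m = m' + 1 := ⟨m - 1, by omega⟩
  unfold inter
  rw [List.replicate_succ, List.headD_cons, filter_true_of_mem]
  intro x hx A hA
  rw [← List.replicate_succ] at hA
  rw [List.eq_of_mem_replicate hA]
  exact hx

/-- The traces of the kinds of phase 2. -/
theorem tri_kx {d J e i : ℕ} {I : Finset ℕ} (he : 2 ≤ e) (hi : i < J) {k : Kd}
    (hk : KdX d J e I k) (hk' : AdmO d J k ∨ AdmC d J e k) :
    ((∃ x A, k = .ord x A) ∧ (tri i k = {k} ∨ tri i k = 0)) ∨
      (∃ m, 2 ≤ m ∧ k = .cl e 0 i (List.replicate m ((range J).erase i)) ∧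
        tri i k = {.ord (trx e 0 m) ((range J).erase i)} ∧
          AdmO d J (.ord (trx e 0 m) ((range J).erase i))) ∨
      (∃ i' ∈ I.erase i, ∃ m, 2 ≤ m ∧ k = .cl e 0 i' (List.replicate m ((range J).erase i')) ∧
        tri i k = {k}) := by
  cases k with
  | ord x A =>
    refine Or.inl ⟨⟨x, A, rfl⟩, ?_⟩
    show (if i ∈ A then ({.ord x A} : Multiset Kd) else 0) = _ ∨
      (if i ∈ A then ({.ord x A} : Multiset Kd) else 0) = 0
    split_ifs
    · exact Or.inl rfl
    · exact Or.inr rfl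
  | cl e₁ dl₁ i₁ As₁ =>
    obtain ⟨rfl, rfl, h3, m, hm, rfl⟩ := kx_cl hk
    by_cases h : i₁ = i
    · subst h
      refine Or.inr (Or.inl ⟨m, hm, rfl, ?_, ?_⟩)
      · show (if i₁ = i₁ then ({.ord (trx e₁ 0 (List.replicate m ((range J).erase i₁)).length)
            (inter (List.replicate m ((range J).erase i₁)))} : Multiset Kd) else _) = _
        rw [if_pos rfl, List.length_replicate, inter_rep_l (by omega)]
      · have h4 : trx e₁ 0 m ≤ d := by
          rcases hk' with ⟨x, A, h5, -⟩ | ⟨dl, i, As, h5, -, -, h6, -⟩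
          · exact absurd h5 (by simp)
          · rw [Kd.cl.injEq] at h5
            obtain ⟨-, h7, -, h8⟩ := h5
            rw [← h7, ← h8, List.length_replicate] at h6
            exact h6
        refine ⟨_, _, rfl, ?_, h4, erase_subset _ _, ?_⟩
        · unfold trx
          omega
        · have h5 : (range J \ (range J).erase i₁).card ≤ 1 := by
            have h6 : range J \ (range J).erase i₁ ⊆ {i₁} := by
              intro x hx
              rw [mem_sdiff, mem_erase, not_and_or, not_not] at hx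
              rw [mem_singleton]
              rcases hx.2 with h | h
              · exact h
              · exact absurd hx.1 h
            exact (card_le_card h6).trans (by simp)
          refine h5.trans ?_
          unfold trx
          omega
    · refine Or.inr (Or.inr ⟨i₁, mem_erase.2 ⟨h, h3⟩, m, hm, rfl, ?_⟩)
      show (if i₁ = i then _ else if ∀ A ∈ List.replicate m ((range J).erase i₁), i ∈ A then
        ({.cl e₁ 0 i₁ (List.replicate m ((range J).erase i₁))} : Multiset Kd) else _) = _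
      rw [if_neg h, if_pos]
      intro A hA
      rw [List.eq_of_mem_replicate hA]
      exact mem_erase.2 ⟨fun h' => h h'.symm, mem_range.2 hi⟩

theorem om_tri {d J e i : ℕ} {I : Finset ℕ} {c0 : ℕ → ℕ} {n0 : ℕ} (he : 2 ≤ e) (hi : i < J)
    {ms : Multiset Kd} (h : ∀ k ∈ ms, KdX d J e I k) (h' : ∀ k ∈ ms, AdmO d J k ∨ AdmC d J e k) :
    ((ms.bind (tri i)).map (om c0 n0 J)).sum ≤ (ms.map (om c0 n0 J)).sum := by
  induction ms using Multiset.induction_on with
  | empty => simp
  | cons k ms ih =>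
    rw [Multiset.cons_bind, Multiset.map_add, Multiset.sum_add, Multiset.map_cons,
      Multiset.sum_cons]
    refine add_le_add ?_ (ih (fun k hk => h k (Multiset.mem_cons_of_mem hk))
      fun k hk => h' k (Multiset.mem_cons_of_mem hk))
    rcases tri_kx he hi (h k (Multiset.mem_cons_self _ _)) (h' k (Multiset.mem_cons_self _ _)) with
      ⟨-, h1 | h1⟩ | ⟨m, -, -, h1, -⟩ | ⟨i', -, m, -, -, h1⟩
    · rw [h1, Multiset.map_singleton, Multiset.sum_singleton]
    · rw [h1, Multiset.map_zero, Multiset.sum_zero]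
      exact om_nonneg k
    · rw [h1, Multiset.map_singleton, Multiset.sum_singleton]
      exact om_nonneg k
    · rw [h1, Multiset.map_singleton, Multiset.sum_singleton]

theorem kx_bind {d J e i : ℕ} {I : Finset ℕ} (he : 2 ≤ e) (hi : i < J)
    {ms : Multiset Kd} (h : ∀ k ∈ ms, KdX d J e I k) (h' : ∀ k ∈ ms, AdmO d J k ∨ AdmC d J e k) :
    ∀ k ∈ ms.bind (tri i), KdX d J e (I.erase i) k ∧ (AdmO d J k ∨ AdmC d J e k) ∧
      ((∃ x A, k = .ord x A) ∨ k ∈ ms) := by
  intro k hk
  obtain ⟨k₀, hk₀, hk⟩ := Multiset.mem_bind.1 hk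
  rcases tri_kx he hi (h k₀ hk₀) (h' k₀ hk₀) with
    ⟨⟨x, A, rfl⟩, h1 | h1⟩ | ⟨m, -, -, h1, h2⟩ | ⟨i', hi', m, hm, h2, h1⟩
  · rw [h1, Multiset.mem_singleton] at hk
    subst hk
    have h3 : AdmO d J (.ord x A) := by
      rcases h _ hk₀ with h3 | ⟨_, _, _, _, h3⟩
      · exact h3
      · exact absurd h3 (by simp)
    exact ⟨Or.inl h3, Or.inl h3, Or.inl ⟨x, A, rfl⟩⟩
  · rw [h1] at hk
    exact absurd hk (Multiset.notMem_zero _)
  · rw [h1, Multiset.mem_singleton] at hk
    subst hk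
    exact ⟨Or.inl h2, Or.inl h2, Or.inl ⟨_, _, rfl⟩⟩
  · rw [h1, Multiset.mem_singleton] at hk
    subst hk
    exact ⟨Or.inr ⟨i', hi', m, hm, h2⟩, h' _ hk₀, Or.inr hk₀⟩

theorem count_bind_tri {i : ℕ} (ms : Multiset Kd) {x : ℕ} {A : Finset ℕ} (hA : i ∈ A) :
    ms.count (.ord x A) ≤ (ms.bind (tri i)).count (.ord x A) := by
  classical
  induction ms using Multiset.induction_on with
  | empty => simp
  | cons k ms ih =>
    rw [Multiset.cons_bind, Multiset.count_add]
    by_cases h : k = .ord x A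
    · subst h
      have h1 : tri i (.ord x A) = {.ord x A} := if_pos hA
      rw [h1, Multiset.count_cons_self, Multiset.count_singleton_self]
      omega
    · rw [Multiset.count_cons_of_ne (fun h' => h h'.symm)]
      omega


theorem nz_nn_l (c0 : ℕ → ℕ) (n0 : ℕ) (I : Finset ℕ) (D : ℕ) : 0 ≤ nz c0 n0 I D := by
  unfold nz
  positivity

/-- The bounds for a part of a state. -/
theorem bp_sub {d J D e : ℕ} {σ : St} {I : Finset ℕ} {c0 : ℕ → ℕ} {n0 : ℕ} {η ϖ θ : ℝ}
    (hR : Rf J c0 n0 1) (hI : I ⊆ range J) (hD : D ≤ d) {st : Multiset Kd}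
    (hin : InC d J e c0 n0 ϖ θ I (σ.wm st)) (hη : 0 ≤ η) (hθ : 3 * θ ≤ η) (hθ1 : 3 * θ ≤ 1)
    (hp : PosL J c0 n0 η (σ.wm st) I D) {R : Multiset Kd} (hRs : R ≤ st) :
    BP J c0 n0 (η - 3 * θ) (σ.wm R) I D := by
  intro I' hI' D' h1 h2 h3
  have hF : Fam (σ.wm st).ms R := ⟨R, 0, 0, by rw [add_zero]; exact hRs, by simp, by simp⟩
  have h4 := cmp hR hI hD hin.c hin.n hin.adm hin.om hη hθ hθ1 hp hF I' hI' D' h1 h3
  have h5 := hp I' hI' D' h1 h2 h3
  have h6 := nz_nn_l c0 n0 I' D'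
  have h7 : ((σ.wm st).wm R).V J I' D' = (σ.wm R).V J I' D' := rfl
  rw [h7] at h4
  constructor
  · nlinarith [h4.1]
  · nlinarith [h4.2]

theorem ph2_low {d J e D : ℕ} (hD : D ≤ d) (hXC : ∀ s < D, XC d J e s) {η ϖ : ℝ} (hη : 0 < η)
    (hη1 : η ≤ 1) (hϖ : 0 < ϖ) : ∃ θ : ℝ, 0 < θ ∧ ∃ F : (ℕ → ℕ) → ℕ, ∀ c0 : ℕ → ℕ,
    Hr 0 J F c0 → ∃ n1 : ℕ, ∀ n0, n1 ≤ n0 → ∀ (σ : St) (I : Finset ℕ), I ⊆ range J →
      ∀ (i k c : ℕ), i ∈ I → 2 ≤ k →
        AdmC d J e (.cl e 0 i (List.replicate k ((range J).erase i))) → 1 ≤ c →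
        (64 * d * c : ℝ) ≤ min η ϖ * c0 i → e ≤ D + 1 →
        InC d J e c0 n0 ϖ θ I (σ.wm (.cl e 0 i (List.replicate k ((range J).erase i)) ::ₘ
          (Multiset.replicate ((c - 1) * (k - 1)) (.ord e ((range J).erase i)) + σ.ms))) →
        (∀ k' ∈ .cl e 0 i (List.replicate k ((range J).erase i)) ::ₘ
          (Multiset.replicate ((c - 1) * (k - 1)) (.ord e ((range J).erase i)) + σ.ms),
          AdmO d J k' ∨ ∃ i ∈ I, ∃ m, 2 ≤ m ∧
            k' = .cl e 0 i (List.replicate m ((range J).erase i))) →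
        IP J e c0 ((D + 1) * d) (.cl e 0 i (List.replicate k ((range J).erase i)) ::ₘ
          (Multiset.replicate ((c - 1) * (k - 1)) (.ord e ((range J).erase i)) + σ.ms)) →
        PosL J c0 n0 η (σ.wm (.cl e 0 i (List.replicate k ((range J).erase i)) ::ₘ
          (Multiset.replicate ((c - 1) * (k - 1)) (.ord e ((range J).erase i)) + σ.ms))) I D →
        (c * (k - 1) < σ.c i ∧ 1 ≤ σ.w) ∧
        (∀ t, 1 ≤ t → t ≤ c → ∀ s, s + e ≤ D + 1 →
          ((((σ.wm (Multiset.replicate ((c - t) * (k - 1)) (.ord e ((range J).erase i)) +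
            σ.ms)).lo i (t * (k - 1))).lw 1)).dl d J I s ≤ 0) ∧
        (∀ s, s + e ≤ D → ((σ.li i).lw 1).dl d J (I.erase i) s ≤ 0) := by
  classical
  have hxc := fun s : Fin D => hXC s.1 s.2 (η / 4) (ϖ / 2) (by positivity) (by positivity)
  choose θs hθs Fs hFs using hxc
  obtain ⟨θ₀, hθ₀, hθle⟩ : ∃ θ₀ : ℝ, 0 < θ₀ ∧ ∀ s, θ₀ ≤ θs s := by
    rcases isEmpty_or_nonempty (Fin D) with h | h
    · exact ⟨1, one_pos, fun s => (h.false s).elim⟩
    · obtain ⟨s₀, hs₀⟩ := Finite.exists_min θs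
      exact ⟨θs s₀, hθs s₀, hs₀⟩
  refine ⟨min (η / 32) θ₀, lt_min (by positivity) hθ₀, fun g => 1 + ∑ s, Fs s g,
    fun c0 hHr => ?_⟩
  have hFle : ∀ s, Hr 0 J (Fs s) c0 := fun s l h1 h2 => by
    have h3 := hHr l h1 h2
    have h4 : Fs s (rs (l + 1) J c0) ≤ ∑ s, Fs s (rs (l + 1) J c0) :=
      single_le_sum (f := fun s => Fs s (rs (l + 1) J c0)) (fun _ _ => Nat.zero_le _) (mem_univ s)
    have h5 : 1 + ∑ s, Fs s (rs (l + 1) J c0) ≤ c0 l := h3
    omega
  have hc01 : ∀ l < J, 1 ≤ c0 l := fun l hl => by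
    have h5 : 1 + ∑ s, Fs s (rs (l + 1) J c0) ≤ c0 l := hHr l (Nat.zero_le _) hl
    omega
  have hn1 := fun s => hFs s c0 (hFle s)
  choose ns hns using hn1
  obtain ⟨K, hK⟩ := exists_nat_ge (64 / η + 64 / ϖ + 64)
  have hKη : 64 ≤ K * η := by
    have h1 : 64 / η ≤ K := by
      have : 0 ≤ 64 / ϖ := by positivity
      linarith
    rwa [div_le_iff₀ hη] at h1
  have hKϖ : 64 ≤ K * ϖ := by
    have h1 : 64 / ϖ ≤ K := by
      have : 0 ≤ 64 / η := by positivity
      linarith
    rwa [div_le_iff₀ hϖ] at h1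
  have hK1 : (64 : ℝ) ≤ K := by
    have : 0 ≤ 64 / ϖ := by positivity
    have : 0 ≤ 64 / η := by positivity
    linarith
  refine ⟨∑ s, ns s + K * (1 + ∑ l ∈ range J, c0 l), fun n0 hn0 σ I hI i k c hi hk hadm hc
    hcb heD hin hkx hip hpos => ?_⟩
  have hnsle : ∀ s, ns s ≤ n0 := fun s => by
    have h4 : ns s ≤ ∑ s, ns s :=
      single_le_sum (f := ns) (fun _ _ => Nat.zero_le _) (mem_univ s)
    omega
  obtain ⟨B, hB⟩ : ∃ B, B = (range J).erase i := ⟨_, rfl⟩
  rw [← hB] at hadm hin hkx hip hpos ⊢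
  obtain ⟨st, hst⟩ : ∃ st : Multiset Kd, st = .cl e 0 i (List.replicate k B) ::ₘ
    (Multiset.replicate ((c - 1) * (k - 1)) (.ord e B) + σ.ms) := ⟨_, rfl⟩
  rw [← hst] at hin hkx hip hpos
  have hiJ : i < J := mem_range.1 (hI hi)
  have hiB : i ∉ B := by
    rw [hB]
    exact notMem_erase _ _
  -- sizes
  have hn0R : (K : ℝ) * (1 + ∑ l ∈ range J, (c0 l : ℝ)) ≤ n0 := by
    have h1 : K * (1 + ∑ l ∈ range J, c0 l) ≤ n0 := by omega
    calc (K : ℝ) * (1 + ∑ l ∈ range J, (c0 l : ℝ)) = ((K * (1 + ∑ l ∈ range J, c0 l) : ℕ) : ℝ) := by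
          push_cast
          ring
      _ ≤ n0 := by exact_mod_cast h1
  have hsum0 : (0 : ℝ) ≤ ∑ l ∈ range J, (c0 l : ℝ) := sum_nonneg fun _ _ => Nat.cast_nonneg _
  have hRf : Rf J c0 n0 1 :=
    { c := fun l hl => by exact_mod_cast hc01 l hl
      n := by nlinarith }
  have hn0K : (K : ℝ) ≤ n0 := by nlinarith
  have hn0pos : (0 : ℝ) < n0 := by linarith
  have hc0i : (1 : ℝ) ≤ c0 i := hRf.c i hiJ
  have hc0in : (K : ℝ) * c0 i ≤ n0 := by
    have h1 : (c0 i : ℝ) ≤ ∑ l ∈ range J, (c0 l : ℝ) :=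
      single_le_sum (f := fun l => (c0 l : ℝ)) (fun _ _ => Nat.cast_nonneg _) (mem_range.2 hiJ)
    nlinarith
  obtain ⟨he2, hkd, hed⟩ : 2 ≤ e ∧ k ≤ d ∧ e ≤ d := by
    obtain ⟨dl, i', As, h1, h2, h3, h4, h5, h6⟩ := hadm
    rw [Kd.cl.injEq] at h1
    obtain ⟨-, -, -, h7⟩ := h1
    rw [← h7, List.length_replicate] at h4
    have h8 : k * 1 ≤ k * (e - 1) := Nat.mul_le_mul_left _ (by omega)
    unfold trx at h4
    refine ⟨h2, by omega, ?_⟩
    have h9 : 1 * (e - 1) ≤ k * (e - 1) := Nat.mul_le_mul_right _ (by omega)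
    omega
  have hmin1 : min η ϖ ≤ η := min_le_left _ _
  have hmin2 : min η ϖ ≤ ϖ := min_le_right _ _
  have htb : ∀ t ≤ c, 64 * ((t * (k - 1) : ℕ) : ℝ) ≤ min η ϖ * c0 i := by
    intro t ht
    refine le_trans ?_ hcb
    have h1 : t * (k - 1) ≤ d * c := by
      calc t * (k - 1) ≤ c * d := Nat.mul_le_mul ht (by omega)
        _ = d * c := Nat.mul_comm _ _
    have h2 : ((t * (k - 1) : ℕ) : ℝ) ≤ ((d * c : ℕ) : ℝ) := by exact_mod_cast h1
    push_cast at h2 ⊢
    nlinarith
  have hci : ϖ * c0 i ≤ σ.c i := hin.c' i hi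
  have hϖc : 0 < ϖ * c0 i := by positivity
  have htc : ∀ t ≤ c, t * (k - 1) < σ.c i := by
    intro t ht
    have h1 := htb t ht
    have h2 : min η ϖ * c0 i ≤ ϖ * c0 i := mul_le_mul_of_nonneg_right hmin2 (by linarith)
    have h3 : ((t * (k - 1) : ℕ) : ℝ) < σ.c i := by linarith
    exact_mod_cast h3
  have hw : ϖ * n0 ≤ σ.w := hin.w
  have hϖn : 64 ≤ ϖ * n0 := by nlinarith
  have hw1 : 1 ≤ σ.w := by
    have h1 : (1 : ℝ) ≤ σ.w := by linarith
    exact_mod_cast h1
  have hθ3 : 3 * min (η / 32) θ₀ ≤ η := by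
    have : min (η / 32) θ₀ ≤ η / 32 := min_le_left _ _
    linarith
  have hθ4 : 3 * min (η / 32) θ₀ ≤ 3 * η / 32 := by
    have : min (η / 32) θ₀ ≤ η / 32 := min_le_left _ _
    linarith
  have hbp := fun (R : Multiset Kd) (hRs : R ≤ st) => bp_sub hRf hI hD hin hη.le hθ3
    (by linarith) hpos hRs
  -- the part `σ.ms`
  have hσst : σ.ms ≤ st := by
    rw [hst]
    exact (Multiset.le_add_left _ _).trans (Multiset.le_cons_self _ _)
  have hσadm : ∀ k' ∈ σ.ms, AdmO d J k' ∨ AdmC d J e k' := fun k' hk' =>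
    hin.adm k' (Multiset.mem_of_le hσst hk')
  have hσkx : ∀ k' ∈ σ.ms, KdX d J e I k' := fun k' hk' => hkx k' (Multiset.mem_of_le hσst hk')
  have hσom : (σ.ms.map (om c0 n0 J)).sum ≤ min (η / 32) θ₀ := by
    refine le_trans ?_ hin.om
    show (σ.ms.map (om c0 n0 J)).sum ≤ (st.map (om c0 n0 J)).sum
    rw [hst, Multiset.map_cons, Multiset.sum_cons, Multiset.map_add, Multiset.sum_add,
      Multiset.map_replicate, Multiset.sum_replicate]
    have h1 : om c0 n0 J (.ord e B) = 0 := rfl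
    have h2 := om_nonneg (c0 := c0) (n0 := n0) (J := J) (.cl e 0 i (List.replicate k B))
    rw [h1, smul_zero]
    linarith
  have hadmB : AdmO d J (.ord e B) := by
    refine ⟨e, B, rfl, by omega, hed, by rw [hB]; exact erase_subset _ _, ?_⟩
    have h6 : range J \ B ⊆ {i} := by
      intro x hx
      rw [hB, mem_sdiff, mem_erase, not_and_or, not_not] at hx
      rw [mem_singleton]
      rcases hx.2 with h | h
      · exact h
      · exact absurd hx.1 h
    exact ((card_le_card h6).trans (by simp)).trans (by omega : 1 ≤ e)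
  have hcount : ∀ i' < J, i' ≠ i →
      st.count (.ord e ((range J).erase i')) = σ.ms.count (.ord e ((range J).erase i')) := by
    intro i' hi' hne
    rw [hst, Multiset.count_cons_of_ne (by simp), Multiset.count_add, Multiset.count_replicate,
      if_neg, zero_add]
    intro h
    rw [Kd.ord.injEq, hB] at h
    exact hne (erase_inj_l hi' h.2.symm)
  have hcounti : st.count (.ord e B) = (c - 1) * (k - 1) + σ.ms.count (.ord e B) := by
    rw [hst, Multiset.count_cons_of_ne (by simp), Multiset.count_add,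
      Multiset.count_replicate_self]
  refine ⟨⟨htc c le_rfl, hw1⟩, fun t ht1 htc' s hs => ?_, fun s hs => ?_⟩
  · -- the smaller blocks
    have hsD : s < D := by omega
    obtain ⟨R, hR⟩ : ∃ R : Multiset Kd, R =
        Multiset.replicate ((c - t) * (k - 1)) (.ord e B) + σ.ms := ⟨_, rfl⟩
    rw [← hR]
    have hRst : R ≤ st := by
      rw [hst, hR]
      refine le_trans ?_ (Multiset.le_cons_self _ _)
      refine add_le_add ?_ le_rfl
      exact Multiset.replicate_mono _ (Nat.mul_le_mul_right _ (by omega))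
    have hRadm : ∀ k' ∈ R, AdmO d J k' ∨ AdmC d J e k' := fun k' hk' =>
      hin.adm k' (Multiset.mem_of_le hRst hk')
    have hb := hbp R hRst
    have h2t : 2 * ((t * (k - 1) : ℕ) : ℝ) / c0 i ≤ η / 32 := by
      rw [div_le_iff₀ (by linarith)]
      have h1 := htb t htc'
      have h2 : min η ϖ * c0 i ≤ η * c0 i := mul_le_mul_of_nonneg_right hmin1 (by linarith)
      linarith
    have h2n : 2 * ((1 : ℕ) : ℝ) / n0 ≤ η / 32 := by
      rw [div_le_iff₀ hn0pos]
      push_cast
      nlinarith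
    have hlo := near_lo (σ := σ.wm R) hRf hI hD hRadm hiJ (htc t htc').le (by linarith) hb
    have hb2 : BP J c0 n0 (η - 3 * min (η / 32) θ₀ - η / 32) ((σ.wm R).lo i (t * (k - 1))) I D := by
      intro I' hI' D' h1 h2 h3
      have h4 := hlo I' hI' D' h1 h3
      have h5 := hb I' hI' D' h1 h2 h3
      have h6 := nz_nn_l c0 n0 I' D'
      constructor
      · have h7 : 2 * ((t * (k - 1) : ℕ) : ℝ) / c0 i * nz c0 n0 I' D' ≤ η / 32 * nz c0 n0 I' D' :=
          mul_le_mul_of_nonneg_right h2t h6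
        nlinarith [h4.1, h5.1]
      · have h8 : (((σ.wm R).lo i (t * (k - 1))).V J I' D' : ℝ) ≤ (σ.wm R).V J I' D' := by
          exact_mod_cast h4.2
        linarith [h5.2]
    have hlw := near_lw (σ := (σ.wm R).lo i (t * (k - 1))) hRf hI hD hRadm (s := 1) hw1
      (by linarith) hb2
    refine hns ⟨s, hsD⟩ n0 (hnsle _) _ I hI
      { c := fun l => ?_
        c' := fun l hl => ?_
        n := ?_
        w := ?_
        adm := hRadm
        om := ?_ } (hh_kx fun k' hk' => hkx k' (Multiset.mem_of_le hRst hk')) ?_ ?_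
    · show Function.update σ.c i (σ.c i - t * (k - 1)) l ≤ c0 l
      by_cases h : l = i
      · rw [h, Function.update_self]
        exact (Nat.sub_le _ _).trans (hin.c i)
      · rw [Function.update_of_ne h]
        exact hin.c l
    · show ϖ / 2 * (c0 l : ℝ) ≤ ((Function.update σ.c i (σ.c i - t * (k - 1)) l : ℕ) : ℝ)
      by_cases h : l = i
      · rw [h, Function.update_self, Nat.cast_sub (htc t htc').le]
        have h1 := htb t htc'
        have h2 : min η ϖ * c0 i ≤ ϖ * c0 i := mul_le_mul_of_nonneg_right hmin2 (by linarith)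
        linarith
      · rw [Function.update_of_ne h]
        have h1 : ϖ * c0 l ≤ σ.c l := hin.c' l hl
        have h2 : (0 : ℝ) ≤ ϖ * c0 l := by positivity
        linarith
    · have h1 := St.n_lo (J := J) (σ.wm R) (a := i) (t := t * (k - 1)) hiJ (htc t htc').le
      have h2 := St.n_lw (J := J) ((σ.wm R).lo i (t * (k - 1))) (s := 1) hw1
      have h3 : (σ.wm R).n J ≤ n0 := hin.n
      omega
    · show ϖ / 2 * (n0 : ℝ) ≤ ((σ.w - 1 : ℕ) : ℝ)
      rw [Nat.cast_sub hw1]
      push_cast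
      linarith
    · refine le_trans ?_ (hθle ⟨s, hsD⟩)
      refine le_trans ?_ (min_le_right (η / 32) θ₀)
      refine le_trans ?_ hσom
      show (R.map (om c0 n0 J)).sum ≤ (σ.ms.map (om c0 n0 J)).sum
      rw [hR, Multiset.map_add, Multiset.sum_add, Multiset.map_replicate, Multiset.sum_replicate]
      have h1 : om c0 n0 J (.ord e B) = 0 := rfl
      rw [h1, smul_zero, zero_add]
    · intro i' hi' hex
      obtain ⟨m, hm, hmem⟩ := hex
      have h1 := hip i' hi' ⟨m, hm, Multiset.mem_of_le hRst hmem⟩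
      have h2 : (s + 1) * d * c0 i' ≤ (D + 1) * d * c0 i' :=
        Nat.mul_le_mul_right _ (Nat.mul_le_mul_right _ (by omega))
      show (s + 1) * d * c0 i' ≤ R.count _
      by_cases h : i' = i
      · subst h
        rw [← hB] at h1 ⊢
        rw [hcounti] at h1
        rw [hR, Multiset.count_add, Multiset.count_replicate_self]
        have h3 : c ≤ c0 i' := by
          have h4 : (c : ℝ) ≤ c0 i' := by
            have h5 : (1 : ℝ) ≤ d := by exact_mod_cast (by omega : 1 ≤ d)
            have h6 : (0 : ℝ) ≤ c := Nat.cast_nonneg _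
            have h7 : min η ϖ * c0 i' ≤ 1 * c0 i' :=
              mul_le_mul_of_nonneg_right (hmin1.trans hη1) (by linarith)
            nlinarith
          exact_mod_cast h4
        have h4 : (c - 1) * (k - 1) ≤ d * c0 i' := by
          calc (c - 1) * (k - 1) ≤ c0 i' * d := Nat.mul_le_mul (by omega) (by omega)
            _ = d * c0 i' := Nat.mul_comm _ _
        have h5 : (s + 1) * d * c0 i' + d * c0 i' ≤ (D + 1) * d * c0 i' := by
          have h6 : (s + 1) * d * c0 i' + d * c0 i' = (s + 2) * d * c0 i' := by ring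
          rw [h6]
          exact Nat.mul_le_mul_right _ (Nat.mul_le_mul_right _ (by omega))
        omega
      · have h3 := hcount i' hi' h
        have h4 : σ.ms ≤ R := by
          rw [hR]
          exact Multiset.le_add_left _ _
        have h5 := Multiset.count_le_of_le (.ord e ((range J).erase i')) h4
        omega
    · intro I' hI' D' h1 h2
      have h3 : D' < D := by omega
      have h4 : D' + (I \ I').card ≤ D := by omega
      have h5 := (hb2 I' hI' D' h1 h3 h4).1
      have h6 := (hlw I' hI' D' h1 h4).1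
      have h7 := nz_nn_l c0 n0 I' D'
      have h8 : 2 * ((1 : ℕ) : ℝ) / n0 * nz c0 n0 I' D' ≤ η / 32 * nz c0 n0 I' D' :=
        mul_le_mul_of_nonneg_right h2n h7
      nlinarith
  · -- the trace
    have hsD : s < D := by omega
    have hb := hbp σ.ms hσst
    have h2n : 2 * ((1 : ℕ) : ℝ) / n0 ≤ η / 32 := by
      rw [div_le_iff₀ hn0pos]
      push_cast
      nlinarith
    have h2c : 2 * (c0 i : ℝ) / n0 ≤ η / 32 := by
      rw [div_le_iff₀ hn0pos]
      nlinarith
    have hlw := near_lw (σ := σ.wm σ.ms) hRf hI hD hσadm (s := 1) hw1 (by linarith) hb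
    have hb2 : BP J c0 n0 (η - 3 * min (η / 32) θ₀ - η / 32) (σ.lw 1) I D := by
      intro I' hI' D' h1 h2 h3
      have h4 := hlw I' hI' D' h1 h3
      have h5 := hb I' hI' D' h1 h2 h3
      have h6 := nz_nn_l c0 n0 I' D'
      constructor
      · have h7 : 2 * ((1 : ℕ) : ℝ) / n0 * nz c0 n0 I' D' ≤ η / 32 * nz c0 n0 I' D' :=
          mul_le_mul_of_nonneg_right h2n h6
        have h8 : (((σ.wm σ.ms).lw 1).V J I' D' : ℝ) = (σ.lw 1).V J I' D' := rfl
        nlinarith [h4.1, h5.1]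
      · have h8 : (((σ.wm σ.ms).lw 1).V J I' D' : ℝ) ≤ (σ.wm σ.ms).V J I' D' := by
          exact_mod_cast h4.2
        have h9 : (((σ.wm σ.ms).lw 1).V J I' D' : ℝ) = (σ.lw 1).V J I' D' := rfl
        linarith [h5.2]
    have hli := near_li (σ := σ.lw 1) hRf hI hD hσadm hi hb2
    have hkb := kx_bind he2 hiJ hσkx hσadm
    refine hns ⟨s, hsD⟩ n0 (hnsle _) _ (I.erase i) ((erase_subset _ _).trans hI)
      { c := fun l => ?_
        c' := fun l hl => ?_
        n := ?_
        w := ?_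
        adm := fun k' hk' => (hkb k' hk').2.1
        om := ?_ } (hh_kx fun k' hk' => (hkb k' hk').1) ?_ ?_
    · show Function.update σ.c i 0 l ≤ c0 l
      by_cases h : l = i
      · rw [h, Function.update_self]
        exact Nat.zero_le _
      · rw [Function.update_of_ne h]
        exact hin.c l
    · show ϖ / 2 * (c0 l : ℝ) ≤ ((Function.update σ.c i 0 l : ℕ) : ℝ)
      rw [mem_erase] at hl
      rw [Function.update_of_ne hl.1]
      have h1 : ϖ * c0 l ≤ σ.c l := hin.c' l hl.2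
      have h2 : (0 : ℝ) ≤ ϖ * c0 l := by positivity
      linarith
    · have h3 : σ.n J ≤ n0 := hin.n
      refine le_trans ?_ h3
      show ∑ l ∈ range J, Function.update σ.c i 0 l + (σ.w - 1) ≤ ∑ l ∈ range J, σ.c l + σ.w
      refine add_le_add (sum_le_sum fun l _ => ?_) (Nat.sub_le _ _)
      by_cases h : l = i
      · rw [h, Function.update_self]
        exact Nat.zero_le _
      · rw [Function.update_of_ne h]
    · show ϖ / 2 * (n0 : ℝ) ≤ ((σ.w - 1 : ℕ) : ℝ)
      rw [Nat.cast_sub hw1]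
      push_cast
      linarith
    · refine le_trans ?_ (hθle ⟨s, hsD⟩)
      refine le_trans ?_ (min_le_right (η / 32) θ₀)
      exact (om_tri he2 hiJ hσkx hσadm).trans hσom
    · intro i' hi' hex
      obtain ⟨m, hm, hmem⟩ := hex
      obtain ⟨h1, -, h2⟩ := hkb _ hmem
      have h3 : i' ∈ I.erase i := (kx_cl h1).2.2.1
      have h4 : i' ≠ i := (mem_erase.1 h3).1
      have h5 : .cl e 0 i' (List.replicate m ((range J).erase i')) ∈ σ.ms := by
        rcases h2 with ⟨x, A, h⟩ | h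
        · exact absurd h (by simp)
        · exact h
      have h6 := hip i' hi' ⟨m, hm, Multiset.mem_of_le hσst h5⟩
      rw [hcount i' hi' h4] at h6
      have h7 : (s + 1) * d * c0 i' ≤ (D + 1) * d * c0 i' :=
        Nat.mul_le_mul_right _ (Nat.mul_le_mul_right _ (by omega))
      have h8 := count_bind_tri (i := i) σ.ms (x := e) (A := (range J).erase i')
        (mem_erase.2 ⟨fun h => h4 h.symm, mem_range.2 hiJ⟩)
      exact (h7.trans h6).trans h8
    · intro I' hI' D' h1 h2
      have hII : I' ⊆ I := hI'.trans (erase_subset _ _)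
      have hcard : (I \ I').card = ((I.erase i) \ I').card + 1 := by
        have h3 : I \ I' = insert i ((I.erase i) \ I') := by
          ext x
          rw [mem_insert, mem_sdiff, mem_sdiff, mem_erase]
          constructor
          · rintro ⟨h4, h5⟩
            by_cases h6 : x = i
            · exact Or.inl h6
            · exact Or.inr ⟨⟨h6, h4⟩, h5⟩
          · rintro (h4 | ⟨⟨-, h4⟩, h5⟩)
            · subst h4
              exact ⟨hi, fun h5 => notMem_erase _ _ (hI' h5)⟩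
            · exact ⟨h4, h5⟩
        rw [h3, card_insert_of_notMem]
        intro h4
        exact notMem_erase _ _ (mem_sdiff.1 h4).1
      have h3 : D' < D := by omega
      have h4 : D' + (I \ I').card ≤ D := by omega
      have h5 := (hb2 I' hII D' h1 h3 h4).1
      have h6 := hli I' hI' D' h1 h3 h4
      have h7 := nz_nn_l c0 n0 I' D'
      have h8 : 2 * (c0 i : ℝ) / n0 * nz c0 n0 I' D' ≤ η / 32 * nz c0 n0 I' D' :=
        mul_le_mul_of_nonneg_right h2c h7
      have h9 : ((((σ.li i).lw 1).V J I' D' : ℤ) : ℝ) = (((σ.lw 1).li i).V J I' D' : ℤ) := rfl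
      rw [h9]
      nlinarith

end Pool.Agent.GD.AL
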