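import Pool.Agent.GD.AL.BTd

/-!
# General d, ALPHA: exactness of the states with ordinary objects, definition
-/

set_option autoImplicit false

namespace Pool.Agent.GD.AL

/-- Exactness of the states with ordinary objects. -/
def XO (d J D : ℕ) : Prop := ∀ η ϖ : ℝ, 0 < η → 0 < ϖ → ∃ F : (ℕ → ℕ) → ℕ, ∀ c0 : ℕ → ℕ,
  Hr 0 J F c0 → ∃ n1 : ℕ, ∀ n0, n1 ≤ n0 → ∀ (σ : St) (I : Finset ℕ), I ⊆ Finset.range J →
    InO d J c0 n0 ϖ I σ → Pos J c0 n0 η σ I D → σ.Ex d J I D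

end Pool.Agent.GD.AL
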