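import Pool.Agent.GD.AL.Fam
import Pool.Agent.GD.AL.P1
import Pool.Agent.GD.AL.XOd

/-!
# General d, ALPHA, part C, phase 2: the states stay in the class

`ph2_up`: a state with clusters whose top virtual dimension is large has large lower virtual dimensions
(`cmp_all`, `lb_orc` and `P1` for the state with all clusters replaced by their members).  `ph2_diff`: the
virtual dimensions of the two new states of a step.
-/

set_option autoImplicit false

namespace Pool.Agent.GD.AL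

open Finset

section

variable {d J D e : ℕ} {σ : St} {I : Finset ℕ} {c0 : ℕ → ℕ} {n0 : ℕ} {η ϖ θ : ℝ}

private theorem inO_mono {I' : Finset ℕ} (h : I' ⊆ I) (ho : InO d J c0 n0 ϖ I σ) :
    InO d J c0 n0 ϖ I' σ := ⟨ho.c, fun l hl => ho.c' l (h hl), ho.n, ho.w, ho.adm⟩

/-- The oracle from the exactness of the states with ordinary objects. -/
theorem orc_of (d J D : ℕ) (hXO : ∀ s < D, XO d J s) {η ϖ : ℝ} (hη : 0 < η) (hϖ : 0 < ϖ) :
    ∃ F : (ℕ → ℕ) → ℕ, ∀ c0 : ℕ → ℕ, Hr 0 J F c0 → ∃ n1 : ℕ, ∀ n0, n1 ≤ n0 →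
      ∀ I : Finset ℕ, I ⊆ range J → Orc d J c0 n0 (fun _ => True) I D η ϖ := by
  classical
  have h1 : ∀ s, ∃ F : (ℕ → ℕ) → ℕ, s < D → ∀ c0 : ℕ → ℕ, Hr 0 J F c0 → ∃ n1 : ℕ, ∀ n0, n1 ≤ n0 →
      ∀ (σ : St) (I : Finset ℕ), I ⊆ range J →
        InO d J c0 n0 ϖ I σ → Pos J c0 n0 η σ I s → σ.Ex d J I s := by
    intro s
    by_cases hs : s < D
    · obtain ⟨F, hF⟩ := hXO s hs η ϖ hη hϖ
      exact ⟨F, fun _ => hF⟩
    · exact ⟨fun _ => 0, fun h => absurd h hs⟩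
  choose F hF using h1
  refine ⟨fun c => ∑ s ∈ range D, F s c, fun c0 hc0 => ?_⟩
  have h2 : ∀ s, ∃ n1 : ℕ, s < D → ∀ n0, n1 ≤ n0 → ∀ (σ : St) (I : Finset ℕ), I ⊆ range J →
      InO d J c0 n0 ϖ I σ → Pos J c0 n0 η σ I s → σ.Ex d J I s := by
    intro s
    by_cases hs : s < D
    · obtain ⟨n1, hn1⟩ := hF s hs c0 fun l h h' =>
        (single_le_sum (f := fun s => F s (rs (l + 1) J c0)) (fun _ _ => Nat.zero_le _)
          (mem_range.2 hs)).trans (hc0 l h h')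
      exact ⟨n1, fun _ => hn1⟩
    · exact ⟨0, fun h => absurd h hs⟩
  choose n1 hn1 using h2
  refine ⟨∑ s ∈ range D, n1 s, fun n0 hn0 I hI τ hτ _ I' hI' D' hD' hp => ?_⟩
  exact hn1 D' hD' n0 ((single_le_sum (f := n1) (fun _ _ => Nat.zero_le _)
    (mem_range.2 hD')).trans hn0) τ I' (hI'.trans hI) (inO_mono hI' hτ) hp

theorem ph2_up {d J e D : ℕ} (hD : D ≤ d) (hXO : ∀ s < D, XO d J s) {η ϖ : ℝ} (hη : 0 < η)
    (hη1 : η ≤ 1) (hϖ : 0 < ϖ) : ∃ θ : ℝ, 0 < θ ∧ ∃ F : (ℕ → ℕ) → ℕ, ∀ c0 : ℕ → ℕ, Hr 0 J F c0 →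
      ∃ n1 : ℕ, ∀ n0, n1 ≤ n0 → ∀ (σ : St) (I : Finset ℕ), I ⊆ range J → I.card ≤ D →
        InC d J e c0 n0 ϖ θ I σ → PosL J c0 n0 (η / 2) σ I D →
        3 / 4 * η * nz c0 n0 I D ≤ (σ.V J I D : ℝ) → PosL J c0 n0 (9 / 16 * η) σ I D := by
  classical
  obtain ⟨F, hF⟩ := orc_of d J D hXO (η := η / 4) (ϖ := ϖ) (by linarith) hϖ
  refine ⟨η / 64, by linarith, ?_⟩
  set K : ℝ := 4 * (d + 1) / (η / 64) + 4 with hK
  have hK1 : 1 ≤ K := by
    have : 0 ≤ 4 * ((d : ℝ) + 1) / (η / 64) := by positivity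
    rw [hK]
    linarith
  refine ⟨fun c => F c + ⌈K⌉₊, fun c0 hc0 => ?_⟩
  obtain ⟨n1, hn1⟩ := hF c0 fun l h h' => (Nat.le_add_right _ _).trans (hc0 l h h')
  have hcK : ∀ l < J, K ≤ (c0 l : ℝ) := by
    intro l hl
    have h1 := hc0 l (Nat.zero_le _) hl
    have h2 : ⌈K⌉₊ ≤ c0 l := (Nat.le_add_left _ _).trans h1
    exact (Nat.le_ceil K).trans (by exact_mod_cast h2)
  refine ⟨n1 + ⌈K * (1 + ∑ l ∈ range J, (c0 l : ℝ)) ^ (d + 1)⌉₊, fun n0 hn0 σ I hI hID hC hp hv => ?_⟩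
  have hnK : K * (1 + ∑ l ∈ range J, (c0 l : ℝ)) ^ (d + 1) ≤ n0 :=
    (Nat.le_ceil _).trans (by
      have h1 : ⌈K * (1 + ∑ l ∈ range J, (c0 l : ℝ)) ^ (d + 1)⌉₊ ≤ n0 := by omega
      exact_mod_cast h1)
  have hS0 : (0 : ℝ) ≤ ∑ l ∈ range J, (c0 l : ℝ) := sum_nonneg fun l _ => Nat.cast_nonneg _
  have hR : Rf J c0 n0 1 := by
    refine ⟨fun l hl => hK1.trans (hcK l hl), ?_⟩
    rw [one_mul]
    have h1 : (1 + ∑ l ∈ range J, (c0 l : ℝ)) ≤ (1 + ∑ l ∈ range J, (c0 l : ℝ)) ^ (d + 1) :=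
      le_self_pow₀ (by linarith) (by omega)
    have h2 : (1 + ∑ l ∈ range J, (c0 l : ℝ)) ^ (d + 1) ≤
        K * (1 + ∑ l ∈ range J, (c0 l : ℝ)) ^ (d + 1) :=
      le_mul_of_one_le_left (by positivity) hK1
    linarith
  have hB : Big d J c0 n0 I K := ⟨fun l hl => hcK l (mem_range.1 (hI hl)), hnK⟩
  have hcmp := cmp_all (η := η / 2) (θ := η / 64) hR hI hD hC.c hC.n hC.adm hC.om (by linarith)
    (by linarith) (by linarith) hp
  -- the state without clusters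
  set σ0 : St := σ.wm (σ.ms.bind mmb) with hσ0
  have ho : InO d J c0 n0 ϖ I σ0 := ⟨hC.c, hC.c', hC.n, hC.w, fam_bind_ok hC.adm⟩
  have hp0 : PosL J c0 n0 (η / 4) σ0 I D := by
    intro I' hI' D' h1 h2 h3
    have h4 := hp I' hI' D' h1 h2 h3
    have h5 := (abs_le.1 (hcmp I' hI' D' h1 h3)).2
    have h6 := fam_nz_nonneg c0 n0 I' D'
    have h7 : η / 4 * nz c0 n0 I' D' + 3 * (η / 64) * nz c0 n0 I' D' ≤ η / 2 * nz c0 n0 I' D' := by
      rw [← add_mul]
      exact mul_le_mul_of_nonneg_right (by linarith) h6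
    linarith
  obtain ⟨hlb, hex⟩ := lb_orc (G := fun _ => True) hD hI ho (fun _ _ => trivial) (by linarith) hp0
    (hn1 n0 (by omega) I hI)
  have hv0 : (45 / 64 * η) * nz c0 n0 I D ≤ (σ0.V J I D : ℝ) := by
    have h5 := (abs_le.1 (hcmp I subset_rfl D hID (by simp))).2
    have h6 := fam_nz_nonneg c0 n0 I D
    have h7 : 45 / 64 * η * nz c0 n0 I D + 3 * (η / 64) * nz c0 n0 I D ≤
        3 / 4 * η * nz c0 n0 I D := by
      rw [← add_mul]
      exact mul_le_mul_of_nonneg_right (by linarith) h6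
    linarith
  have h8 := P1 (σ := σ0) (ε := η / 64) hD hI hID (by linarith : 0 ≤ 45 / 64 * η) (by linarith) hC.c hC.n hB
    hex hlb hv0
  intro I' hI' D' h1 h2 h3
  have h4 := h8 I' hI' D' h1 h2 h3
  have h5 := (abs_le.1 (hcmp I' hI' D' h1 h3)).1
  have h6 := fam_nz_nonneg c0 n0 I' D'
  have h7 : 9 / 16 * η * nz c0 n0 I' D' + 3 * (η / 64) * nz c0 n0 I' D' ≤
      (45 / 64 * η - η / 64) * nz c0 n0 I' D' := by
    rw [← add_mul]
    exact mul_le_mul_of_nonneg_right (by linarith) h6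
  linarith

/-! ### the two new states of a step -/

/-- The state before the step. -/
def ph2S (J e i k c : ℕ) (σ : St) : St :=
  σ.wm (.cl e 0 i (List.replicate k ((range J).erase i)) ::ₘ
    (Multiset.replicate ((c - 1) * (k - 1)) (.ord e ((range J).erase i)) + σ.ms))

/-- The states after the step: `x = e` resp. `x = e - 1`. -/
def ph2N (J e i k c x : ℕ) (σ : St) : St :=
  σ.wm (.ord x (range J) ::ₘ
    (Multiset.replicate (c * (k - 1)) (.ord e ((range J).erase i)) + σ.ms))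

private theorem mb_rep (e k : ℕ) (B : Finset ℕ) :
    mb e (List.replicate k B) = Multiset.replicate k (.ord e B) := by
  unfold mb
  rw [List.map_replicate, Multiset.coe_replicate]

private theorem nz_sub {I : Finset ℕ} {D x : ℕ} (hxD : x ≤ D) (h : I.card ≤ D - x) :
    nz c0 n0 I D = (n0 : ℝ) ^ x * nz c0 n0 I (D - x) := by
  unfold nz
  have h1 : D - I.card = x + (D - x - I.card) := by omega
  rw [h1, pow_add]
  ring

private theorem nz_sub_erase {I : Finset ℕ} {i : ℕ} (hi : i ∈ I) {D x : ℕ} (hx : 1 ≤ x)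
    (hxD : x ≤ D) (h : (I.erase i).card ≤ D - x) :
    nz c0 n0 I D = (c0 i : ℝ) * (n0 : ℝ) ^ (x - 1) * nz c0 n0 (I.erase i) (D - x) := by
  unfold nz
  rw [← mul_prod_erase I (fun l => (c0 l : ℝ)) hi]
  have h0 : 0 < I.card := card_pos.2 ⟨i, hi⟩
  rw [card_erase_of_mem hi] at h ⊢
  have h1 : D - I.card = (x - 1) + (D - x - (I.card - 1)) := by omega
  rw [h1, pow_add]
  ring

private theorem om_plU {i k : ℕ} (hk2 : 2 ≤ k) :
    om c0 n0 J (.cl e 0 i (List.replicate k ((range J).erase i))) =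
      1 / ((c0 i : ℝ) * (n0 : ℝ) ^ (e - 1)) := by
  have h : Pl J (.cl e 0 i (List.replicate k ((range J).erase i))) := by
    refine ⟨rfl, ?_, fun A hA => List.eq_of_mem_replicate hA⟩
    rw [List.length_replicate]
    exact hk2
  exact if_pos h

/-- **The virtual dimensions of the new states.** -/
theorem ph2_diff (hR : Rf J c0 n0 1) (hI : I ⊆ range J) (hD : D ≤ d) {i k c : ℕ} (hk2 : 2 ≤ k)
    (hc1 : 1 ≤ c) (hk : AdmC d J e (.cl e 0 i (List.replicate k ((range J).erase i))))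
    (hC : InC d J e c0 n0 ϖ θ I (ph2S J e i k c σ)) (hη : 0 ≤ η) (hθ : 3 * θ ≤ η)
    (hθ1 : 3 * θ ≤ 1) (hp : PosL J c0 n0 η (ph2S J e i k c σ) I D) :
    ∀ I' ⊆ I, ∀ D' : ℕ, I'.card ≤ D' → D' + (I \ I').card ≤ D →
      |((ph2S J e i k c σ).V J I' D' : ℝ) - (ph2N J e i k c e σ).V J I' D'| ≤
        4 * (1 / ((c0 i : ℝ) * (n0 : ℝ) ^ (e - 1))) * nz c0 n0 I' D' ∧
      -(4 * (1 / ((c0 i : ℝ) * (n0 : ℝ) ^ (e - 1))) * nz c0 n0 I' D') ≤
        ((ph2S J e i k c σ).V J I' D' : ℝ) - (ph2N J e i k c (e - 1) σ).V J I' D' ∧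
      ((ph2S J e i k c σ).V J I' D' : ℝ) - (ph2N J e i k c (e - 1) σ).V J I' D' ≤
        (2 / (n0 : ℝ) ^ (e - 1) + 4 * (1 / ((c0 i : ℝ) * (n0 : ℝ) ^ (e - 1)))) *
          nz c0 n0 I' D' := by
  have hθ0 : 0 ≤ θ := (fam_om_sum _).trans hC.om
  obtain ⟨dl', i', As', hcl, he, hlen, htrx, hiJ, hAs⟩ := id hk
  obtain ⟨rfl, rfl, rfl⟩ : 0 = dl' ∧ i = i' ∧ List.replicate k ((range J).erase i) = As' := by
    simpa using hcl
  set B := (range J).erase i with hB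
  set ω : ℝ := 1 / ((c0 i : ℝ) * (n0 : ℝ) ^ (e - 1)) with hω
  have homk : om c0 n0 J (.cl e 0 i (List.replicate k B)) = ω := om_plU hk2
  have hed : e ≤ d := by
    unfold trx at htrx
    have h9 : e - 1 ≤ (List.replicate k B).length * (e - 1) := Nat.le_mul_of_pos_left _ (by omega)
    omega
  -- sizes
  have hn0R : 1 + ∑ l ∈ range J, (c0 l : ℝ) ≤ n0 := by
    have h := hR.n
    rwa [one_mul] at h
  have hci1 : (1 : ℝ) ≤ c0 i := hR.c i hiJ
  have hcin : (c0 i : ℝ) ≤ n0 := by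
    have h3 : (c0 i : ℝ) ≤ ∑ l ∈ range J, (c0 l : ℝ) :=
      single_le_sum (f := fun l => (c0 l : ℝ)) (fun l _ => Nat.cast_nonneg _) (mem_range.2 hiJ)
    linarith
  have hn1 : (1 : ℝ) ≤ n0 := hci1.trans hcin
  have hω0 : 0 ≤ ω := by
    rw [hω]
    positivity
  have hωn : 1 / (n0 : ℝ) ^ e ≤ ω := by
    rw [hω]
    refine one_div_le_one_div_of_le (by positivity) ?_
    have h1 : (n0 : ℝ) ^ e = n0 * (n0 : ℝ) ^ (e - 1) := by
      rw [← pow_succ']
      congr 1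
      omega
    rw [h1]
    exact mul_le_mul_of_nonneg_right hcin (by positivity)
  -- the families
  set M : Multiset Kd := Multiset.replicate ((c - 1) * (k - 1)) (.ord e B) + σ.ms with hM
  set R : Multiset Kd := Multiset.replicate (c * (k - 1)) (.ord e B) + σ.ms with hRd
  have hst : (ph2S J e i k c σ).ms = .cl e 0 i (List.replicate k B) ::ₘ M := rfl
  have hRM : R = M + Multiset.replicate (k - 1) (.ord e B) := by
    have h1 : c * (k - 1) = (k - 1) + (c - 1) * (k - 1) := by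
      obtain ⟨c', rfl⟩ : ∃ c', c = c' + 1 := ⟨c - 1, by omega⟩
      rw [Nat.add_sub_cancel]
      ring
    rw [hRd, hM, h1, Multiset.replicate_add]
    abel
  have hmbM : mb e (List.replicate k B) + M = .ord e B ::ₘ R := by
    rw [mb_rep, hRM]
    have h1 : Multiset.replicate k (Kd.ord e B) =
        .ord e B ::ₘ Multiset.replicate (k - 1) (.ord e B) := by
      obtain ⟨k', rfl⟩ : ∃ k', k = k' + 1 := ⟨k - 1, by omega⟩
      rw [Nat.add_sub_cancel, Multiset.replicate_succ]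
    rw [h1, Multiset.cons_add, add_comm M]
  have hFM : Fam (ph2S J e i k c σ).ms M := fam_sub_le (fam_self _) (by
    rw [hst]
    exact Multiset.le_cons_self _ _)
  have hFR : Fam (ph2S J e i k c σ).ms R := by
    refine ⟨M, {.cl e 0 i (List.replicate k B)}, Multiset.replicate (k - 1) (.ord e B), ?_, ?_, hRM⟩
    · rw [hst, add_comm, Multiset.singleton_add]
    · rw [Multiset.singleton_bind]
      show _ ≤ mb e (List.replicate k B)
      rw [mb_rep]
      exact Multiset.replicate_mono _ (Nat.sub_le _ _)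
  have hRok := fam_ok hC.adm hFR
  have hcmp : ∀ I' ⊆ I, ∀ D' : ℕ, I'.card ≤ D' → D' + (I \ I').card ≤ D →
      ((ph2S J e i k c σ).V J I' D' : ℝ) - 3 * θ * nz c0 n0 I' D' ≤ (σ.wm R).V J I' D' ∧
        ((σ.wm R).V J I' D' : ℝ) ≤ (1 + 3 * θ) * nz c0 n0 I' D' :=
    cmp hR hI hD hC.c hC.n hC.adm hC.om hη hθ hθ1 hp hFR
  -- nonnegativity and bound of `R` in the lower degrees
  have hlow : ∀ I' ⊆ I, ∀ D' < D, D' + (I \ I').card ≤ D →
      0 ≤ ((σ.wm R).V J I' D' : ℝ) ∧ (I'.card ≤ D' → ((σ.wm R).V J I' D' : ℝ) ≤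
        2 * nz c0 n0 I' D') ∧ (D' < I'.card → ((σ.wm R).V J I' D' : ℝ) = 0) := by
    intro I' hI' D' hD' h2
    by_cases h1 : I'.card ≤ D'
    · have h3 := hcmp I' hI' D' h1 h2
      have h4 := hp I' hI' D' h1 hD' h2
      have h6 := fam_nz_nonneg c0 n0 I' D'
      have h7 : 3 * θ * nz c0 n0 I' D' ≤ η * nz c0 n0 I' D' := mul_le_mul_of_nonneg_right hθ h6
      have h8 : (1 + 3 * θ) * nz c0 n0 I' D' ≤ 2 * nz c0 n0 I' D' :=
        mul_le_mul_of_nonneg_right (by linarith) h6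
      exact ⟨by linarith [h3.1], fun _ => h3.2.trans h8, fun h => absurd h (by omega)⟩
    · have h3 : (σ.wm R).V J I' D' = 0 :=
        fam_low0 (σ := σ) hRok (hI'.trans hI) (by omega)
      rw [h3]
      push_cast
      exact ⟨le_rfl, fun h => absurd h h1, fun _ => rfl⟩
  intro I' hI' D' h1 h2
  have hz := fam_nz_nonneg c0 n0 I' D'
  have hI'J : I' ∩ range J = I' := inter_eq_left.2 (hI'.trans hI)
  have hcl := fam_cl hR hI hD hC.c hC.n hC.adm hC.om hη hθ hθ1 hp hFM hk I' hI' D' h2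
  rw [homk] at hcl
  have e1 : ((ph2S J e i k c σ).wm (mb e (List.replicate k B) + M)).V J I' D' =
      ((σ.wm R).ad (.ord e B)).V J I' D' := by
    rw [hmbM]
    rfl
  have e2 : (ph2S J e i k c σ).wm (.cl e 0 i (List.replicate k B) ::ₘ M) = ph2S J e i k c σ := rfl
  rw [e1, e2] at hcl
  -- the costs
  have hP : ∀ x : ℕ, 1 ≤ x → x ≤ D' → 0 ≤ ((σ.wm R).V J I' (D' - x) : ℝ) ∧
      ((σ.wm R).V J I' (D' - x) : ℝ) ≤ 2 / (n0 : ℝ) ^ x * nz c0 n0 I' D' := by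
    intro x hx hxD
    have h3 := hlow I' hI' (D' - x) (by omega) (by omega)
    refine ⟨h3.1, ?_⟩
    by_cases h4 : I'.card ≤ D' - x
    · have h5 := h3.2.1 h4
      rw [nz_sub hxD h4]
      have h6 : (0 : ℝ) < (n0 : ℝ) ^ x := by positivity
      have h7 : 2 / (n0 : ℝ) ^ x * ((n0 : ℝ) ^ x * nz c0 n0 I' (D' - x)) =
          2 * nz c0 n0 I' (D' - x) := by
        field_simp
      rw [h7]
      exact h5
    · rw [h3.2.2 (by omega)]
      positivity
  have hQ : i ∈ I' → e ≤ D' → 0 ≤ ((σ.wm R).V J (I' ∩ B) (D' - e) : ℝ) ∧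
      ((σ.wm R).V J (I' ∩ B) (D' - e) : ℝ) ≤ 2 * ω * nz c0 n0 I' D' := by
    intro hiI' heD
    have h3 : I' ∩ B = I'.erase i := by
      ext y
      rw [Finset.mem_inter, hB, mem_erase, mem_erase]
      exact ⟨fun h => ⟨h.2.1, h.1⟩, fun h => ⟨h.2, h.1, hI (hI' h.2)⟩⟩
    rw [h3]
    have h4 : (I \ I'.erase i).card ≤ (I \ I').card + 1 := by
      have h5 : I \ I'.erase i ⊆ insert i (I \ I') := by
        intro y hy
        rw [mem_sdiff, mem_erase] at hy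
        rw [mem_insert, mem_sdiff]
        by_cases hyi : y = i
        · exact Or.inl hyi
        · exact Or.inr ⟨hy.1, fun h => hy.2 ⟨hyi, h⟩⟩
      exact (card_le_card h5).trans (card_insert_le _ _)
    have h5 := hlow (I'.erase i) ((erase_subset _ _).trans hI') (D' - e) (by omega) (by omega)
    refine ⟨h5.1, ?_⟩
    by_cases h6 : (I'.erase i).card ≤ D' - e
    · have h7 := h5.2.1 h6
      rw [nz_sub_erase hiI' (by omega : 1 ≤ e) heD h6]
      have h8 : (0 : ℝ) < (c0 i : ℝ) * (n0 : ℝ) ^ (e - 1) := by positivity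
      have h9 : 2 * ω * ((c0 i : ℝ) * (n0 : ℝ) ^ (e - 1) * nz c0 n0 (I'.erase i) (D' - e)) =
          2 * nz c0 n0 (I'.erase i) (D' - e) := by
        rw [hω]
        field_simp
      rw [h9]
      exact h7
    · rw [h5.2.2 (by omega)]
      positivity
  -- the three virtual dimensions
  have v1 : (((σ.wm R).ad (.ord e B)).V J I' D' : ℝ) = (σ.wm R).V J I' D' -
      (if e ≤ D' then ((σ.wm R).V J (I' ∩ B) (D' - e) : ℝ) else 0) := by
    by_cases h3 : e ≤ D'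
    · rw [St.V_ord B h3, if_pos h3]
      push_cast
      rfl
    · rw [St.V_ord_lt B (by omega), if_neg h3, sub_zero]
  have v2 : ∀ x : ℕ, ((ph2N J e i k c x σ).V J I' D' : ℝ) = (σ.wm R).V J I' D' -
      (if x ≤ D' then ((σ.wm R).V J I' (D' - x) : ℝ) else 0) := by
    intro x
    have h0 : ph2N J e i k c x σ = (σ.wm R).ad (.ord x (range J)) := rfl
    rw [h0]
    by_cases h3 : x ≤ D'
    · rw [St.V_ord (range J) h3, if_pos h3, hI'J]
      push_cast
      rfl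
    · rw [St.V_ord_lt (range J) (by omega), if_neg h3, sub_zero]
  have b1 : 0 ≤ (if e ≤ D' then ((σ.wm R).V J I' (D' - e) : ℝ) else 0) ∧
      (if e ≤ D' then ((σ.wm R).V J I' (D' - e) : ℝ) else 0) ≤ 2 * ω * nz c0 n0 I' D' := by
    split_ifs with h3
    · obtain ⟨h4, h5⟩ := hP e (by omega) h3
      refine ⟨h4, h5.trans (mul_le_mul_of_nonneg_right ?_ hz)⟩
      have h6 : 2 / (n0 : ℝ) ^ e = 2 * (1 / (n0 : ℝ) ^ e) := by ring
      rw [h6]
      linarith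
    · exact ⟨le_rfl, by positivity⟩
  have b2 : 0 ≤ (if e - 1 ≤ D' then ((σ.wm R).V J I' (D' - (e - 1)) : ℝ) else 0) ∧
      (if e - 1 ≤ D' then ((σ.wm R).V J I' (D' - (e - 1)) : ℝ) else 0) ≤
        2 / (n0 : ℝ) ^ (e - 1) * nz c0 n0 I' D' := by
    split_ifs with h3
    · exact hP (e - 1) (by omega) h3
    · exact ⟨le_rfl, by positivity⟩
  by_cases hiI' : i ∈ I'
  · have b3 : 0 ≤ (if e ≤ D' then ((σ.wm R).V J (I' ∩ B) (D' - e) : ℝ) else 0) ∧
        (if e ≤ D' then ((σ.wm R).V J (I' ∩ B) (D' - e) : ℝ) else 0) ≤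
          2 * ω * nz c0 n0 I' D' := by
      split_ifs with h3
      · exact hQ hiI' h3
      · exact ⟨le_rfl, by positivity⟩
    rw [v1] at hcl
    rw [v2 e, v2 (e - 1)]
    obtain ⟨c1, c2⟩ := abs_le.1 hcl
    refine ⟨abs_le.2 ⟨?_, ?_⟩, ?_, ?_⟩
    · linarith [b1.1, b3.2]
    · linarith [b1.2, b3.1]
    · linarith [b2.1, b3.2]
    · rw [add_mul]
      have h9 : 0 ≤ ω * nz c0 n0 I' D' := mul_nonneg hω0 hz
      linarith [b2.2, b3.1]
  · -- off the level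
    have h3 : I' ∩ B = I' := by
      refine inter_eq_left.2 fun y hy => ?_
      rw [hB, mem_erase]
      exact ⟨fun h => hiI' (h ▸ hy), hI (hI' hy)⟩
    have h4 : (ph2S J e i k c σ).V J I' D' = ((σ.wm R).ad (.ord e B)).V J I' D' := by
      rw [← e1]
      exact vd_clu_not D' σ.c (σ.n J) e 0 hiI' M
    rw [h4, v1, v2 e, v2 (e - 1), h3]
    have h9 : 0 ≤ ω * nz c0 n0 I' D' := mul_nonneg hω0 hz
    refine ⟨?_, ?_, ?_⟩
    · rw [sub_self, abs_zero]
      linarith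
    · linarith [b1.2, b2.1]
    · rw [add_mul]
      linarith [b1.1, b2.2]

end

end Pool.Agent.GD.AL
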