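import Pool.Agent.GD.AL.Near
import Pool.Agent.GD.AL.CSt2
import Pool.Agent.GD.AL.P1
import Pool.Agent.GD.AL.Pot
import Pool.Agent.GD.AL.XOd

/-!
# General d, ALPHA, part C: phase 2, preparations
-/

set_option autoImplicit false

namespace Pool.Agent.GD.AL

open Finset

/-! ### Numbers -/

theorem p2_exp {p x₀ x₁ y z : ℝ} (hp : 0 ≤ p) (hp2 : p ≤ 1 / 2) (hy : 0 ≤ y) (hy1 : y ≤ 1)
    (hz : 0 ≤ z) (hz1 : z ≤ 1 / 2) (h0 : x₀ ≤ -y) (h1 : x₁ ≤ z) (h : 8 * (p * z) ≤ y) :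
    (1 - p) * Real.exp x₀ + p * Real.exp x₁ ≤ 1 := by
  have e0 : Real.exp x₀ ≤ 1 - y / 2 := by
    refine (Real.exp_le_exp.2 h0).trans ?_
    have h2 : 1 + y ≤ Real.exp y := by linarith [Real.add_one_le_exp y]
    have h3 : (1 - y / 2) * (1 + y) ≤ (1 - y / 2) * Real.exp y :=
      mul_le_mul_of_nonneg_left h2 (by linarith)
    have h4 : Real.exp (-y) * Real.exp y = 1 := by
      rw [← Real.exp_add, neg_add_cancel, Real.exp_zero]
    have h5 := Real.exp_pos y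
    have h6 : Real.exp (-y) * Real.exp y ≤ (1 - y / 2) * Real.exp y := by nlinarith
    exact le_of_mul_le_mul_right h6 h5
  have e1 : Real.exp x₁ ≤ 1 + 2 * z := by
    refine (Real.exp_le_exp.2 h1).trans ?_
    have h2 : 1 - z ≤ Real.exp (-z) := by linarith [Real.add_one_le_exp (-z)]
    have h4 : Real.exp z * Real.exp (-z) = 1 := by
      rw [← Real.exp_add, add_neg_cancel, Real.exp_zero]
    have h5 := Real.exp_pos (-z)
    have h6 : Real.exp z * Real.exp (-z) ≤ (1 + 2 * z) * Real.exp (-z) := by nlinarith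
    exact le_of_mul_le_mul_right h6 h5
  have h2 : (1 - p) * Real.exp x₀ ≤ (1 - p) * (1 - y / 2) :=
    mul_le_mul_of_nonneg_left e0 (by linarith)
  have h3 : p * Real.exp x₁ ≤ p * (1 + 2 * z) := mul_le_mul_of_nonneg_left e1 hp
  nlinarith

theorem ex_lb (D : ℕ) (f : ℕ → ℝ) (h : ∀ s < D, 0 < f s) : ∃ θ : ℝ, 0 < θ ∧ ∀ s < D, θ ≤ f s := by
  induction D with
  | zero => exact ⟨1, one_pos, fun s hs => absurd hs (Nat.not_lt_zero s)⟩
  | succ D ih =>
    obtain ⟨θ, h1, h2⟩ := ih fun s hs => h s (by omega)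
    refine ⟨min θ (f D), lt_min h1 (h D (by omega)), fun s hs => ?_⟩
    rcases Nat.lt_succ_iff_lt_or_eq.1 hs with h3 | rfl
    · exact (min_le_left _ _).trans (h2 s h3)
    · exact min_le_right _ _

theorem ex_big (d : ℕ) {κ : ℝ} (hκ : 0 < κ) : ∃ n1 : ℕ, ∀ n : ℕ, n1 ≤ n →
    (n : ℝ) ^ d * Real.exp (-(κ * n)) < 1 := by
  have h1 := (Real.tendsto_pow_mul_exp_neg_atTop_nhds_zero d).comp
    (Filter.Tendsto.const_mul_atTop hκ tendsto_natCast_atTop_atTop)
  have h2 : ∀ᶠ n : ℕ in Filter.atTop, (κ * n) ^ d * Real.exp (-(κ * n)) < κ ^ d :=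
    h1.eventually (gt_mem_nhds (pow_pos hκ d))
  obtain ⟨n1, hn1⟩ := Filter.eventually_atTop.1 h2
  refine ⟨n1, fun n hn => ?_⟩
  have h3 := hn1 n hn
  rw [mul_pow, mul_assoc] at h3
  have h4 : κ ^ d * ((n : ℝ) ^ d * Real.exp (-(κ * n))) < κ ^ d * 1 := by rwa [mul_one]
  exact lt_of_mul_lt_mul_left h4 (pow_pos hκ d).le

section

variable {d J D e : ℕ} {σ : St} {I : Finset ℕ} {c0 : ℕ → ℕ} {n0 : ℕ} {η ϖ θ : ℝ}

/-! ### The kinds -/

/-- The kinds of phase 2. -/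
def K2 (d J e : ℕ) (I : Finset ℕ) (k : Kd) : Prop :=
  AdmO d J k ∨ (AdmC d J e k ∧ ∃ i ∈ I, ∃ m, 2 ≤ m ∧
    k = .cl e 0 i (List.replicate m ((range J).erase i)))

theorem K2.adm {k : Kd} (h : K2 d J e I k) : AdmO d J k ∨ AdmC d J e k :=
  h.imp id fun h => h.1

theorem K2.ok {k : Kd} (h : K2 d J e I k) : k.Ok d J := by
  rcases h with h | h
  · exact h.ok
  · exact h.1.ok

theorem adm_low {k : Kd} (h : AdmO d J k ∨ AdmC d J e k) : k.Low (range J) := by
  rcases h with ⟨x, A, rfl, -, -, -, h⟩ | ⟨dl, i, As, rfl, h1, h2, -, hi, h3⟩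
  · exact h
  · refine ⟨h2, fun A hA => ⟨fun hiA => notMem_erase i _ ((h3 A hA).1 hiA), ?_⟩⟩
    have h4 := (h3 A hA).2
    have h5 : range J \ A ⊆ insert i ((range J).erase i \ A) := by
      intro y hy
      rw [mem_sdiff] at hy
      rw [mem_insert, mem_sdiff, mem_erase]
      by_cases h6 : y = i
      · exact Or.inl h6
      · exact Or.inr ⟨⟨h6, hy.1⟩, hy.2⟩
    have h6 := (card_le_card h5).trans (card_insert_le _ _)
    omega

theorem V_lowC (hI : I ⊆ range J) (hm : ∀ k ∈ σ.ms, AdmO d J k ∨ AdmC d J e k) (hD : D < I.card) :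
    σ.V J I D = 0 :=
  vd_low (J := range J) (by unfold St.n; omega) σ.ms (fun k hk => adm_low (hm k hk)) I hI D hD

theorem inter_rep {m : ℕ} (hm : 1 ≤ m) (B : Finset ℕ) : inter (List.replicate m B) = B := by
  ext x
  rw [Pool.Agent.GD.mem_inter (by rw [List.length_replicate]; exact hm)]
  constructor
  · intro h
    exact h B (List.mem_replicate.2 ⟨by omega, rfl⟩)
  · intro h A hA
    rw [(List.mem_replicate.1 hA).2]
    exact h

/-- The virtual dimension of a cluster of phase 2. -/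
theorem V_pl (hI : I ⊆ range J) {i m : ℕ} (hi : i ∈ I) (hm : 1 ≤ m) (X : Multiset Kd) :
    (σ.wm (.cl e 0 i (List.replicate m ((range J).erase i)) ::ₘ X)).V J I D =
      (σ.wm (Multiset.replicate m (.ord e ((range J).erase i)) + X)).V J I D +
        if m * (e - 1) + 1 ≤ D then
          (σ.wm X).V J (I.erase i) (D - (m * (e - 1) + 1)) -
            (σ.wm X).V J I (D - (m * (e - 1) + 1)) else 0 := by
  have h1 : ∀ A ∈ List.replicate m ((range J).erase i), i ∉ A := by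
    intro A hA
    rw [(List.mem_replicate.1 hA).2]
    exact notMem_erase i _
  have h2 := vd_clu D σ.c (σ.n J) e 0 h1 hi X
  have h3 : I.erase i ∩ (range J).erase i = I.erase i :=
    inter_eq_left.2 (erase_subset_erase i hI)
  rw [inter_rep hm, h3, insert_erase hi, List.length_replicate, List.map_replicate,
    Multiset.coe_replicate] at h2
  exact h2

theorem tri_pl_eq {i m : ℕ} (hm : 1 ≤ m) :
    tri i (.cl e 0 i (List.replicate m ((range J).erase i))) =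
      {.ord (trx e 0 m) ((range J).erase i)} := by
  show (if i = i then _ else _) = _
  rw [if_pos rfl, inter_rep hm, List.length_replicate]

theorem tri_pl_ne {i i' m : ℕ} (hi : i < J) (h : i' ≠ i) :
    tri i (.cl e 0 i' (List.replicate m ((range J).erase i'))) =
      {.cl e 0 i' (List.replicate m ((range J).erase i'))} := by
  show (if i' = i then _ else _) = _
  rw [if_neg h]
  refine if_pos fun A hA => ?_
  rw [(List.mem_replicate.1 hA).2, mem_erase, mem_range]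
  exact ⟨Ne.symm h, hi⟩

theorem trx_ge {L dl : ℕ} (hL : 1 ≤ L) : e ≤ trx e dl L := by
  unfold trx
  have : 1 * (e - 1) ≤ L * (e - 1) := Nat.mul_le_mul_right _ hL
  omega

/-- The members of a cluster. -/
theorem adm_mem {dl i : ℕ} {As : List (Finset ℕ)} (h : AdmC d J e (.cl e dl i As)) {A : Finset ℕ}
    (hA : A ∈ As) : AdmO d J (.ord e A) := by
  have h0 : (Kd.cl e dl i As).Low (range J) := adm_low (e := e) (Or.inr h)
  obtain ⟨dl', i', As', h1, h2, h3, h4, h5, h6⟩ := h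
  obtain ⟨-, rfl, rfl, rfl⟩ := Kd.cl.inj h1
  exact ⟨e, A, rfl, by omega, (trx_ge h3).trans h4, (h6 A hA).1.trans (erase_subset _ _),
    (h0.2 A hA).2⟩

theorem adm_mmb {k : Kd} (h : AdmO d J k ∨ AdmC d J e k) : ∀ k' ∈ mmb k, AdmO d J k' := by
  intro k' hk'
  rcases h with h | h
  · obtain ⟨x, A, rfl, -⟩ := id h
    rw [show mmb (.ord x A) = {.ord x A} from rfl, Multiset.mem_singleton] at hk'
    rw [hk']
    exact h
  · obtain ⟨dl, i, As, rfl, -⟩ := id h
    rw [show mmb (.cl e dl i As) = ((As.map (Kd.ord e) : List Kd) : Multiset Kd) from rfl,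
      Multiset.mem_coe, List.mem_map] at hk'
    obtain ⟨A, hA, rfl⟩ := hk'
    exact adm_mem h hA

theorem fam_le {ms R : Multiset Kd} (h : R ≤ ms) : Fam ms R :=
  ⟨R, 0, 0, by rwa [add_zero], by simp, by rw [add_zero]⟩

theorem fam_one {k : Kd} {X O : Multiset Kd} (h : O ≤ mmb k) : Fam (k ::ₘ X) (O + X) := by
  refine ⟨X, {k}, O, ?_, ?_, add_comm _ _⟩
  · rw [add_comm, Multiset.singleton_add]
  · rwa [Multiset.singleton_bind]

theorem pos_mono {η' : ℝ} (h : η' ≤ η) (hp : Pos J c0 n0 η σ I D) : Pos J c0 n0 η' σ I D := by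
  intro I' hI' D' h1 h2
  refine le_trans ?_ (hp I' hI' D' h1 h2)
  refine mul_le_mul_of_nonneg_right h ?_
  unfold nz
  exact mul_nonneg (prod_nonneg fun _ _ => Nat.cast_nonneg _) (pow_nonneg (Nat.cast_nonneg _) _)

theorem nz_nn2 (c0 : ℕ → ℕ) (n0 : ℕ) (I : Finset ℕ) (D : ℕ) : 0 ≤ nz c0 n0 I D := by
  unfold nz
  exact mul_nonneg (prod_nonneg fun _ _ => Nat.cast_nonneg _) (pow_nonneg (Nat.cast_nonneg _) _)

theorem posL_mono {η' : ℝ} (h : η' ≤ η) (hp : PosL J c0 n0 η σ I D) : PosL J c0 n0 η' σ I D := by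
  intro I' hI' D' h1 h2 h3
  exact le_trans (mul_le_mul_of_nonneg_right h (nz_nn2 _ _ _ _)) (hp I' hI' D' h1 h2 h3)

theorem posL_of (hp : Pos J c0 n0 η σ I D) : PosL J c0 n0 η σ I D :=
  fun I' hI' D' h1 _ h3 => hp I' hI' D' h1 h3

theorem pos_of (hp : PosL J c0 n0 η σ I D) (h : η * nz c0 n0 I D ≤ (σ.V J I D : ℝ)) :
    Pos J c0 n0 η σ I D := by
  intro I' hI' D' h1 h2
  by_cases h3 : D' < D
  · exact hp I' hI' D' h1 h3 h2
  · have h4 : D' = D := by omega
    have h5 : I \ I' = ∅ := by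
      rw [← card_eq_zero]
      omega
    have h6 : I' = I := subset_antisymm hI' (sdiff_eq_empty_iff_subset.1 h5)
    rw [h4, h6]
    exact h

/-- The bounds of `cmp`. -/
theorem cmp_bp (hR : Rf J c0 n0 1) (hI : I ⊆ range J) (hD : D ≤ d) (hc : ∀ l, σ.c l ≤ c0 l)
    (hn : σ.n J ≤ n0) {ms : Multiset Kd} (hm : ∀ k ∈ ms, AdmO d J k ∨ AdmC d J e k)
    (hom : (ms.map (om c0 n0 J)).sum ≤ θ) (hη : 0 ≤ η) (hθ : 3 * θ ≤ η) (hθ1 : 3 * θ ≤ 1)
    (hp : PosL J c0 n0 η (σ.wm ms) I D) {R : Multiset Kd} (hF : Fam ms R) :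
    BP J c0 n0 (η - 3 * θ) (σ.wm R) I D := by
  intro I' hI' D' h1 h2 h3
  have h := cmp (σ := σ.wm ms) (e := e) hR hI hD hc hn hm hom hη hθ hθ1 hp hF I' hI' D' h1 h3
  have h4 := hp I' hI' D' h1 h2 h3
  have h5 := nz_nn2 c0 n0 I' D'
  obtain ⟨h6, h7⟩ := h
  refine ⟨?_, ?_⟩
  · refine le_trans ?_ h6
    rw [sub_mul]
    linarith
  · refine h7.trans ?_
    nlinarith

/-- The next smaller sizes. -/
theorem nz_sub {x : ℕ} (h : x + I.card ≤ D) :
    nz c0 n0 I (D - x) * (n0 : ℝ) ^ x = nz c0 n0 I D := by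
  unfold nz
  rw [mul_assoc, ← pow_add]
  congr 2
  omega

end

end Pool.Agent.GD.AL
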