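import Pool.Agent.GD.AL.Ph2b

/-!
# General d, ALPHA, part C: phase 2, the class
-/

set_option autoImplicit false

namespace Pool.Agent.GD.AL

open Finset

section

variable {d J D e : ℕ} {σ : St} {I : Finset ℕ} {c0 : ℕ → ℕ} {n0 : ℕ} {η ϖ θ : ℝ}

/-- The class of phase 2. -/
structure G2 (d J e : ℕ) (c0 : ℕ → ℕ) (n0 N : ℕ) (η θ : ℝ) (I : Finset ℕ) (D : ℕ) (σ : St)
    (ms : Multiset Kd) : Prop where
  kd : ∀ k ∈ ms, K2 d J e I k
  ip : IP J e c0 N ms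
  om : (ms.map (om c0 n0 J)).sum ≤ θ
  pos : PosL J c0 n0 η (σ.wm ms) I D
  top : 0 ≤ (σ.wm ms).V J I D

/-- `1` for a cluster. -/
def nc : Kd → ℕ
  | .ord _ _ => 0
  | .cl _ _ _ _ => 1

theorem nc_rep (m x : ℕ) (A : Finset ℕ) : ((Multiset.replicate m (Kd.ord x A)).map nc).sum = 0 := by
  rw [Multiset.map_replicate, Multiset.sum_replicate]
  exact Nat.mul_zero m

theorem om_rep (m x : ℕ) (A : Finset ℕ) :
    ((Multiset.replicate m (Kd.ord x A)).map (om c0 n0 J)).sum = 0 := by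
  rw [Multiset.map_replicate, Multiset.sum_replicate]
  exact smul_zero m

theorem om_sum_nonneg (ms : Multiset Kd) : 0 ≤ (ms.map (om c0 n0 J)).sum :=
  Multiset.sum_nonneg fun x hx => by
    obtain ⟨k, -, rfl⟩ := Multiset.mem_map.1 hx
    exact om_nonneg k

theorem om_pl2 {i m : ℕ} (hm : 2 ≤ m) :
    om c0 n0 J (.cl e 0 i (List.replicate m ((range J).erase i))) =
      1 / ((c0 i : ℝ) * (n0 : ℝ) ^ (e - 1)) :=
  om_pl ⟨rfl, by rw [List.length_replicate]; exact hm, fun A hA => (List.mem_replicate.1 hA).2⟩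

theorem ip_of {N : ℕ} {ms ms' : Multiset Kd} (h : IP J e c0 N ms)
    (h1 : ∀ i As, Kd.cl e 0 i As ∈ ms' → Kd.cl e 0 i As ∈ ms)
    (h2 : ∀ A, ms.count (.ord e A) ≤ ms'.count (.ord e A)) : IP J e c0 N ms' := by
  intro i hi ⟨m, hm, hk⟩
  exact (h i hi ⟨m, hm, h1 i _ hk⟩).trans (h2 _)

theorem Rf.mono2 {K K' : ℝ} (h : K' ≤ K) (hR : Rf J c0 n0 K) : Rf J c0 n0 K' := by
  refine ⟨fun l hl => h.trans (hR.c l hl), le_trans (mul_le_mul_of_nonneg_right h ?_) hR.n⟩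
  have h2 : (0 : ℝ) ≤ ∑ l ∈ range J, (c0 l : ℝ) := sum_nonneg fun _ _ => Nat.cast_nonneg _
  linarith

/-- The new states are near. -/
theorem p2_stay {m0 : ℝ} (hm0 : 1 ≤ m0) (hR : Rf J c0 n0 m0) (hI : I ⊆ range J) (hD : D ≤ d)
    (hc : ∀ l, σ.c l ≤ c0 l) (hn : σ.n J ≤ n0) {ms R : Multiset Kd}
    (hm : ∀ k ∈ ms, AdmO d J k ∨ AdmC d J e k) (hmR : ∀ k ∈ R, AdmO d J k ∨ AdmC d J e k)
    (hom : (ms.map (om c0 n0 J)).sum ≤ θ) (hη : 0 ≤ η) (hθ : 3 * θ ≤ η) (hθ1 : 3 * θ ≤ 1)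
    (hp : PosL J c0 n0 η (σ.wm ms) I D) (hF : Fam ms R) {k : Kd} (hk : AdmO d J k) :
    ∀ I' ⊆ I, ∀ D' : ℕ, I'.card ≤ D' → D' + (I \ I').card ≤ D →
      ((σ.wm ms).V J I' D' : ℝ) - (3 * θ + 2 / m0) * nz c0 n0 I' D' ≤
        (σ.wm (k ::ₘ R)).V J I' D' := by
  intro I' hI' D' h1 h2
  have h3 := cmp (σ := σ.wm ms) (e := e) (hR.mono2 hm0) hI hD hc hn hm hom hη hθ hθ1 hp hF I' hI' D'
    h1 h2
  have h4 := cmp_bp (hR.mono2 hm0) hI hD hc hn hm hom hη hθ hθ1 hp hF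
  have h5 := near_ad (σ := σ.wm R) (e := e) hm0 hR hI hD hmR (by linarith) h4 hk I' hI' D' h1 h2
  have h6 : ((σ.wm ms).V J I' D' : ℝ) - 3 * θ * nz c0 n0 I' D' ≤ ((σ.wm R).V J I' D' : ℝ) := h3.1
  have h7 : ((σ.wm R).V J I' D' : ℝ) - 2 / m0 * nz c0 n0 I' D' ≤ (σ.wm (k ::ₘ R)).V J I' D' := h5.1
  rw [add_mul]
  linarith

/-- A cluster of large exponent has no effect. -/
theorem p2_void (hI : I ⊆ range J) {i m : ℕ} (hi : i ∈ I) (hm : 1 ≤ m) (X : Multiset Kd)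
    {D' : ℕ} {I' : Finset ℕ} (hI' : I' ⊆ I) (h : D' < e) :
    (σ.wm (.cl e 0 i (List.replicate m ((range J).erase i)) ::ₘ X)).V J I' D' =
      (σ.wm X).V J I' D' := by
  have key : ∀ M : Multiset Kd, (σ.wm (Kd.ord e ((range J).erase i) ::ₘ M)).V J I' D' =
      (σ.wm M).V J I' D' := fun M => St.V_ord_lt (σ := σ.wm M) _ h
  have h1 : ∀ k : ℕ, (σ.wm (Multiset.replicate k (.ord e ((range J).erase i)) + X)).V J I' D' =
      (σ.wm X).V J I' D' := by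
    intro k
    induction k with
    | zero => rw [Multiset.replicate_zero, zero_add]
    | succ k ih =>
      rw [Multiset.replicate_succ, Multiset.cons_add, key, ih]
  by_cases hi' : i ∈ I'
  · rw [V_pl (hI'.trans hI) hi' hm, h1, if_neg, add_zero]
    have : 1 * (e - 1) ≤ m * (e - 1) := Nat.mul_le_mul_right _ hm
    omega
  · have h2 := vd_clu_not D' σ.c (σ.n J) e 0 (As := List.replicate m ((range J).erase i)) hi' X
    rw [List.map_replicate, Multiset.coe_replicate] at h2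
    exact h2.trans (h1 m)

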