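import Pool.Agent.GD.ST.Core2

/-!
# General d: linear maps

`π : ν → ν' → ℂ` is the linear map `e_s ↦ ∑ π s s' e_s'`; it is compatible with the blocks `< J` if it maps
`L_i` into `L_i'`.  Solutions on `ν'` at the image of a position pull back to solutions on `ν`
(`sat_pull`, `pullL_mem`).
-/

set_option autoImplicit false
set_option linter.unusedSectionVars false

namespace Pool.Agent.GD

open Finset MvPolynomial Pool.Agent.H51.TB
open Pool.Agent.V7 (msk)

section

variable {ν : Type} [Fintype ν] [DecidableEq ν]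

/-- The variables of the block `i` are replaced by `0`. -/
noncomputable def rho (β : ν → ℕ) (i : ℕ) : MvPolynomial ν ℂ →ₐ[ℂ] MvPolynomial ν ℂ :=
  aeval fun s => if β s = i then 0 else X s

theorem rho_lf {β : ν → ℕ} {i : ℕ} {p : ν → ℂ} (h : ∀ s, β s = i → p s = 0) :
    rho β i (lf p) = lf p := by
  unfold lf rho
  rw [map_sum]
  refine sum_congr rfl fun s _ => ?_
  rw [map_mul, aeval_X, algHom_C]
  show C (p s) * _ = _
  by_cases hs : β s = i
  · rw [h s hs, C_0, zero_mul, zero_mul]
  · rw [if_neg hs]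

theorem rho_mon {β : ν → ℕ} {i : ℕ} {b : ν → ℕ} (h : ∀ s, β s = i → b s = 0) :
    rho β i (mon ℂ b) = mon ℂ b := by
  unfold mon rho
  rw [map_prod]
  refine prod_congr rfl fun s _ => ?_
  rw [map_pow, aeval_X]
  by_cases hs : β s = i
  · rw [h s hs, pow_zero, pow_zero]
  · rw [if_neg hs]

theorem rho_mon0 {β : ν → ℕ} {i : ℕ} {b : ν → ℕ} (h : ¬ ∀ s, β s = i → b s = 0) :
    rho β i (mon ℂ b) = 0 := by
  push Not at h
  obtain ⟨s, hs, hb⟩ := h
  unfold mon rho
  rw [map_prod]
  refine prod_eq_zero (mem_univ s) ?_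
  rw [map_pow, aeval_X, if_pos hs, zero_pow hb]

/-- A functional which vanishes on all polynomials off the block `i`. -/
theorem Fn_rho {β : ν → ℕ} {i : ℕ} {φ : (ν → ℕ) → ℂ} (h : ∀ b, (∀ s, β s = i → b s = 0) → φ b = 0)
    (P : MvPolynomial ν ℂ) : Fn φ (rho β i P) = 0 := by
  have h1 : (Fn φ).comp (rho β i).toLinearMap = 0 := by
    refine mon_span _ fun b => ?_
    show Fn φ (rho β i (mon ℂ b)) = 0
    by_cases hb : ∀ s, β s = i → b s = 0
    · rw [rho_mon hb, Fn_mon, h b hb, mul_zero]
    · rw [rho_mon0 hb, map_zero]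
  exact LinearMap.congr_fun h1 P

theorem ext0_off {β : ν → ℕ} {D i : ℕ} {I : Finset ℕ} (hi : i ∈ I) (f : {a // a ∈ Ex β D I} → ℂ)
    {b : ν → ℕ} (hb : ∀ s, β s = i → b s = 0) : ext0 (Ex β D I) f b = 0 := by
  refine ext0_not f fun h => ?_
  obtain ⟨s, hs, h1⟩ := (mem_Ex.1 h).2 i hi
  exact h1 (hb s hs)

end

section

variable {ν ν' : Type} [Fintype ν] [DecidableEq ν] [Fintype ν'] [DecidableEq ν']

/-- The action of a linear map on the polynomials. -/
noncomputable def Sp (π : ν → ν' → ℂ) : MvPolynomial ν ℂ →ₐ[ℂ] MvPolynomial ν' ℂ :=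
  aeval fun s => lf (π s)

/-- The action of a linear map on the vectors. -/
def app (π : ν → ν' → ℂ) (p : ν → ℂ) (s' : ν') : ℂ := ∑ s, p s * π s s'

theorem Sp_lf (π : ν → ν' → ℂ) (p : ν → ℂ) : Sp π (lf p) = lf (app π p) := by
  have h1 : lf (app π p) = ∑ s, C (p s) * lf (π s) := by
    have h2 : ∀ s, C (p s) * lf (π s) = lf (fun s' => p s * π s s') := fun s => (lf_smul _ _).symm
    rw [sum_congr rfl fun s _ => h2 s, ← lf_sum]
    rfl
  rw [h1]
  conv_lhs => rw [lf]
  unfold Sp
  rw [map_sum]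
  refine sum_congr rfl fun s _ => ?_
  rw [map_mul, aeval_X, algHom_C]
  rfl

theorem app_sum {ι : Type} (π : ν → ν' → ℂ) (t : Finset ι) (p : ι → ν → ℂ) (s' : ν') :
    app π (fun s => ∑ x ∈ t, p x s) s' = ∑ x ∈ t, app π (p x) s' := by
  unfold app
  rw [sum_comm]
  exact sum_congr rfl fun s _ => sum_mul _ _ _

/-- Compatible with the blocks `< J`. -/
def Cpt (β : ν → ℕ) (β' : ν' → ℕ) (J : ℕ) (π : ν → ν' → ℂ) : Prop :=
  ∀ i < J, ∀ s s', β s ≠ i → β' s' = i → π s s' = 0

variable {β : ν → ℕ} {β' : ν' → ℕ} {J : ℕ} {π : ν → ν' → ℂ}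

theorem app_off (hπ : Cpt β β' J π) {i : ℕ} (hi : i < J) {p : ν → ℂ} (hp : ∀ s, β s = i → p s = 0)
    {s' : ν'} (hs : β' s' = i) : app π p s' = 0 := by
  unfold app
  refine sum_eq_zero fun s _ => ?_
  by_cases h : β s = i
  · rw [hp s h, zero_mul]
  · rw [hπ i hi s s' h hs, mul_zero]

/-- Polynomials off the block `i`. -/
theorem rho_Sp (hπ : Cpt β β' J π) {i : ℕ} (hi : i < J) {b : ν → ℕ}
    (hb : ∀ s, β s = i → b s = 0) : rho β' i (Sp π (mon ℂ b)) = Sp π (mon ℂ b) := by
  unfold mon Sp
  rw [map_prod, map_prod]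
  refine prod_congr rfl fun s _ => ?_
  rw [map_pow, aeval_X, map_pow]
  by_cases h : β s = i
  · rw [hb s h, pow_zero, pow_zero]
  · rw [rho_lf fun s' hs' => hπ i hi s s' h hs']

variable {d : ℕ}

/-- The image of a position. -/
noncomputable def pullP (β : ν → ℕ) (π : ν → ν' → ℂ) (k : Kd) (q : ν × Fin (d + 1) → ℂ)
    (z : ν' × Fin (d + 1)) : ℂ :=
  match k with
  | .ord e A => app π (pt β (.ord e A) 0 q) z.1
  | .cl e dl i As =>
      if z.2 = Fin.last d then app π (zz β i q) z.1 else app π (pt β (.cl e dl i As) z.2 q) z.1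

theorem ok_len {d J e dl i : ℕ} {As : List (Finset ℕ)} (hk : (Kd.cl e dl i As).Ok d J) :
    As.length ≤ d - 1 ∧ 1 ≤ d := by
  obtain ⟨he, hl, htr, hi, hAs⟩ := hk
  have h1 : As.length * 1 ≤ As.length * (e - 1) := Nat.mul_le_mul_left _ (by omega)
  unfold trx at htr
  omega

theorem pt_pull (hπ : Cpt β β' J π) (k : Kd) (hk : k.Ok d J) (q : ν × Fin (d + 1) → ℂ)
    (x : Fin (d + 1)) (hx : x.1 < k.nm) (s' : ν') :
    pt β' k x (pullP β π k q) s' = app π (pt β k x q) s' := by
  rcases k with ⟨e, A⟩ | ⟨e, dl, i, As⟩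
  · show (if β' s' ∈ A then 0 else app π (pt β (.ord e A) 0 q) s') = app π (pt β (.ord e A) 0 q) s'
    by_cases h : β' s' ∈ A
    · rw [if_pos h]
      symm
      refine app_off hπ (i := β' s') (mem_range.1 (hk.2.2 h)) (fun s hs => ?_) rfl
      simp only [pt, msk]
      rw [if_pos (hs ▸ h)]
    · rw [if_neg h]
  · have hlen := ok_len hk
    obtain ⟨he, hl, htr, hi, hAs⟩ := hk
    have hx' : x.1 < As.length := hx
    have hiA : ∀ A ∈ As, i ∉ A := fun A hA h => (mem_erase.1 (hAs A hA h)).1 rfl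
    have hne : ∀ y : Fin (d + 1), y.1 < As.length → y ≠ Fin.last d := by
      intro y hy h
      rw [h] at hy
      have : (Fin.last d).1 = d := rfl
      omega
    have hq : ∀ y : Fin (d + 1), y.1 < As.length → pullP β π (.cl e dl i As) q (s', y) =
        app π (pt β (.cl e dl i As) y q) s' := by
      intro y hy
      show (if y = Fin.last d then app π (zz β i q) s' else
        app π (pt β (.cl e dl i As) y q) s') = _
      rw [if_neg (hne y hy)]
    show (if β' s' ∈ As.getD x ∅ then (0 : ℂ) else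
      if β' s' = i ∧ x.1 + 1 = As.length then
        - ∑ y : Fin (d + 1), (if y.1 + 1 < As.length then pullP β π (.cl e dl i As) q (s', y) else 0)
      else pullP β π (.cl e dl i As) q (s', x)) = app π (pt β (.cl e dl i As) x q) s'
    by_cases h : β' s' ∈ As.getD x ∅
    · rw [if_pos h]
      symm
      have h1 : β' s' < J := by
        have h2 := hAs _ (getD_mem hx') h
        exact mem_range.1 (mem_of_mem_erase h2)
      refine app_off hπ h1 (fun s hs => ?_) rfl
      simp only [pt, msk]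
      rw [if_pos (hs ▸ h)]
    · rw [if_neg h]
      by_cases h2 : β' s' = i ∧ x.1 + 1 = As.length
      · rw [if_pos h2]
        have h3 : app π (uu β (.cl e dl i As) q) s' = 0 :=
          app_off hπ hi (fun s hs => uu_zero hl (by omega) hiA q hs) h2.1
        have h4 : app π (uu β (.cl e dl i As) q) s' = ∑ y : Fin (d + 1),
            ((if y.1 + 1 < As.length then pullP β π (.cl e dl i As) q (s', y) else 0) +
              (if y.1 + 1 = As.length then app π (pt β (.cl e dl i As) y q) s' else 0)) := by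
          have h5 := app_sum π (univ : Finset (Fin (d + 1))) (fun x s =>
            if x.1 < As.length then pt β (.cl e dl i As) x q s else 0) s'
          refine Eq.trans ?_ (h5.trans (sum_congr rfl fun y _ => ?_))
          · rfl
          · rcases Nat.lt_trichotomy (y.1 + 1) As.length with h7 | h7 | h7
            · rw [if_pos h7, if_neg h7.ne, add_zero, hq y (by omega)]
              congr 1
              funext s
              rw [if_pos (by omega)]
            · rw [if_neg (by omega), if_pos h7, zero_add]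
              congr 1
              funext s
              rw [if_pos (by omega)]
            · rw [if_neg (by omega), if_neg (by omega), zero_add]
              unfold app
              refine sum_eq_zero fun s _ => ?_
              simp only [if_neg (show ¬ y.1 < As.length by omega), zero_mul]
        rw [sum_add_distrib] at h4
        have h6 : ∑ y : Fin (d + 1), (if y.1 + 1 = As.length then
            app π (pt β (.cl e dl i As) y q) s' else 0) = app π (pt β (.cl e dl i As) x q) s' := by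
          rw [sum_eq_single x]
          · rw [if_pos h2.2]
          · intro y _ hy
            rw [if_neg]
            intro h8
            exact hy (Fin.ext (by omega))
          · intro h8
            exact absurd (mem_univ _) h8
        rw [h6, h3] at h4
        linear_combination h4
      · rw [if_neg h2, hq x hx']

theorem uu_pull (hπ : Cpt β β' J π) (k : Kd) (hk : k.Ok d J) (q : ν × Fin (d + 1) → ℂ) (s' : ν') :
    uu β' k (pullP β π k q) s' = app π (uu β k q) s' := by
  have h5 : app π (uu β k q) s' = ∑ x : Fin (d + 1),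
      app π (fun s => if x.1 < k.nm then pt β k x q s else 0) s' :=
    app_sum π (univ : Finset (Fin (d + 1))) (fun x s => if x.1 < k.nm then pt β k x q s else 0) s'
  rw [h5]
  show (∑ x : Fin (d + 1), if x.1 < k.nm then pt β' k x (pullP β π k q) s' else 0) = _
  refine sum_congr rfl fun x _ => ?_
  by_cases h : x.1 < k.nm
  · rw [if_pos h, pt_pull hπ k hk q x h]
    simp only [if_pos h]
  · rw [if_neg h]
    symm
    unfold app
    refine sum_eq_zero fun s _ => ?_
    simp only [if_neg h, zero_mul]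

theorem zz_pull {e dl i : ℕ} {As : List (Finset ℕ)} (q : ν × Fin (d + 1) → ℂ) (s' : ν') :
    zz β' i (pullP β π (.cl e dl i As) q) s' = if β' s' = i then app π (zz β i q) s' else 0 := by
  unfold zz
  by_cases h : β' s' = i
  · rw [if_pos h, if_pos h]
    show (if Fin.last d = Fin.last d then app π (zz β i q) s' else
      app π (pt β (.cl e dl i As) (Fin.last d) q) s') = _
    rw [if_pos rfl]
    rfl
  · rw [if_neg h, if_neg h]

/-- Pull back of the conditions. -/
theorem sat_pull (hπ : Cpt β β' J π) (k : Kd) (hk : k.Ok d J) (q : ν × Fin (d + 1) → ℂ)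
    {I : Finset ℕ} (Φ' : MvPolynomial ν' ℂ →ₗ[ℂ] ℂ) (h0 : ∀ i ∈ I, ∀ P, Φ' (rho β' i P) = 0)
    (h : Sat β' I k (pullP β π k q) Φ') : Sat β I k q (Φ'.comp (Sp π).toLinearMap) := by
  refine ⟨fun x hx y => ?_, ?_⟩
  · show Φ' (Sp π (lf (pt β k x q) ^ k.ex * y)) = 0
    rw [map_mul, map_pow, Sp_lf]
    have h1 := h.1 x hx (Sp π y)
    rw [show pt β' k x (pullP β π k q) = app π (pt β k x q) from
      funext fun s' => pt_pull hπ k hk q x hx s'] at h1
    exact h1
  · rcases k with ⟨e, A⟩ | ⟨e, dl, i, As⟩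
    · trivial
    · intro hi κ h1 h2 b hb
      have hiJ : i < J := hk.2.2.2.1
      have hlen := ok_len hk
      have hiA : ∀ A ∈ As, i ∉ A := fun A hA h => (mem_erase.1 (hk.2.2.2.2 A hA h)).1 rfl
      have hSb := h.2 hi
      set u' : ν' → ℂ := app π (uu β (.cl e dl i As) q) with hu'
      set r : ν' → ℂ := fun s' => if β' s' = i then 0 else app π (zz β i q) s' with hr
      set z' : ν' → ℂ := fun s' => if β' s' = i then app π (zz β i q) s' else 0 with hz'
      have hz : app π (zz β i q) = fun s' => z' s' + r s' := by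
        funext s'
        simp only [hr, hz']
        split_ifs
        · rw [add_zero]
        · rw [zero_add]
      have hu0 : ∀ s', β' s' = i → u' s' = 0 := fun s' hs' =>
        app_off hπ hiJ (fun s hs => uu_zero hk.2.1 (by omega) hiA q hs) hs'
      have hr0 : ∀ s', β' s' = i → r s' = 0 := fun s' hs' => by simp only [hr, if_pos hs']
      have hSb' : ∀ m, 1 ≤ m → m ≤ dl → ∀ P,
          Φ' (lf u' ^ (As.length * (e - 1)) * (lf z' ^ m * rho β' i P)) = 0 := by
        intro m hm1 hm2 P
        have h3 : Φ'.comp ((LinearMap.mulLeft ℂ (lf u' ^ (As.length * (e - 1)) * lf z' ^ m)).comp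
            (rho β' i).toLinearMap) = 0 := by
          refine mon_span _ fun b => ?_
          show Φ' (lf u' ^ (As.length * (e - 1)) * lf z' ^ m * rho β' i (mon ℂ b)) = 0
          by_cases hb : ∀ s, β' s = i → b s = 0
          · rw [rho_mon hb, mul_assoc]
            have h4 := hSb m hm1 hm2 b hb
            rw [show uu β' (.cl e dl i As) (pullP β π (.cl e dl i As) q) = u' from
              funext fun s' => uu_pull hπ _ hk q s',
              show zz β' i (pullP β π (.cl e dl i As) q) = z' from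
              funext fun s' => zz_pull q s'] at h4
            exact h4
          · rw [rho_mon0 hb, mul_zero, map_zero]
        have h4 := LinearMap.congr_fun h3 P
        rw [← mul_assoc]
        exact h4
      show Φ' (Sp π (lf (uu β (.cl e dl i As) q) ^ (As.length * (e - 1)) *
        (lf (zz β i q) ^ κ * mon ℂ b))) = 0
      have e0 : Sp π (lf (uu β (.cl e dl i As) q) ^ (As.length * (e - 1)) *
          (lf (zz β i q) ^ κ * mon ℂ b)) = lf u' ^ (As.length * (e - 1)) *
            ((lf z' + lf r) ^ κ * Sp π (mon ℂ b)) := by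
        rw [map_mul, map_pow, map_mul, map_pow, Sp_lf, Sp_lf, hz, lf_add]
      rw [e0, add_pow, sum_mul, mul_sum, map_sum]
      refine sum_eq_zero fun m hm => ?_
      rw [mem_range] at hm
      have e1 : rho β' i (lf r ^ (κ - m) * Sp π (mon ℂ b)) = lf r ^ (κ - m) * Sp π (mon ℂ b) := by
        rw [map_mul, map_pow, rho_lf hr0, rho_Sp hπ hiJ hb]
      rcases Nat.eq_zero_or_pos m with h3 | h3
      · have e2 : lf u' ^ (As.length * (e - 1)) * (lf z' ^ m * lf r ^ (κ - m) *
            ((κ.choose m : ℕ) : MvPolynomial ν' ℂ) * Sp π (mon ℂ b)) =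
            rho β' i (((κ.choose m : ℕ) : MvPolynomial ν' ℂ) * (lf u' ^ (As.length * (e - 1)) *
              (lf r ^ (κ - m) * Sp π (mon ℂ b)))) := by
          rw [map_mul, map_natCast, map_mul, e1, map_pow, rho_lf hu0, h3, pow_zero]
          ring
        rw [e2]
        exact h0 i hi _
      · have e2 : lf u' ^ (As.length * (e - 1)) * (lf z' ^ m * lf r ^ (κ - m) *
            ((κ.choose m : ℕ) : MvPolynomial ν' ℂ) * Sp π (mon ℂ b)) =
            lf u' ^ (As.length * (e - 1)) * (lf z' ^ m *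
              rho β' i (((κ.choose m : ℕ) : MvPolynomial ν' ℂ) *
                (lf r ^ (κ - m) * Sp π (mon ℂ b)))) := by
          rw [map_mul, map_natCast, e1]
          ring
        rw [e2]
        exact hSb' m h3 (by omega) _

/-! ### Pull back of solutions -/

/-- Pull back of the coefficients. -/
noncomputable def pullF (π : ν → ν' → ℂ) (φ : (ν' → ℕ) → ℂ) (a : ν → ℕ) : ℂ :=
  Fn φ (Sp π (mon ℂ a)) / (fac a : ℂ)

theorem Fn_pullF (π : ν → ν' → ℂ) (φ : (ν' → ℕ) → ℂ) :
    Fn (pullF π φ) = (Fn φ).comp (Sp π).toLinearMap := by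
  refine mon_ext fun b => ?_
  rw [Fn_mon]
  unfold pullF
  have h : (fac b : ℂ) ≠ 0 := Nat.cast_ne_zero.2 (fac_pos b).ne'
  rw [mul_div_cancel₀ _ h]
  rfl

/-- The functional of a form of degree `D` kills the polynomials of other degrees. -/
theorem Fn_homog {D m : ℕ} {A : Finset (ν → ℕ)} (hA : ∀ a ∈ A, ∑ s, a s = D)
    (f : {a // a ∈ A} → ℂ) {P : MvPolynomial ν ℂ} (hP : P.IsHomogeneous m) (hm : m ≠ D) :
    Fn (ext0 A f) P = 0 := by
  have h1 : P = ∑ b ∈ P.support, monomial b (coeff b P) := (support_sum_monomial_coeff P).symm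
  rw [h1, map_sum]
  refine sum_eq_zero fun b hb => ?_
  have h2 : monomial b (coeff b P) = C (coeff b P) * mon ℂ (b : ν → ℕ) := by
    rw [mon_eq, Finsupp.equivFunOnFinite_symm_coe, C_mul_monomial, mul_one]
  rw [h2, C_mul_eq_smul, (Fn (ext0 A f)).map_smul, Fn_mon, ext0_not f, mul_zero, smul_zero]
  intro h3
  have h4 := hA _ h3
  have h5 := hP (mem_support_iff.1 hb)
  rw [Finsupp.weight_apply, Finsupp.sum_fintype _ _ (by simp)] at h5
  simp only [Pi.one_apply, smul_eq_mul, mul_one] at h5
  exact hm (h5.symm.trans h4)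

theorem Sp_homog (π : ν → ν' → ℂ) (a : ν → ℕ) : (Sp π (mon ℂ a)).IsHomogeneous (∑ s, a s) := by
  unfold mon Sp
  rw [map_prod]
  refine IsHomogeneous.prod _ _ _ fun s _ => ?_
  rw [map_pow, aeval_X]
  have h : (lf (π s)).IsHomogeneous 1 := by
    unfold lf
    refine IsHomogeneous.sum _ _ _ fun s' _ => ?_
    have h1 := (isHomogeneous_C ν' (π s s')).mul (isHomogeneous_X ℂ s')
    rwa [zero_add] at h1
  have h2 := h.pow (a s)
  rwa [one_mul] at h2

theorem pullF_supp (hπ : Cpt β β' J π) {D : ℕ} {I : Finset ℕ} (hI : I ⊆ range J)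
    (f : {a // a ∈ Ex β' D I} → ℂ) {a : ν → ℕ} (ha : a ∉ Ex β D I) :
    pullF π (ext0 (Ex β' D I) f) a = 0 := by
  unfold pullF
  suffices h : Fn (ext0 (Ex β' D I) f) (Sp π (mon ℂ a)) = 0 by rw [h, zero_div]
  by_cases h1 : ∑ s, a s = D
  · have h2 : ∃ i ∈ I, ∀ s, β s = i → a s = 0 := by
      by_contra h2
      push Not at h2
      exact ha (mem_Ex.2 ⟨h1, h2⟩)
    obtain ⟨i, hi, h2⟩ := h2
    rw [← rho_Sp hπ (mem_range.1 (hI hi)) h2]
    exact Fn_rho (fun b hb => ext0_off hi f hb) _
  · exact Fn_homog (fun _ h => Ex_sum h) f (Sp_homog π a) h1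

/-- Pull back of solutions. -/
noncomputable def pullL (β : ν → ℕ) (β' : ν' → ℕ) (D : ℕ) (I : Finset ℕ) (π : ν → ν' → ℂ) :
    ({a // a ∈ Ex β' D I} → ℂ) →ₗ[ℂ] ({a // a ∈ Ex β D I} → ℂ) where
  toFun f a := pullF π (ext0 (Ex β' D I) f) a.1
  map_add' f g := by
    funext a
    have h : Fn (ext0 (Ex β' D I) (f + g)) =
        Fn (ext0 (Ex β' D I) f) + Fn (ext0 (Ex β' D I) g) := by
      refine mon_ext fun b => ?_
      rw [LinearMap.add_apply, Fn_mon, Fn_mon, Fn_mon]
      unfold ext0
      split_ifs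
      · rw [Pi.add_apply]
        ring
      · ring
    unfold pullF
    rw [Pi.add_apply, h, LinearMap.add_apply, add_div]
  map_smul' r f := by
    funext a
    have h : Fn (ext0 (Ex β' D I) (r • f)) = r • Fn (ext0 (Ex β' D I) f) := by
      refine mon_ext fun b => ?_
      rw [LinearMap.smul_apply, Fn_mon, Fn_mon, smul_eq_mul]
      unfold ext0
      split_ifs
      · rw [Pi.smul_apply, smul_eq_mul]
        ring
      · ring
    unfold pullF
    rw [RingHom.id_apply, Pi.smul_apply, h, LinearMap.smul_apply, smul_eq_mul, smul_eq_mul,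
      mul_div_assoc]

theorem ext0_pullL (hπ : Cpt β β' J π) {D : ℕ} {I : Finset ℕ} (hI : I ⊆ range J)
    (f : {a // a ∈ Ex β' D I} → ℂ) :
    ext0 (Ex β D I) (pullL β β' D I π f) = pullF π (ext0 (Ex β' D I) f) := by
  funext a
  by_cases ha : a ∈ Ex β D I
  · exact ext0_mem _ ⟨a, ha⟩
  · rw [ext0_not _ ha, pullF_supp hπ hI f ha]

theorem Fn_pullL (hπ : Cpt β β' J π) {D : ℕ} {I : Finset ℕ} (hI : I ⊆ range J)
    (f : {a // a ∈ Ex β' D I} → ℂ) :
    Fn (ext0 (Ex β D I) (pullL β β' D I π f)) =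
      (Fn (ext0 (Ex β' D I) f)).comp (Sp π).toLinearMap := by
  rw [ext0_pullL hπ hI, Fn_pullF]

/-- The pull back of a solution at the image of a position is a solution. -/
theorem pullL_mem (hπ : Cpt β β' J π) {D : ℕ} (hD : D ≤ d) {I : Finset ℕ} (hI : I ⊆ range J)
    {κ : Type} (m : κ → Kd) (hm : ∀ i, (m i).Ok d J) (p : κ → ν × Fin (d + 1) → ℂ)
    (f : {a // a ∈ Ex β' D I} → ℂ)
    (hf : f ∈ (LS d D β' I).V m fun i => pullP β π (m i) (p i)) :
    pullL β β' D I π f ∈ (LS d D β I).V m p := by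
  rw [mem_LS hD] at hf ⊢
  intro i
  rw [Fn_pullL hπ hI]
  exact sat_pull hπ (m i) (hm i) (p i) _ (fun i hi P => Fn_rho (fun b hb => ext0_off hi f hb) P)
    (hf i)

end

end Pool.Agent.GD
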