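import Pool.Agent.GD.AL.KillB
import Pool.Agent.GD.AL.VdP
import Pool.Agent.GD.AL.Mono
import Pool.Agent.GD.AL.Up
import Pool.Agent.GD.ST.Ctr

/-!
# General d, ALPHA: states

A state: the sizes of the blocks `0, …, J - 1` (they may be zero), the number `w` of the other variables and
the configuration.  `H`, `V` = the general and the virtual dimension, `dl = H - V`, `Ex` = exactness.
`nz c0 n0 I D` = the natural size with the reference sizes `c0`, `n0`.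
-/

set_option autoImplicit false

namespace Pool.Agent.GD.AL

open Finset

/-- The variables: blocks of the sizes `c 0, …, c (J - 1)` and `w` further ones. -/
abbrev Vr (J : ℕ) (c : ℕ → ℕ) (w : ℕ) : Type := (Σ l : Fin J, Fin (c l)) ⊕ Fin w

/-- The block of a variable. -/
def bt (J : ℕ) (c : ℕ → ℕ) (w : ℕ) : Vr J c w → ℕ
  | .inl x => x.1
  | .inr _ => J

/-- A state. -/
structure St where
  c : ℕ → ℕ
  w : ℕ
  ms : Multiset Kd

/-- The number of the variables. -/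
def St.n (J : ℕ) (σ : St) : ℕ := ∑ l ∈ range J, σ.c l + σ.w

/-- The general dimension. -/
noncomputable def St.H (d J : ℕ) (σ : St) (I : Finset ℕ) (D : ℕ) : ℕ := HI d D (bt J σ.c σ.w) I σ.ms

/-- The virtual dimension. -/
noncomputable def St.V (J : ℕ) (σ : St) (I : Finset ℕ) (D : ℕ) : ℤ := vd D I σ.c (σ.n J) σ.ms

/-- The defect. -/
noncomputable def St.dl (d J : ℕ) (σ : St) (I : Finset ℕ) (D : ℕ) : ℤ := (σ.H d J I D : ℤ) - σ.V J I D

/-- Exactness. -/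
def St.Ex (d J : ℕ) (σ : St) (I : Finset ℕ) (D : ℕ) : Prop := (σ.H d J I D : ℤ) = σ.V J I D

/-- One more object. -/
def St.ad (σ : St) (k : Kd) : St := ⟨σ.c, σ.w, k ::ₘ σ.ms⟩

/-- The block `a` smaller by `t`. -/
def St.lo (σ : St) (a t : ℕ) : St := ⟨Function.update σ.c a (σ.c a - t), σ.w, σ.ms⟩

/-- `s` of the other variables less. -/
def St.lw (σ : St) (s : ℕ) : St := ⟨σ.c, σ.w - s, σ.ms⟩

/-- Other objects. -/
def St.wm (σ : St) (ms : Multiset Kd) : St := ⟨σ.c, σ.w, ms⟩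

/-- The ordinary objects with `|K| ≤ x`, `K` the complement of `A`. -/
def AdmO (d J : ℕ) (k : Kd) : Prop :=
  ∃ x A, k = .ord x A ∧ 1 ≤ x ∧ x ≤ d ∧ A ⊆ range J ∧ (range J \ A).card ≤ x

/-- The natural size. -/
noncomputable def nz (c0 : ℕ → ℕ) (n0 : ℕ) (I : Finset ℕ) (D : ℕ) : ℝ :=
  (∏ i ∈ I, (c0 i : ℝ)) * (n0 : ℝ) ^ (D - I.card)

/-- Positivity at the pairs `(I', D')`, `I' ⊆ I`, `D' + |I \ I'| ≤ D`. -/
def Pos (J : ℕ) (c0 : ℕ → ℕ) (n0 : ℕ) (η : ℝ) (σ : St) (I : Finset ℕ) (D : ℕ) : Prop :=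
  ∀ I' ⊆ I, ∀ D' : ℕ, I'.card ≤ D' → D' + (I \ I').card ≤ D →
    η * nz c0 n0 I' D' ≤ (σ.V J I' D' : ℝ)

/-- The same for `D' < D`. -/
def PosL (J : ℕ) (c0 : ℕ → ℕ) (n0 : ℕ) (η : ℝ) (σ : St) (I : Finset ℕ) (D : ℕ) : Prop :=
  ∀ I' ⊆ I, ∀ D' : ℕ, I'.card ≤ D' → D' < D → D' + (I \ I').card ≤ D →
    η * nz c0 n0 I' D' ≤ (σ.V J I' D' : ℝ)

/-- Exactness at the lower pairs. -/
def ExL (d J : ℕ) (σ : St) (I : Finset ℕ) (D : ℕ) : Prop :=
  ∀ I' ⊆ I, ∀ D' : ℕ, D' < D → D' + (I \ I').card ≤ D → σ.Ex d J I' D'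

/-- The sizes of a state with ordinary objects. -/
structure InO (d J : ℕ) (c0 : ℕ → ℕ) (n0 : ℕ) (ϖ : ℝ) (I : Finset ℕ) (σ : St) : Prop where
  c : ∀ l, σ.c l ≤ c0 l
  c' : ∀ l ∈ I, ϖ * c0 l ≤ (σ.c l : ℝ)
  n : σ.n J ≤ n0
  w : ϖ * n0 ≤ (σ.w : ℝ)
  adm : ∀ k ∈ σ.ms, AdmO d J k

/-- The reference sizes are large. -/
structure Big (d J : ℕ) (c0 : ℕ → ℕ) (n0 : ℕ) (I : Finset ℕ) (K : ℝ) : Prop where
  c : ∀ l ∈ I, K ≤ (c0 l : ℝ)
  n : K * (1 + ∑ l ∈ range J, (c0 l : ℝ)) ^ (d + 1) ≤ (n0 : ℝ)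

/-- The defects at smaller degrees vanish for the states of a class with positive virtual dimensions. -/
def Orc (d J : ℕ) (c0 : ℕ → ℕ) (n0 : ℕ) (G : Multiset Kd → Prop) (I : Finset ℕ) (D : ℕ) (η ϖ : ℝ) : Prop :=
  ∀ σ : St, InO d J c0 n0 ϖ I σ → G σ.ms → ∀ I' ⊆ I, ∀ D' < D, Pos J c0 n0 η σ I' D' →
    σ.Ex d J I' D'

section basic

variable {d J D : ℕ}

@[simp] theorem bt_inl (c : ℕ → ℕ) (w : ℕ) (x : Σ l : Fin J, Fin (c l)) : bt J c w (.inl x) = x.1 := rfl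

@[simp] theorem bt_inr (c : ℕ → ℕ) (w : ℕ) (x : Fin w) : bt J c w (.inr x) = J := rfl

theorem card_Vr (c : ℕ → ℕ) (w : ℕ) : Fintype.card (Vr J c w) = ∑ l ∈ range J, c l + w := by
  rw [Fintype.card_sum, Fintype.card_sigma, Fintype.card_fin]
  simp only [Fintype.card_fin]
  rw [Fin.sum_univ_eq_sum_range]

theorem card_bt (c : ℕ → ℕ) (w : ℕ) {i : ℕ} (hi : i < J) :
    (univ.filter fun s : Vr J c w => bt J c w s = i).card = c i := by
  classical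
  have h1 : (univ.filter fun s : Vr J c w => bt J c w s = i) =
      (univ : Finset (Fin (c i))).map ⟨fun x => (.inl ⟨⟨i, hi⟩, x⟩ : Vr J c w), fun x y h => by
        simpa using h⟩ := by
    ext s
    rw [mem_filter, mem_map]
    constructor
    · rintro ⟨-, hs⟩
      rcases s with ⟨⟨l, hl⟩, x⟩ | x
      · have h2 : l = i := hs
        subst h2
        exact ⟨x, mem_univ _, rfl⟩
      · exact absurd hs (Nat.ne_of_gt hi)
    · rintro ⟨x, -, rfl⟩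
      exact ⟨mem_univ _, rfl⟩
  rw [h1, card_map, card_univ, Fintype.card_fin]

theorem ok_blk {k : Kd} (h : k.Ok d J) : k.Blk J := by
  rcases k with ⟨e, A⟩ | ⟨e, dl, i, As⟩
  · exact h.2.2
  · exact ⟨h.2.2.2.1, fun A hA => (h.2.2.2.2 A hA).trans (erase_subset _ _)⟩

theorem AdmO.ok {k : Kd} (h : AdmO d J k) : k.Ok d J := by
  obtain ⟨x, A, rfl, h1, h2, h3, -⟩ := h
  exact ⟨h1, h2, h3⟩

/-- The general dimension for any variables with the same sizes. -/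
theorem St.H_eq {ν : Type} [Fintype ν] [DecidableEq ν] (hD : D ≤ d) (β : ν → ℕ) (σ : St)
    (h0 : Fintype.card ν = σ.n J)
    (h : ∀ i < J, (univ.filter fun s => β s = i).card = σ.c i) {I : Finset ℕ} (hI : I ⊆ range J)
    (hm : ∀ k ∈ σ.ms, k.Blk J) : HI d D β I σ.ms = σ.H d J I D := by
  refine HI_size hD ?_ ?_ hI σ.ms hm
  · rw [h0, card_Vr]
    rfl
  · intro i hi
    rw [h i hi, card_bt _ _ hi]

theorem St.n_lo (σ : St) {a t : ℕ} (ha : a < J) (ht : t ≤ σ.c a) :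
    (σ.lo a t).n J + t = σ.n J := by
  unfold St.n St.lo
  have h1 := sum_update_of_mem (mem_range.2 ha) σ.c (σ.c a - t)
  have h2 := add_sum_erase (range J) σ.c (mem_range.2 ha)
  simp only
  rw [h1, sdiff_singleton_eq_erase]
  omega

theorem St.n_lw (σ : St) {s : ℕ} (hs : s ≤ σ.w) : (σ.lw s).n J + s = σ.n J := by
  unfold St.n St.lw
  simp only
  omega

end basic

end Pool.Agent.GD.AL
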