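import Pool.Agent.GD.AL.CDef
import Pool.Agent.GD.N.Cmb
import Pool.Agent.GD.N.Va

/-!
# General d, ALPHA: numbers for the target (weights of the clusters of a class, ordinary points)
-/

set_option autoImplicit false

namespace Pool.Agent.GD.AL

open Finset

private theorem sn_foldr (f : Finset ℕ → ℝ) (As : List (Finset ℕ)) {A : Finset ℕ} (hA : A ∈ As) :
    (As.map f).foldr min 1 ≤ f A := by
  induction As with
  | nil => exact absurd hA List.not_mem_nil
  | cons B As ih =>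
    rw [List.map_cons, List.foldr_cons]
    rcases List.mem_cons.1 hA with rfl | h
    · exact min_le_left _ _
    · exact (min_le_right _ _).trans (ih h)

private theorem sn_foldr_nonneg (f : Finset ℕ → ℝ) (hf : ∀ A, 0 ≤ f A) (As : List (Finset ℕ)) :
    0 ≤ (As.map f).foldr min 1 := by
  induction As with
  | nil => exact zero_le_one
  | cons B As ih =>
    rw [List.map_cons, List.foldr_cons]
    exact le_min (hf B) ih

private theorem sn_om_nonneg (c : ℕ → ℕ) (n j : ℕ) (k : Kd) : 0 ≤ om c n j k := by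
  cases k with
  | ord x A => exact le_refl _
  | cl e dl i As =>
    unfold om
    dsimp only
    split_ifs
    · positivity
    · exact sn_foldr_nonneg _ (fun A => by unfold rl; positivity) As

private theorem sn_rl {c : ℕ → ℕ} {n e : ℕ} (hn : 1 ≤ n) {T : Finset ℕ} (hc : ∀ l ∈ T, 1 ≤ c l) {w : ℕ}
    (hw : w ≤ e - 1 - T.card) : rl c n e T ≤ 1 / (n : ℝ) ^ w := by
  have hn0 : (1 : ℝ) ≤ n := by exact_mod_cast hn
  unfold rl
  apply one_div_le_one_div_of_le (by positivity)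
  have h1 : (1 : ℝ) ≤ ∏ l ∈ T, (c l : ℝ) := by
    have h2 : 1 ≤ ∏ l ∈ T, c l := Finset.one_le_prod' hc
    exact_mod_cast h2
  calc (n : ℝ) ^ w ≤ (n : ℝ) ^ (e - 1 - T.card) := pow_le_pow_right₀ hn0 hw
    _ = 1 * (n : ℝ) ^ (e - 1 - T.card) := (one_mul _).symm
    _ ≤ _ := mul_le_mul_of_nonneg_right h1 (by positivity)

private theorem sn_om_le {c : ℕ → ℕ} {n j e dl i w : ℕ} {As : List (Finset ℕ)} (hn : 1 ≤ n)
    (hi : 1 ≤ c i) (hw : w ≤ e - 1) {A : Finset ℕ} (hA : A ∈ As)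
    (hT : rl c n e ((range j).erase i \ A) ≤ 1 / (n : ℝ) ^ w) :
    om c n j (.cl e dl i As) ≤ 1 / (n : ℝ) ^ w := by
  have hn0 : (1 : ℝ) ≤ n := by exact_mod_cast hn
  unfold om
  dsimp only
  split_ifs
  · apply one_div_le_one_div_of_le (by positivity)
    have h1 : (1 : ℝ) ≤ c i := by exact_mod_cast hi
    calc (n : ℝ) ^ w ≤ (n : ℝ) ^ (e - 1) := pow_le_pow_right₀ hn0 hw
      _ = 1 * (n : ℝ) ^ (e - 1) := (one_mul _).symm
      _ ≤ _ := mul_le_mul_of_nonneg_right h1 (by positivity)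
  · exact (sn_foldr _ As hA).trans hT

private theorem sn_mem_mbs {i j k : ℕ} (hk : 1 ≤ k) (S : Finset ℕ) :
    (range j).erase i \ S ∈ mbs i j k S := by
  unfold mbs
  split_ifs with h
  · exact List.mem_singleton.2 rfl
  · refine List.mem_cons_of_mem _ ?_
    rw [List.mem_replicate]
    exact ⟨by omega, rfl⟩

/-- The weights of the clusters which are not of the type `pl k ∅`. -/
private theorem sn_term {c : ℕ → ℕ} {n d e i j : ℕ} (he : 2 ≤ e) (hj : j ≤ d - e) (hi : i < j)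
    (hc : ∀ l < j, 1 ≤ c l) (hn : 1 ≤ n) {τ : CT} (hτ : τ.Ok d e i j) (hne : ∀ k, τ ≠ .pl k ∅) :
    om c n j (τ.kd d e i j) ≤ 1 / (n : ℝ) ^ (τ.w e + 1) := by
  cases τ with
  | pl k S =>
    obtain ⟨h1, -, h3, h4⟩ := hτ
    have hS : S ≠ ∅ := fun h => hne k (by rw [h])
    have hS1 : 1 ≤ S.card := Finset.card_pos.2 (nonempty_iff_ne_empty.2 hS)
    have hw : (CT.pl k S).w e + 1 ≤ e - 1 := by
      show e - 1 - S.card + 1 ≤ e - 1
      omega
    refine sn_om_le (A := (range j).erase i) hn (hc i hi) hw ?_ ?_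
    · show (range j).erase i ∈ mbs i j k S
      unfold mbs
      rw [if_neg (by omega)]
      exact List.mem_cons_self
    · rw [sdiff_self]
      refine sn_rl hn (fun l hl => absurd hl (notMem_empty l)) ?_
      exact hw
  | b0 S =>
    obtain ⟨h1, h3, h4⟩ := hτ
    have hS : S ⊆ (range j).erase i := fun x hx => by
      have := mem_Ico.1 (h3 hx)
      rw [mem_erase, mem_range]
      omega
    have hq : 1 ≤ (d - i - 1) / (e - 1) := (Nat.one_le_div_iff (by omega)).2 (by omega)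
    have hSe : S.card < e - 1 := by omega
    have hw : (CT.b0 S).w e + 1 = e - 1 - S.card := by
      show e - 2 - S.card + 1 = e - 1 - S.card
      omega
    refine sn_om_le (A := (range j).erase i \ S) hn (hc i hi) (by omega) (sn_mem_mbs hq S) ?_
    rw [sdiff_sdiff_right_self, inf_eq_inter, inter_eq_right.2 hS]
    exact sn_rl hn (fun l hl => hc l (mem_range.1 (erase_subset _ _ (hS hl)))) hw.le
  | br r =>
    obtain ⟨h1, h2⟩ := hτ
    have he1 : 0 < e - 1 := by omega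
    obtain ⟨k, hk⟩ : ∃ k, k = (d - i + r - 1) / (e - 1) := ⟨_, rfl⟩
    have hk1 : 1 ≤ k := by
      rw [hk]
      exact (Nat.one_le_div_iff he1).2 (by omega)
    have hk2 : d - i + r - 1 < (e - 1) * (k + 1) := by
      rw [hk]
      exact Nat.lt_mul_div_succ _ he1
    have hk3 : r + 1 ≤ k * (e - 1) := by
      have h3 : (e - 1) * (k + 1) = k * (e - 1) + (e - 1) := by ring
      omega
    obtain ⟨s, rfl⟩ : ∃ s, k = s + 1 := ⟨k - 1, by omega⟩
    refine sn_om_le (A := (range j).erase i \ (Ico (s * (e - 1)) ((s + 1) * (e - 1)) ∩ range r)) hn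
      (hc i hi) (show 0 + 1 ≤ e - 1 by omega) ?_ ?_
    · show _ ∈ mbr i j ((d - i + r - 1) / (e - 1)) e r
      rw [← hk]
      unfold mbr
      exact List.mem_map.2 ⟨s, List.mem_range.2 (Nat.lt_succ_self s), rfl⟩
    · refine sn_rl hn (fun l hl => hc l (mem_range.1 (erase_subset _ _ (sdiff_subset hl)))) ?_
      have h4 : ((range j).erase i \ ((range j).erase i \
          (Ico (s * (e - 1)) ((s + 1) * (e - 1)) ∩ range r))).card ≤ e - 2 := by
        rw [sdiff_sdiff_right_self, inf_eq_inter]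
        refine (card_le_card inter_subset_right).trans ?_
        refine (card_le_card (t := Ico (s * (e - 1)) r) fun x hx => ?_).trans ?_
        · rw [Finset.mem_inter, mem_Ico, mem_range] at hx
          exact mem_Ico.2 ⟨hx.1.1, hx.2⟩
        · rw [Nat.card_Ico]
          have h5 : (s + 1) * (e - 1) = s * (e - 1) + (e - 1) := by ring
          omega
      show 0 + 1 ≤ _
      omega

private theorem sn_pl {c : ℕ → ℕ} {n d e i j k : ℕ} (hk : (CT.pl k ∅).Ok d e i j) :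
    om c n j ((CT.pl k ∅).kd d e i j) = 1 / ((c i : ℝ) * (n : ℝ) ^ (e - 1)) := by
  obtain ⟨h1, -⟩ := hk
  show om c n j (.cl e 0 i (mbs i j k ∅)) = _
  unfold om
  dsimp only
  rw [if_pos]
  have h2 : mbs i j k ∅ = (range j).erase i :: List.replicate (k - 1) ((range j).erase i) := by
    unfold mbs
    rw [if_neg (by omega), sdiff_empty]
  rw [h2]
  refine ⟨rfl, ?_, fun A hA => ?_⟩
  · rw [List.length_cons, List.length_replicate]
    omega
  · rcases List.mem_cons.1 hA with h | h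
    · exact h
    · exact (List.mem_replicate.1 h).2

private theorem sn_sum {β : Type} (ms : Multiset Kd) (t : Finset β) (kd : β → Kd) (f : Kd → ℝ)
    (hf : ∀ k ∈ ms, f k ≤ ∑ p ∈ t, if k = kd p then f (kd p) else 0) :
    (ms.map f).sum ≤ ∑ p ∈ t, (ms.count (kd p) : ℝ) * f (kd p) := by
  induction ms using Multiset.induction_on with
  | empty => simp
  | cons k ms ih =>
    have h1 := ih fun k hk => hf k (Multiset.mem_cons_of_mem hk)
    have h2 := hf k (Multiset.mem_cons_self k ms)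
    rw [Multiset.map_cons, Multiset.sum_cons]
    calc f k + (ms.map f).sum ≤ (∑ p ∈ t, if k = kd p then f (kd p) else 0) +
          ∑ p ∈ t, (ms.count (kd p) : ℝ) * f (kd p) := add_le_add h2 h1
      _ = ∑ p ∈ t, ((k ::ₘ ms).count (kd p) : ℝ) * f (kd p) := by
          rw [← sum_add_distrib]
          refine sum_congr rfl fun p _ => ?_
          rw [Multiset.count_cons]
          by_cases h : k = kd p
          · rw [if_pos h, if_pos h.symm]
            push_cast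
            ring
          · rw [if_neg h, if_neg (Ne.symm h)]
            push_cast
            ring

private theorem sn_cnt {α : Type} [DecidableEq α] (ms : Multiset α) (a : α) (c : ℕ) :
    (ms.map fun k => if k = a then c else 0).sum = ms.count a * c := by
  induction ms using Multiset.induction_on with
  | empty => simp
  | cons b ms ih =>
    rw [Multiset.map_cons, Multiset.sum_cons, ih, Multiset.count_cons]
    by_cases h : b = a
    · rw [if_pos h, if_pos h.symm]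
      ring
    · rw [if_neg h, if_neg fun h' => h h'.symm]
      ring

private theorem sn_swap {α β : Type} (ms : Multiset α) (t : Finset β) (f : α → β → ℕ) :
    (ms.map fun k => ∑ p ∈ t, f k p).sum = ∑ p ∈ t, (ms.map fun k => f k p).sum := by
  induction ms using Multiset.induction_on with
  | empty => simp
  | cons b ms ih =>
    rw [Multiset.map_cons, Multiset.sum_cons, ih, ← sum_add_distrib]
    refine sum_congr rfl fun p _ => ?_
    rw [Multiset.map_cons, Multiset.sum_cons]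

/-- the points of a kind are ordinary points and members of the old clusters -/
private theorem sn_npt {P : Par} {j n : ℕ} (hjd : j ≤ P.d) {ms : Multiset Kd} (hc : Cls P j n ms)
    (x : ℕ) (A : Finset ℕ) : npt ms x A ≤ ms.count (.ord x A) +
      ∑ p ∈ oldT P.d P.e j, ms.count (p.2.kd P.d P.e p.1 j) * (p.2.kd P.d P.e p.1 j).pts.count (x, A) := by
  have h1 : npt ms x A = (ms.map fun k => k.pts.count (x, A)).sum := by
    unfold npt
    rw [Multiset.count_bind]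
  have h2 : ∀ k ∈ ms, k.pts.count (x, A) ≤ (if k = .ord x A then 1 else 0) +
      ∑ p ∈ oldT P.d P.e j, if k = p.2.kd P.d P.e p.1 j then
        (p.2.kd P.d P.e p.1 j).pts.count (x, A) else 0 := by
    intro k hk
    rcases hc.mem k hk with ⟨x', A', rfl, -⟩ | ⟨i, hi, τ, hτ, rfl⟩
    · refine le_add_right ?_
      show Multiset.count (x, A) {(x', A')} ≤ _
      rw [Multiset.count_singleton]
      by_cases h : (x, A) = (x', A')
      · obtain ⟨rfl, rfl⟩ := Prod.mk.inj h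
        rw [if_pos rfl, if_pos rfl]
      · rw [if_neg h]
        exact Nat.zero_le _
    · refine le_add_left ?_
      have h3 : (i, τ) ∈ oldT P.d P.e j := (mem_oldT hjd).2 ⟨hi, hτ⟩
      refine le_trans ?_ (single_le_sum (f := fun p : ℕ × CT =>
        if τ.kd P.d P.e i j = p.2.kd P.d P.e p.1 j then
        (p.2.kd P.d P.e p.1 j).pts.count (x, A) else 0) (fun _ _ => Nat.zero_le _) h3)
      show _ ≤ (if τ.kd P.d P.e i j = τ.kd P.d P.e i j then _ else _)
      rw [if_pos rfl]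
  rw [h1]
  refine (Multiset.sum_map_le_sum_map _ _ h2).trans (le_of_eq ?_)
  rw [Multiset.sum_map_add, sn_cnt, mul_one, sn_swap]
  congr 1
  exact sum_congr rfl fun p _ => sn_cnt _ _ _

/-- The number of the types on all levels. -/
private noncomputable def snL (d e : ℕ) : ℕ := ∑ j ∈ range (d + 1), (oldT d e j).card

private theorem sn_L {d e j : ℕ} (hj : j ≤ d) : (oldT d e j).card ≤ snL d e :=
  single_le_sum (f := fun j => (oldT d e j).card) (fun _ _ => Nat.zero_le _) (mem_range.2 (Nat.lt_succ_of_le hj))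

/-- One term of the sum of the weights. -/
private theorem sn_one {P : Par} {j n : ℕ} (he : 2 ≤ P.e) (hj : j ≤ P.J) (hK : ∀ l < P.J, 1 ≤ P.c l)
    (hn : 1 ≤ n) {ms : Multiset Kd} (hc : Cls P j n ms) {K : ℝ} (hK0 : 0 < K) (hK' : ∀ l < P.J, K ≤ P.c l)
    {p : ℕ × CT} (hp : p ∈ oldT P.d P.e j) (hjd : j ≤ P.d) :
    (ms.count (p.2.kd P.d P.e p.1 j) : ℝ) * om P.c n j (p.2.kd P.d P.e p.1 j) ≤
      (P.M : ℝ) / K + (p.2.mm P : ℝ) / n := by
  obtain ⟨i, τ⟩ := p
  obtain ⟨hi, hτ⟩ := (mem_oldT hjd).1 hp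
  have hn0 : (0 : ℝ) < n := by exact_mod_cast hn
  have h1 : (ms.count (τ.kd P.d P.e i j) : ℝ) ≤ (τ.mm P : ℝ) * (n : ℝ) ^ τ.w P.e := by
    exact_mod_cast hc.cnt i hi τ hτ
  show (ms.count (τ.kd P.d P.e i j) : ℝ) * om P.c n j (τ.kd P.d P.e i j) ≤ (P.M : ℝ) / K + (τ.mm P : ℝ) / n
  have h0 := sn_om_nonneg P.c n j (τ.kd P.d P.e i j)
  by_cases hne : ∃ k, τ = .pl k ∅
  · obtain ⟨k, rfl⟩ := hne
    have h2 : (((CT.pl k ∅).mm P : ℕ) : ℝ) = P.M := by
      show ((P.M * P.d ^ (∅ : Finset ℕ).card * P.cc ∅ : ℕ) : ℝ) = P.M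
      unfold Par.cc
      rw [card_empty, pow_zero, mul_one, prod_empty, mul_one]
    have h3 : (CT.pl k ∅).w P.e = P.e - 1 := by
      show P.e - 1 - (∅ : Finset ℕ).card = _
      rw [card_empty, Nat.sub_zero]
    have hci : K ≤ P.c i := hK' i (hi.trans_le hj)
    have hci0 : (0 : ℝ) < P.c i := hK0.trans_le hci
    rw [h3, h2] at h1
    rw [sn_pl hτ] at h0 ⊢
    calc _ ≤ ((P.M : ℝ) * (n : ℝ) ^ (P.e - 1)) * (1 / ((P.c i : ℝ) * (n : ℝ) ^ (P.e - 1))) :=
          mul_le_mul_of_nonneg_right h1 h0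
      _ = (P.M : ℝ) / P.c i := by
          have h4 : (n : ℝ) ^ (P.e - 1) ≠ 0 := by positivity
          field_simp
      _ ≤ (P.M : ℝ) / K := div_le_div_of_nonneg_left (Nat.cast_nonneg _) hK0 hci
      _ ≤ _ := le_add_of_nonneg_right (by positivity)
  · have hne' : ∀ k, τ ≠ .pl k ∅ := fun k h => hne ⟨k, h⟩
    have h2 := sn_term he hj hi (fun l hl => hK l (hl.trans_le hj)) hn hτ hne'
    calc _ ≤ ((τ.mm P : ℝ) * (n : ℝ) ^ τ.w P.e) * (1 / (n : ℝ) ^ (τ.w P.e + 1)) :=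
          mul_le_mul h1 h2 h0 (by positivity)
      _ = (τ.mm P : ℝ) / n := by
          rw [pow_succ]
          have h4 : (n : ℝ) ^ (τ.w P.e) ≠ 0 := by positivity
          field_simp
      _ ≤ _ := le_add_of_nonneg_left (by positivity)

/-- The weights of the clusters of a class are small. -/
theorem om_cls (d e M : ℕ) (he : 2 ≤ e) (hed : e < d) {θ : ℝ} (hθ : 0 < θ) : ∃ K : ℕ, ∀ P : Par,
    P.d = d → P.e = e → P.M = M → (∀ l < P.J, K ≤ P.c l) → ∀ j ≤ P.J, ∃ n1 : ℕ, ∀ n, n1 ≤ n →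
      ∀ ms, Cls P j n ms → (ms.map (om P.c n j)).sum ≤ θ := by
  classical
  obtain ⟨K, hK⟩ := exists_nat_ge (2 * (snL d e : ℝ) * M / θ)
  refine ⟨K + 1, fun P hd hPe hM hc j hj => ?_⟩
  subst hd hPe hM
  have hjd : j ≤ P.d := hj.trans (Nat.sub_le _ _)
  obtain ⟨n1, hn1⟩ := exists_nat_ge (2 * (∑ p ∈ oldT P.d P.e j, (p.2.mm P : ℝ)) / θ)
  refine ⟨n1 + 1, fun n hn ms hms => ?_⟩
  have hn0 : (0 : ℝ) < n := by exact_mod_cast (show 0 < n by omega)
  have hK0 : (0 : ℝ) < (K : ℝ) + 1 := by positivity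
  have h1 : (ms.map (om P.c n j)).sum ≤ ∑ p ∈ oldT P.d P.e j,
      (ms.count (p.2.kd P.d P.e p.1 j) : ℝ) * om P.c n j (p.2.kd P.d P.e p.1 j) := by
    refine sn_sum ms (oldT P.d P.e j) (fun p => p.2.kd P.d P.e p.1 j) (om P.c n j) fun k hk => ?_
    have h2 : ∀ p ∈ oldT P.d P.e j, (0 : ℝ) ≤ if k = p.2.kd P.d P.e p.1 j then
        om P.c n j (p.2.kd P.d P.e p.1 j) else 0 := by
      intro p _
      split_ifs
      · exact sn_om_nonneg _ _ _ _
      · exact le_refl _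
    rcases hms.mem k hk with ⟨x, A, rfl, -⟩ | ⟨i, hi, τ, hτ, rfl⟩
    · exact sum_nonneg h2
    · have h3 : (i, τ) ∈ oldT P.d P.e j := (mem_oldT hjd).2 ⟨hi, hτ⟩
      refine le_trans ?_ (single_le_sum h2 h3)
      show _ ≤ if τ.kd P.d P.e i j = τ.kd P.d P.e i j then _ else _
      rw [if_pos rfl]
  have h2 : ∑ p ∈ oldT P.d P.e j,
      (ms.count (p.2.kd P.d P.e p.1 j) : ℝ) * om P.c n j (p.2.kd P.d P.e p.1 j) ≤
      ∑ p ∈ oldT P.d P.e j, ((P.M : ℝ) / ((K : ℝ) + 1) + (p.2.mm P : ℝ) / n) := by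
    refine sum_le_sum fun p hp => ?_
    refine sn_one he hj (fun l hl => le_trans (by omega) (hc l hl)) (by omega) hms hK0 ?_ hp hjd
    intro l hl
    exact_mod_cast hc l hl
  have h3 : ∑ p ∈ oldT P.d P.e j, ((P.M : ℝ) / ((K : ℝ) + 1) + (p.2.mm P : ℝ) / n) =
      ((oldT P.d P.e j).card : ℝ) * ((P.M : ℝ) / ((K : ℝ) + 1)) +
        (∑ p ∈ oldT P.d P.e j, (p.2.mm P : ℝ)) / n := by
    rw [sum_add_distrib, sum_const, nsmul_eq_mul, sum_div]
  have h4 : ((oldT P.d P.e j).card : ℝ) * ((P.M : ℝ) / ((K : ℝ) + 1)) ≤ θ / 2 := by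
    have h5 : ((oldT P.d P.e j).card : ℝ) ≤ snL P.d P.e := by exact_mod_cast sn_L hjd
    have h6 : 2 * (snL P.d P.e : ℝ) * P.M ≤ K * θ := (div_le_iff₀ hθ).1 hK
    have h7 : (0 : ℝ) ≤ P.M := Nat.cast_nonneg _
    rw [← mul_div_assoc, div_le_iff₀ hK0]
    nlinarith
  have h5 : (∑ p ∈ oldT P.d P.e j, (p.2.mm P : ℝ)) / n ≤ θ / 2 := by
    have h6 : 2 * (∑ p ∈ oldT P.d P.e j, (p.2.mm P : ℝ)) ≤ n1 * θ := (div_le_iff₀ hθ).1 hn1
    have h7 : (n1 : ℝ) ≤ n := by exact_mod_cast (show n1 ≤ n by omega)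
    rw [div_le_iff₀ hn0]
    nlinarith
  linarith [h1, h2, h3.le, h4, h5]

private theorem sn_card (k : Kd) : k.pts.card = k.nm := by
  cases k with
  | ord e A => rfl
  | cl e dl i As => simp [Kd.pts, Kd.nm]

/-- The members of one type. -/
private theorem sn_mem {P : Par} {j n : ℕ} (he : 2 ≤ P.e) (hj : j ≤ P.J) (hn : 1 ≤ n) {ms : Multiset Kd}
    (hc : Cls P j n ms) {x : ℕ} {A : Finset ℕ} {p : ℕ × CT} (hp : p ∈ oldT P.d P.e j) (hjd : j ≤ P.d) :
    ms.count (p.2.kd P.d P.e p.1 j) * (p.2.kd P.d P.e p.1 j).pts.count (x, A) ≤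
      P.d * (P.M * n ^ (P.e - 1) + p.2.mm P * n ^ (P.e - 2)) := by
  obtain ⟨i, τ⟩ := p
  obtain ⟨hi, hτ⟩ := (mem_oldT hjd).1 hp
  have h5 : (τ.kd P.d P.e i j).pts.count (x, A) ≤ P.d := by
    refine (Multiset.count_le_card _ _).trans ?_
    rw [sn_card]
    exact (nm_kd he hj hi hτ).2
  show ms.count (τ.kd P.d P.e i j) * (τ.kd P.d P.e i j).pts.count (x, A) ≤
      P.d * (P.M * n ^ (P.e - 1) + τ.mm P * n ^ (P.e - 2))
  have h6 : ms.count (τ.kd P.d P.e i j) ≤ P.M * n ^ (P.e - 1) + τ.mm P * n ^ (P.e - 2) := by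
    refine (hc.cnt i hi τ hτ).trans ?_
    by_cases hne : ∃ k, τ = .pl k ∅
    · obtain ⟨k, rfl⟩ := hne
      refine le_add_right (le_of_eq ?_)
      show P.M * P.d ^ (∅ : Finset ℕ).card * P.cc ∅ * n ^ (P.e - 1 - (∅ : Finset ℕ).card) = _
      unfold Par.cc
      rw [card_empty, pow_zero, mul_one, prod_empty, mul_one, Nat.sub_zero]
    · refine le_add_left (Nat.mul_le_mul_left _ (Nat.pow_le_pow_right hn ?_))
      cases τ with
      | pl k S =>
        have hS : S ≠ ∅ := fun h => hne ⟨k, by rw [h]⟩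
        have hS1 : 1 ≤ S.card := Finset.card_pos.2 (nonempty_iff_ne_empty.2 hS)
        show P.e - 1 - S.card ≤ P.e - 2
        omega
      | b0 S => exact Nat.sub_le _ _
      | br r => exact Nat.zero_le _
  calc _ ≤ (P.M * n ^ (P.e - 1) + τ.mm P * n ^ (P.e - 2)) * P.d := Nat.mul_le_mul h6 h5
    _ = _ := Nat.mul_comm _ _

/-- There are enough ordinary points for the groups of `CL2`. -/
theorem ip_cls (d e : ℕ) (kap : ℕ → ℝ) (hk : Crit d e kap) : ∃ E : ℝ, 0 < E ∧ ∀ M : ℕ, ∃ K : ℕ,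
    ∀ P : Par, P.d = d → P.e = e → P.kap = kap → P.M = M → P.Ok 1 E → (∀ l < P.J, K ≤ P.c l) →
      ∀ j ≤ P.J, ∃ n1 : ℕ, ∀ n, n1 ≤ n → ∀ ms, Cls P j n ms → IP j P.e P.c ((P.d + 1) * P.d) ms := by
  classical
  have hκ : 0 < kap e := hk.pos
  have he2 : 2 ≤ e := hk.two
  have hed : e < d := hk.lt
  refine ⟨kap e / 2, by positivity, fun M => ?_⟩
  obtain ⟨K, hK⟩ := exists_nat_ge (4 * (snL d e : ℝ) * d * M / kap e)
  refine ⟨K + 1, fun P hd hPe hPk hM hP hc j hj => ?_⟩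
  subst hd hPe hPk hM
  have hjd : j ≤ P.d := hj.trans (Nat.sub_le _ _)
  obtain ⟨n1, hn1⟩ := exists_nat_ge (4 * ((P.d : ℝ) * ∑ p ∈ oldT P.d P.e j, (p.2.mm P : ℝ)) / P.kap P.e)
  obtain ⟨n2, hn2⟩ := exists_nat_ge (2 * (((P.d : ℝ) + 1) * P.d) / P.kap P.e)
  refine ⟨n1 + n2 + 1, fun n hn ms hms i hi _ => ?_⟩
  have hn0 : (1 : ℝ) ≤ n := by exact_mod_cast (show 1 ≤ n by omega)
  have hA : range j \ (range j).erase i = {i} := by
    ext x
    rw [mem_sdiff, mem_erase, mem_range, mem_singleton]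
    constructor
    · rintro ⟨h1, h2⟩
      by_contra h3
      exact h2 ⟨h3, h1⟩
    · rintro rfl
      exact ⟨hi, fun h => h.1 rfl⟩
  have hc1 : (1 : ℝ) ≤ P.c i := by exact_mod_cast (show 1 ≤ P.c i from le_trans (by omega) (hc i (hi.trans_le hj)))
  have hcK : ((K : ℝ) + 1) ≤ P.c i := by exact_mod_cast hc i (hi.trans_le hj)
  have h1 := hms.win P.e ((range j).erase i) he2 hed (erase_subset _ _) (by
      rw [hA, card_singleton]; omega) (Or.inr fun h => by
      have := mem_range.2 hi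
      rw [← h] at this
      exact notMem_erase i _ this)
  rw [hA, card_singleton] at h1
  have hnat : P.nat P.e {i} = P.kap P.e * P.e := by
    unfold Par.nat
    rw [card_singleton, Nat.descFactorial_one]
  have hcc : P.cc {i} = P.c i := by
    unfold Par.cc
    rw [prod_singleton]
  rw [hnat, hcc] at h1
  have heps : P.eps j ≤ P.kap P.e / 2 := (hP.eps_mono hj (le_refl _)).2.1.trans hP.epsJ
  have hpow0 : (0 : ℝ) ≤ (n : ℝ) ^ (P.e - 2) := by positivity
  have hpow : (n : ℝ) ^ (P.e - 1) = n * (n : ℝ) ^ (P.e - 2) := by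
    rw [← pow_succ']
    congr 1
    omega
  have hN : (n : ℝ) ≤ (n : ℝ) ^ (P.e - 1) := by
    calc (n : ℝ) = (n : ℝ) ^ 1 := (pow_one _).symm
      _ ≤ _ := pow_le_pow_right₀ hn0 (by omega)
  have hX0 : (0 : ℝ) ≤ (n : ℝ) ^ (P.e - 1) := by positivity
  -- the lower bound for all points
  have h2 : P.kap P.e * P.c i * (n : ℝ) ^ (P.e - 1) ≤ (npt ms P.e ((range j).erase i) : ℝ) := by
    have h3 := (abs_le.1 h1).1
    have h4 : P.eps j * P.c i * (n : ℝ) ^ (P.e - 1) ≤ P.kap P.e / 2 * P.c i * (n : ℝ) ^ (P.e - 1) :=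
      mul_le_mul_of_nonneg_right (mul_le_mul_of_nonneg_right heps (by linarith)) hX0
    have h5 : P.kap P.e * 2 ≤ P.kap P.e * P.e := by
      refine mul_le_mul_of_nonneg_left ?_ hκ.le
      exact_mod_cast he2
    have h6 : P.kap P.e * 2 * (P.c i * (n : ℝ) ^ (P.e - 1)) ≤ P.kap P.e * P.e * (P.c i * (n : ℝ) ^ (P.e - 1)) :=
      mul_le_mul_of_nonneg_right h5 (by positivity)
    have h7 : (0 : ℝ) ≤ P.kap P.e * (P.c i * (n : ℝ) ^ (P.e - 1)) := by positivity
    nlinarith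
  -- the members
  have h3 : (npt ms P.e ((range j).erase i) : ℝ) ≤ (ms.count (.ord P.e ((range j).erase i)) : ℝ) +
      ∑ p ∈ oldT P.d P.e j, (P.d : ℝ) * ((P.M : ℝ) * (n : ℝ) ^ (P.e - 1) + (p.2.mm P : ℝ) * (n : ℝ) ^ (P.e - 2)) := by
    have h4 := (sn_npt hjd hms P.e ((range j).erase i)).trans (Nat.add_le_add_left
      (sum_le_sum fun p hp => sn_mem he2 hj (by omega) hms (x := P.e) (A := (range j).erase i) hp hjd) _)
    exact_mod_cast h4
  have h4 : ∑ p ∈ oldT P.d P.e j, (P.d : ℝ) * ((P.M : ℝ) * (n : ℝ) ^ (P.e - 1) + (p.2.mm P : ℝ) * (n : ℝ) ^ (P.e - 2)) =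
      ((oldT P.d P.e j).card : ℝ) * (P.d * P.M * (n : ℝ) ^ (P.e - 1)) +
        (P.d : ℝ) * (∑ p ∈ oldT P.d P.e j, (p.2.mm P : ℝ)) * (n : ℝ) ^ (P.e - 2) := by
    rw [← mul_sum, sum_add_distrib, sum_const, nsmul_eq_mul, ← sum_mul]
    ring
  have h5 : ((oldT P.d P.e j).card : ℝ) * (P.d * P.M * (n : ℝ) ^ (P.e - 1)) ≤
      P.kap P.e / 4 * P.c i * (n : ℝ) ^ (P.e - 1) := by
    have h6 : ((oldT P.d P.e j).card : ℝ) ≤ snL P.d P.e := by exact_mod_cast sn_L hjd
    have h7 : 4 * (snL P.d P.e : ℝ) * P.d * P.M ≤ K * P.kap P.e := (div_le_iff₀ hκ).1 hK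
    have h8 : ((oldT P.d P.e j).card : ℝ) * (P.d * P.M) ≤ P.kap P.e / 4 * P.c i := by
      have h9 : ((oldT P.d P.e j).card : ℝ) * (P.d * P.M) ≤ snL P.d P.e * (P.d * P.M) :=
        mul_le_mul_of_nonneg_right h6 (by positivity)
      have h10 : (K : ℝ) * P.kap P.e ≤ P.c i * P.kap P.e :=
        mul_le_mul_of_nonneg_right (by linarith) hκ.le
      nlinarith
    calc _ = ((oldT P.d P.e j).card : ℝ) * (P.d * P.M) * (n : ℝ) ^ (P.e - 1) := by ring
      _ ≤ _ := mul_le_mul_of_nonneg_right h8 hX0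
  have h6 : (P.d : ℝ) * (∑ p ∈ oldT P.d P.e j, (p.2.mm P : ℝ)) * (n : ℝ) ^ (P.e - 2) ≤
      P.kap P.e / 4 * P.c i * (n : ℝ) ^ (P.e - 1) := by
    have h7 : 4 * ((P.d : ℝ) * ∑ p ∈ oldT P.d P.e j, (p.2.mm P : ℝ)) ≤ n1 * P.kap P.e := (div_le_iff₀ hκ).1 hn1
    have h8 : (n1 : ℝ) ≤ n := by exact_mod_cast (show n1 ≤ n by omega)
    have h9 : (P.d : ℝ) * (∑ p ∈ oldT P.d P.e j, (p.2.mm P : ℝ)) ≤ P.kap P.e / 4 * P.c i * n := by
      have h10 : (n1 : ℝ) * P.kap P.e ≤ n * P.kap P.e := mul_le_mul_of_nonneg_right h8 hκ.le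
      have h11 : P.kap P.e / 4 * n ≤ P.kap P.e / 4 * n * P.c i := le_mul_of_one_le_right (by positivity) hc1
      nlinarith
    rw [hpow]
    calc _ ≤ P.kap P.e / 4 * P.c i * n * (n : ℝ) ^ (P.e - 2) := mul_le_mul_of_nonneg_right h9 hpow0
      _ = _ := by ring
  have h7 : (((P.d : ℝ) + 1) * P.d) * P.c i ≤ P.kap P.e / 2 * P.c i * (n : ℝ) ^ (P.e - 1) := by
    have h8 : 2 * (((P.d : ℝ) + 1) * P.d) ≤ n2 * P.kap P.e := (div_le_iff₀ hκ).1 hn2
    have h9 : (n2 : ℝ) ≤ n := by exact_mod_cast (show n2 ≤ n by omega)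
    have h10 : ((P.d : ℝ) + 1) * P.d ≤ P.kap P.e / 2 * (n : ℝ) ^ (P.e - 1) := by
      have h11 : (n2 : ℝ) * P.kap P.e ≤ (n : ℝ) ^ (P.e - 1) * P.kap P.e :=
        mul_le_mul_of_nonneg_right (h9.trans hN) hκ.le
      nlinarith
    calc _ ≤ P.kap P.e / 2 * (n : ℝ) ^ (P.e - 1) * P.c i := mul_le_mul_of_nonneg_right h10 (by linarith)
      _ = _ := by ring
  have h8 : (((P.d : ℝ) + 1) * P.d) * P.c i ≤ (ms.count (.ord P.e ((range j).erase i)) : ℝ) := by
    linarith [h2, h3, h4.le, h5, h6, h7]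
  exact_mod_cast h8

end Pool.Agent.GD.AL
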