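import Pool.Agent.GD.AL.XC
import Pool.Agent.GD.AL.SubN
import Pool.Agent.GD.N.Cost

/-!
# General d, ALPHA: the target
-/

set_option autoImplicit false

namespace Pool.Agent.GD.AL

open Finset

private theorem sub_mbs_length {i j k : ℕ} (hk : 1 ≤ k) (S : Finset ℕ) :
    (mbs i j k S).length = k := by
  unfold mbs
  split_ifs with h
  · rw [h]
    rfl
  · rw [List.length_cons, List.length_replicate]
    omega

private theorem sub_mem_mbs {i j k : ℕ} {S A : Finset ℕ} (h : A ∈ mbs i j k S) :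
    A = (range j).erase i ∨ A = (range j).erase i \ S := by
  unfold mbs at h
  split_ifs at h
  · exact Or.inr (List.mem_singleton.1 h)
  · rcases List.mem_cons.1 h with h | h
    · exact Or.inl h
    · exact Or.inr (List.eq_of_mem_replicate h)

private theorem sub_mbr_length (i j k e r : ℕ) : (mbr i j k e r).length = k := by
  unfold mbr
  simp

private theorem sub_mem_mbr {i j k e r : ℕ} {A : Finset ℕ} (h : A ∈ mbr i j k e r) :
    ∃ s, A = (range j).erase i \ (Ico (s * (e - 1)) ((s + 1) * (e - 1)) ∩ range r) := by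
  unfold mbr at h
  obtain ⟨s, -, rfl⟩ := List.mem_map.1 h
  exact ⟨s, rfl⟩

private theorem sub_card {E X : Finset ℕ} {m : ℕ} (h : X.card ≤ m) :
    E \ X ⊆ E ∧ (E \ (E \ X)).card ≤ m := by
  refine ⟨sdiff_subset, le_trans (card_le_card ?_) h⟩
  intro x hx
  rw [mem_sdiff, mem_sdiff, not_and, not_not] at hx
  exact hx.2 hx.1

theorem adm_kd {d e i j : ℕ} (he : 2 ≤ e) (hj : j + e ≤ d) (hi : i < j) {τ : CT}
    (h : τ.Ok d e i j) : AdmC d j e (τ.kd d e i j) := by
  have hq : 1 ≤ (d - i - 1) / (e - 1) := by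
    rw [Nat.one_le_div_iff (by omega)]
    omega
  have hE : ∀ {X : Finset ℕ}, X.card ≤ e - 1 → (range j).erase i \ X ⊆ (range j).erase i ∧
      ((range j).erase i \ ((range j).erase i \ X)).card ≤ e - 1 := fun hX => sub_card hX
  have hE0 : (range j).erase i ⊆ (range j).erase i ∧
      ((range j).erase i \ (range j).erase i).card ≤ e - 1 := by
    refine ⟨Subset.refl _, ?_⟩
    rw [sdiff_self]
    simp
  cases τ with
  | pl k S =>
    obtain ⟨h1, h2, h3, h4⟩ := h
    refine ⟨0, i, mbs i j k S, rfl, he, ?_, ?_, hi, fun A hA => ?_⟩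
    · rw [sub_mbs_length (by omega)]
      omega
    · rw [sub_mbs_length (by omega)]
      unfold trx
      have h5 : k * (e - 1) ≤ d - i - 1 := (Nat.mul_le_mul_right _ h2).trans (Nat.div_mul_le_self _ _)
      omega
    · rcases sub_mem_mbs hA with rfl | rfl
      · exact hE0
      · exact hE h4
  | b0 S =>
    obtain ⟨h1, h2, h3⟩ := h
    refine ⟨_, i, _, rfl, he, ?_, ?_, hi, fun A hA => ?_⟩
    · rw [sub_mbs_length hq]
      exact hq
    · rw [sub_mbs_length hq]
      unfold trx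
      have h5 := Nat.div_add_mod' (d - i - 1) (e - 1)
      omega
    · rcases sub_mem_mbs hA with rfl | rfl
      · exact hE0
      · exact hE (by omega)
  | br r =>
    obtain ⟨h1, h2⟩ := h
    have hq' : 1 ≤ (d - i + r - 1) / (e - 1) := by
      rw [Nat.one_le_div_iff (by omega)]
      omega
    refine ⟨_, i, _, rfl, he, ?_, ?_, hi, fun A hA => ?_⟩
    · rw [sub_mbr_length]
      exact hq'
    · rw [sub_mbr_length]
      unfold trx
      have h5 := Nat.div_add_mod' (d - i + r - 1) (e - 1)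
      omega
    · obtain ⟨s, rfl⟩ := sub_mem_mbr hA
      refine hE ((card_le_card inter_subset_left).trans ?_)
      rw [Nat.card_Ico, add_mul, one_mul]
      omega

theorem adm_cls {P : Par} (he : 2 ≤ P.e) (hed : P.e < P.d) {j n : ℕ} (hj : j ≤ P.J)
    {ms : Multiset Kd} (h : Cls P j n ms) : ∀ k ∈ ms, AdmO P.d j k ∨ AdmC P.d j P.e k := by
  intro k hk
  unfold Par.J at hj
  rcases h.mem k hk with ⟨x, A, rfl, h1, h2, h3, h4⟩ | ⟨i, hi, τ, hτ, rfl⟩
  · exact Or.inl ⟨x, A, rfl, by omega, h2.le, h3, h4⟩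
  · exact Or.inr (adm_kd he (by omega) hi hτ)

theorem hr_cls {P : Par} (he : 2 ≤ P.e) (hed : P.e < P.d) {j n : ℕ} (hj : j ≤ P.J)
    {ms : Multiset Kd} (h : Cls P j n ms) : HH P.d (range j) ms := by
  unfold Par.J at hj
  refine hh_top he (by omega) fun k hk => ?_
  rcases h.mem k hk with ⟨x, A, rfl, -⟩ | ⟨i, hi, τ, hτ, rfl⟩
  · exact Or.inl ⟨x, A, rfl⟩
  · exact Or.inr ⟨i, hi, τ, hτ, rfl⟩

theorem st_HL {d j n : ℕ} {c : ℕ → ℕ} (hc : ∀ l < j, 1 ≤ c l) (hn : ∑ l ∈ range j, c l ≤ n)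
    {ms : Multiset Kd} (hm : ∀ k ∈ ms, k.Ok d j) :
    HL d d c n j ms = (St.mk c (n - ∑ l ∈ range j, c l) ms).H d j (range j) d ∧
      ∀ I D, vd D I c n ms = (St.mk c (n - ∑ l ∈ range j, c l) ms).V j I D := by
  have hnn : (St.mk c (n - ∑ l ∈ range j, c l) ms).n j = n := by
    unfold St.n
    simp only
    omega
  constructor
  · refine St.H_eq (le_refl d) (blk c n) (St.mk c (n - ∑ l ∈ range j, c l) ms) ?_ ?_
      (Subset.refl _) fun k hk => ok_blk (hm k hk)
    · rw [hnn, Fintype.card_fin]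
    · intro i hi
      refine card_blk (fun k hk => hc k (by omega)) ?_
      exact (sum_le_sum_of_subset (range_mono (by omega))).trans hn
  · intro I D
    unfold St.V
    rw [hnn]

theorem ok_wc {P : Par} {E E' : ℝ} (h : P.Ok 1 E) (hE : E ≤ E') (c : ℕ → ℕ) :
    (P.wc c).Ok 1 E' :=
  { toCrit := h.toCrit
    eps0 := h.eps0
    eb := h.eb
    be := h.be
    epsJ := h.epsJ.trans hE
    xp := h.xp
    xm := h.xm
    xm0 := h.xm0 }

theorem targetSub : TargetSub := by
  intro d e kap hk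
  obtain ⟨lo, hi, ρ, E₁, hlo, hhi, hρ, hE₁, hcost⟩ := cost d e kap hk
  obtain ⟨E₂, hE₂, hip⟩ := ip_cls d e kap hk
  refine ⟨1, min E₁ E₂, ρ, le_refl _, lt_min hE₁ hE₂, hρ, fun P hPd hPe hPk hOk η hη => ?_⟩
  subst hPd hPe hPk
  have he := hk.two
  have hed := hk.lt
  -- the constants of the upper bounds
  obtain ⟨η', hη', hη'1, hη'2⟩ : ∃ η' : ℝ, 0 < η' ∧ η' ≤ η ∧ η' ≤ lo :=
    ⟨min η lo, lt_min hη hlo, min_le_left _ _, min_le_right _ _⟩
  have hxc := fun j : ℕ => xc_all P.d j P.e P.d (le_refl _) η' (1 / 2) hη' (by norm_num)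
  choose θ hθ F hF using hxc
  obtain ⟨θ₀, hθ₀, hθle⟩ : ∃ θ₀ : ℝ, 0 < θ₀ ∧ ∀ j ≤ P.J, θ₀ ≤ θ j := by
    obtain ⟨j₀, _, hj₀⟩ := Finset.exists_min_image (range (P.J + 1)) θ ⟨0, by simp⟩
    exact ⟨θ j₀, hθ j₀, fun j hj => hj₀ j (mem_range.2 (by omega))⟩
  obtain ⟨K₁, hK₁⟩ := om_cls P.d P.e P.M he hed hθ₀
  obtain ⟨K₂, hK₂⟩ := hip P.M
  refine ⟨1, fun g => K₁ + K₂ + ∑ j ∈ range (P.J + 1), F j (fun x => if x < j then g x else 0),
    one_pos, fun c hc j hj => ?_⟩
  have hc1 : ∀ i < P.J, 1 ≤ c i := fun i hi => (hc i hi).2.1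
  have hsumle : ∀ i < P.J, K₁ + K₂ + F j (rs (i + 1) j c) ≤ c i := by
    intro i hi
    refine le_trans ?_ (hc i hi).2.2
    have h1 : F j (rs (i + 1) j c) ≤ ∑ j ∈ range (P.J + 1),
        F j (fun x => if x < j then (if i < x ∧ x < P.J then c x else 0) else 0) := by
      have h2 := single_le_sum (f := fun j =>
        F j (fun x => if x < j then (if i < x ∧ x < P.J then c x else 0) else 0))
        (fun _ _ => Nat.zero_le _) (mem_range.2 (Nat.lt_succ_of_le hj))
      refine le_trans (le_of_eq ?_) h2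
      have h3 : rs (i + 1) j c = fun x => if x < j then (if i < x ∧ x < P.J then c x else 0) else 0 := by
        funext x
        unfold rs
        by_cases h4 : x < j
        · rw [if_pos h4]
          by_cases h5 : i < x
          · rw [if_pos ⟨h5, h4⟩, if_pos ⟨h5, by omega⟩]
          · rw [if_neg (by omega), if_neg (by omega)]
        · rw [if_neg h4, if_neg (by omega)]
      rw [h3]
    exact Nat.add_le_add_left h1 _
  have hHr : Hr 0 j (F j) c := fun l _ hl => by
    have := hsumle l (by omega)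
    omega
  obtain ⟨n₁, hn₁⟩ := hF j c hHr
  obtain ⟨n₂, hn₂⟩ := hcost (P.wc c) rfl rfl rfl (ok_wc hOk (min_le_left _ _) c) hc1 j hj
  obtain ⟨n₃, hn₃⟩ := hK₁ (P.wc c) rfl rfl rfl (fun l hl => by
    have := hsumle l hl
    show K₁ ≤ c l
    omega) j hj
  obtain ⟨n₄, hn₄⟩ := hK₂ (P.wc c) rfl rfl rfl rfl (ok_wc hOk (min_le_right _ _) c) (fun l hl => by
    have := hsumle l hl
    show K₂ ≤ c l
    omega) j hj
  refine ⟨1 + n₁ + n₂ + n₃ + n₄ + 2 * ∑ l ∈ range j, c l, fun n hn ms hms hu hv => ?_⟩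
  have hsum : ∑ l ∈ range j, c l ≤ n := by omega
  have hadm := adm_cls (P := P.wc c) he hed hj hms
  obtain ⟨hH, hV⟩ := st_HL (d := P.d) (fun l hl => hc1 l (by omega)) hsum
    (fun k hk => (hadm k hk).elim AdmO.ok AdmC.ok)
  obtain ⟨σ, hσ⟩ : ∃ σ : St, σ = St.mk c (n - ∑ l ∈ range j, c l) ms := ⟨_, rfl⟩
  rw [← hσ] at hH
  simp only [← hσ] at hV
  have hnn : σ.n j = n := by
    rw [hσ]
    unfold St.n
    simp only
    omega
  have hJd : j < P.d := by
    have h1 : P.J = P.d - P.e := rfl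
    omega
  have hInC : InC P.d j P.e c n (1 / 2) (θ j) (range j) σ :=
    { c := fun l => by rw [hσ]
      c' := fun l _ => by
        rw [hσ]
        have : (0 : ℝ) ≤ c l := Nat.cast_nonneg _
        show 1 / 2 * (c l : ℝ) ≤ c l
        linarith
      n := hnn.le
      w := by
        rw [hσ]
        show 1 / 2 * (n : ℝ) ≤ ((n - ∑ l ∈ range j, c l : ℕ) : ℝ)
        have h1 : n ≤ 2 * (n - ∑ l ∈ range j, c l) := by omega
        have h2 : (n : ℝ) ≤ 2 * ((n - ∑ l ∈ range j, c l : ℕ) : ℝ) := by exact_mod_cast h1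
        linarith
      adm := by
        rw [hσ]
        exact hadm
      om := by
        rw [hσ]
        exact (hn₃ n (by omega) ms hms).trans (hθle j hj) }
  have hPos : Pos j c n η' σ (range j) P.d := by
    intro I' hI' D' hID hD'
    rw [← hV I' D']
    have hcc : ∀ I : Finset ℕ, ((P.wc c).cc I : ℝ) = ∏ i ∈ I, (c i : ℝ) := fun I => by
      unfold Par.cc
      push_cast
      rfl
    have hnz : nz c n I' D' = (P.wc c).cc I' * (n : ℝ) ^ (D' - I'.card) := by
      rw [hcc]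
      rfl
    have hnz0 : 0 ≤ ((P.wc c).cc I' : ℝ) * (n : ℝ) ^ (D' - I'.card) := by positivity
    rw [hnz]
    by_cases hlt : D' < P.d
    · have h1 := (hn₂ n (by omega) ms hms hu D' hlt I' hI' hID).1
      refine le_trans ?_ h1
      rw [mul_assoc]
      exact mul_le_mul_of_nonneg_right hη'2 hnz0
    · have h2 : (range j \ I').card = 0 := by omega
      have h3 : I' = range j := by
        rw [card_eq_zero, sdiff_eq_empty_iff_subset] at h2
        exact Subset.antisymm hI' h2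
      have h4 : D' = P.d := by omega
      subst h3
      rw [h4, card_range] at *
      refine le_trans ?_ hv
      rw [mul_assoc]
      exact mul_le_mul_of_nonneg_right hη'1 hnz0
  have hIP : IP j P.e c ((P.d + 1) * P.d) σ.ms := by
    rw [hσ]
    exact hn₄ n (by omega) ms hms
  have hHH : HH P.d (range j) σ.ms := by
    rw [hσ]
    exact hr_cls (P := P.wc c) he hed hj hms
  have hfin := hn₁ n (by omega) σ (range j) (Subset.refl _) hInC hHH hIP hPos
  unfold St.dl at hfin
  have hH' : ((P.wc c).H j n ms : ℤ) = σ.H P.d j (range j) P.d := by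
    show ((HL P.d P.d c n j ms : ℕ) : ℤ) = _
    rw [hH]
  have hV' : (P.wc c).v j n ms = σ.V j (range j) P.d := hV (range j) P.d
  rw [hH', hV']
  linarith

end Pool.Agent.GD.AL
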