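import Pool.Agent.GD.AL.Fl
import Pool.Agent.GD.ST.Core2
import Pool.Agent.KZ.Tr

/-!
# General d, ALPHA, clusters: the position of a cluster with a tied member (CL1, algebra)

A cluster of `l + 1` members created at the level `i`; the first `l` members are `t a_0, …, t a_(l - 1)`, the
last one is `y + t z`, `z` = minus the sum of the parts of the `a_x` in the block `i` (plus any vector which
vanishes on the blocks of `B`).  `tie_limit`: the values at `t = 0` of the solutions.
-/

set_option autoImplicit false
set_option linter.unusedSectionVars false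

namespace Pool.Agent.GD.AL

open Finset MvPolynomial Pool.Agent.H51.TB Pool.Agent.V7.ST
open Pool.Agent.V7 (msk)

section

variable {ν : Type} [Fintype ν] [DecidableEq ν] {d : ℕ}

/-- The direction of the tied member. -/
def zh {R : Type} [CommRing R] (β : ν → ℕ) (i : ℕ) (B : Finset ℕ) (l : ℕ) (a : ℕ → ν → R)
    (b : ν → R) (s : ν) : R :=
  if β s ∈ B then 0 else if β s = i then - ∑ x ∈ range l, a x s else b s

/-- The position of the object `ord 1 B` (the direction). -/
def pb {R : Type} [CommRing R] (β : ν → ℕ) (i l : ℕ) (a : ℕ → ν → R) (b : ν × Fin (d + 1) → R)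
    (z : ν × Fin (d + 1)) : R :=
  if z.2 = 0 ∧ β z.1 = i then - ∑ x ∈ range l, a x z.1 else b z

/-- The position of the cluster of the first `l` members modulo the direction. -/
def pc {R : Type} [CommRing R] (β : ν → ℕ) (i : ℕ) (B : Finset ℕ) (l : ℕ) (a : ℕ → ν → R)
    (b : ν → R) (c : ν × Fin (d + 1) → R) (z : ν × Fin (d + 1)) : R :=
  if z.2.1 + 1 < l then a z.2.1 z.1 else
    if z.2.1 + 1 = l ∧ β z.1 ≠ i then a z.2.1 z.1 + zh β i B l a b z.1 else c z

/-- The position of the cluster with the tied member. -/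
noncomputable def pq (β : ν → ℕ) (i : ℕ) (B : Finset ℕ) (l : ℕ) (a : ℕ → ν → ℂ)
    (b y : ν → ℂ) (c : ν × Fin (d + 1) → ℂ) (z : ν × Fin (d + 1)) : Polynomial ℂ :=
  if z.2.1 < l then Polynomial.X * Polynomial.C (a z.2.1 z.1) else
    if z.2.1 = l then Polynomial.C (y z.1) + Polynomial.X * Polynomial.C (zh β i B l a b z.1)
    else Polynomial.C (c z)

theorem opt_pb {β : ν → ℕ} {i l : ℕ} {B : Finset ℕ} {a : ℕ → ν → ℂ}
    {b : ν × Fin (d + 1) → ℂ} : opt β B (pb β i l a b) = zh β i B l a fun s => b (s, 0) := by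
  funext s
  show (if β s ∈ B then 0 else pb β i l a b (s, 0)) = _
  unfold zh pb
  simp only [true_and]

theorem zh_zero {β : ν → ℕ} {i l : ℕ} {B : Finset ℕ} {a : ℕ → ν → ℂ} {b : ν → ℂ} {s : ν}
    (h : β s ∈ B) : zh β i B l a b s = 0 := if_pos h

variable {β : ν → ℕ} {i e dl : ℕ} {B A : Finset ℕ} {L : List (Finset ℕ)}

/-- The vector `a x`, masked. -/
def avl (β : ν → ℕ) (L : List (Finset ℕ)) (a : ℕ → ν → ℂ) (x : ℕ) : ν → ℂ :=
  msk β (L.getD x ∅) (a x)

/-- The sum of the first members. -/
def sv (β : ν → ℕ) (L : List (Finset ℕ)) (a : ℕ → ν → ℂ) (s : ν) : ℂ :=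
  ∑ x ∈ range L.length, avl β L a x s

theorem sum_fin_range {M : Type} [AddCommMonoid M] {l : ℕ} (hl : l ≤ d + 1) (f : ℕ → M) :
    ∑ x : Fin (d + 1), (if x.1 < l then f x.1 else 0) = ∑ x ∈ range l, f x := by
  rw [Fin.sum_univ_eq_sum_range (fun x => if x < l then f x else 0) (d + 1), ← sum_filter]
  refine sum_congr ?_ fun _ _ => rfl
  ext x
  rw [mem_filter, mem_range, mem_range]
  omega

theorem getD_append_lt {x : ℕ} (h : x < L.length) : (L ++ [A]).getD x ∅ = L.getD x ∅ := by
  rw [List.getD_append _ _ _ _ h]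

theorem getD_append_len : (L ++ [A]).getD L.length ∅ = A := by
  rw [List.getD_append_right _ _ _ _ le_rfl]
  simp

/-- The first members of the cluster. -/
theorem pt_pq_lt (hl : L.length + 1 ≤ d) (a : ℕ → ν → ℂ) (b y : ν → ℂ) (c : ν × Fin (d + 1) → ℂ)
    {x : Fin (d + 1)} (hx : x.1 < L.length) :
    pt β (.cl e dl i (L ++ [A])) x (pq β i B L.length a b y c) =
      fun s => Polynomial.X * Polynomial.C (avl β L a x.1 s) := by
  funext s
  show (if β s ∈ (L ++ [A]).getD x ∅ then (0 : Polynomial ℂ) else
    if β s = i ∧ x.1 + 1 = (L ++ [A]).length then _ else pq β i B L.length a b y c (s, x)) = _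
  rw [getD_append_lt hx, if_neg (show ¬ (β s = i ∧ x.1 + 1 = (L ++ [A]).length) by
    rw [List.length_append, List.length_singleton]
    omega)]
  show (if β s ∈ L.getD x ∅ then (0 : Polynomial ℂ) else
    if x.1 < L.length then Polynomial.X * Polynomial.C (a x.1 s) else _) =
      Polynomial.X * Polynomial.C (if β s ∈ L.getD x.1 ∅ then 0 else a x.1 s)
  rw [if_pos hx]
  split_ifs
  · rw [map_zero, mul_zero]
  · rfl

/-- The tied member. -/
theorem pt_pq_len (hl : L.length + 1 ≤ d) (hiA : i ∉ A) (hiB : i ∉ B) (hAB : A ⊆ B)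
    (a : ℕ → ν → ℂ) (b y : ν → ℂ) (c : ν × Fin (d + 1) → ℂ)
    {x : Fin (d + 1)} (hx : x.1 = L.length) :
    pt β (.cl e dl i (L ++ [A])) x (pq β i B L.length a b y c) =
      fun s => Polynomial.C (msk β (insert i A) y s) +
        Polynomial.X * Polynomial.C (zh β i B L.length a b s) := by
  funext s
  show (if β s ∈ (L ++ [A]).getD x ∅ then (0 : Polynomial ℂ) else
    if β s = i ∧ x.1 + 1 = (L ++ [A]).length then
      - ∑ y' : Fin (d + 1), (if y'.1 + 1 < (L ++ [A]).length then
        pq β i B L.length a b y c (s, y') else 0)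
    else pq β i B L.length a b y c (s, x)) =
      Polynomial.C (if β s ∈ insert i A then 0 else y s) + _
  rw [hx, getD_append_len, List.length_append, List.length_singleton]
  by_cases h1 : β s ∈ A
  · rw [if_pos h1, if_pos (mem_insert_of_mem h1), zh_zero (hAB h1), map_zero, mul_zero, add_zero]
  · rw [if_neg h1]
    by_cases h2 : β s = i
    · rw [if_pos ⟨h2, rfl⟩, if_pos (mem_insert.2 (Or.inl h2)), map_zero, zero_add]
      unfold zh
      rw [if_neg (show ¬ β s ∈ B by rwa [h2]), if_pos h2, map_neg, mul_neg]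
      congr 1
      rw [map_sum, mul_sum, ← sum_fin_range (d := d) (by omega)]
      refine sum_congr rfl fun x' _ => ?_
      by_cases h3 : x'.1 < L.length
      · rw [if_pos (show x'.1 + 1 < L.length + 1 by omega), if_pos h3]
        show (if x'.1 < L.length then Polynomial.X * Polynomial.C (a x'.1 s) else _) = _
        rw [if_pos h3]
      · rw [if_neg (show ¬ x'.1 + 1 < L.length + 1 by omega), if_neg h3]
    · rw [if_neg (fun h => h2 h.1), if_neg (show ¬ β s ∈ insert i A by
        rw [mem_insert]
        exact fun h => h.elim h2 h1)]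
      show (if x.1 < L.length then _ else if x.1 = L.length then
        Polynomial.C (y s) + Polynomial.X * Polynomial.C (zh β i B L.length a b s) else _) = _
      rw [if_neg (show ¬ x.1 < L.length by omega), if_pos hx]

theorem zz_pq (hl : L.length + 1 ≤ d) (a : ℕ → ν → ℂ) (b y : ν → ℂ) (c : ν × Fin (d + 1) → ℂ) :
    zz β i (pq β i B L.length a b y c) = fun s => Polynomial.C (zz β i c s) := by
  funext s
  show (if β s = i then pq β i B L.length a b y c (s, Fin.last d) else 0) =
    Polynomial.C (if β s = i then c (s, Fin.last d) else 0)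
  split_ifs
  · unfold pq
    rw [if_neg (show ¬ (Fin.last d).1 < L.length by rw [Fin.val_last]; omega),
      if_neg (show ¬ (Fin.last d).1 = L.length by rw [Fin.val_last]; omega)]
  · rw [map_zero]

theorem uu_pq (hl : L.length + 1 ≤ d) (hiA : i ∉ A) (hiB : i ∉ B) (hAB : A ⊆ B)
    (a : ℕ → ν → ℂ) (b y : ν → ℂ) (c : ν × Fin (d + 1) → ℂ) (s : ν) :
    uu β (.cl e dl i (L ++ [A])) (pq β i B L.length a b y c) s =
      (Polynomial.C (msk β (insert i A) y s) +
        Polynomial.X * Polynomial.C (zh β i B L.length a b s)) +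
        Polynomial.X * Polynomial.C (sv β L a s) := by
  rw [uu_cl, List.length_append, List.length_singleton]
  have h1 : ∀ x : Fin (d + 1), (if x.1 < L.length + 1 then
      pt β (.cl e dl i (L ++ [A])) x (pq β i B L.length a b y c) s else 0) =
      (if x.1 < L.length then Polynomial.X * Polynomial.C (avl β L a x.1 s) else 0) +
        if x.1 = L.length then Polynomial.C (msk β (insert i A) y s) +
          Polynomial.X * Polynomial.C (zh β i B L.length a b s) else 0 := by
    intro x
    rcases lt_trichotomy x.1 L.length with h | h | h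
    · rw [if_pos (by omega), if_pos h, if_neg (by omega), pt_pq_lt hl a b y c h, add_zero]
    · rw [if_pos (by omega), if_neg (by omega), if_pos h, pt_pq_len hl hiA hiB hAB a b y c h,
        zero_add]
    · rw [if_neg (by omega), if_neg (by omega), if_neg (by omega), add_zero]
  rw [sum_congr rfl fun x _ => h1 x, sum_add_distrib,
    sum_fin_range (by omega) fun x => Polynomial.X * Polynomial.C (avl β L a x s), ← mul_sum,
    ← map_sum]
  have h2 : ∑ x : Fin (d + 1), (if x.1 = L.length then Polynomial.C (msk β (insert i A) y s) +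
          Polynomial.X * Polynomial.C (zh β i B L.length a b s) else 0) =
      Polynomial.C (msk β (insert i A) y s) +
          Polynomial.X * Polynomial.C (zh β i B L.length a b s) := by
    rw [sum_eq_single (⟨L.length, by omega⟩ : Fin (d + 1))]
    · exact if_pos rfl
    · intro x _ hx
      exact if_neg fun h => hx (Fin.ext h)
    · intro h
      exact absurd (mem_univ _) h
  rw [h2, add_comm]
  rfl

end

end Pool.Agent.GD.AL
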