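import Pool.Agent.GD.AL.Tie

/-!
# General d, ALPHA, clusters: the limit of the tied position

`tie_key`: if `Φ(t)` kills the multiples of `(Y + t Z)^(E + 1)` and all `Y^m r`, then `Φ(0)` kills all
`Y^E Z^p r`.  `tie_dh`: the additional conditions of the cluster.
-/

set_option autoImplicit false
set_option linter.unusedSectionVars false

namespace Pool.Agent.GD.AL

open Finset MvPolynomial Pool.Agent.H51.TB Pool.Agent.V7.ST
open Pool.Agent.V7 (msk)

section

variable {ν : Type} [Fintype ν] [DecidableEq ν]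

/-- The value at `t = 0`. -/
noncomputable def ev0 (φ : (ν → ℕ) → Polynomial ℂ) : Dl ν := Fn fun a => (φ a).eval 0

theorem ev0_map (φ : (ν → ℕ) → Polynomial ℂ) (P : MvPolynomial ν (Polynomial ℂ)) :
    (Fn φ P).eval 0 = ev0 φ (MvPolynomial.map (Polynomial.evalRingHom (0 : ℂ)) P) :=
  Fn_map (Polynomial.evalRingHom (0 : ℂ)) φ P

theorem map_map_C (P : MvPolynomial ν ℂ) :
    MvPolynomial.map (Polynomial.evalRingHom (0 : ℂ)) (MvPolynomial.map Polynomial.C P) = P := by
  rw [MvPolynomial.map_map]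
  have h : (Polynomial.evalRingHom (0 : ℂ)).comp (Polynomial.C : ℂ →+* Polynomial ℂ) =
      RingHom.id ℂ := by
    ext x
    simp
  rw [h, MvPolynomial.map_id]

theorem ev0_C (φ : (ν → ℕ) → Polynomial ℂ) (P : MvPolynomial ν ℂ) :
    ev0 φ P = (Fn φ (MvPolynomial.map Polynomial.C P)).eval 0 := by
  rw [ev0_map, map_map_C]

theorem Fn_C_mul (φ : (ν → ℕ) → Polynomial ℂ) (r : Polynomial ℂ)
    (P : MvPolynomial ν (Polynomial ℂ)) : Fn φ (C r * P) = r * Fn φ P := by
  rw [C_mul_eq_smul, map_smul, smul_eq_mul]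

theorem tie_key (φ : (ν → ℕ) → Polynomial ℂ) (Y Z : MvPolynomial ν ℂ) (E : ℕ)
    (h : ∀ g, Fn φ ((MvPolynomial.map Polynomial.C Y +
      C Polynomial.X * MvPolynomial.map Polynomial.C Z) ^ (E + 1) * g) = 0)
    (r : MvPolynomial ν ℂ) (hr : ∀ m, Fn φ (MvPolynomial.map Polynomial.C (Y ^ m * r)) = 0)
    (p : ℕ) : ev0 φ (Y ^ E * Z ^ p * r) = 0 := by
  rcases Nat.eq_zero_or_pos p with rfl | hp
  · rw [pow_zero, mul_one, ev0_C, hr, Polynomial.eval_zero]
  · obtain ⟨κ, rfl⟩ : ∃ κ, p = κ + 1 := ⟨p - 1, by omega⟩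
    have h1 := Fn_resid (Fn φ) (MvPolynomial.map Polynomial.C Y) (MvPolynomial.map Polynomial.C Z)
      1 E κ (κ + 1) le_rfl le_rfl (by
        intro g
        rw [pow_one]
        exact h g) (MvPolynomial.map Polynomial.C r) (by
        rw [← map_pow, ← map_mul, hr]
        exact dvd_zero _)
    rw [ev0_C, map_mul (MvPolynomial.map Polynomial.C), map_mul (MvPolynomial.map Polynomial.C),
      map_pow (MvPolynomial.map Polynomial.C), map_pow (MvPolynomial.map Polynomial.C)]
    exact h1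

theorem tie_dh (φ : (ν → ℕ) → Polynomial ℂ) (Y Z S : MvPolynomial ν ℂ) (E l : ℕ) (hE : 1 ≤ E)
    (hl : 1 ≤ l)
    (h : ∀ g, Fn φ ((MvPolynomial.map Polynomial.C Y +
      C Polynomial.X * MvPolynomial.map Polynomial.C Z) ^ (E + 1) * g) = 0)
    (hS : ∀ g, Fn φ (MvPolynomial.map Polynomial.C S ^ (l * E + 1) * g) = 0)
    (r : MvPolynomial ν ℂ)
    (hu : Fn φ (((MvPolynomial.map Polynomial.C Y +
      C Polynomial.X * MvPolynomial.map Polynomial.C Z) +
      C Polynomial.X * MvPolynomial.map Polynomial.C S) ^ ((l + 1) * E) *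
        MvPolynomial.map Polynomial.C r) = 0) :
    ev0 φ (Y ^ E * (S ^ (l * E) * r)) = 0 := by
  set T := MvPolynomial.map Polynomial.C Y +
      C Polynomial.X * MvPolynomial.map Polynomial.C Z with hT
  have hlE : 1 ≤ l * E := Nat.mul_pos hl hE
  obtain ⟨g₁, g₂, hg⟩ := add_pow_split T (C Polynomial.X * MvPolynomial.map Polynomial.C S) E
    (l * E - 1)
  have e1 : E + 1 + (l * E - 1) = (l + 1) * E := by
    rw [add_mul, one_mul]
    omega
  have e2 : l * E - 1 + 1 = l * E := by omega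
  rw [e1, e2] at hg
  rw [hg] at hu
  have h1 : ((C Polynomial.X * MvPolynomial.map Polynomial.C S) ^ (l * E) *
      (((((l + 1) * E).choose E : ℕ) : MvPolynomial ν (Polynomial ℂ)) * T ^ E +
        C Polynomial.X * MvPolynomial.map Polynomial.C S * g₁) + T ^ (E + 1) * g₂) *
        MvPolynomial.map Polynomial.C r =
      C (Polynomial.X ^ (l * E) * ((((l + 1) * E).choose E : ℕ) : Polynomial ℂ)) *
        (MvPolynomial.map Polynomial.C S ^ (l * E) * T ^ E * MvPolynomial.map Polynomial.C r) +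
      C (Polynomial.X ^ (l * E) * Polynomial.X) * (MvPolynomial.map Polynomial.C S ^ (l * E + 1) *
        (g₁ * MvPolynomial.map Polynomial.C r)) +
      T ^ (E + 1) * (g₂ * MvPolynomial.map Polynomial.C r) := by
    simp only [map_mul, map_pow, map_natCast]
    ring
  rw [h1, map_add, map_add, h, Fn_C_mul, Fn_C_mul, hS, mul_zero, add_zero, add_zero] at hu
  have h2 : (Polynomial.X ^ (l * E) * ((((l + 1) * E).choose E : ℕ) : Polynomial ℂ)) ≠ 0 := by
    refine mul_ne_zero (pow_ne_zero _ Polynomial.X_ne_zero) (Nat.cast_ne_zero.2 ?_)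
    exact (Nat.choose_pos (by rw [add_mul, one_mul]; omega)).ne'
  have h3 := (mul_eq_zero.1 hu).resolve_left h2
  have h4 := ev0_map φ (MvPolynomial.map Polynomial.C S ^ (l * E) * T ^ E *
    MvPolynomial.map Polynomial.C r)
  have h5 : (Polynomial.evalRingHom (0 : ℂ)) Polynomial.X = 0 := by simp
  have h6 : MvPolynomial.map (Polynomial.evalRingHom (0 : ℂ))
      (MvPolynomial.map Polynomial.C S ^ (l * E) * T ^ E * MvPolynomial.map Polynomial.C r) =
      Y ^ E * (S ^ (l * E) * r) := by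
    rw [map_mul, map_mul, map_pow, map_pow, hT, map_add, map_mul, map_map_C, map_map_C, map_map_C,
      map_map_C, MvPolynomial.map_C, h5, C_0, zero_mul, add_zero]
    ring
  rw [h3, Polynomial.eval_zero, h6] at h4
  exact h4.symm

end

section

variable {ν : Type} [Fintype ν] [DecidableEq ν] {d : ℕ} {β : ν → ℕ} {i E dl : ℕ} {B A : Finset ℕ}
  {L : List (Finset ℕ)} {I : Finset ℕ}

theorem lf_XC (p : ν → ℂ) : lf (fun s => Polynomial.X * Polynomial.C (p s)) =
    C Polynomial.X * MvPolynomial.map Polynomial.C (lf p) := by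
  rw [Pool.Agent.GD.lf_smul, map_lf]

theorem lf_tied (p q : ν → ℂ) :
    lf (fun s => Polynomial.C (p s) + Polynomial.X * Polynomial.C (q s)) =
      MvPolynomial.map Polynomial.C (lf p) + C Polynomial.X * MvPolynomial.map Polynomial.C (lf q) := by
  rw [Pool.Agent.GD.lf_add, lf_XC, map_lf p]

/-- The first members. -/
theorem tie_mem (hl : L.length + 1 ≤ d) {a : ℕ → ν → ℂ} {b y : ν → ℂ} {c : ν × Fin (d + 1) → ℂ}
    {φ : (ν → ℕ) → Polynomial ℂ}
    (h : Sat β I (.cl (E + 1) dl i (L ++ [A])) (pq β i B L.length a b y c) (Fn φ))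
    {x : ℕ} (hx : x < L.length) (g : MvPolynomial ν (Polynomial ℂ)) :
    Fn φ (MvPolynomial.map Polynomial.C (lf (avl β L a x)) ^ (E + 1) * g) = 0 := by
  have h1 := h.1 ⟨x, by omega⟩ (by
    show x < (L ++ [A]).length
    rw [List.length_append]
    omega) g
  rw [pt_pq_lt hl a b y c (by exact hx), lf_XC] at h1
  have h2 : (C Polynomial.X * MvPolynomial.map Polynomial.C (lf (avl β L a x))) ^ (E + 1) * g =
      C (Polynomial.X ^ (E + 1)) *
        (MvPolynomial.map Polynomial.C (lf (avl β L a x)) ^ (E + 1) * g) := by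
    rw [map_pow]
    ring
  change Fn φ ((C Polynomial.X * MvPolynomial.map Polynomial.C (lf (avl β L a x))) ^ (E + 1) * g) =
    0 at h1
  rw [h2, Fn_C_mul] at h1
  exact (mul_eq_zero.1 h1).resolve_left (pow_ne_zero _ Polynomial.X_ne_zero)

/-- The tied member. -/
theorem tie_last (hl : L.length + 1 ≤ d) (hiB : i ∉ B) (hAB : A ⊆ B)
    {a : ℕ → ν → ℂ} {b y : ν → ℂ} {c : ν × Fin (d + 1) → ℂ} {φ : (ν → ℕ) → Polynomial ℂ}
    (h : Sat β I (.cl (E + 1) dl i (L ++ [A])) (pq β i B L.length a b y c) (Fn φ))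
    (g : MvPolynomial ν (Polynomial ℂ)) :
    Fn φ ((MvPolynomial.map Polynomial.C (lf (msk β (insert i A) y)) +
      C Polynomial.X * MvPolynomial.map Polynomial.C (lf (zh β i B L.length a b))) ^ (E + 1) * g) =
        0 := by
  have h1 := h.1 ⟨L.length, by omega⟩ (by
    show L.length < (L ++ [A]).length
    rw [List.length_append, List.length_singleton]
    omega) g
  rw [pt_pq_len hl (fun h => hiB (hAB h)) hiB hAB a b y c rfl, lf_tied] at h1
  exact h1

/-- The sum of the first members. -/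
theorem tie_sum (hl : L.length + 1 ≤ d) {a : ℕ → ν → ℂ} {b y : ν → ℂ}
    {c : ν × Fin (d + 1) → ℂ} {φ : (ν → ℕ) → Polynomial ℂ}
    (h : Sat β I (.cl (E + 1) dl i (L ++ [A])) (pq β i B L.length a b y c) (Fn φ))
    (g : MvPolynomial ν (Polynomial ℂ)) :
    Fn φ (MvPolynomial.map Polynomial.C (lf (sv β L a)) ^ (L.length * E + 1) * g) = 0 := by
  have h1 := sum_pow_mem (Ann (Fn φ)) (fun x => MvPolynomial.map Polynomial.C (lf (avl β L a x)))
    (range L.length) (E + 1) (by omega) (fun x hx g => tie_mem hl h (mem_range.1 hx) g)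
  have h2 : ∑ x ∈ range L.length, MvPolynomial.map Polynomial.C (lf (avl β L a x)) =
      MvPolynomial.map Polynomial.C (lf (sv β L a)) := by
    rw [← map_sum]
    congr 1
    exact (lf_sum _ _).symm
  rw [h2, card_range, Nat.add_sub_cancel] at h1
  exact h1 g

/-- The additional conditions at `t = 0`. -/
theorem tie_add (hl : L.length + 1 ≤ d) (hL : 1 ≤ L.length) (hE : 1 ≤ E) (hiB : i ∉ B)
    (hAB : A ⊆ B) (hi : i ∈ I)
    {a : ℕ → ν → ℂ} {b y : ν → ℂ} {c : ν × Fin (d + 1) → ℂ} {φ : (ν → ℕ) → Polynomial ℂ}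
    (h : Sat β I (.cl (E + 1) dl i (L ++ [A])) (pq β i B L.length a b y c) (Fn φ))
    {κ : ℕ} (h1 : 1 ≤ κ) (h2 : κ ≤ dl) {b' : ν → ℕ} (hb : ∀ s, β s = i → b' s = 0) :
    ev0 φ (lf (msk β (insert i A) y) ^ E *
      (lf (sv β L a) ^ (L.length * E) * (lf (zz β i c) ^ κ * mon ℂ b'))) = 0 := by
  refine tie_dh φ _ (lf (zh β i B L.length a b)) _ E L.length hE hL (tie_last hl hiB hAB h)
    (tie_sum hl h) _ ?_
  have h3 := h.2 hi κ h1 h2 b' hb
  rw [List.length_append, List.length_singleton, Nat.add_sub_cancel,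
    show uu β (.cl (E + 1) dl i (L ++ [A])) (pq β i B L.length a b y c) = fun s =>
      (Polynomial.C (msk β (insert i A) y s) +
        Polynomial.X * Polynomial.C (zh β i B L.length a b s)) +
        Polynomial.X * Polynomial.C (sv β L a s) from
      funext fun s => uu_pq hl (fun h => hiB (hAB h)) hiB hAB a b y c s,
    Pool.Agent.GD.lf_add, lf_tied, lf_XC, zz_pq hl, ← map_lf, ← mon_map Polynomial.C, ← map_pow,
    ← map_mul] at h3
  exact h3

end

end Pool.Agent.GD.AL
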