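import Pool.Agent.GD.AL.TieS

/-!
# General d, ALPHA, clusters: the kernel of the contraction by the direction, and the limit

`ker_Xp`: the functionals of `Xp s` killed by the direction satisfy the conditions of the cluster of the first
members.  `lim_Xp`: the contraction by `y^E` maps the limits of the solutions into `Xp`.
-/

set_option autoImplicit false
set_option linter.unusedSectionVars false

namespace Pool.Agent.GD.AL

open Finset MvPolynomial Pool.Agent.H51.TB Pool.Agent.V7.ST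
open Pool.Agent.V7 (msk)

section

variable {ν : Type} [Fintype ν] [DecidableEq ν] {d : ℕ} {β : ν → ℕ} {i E dl : ℕ} {B A : Finset ℕ}
  {L : List (Finset ℕ)}

theorem pt_pc_lt {a : ℕ → ν → ℂ} {b : ν → ℂ} {c : ν × Fin (d + 1) → ℂ} {x : Fin (d + 1)}
    (hx : x.1 + 1 < L.length) :
    pt β (.cl (E + 1) dl i L) x (pc β i B L.length a b c) = avl β L a x.1 := by
  funext s
  show (if β s ∈ L.getD x ∅ then (0 : ℂ) else
    if β s = i ∧ x.1 + 1 = L.length then _ else pc β i B L.length a b c (s, x)) =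
      if β s ∈ L.getD x.1 ∅ then 0 else a x.1 s
  rw [if_neg (show ¬ (β s = i ∧ x.1 + 1 = L.length) by omega)]
  have h1 : pc β i B L.length a b c (s, x) = a x.1 s := if_pos hx
  rw [h1]

theorem pt_pc_eq (hiL : ∀ A' ∈ L, i ∉ A') (hiB : i ∉ B) (hLB : ∀ A' ∈ L, A' ⊆ B)
    (hl : L.length ≤ d) {a : ℕ → ν → ℂ} {b : ν → ℂ}
    {c : ν × Fin (d + 1) → ℂ} {x : Fin (d + 1)} (hx : x.1 + 1 = L.length) :
    pt β (.cl (E + 1) dl i L) x (pc β i B L.length a b c) =
      avl β L a x.1 + zh β i B L.length a b := by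
  have hx' : L.getD x.1 ∅ ∈ L := getD_mem (by omega)
  funext s
  rw [Pi.add_apply]
  show (if β s ∈ L.getD x ∅ then (0 : ℂ) else
    if β s = i ∧ x.1 + 1 = L.length then
      - ∑ y' : Fin (d + 1), (if y'.1 + 1 < L.length then pc β i B L.length a b c (s, y') else 0)
    else pc β i B L.length a b c (s, x)) =
      (if β s ∈ L.getD x.1 ∅ then 0 else a x.1 s) + _
  by_cases h1 : β s ∈ L.getD x.1 ∅
  · rw [if_pos h1, if_pos h1, zh_zero (hLB _ hx' h1), add_zero]
  · rw [if_neg h1, if_neg h1]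
    by_cases h2 : β s = i
    · rw [if_pos ⟨h2, hx⟩]
      unfold zh
      rw [if_neg (show ¬ β s ∈ B by rwa [h2]), if_pos h2]
      have h3 : ∑ y' : Fin (d + 1), (if y'.1 + 1 < L.length then
          pc β i B L.length a b c (s, y') else 0) = ∑ x' ∈ range x.1, a x' s := by
        rw [← sum_fin_range (d := d) (by omega)]
        refine sum_congr rfl fun x' _ => ?_
        by_cases h4 : x'.1 + 1 < L.length
        · rw [if_pos h4, if_pos (show x'.1 < x.1 by omega)]
          exact if_pos h4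
        · rw [if_neg h4, if_neg (show ¬ x'.1 < x.1 by omega)]
      rw [h3, ← hx, sum_range_succ]
      ring
    · rw [if_neg (fun h => h2 h.1)]
      show (if x.1 + 1 < L.length then a x.1 s else if x.1 + 1 = L.length ∧ β s ≠ i then
        a x.1 s + zh β i B L.length a b s else c (s, x)) = _
      rw [if_neg (by omega), if_pos ⟨hx, h2⟩]

theorem zz_pc (hl : L.length ≤ d) {a : ℕ → ν → ℂ} {b : ν → ℂ} {c : ν × Fin (d + 1) → ℂ} :
    zz β i (pc β i B L.length a b c) = zz β i c := by
  funext s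
  show (if β s = i then pc β i B L.length a b c (s, Fin.last d) else 0) =
    if β s = i then c (s, Fin.last d) else 0
  split_ifs
  · unfold pc
    rw [if_neg (show ¬ (Fin.last d).1 + 1 < L.length by rw [Fin.val_last]; omega),
      if_neg (show ¬ ((Fin.last d).1 + 1 = L.length ∧ β s ≠ i) by rw [Fin.val_last]; omega)]
  · rfl

theorem uu_pc (hL : 1 ≤ L.length) (hiL : ∀ A' ∈ L, i ∉ A') (hiB : i ∉ B)
    (hLB : ∀ A' ∈ L, A' ⊆ B) (hl : L.length ≤ d) {a : ℕ → ν → ℂ} {b : ν → ℂ}
    {c : ν × Fin (d + 1) → ℂ} :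
    uu β (.cl (E + 1) dl i L) (pc β i B L.length a b c) =
      sv β L a + zh β i B L.length a b := by
  funext s
  rw [uu_cl, Pi.add_apply]
  have h1 : ∀ x : Fin (d + 1), (if x.1 < L.length then
      pt β (.cl (E + 1) dl i L) x (pc β i B L.length a b c) s else 0) =
      (if x.1 < L.length then avl β L a x.1 s else 0) +
        if x.1 = L.length - 1 then zh β i B L.length a b s else 0 := by
    intro x
    rcases Nat.lt_trichotomy (x.1 + 1) L.length with h | h | h
    · rw [if_pos (by omega), if_pos (by omega), if_neg (by omega), pt_pc_lt h, add_zero]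
    · rw [if_pos (by omega), if_pos (by omega), if_pos (by omega), pt_pc_eq hiL hiB hLB hl h]
      rfl
    · rw [if_neg (by omega), if_neg (by omega), if_neg (by omega), add_zero]
  rw [sum_congr rfl fun x _ => h1 x, sum_add_distrib,
    sum_fin_range (by omega) fun x => avl β L a x s]
  congr 1
  rw [sum_eq_single (⟨L.length - 1, by omega⟩ : Fin (d + 1))]
  · exact if_pos rfl
  · intro x _ hx
    exact if_neg fun h => hx (Fin.ext h)
  · intro h
    exact absurd (mem_univ _) h

/-- The three additional objects. -/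
def n3 (E dl i : ℕ) (L : List (Finset ℕ)) (A B : Finset ℕ) : Fin 3 → Kd
  | 0 => .cl (E + 1) dl i L
  | 1 => .ord 1 (insert i A)
  | 2 => .ord 1 B

/-- Their positions. -/
def q3 {R : Type} [CommRing R] (β : ν → ℕ) (i : ℕ) (B : Finset ℕ) (l : ℕ) (a : ℕ → ν → R)
    (b c y : ν × Fin (d + 1) → R) : Fin 3 → ν × Fin (d + 1) → R
  | 0 => pc β i B l a (fun s => b (s, 0)) c
  | 1 => y
  | 2 => pb β i l a b

variable {I' : Finset ℕ} {κ : Type} {m : κ → Kd} {p : κ → ν × Fin (d + 1) → ℂ}

theorem sum_zero (hiL : ∀ A' ∈ L, i ∉ A') (hiB : i ∉ B) (a : ℕ → ν → ℂ) (b : ν → ℂ) (s : ν)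
    (hs : β s = i) : sv β L a s + zh β i B L.length a b s = 0 := by
  unfold zh sv
  rw [if_neg (show ¬ β s ∈ B by rwa [hs]), if_pos hs]
  have h1 : ∑ x ∈ range L.length, avl β L a x s = ∑ x ∈ range L.length, a x s := by
    refine sum_congr rfl fun x hx => ?_
    show (if β s ∈ L.getD x ∅ then 0 else a x s) = a x s
    rw [if_neg]
    rw [hs]
    exact hiL _ (getD_mem (mem_range.1 hx))
  rw [h1, add_neg_cancel]

/-- The kernel of the contraction by the direction. -/
theorem ker_Xp (hL : 1 ≤ L.length) (hiL : ∀ A' ∈ L, i ∉ A') (hiB : i ∉ B)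
    (hLB : ∀ A' ∈ L, A' ⊆ B) (hl : L.length ≤ d) {a : ℕ → ν → ℂ}
    {b c y : ν × Fin (d + 1) → ℂ} {s : ℕ} {G : Dl ν}
    (h : G ∈ Xp β I' m p i E dl L a (opt β (insert i A) y)
      (zh β i B L.length a fun s => b (s, 0)) (zz β i c) s)
    (h0 : ct (lf (zh β i B L.length a fun s => b (s, 0))) G = 0) :
    G ∈ XX β s I' (Sum.elim m (n3 E dl i L A B)) (Sum.elim p (q3 β i B L.length a b c y)) := by
  have h1 := mem_Yp.1 (Xp_le _ h)
  have h2 := (mem_Xp.1 h).2
  rw [mem_XX]
  refine ⟨(mem_XX.1 h1.1).1, ?_⟩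
  rintro (x | x)
  · exact (mem_XX.1 h1.1).2 x
  · fin_cases x
    · show Sat β I' (.cl (E + 1) dl i L) (pc β i B L.length a (fun s => b (s, 0)) c) G
      refine ⟨fun x hx => ?_, ?_⟩
      · have hx' : x.1 < L.length := hx
        have h4 := h1.2.1 x.1 hx'
        intro g
        show G (lf (pt β (.cl (E + 1) dl i L) x
          (pc β i B L.length a (fun s => b (s, 0)) c)) ^ (E + 1) * g) = 0
        rcases Nat.lt_or_ge (x.1 + 1) L.length with h3 | h3
        · rw [pt_pc_lt h3]
          exact LinearMap.congr_fun h4 g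
        · rw [pt_pc_eq hiL hiB hLB hl (by omega), lf_add]
          have h5 := ct_add_pow h0 (lf (avl β L a x.1)) (E + 1)
          rw [h4] at h5
          exact LinearMap.congr_fun h5 g
      · intro hi κ' h3 h4 b' hb'
        rw [uu_pc hL hiL hiB hLB hl, zz_pc hl, lf_add, Nat.add_sub_cancel]
        have h5 := ct_add_pow h0 (lf (sv β L a)) (L.length * E)
        have h6 := LinearMap.congr_fun h5 (lf (zz β i c) ^ κ' * mon ℂ b')
        rw [ct_apply, ct_apply] at h6
        rw [h6]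
        exact h2 hi κ' h3 h4 b' hb'
    · show Sat β I' (.ord 1 (insert i A)) y G
      rw [sat_ord, pow_one]
      exact h1.2.2
    · show Sat β I' (.ord 1 B) (pb β i L.length a b) G
      rw [sat_ord, pow_one, opt_pb]
      exact h0

/-! ### Constant positions -/

theorem pt_C (k : Kd) (x : Fin (d + 1)) (q : ν × Fin (d + 1) → ℂ) :
    pt β k x (fun z => (Polynomial.C (q z) : Polynomial ℂ)) = fun s => Polynomial.C (pt β k x q s) := by
  funext s
  exact (pt_map Polynomial.C β k x q s).symm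

theorem uu_C (k : Kd) (q : ν × Fin (d + 1) → ℂ) :
    uu β k (fun z => (Polynomial.C (q z) : Polynomial ℂ)) = fun s => Polynomial.C (uu β k q s) := by
  funext s
  exact (uu_map Polynomial.C β k q s).symm

theorem zz_C (i : ℕ) (q : ν × Fin (d + 1) → ℂ) :
    zz β i (fun z => (Polynomial.C (q z) : Polynomial ℂ)) = fun s => Polynomial.C (zz β i q s) := by
  funext s
  exact (zz_map Polynomial.C β i q s).symm

/-- The members of an object at a constant position. -/
theorem satC_mem {I : Finset ℕ} {k : Kd} {q : ν × Fin (d + 1) → ℂ} {φ : (ν → ℕ) → Polynomial ℂ}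
    (h : Sat β I k (fun z => Polynomial.C (q z)) (Fn φ)) {x : Fin (d + 1)} (hx : x.1 < k.nm)
    (g : MvPolynomial ν ℂ) :
    Fn φ (MvPolynomial.map Polynomial.C (lf (pt β k x q) ^ k.ex * g)) = 0 := by
  have h1 := h.1 x hx (MvPolynomial.map Polynomial.C g)
  rw [pt_C, ← map_lf, ← map_pow, ← map_mul] at h1
  exact h1

/-- The additional conditions of a cluster at a constant position. -/
theorem satC_add {I : Finset ℕ} {e dl i : ℕ} {As : List (Finset ℕ)} {q : ν × Fin (d + 1) → ℂ}
    {φ : (ν → ℕ) → Polynomial ℂ}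
    (h : Sat β I (.cl e dl i As) (fun z => Polynomial.C (q z)) (Fn φ)) (hi : i ∈ I) {κ' : ℕ}
    (h1 : 1 ≤ κ') (h2 : κ' ≤ dl) {b : ν → ℕ} (hb : ∀ s, β s = i → b s = 0) :
    Fn φ (MvPolynomial.map Polynomial.C (lf (uu β (.cl e dl i As) q) ^ (As.length * (e - 1)) *
      (lf (zz β i q) ^ κ' * mon ℂ b))) = 0 := by
  have h3 := h.2 hi κ' h1 h2 b hb
  rw [uu_C, zz_C, ← map_lf, ← map_lf, ← mon_map Polynomial.C, ← map_pow, ← map_pow, ← map_mul,
    ← map_mul] at h3
  exact h3

theorem sat_ev0 {I : Finset ℕ} {k : Kd} {q : ν × Fin (d + 1) → ℂ} {φ : (ν → ℕ) → Polynomial ℂ}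
    (h : Sat β I k (fun z => Polynomial.C (q z)) (Fn φ)) : Sat β I k q (ev0 φ) := by
  refine ⟨fun x hx g => ?_, ?_⟩
  · rw [ev0_C, satC_mem h hx, Polynomial.eval_zero]
  · cases k with
    | ord e A => trivial
    | cl e dl i As =>
      intro hi κ' h1 h2 b hb
      rw [ev0_C, satC_add h hi h1 h2 hb, Polynomial.eval_zero]

theorem ev0_Lv {D : ℕ} {I : Finset ℕ} {φ : (ν → ℕ) → Polynomial ℂ}
    (h : ∀ a, a ∉ Ex β D I → φ a = 0) : ev0 φ ∈ Lv β D I := by
  intro b hb
  show Fn (fun a => (φ a).eval 0) (mon ℂ b) = 0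
  rw [Fn_mon, h b hb, Polynomial.eval_zero, mul_zero]

/-- Multiplication by a constant polynomial, as a linear map. -/
noncomputable def Fc (φ : (ν → ℕ) → Polynomial ℂ) (r : MvPolynomial ν ℂ) :
    MvPolynomial ν ℂ →ₗ[ℂ] Polynomial ℂ where
  toFun P := Fn φ (MvPolynomial.map Polynomial.C (r * P))
  map_add' P Q := by rw [mul_add, map_add (MvPolynomial.map Polynomial.C), map_add]
  map_smul' c P := by
    rw [mul_smul_comm, smul_eq_C_mul, map_mul (MvPolynomial.map Polynomial.C), MvPolynomial.map_C,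
      Fn_C_mul, RingHom.id_apply, Polynomial.smul_eq_C_mul]

/-- The limit conditions of the multiples of `r`, which is killed together with the block `i`. -/
theorem tie_key' {φ : (ν → ℕ) → Polynomial ℂ} {yv zv : ν → ℂ}
    (h : ∀ g, Fn φ ((MvPolynomial.map Polynomial.C (lf yv) +
      C Polynomial.X * MvPolynomial.map Polynomial.C (lf zv)) ^ (E + 1) * g) = 0)
    (hy : ∀ s, β s = i → yv s = 0) (r : MvPolynomial ν ℂ)
    (hr : ∀ b : ν → ℕ, (∀ s, β s = i → b s = 0) →
      Fn φ (MvPolynomial.map Polynomial.C (r * mon ℂ b)) = 0) (p : ℕ) {b : ν → ℕ}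
    (hb : ∀ s, β s = i → b s = 0) : ev0 φ (lf yv ^ E * (lf zv ^ p * (r * mon ℂ b))) = 0 := by
  rw [← mul_assoc]
  refine tie_key φ (lf yv) (lf zv) E h (r * mon ℂ b) (fun n => ?_) p
  have h1 := kill_pow hy (Fc φ r) hr n b hb
  have h2 : Fc φ r (lf yv ^ n * mon ℂ b) = Fn φ (MvPolynomial.map Polynomial.C
      (lf yv ^ n * (r * mon ℂ b))) := by
    show Fn φ (MvPolynomial.map Polynomial.C (r * (lf yv ^ n * mon ℂ b))) = _
    rw [show r * (lf yv ^ n * mon ℂ b) = lf yv ^ n * (r * mon ℂ b) by ring]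
  rw [← h2]
  exact h1

end

end Pool.Agent.GD.AL
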