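import Pool.Agent.GD.AL.TieL

/-!
# General d, ALPHA, clusters: the spaces `Yp`, `Xp` and the contraction by the direction

`Xp s`: the functionals of degree `s` of the level `I'` such that all contractions by powers of the direction
`z` satisfy all conditions of the level `I'`, and the additional conditions of the cluster.
`finrank_Xp`: contraction by `z` gives `dim Xp s ≤ ∑_(j ≤ s) dim (cluster of the first members, z, y)`.
-/

set_option autoImplicit false
set_option linter.unusedSectionVars false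

namespace Pool.Agent.GD.AL

open Finset MvPolynomial Pool.Agent.H51.TB Pool.Agent.V7.ST
open Pool.Agent.V7 (msk)

section

variable {ν : Type} [Fintype ν] [DecidableEq ν]

/-- Kernel and image. -/
theorem finrank_le_ker_add {U K W : Submodule ℂ (Dl ν)} (hU : Module.Finite ℂ U)
    (hK : Module.Finite ℂ K) (hW : Module.Finite ℂ W) (f : Dl ν →ₗ[ℂ] Dl ν)
    (h1 : ∀ G ∈ U, f G = 0 → G ∈ K) (h2 : ∀ G ∈ U, f G ∈ W) :
    Module.finrank ℂ U ≤ Module.finrank ℂ K + Module.finrank ℂ W := by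
  let g : U →ₗ[ℂ] W := (f.comp U.subtype).codRestrict W fun G => h2 G.1 G.2
  have h3 := LinearMap.finrank_range_add_finrank_ker g
  have h4 : Module.finrank ℂ (LinearMap.range g) ≤ Module.finrank ℂ W :=
    Submodule.finrank_le _
  have h5 : Module.finrank ℂ (LinearMap.ker g) ≤ Module.finrank ℂ K := by
    let j : LinearMap.ker g →ₗ[ℂ] K := (U.subtype.comp (LinearMap.ker g).subtype).codRestrict K
      fun G => h1 G.1.1 G.1.2 (congrArg Subtype.val G.2)
    refine LinearMap.finrank_le_finrank_of_injective (f := j) fun x y hxy => ?_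
    have h6 : (j x : Dl ν) = j y := congrArg Subtype.val hxy
    exact Subtype.ext (Subtype.ext h6)
  omega

/-- A vector off the block `i`. -/
theorem kill_pow {N : Type} [AddCommGroup N] [Module ℂ N] {β : ν → ℕ} {i : ℕ} {q : ν → ℂ}
    (hq : ∀ s, β s = i → q s = 0) (Ψ : MvPolynomial ν ℂ →ₗ[ℂ] N)
    (h : ∀ b : ν → ℕ, (∀ s, β s = i → b s = 0) → Ψ (mon ℂ b) = 0) (m : ℕ) (b : ν → ℕ)
    (hb : ∀ s, β s = i → b s = 0) : Ψ (lf q ^ m * mon ℂ b) = 0 := by
  induction m generalizing b with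
  | zero => rw [pow_zero, one_mul]; exact h b hb
  | succ m ih =>
    rw [pow_succ, mul_assoc, lf_mul_mon, mul_sum, map_sum]
    refine sum_eq_zero fun s _ => ?_
    rw [mul_smul_comm, map_smul]
    by_cases hs : q s = 0
    · rw [hs, zero_smul]
    · rw [ih _ fun x hx => ?_, smul_zero]
      have hxs : x ≠ s := by
        rintro rfl
        exact hs (hq x hx)
      rw [Pi.add_apply, hb x hx, Pi.single_eq_of_ne hxs, add_zero]

/-- Modulo a vector which is killed. -/
theorem ct_add_pow {G : Dl ν} {z : MvPolynomial ν ℂ} (hz : ct z G = 0) (w : MvPolynomial ν ℂ)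
    (n : ℕ) : ct ((w + z) ^ n) G = ct (w ^ n) G := by
  induction n with
  | zero => rw [pow_zero, pow_zero]
  | succ n ih =>
    have h1 : ct ((w + z) ^ n * z) G = 0 := by
      rw [ct_mul, hz, map_zero]
    rw [pow_succ, mul_add, ct_add, h1, add_zero, mul_comm, ct_mul, ih, ← ct_mul, pow_succ']

theorem Lv_ct_pow {β : ν → ℕ} {I A : Finset ℕ} {q : ν → ℂ} (hq : ∀ s, β s ∈ A → q s = 0)
    {k D : ℕ} {Φ : Dl ν} (h : Φ ∈ Lv β (D + k) I) : ct (lf q ^ k) Φ ∈ Lv β D (I ∩ A) := by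
  induction k generalizing D with
  | zero =>
    rw [pow_zero, ct_one]
    exact Lv_mono inter_subset_left h
  | succ k ih =>
    rw [pow_succ', ct_mul]
    have h1 : Φ ∈ Lv β (D + 1 + k) I := by
      have e : D + 1 + k = D + (k + 1) := by ring
      rw [e]
      exact h
    have h2 := Lv_ct hq (ih h1)
    rw [inter_assoc, inter_self] at h2
    exact h2

theorem Lv_ct_lt {β : ν → ℕ} {I : Finset ℕ} {q : ν → ℂ} {k D : ℕ} (hk : D < k) {Φ : Dl ν}
    (h : Φ ∈ Lv β D I) : ct (lf q ^ k) Φ = 0 := by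
  obtain ⟨m, rfl⟩ : ∃ m, k = m + (1 + D) := ⟨k - (1 + D), by omega⟩
  have h1 : Φ ∈ Lv β (0 + D) I := by
    rw [zero_add]
    exact h
  have h3 : ct (lf q ^ D) Φ ∈ Lv β 0 (I ∩ ∅) :=
    Lv_ct_pow (fun s hs => absurd hs (notMem_empty (β s))) h1
  have h2 := Lv_zero_ct q h3
  rw [pow_add, pow_add, pow_one, ct_mul, ct_mul, h2, map_zero]

end

section

variable {ν : Type} [Fintype ν] [DecidableEq ν] {d : ℕ}

theorem Sat_ct_pow {β : ν → ℕ} {I A : Finset ℕ} {q : ν → ℂ} (hq : ∀ s, β s ∈ A → q s = 0)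
    {k : Kd} {r : ν × Fin (d + 1) → ℂ} {Φ : Dl ν} (h : Sat β I k r Φ) (n : ℕ) :
    Sat β (I ∩ A) k r (ct (lf q ^ n) Φ) := by
  induction n with
  | zero =>
    rw [pow_zero, ct_one]
    refine ⟨h.1, ?_⟩
    cases k with
    | ord e A' => trivial
    | cl e dl i As => exact fun hi => h.2 (Finset.mem_inter.1 hi).1
  | succ n ih =>
    rw [pow_succ', ct_mul]
    have h2 := Sat_ct hq ih
    rw [inter_assoc, inter_self] at h2
    exact h2

variable (β : ν → ℕ) (I' : Finset ℕ) {κ : Type} (m : κ → Kd) (p : κ → ν × Fin (d + 1) → ℂ)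
  (i E dl : ℕ) (L : List (Finset ℕ)) (a : ℕ → ν → ℂ) (yv zv ζ : ν → ℂ)

/-- The conditions without the additional ones. -/
noncomputable def Yp (s : ℕ) : Submodule ℂ (Dl ν) :=
  XX β s I' m p ⊓ ((⨅ x ∈ range L.length, LinearMap.ker (ct (lf (avl β L a x) ^ (E + 1)))) ⊓
    LinearMap.ker (ct (lf yv)))

/-- The additional conditions. -/
noncomputable def Od : Submodule ℂ (Dl ν) where
  carrier := {G | i ∈ I' → ∀ κ : ℕ, 1 ≤ κ → κ ≤ dl → ∀ b : ν → ℕ, (∀ s, β s = i → b s = 0) →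
    G (lf (sv β L a) ^ (L.length * E) * (lf ζ ^ κ * mon ℂ b)) = 0}
  zero_mem' := fun _ _ _ _ _ _ => rfl
  add_mem' := fun {F G} h h' hi κ h1 h2 b hb => by
    rw [LinearMap.add_apply, h hi κ h1 h2 b hb, h' hi κ h1 h2 b hb, add_zero]
  smul_mem' := fun c G h hi κ h1 h2 b hb => by
    rw [LinearMap.smul_apply, h hi κ h1 h2 b hb, smul_zero]

/-- The space of the contractions. -/
noncomputable def Xp (s : ℕ) : Submodule ℂ (Dl ν) :=
  (⨅ j ∈ range (s + 1), (Yp β I' m p E L a yv (s - j)).comap (ct (lf zv ^ j))) ⊓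
    Od β I' i E dl L a ζ

variable {β I' m p i E dl L a yv zv ζ}

theorem mem_Yp {s : ℕ} {G : Dl ν} : G ∈ Yp β I' m p E L a yv s ↔
    G ∈ XX β s I' m p ∧ (∀ x < L.length, ct (lf (avl β L a x) ^ (E + 1)) G = 0) ∧
      ct (lf yv) G = 0 := by
  unfold Yp
  rw [Submodule.mem_inf, Submodule.mem_inf, Submodule.mem_iInf]
  refine and_congr_right fun _ => and_congr ?_ Iff.rfl
  refine forall_congr' fun x => ?_
  rw [Submodule.mem_iInf, mem_range]
  rfl

theorem mem_Xp {s : ℕ} {G : Dl ν} : G ∈ Xp β I' m p i E dl L a yv zv ζ s ↔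
    (∀ j ≤ s, ct (lf zv ^ j) G ∈ Yp β I' m p E L a yv (s - j)) ∧ G ∈ Od β I' i E dl L a ζ := by
  unfold Xp
  rw [Submodule.mem_inf, Submodule.mem_iInf]
  refine and_congr ?_ Iff.rfl
  refine forall_congr' fun j => ?_
  rw [Submodule.mem_iInf, mem_range, Nat.lt_succ_iff]
  rfl

theorem Xp_le (s : ℕ) : Xp β I' m p i E dl L a yv zv ζ s ≤ Yp β I' m p E L a yv s := by
  intro G hG
  have h1 := (mem_Xp.1 hG).1 0 (Nat.zero_le _)
  rw [pow_zero, ct_one, Nat.sub_zero] at h1
  exact h1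

theorem finite_Xp (s : ℕ) : Module.Finite ℂ (Xp β I' m p i E dl L a yv zv ζ s) := by
  have := finite_XX β s I' m p
  exact Submodule.finiteDimensional_of_le ((Xp_le s).trans inf_le_left)

/-- The power of the sum. -/
theorem Yp_sum {s : ℕ} {G : Dl ν} (h : G ∈ Yp β I' m p E L a yv s) :
    ct (lf (sv β L a) ^ (L.length * E + 1)) G = 0 := by
  have h1 := sum_pow_mem (Ann G) (fun x => lf (avl β L a x)) (range L.length) (E + 1) (by omega)
    (fun x hx g => LinearMap.congr_fun ((mem_Yp.1 h).2.1 x (mem_range.1 hx)) g)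
  have h2 : ∑ x ∈ range L.length, lf (avl β L a x) = lf (sv β L a) := (lf_sum _ _).symm
  rw [h2, card_range, Nat.add_sub_cancel] at h1
  exact LinearMap.ext fun g => h1 g

/-- Contraction by the direction. -/
theorem Xp_ct (hz : ∀ s, β s = i → sv β L a s + zv s = 0) {s : ℕ} {G : Dl ν}
    (h : G ∈ Xp β I' m p i E dl L a yv zv ζ (s + 1)) :
    ct (lf zv) G ∈ Xp β I' m p i E dl L a yv zv ζ s := by
  have h0 := Xp_le _ h
  rw [mem_Xp] at h ⊢
  refine ⟨fun j hj => ?_, ?_⟩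
  · have h1 := h.1 (j + 1) (by omega)
    rw [Nat.add_sub_add_right] at h1
    rw [← ct_mul, ← pow_succ]
    exact h1
  · intro hi κ h1 h2 b hb
    have h3 : lf zv * (lf (sv β L a) ^ (L.length * E) * (lf ζ ^ κ * mon ℂ b)) =
        lf (sv β L a) ^ (L.length * E) * (lf ζ ^ κ * (lf (sv β L a + zv) ^ 1 * mon ℂ b)) -
          lf (sv β L a) ^ (L.length * E + 1) * (lf ζ ^ κ * mon ℂ b) := by
      rw [lf_add, pow_one]
      ring
    rw [ct_apply, h3, map_sub]
    have h4 : G (lf (sv β L a) ^ (L.length * E + 1) * (lf ζ ^ κ * mon ℂ b)) = 0 :=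
      LinearMap.congr_fun (Yp_sum h0) _
    rw [h4, sub_zero]
    let Ψ : Dl ν := ct (lf (sv β L a) ^ (L.length * E) * lf ζ ^ κ) G
    have h5 := kill_pow (β := β) (i := i) (q := sv β L a + zv) (fun s hs => hz s hs) Ψ
      (fun b hb => by
        show G (lf (sv β L a) ^ (L.length * E) * lf ζ ^ κ * mon ℂ b) = 0
        rw [mul_assoc]
        exact h.2 hi κ h1 h2 b hb) 1 b hb
    have h6 : Ψ (lf (sv β L a + zv) ^ 1 * mon ℂ b) = G (lf (sv β L a) ^ (L.length * E) *
        (lf ζ ^ κ * (lf (sv β L a + zv) ^ 1 * mon ℂ b))) := by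
      show G (lf (sv β L a) ^ (L.length * E) * lf ζ ^ κ * (lf (sv β L a + zv) ^ 1 * mon ℂ b)) = _
      rw [mul_assoc]
    rw [← h6]
    exact h5

/-- The recursion. -/
theorem finrank_Xp (hz : ∀ s, β s = i → sv β L a s + zv s = 0) (K : ℕ → Submodule ℂ (Dl ν))
    (hfin : ∀ s, Module.Finite ℂ (K s))
    (hK : ∀ s, ∀ G ∈ Xp β I' m p i E dl L a yv zv ζ s, ct (lf zv) G = 0 → G ∈ K s) (s : ℕ) :
    Module.finrank ℂ (Xp β I' m p i E dl L a yv zv ζ s) ≤
      ∑ j ∈ range (s + 1), Module.finrank ℂ (K j) := by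
  induction s with
  | zero =>
    rw [zero_add, sum_range_one]
    have := hfin 0
    refine Submodule.finrank_mono fun G hG => hK 0 G hG ?_
    exact Lv_zero_ct zv (mem_XX.1 (mem_Yp.1 (Xp_le 0 hG)).1).1
  | succ s ih =>
    rw [sum_range_succ]
    refine le_trans ?_ (le_of_eq (add_comm _ _))
    exact (finrank_le_ker_add (finite_Xp (s + 1)) (hfin (s + 1)) (finite_Xp s) (ct (lf zv))
      (hK (s + 1)) fun G hG => Xp_ct hz hG).trans (Nat.add_le_add_left ih _)

end

end Pool.Agent.GD.AL
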