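import Pool.Agent.GD.AL.Last
import Pool.Agent.GD.AL.Tr
import Pool.Agent.GD.AL.BT
import Pool.Agent.GD.AL.XOd

/-!
# General d, ALPHA: exactness of the states with ordinary objects
-/

set_option autoImplicit false

namespace Pool.Agent.GD.AL

open Finset

section XO

private theorem nz_nn_xo (c0 : ℕ → ℕ) (n0 : ℕ) (I : Finset ℕ) (D : ℕ) : 0 ≤ nz c0 n0 I D := by
  unfold nz
  positivity

private theorem pos_anti {J : ℕ} {c0 : ℕ → ℕ} {n0 : ℕ} {η η' : ℝ} (h : η' ≤ η) {σ : St}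
    {I : Finset ℕ} {D : ℕ} (hp : Pos J c0 n0 η σ I D) : Pos J c0 n0 η' σ I D :=
  fun I' hI' D' h1 h2 =>
    (mul_le_mul_of_nonneg_right h (nz_nn_xo c0 n0 I' D')).trans (hp I' hI' D' h1 h2)

private theorem inO_anti {d J : ℕ} {c0 : ℕ → ℕ} {n0 : ℕ} {ϖ ϖ' : ℝ} (h : ϖ' ≤ ϖ) {σ : St}
    {I : Finset ℕ} (ho : InO d J c0 n0 ϖ I σ) : InO d J c0 n0 ϖ' I σ where
  c := ho.c
  c' := fun l hl => (mul_le_mul_of_nonneg_right h (Nat.cast_nonneg _)).trans (ho.c' l hl)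
  n := ho.n
  w := (mul_le_mul_of_nonneg_right h (Nat.cast_nonneg _)).trans ho.w
  adm := ho.adm

private theorem inO_sub {d J : ℕ} {c0 : ℕ → ℕ} {n0 : ℕ} {ϖ : ℝ} {σ : St}
    {I I' : Finset ℕ} (hI : I' ⊆ I) (ho : InO d J c0 n0 ϖ I σ) : InO d J c0 n0 ϖ I' σ where
  c := ho.c
  c' := fun l hl => ho.c' l (hI hl)
  n := ho.n
  w := ho.w
  adm := ho.adm

private theorem hr_mono {i J : ℕ} {F F' : (ℕ → ℕ) → ℕ} (h : ∀ r, F' r ≤ F r) {c0 : ℕ → ℕ}
    (hr : Hr i J F c0) : Hr i J F' c0 := fun l h1 h2 => (h _).trans (hr l h1 h2)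

private theorem ev_log (K : ℝ) (hK : 0 < K) : ∃ n1 : ℕ, ∀ n : ℕ, n1 ≤ n →
    K * (1 + Real.log n) ≤ (n : ℝ) := by
  have h1 := (Real.isLittleO_log_id_atTop.bound (show (0 : ℝ) < 1 / (2 * K) by positivity))
  have h2 := tendsto_natCast_atTop_atTop (R := ℝ) |>.eventually h1
  have h3 := tendsto_natCast_atTop_atTop (R := ℝ) |>.eventually (Filter.eventually_ge_atTop (2 * K))
  obtain ⟨n1, hn1⟩ := Filter.eventually_atTop.1 (h2.and h3)
  refine ⟨n1, fun n hn => ?_⟩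
  obtain ⟨h4, h5⟩ := hn1 n hn
  simp only [Real.norm_eq_abs, id_eq, Nat.abs_cast] at h4
  have h6 : Real.log n ≤ 1 / (2 * K) * n := (le_abs_self _).trans h4
  have h7 := mul_le_mul_of_nonneg_left h6 hK.le
  have h8 : K * (1 / (2 * K) * n) = (n : ℝ) / 2 := by
    field_simp
  rw [h8] at h7
  linarith

theorem xo_all (d J : ℕ) : ∀ D ≤ d, XO d J D := by
  intro D
  induction D using Nat.strong_induction_on with
  | _ D ih =>
    intro hD η' ϖ' hη' hϖ'
    -- at most one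
    set η : ℝ := min η' 1 with hηdef
    set ϖ : ℝ := min ϖ' 1 with hϖdef
    have hη : 0 < η := lt_min hη' one_pos
    have hϖ : 0 < ϖ := lt_min hϖ' one_pos
    obtain ⟨η₁, ϖ₁, K, hη₁, hη₁', hϖ₁, hϖ₁', hK, htr⟩ := tr_ord d J hη (min_le_right _ _) hϖ
      (min_le_right _ _)
    obtain ⟨Ft, hFt⟩ := term_last d J (bt_all d J) hη₁ hϖ₁
    have hη₂ : 0 < min η η₁ := lt_min hη hη₁
    have hϖ₂ : 0 < min ϖ ϖ₁ := lt_min hϖ hϖ₁
    have hih : ∀ D' : ℕ, ∃ F : (ℕ → ℕ) → ℕ, D' < D → ∀ c0 : ℕ → ℕ,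
        Hr 0 J F c0 → ∃ n1 : ℕ, ∀ n0, n1 ≤ n0 → ∀ (σ : St) (I : Finset ℕ), I ⊆ range J →
          InO d J c0 n0 (min ϖ ϖ₁) I σ → Pos J c0 n0 (min η η₁) σ I D' → σ.Ex d J I D' := by
      intro D'
      by_cases h : D' < D
      · obtain ⟨F, hF⟩ := ih D' h (by omega) (min η η₁) (min ϖ ϖ₁) hη₂ hϖ₂
        exact ⟨F, fun _ => hF⟩
      · exact ⟨fun _ => 0, fun h' => absurd h' h⟩
    choose Fi hFi using hih
    refine ⟨fun r => ∑ D' ∈ range D, Fi D' r + Ft r + ⌈K⌉₊, fun c0 hr => ?_⟩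
    have hrt : Hr 0 J Ft c0 := hr_mono (fun r => by
      show Ft r ≤ ∑ D' ∈ range D, Fi D' r + Ft r + ⌈K⌉₊
      omega) hr
    have hri : ∀ D' < D, Hr 0 J (Fi D') c0 := fun D' h => hr_mono (fun r => by
      show Fi D' r ≤ ∑ D' ∈ range D, Fi D' r + Ft r + ⌈K⌉₊
      have h1 : Fi D' r ≤ ∑ D' ∈ range D, Fi D' r :=
        single_le_sum (f := fun x => Fi x r) (fun _ _ => Nat.zero_le _) (mem_range.2 h)
      omega) hr
    have hcK : ∀ l < J, K ≤ (c0 l : ℝ) := by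
      intro l hl
      have h1 : ∑ D' ∈ range D, Fi D' (rs (l + 1) J c0) + Ft (rs (l + 1) J c0) + ⌈K⌉₊ ≤ c0 l :=
        hr l (Nat.zero_le _) hl
      have h2 : ⌈K⌉₊ ≤ c0 l := by omega
      exact (Nat.le_ceil K).trans (by exact_mod_cast h2)
    obtain ⟨nt, hnt⟩ := hFt c0 hrt
    have hni : ∀ D' : ℕ, ∃ n1 : ℕ, D' < D → ∀ n0, n1 ≤ n0 → ∀ (σ : St) (I : Finset ℕ),
        I ⊆ range J → InO d J c0 n0 (min ϖ ϖ₁) I σ → Pos J c0 n0 (min η η₁) σ I D' →
          σ.Ex d J I D' := by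
      intro D'
      by_cases h : D' < D
      · obtain ⟨n1, hn1⟩ := hFi D' h c0 (hri D' h)
        exact ⟨n1, fun _ => hn1⟩
      · exact ⟨0, fun h' => absurd h' h⟩
    choose ni hni using hni
    obtain ⟨nl, hnl⟩ := ev_log K hK
    obtain ⟨nb, hnb⟩ := exists_nat_ge (K * (1 + ∑ l ∈ range J, (c0 l : ℝ)) ^ (d + 1))
    refine ⟨∑ D' ∈ range D, ni D' + nt + nl + nb, fun n0 hn0 σ I hI ho' hp' => ?_⟩
    have ho : InO d J c0 n0 ϖ I σ := inO_anti (min_le_left _ _) ho'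
    have hp : Pos J c0 n0 η σ I D := pos_anti (min_le_left _ _) hp'
    have horc : ∀ η₀ ϖ₀ : ℝ, min η η₁ ≤ η₀ → min ϖ ϖ₁ ≤ ϖ₀ →
        Orc d J c0 n0 (fun _ => True) I D η₀ ϖ₀ := by
      intro η₀ ϖ₀ h1 h2 τ hτ _ I' hI' D' hD' hpτ
      refine hni D' hD' n0 ?_ τ I' (hI'.trans hI) (inO_sub hI' (inO_anti h2 hτ)) (pos_anti h1 hpτ)
      have := single_le_sum (f := ni) (fun _ _ => Nat.zero_le _) (mem_range.2 hD')
      omega
    have hlo := (lb_orc (G := fun _ => True) hD hI ho (fun _ _ => trivial) hη.le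
      (fun I' hI' D' h1 _ h2 => hp I' hI' D' h1 h2)
      (horc η ϖ (min_le_left _ _) (min_le_left _ _))).1
    have hup := htr c0 n0 n0 I D (fun _ => True) (fun x T => T.card = x ∨ (T = ∅ ∧ 2 ≤ x)) hI hD
      ⟨fun l hl => hcK l (mem_range.1 (hI hl)), hnb.trans (by exact_mod_cast (by omega : nb ≤ n0))⟩
      (hnl n0 (by omega)) le_rfl (fun _ _ _ _ => trivial) (fun _ _ _ _ _ _ _ => trivial)
      (fun _ _ _ _ _ _ _ _ => trivial) (by
        intro x T hT hTx hx hkp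
        by_cases hx1 : x = 1
        · exact Or.inl hx1
        right
        push Not at hkp
        obtain ⟨hk1, hk2⟩ := hkp
        have hTne : T.Nonempty := by
          rw [nonempty_iff_ne_empty]
          intro h0
          have := hk2 h0
          omega
        obtain ⟨a, ha⟩ := hTne
        refine ⟨a, ha, ?_⟩
        have h1 : (1 : ℝ) ≤ ∏ l ∈ T.erase a, (c0 l : ℝ) := by
          have h2 : ∀ l ∈ T.erase a, (1 : ℝ) ≤ (c0 l : ℝ) := by
            intro l hl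
            have h3 := hcK l (mem_range.1 (hI (hT (mem_of_mem_erase hl))))
            have h4 : (0 : ℝ) < c0 l := hK.trans_le h3
            have h5 : 0 < c0 l := by exact_mod_cast h4
            exact_mod_cast h5
          calc (1 : ℝ) = ∏ _l ∈ T.erase a, (1 : ℝ) := by rw [prod_const_one]
            _ ≤ _ := prod_le_prod (fun _ _ => zero_le_one) h2
        have h2 : (n0 : ℝ) ≤ (n0 : ℝ) ^ (x - T.card) := by
          rcases Nat.eq_zero_or_pos n0 with h0 | h0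
          · rw [h0, Nat.cast_zero]
            positivity
          · have h3 : (1 : ℝ) ≤ n0 := by exact_mod_cast h0
            exact le_self_pow₀ h3 (by omega)
        have h3 : (0 : ℝ) ≤ (n0 : ℝ) ^ (x - T.card) := by positivity
        nlinarith)
      (horc η₁ ϖ₁ (min_le_right _ _) (min_le_right _ _))
      (fun τ hτ _ hk hpτ => hnt n0 (by omega) τ I D hI hD hτ (fun k hkm => by
        obtain ⟨x, A, rfl, h1⟩ := hk k hkm
        refine ⟨x, A, rfl, h1.imp_right fun h2 => ⟨?_, h2.2⟩⟩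
        exact sdiff_eq_empty_iff_subset.1 h2.1) hpτ)
      σ ho trivial hp
    unfold St.dl at hup
    unfold St.Ex
    omega

end XO

end Pool.Agent.GD.AL
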