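import Pool.Agent.GD.AL.Ph1
import Pool.Agent.GD.AL.Ph2
import Pool.Agent.GD.AL.XO

/-!
# General d, ALPHA, part C: the upper bound for the states with clusters
-/

set_option autoImplicit false

namespace Pool.Agent.GD.AL

open Finset

theorem xc_all (d J e : ℕ) : ∀ D ≤ d, XC d J e D := by
  intro D
  induction D using Nat.strong_induction_on with
  | _ D ih =>
    intro hD
    have h1 : ∀ s < D, XC d J e s := fun s hs => ih s hs (by omega)
    exact xc_of hD h1 (xp_of hD h1 fun s hs => xo_all d J s (by omega))

end Pool.Agent.GD.AL
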